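import Pool.Agent.Lib.MP_74d0c9_nt.Defs
import Mathlib.Algebra.DualNumber

/-! First order deformations. -/

set_option autoImplicit false

namespace Pool.Agent.Lib.MP_74d0c9_nt

open HahnSeries

universe u

/-- the map of Laurent series given by a map of the coefficients -/
noncomputable def lmap {A B : Type u} [CommRing A] [CommRing B] (π : A →+* B) :
    LaurentSeries A →+* LaurentSeries B where
  toFun x := x.map π
  map_one' := by
    have h := map_C (Γ := ℤ) (1 : A) π
    rw [map_one π, C_one, C_one] at h
    exact h
  map_mul' x y := HahnSeries.map_mul (π : A →ₙ+* B)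
  map_zero' := by ext; simp
  map_add' x y := by ext; simp

/-- the first order deformation `B + ε D` over `k[ε]` of the matrix `B` -/
noncomputable def deform {k : Type u} [Field k] (B D : Matrix (Fin 2) (Fin 2) (LaurentSeries k)) :
    Matrix (Fin 2) (Fin 2) (LaurentSeries (DualNumber k)) :=
  B.map (lmap (algebraMap k (DualNumber k))) +
    (HahnSeries.C (DualNumber.eps : DualNumber k) : LaurentSeries (DualNumber k)) •
      D.map (lmap (algebraMap k (DualNumber k)))

end Pool.Agent.Lib.MP_74d0c9_nt
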