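import Pool.Agent.Lib.MP_74d0c9_nt.Defs

/-! Several words in a shape. -/

set_option autoImplicit false

namespace Pool.Agent.Lib.MP_74d0c9_nt

/-- Pairwise disjoint words in the shape `a`, which do not cover the cycle. -/
structure IsWords (p f : ℕ) (a : ZMod f → ℕ) {J : Type} [Fintype J] (i : J → ZMod f)
    (m : J → ℕ) : Prop where
  word : ∀ j, IsWord p f a (i j) (m j)
  disj : ∀ (j j' : J) (s s' : ℕ), s < m j → s' < m j' → i j + s = i j' + s' → j = j'
  sum_lt : ∑ j, m j < f

end Pool.Agent.Lib.MP_74d0c9_nt
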