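import Pool.Agent.Lib.MP_74d0c9_nt.Word
import Pool.Agent.Lib.MP_74d0c9_nt.Words
import Pool.Agent.Lib.MP_74d0c9_nt.Deform

/-! The active words of a Kisin module. -/

set_option autoImplicit false

namespace Pool.Agent.Lib.MP_74d0c9_nt

universe u

/-- The word of length `m` at `i` is active for the Kisin module `M`: the matrices
`Y_j = Z_{j+1} X_j(0)` satisfy `Y_i(1,1) = 0` and `Y_{i+s}(1,0) = 0` for `0 < s < m - 1` (rows and
columns are numbered `0, 1`). -/
def Active {A : Type u} [CommRing A] (p f : ℕ) (a : ZMod f → ℕ) (M : KisinModule f A)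
    (i : ZMod f) (m : ℕ) : Prop :=
  IsWord p f a i m ∧ M.Y i 1 1 = 0 ∧ ∀ s : ℕ, 0 < s → s < m - 1 → M.Y (i + s) 1 0 = 0

/-- The active words of the Kisin module `M` are the words at `i j` of length `m j`, for all `j`;
they are pairwise disjoint and do not cover the cycle. -/
structure IsActiveWords {k : Type u} [Field k] (p f : ℕ) (a : ZMod f → ℕ) (M : KisinModule f k)
    {r : ℕ} (i : Fin r → ZMod f) (m : Fin r → ℕ) : Prop where
  words : IsWords p f a i m
  active : ∀ (i' : ZMod f) (m' : ℕ), Active p f a M i' m' ↔ ∃ j, i' = i j ∧ m' = m j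

/-- the étale `φ`-module with Frobenius matrices `B` is absolutely irreducible -/
def AbsIrred {k : Type u} [Field k] {f : ℕ} (p : ℕ) [Fact p.Prime]
    (B : ZMod f → Matrix (Fin 2) (Fin 2) (LaurentSeries k)) : Prop :=
  ∀ (K : Type u) [Field K] (ι : k →+* K), Irred p fun j => (B j).map (lmap ι)

end Pool.Agent.Lib.MP_74d0c9_nt
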