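import Pool.Agent.Lib.MP_74d0c9_nt.Defs

/-! Coefficients of Laurent series and of matrices of Laurent series. -/

set_option autoImplicit false

namespace Pool.Agent.Lib.MP_74d0c9_nt

open HahnSeries

universe u

variable {A : Type u} [CommRing A]

theorem coeff_ps (g : PowerSeries A) (n : ℕ) : (ps g).coeff (n : ℤ) = PowerSeries.coeff n g := by
  have := LaurentSeries.coeff_coe_powerSeries g n
  exact this

theorem coeff_ps_neg (g : PowerSeries A) {j : ℤ} (hj : j < 0) : (ps g).coeff j = 0 := by
  have := PowerSeries.coeff_coe (f := g) j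
  rw [if_pos hj] at this
  exact this

/-- `x` is in `u ^ m A[[u]]` -/
def GE (x : LaurentSeries A) (m : ℤ) : Prop := ∀ j : ℤ, j < m → x.coeff j = 0

theorem GE.mono {x : LaurentSeries A} {m m' : ℤ} (h : GE x m) (hm : m' ≤ m) : GE x m' :=
  fun j hj => h j (lt_of_lt_of_le hj hm)

theorem GE.exists_ps {x : LaurentSeries A} {m : ℤ} (h : GE x m) :
    ∃ g : PowerSeries A, x = single m 1 * ps g ∧ PowerSeries.constantCoeff g = x.coeff m := by
  refine ⟨PowerSeries.mk fun n => x.coeff (m + n), ?_, ?_⟩
  · ext j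
    rw [coeff_single_mul, one_mul]
    rcases lt_or_ge j m with hj | hj
    · rw [h j hj, coeff_ps_neg _ (by omega)]
    · obtain ⟨n, hn⟩ := Int.eq_ofNat_of_zero_le (sub_nonneg.2 hj)
      have : j = m + n := by omega
      subst this
      rw [add_sub_cancel_left, coeff_ps, PowerSeries.coeff_mk]
  · rw [← PowerSeries.coeff_zero_eq_constantCoeff_apply, PowerSeries.coeff_mk]
    simp

theorem GE.mul {x y : LaurentSeries A} {m n : ℤ} (hx : GE x m) (hy : GE y n) :
    GE (x * y) (m + n) ∧ (x * y).coeff (m + n) = x.coeff m * y.coeff n := by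
  obtain ⟨g, hg, hg0⟩ := hx.exists_ps
  obtain ⟨g', hg', hg0'⟩ := hy.exists_ps
  have e : x * y = single (m + n) 1 * ps (g * g') := by
    rw [map_mul]
    conv_lhs => rw [hg, hg']
    have : (single (m + n) (1 : A) : LaurentSeries A) = single m 1 * single n 1 := by
      rw [single_mul_single, one_mul]
    rw [this]
    ring
  constructor
  · intro j hj
    rw [e, coeff_single_mul, one_mul, coeff_ps_neg _ (by omega)]
  · rw [e, coeff_single_mul, one_mul, sub_self, ← hg0, ← hg0']
    have := coeff_ps (g * g') 0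
    rw [Nat.cast_zero] at this
    rw [this, PowerSeries.coeff_zero_eq_constantCoeff_apply, map_mul]

theorem GE.add {x y : LaurentSeries A} {m : ℤ} (hx : GE x m) (hy : GE y m) : GE (x + y) m := by
  intro j hj
  rw [coeff_add, hx j hj, hy j hj, add_zero]

theorem GE.zero (m : ℤ) : GE (0 : LaurentSeries A) m := fun _ _ => rfl

theorem GE_ps (g : PowerSeries A) : GE (ps g) 0 := fun _ hj => coeff_ps_neg g hj

theorem coeff_ps_zero (g : PowerSeries A) : (ps g).coeff 0 = PowerSeries.constantCoeff g := by
  have := coeff_ps g 0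
  rw [Nat.cast_zero] at this
  rw [this, PowerSeries.coeff_zero_eq_constantCoeff_apply]

theorem GE.sum {ι : Type*} (s : Finset ι) (x : ι → LaurentSeries A) {m : ℤ}
    (h : ∀ i ∈ s, GE (x i) m) : GE (∑ i ∈ s, x i) m := by
  classical
  induction s using Finset.induction_on with
  | empty => exact GE.zero m
  | insert a s ha ih =>
    rw [Finset.sum_insert ha]
    exact (h a (Finset.mem_insert_self a s)).add
      (ih fun i hi => h i (Finset.mem_insert_of_mem hi))

theorem coeff_sum' {ι : Type*} (s : Finset ι) (x : ι → LaurentSeries A) (m : ℤ) :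
    (∑ i ∈ s, x i).coeff m = ∑ i ∈ s, (x i).coeff m := by
  classical
  induction s using Finset.induction_on with
  | empty => rfl
  | insert a s ha ih => rw [Finset.sum_insert ha, Finset.sum_insert ha, coeff_add, ih]

/-! ### matrices -/

abbrev Mat (A : Type u) [CommRing A] : Type u := Matrix (Fin 2) (Fin 2) (LaurentSeries A)

/-- all entries are in `u ^ m A[[u]]` -/
def MGE (G : Mat A) (m : ℤ) : Prop := ∀ r s, GE (G r s) m

/-- the coefficients of `u ^ m` -/
def lead (G : Mat A) (m : ℤ) : Matrix (Fin 2) (Fin 2) A := fun r s => (G r s).coeff m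

theorem MGE.mono {G : Mat A} {m m' : ℤ} (h : MGE G m) (hm : m' ≤ m) : MGE G m' :=
  fun r s => (h r s).mono hm

theorem MGE.mul {G H : Mat A} {m n : ℤ} (hG : MGE G m) (hH : MGE H n) :
    MGE (G * H) (m + n) ∧ lead (G * H) (m + n) = lead G m * lead H n := by
  constructor
  · intro r s
    rw [Matrix.mul_apply]
    exact GE.sum _ _ fun i _ => ((hG r i).mul (hH i s)).1
  · ext r s
    rw [lead, Matrix.mul_apply, Matrix.mul_apply, coeff_sum']
    exact Finset.sum_congr rfl fun i _ => ((hG r i).mul (hH i s)).2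

theorem integral_iff {G : Mat A} : Integral G ↔ MGE G 0 := Iff.rfl

/-- the matrix of an invertible matrix of power series -/
noncomputable def gx (X : GL (Fin 2) (PowerSeries A)) : Mat A := X.1.map ps

/-- the matrix of an invertible constant matrix -/
noncomputable def gz (Z : GL (Fin 2) A) : Mat A := Z.1.map HahnSeries.C

theorem gx_MGE (X : GL (Fin 2) (PowerSeries A)) : MGE (gx X) 0 := fun r s => GE_ps (X.1 r s)

theorem gx_mul (X Y : GL (Fin 2) (PowerSeries A)) : gx (X * Y) = gx X * gx Y := by
  unfold gx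
  rw [Units.val_mul, Matrix.map_mul]

theorem gx_one : gx (1 : GL (Fin 2) (PowerSeries A)) = 1 := by
  unfold gx
  rw [Units.val_one, Matrix.map_one _ (map_zero _) (map_one _)]

theorem gz_mul (X Y : GL (Fin 2) A) : gz (X * Y) = gz X * gz Y := by
  unfold gz
  rw [Units.val_mul, Matrix.map_mul]

theorem gz_one : gz (1 : GL (Fin 2) A) = 1 := by
  unfold gz
  rw [Units.val_one, Matrix.map_one _ (map_zero _) (map_one _)]

theorem lead_gx (X : GL (Fin 2) (PowerSeries A)) :
    lead (gx X) 0 = X.1.map PowerSeries.constantCoeff := by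
  ext r s
  exact coeff_ps_zero (X.1 r s)

theorem gz_MGE (Z : GL (Fin 2) A) : MGE (gz Z) 0 := by
  intro r s j hj
  show (HahnSeries.C (Z.1 r s) : LaurentSeries A).coeff j = 0
  rw [HahnSeries.C_apply, coeff_single_of_ne (by omega)]

theorem lead_gz (Z : GL (Fin 2) A) : lead (gz Z) 0 = Z.1 := by
  ext r s
  show (HahnSeries.C (Z.1 r s) : LaurentSeries A).coeff 0 = _
  rw [HahnSeries.C_apply, coeff_single_same]

/-- multiplication by invertible integral matrices does not change the pole order -/
theorem MGE_conj {P P' Q Q' G : Mat A} (hP : MGE P 0) (hP' : MGE P' 0) (hQ : MGE Q 0)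
    (hQ' : MGE Q' 0) (h1 : P' * P = 1) (h2 : Q * Q' = 1) (m : ℤ) :
    MGE (P * G * Q) m ↔ MGE G m := by
  constructor
  · intro h
    have e : G = P' * (P * G * Q) * Q' := by
      rw [show P' * (P * G * Q) * Q' = (P' * P) * G * (Q * Q') by simp only [Matrix.mul_assoc],
        h1, h2, Matrix.one_mul, Matrix.mul_one]
    rw [e]
    have := (((hP'.mul h).1).mul hQ').1
    rwa [zero_add, add_zero] at this
  · intro h
    have := (((hP.mul h).1).mul hQ).1
    rwa [zero_add, add_zero] at this

/-! ### the Frobenius -/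

section
variable (p : ℕ) [Fact p.Prime]

theorem phi_coeff (x : LaurentSeries A) (n : ℤ) : (phi A p x).coeff (p * n) = x.coeff n := by
  exact embDomain_coeff (f := ⟨⟨AddMonoidHom.mulLeft (p : ℤ), _⟩, _⟩) (x := x) (a := n)

theorem phi_coeff_zero (x : LaurentSeries A) {j : ℤ} (h : ¬ (p : ℤ) ∣ j) :
    (phi A p x).coeff j = 0 := by
  apply embDomain_of_notMem_range
  rintro ⟨n, hn⟩
  exact h ⟨n, hn.symm⟩

theorem phi_C (r : A) : phi A p (HahnSeries.C r) = HahnSeries.C r := embDomainRingHom_C

theorem phi_single (n : ℤ) (r : A) : phi A p (single n r) = single (p * n) r :=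
  embDomain_single

theorem phi_gz (Z : GL (Fin 2) A) : (gz Z).map (phi A p) = gz Z :=
  Matrix.ext fun r s => phi_C p (Z.1 r s)

theorem phi_GE {x : LaurentSeries A} {m : ℤ} (h : GE x m) : GE (phi A p x) (p * m) := by
  intro j hj
  by_cases hd : (p : ℤ) ∣ j
  · obtain ⟨n, rfl⟩ := hd
    rw [phi_coeff]
    apply h
    have hp : (0 : ℤ) < p := by exact_mod_cast (Fact.out : p.Prime).pos
    exact lt_of_mul_lt_mul_left hj hp.le
  · exact phi_coeff_zero p x hd

end

end Pool.Agent.Lib.MP_74d0c9_nt
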