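import Pool.Agent.Lib.MP_74d0c9_nt.Tangent

/-! Another basis of the tangent vectors which belong to a word. -/

set_option autoImplicit false

namespace Pool.Agent.Lib.MP_74d0c9_nt

open HahnSeries

universe u

section
variable {k : Type u} [CommRing k]

/-- `u⁻¹ e₁₂`, `u⁻¹ (e₂₂ - e₁₁)`, `-u⁻¹ e₂₁` -/
noncomputable def M3 (e : Fin 3) : Mat k :=
  ![!![0, un (-1); 0, 0], !![-un (-1), 0; 0, un (-1)], !![0, 0; -un (-1), 0]] e

theorem nl_eq (l : k) : nl l = M3 0 + (HahnSeries.C l : LaurentSeries k) • M3 1 +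
    (HahnSeries.C (l * l) : LaurentSeries k) • M3 2 := by
  unfold nl
  refine Matrix.ext fun i j => ?_
  rw [Matrix.add_apply, Matrix.add_apply, Matrix.smul_apply, Matrix.smul_apply, smul_eq_mul,
    smul_eq_mul, map_mul]
  fin_cases i <;> fin_cases j
  · show -(HahnSeries.C l * un (-1)) = 0 + HahnSeries.C l * -un (-1) +
      HahnSeries.C l * HahnSeries.C l * 0
    ring
  · show un (-1) = un (-1) + HahnSeries.C l * 0 + HahnSeries.C l * HahnSeries.C l * 0
    ring
  · show -(HahnSeries.C l * HahnSeries.C l * un (-1)) = 0 + HahnSeries.C l * 0 +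
      HahnSeries.C l * HahnSeries.C l * -un (-1)
    ring
  · show HahnSeries.C l * un (-1) = 0 + HahnSeries.C l * un (-1) +
      HahnSeries.C l * HahnSeries.C l * 0
    ring

/-- the directions -/
noncomputable def Ex (k : Type u) [CommRing k] (p m f : ℕ) (a : ZMod f → ℕ) (i : ZMod f) :
    Ix m f → ZMod f → Mat k
  | Sum.inl _ => fun j =>
      if (j - i).val = 0 then Bn p m f (a j) (j - i).val else 0
  | Sum.inr (Sum.inl y) => fun j =>
      if (j - i).val = (y.1 : ℕ) then M3 y.2 * Bn p m f (a j) (j - i).val else 0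
  | Sum.inr (Sum.inr y) => fun j =>
      if (j - i).val = m + (y : ℕ) then Bn p m f (a j) (j - i).val * !![0, 0; 1, 0] else 0

end

section
variable {k : Type u} [Field k] {p f m : ℕ} [Fact p.Prime] [NeZero f] {a : ZMod f → ℕ}

/-- change of basis -/
noncomputable def chg (r : Ix m f → k) : Ix m f → k
  | Sum.inl y => r (Sum.inl y)
  | Sum.inr (Sum.inl y) =>
      ![r (Sum.inr (Sum.inl (y.1, 0))) - r (Sum.inr (Sum.inl (y.1, 2))),
        (r (Sum.inr (Sum.inl (y.1, 1))) + r (Sum.inr (Sum.inl (y.1, 2)))) / 2,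
        (r (Sum.inr (Sum.inl (y.1, 2))) - r (Sum.inr (Sum.inl (y.1, 1)))) / 2] y.2
  | Sum.inr (Sum.inr y) => r (Sum.inr (Sum.inr y))

omit [Fact p.Prime] [NeZero f] in
theorem sum_Ex (h2 : (2 : k) ≠ 0) (i : ZMod f) (r : Ix m f → k) (j : ZMod f) :
    ∑ s, (HahnSeries.C (r s) : LaurentSeries k) • Ex k p m f a i s j =
      ∑ s, (HahnSeries.C (chg r s) : LaurentSeries k) • Dx k p m f a i s j := by
  rw [Fintype.sum_sum_type, Fintype.sum_sum_type, Fintype.sum_prod_type,
    Fintype.sum_sum_type, Fintype.sum_sum_type, Fintype.sum_prod_type]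
  congr 1
  · refine Finset.sum_congr rfl fun y _ => ?_
    show _ • (if (j - i).val = 0 then Bn p m f (a j) (j - i).val else 0) =
      _ • (if (j - i).val = 0 then 1 * Bn p m f (a j) (j - i).val else 0)
    rw [Matrix.one_mul]
    rfl
  · congr 1
    refine Finset.sum_congr rfl fun y _ => ?_
    rw [Fin.sum_univ_three, Fin.sum_univ_three]
    by_cases h : (j - i).val = (y : ℕ)
    · have e1 : ∀ e : Fin 3, Ex k p m f a i (Sum.inr (Sum.inl (y, e))) j =
          M3 e * Bn p m f (a j) (j - i).val := fun e => if_pos h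
      have e2 : ∀ e : Fin 3, Dx k p m f a i (Sum.inr (Sum.inl (y, e))) j =
          nl (lam k e) * Bn p m f (a j) (j - i).val := fun e => if_pos h
      rw [e1, e1, e1, e2, e2, e2, ← smul_mul', ← smul_mul', ← smul_mul', ← smul_mul',
        ← smul_mul', ← smul_mul', ← Matrix.add_mul, ← Matrix.add_mul, ← Matrix.add_mul,
        ← Matrix.add_mul]
      congr 1
      have l0 : lam k 0 = 0 := rfl
      have l1 : lam k 1 = 1 := rfl
      have l2 : lam k 2 = -1 := rfl
      have c0 : chg r (Sum.inr (Sum.inl (y, 0))) =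
        r (Sum.inr (Sum.inl (y, 0))) - r (Sum.inr (Sum.inl (y, 2))) := rfl
      have c1 : chg r (Sum.inr (Sum.inl (y, 1))) =
        (r (Sum.inr (Sum.inl (y, 1))) + r (Sum.inr (Sum.inl (y, 2)))) / 2 := rfl
      have c2 : chg r (Sum.inr (Sum.inl (y, 2))) =
        (r (Sum.inr (Sum.inl (y, 2))) - r (Sum.inr (Sum.inl (y, 1)))) / 2 := rfl
      rw [l0, l1, l2, nl_eq 0, nl_eq 1, nl_eq (-1), c0, c1, c2]
      generalize r (Sum.inr (Sum.inl (y, 0))) = x0
      generalize r (Sum.inr (Sum.inl (y, 1))) = x1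
      generalize r (Sum.inr (Sum.inl (y, 2))) = x2
      have hx1 : (x1 + x2) / 2 - (x2 - x1) / 2 = x1 := by field_simp; ring
      have hx2 : (x1 + x2) / 2 + (x2 - x1) / 2 = x2 := by field_simp; ring
      have d1 := congrArg (HahnSeries.C : k → LaurentSeries k) hx1
      have d2 := congrArg (HahnSeries.C : k → LaurentSeries k) hx2
      rw [map_sub] at d1
      rw [map_add] at d2
      have d3 : (HahnSeries.C (x0 - x2) : LaurentSeries k) =
        HahnSeries.C x0 - HahnSeries.C x2 := map_sub _ _ _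
      rw [d3, ← d1, ← d2]
      simp only [mul_zero, map_zero, zero_smul, add_zero, mul_one, map_one, one_smul, mul_neg,
        neg_neg, map_neg, neg_smul, smul_add, smul_neg, add_smul, sub_smul]
      abel
    · have e1 : ∀ e : Fin 3, Ex k p m f a i (Sum.inr (Sum.inl (y, e))) j = 0 :=
        fun e => if_neg h
      have e2 : ∀ e : Fin 3, Dx k p m f a i (Sum.inr (Sum.inl (y, e))) j = 0 :=
        fun e => if_neg h
      rw [e1, e1, e1, e2, e2, e2]
      simp only [smul_zero]

theorem indep_Ex (hm : 2 ≤ m) (hmf : m < f) (ha : ∀ i, 1 ≤ a i ∧ a i ≤ p) (h2 : (2 : k) ≠ 0)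
    (i : ZMod f) (r : Ix m f → k) (C : ZMod f → Mat k)
    (h : ∀ j, ∑ s, (HahnSeries.C (r s) : LaurentSeries k) • Ex k p m f a i s j =
      C j * Bn p m f (a j) (j - i).val -
        Bn p m f (a j) (j - i).val * (C (j - 1)).map (phi k p)) : r = 0 := by
  have h3 := indep_Dx hm hmf ha h2 i (chg r) C (fun j => by rw [← sum_Ex h2]; exact h j)
  have h4 : ∀ s, chg r s = 0 := fun s => by rw [h3]; rfl
  funext s
  match s with
  | Sum.inl y => exact h4 (Sum.inl y)
  | Sum.inr (Sum.inr y) => exact h4 (Sum.inr (Sum.inr y))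
  | Sum.inr (Sum.inl (y, e)) =>
    have c0 : r (Sum.inr (Sum.inl (y, 0))) - r (Sum.inr (Sum.inl (y, 2))) = 0 :=
      h4 (Sum.inr (Sum.inl (y, 0)))
    have c1 : (r (Sum.inr (Sum.inl (y, 1))) + r (Sum.inr (Sum.inl (y, 2)))) / 2 = 0 :=
      h4 (Sum.inr (Sum.inl (y, 1)))
    have c2 : (r (Sum.inr (Sum.inl (y, 2))) - r (Sum.inr (Sum.inl (y, 1)))) / 2 = 0 :=
      h4 (Sum.inr (Sum.inl (y, 2)))
    rw [div_eq_zero_iff, or_iff_left h2] at c1 c2
    have h5 : r (Sum.inr (Sum.inl (y, 2))) = 0 := by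
      have : 2 * r (Sum.inr (Sum.inl (y, 2))) = 0 := by linear_combination c1 + c2
      exact (mul_eq_zero.1 this).resolve_left h2
    rw [h5] at c0 c1
    fin_cases e
    · show r (Sum.inr (Sum.inl (y, 0))) = 0
      simpa using c0
    · show r (Sum.inr (Sum.inl (y, 1))) = 0
      simpa using c1
    · exact h5

end

end Pool.Agent.Lib.MP_74d0c9_nt
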