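import Pool.Agent.Lib.MP_74d0c9_nt.Defs

/-! The word in the shape. -/

set_option autoImplicit false

namespace Pool.Agent.Lib.MP_74d0c9_nt

/-- a sequence of `0`s and `1`s on the cycle with two consecutive `0`s and a `1` -/
theorem hasWord_of {p f : ℕ} [NeZero f] {a n : ZMod f → ℕ} (hn : ∀ i, n i ≤ 1)
    (h01 : ∀ i, n (i - 1) = 0 → n i = 1 → a i = 1)
    (h11 : ∀ i, n (i - 1) = 1 → n i = 1 → a i = p - 1)
    (h10 : ∀ i, n (i - 1) = 1 → n i = 0 → a i = p)
    {j i1 : ZMod f} (hj : n (j - 1) = 0) (hj' : n j = 0) (hi1 : n i1 = 1) : HasWord p f a := by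
  classical
  have hf : 0 < f := Nat.pos_of_ne_zero (NeZero.ne f)
  have ht1 : ∃ t : ℕ, n (j + t) = 1 := ⟨(i1 - j).val, by
    rw [ZMod.natCast_val, ZMod.cast_id', id_eq, add_sub_cancel]; exact hi1⟩
  obtain ⟨t0, ht0⟩ : ∃ t0, t0 = Nat.find ht1 := ⟨_, rfl⟩
  have hts : n (j + t0) = 1 := ht0 ▸ Nat.find_spec ht1
  have htm : ∀ t < t0, n (j + t) = 0 := by
    intro t ht
    have h1 := Nat.find_min ht1 (ht0 ▸ ht)
    have := hn (j + t)
    omega
  have hpos : t0 ≠ 0 := by
    rintro h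
    rw [h, Nat.cast_zero, add_zero] at hts
    omega
  have htlt : t0 < f := by
    have h1 : t0 ≤ (i1 - j).val := by
      rw [ht0]
      apply Nat.find_min'
      rw [ZMod.natCast_val, ZMod.cast_id', id_eq, add_sub_cancel]; exact hi1
    exact lt_of_le_of_lt h1 (ZMod.val_lt _)
  have hf1 : ((f - 1 : ℕ) : ZMod f) = -1 := by
    have : ((f - 1 + 1 : ℕ) : ZMod f) = 0 := by
      rw [Nat.sub_add_cancel hf, ZMod.natCast_self]
    push_cast at this
    exact eq_neg_of_add_eq_zero_left this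
  have htne : t0 ≠ f - 1 := by
    rintro h
    rw [h, hf1, ← sub_eq_add_neg] at hts
    omega
  obtain ⟨i, hi⟩ : ∃ i : ZMod f, i = j + t0 := ⟨_, rfl⟩
  have hi1' : n (i - 1) = 0 := by
    have e : i - 1 = j + ((t0 - 1 : ℕ) : ZMod f) := by
      rw [hi, Nat.cast_sub (by omega)]
      push_cast
      ring
    rw [e]
    exact htm _ (by omega)
  have hi0 : n i = 1 := by rw [hi]; exact hts
  have hs1 : n (i + ((f - 1 - t0 : ℕ) : ZMod f)) = 0 := by
    have e : i + ((f - 1 - t0 : ℕ) : ZMod f) = j - 1 := by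
      rw [Nat.cast_sub (by omega), hf1, hi]
      ring
    rw [e]
    exact hj
  have hs : ∃ s : ℕ, n (i + s) = 0 := ⟨_, hs1⟩
  obtain ⟨s0, hs0⟩ : ∃ s0, s0 = Nat.find hs := ⟨_, rfl⟩
  have hss : n (i + s0) = 0 := hs0 ▸ Nat.find_spec hs
  have hsm : ∀ s < s0, n (i + s) = 1 := by
    intro s h
    have h1 := Nat.find_min hs (hs0 ▸ h)
    have := hn (i + s)
    omega
  have hsle : s0 ≤ f - 1 - t0 := by
    rw [hs0]
    exact Nat.find_min' hs hs1
  have hspos : s0 ≠ 0 := by
    rintro h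
    rw [h, Nat.cast_zero, add_zero] at hss
    omega
  refine ⟨i, s0 + 1, by omega, by omega, h01 i hi1' hi0, ?_, ?_⟩
  · intro s h1 h2
    apply h11
    · have e : i + (s : ZMod f) - 1 = i + ((s - 1 : ℕ) : ZMod f) := by
        rw [Nat.cast_sub (by omega)]
        push_cast
        ring
      rw [e]
      exact hsm _ (by omega)
    · exact hsm _ (by omega)
  · rw [Nat.add_sub_cancel]
    apply h10
    · have e : i + (s0 : ZMod f) - 1 = i + ((s0 - 1 : ℕ) : ZMod f) := by
        rw [Nat.cast_sub (by omega)]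
        push_cast
        ring
      rw [e]
      exact hsm _ (by omega)
    · exact hss

end Pool.Agent.Lib.MP_74d0c9_nt
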