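import Mathlib

/-!
Counting: the exponents `e : ι → ℕ` with sum less than `n`, together with the `j` with
`j ≤ 2 ∑_{i ∈ W} e i`.
-/

set_option autoImplicit false

namespace Pool.Agent.Lib.MP_74d0c9_nt

open Finset

section
variable {ι : Type} [Fintype ι] [DecidableEq ι]

/-- the exponents with sum less than `n` -/
noncomputable def EE (ι : Type) [Fintype ι] [DecidableEq ι] (n : ℕ) : Finset (ι →₀ ℕ) :=
  (range n).biUnion fun d => finsuppAntidiag (univ : Finset ι) d

theorem mem_EE {n : ℕ} {e : ι →₀ ℕ} : e ∈ EE ι n ↔ ∑ i, e i < n := by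
  unfold EE
  rw [mem_biUnion]
  constructor
  · rintro ⟨d, hd, h⟩
    rw [mem_finsuppAntidiag] at h
    rw [mem_range] at hd
    rw [h.1]
    exact hd
  · intro h
    refine ⟨∑ i, e i, mem_range.2 h, ?_⟩
    rw [mem_finsuppAntidiag]
    exact ⟨rfl, subset_univ _⟩

theorem card_EE (hι : 1 ≤ Fintype.card ι) (n : ℕ) :
    (EE ι n).card = (n + Fintype.card ι - 1).choose (Fintype.card ι) := by
  unfold EE
  rw [card_biUnion]
  · have h : ∀ d, (finsuppAntidiag (univ : Finset ι) d).card = (Fintype.card ι).multichoose d := by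
      intro d
      rw [card_finsuppAntidiag_nat_eq_multichoose, card_univ]
    rw [sum_congr rfl fun d _ => h d]
    rcases Nat.eq_zero_or_pos n with h0 | h0
    · subst h0
      rw [range_zero, sum_empty, zero_add, Nat.choose_eq_zero_of_lt (by omega)]
    · obtain ⟨k, rfl⟩ : ∃ k, n = k + 1 := ⟨n - 1, by omega⟩
      rw [Nat.sum_range_multichoose]
      congr 1
      omega
  · intro d _ d' _ hne
    rw [Function.onFun, disjoint_left]
    intro e h h'
    rw [mem_finsuppAntidiag] at h h'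
    exact hne (h.1.symm.trans h'.1)

theorem sum_EE_succ (i : ι) (n : ℕ) :
    ∑ e ∈ EE ι (n + 1), e i = ∑ e ∈ EE ι n, e i + (EE ι n).card := by
  rw [card_eq_sum_ones, ← sum_add_distrib]
  rw [← sum_filter_ne_zero (s := EE ι (n + 1))]
  symm
  refine sum_bij (fun e _ => e + Finsupp.single i 1) ?_ ?_ ?_ ?_
  · intro e he
    rw [mem_EE] at he
    rw [mem_filter, mem_EE]
    constructor
    · have h1 : ∑ j, (e + Finsupp.single i 1 : ι →₀ ℕ) j = ∑ j, e j + 1 := by
        simp only [Finsupp.add_apply, sum_add_distrib]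
        congr 1
        rw [sum_eq_single i]
        · simp
        · intro j _ hj
          rw [Finsupp.single_apply, if_neg (Ne.symm hj)]
        · intro h
          exact absurd (mem_univ i) h
      omega
    · simp
  · intro e _ e' _ h
    exact add_right_cancel h
  · intro e he
    rw [mem_filter, mem_EE] at he
    refine ⟨e - Finsupp.single i 1, ?_, ?_⟩
    · rw [mem_EE]
      have h1 : e - Finsupp.single i 1 + Finsupp.single i 1 = e := by
        apply tsub_add_cancel_of_le
        rw [Finsupp.single_le_iff]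
        omega
      have h2 : ∑ j, e j = ∑ j, (e - Finsupp.single i 1 : ι →₀ ℕ) j + 1 := by
        conv_lhs => rw [← h1]
        simp only [Finsupp.add_apply, sum_add_distrib]
        congr 1
        rw [sum_eq_single i]
        · simp
        · intro j _ hj
          rw [Finsupp.single_apply, if_neg (Ne.symm hj)]
        · intro h
          exact absurd (mem_univ i) h
      omega
    · apply tsub_add_cancel_of_le
      rw [Finsupp.single_le_iff]
      omega
  · intro e _
    simp

theorem sum_EE (i : ι) (n : ℕ) :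
    ∑ e ∈ EE ι n, e i = (n + Fintype.card ι - 1).choose (Fintype.card ι + 1) := by
  have hι : 1 ≤ Fintype.card ι := Fintype.card_pos_iff.2 ⟨i⟩
  induction n with
  | zero =>
    have : EE ι 0 = ∅ := by
      ext e
      rw [mem_EE]
      simp
    rw [this, sum_empty, Nat.choose_eq_zero_of_lt (by omega)]
  | succ n ih =>
    rw [sum_EE_succ, ih, card_EE hι]
    have h1 : n + 1 + Fintype.card ι - 1 = (n + Fintype.card ι - 1) + 1 := by omega
    rw [h1, Nat.choose_succ_succ, add_comm]

/-- the count -/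
theorem sum_EE_W (hι : 1 ≤ Fintype.card ι) (W : Finset ι) (n : ℕ) :
    ∑ e ∈ EE ι n, (2 * ∑ i ∈ W, e i + 1) = (n + Fintype.card ι - 1).choose (Fintype.card ι) +
      2 * W.card * (n + Fintype.card ι - 1).choose (Fintype.card ι + 1) := by
  rw [sum_add_distrib, ← card_eq_sum_ones, card_EE hι, add_comm]
  congr 1
  rw [← mul_sum, sum_comm, sum_congr rfl fun i _ => sum_EE i n, sum_const, smul_eq_mul]
  ring

/-- the pairs -/
noncomputable def EP (W : Finset ι) (n : ℕ) : Finset ((ι →₀ ℕ) × ℕ) :=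
  (EE ι n).biUnion fun e => (range (2 * ∑ i ∈ W, e i + 1)).image fun j => (e, j)

theorem mem_EP {W : Finset ι} {n : ℕ} {q : (ι →₀ ℕ) × ℕ} :
    q ∈ EP W n ↔ ∑ i, q.1 i < n ∧ q.2 ≤ 2 * ∑ i ∈ W, q.1 i := by
  unfold EP
  rw [mem_biUnion]
  constructor
  · rintro ⟨e, he, h⟩
    rw [mem_image] at h
    obtain ⟨j, hj, rfl⟩ := h
    rw [mem_EE] at he
    rw [mem_range] at hj
    exact ⟨he, Nat.lt_succ_iff.1 hj⟩
  · rintro ⟨h1, h2⟩
    refine ⟨q.1, mem_EE.2 h1, ?_⟩
    rw [mem_image]
    exact ⟨q.2, by rw [mem_range]; omega, rfl⟩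

theorem card_EP (hι : 1 ≤ Fintype.card ι) (W : Finset ι) (n : ℕ) :
    (EP W n).card = (n + Fintype.card ι - 1).choose (Fintype.card ι) +
      2 * W.card * (n + Fintype.card ι - 1).choose (Fintype.card ι + 1) := by
  rw [← sum_EE_W hι W n]
  unfold EP
  rw [card_biUnion]
  · refine sum_congr rfl fun e _ => ?_
    rw [card_image_of_injective _ (fun a b h => (Prod.ext_iff.1 h).2), card_range]
  · intro e _ e' _ hne
    rw [Function.onFun, disjoint_left]
    intro q h h'
    rw [mem_image] at h h'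
    obtain ⟨j, _, rfl⟩ := h
    obtain ⟨j', _, h3⟩ := h'
    exact hne (Prod.ext_iff.1 h3).1.symm

/-- the number of pairs, for exponents as functions -/
theorem card_pairs (hι : 1 ≤ Fintype.card ι) (W : Finset ι) (n : ℕ) :
    Nat.card {q : (ι → ℕ) × ℕ // ∑ i, q.1 i < n ∧ q.2 ≤ 2 * ∑ i ∈ W, q.1 i} =
      (n + Fintype.card ι - 1).choose (Fintype.card ι) +
      2 * W.card * (n + Fintype.card ι - 1).choose (Fintype.card ι + 1) := by
  rw [← card_EP hι W n]
  have e : {q : (ι → ℕ) × ℕ // ∑ i, q.1 i < n ∧ q.2 ≤ 2 * ∑ i ∈ W, q.1 i} ≃ EP W n :=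
    { toFun := fun q => ⟨(Finsupp.equivFunOnFinite.symm q.1.1, q.1.2), by
        rw [mem_EP]; exact q.2⟩
      invFun := fun q => ⟨(Finsupp.equivFunOnFinite q.1.1, q.1.2), by
        have := q.2
        rw [mem_EP] at this
        exact this⟩
      left_inv := fun q => by
        apply Subtype.ext
        exact Prod.ext (by simp) rfl
      right_inv := fun q => by
        apply Subtype.ext
        exact Prod.ext (by simp) rfl }
  rw [Nat.card_congr e, Nat.card_eq_fintype_card, Fintype.card_coe]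

end

/-- the growth of the binomial coefficient -/
theorem pow_le_fact_choose (f n : ℕ) (hn : 1 ≤ n) :
    (n - 1) ^ (f + 1) ≤ (f + 1).factorial * (n + f - 1).choose (f + 1) := by
  rw [← Nat.descFactorial_eq_factorial_mul_choose]
  have h := Nat.pow_sub_le_descFactorial (n + f - 1) (f + 1)
  have e : n + f - 1 + 1 - (f + 1) = n - 1 := by omega
  rw [e] at h
  exact h

open Filter Topology in
/-- a bound for the multiplicity -/
theorem limit_bound (f w : ℕ) (a : ℕ → ℕ) (e : ℝ)
    (h : ∀ n, 1 ≤ n → (n + f - 1).choose f + 2 * w * (n + f - 1).choose (f + 1) ≤ a n)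
    (ht : Tendsto (fun n : ℕ => ((f + 1).factorial : ℝ) * a n / (n : ℝ) ^ (f + 1)) atTop (𝓝 e)) :
    2 * (w : ℝ) ≤ e := by
  have h1 : Tendsto (fun n : ℕ => 2 * (w : ℝ) * (1 - 1 / (n : ℝ)) ^ (f + 1)) atTop
      (𝓝 (2 * (w : ℝ) * (1 - 0) ^ (f + 1))) :=
    ((tendsto_const_nhds.sub tendsto_one_div_atTop_nhds_zero_nat).pow (f + 1)).const_mul _
  rw [sub_zero, one_pow, mul_one] at h1
  refine le_of_tendsto_of_tendsto h1 ht ?_
  filter_upwards [eventually_ge_atTop 1] with n hn
  have hn0 : (0 : ℝ) < n := by exact_mod_cast hn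
  have h2 := h n hn
  have h3 := pow_le_fact_choose f n hn
  have h4 : ((n : ℝ) - 1) ^ (f + 1) ≤ ((f + 1).factorial : ℝ) * ((n + f - 1).choose (f + 1) : ℕ) := by
    have : (((n - 1) ^ (f + 1) : ℕ) : ℝ) ≤ (((f + 1).factorial * (n + f - 1).choose (f + 1) : ℕ) : ℝ) := by
      exact_mod_cast h3
    rw [Nat.cast_pow, Nat.cast_sub hn, Nat.cast_one, Nat.cast_mul] at this
    exact this
  have h5 : 2 * (w : ℝ) * ((n + f - 1).choose (f + 1) : ℕ) ≤ (a n : ℝ) := by
    have : ((2 * w * (n + f - 1).choose (f + 1) : ℕ) : ℝ) ≤ (a n : ℝ) := by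
      exact_mod_cast (Nat.le_add_left _ _).trans h2
    push_cast at this
    exact this
  have e1 : (1 - 1 / (n : ℝ)) ^ (f + 1) = ((n : ℝ) - 1) ^ (f + 1) / (n : ℝ) ^ (f + 1) := by
    rw [← div_pow]
    congr 1
    field_simp
  rw [e1, ← mul_div_assoc]
  apply div_le_div_of_nonneg_right _ (by positivity)
  calc 2 * (w : ℝ) * ((n : ℝ) - 1) ^ (f + 1)
      ≤ 2 * (w : ℝ) * (((f + 1).factorial : ℝ) * ((n + f - 1).choose (f + 1) : ℕ)) :=
        mul_le_mul_of_nonneg_left h4 (by positivity)
    _ = ((f + 1).factorial : ℝ) * (2 * (w : ℝ) * ((n + f - 1).choose (f + 1) : ℕ)) := by ring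
    _ ≤ ((f + 1).factorial : ℝ) * a n := mul_le_mul_of_nonneg_left h5 (by positivity)

end Pool.Agent.Lib.MP_74d0c9_nt
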