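import Mathlib

/-!
The growth of the dimensions, for several words.
-/

set_option autoImplicit false

namespace Pool.Agent.Lib.MP_74d0c9_nt

/-- the growth of the binomial coefficient -/
theorem pow_le_fact_chooseM (N g n : ℕ) (hN : 1 ≤ N) :
    (n - g) ^ (N + g) ≤ (N + g).factorial * (n + N - 1).choose (N + g) := by
  rw [← Nat.descFactorial_eq_factorial_mul_choose]
  have h := Nat.pow_sub_le_descFactorial (n + N - 1) (N + g)
  have e : n + N - 1 + 1 - (N + g) = n - g := by omega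
  rw [e] at h
  exact h

open Filter Topology in
/-- a bound for the multiplicity, for several words -/
theorem limit_boundM (N g P : ℕ) (hN : 1 ≤ N) (a : ℕ → ℕ) (e : ℝ)
    (h : ∀ n, 1 ≤ n → P * (n + N - 1).choose (N + g) ≤ a n)
    (ht : Tendsto (fun n : ℕ => ((N + g).factorial : ℝ) * a n / (n : ℝ) ^ (N + g)) atTop (𝓝 e)) :
    (P : ℝ) ≤ e := by
  have h0 : Tendsto (fun n : ℕ => (g : ℝ) / (n : ℝ)) atTop (𝓝 0) :=
    tendsto_const_div_atTop_nhds_zero_nat _
  have h1 : Tendsto (fun n : ℕ => (P : ℝ) * (1 - (g : ℝ) / (n : ℝ)) ^ (N + g)) atTop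
      (𝓝 ((P : ℝ) * (1 - 0) ^ (N + g))) :=
    ((tendsto_const_nhds.sub h0).pow (N + g)).const_mul _
  rw [sub_zero, one_pow, mul_one] at h1
  refine le_of_tendsto_of_tendsto h1 ht ?_
  filter_upwards [eventually_ge_atTop (g + 1)] with n hn
  have hn0 : (0 : ℝ) < n := by
    have : 0 < n := by omega
    exact_mod_cast this
  have h2 := h n (by omega)
  have h3 := pow_le_fact_chooseM N g n hN
  have h4 : ((n : ℝ) - g) ^ (N + g) ≤
      ((N + g).factorial : ℝ) * ((n + N - 1).choose (N + g) : ℕ) := by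
    have h5 : (((n - g) ^ (N + g) : ℕ) : ℝ) ≤
        (((N + g).factorial * (n + N - 1).choose (N + g) : ℕ) : ℝ) := by
      exact_mod_cast h3
    rw [Nat.cast_pow, Nat.cast_sub (by omega), Nat.cast_mul] at h5
    exact h5
  have h5 : (P : ℝ) * ((n + N - 1).choose (N + g) : ℕ) ≤ (a n : ℝ) := by
    have h6 : ((P * (n + N - 1).choose (N + g) : ℕ) : ℝ) ≤ (a n : ℝ) := by
      exact_mod_cast h2
    rw [Nat.cast_mul] at h6
    exact h6
  have e1 : (1 - (g : ℝ) / (n : ℝ)) ^ (N + g) = ((n : ℝ) - g) ^ (N + g) / (n : ℝ) ^ (N + g) := by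
    rw [← div_pow]
    congr 1
    field_simp
  rw [e1, ← mul_div_assoc]
  apply div_le_div_of_nonneg_right _ (by positivity)
  calc (P : ℝ) * ((n : ℝ) - g) ^ (N + g)
      ≤ (P : ℝ) * (((N + g).factorial : ℝ) * ((n + N - 1).choose (N + g) : ℕ)) :=
        mul_le_mul_of_nonneg_left h4 (by positivity)
    _ = ((N + g).factorial : ℝ) * ((P : ℝ) * ((n + N - 1).choose (N + g) : ℕ)) := by ring
    _ ≤ ((N + g).factorial : ℝ) * a n := mul_le_mul_of_nonneg_left h5 (by positivity)

open Filter Topology in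
/-- the same, in the shape of `exists_testM` -/
theorem limit_boundM' (s o g P : ℕ) (a : ℕ → ℕ) (e : ℝ)
    (h : ∀ n, 1 ≤ n → P * (n + s + o).choose (1 + s + o + g) ≤ a n)
    (ht : Tendsto (fun n : ℕ => ((1 + s + o + g).factorial : ℝ) * a n /
      (n : ℝ) ^ (1 + s + o + g)) atTop (𝓝 e)) : (P : ℝ) ≤ e := by
  refine limit_boundM (1 + s + o) g P (by omega) a e (fun n hn => ?_) ht
  have e1 : n + (1 + s + o) - 1 = n + s + o := by omega
  rw [e1]
  exact h n hn

end Pool.Agent.Lib.MP_74d0c9_nt
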