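import Pool.Agent.Lib.MP_74d0c9_nt.U5

/-!
The exact number of the pairs of exponents, for several words.
-/

set_option autoImplicit false

namespace Pool.Agent.Lib.MP_74d0c9_nt

open Finset

universe u

section
variable {ι : Type} [Fintype ι] [DecidableEq ι] {Λ : Type} [Fintype Λ] [DecidableEq Λ]

/-- the count for the words in `T` -/
theorem sum_EE_words_on (hι : 1 ≤ Fintype.card ι) (W : Λ → Finset ι)
    (hW : ∀ r r' v, v ∈ W r → v ∈ W r' → r = r') (T : Finset Λ) (n : ℕ) :
    ∑ e ∈ EE ι n, ∏ r ∈ T, (2 * ∑ v ∈ W r, e v) = (∏ r ∈ T, 2 * (W r).card) *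
      (n + Fintype.card ι - 1).choose (Fintype.card ι + T.card) := by
  have h := sum_EE_words hι (fun r : T => W r)
    (fun r r' v h h' => Subtype.ext (hW r r' v h h')) n
  rw [Fintype.card_coe] at h
  rw [← prod_coe_sort T (fun r => 2 * (W r).card), ← h]
  refine sum_congr rfl fun e _ => ?_
  exact (prod_coe_sort T (fun r => 2 * ∑ v ∈ W r, e v)).symm

/-- the exact count for several words -/
theorem card_EQ_eq (hι : 1 ≤ Fintype.card ι) (W : Λ → Finset ι)
    (hW : ∀ r r' v, v ∈ W r → v ∈ W r' → r = r') (n : ℕ) :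
    (EQ W n).card = ∑ T : Finset Λ, (∏ r ∈ T, 2 * (W r).card) *
      (n + Fintype.card ι - 1).choose (Fintype.card ι + T.card) := by
  have h1 : (EQ W n).card = ∑ e ∈ EE ι n, ∏ r, (1 + 2 * ∑ v ∈ W r, e v) := by
    unfold EQ
    rw [card_biUnion]
    · refine sum_congr rfl fun e _ => ?_
      rw [card_image_of_injective _ (fun a b h => (Prod.ext_iff.1 h).2), Fintype.card_piFinset]
      refine prod_congr rfl fun r _ => ?_
      rw [card_range, add_comm]
    · intro e _ e' _ hne
      rw [Function.onFun, disjoint_left]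
      intro q h h'
      rw [mem_image] at h h'
      obtain ⟨j, _, rfl⟩ := h
      obtain ⟨j', _, h3⟩ := h'
      exact hne (Prod.ext_iff.1 h3).1.symm
  rw [h1]
  have h2 : ∀ e : ι →₀ ℕ, ∏ r, (1 + 2 * ∑ v ∈ W r, e v) =
      ∑ T : Finset Λ, ∏ r ∈ T, (2 * ∑ v ∈ W r, e v) := by
    intro e
    rw [prod_one_add, powerset_univ]
  simp only [h2]
  rw [sum_comm]
  exact sum_congr rfl fun T _ => sum_EE_words_on hι W hW T n

end

/-- the test algebra for several words, with the exact count -/
theorem exists_testX (k : Type u) [Field k] (J S O : Type) [Fintype J] [Fintype S] [Fintype O]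
    [DecidableEq J] [DecidableEq S] (t0 : S) (ω : S → J) (n : ℕ) (hn : 0 < n) :
    ∃ (A : Type u) (_ : CommRing A) (_ : Algebra k A) (_ : IsLocalRing A) (l : J → A) (s : A)
      (w : S → A) (x : O → A),
      IsTest k A ∧ IsUnit (1 + s) ∧
        (∀ v, cM t0 ω l s w x v ∈ IsLocalRing.maximalIdeal A) ∧
        Ideal.span (Set.range (cM t0 ω l s w x)) ^ n = ⊥ ∧
        (∑ T : Finset J, (∏ j ∈ T, 2 * Fintype.card {t : S // ω t = j}) *
            (n + Fintype.card S + Fintype.card O).choose
              (1 + Fintype.card S + Fintype.card O + T.card)) ≤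
          Module.finrank k (Algebra.adjoin k (Set.range (cM t0 ω l s w x))) := by
  classical
  obtain ⟨A, hA1, hA2, hA3, l, s, w, x, hT, hu, hm, hp, hd⟩ := exists_gen k J S O t0 ω n hn
  refine ⟨A, hA1, hA2, hA3, l, s, w, x, hT, hu, hm, hp, le_trans (le_of_eq ?_) hd⟩
  have hι : Fintype.card (Unit ⊕ (S ⊕ O)) = 1 + Fintype.card S + Fintype.card O := by
    rw [Fintype.card_sum, Fintype.card_sum, Fintype.card_unit, add_assoc]
  have h1 := card_EQ_eq (ι := Unit ⊕ (S ⊕ O)) (by omega) (WW (O := O) ω) WW_disj n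
  have h2 : ∀ j, (WW (O := O) ω j).card = Fintype.card {t : S // ω t = j} := card_WW ω
  simp only [h2] at h1
  have e1 : n + Fintype.card (Unit ⊕ (S ⊕ O)) - 1 = n + Fintype.card S + Fintype.card O := by
    omega
  rw [e1, hι] at h1
  exact h1.symm

/-- one term of the sum -/
theorem le_sum_words {r : ℕ} (c : Fin r → ℕ) (N n : ℕ) :
    (∏ j, c j) * (n + N - 1).choose (N + r) ≤
      ∑ T : Finset (Fin r), (∏ j ∈ T, c j) * (n + N - 1).choose (N + T.card) := by
  have h := single_le_sum (f := fun T : Finset (Fin r) =>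
    (∏ j ∈ T, c j) * (n + N - 1).choose (N + T.card)) (fun _ _ => Nat.zero_le _)
    (mem_univ (univ : Finset (Fin r)))
  simp only [card_univ, Fintype.card_fin] at h
  exact h

end Pool.Agent.Lib.MP_74d0c9_nt
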