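import Mathlib

/-!
# Kisin modules and étale `φ`-modules of rank two with coefficients

`F / ℚ_p` is unramified of degree `f`; an étale `φ`-module with coefficients in `A` over `F` is a
family of `A((u))`-modules indexed by `ZMod f` (the embeddings), with maps from the Frobenius
pull back of the component `i - 1` to the component `i`.
-/

set_option autoImplicit false

namespace Pool.Agent.Lib.MP_74d0c9_nt

open HahnSeries

universe u

section
variable (A : Type u) [CommRing A] (p : ℕ) [Fact p.Prime]

/-- The Frobenius `φ` of `A((u))`: it is the identity on `A`, and `φ(u) = u ^ p`. -/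
noncomputable def phi : LaurentSeries A →+* LaurentSeries A :=
  embDomainRingHom (AddMonoidHom.mulLeft (p : ℤ))
    (fun x y h => mul_left_cancel₀ (by exact_mod_cast (Fact.out : p.Prime).ne_zero) h)
    (fun x y => mul_le_mul_iff_right₀ (by exact_mod_cast (Fact.out : p.Prime).pos))

end

section
variable {A : Type u} [CommRing A]

/-- a power series in `u` as a Laurent series -/
noncomputable abbrev ps : PowerSeries A →+* LaurentSeries A := ofPowerSeries ℤ A

/-- the matrix `diag(u ^ a, 1)` -/
noncomputable def du (a : ℤ) : Matrix (Fin 2) (Fin 2) (LaurentSeries A) :=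
  Matrix.diagonal ![single a 1, 1]

/-- a matrix over `A((u))` is integral if its entries are in `A[[u]]` -/
def Integral {m n : Type} (G : Matrix m n (LaurentSeries A)) : Prop :=
  ∀ r s, ∀ j : ℤ, j < 0 → (G r s).coeff j = 0

/-- Bases of a Kisin module of rank two (over `A`, with the embeddings `ZMod f`): the matrices of
Frobenius are `X i * diag(u ^ a i, 1) * Z i`. -/
structure KisinModule (f : ℕ) (A : Type u) [CommRing A] where
  X : ZMod f → GL (Fin 2) (PowerSeries A)
  Z : ZMod f → GL (Fin 2) A

variable {f : ℕ}

/-- the matrix of the Frobenius from the component `i - 1` to the component `i` -/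
noncomputable def KisinModule.frob (a : ZMod f → ℕ) (M : KisinModule f A) (i : ZMod f) :
    Matrix (Fin 2) (Fin 2) (LaurentSeries A) :=
  (M.X i).1.map ps * du (a i) * (M.Z i).1.map HahnSeries.C

/-- base change -/
noncomputable def KisinModule.baseChange {B : Type u} [CommRing B] (M : KisinModule f A)
    (π : A →+* B) : KisinModule f B where
  X i := Matrix.GeneralLinearGroup.map (PowerSeries.map π) (M.X i)
  Z i := Matrix.GeneralLinearGroup.map π (M.Z i)

/-- `G` is a morphism of étale `φ`-modules with Frobenius matrices `F` and `F'` -/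
def IsHom (p : ℕ) [Fact p.Prime] (F F' G : ZMod f → Matrix (Fin 2) (Fin 2) (LaurentSeries A)) :
    Prop :=
  ∀ i, G i * F i = F' i * (G (i - 1)).map (phi A p)

/-- the étale `φ`-module over a field with Frobenius matrices `F` is irreducible -/
def Irred {k : Type u} [Field k] (p : ℕ) [Fact p.Prime]
    (F : ZMod f → Matrix (Fin 2) (Fin 2) (LaurentSeries k)) : Prop :=
  ¬ ∃ (v : ZMod f → Fin 2 → LaurentSeries k) (ν : ZMod f → LaurentSeries k),
    (∀ i, v i ≠ 0) ∧ ∀ i, (F i).mulVec (fun r => phi k p (v (i - 1) r)) = ν i • v i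

/-- the entries of the shape `a` at `i, i + 1, …, i + m - 1` are `1, p - 1, …, p - 1, p`, and
`2 ≤ m < f` -/
def IsWord (p f : ℕ) (a : ZMod f → ℕ) (i : ZMod f) (m : ℕ) : Prop :=
  2 ≤ m ∧ m < f ∧ a i = 1 ∧
    (∀ s : ℕ, 0 < s → s < m - 1 → a (i + s) = p - 1) ∧ a (i + (m - 1 : ℕ)) = p

/-- the shape `a` contains the word `1, p - 1, …, p - 1, p` of some length `m`, `2 ≤ m < f` -/
def HasWord (p f : ℕ) (a : ZMod f → ℕ) : Prop :=
  ∃ (i : ZMod f) (m : ℕ), IsWord p f a i m

end

end Pool.Agent.Lib.MP_74d0c9_nt
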