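import Pool.Agent.Lib.MP_74d0c9_nt.Irr
import Pool.Agent.Lib.MP_74d0c9_nt.Deform

/-! First order deformations with a lattice. -/

set_option autoImplicit false

namespace Pool.Agent.Lib.MP_74d0c9_nt

open HahnSeries

universe u

section
variable {A B : Type u} [CommRing A] [CommRing B]

theorem lmap_coeff (π : A →+* B) (x : LaurentSeries A) (j : ℤ) :
    (lmap π x).coeff j = π (x.coeff j) := rfl

theorem lmap_C (π : A →+* B) (r : A) : lmap π (HahnSeries.C r) = HahnSeries.C (π r) :=
  map_C r π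

theorem lmap_un (π : A →+* B) (n : ℤ) : lmap π (un n) = un n := by
  ext j
  rw [lmap_coeff]
  unfold un
  by_cases h : j = n
  · rw [h, coeff_single_same, coeff_single_same, map_one]
  · rw [coeff_single_of_ne h, coeff_single_of_ne h, map_zero]

theorem map_one_mat (π : A →+* B) : (1 : Mat A).map (lmap π) = 1 :=
  Matrix.map_one _ (map_zero _) (map_one _)

theorem Bn_map (π : A →+* B) (p m f a t : ℕ) :
    (Bn p m f a t : Mat A).map (lmap π) = Bn p m f a t := by
  unfold Bn
  split_ifs
  · exact map_one_mat π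
  · rw [mat2_map, lmap_un, map_zero]
  · rw [mat2_map, lmap_un, map_zero]
  · rw [du_two, du_two, mat2_map, lmap_un, map_zero, map_one]
  · rw [mat2_map, lmap_un, map_zero, map_one]

end

section
variable {k A : Type u} [CommRing k] [CommRing A] (ι : k →+* A) (ε : A)

/-- the first order deformation `B + ε D` -/
noncomputable def dfm (B D : Mat k) : Mat A :=
  B.map (lmap ι) + (HahnSeries.C ε : LaurentSeries A) • D.map (lmap ι)

theorem dfm_zero (B : Mat k) : dfm ι ε B 0 = B.map (lmap ι) := by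
  unfold dfm
  rw [Matrix.map_zero _ (map_zero _), smul_zero, add_zero]

theorem smul_mul' (c : LaurentSeries A) (M N : Mat A) : (c • M) * N = c • (M * N) := by
  refine Matrix.ext fun r s => ?_
  rw [Matrix.mul_apply, Matrix.smul_apply, Matrix.mul_apply, smul_eq_mul, Finset.mul_sum]
  refine Finset.sum_congr rfl fun t _ => ?_
  rw [Matrix.smul_apply, smul_eq_mul, mul_assoc]

theorem mul_smul' (c : LaurentSeries A) (M N : Mat A) : M * (c • N) = c • (M * N) := by
  refine Matrix.ext fun r s => ?_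
  rw [Matrix.mul_apply, Matrix.smul_apply, Matrix.mul_apply, smul_eq_mul, Finset.mul_sum]
  refine Finset.sum_congr rfl fun t _ => ?_
  rw [Matrix.smul_apply, smul_eq_mul]
  ring

theorem dfm_left (B P : Mat k) : dfm ι ε B (P * B) = dfm ι ε 1 P * B.map (lmap ι) := by
  unfold dfm
  rw [Matrix.map_mul, map_one_mat, Matrix.add_mul, Matrix.one_mul, smul_mul']

theorem dfm_right (B P : Mat k) : dfm ι ε B (B * P) = B.map (lmap ι) * dfm ι ε 1 P := by
  unfold dfm
  rw [Matrix.map_mul, map_one_mat, Matrix.mul_add, Matrix.mul_one, mul_smul']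

theorem dfm_one_mat (x y z w : LaurentSeries k) : dfm ι ε 1 !![x, y; z, w] =
    !![1 + HahnSeries.C ε * lmap ι x, HahnSeries.C ε * lmap ι y;
      HahnSeries.C ε * lmap ι z, 1 + HahnSeries.C ε * lmap ι w] := by
  unfold dfm
  rw [map_one_mat, mat2_map, Matrix.one_fin_two]
  refine Matrix.ext fun r s => ?_
  rw [Matrix.add_apply, Matrix.smul_apply, smul_eq_mul]
  fin_cases r <;> fin_cases s
  · rfl
  · exact zero_add _
  · exact zero_add _
  · rfl

/-- `1 + ε [[0, 1], [0, 0]]` -/
def eU : GL (Fin 2) A := ⟨!![1, ε; 0, 1], !![1, -ε; 0, 1],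
  by rw [Matrix.mul_fin_two, Matrix.one_fin_two]; apply mat2_congr <;> ring,
  by rw [Matrix.mul_fin_two, Matrix.one_fin_two]; apply mat2_congr <;> ring⟩

/-- `1 + ε [[0, 0], [1, 0]]` -/
def eL : GL (Fin 2) A := ⟨!![1, 0; ε, 1], !![1, 0; -ε, 1],
  by rw [Matrix.mul_fin_two, Matrix.one_fin_two]; apply mat2_congr <;> ring,
  by rw [Matrix.mul_fin_two, Matrix.one_fin_two]; apply mat2_congr <;> ring⟩

variable {ε} in
/-- `1 + ε` -/
def eS (h : ε * ε = 0) : GL (Fin 2) A :=
  ⟨!![1 + ε, 0; 0, 1 + ε], !![1 - ε, 0; 0, 1 - ε],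
  by
    rw [Matrix.mul_fin_two, Matrix.one_fin_two]
    apply mat2_congr
    · linear_combination -h
    · ring
    · ring
    · linear_combination -h,
  by
    rw [Matrix.mul_fin_two, Matrix.one_fin_two]
    apply mat2_congr
    · linear_combination -h
    · ring
    · ring
    · linear_combination -h⟩

theorem gz_eU : gz (eU ε) = !![1, HahnSeries.C ε; 0, 1] := by
  show (!![1, ε; 0, 1] : Matrix (Fin 2) (Fin 2) A).map HahnSeries.C = _
  rw [mat2_map, map_zero, map_one]

theorem gz_eL : gz (eL ε) = !![1, 0; HahnSeries.C ε, 1] := by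
  show (!![1, 0; ε, 1] : Matrix (Fin 2) (Fin 2) A).map HahnSeries.C = _
  rw [mat2_map, map_zero, map_one]

variable {ε} in
theorem gz_eS (h : ε * ε = 0) : gz (eS h) = !![1 + HahnSeries.C ε, 0; 0, 1 + HahnSeries.C ε] := by
  show (!![1 + ε, 0; 0, 1 + ε] : Matrix (Fin 2) (Fin 2) A).map HahnSeries.C = _
  rw [mat2_map, map_zero, map_add, map_one]

/-- `u⁻¹ [[-l, 1], [-l², l]]` -/
noncomputable def nl (l : k) : Mat k := !![-(HahnSeries.C l * un (-1)), un (-1);
  -(HahnSeries.C l * HahnSeries.C l * un (-1)), HahnSeries.C l * un (-1)]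

theorem nl_tl (l : k) : dfm ι ε 1 (nl l) * (tl (ι l)).1 = (tl (ι l)).1 * gz (eU ε) := by
  have htl : (tl (ι l)).1 =
    (!![un (-1), 0; HahnSeries.C (ι l) * un (-1), 1] : Mat A) := rfl
  unfold nl
  rw [dfm_one_mat, map_neg, map_neg, map_mul, map_mul, map_mul, lmap_un, lmap_C, htl, gz_eU,
    Matrix.mul_fin_two, Matrix.mul_fin_two]
  apply mat2_congr <;> ring

variable {ε} in
theorem eS_comm (h : ε * ε = 0) (T : Mat A) :
    dfm ι ε (1 : Mat k) 1 * T = T * gz (eS h) := by
  have h1 : dfm ι ε (1 : Mat k) 1 = (1 + HahnSeries.C ε : LaurentSeries A) • (1 : Mat A) := by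
    unfold dfm
    rw [map_one_mat, add_smul, one_smul]
  have h2 : gz (eS h) = (1 + HahnSeries.C ε : LaurentSeries A) • (1 : Mat A) := by
    rw [gz_eS, Matrix.one_fin_two]
    refine Matrix.ext fun r s => ?_
    rw [Matrix.smul_apply, smul_eq_mul]
    fin_cases r <;> fin_cases s
    · exact (mul_one _).symm
    · exact (mul_zero _).symm
    · exact (mul_zero _).symm
    · exact (mul_one _).symm
  rw [h1, h2, smul_mul', mul_smul', Matrix.one_mul, Matrix.mul_one]

theorem eL_dfm : gz (eL ε) = dfm ι ε 1 !![0, 0; 1, 0] := by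
  rw [gz_eL, dfm_one_mat, map_zero, map_one, mul_zero, mul_one, add_zero]

end

section
variable {k A : Type u} [CommRing k] [CommRing A] (ι : k →+* A) (ε : A) {p f m : ℕ}
  [Fact p.Prime] [NeZero f] {a : ZMod f → ℕ}

/-- the Kisin modules of a word, with extra factors -/
noncomputable def Mx (m : ℕ) (i : ZMod f) (l : A) (t0 : ℕ) (E E' : GL (Fin 2) A) :
    KisinModule f A where
  X j := Matrix.GeneralLinearGroup.map PowerSeries.C
    ((if (j - i).val = t0 then E else 1) * xn m f l (j - i).val)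
  Z j := (if (j - i).val = t0 then E' else 1) * zn m l (j - i).val

theorem Mx_frob (m : ℕ) (i : ZMod f) (l : A) (t0 : ℕ) (E E' : GL (Fin 2) A) (j : ZMod f) :
    (Mx m i l t0 E E').frob a j =
      gz (if (j - i).val = t0 then E else 1) * gz (xn m f l (j - i).val) * du (a j) *
        (gz (if (j - i).val = t0 then E' else 1) * gz (zn m l (j - i).val)) := by
  rw [← gz_mul, ← gz_mul]
  show ((((if (j - i).val = t0 then E else 1) * xn m f l (j - i).val).1.map
    PowerSeries.C).map ps) * _ * _ = _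
  have : (((if (j - i).val = t0 then E else 1) * xn m f l (j - i).val).1.map
      PowerSeries.C).map ps = gz ((if (j - i).val = t0 then E else 1) *
        xn m f l (j - i).val) := by
    refine Matrix.ext fun r s => ?_
    exact ofPowerSeries_C _
  rw [this]
  rfl

theorem step_check' (hm : 2 ≤ m) (hmf : m < f) (i : ZMod f) (h1 : a i = 1)
    (h2 : ∀ s : ℕ, 0 < s → s < m - 1 → a (i + s) = p - 1) (h3 : a (i + (m - 1 : ℕ)) = p) (l : A)
    (j : ZMod f) :
    (Tn m l (j - i).val).1 * (gz (xn m f l (j - i).val) * du (a j) * gz (zn m l (j - i).val)) =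
      Bn p m f (a j) (j - i).val * (Tn m l (j - 1 - i).val).1.map (phi A p) := by
  have hj : j = i + ((j - i).val : ℕ) := by
    rw [ZMod.natCast_val, ZMod.cast_id', id_eq, add_sub_cancel]
  have hlt : (j - i).val < f := ZMod.val_lt _
  apply step_check p m f hm hmf (a j) l hlt
  · rcases Nat.eq_zero_or_pos (j - i).val with h4 | h4
    · left
      refine ⟨h4, ?_⟩
      have h5 : j - i = 0 := (ZMod.val_eq_zero _).1 h4
      have h6 : j - 1 - i = ((f - 1 : ℕ) : ZMod f) := by
        have h7 : ((f - 1 + 1 : ℕ) : ZMod f) = 0 := by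
          rw [Nat.sub_add_cancel (by omega), ZMod.natCast_self]
        push_cast at h7
        linear_combination h5 - h7
      rw [h6, ZMod.val_natCast_of_lt (by omega)]
    · right
      refine ⟨h4, ?_⟩
      have h6 : j - 1 - i = (((j - i).val - 1 : ℕ) : ZMod f) := by
        rw [Nat.cast_sub h4, ZMod.natCast_val, ZMod.cast_id', id_eq]
        push_cast
        ring
      rw [h6, ZMod.val_natCast_of_lt (by omega)]
  · intro h4
    rw [h4] at hj
    rw [hj, Nat.cast_zero, add_zero]
    exact h1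
  · intro h4 h5
    rw [hj]
    exact h2 _ h4 h5
  · intro h4
    rw [h4] at hj
    rw [hj]
    exact h3

/-- a deformation `(1 + ε P) B` at the component `t0` -/
theorem isHom_left (hm : 2 ≤ m) (hmf : m < f) (i : ZMod f) (h1 : a i = 1)
    (h2 : ∀ s : ℕ, 0 < s → s < m - 1 → a (i + s) = p - 1) (h3 : a (i + (m - 1 : ℕ)) = p) (l : k)
    (t0 : ℕ) (E : GL (Fin 2) A) (P : Mat k)
    (hP : dfm ι ε 1 P * (Tn m (ι l) t0).1 = (Tn m (ι l) t0).1 * gz E) :
    IsHom p ((Mx m i (ι l) t0 E 1).frob a) (fun j => dfm ι ε (Bn p m f (a j) (j - i).val)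
        (if (j - i).val = t0 then P * Bn p m f (a j) (j - i).val else 0))
      (fun j => (Tn m (ι l) (j - i).val).1) := by
  intro j
  have h4 := step_check' hm hmf i h1 h2 h3 (ι l) j
  show (Tn m (ι l) (j - i).val).1 * _ = dfm ι ε _ _ * (Tn m (ι l) (j - 1 - i).val).1.map (phi A p)
  rw [Mx_frob]
  by_cases h5 : (j - i).val = t0
  · have hP2 : dfm ι ε 1 P * (Tn m (ι l) (j - i).val).1 = (Tn m (ι l) (j - i).val).1 * gz E := by
      rw [h5]
      exact hP
    rw [if_pos h5, if_pos h5, if_pos h5, gz_one, Matrix.one_mul, dfm_left, Bn_map,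
      Matrix.mul_assoc (dfm ι ε 1 P), ← h4, ← Matrix.mul_assoc (dfm ι ε 1 P), hP2]
    simp only [Matrix.mul_assoc]
  · rw [if_neg h5, if_neg h5, if_neg h5, dfm_zero, Bn_map, gz_one, Matrix.one_mul, Matrix.one_mul]
    exact h4

/-- a deformation `B (1 + ε P)` at the component `t0` outside the word -/
theorem isHom_right (hm : 2 ≤ m) (hmf : m < f) (i : ZMod f) (h1 : a i = 1)
    (h2 : ∀ s : ℕ, 0 < s → s < m - 1 → a (i + s) = p - 1) (h3 : a (i + (m - 1 : ℕ)) = p) (l : k)
    (t0 : ℕ) (ht0 : m ≤ t0) (E : GL (Fin 2) A) (P : Mat k) (hP : gz E = dfm ι ε 1 P) :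
    IsHom p ((Mx m i (ι l) t0 1 E).frob a) (fun j => dfm ι ε (Bn p m f (a j) (j - i).val)
        (if (j - i).val = t0 then Bn p m f (a j) (j - i).val * P else 0))
      (fun j => (Tn m (ι l) (j - i).val).1) := by
  intro j
  have h4 := step_check' hm hmf i h1 h2 h3 (ι l) j
  show (Tn m (ι l) (j - i).val).1 * _ = dfm ι ε _ _ * (Tn m (ι l) (j - 1 - i).val).1.map (phi A p)
  rw [Mx_frob]
  by_cases h5 : (j - i).val = t0
  · have e1 : Tn m (ι l) (j - i).val = 1 := by unfold Tn; rw [if_neg (by omega)]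
    have e2 : Tn m (ι l) (j - 1 - i).val = 1 := by
      have h6 : (j - 1 - i).val = (j - i).val - 1 := by
        have h7 : j - 1 - i = (((j - i).val - 1 : ℕ) : ZMod f) := by
          rw [Nat.cast_sub (by omega), ZMod.natCast_val, ZMod.cast_id', id_eq]
          push_cast
          ring
        have hlt : (j - i).val < f := ZMod.val_lt _
        conv_lhs => rw [h7]
        rw [ZMod.val_natCast_of_lt (by omega)]
      unfold Tn
      rw [h6, if_neg (by omega)]
    have e3 : zn m (ι l) (j - i).val = 1 := by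
      unfold zn; rw [if_neg (by omega), if_neg (by omega)]
    rw [e1, e2, e3, one_phi, gz_one, Units.val_one, Matrix.one_mul, Matrix.mul_one,
      Matrix.mul_one] at h4
    rw [if_pos h5, if_pos h5, if_pos h5, dfm_right, Bn_map, e1, e2, e3, one_phi, gz_one,
      Units.val_one, Matrix.one_mul, Matrix.one_mul, Matrix.mul_one, Matrix.mul_one, ← h4, hP]
  · rw [if_neg h5, if_neg h5, if_neg h5, dfm_zero, Bn_map, gz_one, Matrix.one_mul, Matrix.one_mul]
    exact h4

end

end Pool.Agent.Lib.MP_74d0c9_nt
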