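import Pool.Agent.Lib.MP_74d0c9_nt.Indep

/-! The endomorphisms of the étale `φ`-module of a word are the scalars. -/

set_option autoImplicit false

namespace Pool.Agent.Lib.MP_74d0c9_nt

open HahnSeries

universe u

section
variable {k : Type u} [CommRing k] {p : ℕ} [Fact p.Prime]

/-- iterates of the Frobenius -/
theorem eq_of_iter {f : ℕ} {τ : ℕ → LaurentSeries k}
    (h1 : ∀ t, t < f → τ (t + 1) = phi k p (τ t)) :
    ∀ t, t ≤ f → (∀ n : ℤ, (τ t).coeff ((p : ℤ) ^ t * n) = (τ 0).coeff n) ∧
      ∀ n : ℤ, ¬ ((p : ℤ) ^ t) ∣ n → (τ t).coeff n = 0 := by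
  intro t
  induction t with
  | zero =>
    intro _
    refine ⟨fun n => by rw [pow_zero, one_mul], fun n hn => ?_⟩
    exact absurd (by rw [pow_zero]; exact one_dvd n) hn
  | succ t ih =>
    intro ht
    obtain ⟨ih1, ih2⟩ := ih (by omega)
    constructor
    · intro n
      rw [h1 t (by omega), pow_succ, mul_comm ((p : ℤ) ^ t), mul_assoc, phi_coeff, ih1]
    · intro n hn
      rw [h1 t (by omega)]
      by_cases hd : (p : ℤ) ∣ n
      · obtain ⟨q, rfl⟩ := hd
        rw [phi_coeff]
        apply ih2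
        intro hq
        apply hn
        rw [pow_succ, mul_comm ((p : ℤ) ^ t)]
        exact mul_dvd_mul_left _ hq
      · exact phi_coeff_zero p _ hd

/-- a Laurent series which is its own iterated Frobenius is a constant -/
theorem const_of_iter {f : ℕ} (hf : 0 < f) {τ : ℕ → LaurentSeries k}
    (h1 : ∀ t, t < f → τ (t + 1) = phi k p (τ t)) (h2 : τ f = τ 0) :
    τ 0 = HahnSeries.C ((τ 0).coeff 0) := by
  obtain ⟨e1, e2⟩ := eq_of_iter h1 f le_rfl
  rw [h2] at e1 e2
  have hp := two_le_p (p := p)
  have hq : (2 : ℤ) ≤ (p : ℤ) ^ f := by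
    calc (2 : ℤ) ≤ (p : ℤ) ^ 1 := by rw [pow_one]; exact hp
      _ ≤ (p : ℤ) ^ f := pow_le_pow_right₀ (by omega) hf
  have key : ∀ N : ℕ, ∀ n : ℤ, n ≠ 0 → n.natAbs ≤ N → (τ 0).coeff n = 0 := by
    intro N
    induction N with
    | zero => intro n hn hN; omega
    | succ N ih =>
      intro n hn hN
      by_cases hd : ((p : ℤ) ^ f) ∣ n
      · obtain ⟨q, rfl⟩ := hd
        rw [e1]
        have hq0 : q ≠ 0 := fun h => hn (by rw [h, mul_zero])
        refine ih q hq0 ?_
        rw [Int.natAbs_mul] at hN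
        have h3 : 2 ≤ ((p : ℤ) ^ f).natAbs := by omega
        have h4 : 1 ≤ q.natAbs := Int.natAbs_pos.2 hq0
        nlinarith
      · exact e2 n hd
  ext n
  rw [HahnSeries.C_apply]
  by_cases hn : n = 0
  · rw [hn, coeff_single_same]
  · rw [coeff_single_of_ne hn]
    exact key _ n hn le_rfl

theorem off_zero {m f : ℕ} (hm : 2 ≤ m) (hmf : m < f) {a : ℕ → ℕ} (ha : ∀ t, 1 ≤ a t ∧ a t ≤ p)
    {β γ : ℕ → LaurentSeries k}
    (b0 : β 0 = phi k p (β (f - 1))) (g0 : γ 0 = phi k p (γ (f - 1)))
    (b1 : ∀ t, t + 1 ≤ m - 1 → β (t + 1) = phi k p (β t))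
    (g1 : ∀ t, t + 1 ≤ m - 1 → γ (t + 1) = phi k p (γ t))
    (b3 : ∀ t, m ≤ t + 1 → t + 1 < f - 1 → β (t + 1) = un (a (t + 1)) * phi k p (β t))
    (g3 : ∀ t, m ≤ t + 1 → t + 1 < f - 1 → un (a (t + 1)) * γ (t + 1) = phi k p (γ t))
    (b4 : un (a (f - 1)) * β (f - 1) = phi k p (γ (f - 2)))
    (g4 : γ (f - 1) = un (a (f - 1)) * phi k p (β (f - 2))) :
    ∀ t, t < f → β t = 0 ∧ γ t = 0 := by
  have hp := two_le_p (p := p)
  have hab : ∀ t, (1 : ℤ) ≤ a t ∧ (a t : ℤ) ≤ p := fun t =>
    ⟨by exact_mod_cast (ha t).1, by exact_mod_cast (ha t).2⟩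
  have hmono : ∀ n : ℤ, 1 ≤ n → n + 1 ≤ p * n := fun n hn => by nlinarith
  have hq : ∀ (q : ℤ) (t : ℕ), 2 ≤ q → q ≤ p * q - a t := by
    intro q t hq
    have := (hab t).2
    nlinarith [mul_nonneg (sub_nonneg.2 hp) (show (0 : ℤ) ≤ q - 1 by omega)]
  -- poles
  have B1 : ∀ (n : ℤ), 1 ≤ n → PL (β 0) n → ∀ d, d ≤ m - 2 → PL (β d) n := by
    intro n hn hs d
    induction d with
    | zero => intro _; exact hs
    | succ d ih =>
      intro hd
      rw [b1 d (by omega)]
      exact ((ih (by omega)).phi).mono (by have := hmono n hn; omega)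
  have B2 : ∀ (n : ℤ), 1 ≤ n → PL (β 0) n → PL (β (m - 1)) (p * n) := by
    intro n hn h
    have h1 := b1 (m - 2) (by omega)
    rw [show m - 2 + 1 = m - 1 by omega] at h1
    rw [h1]
    exact (B1 n hn h (m - 2) le_rfl).phi
  have B3 : ∀ (q : ℤ), 2 ≤ q → PL (β (m - 1)) q → ∀ d, m - 1 + d ≤ f - 2 →
      PL (β (m - 1 + d)) q := by
    intro q hq2 h d
    induction d with
    | zero => intro _; exact h
    | succ d ih =>
      intro hd
      rw [← add_assoc, b3 (m - 1 + d) (by omega) (by omega)]
      exact ((ih (by omega)).phi.un_mul _).mono (hq q _ hq2)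
  have B4 : ∀ (n : ℤ), 1 ≤ n → PL (β 0) n → PL (γ (f - 1)) (p * n) := by
    intro n hn h
    have h1 : 2 ≤ p * n := by have := hmono n hn; omega
    have h2 := B3 (p * n) h1 (B2 n hn h) (f - 2 - (m - 1)) (by omega)
    rw [show m - 1 + (f - 2 - (m - 1)) = f - 2 by omega] at h2
    rw [g4]
    exact (h2.phi.un_mul _).mono (hq _ _ h1)
  have G1 : ∀ (n : ℤ), 1 ≤ n → PL (γ 0) n → ∀ d, d ≤ f - 2 → PL (γ d) n := by
    intro n hn hs d
    induction d with
    | zero => intro _; exact hs
    | succ d ih =>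
      intro hd
      have h1 := ih (by omega)
      have h2 := hmono n hn
      by_cases c1 : d + 1 ≤ m - 1
      · rw [g1 d c1]
        exact h1.phi.mono (by omega)
      · have h3 : PL (un (a (d + 1)) * γ (d + 1)) (p * n) := by
          rw [g3 d (by omega) (by omega)]
          exact h1.phi
        have h4 := (hab (d + 1)).1
        exact h3.of_un_mul.mono (by omega)
  have G2 : ∀ (n : ℤ), 1 ≤ n → PL (γ 0) n → PL (β (f - 1)) (p * n) := by
    intro n hn h
    have h2 := hmono n hn
    have h1 := G1 n hn h (f - 2) le_rfl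
    have h3 : PL (un (a (f - 1)) * β (f - 1)) (p * n) := by
      rw [b4]
      exact h1.phi
    have h4 := (hab (f - 1)).1
    exact h3.of_un_mul.mono (by omega)
  have key : ∀ i : Bool, ¬ PL ((fun i : Bool => if i then β 0 else γ 0) i) 1 := by
    apply no_poles
    intro i n hn h
    have h2 := hmono n hn
    have h3 := hmono (p * n) (by omega)
    cases i with
    | true =>
      refine ⟨false, ?_⟩
      show PL (γ 0) (n + 1)
      rw [g0]
      exact (B4 n hn h).phi.mono (by omega)
    | false =>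
      refine ⟨true, ?_⟩
      show PL (β 0) (n + 1)
      rw [b0]
      exact (G2 n hn h).phi.mono (by omega)
  have hβ0 : GE (β 0) 0 := not_PL (key true)
  -- zeros
  have grow : ∀ v : ℤ, 0 ≤ v → GE (β 0) v → GE (β 0) (v + 1) := by
    intro v hv h
    have hpv : v ≤ p * v := by nlinarith
    have h1 : ∀ d, d ≤ m - 1 → GE (β d) v := by
      intro d
      induction d with
      | zero => intro _; exact h
      | succ d ih =>
        intro hd
        rw [b1 d hd]
        exact (phi_GE p (ih (by omega))).mono hpv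
    have h2 : ∀ d, m - 1 + d ≤ f - 2 → GE (β (m - 1 + d)) v := by
      intro d
      induction d with
      | zero => intro _; exact h1 (m - 1) le_rfl
      | succ d ih =>
        intro hd
        rw [← add_assoc, b3 (m - 1 + d) (by omega) (by omega)]
        have h3 := (hab (m - 1 + d + 1)).1
        exact ((phi_GE p (ih (by omega))).un_mul _).mono (by omega)
    have h3 : GE (γ (f - 1)) (v + 1) := by
      have h4 := h2 (f - 2 - (m - 1)) (by omega)
      rw [show m - 1 + (f - 2 - (m - 1)) = f - 2 by omega] at h4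
      rw [g4]
      have h3 := (hab (f - 1)).1
      exact ((phi_GE p h4).un_mul _).mono (by omega)
    have h4 : ∀ d, d ≤ f - 2 → GE (γ d) (v + 2) := by
      intro d
      induction d with
      | zero =>
        intro _
        rw [g0]
        exact (phi_GE p h3).mono (by nlinarith)
      | succ d ih =>
        intro hd
        have h5 := phi_GE p (ih (by omega))
        by_cases c1 : d + 1 ≤ m - 1
        · rw [g1 d c1]
          exact h5.mono (by nlinarith)
        · rw [← g3 d (by omega) (by omega)] at h5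
          exact h5.of_un_mul.mono (hq (v + 2) (d + 1) (by omega))
    have h5 : GE (β (f - 1)) (v + 2) := by
      have h6 := phi_GE p (h4 (f - 2) le_rfl)
      rw [← b4] at h6
      exact h6.of_un_mul.mono (hq (v + 2) (f - 1) (by omega))
    rw [b0]
    exact (phi_GE p h5).mono (by nlinarith)
  have hall : ∀ n : ℕ, GE (β 0) n := by
    intro n
    induction n with
    | zero => exact hβ0
    | succ n ih =>
      have := grow n (by omega) ih
      push_cast
      exact this
  have z0 : β 0 = 0 := by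
    ext n
    exact hall (n.toNat + 1) n (by push_cast; omega)
  have z1 : ∀ t, t ≤ f - 2 → β t = 0 := by
    intro t
    induction t with
    | zero => intro _; exact z0
    | succ t ih =>
      intro ht
      by_cases c1 : t + 1 ≤ m - 1
      · rw [b1 t c1, ih (by omega), map_zero]
      · rw [b3 t (by omega) (by omega), ih (by omega), map_zero, mul_zero]
  have z2 : γ (f - 1) = 0 := by rw [g4, z1 (f - 2) le_rfl, map_zero, mul_zero]
  have z3 : ∀ t, t ≤ f - 2 → γ t = 0 := by
    intro t
    induction t with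
    | zero => intro _; rw [g0, z2, map_zero]
    | succ t ih =>
      intro ht
      by_cases c1 : t + 1 ≤ m - 1
      · rw [g1 t c1, ih (by omega), map_zero]
      · have h5 := g3 t (by omega) (by omega)
        rw [ih (by omega), map_zero] at h5
        exact un_cancel (n := a (t + 1)) (by rw [h5, mul_zero])
  have z4 : β (f - 1) = 0 := by
    rw [z3 (f - 2) le_rfl, map_zero] at b4
    exact un_cancel (n := a (f - 1)) (by rw [b4, mul_zero])
  intro t ht
  by_cases c : t ≤ f - 2
  · exact ⟨z1 t c, z3 t c⟩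
  · rw [show t = f - 1 by omega]
    exact ⟨z4, z2⟩

/-- The endomorphisms of the étale `φ`-module `Bn` are the scalars, over every ring. -/
theorem end_Bn {m f : ℕ} [NeZero f] (hm : 2 ≤ m) (hmf : m < f) {a : ZMod f → ℕ}
    (ha : ∀ i, 1 ≤ a i ∧ a i ≤ p) (i : ZMod f) (C : ZMod f → Mat k)
    (h : ∀ j, C j * Bn p m f (a j) (j - i).val =
      Bn p m f (a j) (j - i).val * (C (j - 1)).map (phi k p)) :
    ∃ c : k, ∀ j, C j = (HahnSeries.C c : LaurentSeries k) • (1 : Mat k) := by
  obtain ⟨J, hJ⟩ : ∃ J : ℕ → ZMod f, J = fun t : ℕ => i + (t : ZMod f) := ⟨_, rfl⟩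
  have hJs : ∀ t, J (t + 1) - 1 = J t := by
    intro t
    rw [hJ]
    push_cast
    ring
  have hJv : ∀ t, t < f → (J t - i).val = t := by
    intro t ht
    have : J t - i = t := by rw [hJ]; ring
    rw [this, ZMod.val_natCast_of_lt ht]
  have hJf : J 0 - 1 = J (f - 1) := by
    have h7 : ((f - 1 + 1 : ℕ) : ZMod f) = 0 := by
      rw [Nat.sub_add_cancel (by omega), ZMod.natCast_self]
    push_cast at h7
    rw [hJ]
    dsimp only
    rw [Nat.cast_zero]
    linear_combination -h7
  have hJJ : ∀ j, J (j - i).val = j := by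
    intro j
    rw [hJ]
    dsimp only
    rw [ZMod.natCast_val, ZMod.cast_id', id_eq, add_sub_cancel]
  have hC : ∀ t (r s : Fin 2), (C (J t)).map (phi k p) r s = phi k p (C (J t) r s) :=
    fun _ _ _ => rfl
  have z : (0 : Mat k) = !![0, 0; 0, 0] := by
    refine Matrix.ext fun i j => ?_
    fin_cases i <;> fin_cases j <;> rfl
  have h' : ∀ j, C j * Bn p m f (a j) (j - i).val -
      Bn p m f (a j) (j - i).val * (C (j - 1)).map (phi k p) = 0 := fun j => sub_eq_zero.2 (h j)
  -- the equations
  have E0 : ∀ r s, C (J 0) r s = phi k p (C (J (f - 1)) r s) := by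
    intro r s
    have h0 := h (J 0)
    have e1 : (Bn p m f (a (J 0)) 0 : Mat k) = 1 := by
      unfold Bn; rw [if_pos rfl]
    rw [hJv 0 (by omega), hJf, e1, Matrix.mul_one, Matrix.one_mul] at h0
    rw [h0]
    rfl
  have E1 : ∀ t, t + 1 ≤ m - 1 → ∀ r s, C (J (t + 1)) r s = phi k p (C (J t) r s) := by
    intro t ht r s
    have h0 := h' (J (t + 1))
    rw [hJv (t + 1) (by omega), hJs] at h0
    have e1 : ∃ q : ℤ, (Bn p m f (a (J (t + 1))) (t + 1) : Mat k) = !![un q, 0; 0, un q] := by
      by_cases c : t + 1 < m - 1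
      · refine ⟨p - 1, ?_⟩
        unfold Bn
        rw [if_neg (by omega), if_pos c]
      · refine ⟨p, ?_⟩
        unfold Bn
        rw [if_neg (by omega), if_neg c, if_pos (by omega)]
    obtain ⟨q, e1⟩ := e1
    rw [e1, comm_two, z] at h0
    obtain ⟨f1, f2, f3, f4⟩ := mat2_inj h0
    simp only [hC] at f1 f2 f3 f4
    have g1 : C (J (t + 1)) 0 0 = phi k p (C (J t) 0 0) := by
      apply un_cancel (n := q); linear_combination f1
    have g2 : C (J (t + 1)) 0 1 = phi k p (C (J t) 0 1) := by
      apply un_cancel (n := q); linear_combination f2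
    have g3 : C (J (t + 1)) 1 0 = phi k p (C (J t) 1 0) := by
      apply un_cancel (n := q); linear_combination f3
    have g4 : C (J (t + 1)) 1 1 = phi k p (C (J t) 1 1) := by
      apply un_cancel (n := q); linear_combination f4
    fin_cases r <;> fin_cases s
    · exact g1
    · exact g2
    · exact g3
    · exact g4
  have E3 : ∀ t, m ≤ t + 1 → t + 1 < f - 1 →
      C (J (t + 1)) 0 0 = phi k p (C (J t) 0 0) ∧
      C (J (t + 1)) 0 1 = un (a (J (t + 1))) * phi k p (C (J t) 0 1) ∧
      un (a (J (t + 1))) * C (J (t + 1)) 1 0 = phi k p (C (J t) 1 0) ∧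
      C (J (t + 1)) 1 1 = phi k p (C (J t) 1 1) := by
    intro t ht ht'
    have h0 := h' (J (t + 1))
    rw [hJv (t + 1) (by omega), hJs] at h0
    have e1 : (Bn p m f (a (J (t + 1))) (t + 1) : Mat k) =
        !![un (a (J (t + 1))), 0; 0, 1] := by
      unfold Bn
      rw [if_neg (by omega), if_neg (by omega), if_neg (by omega), if_pos ht', du_two]
    rw [e1, comm_two, z] at h0
    obtain ⟨f1, f2, f3, f4⟩ := mat2_inj h0
    simp only [hC] at f1 f2 f3 f4
    refine ⟨?_, ?_, ?_, ?_⟩
    · apply un_cancel (n := a (J (t + 1))); linear_combination f1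
    · linear_combination f2
    · linear_combination f3
    · linear_combination f4
  have E4 : un (a (J (f - 1))) * C (J (f - 1)) 0 1 = phi k p (C (J (f - 2)) 1 0) ∧
      C (J (f - 1)) 0 0 = phi k p (C (J (f - 2)) 1 1) ∧
      C (J (f - 1)) 1 1 = phi k p (C (J (f - 2)) 0 0) ∧
      C (J (f - 1)) 1 0 = un (a (J (f - 1))) * phi k p (C (J (f - 2)) 0 1) := by
    have hm1 : f - 1 = f - 2 + 1 := by omega
    have h0 := h' (J (f - 1))
    have hJm : J (f - 1) - 1 = J (f - 2) := by rw [hm1]; exact hJs _
    rw [hJv (f - 1) (by omega), hJm] at h0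
    have e1 : (Bn p m f (a (J (f - 1))) (f - 1) : Mat k) =
        !![0, 1; un (a (J (f - 1))), 0] := by
      unfold Bn
      rw [if_neg (by omega), if_neg (by omega), if_neg (by omega), if_neg (by omega)]
    rw [e1, comm_two, z] at h0
    obtain ⟨f1, f2, f3, f4⟩ := mat2_inj h0
    simp only [hC] at f1 f2 f3 f4
    refine ⟨?_, ?_, ?_, ?_⟩
    · linear_combination f1
    · linear_combination f2
    · apply un_cancel (n := a (J (f - 1))); linear_combination f3
    · linear_combination f4
  have ho := off_zero (p := p) hm hmf (a := fun t => a (J t)) (fun t => ha (J t))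
    (β := fun t => C (J t) 0 1) (γ := fun t => C (J t) 1 0)
    (E0 0 1) (E0 1 0) (fun t ht => E1 t ht 0 1) (fun t ht => E1 t ht 1 0)
    (fun t ht ht' => (E3 t ht ht').2.1) (fun t ht ht' => (E3 t ht ht').2.2.1)
    E4.1 E4.2.2.2
  -- the diagonal entries
  obtain ⟨τ, hτ⟩ : ∃ τ : ℕ → LaurentSeries k, τ = fun t =>
      if t < f - 1 then C (J t) 0 0 else if t < 2 * f - 1 then C (J (t % f)) 1 1 else
        C (J (t % f)) 0 0 := ⟨_, rfl⟩
  have hlow : ∀ t, t < f - 1 → τ t = C (J t) 0 0 := by
    intro t ht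
    rw [hτ]
    exact if_pos ht
  have hmid : ∀ t, t < f → τ (f + t) = if t < f - 1 then C (J t) 1 1 else C (J t) 0 0 := by
    intro t ht
    rw [hτ]
    dsimp only
    rw [if_neg (by omega), Nat.add_mod_left, Nat.mod_eq_of_lt ht]
    by_cases c : t < f - 1
    · rw [if_pos c, if_pos (by omega)]
    · rw [if_neg c, if_neg (by omega)]
  have hf1 : τ (f - 1) = C (J (f - 1)) 1 1 := by
    rw [hτ]
    dsimp only
    rw [if_neg (by omega), if_pos (by omega), Nat.mod_eq_of_lt (by omega)]
  have h2f : τ (2 * f) = τ 0 := by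
    rw [hlow 0 (by omega), hτ]
    dsimp only
    rw [if_neg (by omega), if_neg (by omega), Nat.mul_mod_left]
  have hrec : ∀ t, t < 2 * f → τ (t + 1) = phi k p (τ t) := by
    intro t ht
    by_cases c1 : t + 1 < f - 1
    · rw [hlow _ c1, hlow t (by omega)]
      by_cases c : t + 1 ≤ m - 1
      · exact E1 t c 0 0
      · exact (E3 t (by omega) c1).1
    · by_cases c2 : t + 1 = f - 1
      · rw [c2, hf1, hlow t (by omega), show t = f - 2 by omega]
        exact E4.2.2.1
      · by_cases c3 : t + 1 = f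
        · have h1 := hmid 0 (by omega)
          rw [add_zero, if_pos (by omega)] at h1
          rw [c3, h1, show t = f - 1 by omega, hf1]
          exact E0 1 1
        · obtain ⟨d, rfl⟩ : ∃ d, t = f + d := ⟨t - f, by omega⟩
          by_cases c4 : d + 1 < f - 1
          · rw [add_assoc, hmid (d + 1) (by omega), hmid d (by omega), if_pos c4,
              if_pos (by omega)]
            by_cases c : d + 1 ≤ m - 1
            · exact E1 d c 1 1
            · exact (E3 d (by omega) c4).2.2.2
          · by_cases c5 : d + 1 = f - 1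
            · rw [add_assoc, hmid (d + 1) (by omega), hmid d (by omega), if_neg c4,
                if_pos (by omega), c5, show d = f - 2 by omega]
              exact E4.2.1
            · rw [show f + d + 1 = 2 * f by omega, h2f, hlow 0 (by omega), hmid d (by omega),
                if_neg (by omega), show d = f - 1 by omega]
              exact E0 0 0
  have hc := const_of_iter (p := p) (f := 2 * f) (by omega) hrec h2f
  obtain ⟨c, hcc⟩ : ∃ c, c = (τ 0).coeff 0 := ⟨_, rfl⟩
  rw [← hcc] at hc
  have hall : ∀ t, t ≤ 2 * f → τ t = HahnSeries.C c := by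
    intro t
    induction t with
    | zero => intro _; exact hc
    | succ t ih =>
      intro ht
      rw [hrec t (by omega), ih (by omega), phi_C]
  have hdiag : ∀ t, t < f → C (J t) 0 0 = HahnSeries.C c ∧ C (J t) 1 1 = HahnSeries.C c := by
    intro t ht
    by_cases c1 : t < f - 1
    · have h1 := hmid t ht
      rw [if_pos c1, hall _ (by omega)] at h1
      exact ⟨by rw [← hlow t c1, hall _ (by omega)], h1.symm⟩
    · have h1 := hmid t ht
      rw [if_neg c1, hall _ (by omega)] at h1
      refine ⟨h1.symm, ?_⟩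
      rw [show t = f - 1 by omega, ← hf1, hall _ (by omega)]
  refine ⟨c, fun j => ?_⟩
  have hv : (j - i).val < f := ZMod.val_lt _
  have d1 := hdiag _ hv
  have d2 := ho _ hv
  simp only [hJJ] at d1 d2
  refine Matrix.ext fun r s => ?_
  rw [Matrix.smul_apply, smul_eq_mul]
  fin_cases r <;> fin_cases s
  · show C j 0 0 = HahnSeries.C c * 1
    rw [mul_one]; exact d1.1
  · show C j 0 1 = HahnSeries.C c * 0
    rw [mul_zero]; exact d2.1
  · show C j 1 0 = HahnSeries.C c * 0
    rw [mul_zero]; exact d2.2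
  · show C j 1 1 = HahnSeries.C c * 1
    rw [mul_one]; exact d1.2

end

end Pool.Agent.Lib.MP_74d0c9_nt
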