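import Pool.Agent.Lib.MP_74d0c9_nt.Basic

/-! The lattices which belong to a word. -/

set_option autoImplicit false

namespace Pool.Agent.Lib.MP_74d0c9_nt

open HahnSeries

universe u

section
variable {k : Type u} [CommRing k]

/-- `u ^ n` -/
noncomputable abbrev un (n : ℤ) : LaurentSeries k := single n 1

theorem un_mul (n m : ℤ) : (un n : LaurentSeries k) * un m = un (n + m) := by
  unfold un
  rw [single_mul_single, one_mul]

theorem un_zero : (un 0 : LaurentSeries k) = 1 := rfl

theorem un_neg_mul (n : ℤ) : (un (-n) : LaurentSeries k) * un n = 1 := by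
  rw [un_mul, neg_add_cancel]
  rfl

theorem un_mul_neg (n : ℤ) : (un n : LaurentSeries k) * un (-n) = 1 := by
  rw [un_mul, add_neg_cancel]
  rfl

theorem mat2_congr {R : Type u} {a b c d a' b' c' d' : R} (h1 : a = a') (h2 : b = b')
    (h3 : c = c') (h4 : d = d') : !![a, b; c, d] = !![a', b'; c', d'] := by
  rw [h1, h2, h3, h4]

theorem mat2_map {R S : Type u} (φ : R → S) (a b c d : R) :
    (!![a, b; c, d] : Matrix (Fin 2) (Fin 2) R).map φ = !![φ a, φ b; φ c, φ d] := by
  refine Matrix.ext fun r s => ?_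
  fin_cases r <;> fin_cases s <;> rfl

/-- `[[0, 1], [1, 0]]` -/
def sw : GL (Fin 2) k := ⟨!![0, 1; 1, 0], !![0, 1; 1, 0],
  by rw [Matrix.mul_fin_two, Matrix.one_fin_two]; apply mat2_congr <;> ring,
  by rw [Matrix.mul_fin_two, Matrix.one_fin_two]; apply mat2_congr <;> ring⟩

/-- `[[0, 1], [1, l]]` -/
def xl (l : k) : GL (Fin 2) k := ⟨!![0, 1; 1, l], !![-l, 1; 1, 0],
  by rw [Matrix.mul_fin_two, Matrix.one_fin_two]; apply mat2_congr <;> ring,
  by rw [Matrix.mul_fin_two, Matrix.one_fin_two]; apply mat2_congr <;> ring⟩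

/-- `[[1, 0], [-l, 1]]` -/
def zl (l : k) : GL (Fin 2) k := ⟨!![1, 0; -l, 1], !![1, 0; l, 1],
  by rw [Matrix.mul_fin_two, Matrix.one_fin_two]; apply mat2_congr <;> ring,
  by rw [Matrix.mul_fin_two, Matrix.one_fin_two]; apply mat2_congr <;> ring⟩

/-- `[[u⁻¹, 0], [l u⁻¹, 1]]` -/
noncomputable def tl (l : k) : GL (Fin 2) (LaurentSeries k) :=
  ⟨!![un (-1), 0; HahnSeries.C l * un (-1), 1], !![un 1, 0; -HahnSeries.C l, 1],
  by
    rw [Matrix.mul_fin_two, Matrix.one_fin_two]
    apply mat2_congr
    · linear_combination un_neg_mul (k := k) 1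
    · ring
    · linear_combination HahnSeries.C l * un_neg_mul (k := k) 1
    · ring,
  by
    rw [Matrix.mul_fin_two, Matrix.one_fin_two]
    apply mat2_congr
    · linear_combination un_neg_mul (k := k) 1
    · ring
    · ring
    · ring⟩

/-- the lattices -/
noncomputable def Tn (m : ℕ) (l : k) (t : ℕ) : GL (Fin 2) (LaurentSeries k) :=
  if t < m - 1 then tl l else 1

/-- the left factors -/
def xn (m f : ℕ) (l : k) (t : ℕ) : GL (Fin 2) k :=
  if t = 0 then 1 else if t < m - 1 then sw else if t = m - 1 then xl l else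
    if t < f - 1 then 1 else sw

/-- the right factors -/
def zn (m : ℕ) (l : k) (t : ℕ) : GL (Fin 2) k :=
  if t = 0 then zl l else if t ≤ m - 1 then sw else 1

/-- the étale `φ`-module -/
noncomputable def Bn (p m f : ℕ) (a : ℕ) (t : ℕ) : Mat k :=
  if t = 0 then 1 else if t < m - 1 then !![un (p - 1), 0; 0, un (p - 1)] else
    if t = m - 1 then !![un p, 0; 0, un p] else
      if t < f - 1 then du a else !![0, 1; un a, 0]

theorem tl_phi (p : ℕ) [Fact p.Prime] (l : k) :
    (tl l).1.map (phi k p) = !![un (-p), 0; HahnSeries.C l * un (-p), 1] := by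
  have h1 : phi k p (un (-1)) = un (-p) := by
    unfold un
    rw [phi_single, mul_neg, mul_one]
  show (!![un (-1), 0; HahnSeries.C l * un (-1), 1] : Mat k).map (phi k p) = _
  rw [mat2_map]
  apply mat2_congr
  · exact h1
  · exact map_zero _
  · rw [map_mul, h1, phi_C]
  · exact map_one _

theorem du_two (a : ℤ) : (du a : Mat k) = !![un a, 0; 0, 1] := by
  refine Matrix.ext fun r s => ?_
  fin_cases r <;> fin_cases s <;> rfl

theorem gz_sw : gz (sw : GL (Fin 2) k) = !![0, 1; 1, 0] := by
  show (!![0, 1; 1, 0] : Matrix (Fin 2) (Fin 2) k).map HahnSeries.C = _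
  rw [mat2_map, map_zero, map_one]

theorem gz_xl (l : k) : gz (xl l : GL (Fin 2) k) = !![0, 1; 1, HahnSeries.C l] := by
  show (!![0, 1; 1, l] : Matrix (Fin 2) (Fin 2) k).map HahnSeries.C = _
  rw [mat2_map, map_zero, map_one]

theorem gz_zl (l : k) : gz (zl l : GL (Fin 2) k) = !![1, 0; -HahnSeries.C l, 1] := by
  show (!![1, 0; -l, 1] : Matrix (Fin 2) (Fin 2) k).map HahnSeries.C = _
  rw [mat2_map, map_zero, map_one, map_neg]

theorem one_phi (p : ℕ) [Fact p.Prime] :
    (1 : GL (Fin 2) (LaurentSeries k)).1.map (phi k p) = 1 := by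
  rw [Units.val_one, Matrix.map_one _ (map_zero _) (map_one _)]

theorem step_check (p m f : ℕ) [Fact p.Prime] (hm : 2 ≤ m) (hmf : m < f) (a : ℕ) (l : k)
    {t t' : ℕ} (htf : t < f) (htt : (t = 0 ∧ t' = f - 1) ∨ (1 ≤ t ∧ t' = t - 1))
    (h0 : t = 0 → a = 1) (h1 : 0 < t → t < m - 1 → a = p - 1) (h2 : t = m - 1 → a = p) :
    (Tn m l t).1 * (gz (xn m f l t) * du a * gz (zn m l t)) =
      Bn p m f a t * (Tn m l t').1.map (phi k p) := by
  have hp : 1 ≤ p := (Fact.out : p.Prime).one_lt.le
  have htl : (tl l).1 = (!![un (-1), 0; HahnSeries.C l * un (-1), 1] : Mat k) := rfl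
  have hneg := un_neg_mul (k := k) 1
  have hnegp := un_neg_mul (k := k) (p : ℤ)
  rcases htt with ⟨ht, ht'⟩ | ⟨ht, ht'⟩
  · have ha := h0 ht
    subst ht ht' ha
    have e1 : Tn m l 0 = tl l := by unfold Tn; rw [if_pos (by omega)]
    have e2 : Tn m l (f - 1) = 1 := by unfold Tn; rw [if_neg (by omega)]
    have e3 : xn m f l 0 = 1 := by unfold xn; rw [if_pos rfl]
    have e4 : zn m l 0 = zl l := by unfold zn; rw [if_pos rfl]
    have e5 : (Bn p m f 1 0 : Mat k) = 1 := by unfold Bn; rw [if_pos rfl]
    rw [e1, e2, e3, e4, e5, one_phi, gz_one, gz_zl, Matrix.one_mul, Matrix.one_mul, du_two, htl,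
      Matrix.mul_fin_two, Matrix.mul_fin_two, Matrix.one_fin_two]
    apply mat2_congr
    · linear_combination un_neg_mul (k := k) 1
    · ring
    · linear_combination HahnSeries.C l * un_neg_mul (k := k) 1
    · ring
  · subst ht'
    by_cases c1 : t < m - 1
    · have ha := h1 (by omega) c1
      subst ha
      have e1 : Tn m l t = tl l := by unfold Tn; rw [if_pos c1]
      have e2 : Tn m l (t - 1) = tl l := by unfold Tn; rw [if_pos (by omega)]
      have e3 : xn m f l t = sw := by unfold xn; rw [if_neg (by omega), if_pos c1]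
      have e4 : zn m l t = sw := by unfold zn; rw [if_neg (by omega), if_pos (by omega)]
      have e5 : (Bn p m f (p - 1) t : Mat k) = !![un (p - 1), 0; 0, un (p - 1)] := by
        unfold Bn; rw [if_neg (by omega), if_pos c1]
      have e6 : ((p - 1 : ℕ) : ℤ) = (p : ℤ) - 1 := by push_cast [Nat.cast_sub hp]; ring
      have e7 : (un ((p : ℤ) - 1) : LaurentSeries k) * un (-p) = un (-1) := by
        rw [un_mul]; congr 1; ring
      rw [e1, e2, e3, e4, e5, tl_phi, gz_sw, du_two, htl, e6, Matrix.mul_fin_two,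
        Matrix.mul_fin_two, Matrix.mul_fin_two, Matrix.mul_fin_two]
      apply mat2_congr
      · linear_combination -e7
      · ring
      · linear_combination -(HahnSeries.C l) * e7
      · ring
    · by_cases c2 : t = m - 1
      · have ha := h2 c2
        subst ha
        have e1 : Tn m l t = 1 := by unfold Tn; rw [if_neg c1]
        have e2 : Tn m l (t - 1) = tl l := by unfold Tn; rw [if_pos (by omega)]
        have e3 : xn m f l t = xl l := by
          unfold xn; rw [if_neg (by omega), if_neg c1, if_pos c2]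
        have e4 : zn m l t = sw := by unfold zn; rw [if_neg (by omega), if_pos (by omega)]
        have e5 : (Bn a m f a t : Mat k) = !![un a, 0; 0, un a] := by
          unfold Bn; rw [if_neg (by omega), if_neg c1, if_pos c2]
        rw [e1, e2, e3, e4, e5, tl_phi, gz_sw, gz_xl, du_two, Units.val_one, Matrix.one_mul,
          Matrix.mul_fin_two, Matrix.mul_fin_two, Matrix.mul_fin_two]
        apply mat2_congr
        · linear_combination -hnegp
        · ring
        · linear_combination -(HahnSeries.C l) * hnegp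
        · ring
      · have e1 : Tn m l t = 1 := by unfold Tn; rw [if_neg c1]
        have e2 : Tn m l (t - 1) = 1 := by unfold Tn; rw [if_neg (by omega)]
        have e4 : zn m l t = 1 := by unfold zn; rw [if_neg (by omega), if_neg (by omega)]
        by_cases c3 : t < f - 1
        · have e3 : xn m f l t = 1 := by
            unfold xn; rw [if_neg (by omega), if_neg c1, if_neg c2, if_pos c3]
          have e5 : (Bn p m f a t : Mat k) = du a := by
            unfold Bn; rw [if_neg (by omega), if_neg c1, if_neg c2, if_pos c3]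
          rw [e1, e2, e3, e4, e5, one_phi, gz_one, Units.val_one, Matrix.one_mul, Matrix.one_mul,
            Matrix.mul_one]
        · have e3 : xn m f l t = sw := by
            unfold xn; rw [if_neg (by omega), if_neg c1, if_neg c2, if_neg c3]
          have e5 : (Bn p m f a t : Mat k) = !![0, 1; un a, 0] := by
            unfold Bn; rw [if_neg (by omega), if_neg c1, if_neg c2, if_neg c3]
          rw [e1, e2, e3, e4, e5, one_phi, gz_one, gz_sw, du_two, Units.val_one, Matrix.one_mul,
            Matrix.mul_one, Matrix.mul_one, Matrix.mul_fin_two]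
          apply mat2_congr <;> ring

end

end Pool.Agent.Lib.MP_74d0c9_nt
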