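import Pool.Agent.Lib.MP_74d0c9_nt.Deform
import Pool.Agent.Lib.MP_74d0c9_nt.Basic
import Mathlib.RingTheory.LocalRing.ResidueField.Basic
import Mathlib.RingTheory.Ideal.Quotient.PowTransition

/-! Deformations over Artinian algebras, and formal families of deformations. -/

set_option autoImplicit false

namespace Pool.Agent.Lib.MP_74d0c9_nt

open HahnSeries

universe u

section
variable {k : Type u} [Field k] {f : ℕ}

/-- a matrix with coefficients in `k`, seen with coefficients in `A` -/
noncomputable def toA (A : Type u) [CommRing A] [Algebra k A] (P : Mat k) : Mat A :=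
  P.map (lmap (algebraMap k A))

/-- all coefficients of all entries of all components are in the ideal `I` -/
def Small {A : Type u} [CommRing A] (I : Ideal A) (X : ZMod f → Mat A) : Prop :=
  ∀ (j : ZMod f) (r s : Fin 2) (v : ℤ), (X j r s).coeff v ∈ I

/-- `F` is congruent to `B` modulo the ideal `I` -/
def IsDef (B : ZMod f → Mat k) {A : Type u} [CommRing A] [Algebra k A] (I : Ideal A)
    (F : ZMod f → Mat A) : Prop :=
  Small I fun j => F j - toA A (B j)

/-- an isomorphism of étale `φ`-modules which is congruent to the identity modulo the ideal `I` -/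
def Eqv (p : ℕ) [Fact p.Prime] {A : Type u} [CommRing A] (I : Ideal A) (F F' : ZMod f → Mat A) :
    Prop :=
  ∃ G : ZMod f → GL (Fin 2) (LaurentSeries A),
    Small I (fun j => (G j).1 - 1) ∧ IsHom p F F' fun j => (G j).1

/-- the local ring `A` is finite-dimensional over `k`, with residue field `k` -/
structure IsTest (k A : Type u) [Field k] [CommRing A] [Algebra k A] [IsLocalRing A] : Prop where
  finite : Module.Finite k A
  res : Function.Surjective (algebraMap k (IsLocalRing.ResidueField A))

/-- the étale `φ`-module `F` is isomorphic to a Kisin module of shape `a` -/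
def FromKisin (p : ℕ) [Fact p.Prime] (a : ZMod f → ℕ) {A : Type u} [CommRing A]
    (F : ZMod f → Mat A) : Prop :=
  ∃ (M : KisinModule f A) (T : ZMod f → GL (Fin 2) (LaurentSeries A)),
    IsHom p (M.frob a) F fun j => (T j).1

/-- A formal family of deformations of `B` over the local ring `R`: compatible deformations over
the quotients `R / m ^ n`. -/
structure Family (B : ZMod f → Mat k) (R : Type u) [CommRing R] [Algebra k R] [IsLocalRing R] where
  F : ∀ n : ℕ, ZMod f → Mat (R ⧸ IsLocalRing.maximalIdeal R ^ n)
  isDef : ∀ n, IsDef B ((IsLocalRing.maximalIdeal R).map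
    (Ideal.Quotient.mk (IsLocalRing.maximalIdeal R ^ n))) (F n)
  compat : ∀ n j, (F (n + 1) j).map
    (lmap (Ideal.Quotient.factorPow (IsLocalRing.maximalIdeal R) n.le_succ)) = F n j

variable {B : ZMod f → Mat k} {R : Type u} [CommRing R] [Algebra k R] [IsLocalRing R]

/-- the deformation induced by a homomorphism `R / m ^ n → A` -/
noncomputable def Family.push (𝓕 : Family B R) {A : Type u} [CommRing A] [Algebra k A] {n : ℕ}
    (g : (R ⧸ IsLocalRing.maximalIdeal R ^ n) →ₐ[k] A) : ZMod f → Mat A :=
  fun j => (𝓕.F n j).map (lmap g.toRingHom)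

/-- two homomorphisms `R / m ^ n → A` which induce equivalent deformations are equal -/
def Family.IsMono (p : ℕ) [Fact p.Prime] (𝓕 : Family B R) : Prop :=
  ∀ (A : Type u) [CommRing A] [Algebra k A] [IsLocalRing A], IsTest k A →
    ∀ (n : ℕ) (g g' : (R ⧸ IsLocalRing.maximalIdeal R ^ n) →ₐ[k] A),
      Eqv p (IsLocalRing.maximalIdeal A) (𝓕.push g) (𝓕.push g') → g = g'

/-- every deformation which is isomorphic to a Kisin module of shape `a` is equivalent to one
induced by a homomorphism `R / m ^ n → A` -/
def Family.HasKisin (p : ℕ) [Fact p.Prime] (a : ZMod f → ℕ) (𝓕 : Family B R) : Prop :=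
  ∀ (A : Type u) [CommRing A] [Algebra k A] [IsLocalRing A], IsTest k A →
    ∀ F : ZMod f → Mat A, IsDef B (IsLocalRing.maximalIdeal A) F → FromKisin p a F →
      ∃ (n : ℕ) (g : (R ⧸ IsLocalRing.maximalIdeal R ^ n) →ₐ[k] A),
        Eqv p (IsLocalRing.maximalIdeal A) (𝓕.push g) F

end

end Pool.Agent.Lib.MP_74d0c9_nt
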