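import Pool.Agent.Lib.MP_74d0c9_nt.Formal

/-! The complete local ring of the image of the Kisin modules of given shape. -/

set_option autoImplicit false

namespace Pool.Agent.Lib.MP_74d0c9_nt

open HahnSeries IsLocalRing

universe u

variable {k : Type u} [Field k] {f : ℕ} {B : ZMod f → Mat k}

/-- The family `𝓕₀` over `R₀` is smaller than the family `𝓕` over `R`: all the `R₀ / m₀ ^ n`, with
their deformations, are quotients of the `R / m ^ N`, with their deformations. -/
def Family.IsBelow (p : ℕ) [Fact p.Prime] {R₀ R : Type u} [CommRing R₀] [Algebra k R₀]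
    [IsLocalRing R₀] [CommRing R] [Algebra k R] [IsLocalRing R] (𝓕₀ : Family B R₀)
    (𝓕 : Family B R) : Prop :=
  ∀ n : ℕ, 0 < n → ∃ (N : ℕ) (g : (R ⧸ maximalIdeal R ^ N) →ₐ[k] (R₀ ⧸ maximalIdeal R₀ ^ n)),
    Function.Surjective g ∧
      Eqv p ((maximalIdeal R₀).map (Ideal.Quotient.mk (maximalIdeal R₀ ^ n))) (𝓕.push g) (𝓕₀.F n)

/-- The family is the formal neighbourhood of `B` in the scheme-theoretic image of the Kisin modules
of shape `a`: it is a formal subspace of the deformations, contains the deformations which are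
isomorphic to Kisin modules of shape `a`, and is the smallest one with these properties. -/
structure Family.IsImage (p : ℕ) [Fact p.Prime] (a : ZMod f → ℕ) {R₀ : Type u} [CommRing R₀]
    [Algebra k R₀] [IsLocalRing R₀] (𝓕₀ : Family B R₀) : Prop where
  mono : 𝓕₀.IsMono p
  kisin : 𝓕₀.HasKisin p a
  least : ∀ (R : Type u) [CommRing R] [Algebra k R] [IsLocalRing R],
    Function.Surjective (algebraMap k (ResidueField R)) →
    ∀ 𝓕 : Family B R, 𝓕.IsMono p → 𝓕.HasKisin p a → 𝓕₀.IsBelow p 𝓕

end Pool.Agent.Lib.MP_74d0c9_nt
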