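import Pool.Agent.Lib.MP_74d0c9_nt.Poles

/-! The off-diagonal part of a coboundary. -/

set_option autoImplicit false

namespace Pool.Agent.Lib.MP_74d0c9_nt

open HahnSeries

universe u

section
variable {k : Type u} [CommRing k] {p : ℕ} [Fact p.Prime]

theorem GE.un_mul {x : LaurentSeries k} {n : ℤ} (h : GE x n) (a : ℤ) : GE (un a * x) (a + n) := by
  intro j hj
  unfold un
  rw [coeff_single_mul, one_mul]
  exact h _ (by omega)

theorem GE.of_un_mul {x : LaurentSeries k} {n a : ℤ} (h : GE (un a * x) n) : GE x (n - a) := by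
  intro j hj
  have h1 := h (j + a) (by omega)
  unfold un at h1
  rwa [coeff_single_mul, one_mul, add_sub_cancel_right] at h1

theorem off_part {m f : ℕ} (hm : 2 ≤ m) (hmf : m < f) {a : ℕ → ℕ} (ha : ∀ t, 1 ≤ a t ∧ a t ≤ p)
    {β γ : ℕ → LaurentSeries k} {b g x : ℕ → k}
    (b0 : β 0 = phi k p (β (f - 1)) + single (-1) (b 0))
    (g0 : γ 0 = phi k p (γ (f - 1)) + single (-1) (g 0))
    (b1 : ∀ t, t + 1 < m - 1 → β (t + 1) = phi k p (β t) + single (-1) (b (t + 1)))
    (g1 : ∀ t, t + 1 < m - 1 → γ (t + 1) = phi k p (γ t) + single (-1) (g (t + 1)))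
    (b2 : β (m - 1) = phi k p (β (m - 2)))
    (g2 : γ (m - 1) = phi k p (γ (m - 2)))
    (b3 : ∀ t, m ≤ t + 1 → t + 1 < f - 1 → β (t + 1) = un (a (t + 1)) * phi k p (β t))
    (g3 : ∀ t, m ≤ t + 1 → t + 1 < f - 1 →
      un (a (t + 1)) * γ (t + 1) = phi k p (γ t) + single 0 (x (t + 1)))
    (b4 : un (a (f - 1)) * β (f - 1) = phi k p (γ (f - 2)) + single 0 (x (f - 1)))
    (g4 : γ (f - 1) = un (a (f - 1)) * phi k p (β (f - 2))) :
    (∀ t, t < m - 1 → b t = 0 ∧ g t = 0) ∧ ∀ t, m ≤ t → t < f → x t = 0 := by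
  have hp := two_le_p (p := p)
  have hab : ∀ t, (1 : ℤ) ≤ a t ∧ (a t : ℤ) ≤ p := fun t =>
    ⟨by exact_mod_cast (ha t).1, by exact_mod_cast (ha t).2⟩
  have hmono : ∀ n : ℤ, 1 ≤ n → n + 1 ≤ p * n := fun n hn => by nlinarith
  -- poles of `β`
  have B1 : ∀ (s : ℕ) (n : ℤ), 1 ≤ n → PL (β s) n → ∀ d, s + d ≤ m - 2 → PL (β (s + d)) n := by
    intro s n hn hs d
    induction d with
    | zero => intro _; exact hs
    | succ d ih =>
      intro hd
      rw [← add_assoc, b1 (s + d) (by omega)]
      exact (phi_pole hn (ih (by omega)) _).mono (by have := hmono n hn; omega)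
  have B2 : ∀ (s : ℕ) (n : ℤ), 1 ≤ n → s ≤ m - 2 → PL (β s) n → PL (β (m - 1)) (p * n) := by
    intro s n hn hs h
    rw [b2]
    have := B1 s n hn h (m - 2 - s) (by omega)
    rw [show s + (m - 2 - s) = m - 2 by omega] at this
    exact this.phi
  have hq : ∀ (q : ℤ) (t : ℕ), 2 ≤ q → q ≤ p * q - a t := by
    intro q t hq
    have := (hab t).2
    nlinarith [mul_nonneg (sub_nonneg.2 hp) (show (0 : ℤ) ≤ q - 1 by omega)]
  have B3 : ∀ (q : ℤ), 2 ≤ q → PL (β (m - 1)) q → ∀ d, m - 1 + d ≤ f - 2 →
      PL (β (m - 1 + d)) q := by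
    intro q hq2 h d
    induction d with
    | zero => intro _; exact h
    | succ d ih =>
      intro hd
      rw [← add_assoc, b3 (m - 1 + d) (by omega) (by omega)]
      exact ((ih (by omega)).phi.un_mul _).mono (hq q _ hq2)
  have B4 : ∀ (s : ℕ) (n : ℤ), 1 ≤ n → s ≤ m - 2 → PL (β s) n → PL (γ (f - 1)) (p * n) := by
    intro s n hn hs h
    have h1 : 2 ≤ p * n := by have := hmono n hn; omega
    have h2 := B3 (p * n) h1 (B2 s n hn hs h) (f - 2 - (m - 1)) (by omega)
    rw [show m - 1 + (f - 2 - (m - 1)) = f - 2 by omega] at h2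
    rw [g4]
    exact (h2.phi.un_mul _).mono (hq _ _ h1)
  -- poles of `γ`
  have G1 : ∀ (s : ℕ) (n : ℤ), 1 ≤ n → PL (γ s) n → ∀ d, s + d ≤ f - 2 → PL (γ (s + d)) n := by
    intro s n hn hs d
    induction d with
    | zero => intro _; exact hs
    | succ d ih =>
      intro hd
      have h1 := ih (by omega)
      have h2 := hmono n hn
      by_cases c1 : s + d + 1 < m - 1
      · rw [← add_assoc, g1 (s + d) c1]
        exact (phi_pole hn h1 _).mono (by omega)
      · by_cases c2 : s + d + 1 = m - 1
        · rw [← add_assoc, c2, g2]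
          rw [show s + d = m - 2 by omega] at h1
          exact h1.phi.mono (by omega)
        · have h3 : PL (un (a (s + d + 1)) * γ (s + d + 1)) (p * n) := by
            rw [g3 (s + d) (by omega) (by omega)]
            exact h1.phi.add_single (by omega) _
          have h4 := (hab (s + d + 1)).1
          exact h3.of_un_mul.mono (by omega)
  have G2 : ∀ (s : ℕ) (n : ℤ), 1 ≤ n → s ≤ f - 2 → PL (γ s) n → PL (β (f - 1)) (p * n) := by
    intro s n hn hs h
    have h2 := hmono n hn
    have h1 := G1 s n hn h (f - 2 - s) (by omega)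
    rw [show s + (f - 2 - s) = f - 2 by omega] at h1
    have h3 : PL (un (a (f - 1)) * β (f - 1)) (p * n) := by
      rw [b4]
      exact h1.phi.add_single (by omega) _
    have h4 := (hab (f - 1)).1
    exact h3.of_un_mul.mono (by omega)
  have key : ∀ i : Bool, ¬ PL ((fun i : Bool => if i then β 0 else γ 0) i) 1 := by
    apply no_poles
    intro i n hn h
    have h2 := hmono n hn
    have h3 := hmono (p * n) (by omega)
    cases i with
    | true =>
      refine ⟨false, ?_⟩
      show PL (γ 0) (n + 1)
      rw [g0]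
      exact (phi_pole (by omega) (B4 0 n hn (by omega) h) _).mono (by omega)
    | false =>
      refine ⟨true, ?_⟩
      show PL (β 0) (n + 1)
      rw [b0]
      exact (phi_pole (by omega) (G2 0 n hn (by omega) h) _).mono (by omega)
  have hβ0 : ¬ PL (β 0) 1 := key true
  have hγ0 : ¬ PL (γ 0) 1 := key false
  have hβf : ¬ PL (β (f - 1)) 1 := by
    intro h
    apply hβ0
    rw [b0]
    exact (phi_pole le_rfl h _).mono (by omega)
  have hγf : ¬ PL (γ (f - 1)) 1 := by
    intro h
    apply hγ0
    rw [g0]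
    exact (phi_pole le_rfl h _).mono (by omega)
  have hβ : ∀ t, t ≤ m - 2 → GE (β t) 0 := by
    intro t ht
    apply not_PL
    intro h
    exact hγf ((B4 t 1 le_rfl ht h).mono (by omega))
  have hγ : ∀ t, t ≤ f - 2 → GE (γ t) 0 := by
    intro t ht
    apply not_PL
    intro h
    exact hβf ((G2 t 1 le_rfl ht h).mono (by omega))
  have hb : ∀ t, t < m - 1 → b t = 0 := by
    intro t ht
    rcases Nat.eq_zero_or_pos t with h4 | h4
    · subst h4
      have h5 := hβ 0 (by omega) (-1) (by norm_num)
      rw [b0, coeff_add, phi_coeff_neg_one, zero_add, coeff_single_same] at h5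
      exact h5
    · obtain ⟨s, rfl⟩ : ∃ s, t = s + 1 := ⟨t - 1, by omega⟩
      have h5 := hβ (s + 1) (by omega) (-1) (by norm_num)
      rw [b1 s ht, coeff_add, phi_coeff_neg_one, zero_add, coeff_single_same] at h5
      exact h5
  have hg : ∀ t, t < m - 1 → g t = 0 := by
    intro t ht
    rcases Nat.eq_zero_or_pos t with h4 | h4
    · subst h4
      have h5 := hγ 0 (by omega) (-1) (by norm_num)
      rw [g0, coeff_add, phi_coeff_neg_one, zero_add, coeff_single_same] at h5
      exact h5
    · obtain ⟨s, rfl⟩ : ∃ s, t = s + 1 := ⟨t - 1, by omega⟩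
      have h5 := hγ (s + 1) (by omega) (-1) (by norm_num)
      rw [g1 s ht, coeff_add, phi_coeff_neg_one, zero_add, coeff_single_same] at h5
      exact h5
  refine ⟨fun t ht => ⟨hb t ht, hg t ht⟩, ?_⟩
  -- `β` has no poles
  have hβm : GE (β (m - 1)) 0 := by
    rw [b2]
    have := phi_GE p (hβ (m - 2) le_rfl)
    rwa [mul_zero] at this
  have hβ' : ∀ d, m - 1 + d ≤ f - 2 → GE (β (m - 1 + d)) 0 := by
    intro d
    induction d with
    | zero => intro _; exact hβm
    | succ d ih =>
      intro hd
      rw [← add_assoc, b3 (m - 1 + d) (by omega) (by omega)]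
      have h1 := (phi_GE p (ih (by omega))).un_mul (a (m - 1 + d + 1))
      have h2 := (hab (m - 1 + d + 1)).1
      exact h1.mono (by rw [mul_zero]; omega)
  have hγf1 : GE (γ (f - 1)) 1 := by
    have h0 := hβ' (f - 2 - (m - 1)) (by omega)
    rw [show m - 1 + (f - 2 - (m - 1)) = f - 2 by omega] at h0
    rw [g4]
    have h1 := (phi_GE p h0).un_mul (a (f - 1))
    have h2 := (hab (f - 1)).1
    exact h1.mono (by rw [mul_zero]; omega)
  have hγ2 : ∀ t, t ≤ f - 2 → GE (γ t) 2 ∧ (m ≤ t → x t = 0) := by
    intro t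
    induction t with
    | zero =>
      intro _
      refine ⟨?_, fun h => by omega⟩
      rw [g0, hg 0 (by omega), single_eq_zero, add_zero]
      exact (phi_GE p hγf1).mono (by omega)
    | succ t ih =>
      intro ht
      obtain ⟨ih1, -⟩ := ih (by omega)
      have h1 := phi_GE p ih1
      by_cases c1 : t + 1 < m - 1
      · refine ⟨?_, fun h => by omega⟩
        rw [g1 t c1, hg (t + 1) c1, single_eq_zero, add_zero]
        exact h1.mono (by omega)
      · by_cases c2 : t + 1 = m - 1
        · refine ⟨?_, fun h => by omega⟩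
          rw [c2, g2]
          rw [show t = m - 2 by omega] at h1
          exact h1.mono (by omega)
        · have h2 := g3 t (by omega) (by omega)
          have h3 := (hab (t + 1)).1
          have h4 := (hab (t + 1)).2
          have hx : x (t + 1) = 0 := by
            have h5 := congrArg (fun y => y.coeff 0) h2
            have h6 : (un (a (t + 1)) * γ (t + 1)).coeff 0 = 0 := by
              unfold un
              rw [coeff_single_mul, one_mul]
              exact hγ (t + 1) (by omega) _ (by omega)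
            simp only [coeff_add, phi_coeff_zero', coeff_single_same] at h5
            rw [h6, ih1 0 (by norm_num), zero_add] at h5
            exact h5.symm
          refine ⟨?_, fun _ => hx⟩
          rw [hx, single_eq_zero, add_zero] at h2
          rw [← h2] at h1
          exact h1.of_un_mul.mono (by nlinarith)
  intro t ht htf
  by_cases c : t ≤ f - 2
  · exact (hγ2 t c).2 ht
  · have e : t = f - 1 := by omega
    subst e
    have h3 := (hab (f - 1)).1
    have h5 := congrArg (fun y => y.coeff 0) b4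
    have h6 : (un (a (f - 1)) * β (f - 1)).coeff 0 = 0 := by
      unfold un
      rw [coeff_single_mul, one_mul]
      exact not_PL hβf _ (by omega)
    simp only [coeff_add, phi_coeff_zero', coeff_single_same] at h5
    rw [h6, (hγ2 (f - 2) le_rfl).1 0 (by norm_num), zero_add] at h5
    exact h5.symm

end

end Pool.Agent.Lib.MP_74d0c9_nt
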