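import Pool.Agent.Lib.MP_74d0c9_nt.Dual
import Pool.Agent.Lib.MP_74d0c9_nt.Off

/-! The first order deformations are independent. -/

set_option autoImplicit false

namespace Pool.Agent.Lib.MP_74d0c9_nt

open HahnSeries

universe u

section
variable {k : Type u} [CommRing k]

theorem C_un (r : k) (n : ℤ) : HahnSeries.C r * un n = single n r := by
  unfold un
  rw [HahnSeries.C_apply, single_mul_single, mul_one, zero_add]

theorem un_cancel {n : ℤ} {X Y : LaurentSeries k} (h : un n * X = un n * Y) : X = Y := by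
  have h1 := un_neg_mul (k := k) n
  linear_combination un (-n) * h - (X - Y) * h1

theorem mat2_inj {R : Type u} {a b c d a' b' c' d' : R}
    (h : !![a, b; c, d] = !![a', b'; c', d']) : a = a' ∧ b = b' ∧ c = c' ∧ d = d' :=
  ⟨congrFun (congrFun h 0) 0, congrFun (congrFun h 0) 1, congrFun (congrFun h 1) 0,
    congrFun (congrFun h 1) 1⟩

theorem comm_two (X Y : Mat k) (p q r s : LaurentSeries k) :
    X * !![p, q; r, s] - !![p, q; r, s] * Y =
      !![X 0 0 * p + X 0 1 * r - (p * Y 0 0 + q * Y 1 0),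
        X 0 0 * q + X 0 1 * s - (p * Y 0 1 + q * Y 1 1);
        X 1 0 * p + X 1 1 * r - (r * Y 0 0 + s * Y 1 0),
        X 1 0 * q + X 1 1 * s - (r * Y 0 1 + s * Y 1 1)] := by
  refine Matrix.ext fun i j => ?_
  rw [Matrix.sub_apply, Matrix.mul_apply, Matrix.mul_apply, Fin.sum_univ_two, Fin.sum_univ_two]
  fin_cases i <;> fin_cases j <;> rfl

/-- `r₀ nl 0 + r₁ nl 1 + r₂ nl (-1)` -/
noncomputable def Nm (r : Fin 3 → k) : Mat k :=
  (HahnSeries.C (r 0) : LaurentSeries k) • nl 0 + (HahnSeries.C (r 1) : LaurentSeries k) • nl 1 +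
    (HahnSeries.C (r 2) : LaurentSeries k) • nl (-1)

theorem Nm_eq (r : Fin 3 → k) : Nm r =
    !![single (-1) (-(r 1 - r 2)), single (-1) (r 0 + r 1 + r 2);
      single (-1) (-(r 1 + r 2)), single (-1) (r 1 - r 2)] := by
  unfold Nm nl
  rw [← C_un, ← C_un, ← C_un, ← C_un]
  simp only [map_neg, map_sub, map_add, map_zero, map_one]
  refine Matrix.ext fun i j => ?_
  rw [Matrix.add_apply, Matrix.add_apply, Matrix.smul_apply, Matrix.smul_apply, Matrix.smul_apply,
    smul_eq_mul, smul_eq_mul, smul_eq_mul]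
  fin_cases i <;> fin_cases j
  · show HahnSeries.C (r 0) * -(0 * un (-1)) + HahnSeries.C (r 1) * -(1 * un (-1)) +
      HahnSeries.C (r 2) * -(-1 * un (-1)) = -(HahnSeries.C (r 1) - HahnSeries.C (r 2)) * un (-1)
    ring
  · show HahnSeries.C (r 0) * un (-1) + HahnSeries.C (r 1) * un (-1) +
      HahnSeries.C (r 2) * un (-1) =
        (HahnSeries.C (r 0) + HahnSeries.C (r 1) + HahnSeries.C (r 2)) * un (-1)
    ring
  · show HahnSeries.C (r 0) * -(0 * 0 * un (-1)) + HahnSeries.C (r 1) * -(1 * 1 * un (-1)) +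
      HahnSeries.C (r 2) * -(-1 * -1 * un (-1)) =
        -(HahnSeries.C (r 1) + HahnSeries.C (r 2)) * un (-1)
    ring
  · show HahnSeries.C (r 0) * (0 * un (-1)) + HahnSeries.C (r 1) * (1 * un (-1)) +
      HahnSeries.C (r 2) * (-1 * un (-1)) = (HahnSeries.C (r 1) - HahnSeries.C (r 2)) * un (-1)
    ring

/-- a combination of the directions, at the component `t` -/
noncomputable def Dsum (p m f a : ℕ) (c : k) (r : ℕ → Fin 3 → k) (x : ℕ → k) (t : ℕ) : Mat k :=
  (if t = 0 then (HahnSeries.C c : LaurentSeries k) • Bn p m f a t else 0) +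
    (if t < m - 1 then Nm (r t) * Bn p m f a t else 0) +
    (if m ≤ t then Bn p m f a t * !![0, 0; HahnSeries.C (x t), 0] else 0)

theorem indep {p m f : ℕ} [Fact p.Prime] [NeZero f] (hm : 2 ≤ m) (hmf : m < f)
    {a : ZMod f → ℕ} (ha : ∀ i, 1 ≤ a i ∧ a i ≤ p) (h2 : ∀ z : k, 2 * z = 0 → z = 0)
    (i : ZMod f) (c : k) (r : ℕ → Fin 3 → k) (x : ℕ → k) (C : ZMod f → Mat k)
    (h : ∀ j, Dsum p m f (a j) c r x (j - i).val = C j * Bn p m f (a j) (j - i).val -
      Bn p m f (a j) (j - i).val * (C (j - 1)).map (phi k p)) :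
    c = 0 ∧ (∀ t, t < m - 1 → r t = 0) ∧ ∀ t, m ≤ t → t < f → x t = 0 := by
  obtain ⟨J, hJ⟩ : ∃ J : ℕ → ZMod f, J = fun t : ℕ => i + (t : ZMod f) := ⟨_, rfl⟩
  have hJs : ∀ t, J (t + 1) - 1 = J t := by
    intro t
    rw [hJ]
    push_cast
    ring
  have hJv : ∀ t, t < f → (J t - i).val = t := by
    intro t ht
    have : J t - i = t := by rw [hJ]; ring
    rw [this, ZMod.val_natCast_of_lt ht]
  have hJf : J 0 - 1 = J (f - 1) := by
    have h7 : ((f - 1 + 1 : ℕ) : ZMod f) = 0 := by
      rw [Nat.sub_add_cancel (by omega), ZMod.natCast_self]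
    push_cast at h7
    rw [hJ]
    dsimp only
    rw [Nat.cast_zero]
    linear_combination -h7
  have hC : ∀ t (r s : Fin 2), (C (J t)).map (phi k p) r s = phi k p (C (J t) r s) :=
    fun _ _ _ => rfl
  -- the equations
  have E0 : C (J 0) 0 0 - phi k p (C (J (f - 1)) 0 0) = single 0 c + single (-1) (-(r 0 1 - r 0 2)) ∧
      C (J 0) 0 1 - phi k p (C (J (f - 1)) 0 1) = single (-1) (r 0 0 + r 0 1 + r 0 2) ∧
      C (J 0) 1 0 - phi k p (C (J (f - 1)) 1 0) = single (-1) (-(r 0 1 + r 0 2)) ∧
      C (J 0) 1 1 - phi k p (C (J (f - 1)) 1 1) = single 0 c + single (-1) (r 0 1 - r 0 2) := by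
    have h0 := h (J 0)
    rw [hJv 0 (by omega), hJf] at h0
    have e1 : (Bn p m f (a (J 0)) 0 : Mat k) = !![1, 0; 0, 1] := by
      unfold Bn; rw [if_pos rfl, Matrix.one_fin_two]
    unfold Dsum at h0
    rw [if_pos rfl, if_pos (by omega), if_neg (by omega), add_zero, e1, comm_two, Nm_eq,
      Matrix.mul_fin_two] at h0
    have e2 : (HahnSeries.C c : LaurentSeries k) • (!![1, 0; 0, 1] : Mat k) +
        !![single (-1) (-(r 0 1 - r 0 2)) * 1 + single (-1) (r 0 0 + r 0 1 + r 0 2) * 0,
          single (-1) (-(r 0 1 - r 0 2)) * 0 + single (-1) (r 0 0 + r 0 1 + r 0 2) * 1;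
          single (-1) (-(r 0 1 + r 0 2)) * 1 + single (-1) (r 0 1 - r 0 2) * 0,
          single (-1) (-(r 0 1 + r 0 2)) * 0 + single (-1) (r 0 1 - r 0 2) * 1] =
        !![single 0 c + single (-1) (-(r 0 1 - r 0 2)), single (-1) (r 0 0 + r 0 1 + r 0 2);
          single (-1) (-(r 0 1 + r 0 2)), single 0 c + single (-1) (r 0 1 - r 0 2)] := by
      refine Matrix.ext fun i j => ?_
      rw [Matrix.add_apply, Matrix.smul_apply, smul_eq_mul, HahnSeries.C_apply]
      fin_cases i <;> fin_cases j
      · show single 0 c * 1 + (single (-1) (-(r 0 1 - r 0 2)) * 1 +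
          single (-1) (r 0 0 + r 0 1 + r 0 2) * 0) = single 0 c + single (-1) (-(r 0 1 - r 0 2))
        ring
      · show single 0 c * 0 + (single (-1) (-(r 0 1 - r 0 2)) * 0 +
          single (-1) (r 0 0 + r 0 1 + r 0 2) * 1) = single (-1) (r 0 0 + r 0 1 + r 0 2)
        ring
      · show single 0 c * 0 + (single (-1) (-(r 0 1 + r 0 2)) * 1 +
          single (-1) (r 0 1 - r 0 2) * 0) = single (-1) (-(r 0 1 + r 0 2))
        ring
      · show single 0 c * 1 + (single (-1) (-(r 0 1 + r 0 2)) * 0 +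
          single (-1) (r 0 1 - r 0 2) * 1) = single 0 c + single (-1) (r 0 1 - r 0 2)
        ring
    rw [e2] at h0
    obtain ⟨f1, f2, f3, f4⟩ := mat2_inj h0
    simp only [hC] at f1 f2 f3 f4
    refine ⟨?_, ?_, ?_, ?_⟩
    · rw [f1]; ring
    · rw [f2]; ring
    · rw [f3]; ring
    · rw [f4]; ring
  have E1 : ∀ t, t + 1 < m - 1 →
      C (J (t + 1)) 0 0 - phi k p (C (J t) 0 0) = single (-1) (-(r (t + 1) 1 - r (t + 1) 2)) ∧
      C (J (t + 1)) 0 1 - phi k p (C (J t) 0 1) =
        single (-1) (r (t + 1) 0 + r (t + 1) 1 + r (t + 1) 2) ∧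
      C (J (t + 1)) 1 0 - phi k p (C (J t) 1 0) = single (-1) (-(r (t + 1) 1 + r (t + 1) 2)) ∧
      C (J (t + 1)) 1 1 - phi k p (C (J t) 1 1) = single (-1) (r (t + 1) 1 - r (t + 1) 2) := by
    intro t ht
    have h0 := h (J (t + 1))
    rw [hJv (t + 1) (by omega), hJs] at h0
    have e1 : (Bn p m f (a (J (t + 1))) (t + 1) : Mat k) =
        !![un (p - 1), 0; 0, un (p - 1)] := by
      unfold Bn; rw [if_neg (by omega), if_pos ht]
    unfold Dsum at h0
    rw [if_neg (by omega), if_pos ht, if_neg (by omega), add_zero, zero_add, e1, comm_two, Nm_eq,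
      Matrix.mul_fin_two] at h0
    obtain ⟨f1, f2, f3, f4⟩ := mat2_inj h0
    simp only [hC] at f1 f2 f3 f4
    refine ⟨?_, ?_, ?_, ?_⟩
    · apply un_cancel (n := p - 1); linear_combination -f1
    · apply un_cancel (n := p - 1); linear_combination -f2
    · apply un_cancel (n := p - 1); linear_combination -f3
    · apply un_cancel (n := p - 1); linear_combination -f4
  have E2 : C (J (m - 1)) 0 0 = phi k p (C (J (m - 2)) 0 0) ∧
      C (J (m - 1)) 0 1 = phi k p (C (J (m - 2)) 0 1) ∧
      C (J (m - 1)) 1 0 = phi k p (C (J (m - 2)) 1 0) ∧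
      C (J (m - 1)) 1 1 = phi k p (C (J (m - 2)) 1 1) := by
    have hm1 : m - 1 = m - 2 + 1 := by omega
    have h0 := h (J (m - 1))
    have hJm : J (m - 1) - 1 = J (m - 2) := by rw [hm1]; exact hJs _
    rw [hJv (m - 1) (by omega), hJm] at h0
    have e1 : (Bn p m f (a (J (m - 1))) (m - 1) : Mat k) = !![un p, 0; 0, un p] := by
      unfold Bn; rw [if_neg (by omega), if_neg (by omega), if_pos rfl]
    unfold Dsum at h0
    rw [if_neg (by omega), if_neg (by omega), if_neg (by omega), add_zero, zero_add, e1,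
      comm_two] at h0
    have e3 : (0 : Mat k) = !![0, 0; 0, 0] := by
      refine Matrix.ext fun i j => ?_
      fin_cases i <;> fin_cases j <;> rfl
    rw [e3] at h0
    obtain ⟨f1, f2, f3, f4⟩ := mat2_inj h0
    simp only [hC] at f1 f2 f3 f4
    refine ⟨?_, ?_, ?_, ?_⟩
    · apply un_cancel (n := p); linear_combination -f1
    · apply un_cancel (n := p); linear_combination -f2
    · apply un_cancel (n := p); linear_combination -f3
    · apply un_cancel (n := p); linear_combination -f4
  have E3 : ∀ t, m ≤ t + 1 → t + 1 < f - 1 →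
      C (J (t + 1)) 0 0 = phi k p (C (J t) 0 0) ∧
      C (J (t + 1)) 0 1 = un (a (J (t + 1))) * phi k p (C (J t) 0 1) ∧
      un (a (J (t + 1))) * C (J (t + 1)) 1 0 = phi k p (C (J t) 1 0) + single 0 (x (t + 1)) ∧
      C (J (t + 1)) 1 1 = phi k p (C (J t) 1 1) := by
    intro t ht ht'
    have h0 := h (J (t + 1))
    rw [hJv (t + 1) (by omega), hJs] at h0
    have e1 : (Bn p m f (a (J (t + 1))) (t + 1) : Mat k) =
        !![un (a (J (t + 1))), 0; 0, 1] := by
      unfold Bn
      rw [if_neg (by omega), if_neg (by omega), if_neg (by omega), if_pos ht', du_two]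
    unfold Dsum at h0
    rw [if_neg (by omega), if_neg (by omega), if_pos ht, add_zero, zero_add, e1, comm_two,
      Matrix.mul_fin_two] at h0
    obtain ⟨f1, f2, f3, f4⟩ := mat2_inj h0
    simp only [hC] at f1 f2 f3 f4
    rw [HahnSeries.C_apply] at f3
    refine ⟨?_, ?_, ?_, ?_⟩
    · apply un_cancel (n := a (J (t + 1))); linear_combination -f1
    · linear_combination -f2
    · linear_combination -f3
    · linear_combination -f4
  have E4 : un (a (J (f - 1))) * C (J (f - 1)) 0 1 =
        phi k p (C (J (f - 2)) 1 0) + single 0 (x (f - 1)) ∧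
      C (J (f - 1)) 0 0 = phi k p (C (J (f - 2)) 1 1) ∧
      C (J (f - 1)) 1 1 = phi k p (C (J (f - 2)) 0 0) ∧
      C (J (f - 1)) 1 0 = un (a (J (f - 1))) * phi k p (C (J (f - 2)) 0 1) := by
    have hm1 : f - 1 = f - 2 + 1 := by omega
    have h0 := h (J (f - 1))
    have hJm : J (f - 1) - 1 = J (f - 2) := by rw [hm1]; exact hJs _
    rw [hJv (f - 1) (by omega), hJm] at h0
    have e1 : (Bn p m f (a (J (f - 1))) (f - 1) : Mat k) =
        !![0, 1; un (a (J (f - 1))), 0] := by
      unfold Bn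
      rw [if_neg (by omega), if_neg (by omega), if_neg (by omega), if_neg (by omega)]
    unfold Dsum at h0
    rw [if_neg (by omega), if_neg (by omega), if_pos (by omega), add_zero, zero_add, e1,
      comm_two, Matrix.mul_fin_two] at h0
    obtain ⟨f1, f2, f3, f4⟩ := mat2_inj h0
    simp only [hC] at f1 f2 f3 f4
    rw [HahnSeries.C_apply] at f1
    refine ⟨?_, ?_, ?_, ?_⟩
    · linear_combination -f1
    · linear_combination -f2
    · apply un_cancel (n := a (J (f - 1))); linear_combination -f3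
    · linear_combination -f4
  -- the trace
  have hc : c = 0 := by
    apply h2
    refine trace_part (p := p) (f := f) (by omega) (τ := fun t => C (J t) 0 0 + C (J t) 1 1) ?_ ?_
    · obtain ⟨f1, -, -, f4⟩ := E0
      have e1 : (single 0 (2 * c) : LaurentSeries k) = single 0 c + single 0 c := by
        rw [two_mul, single_add]
      have e2 : (single (-1) (-(r 0 1 - r 0 2)) : LaurentSeries k) +
          single (-1) (r 0 1 - r 0 2) = 0 := by
        rw [← single_add, neg_add_cancel, single_eq_zero]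
      rw [e1, map_add]
      linear_combination f1 + f4 + e2
    · intro t ht
      rw [map_add]
      by_cases c1 : t + 1 < m - 1
      · obtain ⟨f1, -, -, f4⟩ := E1 t c1
        have e2 : (single (-1) (-(r (t + 1) 1 - r (t + 1) 2)) : LaurentSeries k) +
            single (-1) (r (t + 1) 1 - r (t + 1) 2) = 0 := by
          rw [← single_add, neg_add_cancel, single_eq_zero]
        linear_combination f1 + f4 + e2
      · by_cases c2 : t + 1 = m - 1
        · obtain ⟨f1, -, -, f4⟩ := E2
          rw [c2, show t = m - 2 by omega, f1, f4]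
        · by_cases c3 : t + 1 < f - 1
          · obtain ⟨f1, -, -, f4⟩ := E3 t (by omega) c3
            rw [f1, f4]
          · obtain ⟨-, f1, f4, -⟩ := E4
            rw [show t + 1 = f - 1 by omega, show t = f - 2 by omega, f1, f4, add_comm]
  -- the difference of the diagonal entries
  have hd : ∀ t, t < m - 1 → r t 1 = r t 2 := by
    intro t ht
    have h3 : -(2 * (r t 1 - r t 2)) = 0 := by
      refine diag_part (p := p) hm hmf (η := fun t => C (J t) 0 0 - C (J t) 1 1)
        (n := fun t => -(2 * (r t 1 - r t 2))) ?_ ?_ ?_ ?_ ht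
      · obtain ⟨f1, -, -, f4⟩ := E0
        have e2 : (single (-1) (-(2 * (r 0 1 - r 0 2))) : LaurentSeries k) =
            single (-1) (-(r 0 1 - r 0 2)) - single (-1) (r 0 1 - r 0 2) := by
          rw [← single_sub]
          congr 1
          ring
        rw [e2, map_sub]
        linear_combination f1 - f4
      · intro t ht
        obtain ⟨f1, -, -, f4⟩ := E1 t ht
        have e2 : (single (-1) (-(2 * (r (t + 1) 1 - r (t + 1) 2))) : LaurentSeries k) =
            single (-1) (-(r (t + 1) 1 - r (t + 1) 2)) -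
              single (-1) (r (t + 1) 1 - r (t + 1) 2) := by
          rw [← single_sub]
          congr 1
          ring
        rw [e2, map_sub]
        linear_combination f1 - f4
      · intro t ht ht'
        rw [map_sub]
        by_cases c2 : t + 1 = m - 1
        · obtain ⟨f1, -, -, f4⟩ := E2
          rw [c2, show t = m - 2 by omega, f1, f4]
        · obtain ⟨f1, -, -, f4⟩ := E3 t (by omega) ht'
          rw [f1, f4]
      · obtain ⟨-, f1, f4, -⟩ := E4
        rw [map_sub, f1, f4]
        ring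
    have h4 : 2 * (r t 1 - r t 2) = 0 := by rw [← neg_eq_zero]; exact h3
    exact sub_eq_zero.1 (h2 _ h4)
  have ho := off_part (p := p) hm hmf (a := fun t => a (J t)) (fun t => ha (J t))
    (β := fun t => C (J t) 0 1) (γ := fun t => C (J t) 1 0)
    (b := fun t => r t 0 + r t 1 + r t 2) (g := fun t => -(r t 1 + r t 2)) (x := x)
    (by linear_combination E0.2.1) (by linear_combination E0.2.2.1)
    (fun t ht => by linear_combination (E1 t ht).2.1)
    (fun t ht => by linear_combination (E1 t ht).2.2.1)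
    E2.2.1 E2.2.2.1 (fun t ht ht' => (E3 t ht ht').2.1) (fun t ht ht' => (E3 t ht ht').2.2.1)
    E4.1 E4.2.2.2
  refine ⟨hc, ?_, ho.2⟩
  intro t ht
  obtain ⟨h3, h4⟩ := ho.1 t ht
  have h5 := hd t ht
  have h6 : r t 2 = 0 := by
    apply h2
    rw [h5] at h4
    linear_combination -h4
  funext s
  fin_cases s
  · show r t 0 = 0
    rw [h5, h6] at h3
    simpa using h3
  · show r t 1 = 0
    rw [h5, h6]
  · exact h6

end

end Pool.Agent.Lib.MP_74d0c9_nt
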