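import Pool.Agent.Lib.MP_74d0c9_nt.Example

/-! The étale `φ`-module which belongs to a word is irreducible. -/

set_option autoImplicit false

namespace Pool.Agent.Lib.MP_74d0c9_nt

open HahnSeries

universe u

section
variable {k : Type u} [Field k] (p : ℕ) [Fact p.Prime]

theorem phi_ne_zero {x : LaurentSeries k} (hx : x ≠ 0) : phi k p x ≠ 0 := by
  intro h
  apply hx
  ext j
  have := phi_coeff p x j
  rw [h] at this
  exact this.symm

theorem order_phi {x : LaurentSeries k} (hx : x ≠ 0) : (phi k p x).order = p * x.order := by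
  have hp : (0 : ℤ) < p := by exact_mod_cast (Fact.out : p.Prime).pos
  apply le_antisymm
  · apply order_le_of_coeff_ne_zero
    rw [phi_coeff]
    exact fun h => hx (coeff_order_eq_zero.1 h)
  · have h1 : (phi k p x).coeff (phi k p x).order ≠ 0 :=
      fun h => phi_ne_zero p hx (coeff_order_eq_zero.1 h)
    by_cases hd : (p : ℤ) ∣ (phi k p x).order
    · obtain ⟨n, hn⟩ := hd
      rw [hn] at h1 ⊢
      rw [phi_coeff] at h1
      exact mul_le_mul_of_nonneg_left (order_le_of_coeff_ne_zero h1) hp.le
    · exact absurd (phi_coeff_zero p x hd) h1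

/-- from `ν x' = u ^ c φ(x)` -/
theorem order_step {ν x' x : LaurentSeries k} {c : ℤ} (hx : x ≠ 0)
    (h : un c * phi k p x = ν * x') : x' ≠ 0 ∧ ν ≠ 0 ∧ ν.order + x'.order = c + p * x.order := by
  have h1 : (un c : LaurentSeries k) ≠ 0 := single_ne_zero one_ne_zero
  have h2 : ν * x' ≠ 0 := by rw [← h]; exact mul_ne_zero h1 (phi_ne_zero p hx)
  refine ⟨right_ne_zero_of_mul h2, left_ne_zero_of_mul h2, ?_⟩
  rw [← order_mul (left_ne_zero_of_mul h2) (right_ne_zero_of_mul h2), ← h,
    order_mul h1 (phi_ne_zero p hx), order_phi p hx, order_single one_ne_zero]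

end

section
variable {k : Type u} [Field k] {p f m : ℕ} [Fact p.Prime] [NeZero f] {a : ZMod f → ℕ}

theorem irred_B (hp : 5 ≤ p) (ha : ∀ i, 1 ≤ a i ∧ a i ≤ p) (hm : 2 ≤ m) (hmf : m < f)
    (i : ZMod f) : Irred p fun j => (Bn p m f (a j) (j - i).val : Mat k) := by
  rintro ⟨v, ν, hv, h⟩
  have hp5 : (5 : ℤ) ≤ p := by exact_mod_cast hp
  obtain ⟨J, hJ⟩ : ∃ J : ℕ → ZMod f, J = fun t : ℕ => i + (t : ZMod f) - 1 := ⟨_, rfl⟩
  have hJs : ∀ t, J (t + 1) - 1 = J t := by
    intro t
    rw [hJ]
    push_cast
    ring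
  have hJv : ∀ t, t < f → (J (t + 1) - i).val = t := by
    intro t ht
    have : J (t + 1) - i = t := by rw [hJ]; push_cast; ring
    rw [this, ZMod.val_natCast_of_lt ht]
  have hJf : J f = J 0 := by
    rw [hJ]
    simp
  -- the components
  have hstep : ∀ t, t < f - 1 → ∃ c d : ℤ,
      un c * phi k p (v (J t) 0) = ν (J (t + 1)) * v (J (t + 1)) 0 ∧
      un d * phi k p (v (J t) 1) = ν (J (t + 1)) * v (J (t + 1)) 1 ∧
      ((t < m ∧ d = c) ∨ (m ≤ t ∧ d = c - a (J (t + 1)))) := by
    intro t ht
    have h1 : (Bn p m f (a (J (t + 1))) (J (t + 1) - i).val).mulVec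
        (fun r => phi k p (v (J (t + 1) - 1) r)) = ν (J (t + 1)) • v (J (t + 1)) := h (J (t + 1))
    rw [hJs, hJv t (by omega)] at h1
    have hsc : ∀ c : ℤ, Bn p m f (a (J (t + 1))) t = (!![un c, 0; 0, un c] : Mat k) →
        un c * phi k p (v (J t) 0) = ν (J (t + 1)) * v (J (t + 1)) 0 ∧
        un c * phi k p (v (J t) 1) = ν (J (t + 1)) * v (J (t + 1)) 1 := by
      intro c hc
      rw [hc] at h1
      constructor
      · have := congrFun h1 0
        rw [Matrix.mulVec, dotProduct, Fin.sum_univ_two] at this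
        have e : un c * phi k p (v (J t) 0) + 0 * phi k p (v (J t) 1) =
          ν (J (t + 1)) * v (J (t + 1)) 0 := this
        rw [← e]
        ring
      · have := congrFun h1 1
        rw [Matrix.mulVec, dotProduct, Fin.sum_univ_two] at this
        have e : 0 * phi k p (v (J t) 0) + un c * phi k p (v (J t) 1) =
          ν (J (t + 1)) * v (J (t + 1)) 1 := this
        rw [← e]
        ring
    by_cases c0 : t = 0
    · have := hsc 0 (by
        unfold Bn
        rw [if_pos c0, Matrix.one_fin_two]
        rfl)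
      exact ⟨0, 0, this.1, this.2, Or.inl ⟨by omega, rfl⟩⟩
    · by_cases c1 : t < m - 1
      · have := hsc (p - 1) (by
          unfold Bn
          rw [if_neg c0, if_pos c1])
        exact ⟨p - 1, p - 1, this.1, this.2, Or.inl ⟨by omega, rfl⟩⟩
      · by_cases c2 : t = m - 1
        · have := hsc p (by
            unfold Bn
            rw [if_neg c0, if_neg c1, if_pos c2])
          exact ⟨p, p, this.1, this.2, Or.inl ⟨by omega, rfl⟩⟩
        · have hB : Bn p m f (a (J (t + 1))) t = (!![un (a (J (t + 1))), 0; 0, un 0] : Mat k) := by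
            unfold Bn
            rw [if_neg c0, if_neg c1, if_neg c2, if_pos ht, du_two]
            rfl
          rw [hB] at h1
          refine ⟨a (J (t + 1)), 0, ?_, ?_, Or.inr ⟨by omega, by ring⟩⟩
          · have := congrFun h1 0
            rw [Matrix.mulVec, dotProduct, Fin.sum_univ_two] at this
            have e : un (a (J (t + 1)) : ℤ) * phi k p (v (J t) 0) + 0 * phi k p (v (J t) 1) =
              ν (J (t + 1)) * v (J (t + 1)) 0 := this
            rw [← e]
            ring
          · have := congrFun h1 1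
            rw [Matrix.mulVec, dotProduct, Fin.sum_univ_two] at this
            have e : 0 * phi k p (v (J t) 0) + un 0 * phi k p (v (J t) 1) =
              ν (J (t + 1)) * v (J (t + 1)) 1 := this
            rw [← e]
            ring
  have hlast : un 0 * phi k p (v (J (f - 1)) 1) = ν (J 0) * v (J 0) 0 ∧
      un (a (J 0)) * phi k p (v (J (f - 1)) 0) = ν (J 0) * v (J 0) 1 := by
    have h1 : (Bn p m f (a (J (f - 1 + 1))) (J (f - 1 + 1) - i).val).mulVec
        (fun r => phi k p (v (J (f - 1 + 1) - 1) r)) =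
        ν (J (f - 1 + 1)) • v (J (f - 1 + 1)) := h (J (f - 1 + 1))
    have hf1 : f - 1 + 1 = f := by omega
    rw [hJs, hJv (f - 1) (by omega), hf1, hJf] at h1
    have hB : Bn p m f (a (J 0)) (f - 1) = (!![0, 1; un (a (J 0)), 0] : Mat k) := by
      unfold Bn
      rw [if_neg (by omega), if_neg (by omega), if_neg (by omega), if_neg (by omega)]
    rw [hB] at h1
    constructor
    · have := congrFun h1 0
      rw [Matrix.mulVec, dotProduct, Fin.sum_univ_two] at this
      have e : 0 * phi k p (v (J (f - 1)) 0) + 1 * phi k p (v (J (f - 1)) 1) =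
        ν (J 0) * v (J 0) 0 := this
      rw [← e, un_zero]
      ring
    · have := congrFun h1 1
      rw [Matrix.mulVec, dotProduct, Fin.sum_univ_two] at this
      have e : un (a (J 0) : ℤ) * phi k p (v (J (f - 1)) 0) + 0 * phi k p (v (J (f - 1)) 1) =
        ν (J 0) * v (J 0) 1 := this
      rw [← e]
      ring
  -- nonzero
  have hν : ν (J 0) ≠ 0 := by
    intro h0
    rw [h0, zero_mul, zero_mul] at hlast
    have h1 : (un 0 : LaurentSeries k) ≠ 0 := single_ne_zero one_ne_zero
    have h2 : (un (a (J 0)) : LaurentSeries k) ≠ 0 := single_ne_zero one_ne_zero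
    apply hv (J (f - 1))
    funext r
    fin_cases r
    · by_contra h3
      exact mul_ne_zero h2 (phi_ne_zero p h3) hlast.2
    · by_contra h3
      exact mul_ne_zero h1 (phi_ne_zero p h3) hlast.1
  have hν' : ∀ t, t < f - 1 → ν (J (t + 1)) ≠ 0 := by
    intro t ht h0
    obtain ⟨c, d, h1, h2, -⟩ := hstep t ht
    rw [h0, zero_mul] at h1 h2
    have h3 : (un c : LaurentSeries k) ≠ 0 := single_ne_zero one_ne_zero
    have h4 : (un d : LaurentSeries k) ≠ 0 := single_ne_zero one_ne_zero
    apply hv (J t)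
    funext r
    fin_cases r
    · by_contra h5
      exact mul_ne_zero h3 (phi_ne_zero p h5) h1
    · by_contra h5
      exact mul_ne_zero h4 (phi_ne_zero p h5) h2
  have hx0 : v (J 0) 0 ≠ 0 := by
    intro h0
    have h1 : ∀ t, t ≤ f - 1 → v (J t) 0 = 0 := by
      intro t
      induction t with
      | zero => intro _; exact h0
      | succ t ih =>
        intro ht
        obtain ⟨c, d, h1, -, -⟩ := hstep t (by omega)
        rw [ih (by omega), map_zero, mul_zero] at h1
        exact (mul_eq_zero.1 h1.symm).resolve_left (hν' t (by omega))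
    have h2 := hlast.2
    rw [h1 _ le_rfl, map_zero, mul_zero] at h2
    have h3 := (mul_eq_zero.1 h2.symm).resolve_left hν
    apply hv (J 0)
    funext r
    fin_cases r
    · exact h0
    · exact h3
  have hy0 : v (J 0) 1 ≠ 0 := by
    intro h0
    have h1 : ∀ t, t ≤ f - 1 → v (J t) 1 = 0 := by
      intro t
      induction t with
      | zero => intro _; exact h0
      | succ t ih =>
        intro ht
        obtain ⟨c, d, -, h1, -⟩ := hstep t (by omega)
        rw [ih (by omega), map_zero, mul_zero] at h1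
        exact (mul_eq_zero.1 h1.symm).resolve_left (hν' t (by omega))
    have h2 := hlast.1
    rw [h1 _ le_rfl, map_zero, mul_zero] at h2
    have h3 := (mul_eq_zero.1 h2.symm).resolve_left hν
    apply hv (J 0)
    funext r
    fin_cases r
    · exact h3
    · exact h0
  have hne : ∀ t, t ≤ f - 1 → v (J t) 0 ≠ 0 ∧ v (J t) 1 ≠ 0 := by
    intro t
    induction t with
    | zero => intro _; exact ⟨hx0, hy0⟩
    | succ t ih =>
      intro ht
      obtain ⟨c, d, h1, h2, -⟩ := hstep t (by omega)
      obtain ⟨h3, h4⟩ := ih (by omega)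
      exact ⟨(order_step p h3 h1).1, (order_step p h4 h2).1⟩
  -- the difference of the orders
  obtain ⟨R, hR⟩ : ∃ R : ℕ → ℤ, R = fun t => (v (J t) 1).order - (v (J t) 0).order := ⟨_, rfl⟩
  have hRs : ∀ t, t < f - 1 → (t < m ∧ R (t + 1) = p * R t) ∨
      (m ≤ t ∧ R (t + 1) = p * R t - a (J (t + 1))) := by
    intro t ht
    obtain ⟨c, d, h1, h2, h3⟩ := hstep t ht
    obtain ⟨h4, h5⟩ := hne t (by omega)
    have h6 := (order_step p h4 h1).2.2
    have h7 := (order_step p h5 h2).2.2
    rw [hR]
    rcases h3 with ⟨h3, h8⟩ | ⟨h3, h8⟩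
    · exact Or.inl ⟨h3, by dsimp only; rw [h8] at h7; linear_combination h7 - h6⟩
    · exact Or.inr ⟨h3, by dsimp only; rw [h8] at h7; linear_combination h7 - h6⟩
  have hRf : R 0 = a (J 0) - p * R (f - 1) := by
    obtain ⟨h4, h5⟩ := hne (f - 1) le_rfl
    have h6 := (order_step p h5 hlast.1).2.2
    have h7 := (order_step p h4 hlast.2).2.2
    rw [hR]
    dsimp only
    linear_combination h7 - h6
  have hab : ∀ j, (1 : ℤ) ≤ a j ∧ (a j : ℤ) ≤ p := fun j =>
    ⟨by exact_mod_cast (ha j).1, by exact_mod_cast (ha j).2⟩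
  rcases lt_or_ge (R 0) 1 with hlt | hge
  · have h1 : ∀ t, t ≤ f - 1 → R t ≤ 0 := by
      intro t
      induction t with
      | zero => intro _; omega
      | succ t ih =>
        intro ht
        have h2 := ih (by omega)
        rcases hRs t (by omega) with ⟨-, h3⟩ | ⟨-, h3⟩
        · rw [h3]; nlinarith
        · rw [h3]; nlinarith [(hab (J (t + 1))).1]
    have h2 := h1 _ le_rfl
    nlinarith [(hab (J 0)).1]
  · have h1 : ∀ t, t + 1 ≤ f - 1 → (p : ℤ) ≤ R (t + 1) := by
      intro t
      induction t with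
      | zero =>
        intro ht
        rcases hRs 0 (by omega) with ⟨-, h3⟩ | ⟨h4, -⟩
        · rw [h3]; nlinarith
        · omega
      | succ t ih =>
        intro ht
        have h2 := ih (by omega)
        rcases hRs (t + 1) (by omega) with ⟨-, h3⟩ | ⟨-, h3⟩
        · rw [h3]; nlinarith
        · rw [h3]; nlinarith [(hab (J (t + 1 + 1))).2]
    have h2 := h1 (f - 2) (by omega)
    have e : f - 2 + 1 = f - 1 := by omega
    rw [e] at h2
    nlinarith [(hab (J 0)).2]

/-- the Kisin modules which belong to a word -/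
noncomputable def Mn (m : ℕ) (i : ZMod f) (l : k) : KisinModule f k where
  X j := Matrix.GeneralLinearGroup.map PowerSeries.C (xn m f l (j - i).val)
  Z j := zn m l (j - i).val

theorem isHom_Mn (hm : 2 ≤ m) (hmf : m < f) (i : ZMod f) (h1 : a i = 1)
    (h2 : ∀ s : ℕ, 0 < s → s < m - 1 → a (i + s) = p - 1) (h3 : a (i + (m - 1 : ℕ)) = p) (l : k) :
    IsHom p ((Mn m i l).frob a) (fun j => (Bn p m f (a j) (j - i).val : Mat k))
      (fun j => (Tn m l (j - i).val).1) := by
  intro j
  have hF : (Mn m i l).frob a j =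
      gz (xn m f l (j - i).val) * du (a j) * gz (zn m l (j - i).val) := by
    show ((xn m f l (j - i).val).1.map PowerSeries.C).map ps * _ * _ = _
    have : ((xn m f l (j - i).val).1.map PowerSeries.C).map ps = gz (xn m f l (j - i).val) := by
      refine Matrix.ext fun r s => ?_
      exact ofPowerSeries_C _
    rw [this]
    rfl
  rw [hF]
  have hj : j = i + ((j - i).val : ℕ) := by
    rw [ZMod.natCast_val, ZMod.cast_id', id_eq, add_sub_cancel]
  have hlt : (j - i).val < f := ZMod.val_lt _
  apply step_check p m f hm hmf (a j) l hlt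
  · have hf1 : 1 < f := by omega
    rcases Nat.eq_zero_or_pos (j - i).val with h4 | h4
    · left
      refine ⟨h4, ?_⟩
      have h5 : j - i = 0 := (ZMod.val_eq_zero _).1 h4
      have h6 : j - 1 - i = ((f - 1 : ℕ) : ZMod f) := by
        have h7 : ((f - 1 + 1 : ℕ) : ZMod f) = 0 := by
          rw [Nat.sub_add_cancel (by omega), ZMod.natCast_self]
        push_cast at h7
        linear_combination h5 - h7
      rw [h6, ZMod.val_natCast_of_lt (by omega)]
    · right
      refine ⟨h4, ?_⟩
      have h6 : j - 1 - i = (((j - i).val - 1 : ℕ) : ZMod f) := by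
        rw [Nat.cast_sub h4, ZMod.natCast_val, ZMod.cast_id', id_eq]
        push_cast
        ring
      rw [h6, ZMod.val_natCast_of_lt (by omega)]
  · intro h4
    rw [h4] at hj
    rw [hj, Nat.cast_zero, add_zero]
    exact h1
  · intro h4 h5
    rw [hj]
    exact h2 _ h4 h5
  · intro h4
    rw [h4] at hj
    rw [hj]
    exact h3

theorem not_integral_tl {l l' : k} (h : l ≠ l') : ¬ Integral ((tl l)⁻¹ * tl l').1 := by
  intro hc
  have h1 := hc 1 0 (-1) (by norm_num)
  have h2 : ((tl l)⁻¹ * tl l').1 = (!![un 1, 0; -HahnSeries.C l, 1] : Mat k) *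
      !![un (-1), 0; HahnSeries.C l' * un (-1), 1] := rfl
  rw [h2, Matrix.mul_fin_two] at h1
  have h3 : (-HahnSeries.C l * un (-1) + 1 * (HahnSeries.C l' * un (-1)) : LaurentSeries k).coeff
      (-1) = 0 := h1
  have h4 : (-HahnSeries.C l * un (-1) + 1 * (HahnSeries.C l' * un (-1)) : LaurentSeries k) =
      single (-1) (l' - l) := by
    have h5 : (HahnSeries.C (l' - l) : LaurentSeries k) * un (-1) = single (-1) (l' - l) := by
      unfold un
      rw [HahnSeries.C_apply, single_mul_single, mul_one, zero_add]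
    rw [← h5, map_sub]
    ring
  rw [h4, coeff_single_same] at h3
  exact h (sub_eq_zero.1 h3).symm

end

end Pool.Agent.Lib.MP_74d0c9_nt
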