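import Pool.Agent.Lib.MP_74d0c9_nt.Dual
import Pool.Agent.Lib.MP_74d0c9_nt.Basis

/-! The Kisin modules of a word over an arbitrary ring of coefficients. -/

set_option autoImplicit false

namespace Pool.Agent.Lib.MP_74d0c9_nt

open HahnSeries

universe u

section
variable {A : Type u} [CommRing A]

/-- `1 + s`, a unit -/
noncomputable def gS (s : A) (hs : IsUnit (1 + s)) : GL (Fin 2) A :=
  Matrix.GeneralLinearGroup.mk'' !![1 + s, 0; 0, 1 + s] (by
    rw [Matrix.det_fin_two_of, mul_zero, sub_zero]
    exact hs.mul hs)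

theorem gz_gS (s : A) (hs : IsUnit (1 + s)) :
    gz (gS s hs) = (HahnSeries.C (1 + s) : LaurentSeries A) • (1 : Mat A) := by
  show (!![1 + s, 0; 0, 1 + s] : Matrix (Fin 2) (Fin 2) A).map HahnSeries.C = _
  rw [mat2_map, map_zero]
  refine Matrix.ext fun r t => ?_
  rw [Matrix.smul_apply, smul_eq_mul]
  fin_cases r <;> fin_cases t
  · exact (mul_one _).symm
  · exact (mul_zero _).symm
  · exact (mul_zero _).symm
  · exact (mul_one _).symm

/-- `1 + w N`, `N = u⁻¹ [[-l, 1], [-l², l]]` -/
noncomputable def oneN (l w : A) : Mat A :=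
  !![1 - HahnSeries.C (w * l) * un (-1), HahnSeries.C w * un (-1);
    -(HahnSeries.C (w * l * l) * un (-1)), 1 + HahnSeries.C (w * l) * un (-1)]

theorem oneN_tl (l w : A) : oneN l w * (tl l).1 = (tl l).1 * gz (eU w) := by
  have htl : (tl l).1 = (!![un (-1), 0; HahnSeries.C l * un (-1), 1] : Mat A) := rfl
  unfold oneN
  rw [htl, gz_eU, Matrix.mul_fin_two, Matrix.mul_fin_two]
  simp only [map_mul]
  apply mat2_congr <;> ring

/-- the Frobenius matrices of the family -/
noncomputable def Fm (p m f a : ℕ) (l s : A) (w x : ℕ → A) (t : ℕ) : Mat A :=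
  if t = 0 then (HahnSeries.C (1 + s) : LaurentSeries A) • (oneN l (w 0) * Bn p m f a 0)
  else if t < m - 1 then oneN l (w t) * Bn p m f a t
  else if t = m - 1 then Bn p m f a t
  else Bn p m f a t * !![1, 0; HahnSeries.C (x t), 1]

variable {p f m : ℕ} [Fact p.Prime] [NeZero f] {a : ZMod f → ℕ}

/-- the factors on the left -/
noncomputable def EL (m : ℕ) (s : A) (hs : IsUnit (1 + s)) (w : ℕ → A) (t : ℕ) : GL (Fin 2) A :=
  if t = 0 then gS s hs * eU (w 0) else if t < m - 1 then eU (w t) else 1

/-- the factors on the right -/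
def ER (m : ℕ) (x : ℕ → A) (t : ℕ) : GL (Fin 2) A := if m ≤ t then eL (x t) else 1

/-- the Kisin modules -/
noncomputable def MF (m : ℕ) (i : ZMod f) (l s : A) (hs : IsUnit (1 + s)) (w x : ℕ → A) :
    KisinModule f A where
  X j := Matrix.GeneralLinearGroup.map PowerSeries.C
    (EL m s hs w (j - i).val * xn m f l (j - i).val)
  Z j := ER m x (j - i).val * zn m l (j - i).val

omit [NeZero f] in
theorem MF_frob (m : ℕ) (i : ZMod f) (l s : A) (hs : IsUnit (1 + s)) (w x : ℕ → A) (j : ZMod f) :
    (MF m i l s hs w x).frob a j =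
      gz (EL m s hs w (j - i).val) * gz (xn m f l (j - i).val) * du (a j) *
        (gz (ER m x (j - i).val) * gz (zn m l (j - i).val)) := by
  rw [← gz_mul, ← gz_mul]
  show (((EL m s hs w (j - i).val * xn m f l (j - i).val).1.map
    PowerSeries.C).map ps) * _ * _ = _
  have : ((EL m s hs w (j - i).val * xn m f l (j - i).val).1.map
      PowerSeries.C).map ps = gz (EL m s hs w (j - i).val * xn m f l (j - i).val) := by
    refine Matrix.ext fun r s => ?_
    exact ofPowerSeries_C _
  rw [this]
  rfl

/-- The members of the family are isomorphic, as étale `φ`-modules, to Kisin modules. -/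
theorem isHom_Fm (hm : 2 ≤ m) (hmf : m < f) (i : ZMod f) (h1 : a i = 1)
    (h2 : ∀ s : ℕ, 0 < s → s < m - 1 → a (i + s) = p - 1) (h3 : a (i + (m - 1 : ℕ)) = p)
    (l s : A) (hs : IsUnit (1 + s)) (w x : ℕ → A) :
    IsHom p ((MF m i l s hs w x).frob a) (fun j => Fm p m f (a j) l s w x (j - i).val)
      (fun j => (Tn m l (j - i).val).1) := by
  intro j
  have h4 := step_check' hm hmf i h1 h2 h3 l j
  show (Tn m l (j - i).val).1 * _ =
    Fm p m f (a j) l s w x (j - i).val * (Tn m l (j - 1 - i).val).1.map (phi A p)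
  rw [MF_frob]
  by_cases c0 : (j - i).val < m - 1
  · have e1 : Tn m l (j - i).val = tl l := by unfold Tn; rw [if_pos c0]
    have e2 : (ER m x (j - i).val : GL (Fin 2) A) = 1 := by unfold ER; rw [if_neg (by omega)]
    have key : ∀ (G P : Mat A), P * (Tn m l (j - i).val).1 = (Tn m l (j - i).val).1 * G →
        (Tn m l (j - i).val).1 * (G * gz (xn m f l (j - i).val) * du (a j) *
          (1 * gz (zn m l (j - i).val))) =
        P * Bn p m f (a j) (j - i).val * (Tn m l (j - 1 - i).val).1.map (phi A p) := by
      intro G P hP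
      rw [Matrix.one_mul, Matrix.mul_assoc P, ← h4, ← Matrix.mul_assoc P, hP]
      simp only [Matrix.mul_assoc]
    rw [e2, gz_one]
    by_cases c1 : (j - i).val = 0
    · have e3 : gz (EL m s hs w (j - i).val) =
          (HahnSeries.C (1 + s) : LaurentSeries A) • gz (eU (w 0)) := by
        unfold EL
        rw [if_pos c1, gz_mul, gz_gS, smul_mul', Matrix.one_mul]
      have e4 : Fm p m f (a j) l s w x (j - i).val =
          ((HahnSeries.C (1 + s) : LaurentSeries A) • oneN l (w 0)) *
            Bn p m f (a j) (j - i).val := by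
        unfold Fm
        rw [if_pos c1, c1, smul_mul']
      rw [e3, e4]
      apply key
      rw [e1, smul_mul', oneN_tl, mul_smul']
    · have e3 : gz (EL m s hs w (j - i).val) = gz (eU (w (j - i).val)) := by
        unfold EL
        rw [if_neg c1, if_pos c0]
      have e4 : Fm p m f (a j) l s w x (j - i).val =
          oneN l (w (j - i).val) * Bn p m f (a j) (j - i).val := by
        unfold Fm
        rw [if_neg c1, if_pos c0]
      rw [e3, e4]
      apply key
      rw [e1, oneN_tl]
  · have e3 : (EL m s hs w (j - i).val : GL (Fin 2) A) = 1 := by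
      unfold EL
      rw [if_neg (by omega), if_neg c0]
    rw [e3, gz_one, Matrix.one_mul]
    by_cases c1 : (j - i).val = m - 1
    · have e2 : (ER m x (j - i).val : GL (Fin 2) A) = 1 := by
        unfold ER; rw [if_neg (by omega)]
      have e4 : Fm p m f (a j) l s w x (j - i).val = Bn p m f (a j) (j - i).val := by
        unfold Fm
        rw [if_neg (by omega), if_neg c0, if_pos c1]
      rw [e2, e4, gz_one, Matrix.one_mul]
      exact h4
    · have e1 : Tn m l (j - i).val = 1 := by unfold Tn; rw [if_neg (by omega)]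
      have e2 : (ER m x (j - i).val : GL (Fin 2) A) = eL (x (j - i).val) := by
        unfold ER; rw [if_pos (by omega)]
      have e4 : Fm p m f (a j) l s w x (j - i).val =
          Bn p m f (a j) (j - i).val * gz (eL (x (j - i).val)) := by
        unfold Fm
        rw [if_neg (by omega), if_neg c0, if_neg c1, gz_eL]
      have e5 : Tn m l (j - 1 - i).val = 1 := by
        have h6 : (j - 1 - i).val = (j - i).val - 1 := by
          have h7 : j - 1 - i = (((j - i).val - 1 : ℕ) : ZMod f) := by
            rw [Nat.cast_sub (by omega), ZMod.natCast_val, ZMod.cast_id', id_eq]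
            push_cast
            ring
          have hlt : (j - i).val < f := ZMod.val_lt _
          conv_lhs => rw [h7]
          rw [ZMod.val_natCast_of_lt (by omega)]
        unfold Tn
        rw [h6, if_neg (by omega)]
      have e6 : zn m l (j - i).val = 1 := by
        unfold zn; rw [if_neg (by omega), if_neg (by omega)]
      rw [e1, e5, e6, one_phi, gz_one, Units.val_one, Matrix.one_mul, Matrix.mul_one,
        Matrix.mul_one] at h4
      rw [e2, e4, e1, e5, e6, one_phi, gz_one, Units.val_one, Matrix.one_mul, Matrix.mul_one,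
        Matrix.mul_one, ← h4]

end

section
variable {k A : Type u} [CommRing k] [CommRing A] (ι : k →+* A) {p f m : ℕ} {a : ZMod f → ℕ}

/-- the coordinates of the family -/
def cx {m f : ℕ} (l s : A) (w x : ℕ → A) : Ix m f → A
  | Sum.inl _ => s
  | Sum.inr (Sum.inl y) => (if (y.1 : ℕ) = 0 then 1 + s else 1) * w y.1 * l ^ (y.2 : ℕ)
  | Sum.inr (Sum.inr y) => x (m + y)

theorem lmap_M3 (e : Fin 3) : (M3 e : Mat k).map (lmap ι) = M3 e := by
  unfold M3
  fin_cases e
  · show (!![0, un (-1); 0, 0] : Mat k).map (lmap ι) = !![0, un (-1); 0, 0]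
    rw [mat2_map, map_zero, lmap_un]
  · show (!![-un (-1), 0; 0, un (-1)] : Mat k).map (lmap ι) = !![-un (-1), 0; 0, un (-1)]
    rw [mat2_map, map_zero, map_neg, lmap_un]
  · show (!![0, 0; -un (-1), 0] : Mat k).map (lmap ι) = !![0, 0; -un (-1), 0]
    rw [mat2_map, map_zero, map_neg, lmap_un]

theorem lmap_Ex (i : ZMod f) (s : Ix m f) (j : ZMod f) :
    (Ex k p m f a i s j).map (lmap ι) = Ex A p m f a i s j := by
  match s with
  | Sum.inl _ =>
    show (if (j - i).val = 0 then (Bn p m f (a j) (j - i).val : Mat k) else 0).map (lmap ι) =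
      if (j - i).val = 0 then Bn p m f (a j) (j - i).val else 0
    split_ifs
    · exact Bn_map ι _ _ _ _ _
    · exact Matrix.map_zero _ (map_zero _)
  | Sum.inr (Sum.inl y) =>
    show (if (j - i).val = (y.1 : ℕ) then (M3 y.2 * Bn p m f (a j) (j - i).val : Mat k)
      else 0).map (lmap ι) =
      if (j - i).val = (y.1 : ℕ) then M3 y.2 * Bn p m f (a j) (j - i).val else 0
    split_ifs
    · rw [Matrix.map_mul, Bn_map, lmap_M3]
    · exact Matrix.map_zero _ (map_zero _)
  | Sum.inr (Sum.inr y) =>
    show (if (j - i).val = m + (y : ℕ) then (Bn p m f (a j) (j - i).val * !![0, 0; 1, 0] : Mat k)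
      else 0).map (lmap ι) =
      if (j - i).val = m + (y : ℕ) then Bn p m f (a j) (j - i).val * !![0, 0; 1, 0] else 0
    split_ifs
    · rw [Matrix.map_mul, Bn_map, mat2_map, map_zero, map_one]
    · exact Matrix.map_zero _ (map_zero _)

theorem oneN_eq (l w : A) : oneN l w = 1 + ((HahnSeries.C w : LaurentSeries A) • M3 0 +
    (HahnSeries.C (w * l) : LaurentSeries A) • M3 1 +
    (HahnSeries.C (w * (l * l)) : LaurentSeries A) • M3 2) := by
  unfold oneN
  refine Matrix.ext fun i j => ?_
  rw [Matrix.add_apply, Matrix.add_apply, Matrix.add_apply, Matrix.smul_apply, Matrix.smul_apply,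
    Matrix.smul_apply, smul_eq_mul, smul_eq_mul, smul_eq_mul, ← mul_assoc w l l]
  fin_cases i <;> fin_cases j
  · show 1 - HahnSeries.C (w * l) * un (-1) = 1 + (HahnSeries.C w * 0 +
      HahnSeries.C (w * l) * -un (-1) + HahnSeries.C (w * l * l) * 0)
    ring
  · show HahnSeries.C w * un (-1) = 0 + (HahnSeries.C w * un (-1) + HahnSeries.C (w * l) * 0 +
      HahnSeries.C (w * l * l) * 0)
    ring
  · show -(HahnSeries.C (w * l * l) * un (-1)) = 0 + (HahnSeries.C w * 0 +
      HahnSeries.C (w * l) * 0 + HahnSeries.C (w * l * l) * -un (-1))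
    ring
  · show 1 + HahnSeries.C (w * l) * un (-1) = 1 + (HahnSeries.C w * 0 +
      HahnSeries.C (w * l) * un (-1) + HahnSeries.C (w * l * l) * 0)
    ring

/-- the sum over the middle directions -/
theorem sum_mid (c : Fin (m - 1) → Fin 3 → A) (i j : ZMod f) :
    ∑ y : Fin (m - 1), ∑ e : Fin 3, (HahnSeries.C (c y e) : LaurentSeries A) •
        Ex A p m f a i (Sum.inr (Sum.inl (y, e))) j =
      if h : (j - i).val < m - 1 then
        ((HahnSeries.C (c ⟨_, h⟩ 0) : LaurentSeries A) • M3 0 +
          (HahnSeries.C (c ⟨_, h⟩ 1) : LaurentSeries A) • M3 1 +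
          (HahnSeries.C (c ⟨_, h⟩ 2) : LaurentSeries A) • M3 2) * Bn p m f (a j) (j - i).val
      else 0 := by
  by_cases h : (j - i).val < m - 1
  · rw [dif_pos h, Finset.sum_eq_single (⟨(j - i).val, h⟩ : Fin (m - 1))]
    · rw [Fin.sum_univ_three]
      have e : ∀ e : Fin 3, Ex A p m f a i (Sum.inr (Sum.inl (⟨(j - i).val, h⟩, e))) j =
          M3 e * Bn p m f (a j) (j - i).val := fun e => if_pos rfl
      rw [e, e, e, Matrix.add_mul, Matrix.add_mul, smul_mul', smul_mul', smul_mul']
    · intro b _ hb
      refine Finset.sum_eq_zero fun e _ => ?_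
      have e1 : Ex A p m f a i (Sum.inr (Sum.inl (b, e))) j = 0 := by
        refine if_neg fun h' => hb ?_
        ext
        exact h'.symm
      rw [e1, smul_zero]
    · intro h'
      exact absurd (Finset.mem_univ _) h'
  · rw [dif_neg h]
    refine Finset.sum_eq_zero fun b _ => Finset.sum_eq_zero fun e _ => ?_
    have e1 : Ex A p m f a i (Sum.inr (Sum.inl (b, e))) j = 0 := by
      refine if_neg fun h' => h ?_
      rw [h']
      exact b.2
    rw [e1, smul_zero]

/-- the sum over the directions outside the word -/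
theorem sum_out (hmf : m < f) (c : Fin (f - m) → A) (i j : ZMod f) :
    ∑ y : Fin (f - m), (HahnSeries.C (c y) : LaurentSeries A) •
        Ex A p m f a i (Sum.inr (Sum.inr y)) j =
      if h : m ≤ (j - i).val ∧ (j - i).val < f then
        (HahnSeries.C (c ⟨(j - i).val - m, by omega⟩) : LaurentSeries A) •
          (Bn p m f (a j) (j - i).val * !![0, 0; 1, 0])
      else 0 := by
  by_cases h : m ≤ (j - i).val ∧ (j - i).val < f
  · rw [dif_pos h, Finset.sum_eq_single (⟨(j - i).val - m, by omega⟩ : Fin (f - m))]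
    · have e : Ex A p m f a i (Sum.inr (Sum.inr ⟨(j - i).val - m, by omega⟩)) j =
          Bn p m f (a j) (j - i).val * !![0, 0; 1, 0] := if_pos (by
            show (j - i).val = m + ((j - i).val - m)
            omega)
      rw [e]
    · intro b _ hb
      have e1 : Ex A p m f a i (Sum.inr (Sum.inr b)) j = 0 := by
        refine if_neg fun h' => hb ?_
        ext
        show (b : ℕ) = (j - i).val - m
        omega
      rw [e1, smul_zero]
    · intro h'
      exact absurd (Finset.mem_univ _) h'
  · rw [dif_neg h]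
    refine Finset.sum_eq_zero fun b _ => ?_
    have e1 : Ex A p m f a i (Sum.inr (Sum.inr b)) j = 0 := by
      refine if_neg fun h' => h ?_
      have := b.2
      omega
    rw [e1, smul_zero]

/-- The family in coordinates. -/
theorem Fm_eq [NeZero f] (hm : 2 ≤ m) (hmf : m < f) (i : ZMod f) (l s : A) (w x : ℕ → A)
    (j : ZMod f) :
    Fm p m f (a j) l s w x (j - i).val = (Bn p m f (a j) (j - i).val : Mat k).map (lmap ι) +
      ∑ y : Ix m f, (HahnSeries.C (cx l s w x y) : LaurentSeries A) •
        (Ex k p m f a i y j).map (lmap ι) := by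
  have hlt : (j - i).val < f := ZMod.val_lt _
  simp only [lmap_Ex, Bn_map]
  rw [Fintype.sum_sum_type, Fintype.sum_sum_type, Fintype.sum_unique, Fintype.sum_prod_type]
  have e1 : ∑ y : Fin (m - 1), ∑ e : Fin 3,
      (HahnSeries.C (cx l s w x (Sum.inr (Sum.inl (y, e)) : Ix m f)) : LaurentSeries A) •
        Ex A p m f a i (Sum.inr (Sum.inl (y, e))) j = _ :=
    sum_mid (p := p) (a := a) (fun y e => cx l s w x (Sum.inr (Sum.inl (y, e)) : Ix m f)) i j
  have e2 : ∑ y : Fin (f - m),
      (HahnSeries.C (cx l s w x (Sum.inr (Sum.inr y) : Ix m f)) : LaurentSeries A) •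
        Ex A p m f a i (Sum.inr (Sum.inr y)) j = _ :=
    sum_out (p := p) (a := a) hmf (fun y => cx l s w x (Sum.inr (Sum.inr y) : Ix m f)) i j
  rw [e1, e2]
  have e3 : Ex A p m f a i (Sum.inl default) j =
    if (j - i).val = 0 then Bn p m f (a j) (j - i).val else 0 := rfl
  rw [e3]
  have key : ∀ (g w : A) (B : Mat A),
      (HahnSeries.C g : LaurentSeries A) • (oneN l w * B) =
      (HahnSeries.C g : LaurentSeries A) • B +
      ((HahnSeries.C (g * w * l ^ ((0 : Fin 3) : ℕ)) : LaurentSeries A) • M3 0 +
        (HahnSeries.C (g * w * l ^ ((1 : Fin 3) : ℕ)) : LaurentSeries A) • M3 1 +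
        (HahnSeries.C (g * w * l ^ ((2 : Fin 3) : ℕ)) : LaurentSeries A) • M3 2) * B := by
    intro g w B
    rw [oneN_eq, Matrix.add_mul, Matrix.one_mul, smul_add, ← smul_mul' (HahnSeries.C g), smul_add,
      smul_add, smul_smul, smul_smul, smul_smul, ← map_mul, ← map_mul, ← map_mul]
    have f0 : g * w * l ^ ((0 : Fin 3) : ℕ) = g * w := by
      show g * w * l ^ 0 = _
      ring
    have f1 : g * w * l ^ ((1 : Fin 3) : ℕ) = g * (w * l) := by
      show g * w * l ^ 1 = _
      ring
    have f2 : g * w * l ^ ((2 : Fin 3) : ℕ) = g * (w * (l * l)) := by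
      show g * w * l ^ 2 = _
      ring
    rw [f0, f1, f2]
  by_cases c0 : (j - i).val = 0
  · have hF : Fm p m f (a j) l s w x (j - i).val = (HahnSeries.C (1 + s) : LaurentSeries A) •
        (oneN l (w (j - i).val) * Bn p m f (a j) (j - i).val) := by
      unfold Fm
      rw [if_pos c0, c0]
    have f0 : ∀ (h : (j - i).val < m - 1) (e : Fin 3),
        cx l s w x (Sum.inr (Sum.inl (⟨(j - i).val, h⟩, e)) : Ix m f) =
          (1 + s) * w (j - i).val * l ^ (e : ℕ) := by
      intro h e
      show (if (j - i).val = 0 then 1 + s else 1) * w (j - i).val * l ^ (e : ℕ) = _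
      rw [if_pos c0]
    rw [if_pos c0, dif_pos (by omega), dif_neg (by omega), add_zero, f0, f0, f0, hF, key,
      ← add_assoc]
    congr 1
    have f1 : (HahnSeries.C (1 + s) : LaurentSeries A) = 1 + HahnSeries.C s := by
      rw [map_add, map_one]
    rw [f1, add_smul, one_smul]
    rfl
  · rw [if_neg c0, smul_zero, zero_add]
    by_cases c1 : (j - i).val < m - 1
    · have hF : Fm p m f (a j) l s w x (j - i).val =
          oneN l (w (j - i).val) * Bn p m f (a j) (j - i).val := by
        unfold Fm
        rw [if_neg c0, if_pos c1]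
      have f0 : ∀ (h : (j - i).val < m - 1) (e : Fin 3),
          cx l s w x (Sum.inr (Sum.inl (⟨(j - i).val, h⟩, e)) : Ix m f) =
            1 * w (j - i).val * l ^ (e : ℕ) := by
        intro h e
        show (if (j - i).val = 0 then 1 + s else 1) * w (j - i).val * l ^ (e : ℕ) = _
        rw [if_neg c0]
      rw [dif_pos c1, dif_neg (by omega), add_zero, f0, f0, f0, hF]
      have h1 := key 1 (w (j - i).val) (Bn p m f (a j) (j - i).val)
      rw [map_one, one_smul, one_smul] at h1
      exact h1
    · rw [dif_neg c1, zero_add]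
      by_cases c2 : (j - i).val = m - 1
      · have hF : Fm p m f (a j) l s w x (j - i).val = Bn p m f (a j) (j - i).val := by
          unfold Fm
          rw [if_neg c0, if_neg c1, if_pos c2]
        rw [dif_neg (by omega), add_zero, hF]
      · have hF : Fm p m f (a j) l s w x (j - i).val = Bn p m f (a j) (j - i).val *
            !![1, 0; HahnSeries.C (x (j - i).val), 1] := by
          unfold Fm
          rw [if_neg c0, if_neg c1, if_neg c2]
        have f0 : ∀ h, cx l s w x (Sum.inr (Sum.inr ⟨(j - i).val - m, h⟩) : Ix m f) =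
            x (j - i).val := by
          intro h
          show x (m + ((j - i).val - m)) = x (j - i).val
          rw [Nat.add_sub_cancel' (by omega)]
        have f1 : (!![1, 0; HahnSeries.C (x (j - i).val), 1] : Mat A) =
            1 + (HahnSeries.C (x (j - i).val) : LaurentSeries A) • !![0, 0; 1, 0] := by
          refine Matrix.ext fun i' j' => ?_
          rw [Matrix.add_apply, Matrix.smul_apply, smul_eq_mul]
          fin_cases i' <;> fin_cases j'
          · show (1 : LaurentSeries A) = 1 + HahnSeries.C (x (j - i).val) * 0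
            ring
          · show (0 : LaurentSeries A) = 0 + HahnSeries.C (x (j - i).val) * 0
            ring
          · show HahnSeries.C (x (j - i).val) = 0 + HahnSeries.C (x (j - i).val) * 1
            ring
          · show (1 : LaurentSeries A) = 1 + HahnSeries.C (x (j - i).val) * 0
            ring
        rw [dif_pos ⟨by omega, hlt⟩, f0, hF, f1, Matrix.mul_add, Matrix.mul_one, mul_smul']

end

end Pool.Agent.Lib.MP_74d0c9_nt
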