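import Pool.Agent.Lib.MP_74d0c9_nt.URows

/-! Several words: a pattern `P` of positions. -/

set_option autoImplicit false

namespace Pool.Agent.Lib.MP_74d0c9_nt

open HahnSeries

universe u

/-- the position before `t` is in the pattern -/
def Pm (P : ℕ → Bool) : ℕ → Bool
  | 0 => false
  | t + 1 => P t

/-- The pattern begins with `1` and ends with `0`, `0`. -/
structure GoodP (P : ℕ → Bool) (f : ℕ) : Prop where
  h0 : P 0 = true
  h1 : P (f - 2) = false
  h2 : P (f - 1) = false

theorem GoodP.three_le {P : ℕ → Bool} {f : ℕ} (h : GoodP P f) : 3 ≤ f := by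
  by_contra hc
  have e : f - 2 = 0 := by omega
  have h1 := h.h1
  rw [e, h.h0] at h1
  exact absurd h1 (by decide)

theorem GoodP.lt {P : ℕ → Bool} {f : ℕ} (h : GoodP P f) {t : ℕ} (ht : t < f) (hP : P t = true) :
    t + 1 ≤ f - 2 := by
  have h3 := h.three_le
  by_contra hc
  have h4 : t = f - 2 ∨ t = f - 1 := by omega
  rcases h4 with h4 | h4
  · rw [h4, h.h1] at hP
    exact absurd hP (by decide)
  · rw [h4, h.h2] at hP
    exact absurd hP (by decide)

/-- the entries of the shape at the positions of the pattern and directly after them -/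
structure IsPat (p f : ℕ) (a : ZMod f → ℕ) (i : ZMod f) (P : ℕ → Bool) : Prop where
  start : ∀ t, t < f → P t = true → Pm P t = false → a (i + t) = 1
  mid : ∀ t, t < f → P t = true → Pm P t = true → a (i + t) = p - 1
  stop : ∀ t, t < f → P t = false → Pm P t = true → a (i + t) = p

section
variable {k : Type u} [CommRing k]

/-- the étale `φ`-module of a pattern -/
noncomputable def Bp (p : ℕ) (P : ℕ → Bool) (f a t : ℕ) : Mat k :=
  if P t = true then (if Pm P t = true then !![un (p - 1), 0; 0, un (p - 1)] else 1)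
  else if Pm P t = true then !![un p, 0; 0, un p]
  else if t < f - 1 then du a else !![0, 1; un a, 0]

theorem Bp_in (p : ℕ) (P : ℕ → Bool) (f a t : ℕ) (h : P t = true ∨ Pm P t = true) :
    ∃ q : ℤ, (Bp p P f a t : Mat k) = !![un q, 0; 0, un q] := by
  unfold Bp
  by_cases c1 : P t = true
  · rw [if_pos c1]
    by_cases c2 : Pm P t = true
    · exact ⟨p - 1, by rw [if_pos c2]⟩
    · refine ⟨0, ?_⟩
      rw [if_neg c2, Matrix.one_fin_two]
      rfl
  · rw [if_neg c1, if_pos (h.resolve_left c1)]
    exact ⟨p, rfl⟩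

theorem Bp_zero (p : ℕ) (P : ℕ → Bool) (f a : ℕ) (h : P 0 = true) :
    (Bp p P f a 0 : Mat k) = 1 := by
  unfold Bp
  have h' : ¬ Pm P 0 = true := fun h : false = true => Bool.noConfusion h
  rw [if_pos h, if_neg h']

theorem Bp_out (p : ℕ) (P : ℕ → Bool) (f a t : ℕ) (h : P t = false) (h' : Pm P t = false)
    (ht : t < f - 1) : (Bp p P f a t : Mat k) = !![un a, 0; 0, 1] := by
  unfold Bp
  rw [if_neg (by rw [h]; decide), if_neg (by rw [h']; decide), if_pos ht, du_two]

theorem Bp_last (p : ℕ) (P : ℕ → Bool) (f a : ℕ) (h : GoodP P f) :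
    (Bp p P f a (f - 1) : Mat k) = !![0, 1; un a, 0] := by
  have h3 := h.three_le
  have e : f - 1 = f - 2 + 1 := by omega
  unfold Bp
  rw [if_neg (by rw [h.h2]; decide), if_neg, if_neg (lt_irrefl _)]
  rw [e]
  show ¬ P (f - 2) = true
  rw [h.h1]
  decide

theorem Bp_map {A B : Type u} [CommRing A] [CommRing B] (π : A →+* B) (p : ℕ) (P : ℕ → Bool)
    (f a t : ℕ) : (Bp p P f a t : Mat A).map (lmap π) = Bp p P f a t := by
  unfold Bp
  split_ifs
  · rw [mat2_map, lmap_un, map_zero]
  · exact map_one_mat π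
  · rw [mat2_map, lmap_un, map_zero]
  · rw [du_two, du_two, mat2_map, lmap_un, map_zero, map_one]
  · rw [mat2_map, lmap_un, map_zero, map_one]

end

end Pool.Agent.Lib.MP_74d0c9_nt
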