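import Pool.Agent.Lib.MP_74d0c9_nt.MOff

/-! Several words: endomorphisms and coboundaries. -/

set_option autoImplicit false

namespace Pool.Agent.Lib.MP_74d0c9_nt

open HahnSeries

universe u

section
variable {k : Type u} [CommRing k] {p : ℕ} [Fact p.Prime] {P : ℕ → Bool} {f : ℕ}

/-- the directions at the component `t`, with coefficients -/
noncomputable def DsumP (p : ℕ) (P : ℕ → Bool) (f a : ℕ) (c : k) (n b g x : ℕ → k) (t : ℕ) :
    Mat k :=
  (if t = 0 then (HahnSeries.C c : LaurentSeries k) • Bp p P f a t else 0) +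
    (if P t = true then !![single (-1) (-n t), single (-1) (b t); single (-1) (-g t),
      single (-1) (n t)] * Bp p P f a t else 0) +
    (if P t = false ∧ Pm P t = false then
      Bp p P f a t * !![0, 0; HahnSeries.C (x t), 0] else 0)

/-- The equations of a coboundary. -/
structure CobEq (p : ℕ) [Fact p.Prime] (P : ℕ → Bool) (f : ℕ) (a : ℕ → ℕ) (c : k)
    (n b g x : ℕ → k) (M : ℕ → Mat k) : Prop where
  off : OffEq p P f a (fun t => M t 0 1) (fun t => M t 1 0) b (fun t => -g t) x
  d0 : M 0 0 0 = phi k p (M (f - 1) 0 0) + single 0 c + single (-1) (-n 0)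
  e0 : M 0 1 1 = phi k p (M (f - 1) 1 1) + single 0 c + single (-1) (n 0)
  d1 : ∀ t, t + 1 < f → (P (t + 1) = true ∨ P t = true) →
    M (t + 1) 0 0 = phi k p (M t 0 0) + single (-1) (-n (t + 1))
  e1 : ∀ t, t + 1 < f → (P (t + 1) = true ∨ P t = true) →
    M (t + 1) 1 1 = phi k p (M t 1 1) + single (-1) (n (t + 1))
  d2 : ∀ t, P (t + 1) = false → P t = false → t + 1 < f - 1 →
    M (t + 1) 0 0 = phi k p (M t 0 0)
  e2 : ∀ t, P (t + 1) = false → P t = false → t + 1 < f - 1 →
    M (t + 1) 1 1 = phi k p (M t 1 1)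
  d3 : M (f - 1) 0 0 = phi k p (M (f - 2) 1 1)
  e3 : M (f - 1) 1 1 = phi k p (M (f - 2) 0 0)
  hn : ∀ t, P t = false → n t = 0

theorem cobEq [NeZero f] (hP : GoodP P f) {a : ZMod f → ℕ} (i : ZMod f) (c : k)
    (n b g x : ℕ → k) (hn : ∀ t, P t = false → n t = 0) (hb : ∀ t, P t = false → b t = 0)
    (hg : ∀ t, P t = false → g t = 0) (C : ZMod f → Mat k)
    (h : ∀ j, DsumP p P f (a j) c n b g x (j - i).val = C j * Bp p P f (a j) (j - i).val -
      Bp p P f (a j) (j - i).val * (C (j - 1)).map (phi k p)) :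
    CobEq p P f (fun t => a (i + t)) c n b g x (fun t => C (i + t)) := by
  have hf3 := hP.three_le
  obtain ⟨J, hJ⟩ : ∃ J : ℕ → ZMod f, J = fun t : ℕ => i + (t : ZMod f) := ⟨_, rfl⟩
  have hJs : ∀ t, J (t + 1) - 1 = J t := by
    intro t
    rw [hJ]
    push_cast
    ring
  have hJv : ∀ t, t < f → (J t - i).val = t := by
    intro t ht
    have : J t - i = t := by rw [hJ]; ring
    rw [this, ZMod.val_natCast_of_lt ht]
  have hJf : J 0 - 1 = J (f - 1) := by
    have h7 : ((f - 1 + 1 : ℕ) : ZMod f) = 0 := by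
      rw [Nat.sub_add_cancel (by omega), ZMod.natCast_self]
    push_cast at h7
    rw [hJ]
    dsimp only
    rw [Nat.cast_zero]
    linear_combination -h7
  have hPf : ∀ t, P t = true ∨ P t = false := fun t => by cases P t <;> simp
  have hC : ∀ t (r s : Fin 2), (C (J t)).map (phi k p) r s = phi k p (C (J t) r s) :=
    fun _ _ _ => rfl
  have z : (0 : Mat k) = !![0, 0; 0, 0] := by
    refine Matrix.ext fun i j => ?_
    fin_cases i <;> fin_cases j <;> rfl
  -- the equations
  have E0 : C (J 0) 0 0 - phi k p (C (J (f - 1)) 0 0) = single 0 c + single (-1) (-n 0) ∧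
      C (J 0) 0 1 - phi k p (C (J (f - 1)) 0 1) = single (-1) (b 0) ∧
      C (J 0) 1 0 - phi k p (C (J (f - 1)) 1 0) = single (-1) (-g 0) ∧
      C (J 0) 1 1 - phi k p (C (J (f - 1)) 1 1) = single 0 c + single (-1) (n 0) := by
    have h0 := h (J 0)
    rw [hJv 0 (by omega), hJf] at h0
    have e1 : (Bp p P f (a (J 0)) 0 : Mat k) = !![1, 0; 0, 1] := by
      rw [Bp_zero _ _ _ _ hP.h0, Matrix.one_fin_two]
    have e0 : ¬ (P 0 = false ∧ Pm P 0 = false) := by
      rw [hP.h0]
      exact fun h => Bool.noConfusion h.1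
    unfold DsumP at h0
    rw [if_pos rfl, if_pos hP.h0, if_neg e0, add_zero, e1, comm_two,
      Matrix.mul_fin_two] at h0
    have e2 : (HahnSeries.C c : LaurentSeries k) • (!![1, 0; 0, 1] : Mat k) +
        !![single (-1) (-n 0) * 1 + single (-1) (b 0) * 0,
          single (-1) (-n 0) * 0 + single (-1) (b 0) * 1;
          single (-1) (-g 0) * 1 + single (-1) (n 0) * 0,
          single (-1) (-g 0) * 0 + single (-1) (n 0) * 1] =
        !![single 0 c + single (-1) (-n 0), single (-1) (b 0);
          single (-1) (-g 0), single 0 c + single (-1) (n 0)] := by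
      refine Matrix.ext fun i j => ?_
      rw [Matrix.add_apply, Matrix.smul_apply, smul_eq_mul, HahnSeries.C_apply]
      fin_cases i <;> fin_cases j
      · show single 0 c * 1 + (single (-1) (-n 0) * 1 +
          single (-1) (b 0) * 0) = single 0 c + single (-1) (-n 0)
        ring
      · show single 0 c * 0 + (single (-1) (-n 0) * 0 +
          single (-1) (b 0) * 1) = single (-1) (b 0)
        ring
      · show single 0 c * 0 + (single (-1) (-g 0) * 1 +
          single (-1) (n 0) * 0) = single (-1) (-g 0)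
        ring
      · show single 0 c * 1 + (single (-1) (-g 0) * 0 +
          single (-1) (n 0) * 1) = single 0 c + single (-1) (n 0)
        ring
    rw [e2] at h0
    obtain ⟨f1, f2, f3, f4⟩ := mat2_inj h0
    simp only [hC] at f1 f2 f3 f4
    refine ⟨?_, ?_, ?_, ?_⟩
    · rw [f1]; ring
    · rw [f2]; ring
    · rw [f3]; ring
    · rw [f4]; ring
  have E1 : ∀ t, t + 1 < f → (P (t + 1) = true ∨ P t = true) →
      C (J (t + 1)) 0 0 = phi k p (C (J t) 0 0) + single (-1) (-n (t + 1)) ∧
      C (J (t + 1)) 0 1 = phi k p (C (J t) 0 1) + single (-1) (b (t + 1)) ∧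
      C (J (t + 1)) 1 0 = phi k p (C (J t) 1 0) + single (-1) (-g (t + 1)) ∧
      C (J (t + 1)) 1 1 = phi k p (C (J t) 1 1) + single (-1) (n (t + 1)) := by
    intro t ht hin
    have h0 := h (J (t + 1))
    rw [hJv (t + 1) ht, hJs] at h0
    obtain ⟨q, e1⟩ := Bp_in (k := k) p P f (a (J (t + 1))) (t + 1) hin
    have e3 : ¬ (P (t + 1) = false ∧ Pm P (t + 1) = false) := by
      rintro ⟨h3, h4⟩
      have h4' : P t = false := h4
      rw [h3, h4'] at hin
      rcases hin with hin | hin
      · exact Bool.noConfusion hin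
      · exact Bool.noConfusion hin
    unfold DsumP at h0
    rw [if_neg (by omega), if_neg e3, add_zero, zero_add, e1, comm_two,
      Matrix.mul_fin_two] at h0
    have key : !![single (-1) (-n (t + 1)) * un q + single (-1) (b (t + 1)) * 0,
        single (-1) (-n (t + 1)) * 0 + single (-1) (b (t + 1)) * un q;
        single (-1) (-g (t + 1)) * un q + single (-1) (n (t + 1)) * 0,
        single (-1) (-g (t + 1)) * 0 + single (-1) (n (t + 1)) * un q] =
        (if P (t + 1) = true then !![single (-1) (-n (t + 1)) * un q +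
          single (-1) (b (t + 1)) * 0,
        single (-1) (-n (t + 1)) * 0 + single (-1) (b (t + 1)) * un q;
        single (-1) (-g (t + 1)) * un q + single (-1) (n (t + 1)) * 0,
        single (-1) (-g (t + 1)) * 0 + single (-1) (n (t + 1)) * un q] else 0 : Mat k) := by
      rcases hPf (t + 1) with hc | hc
      · rw [if_pos hc]
      · rw [if_neg (by rw [hc]; exact fun h => Bool.noConfusion h), hn _ hc, hb _ hc, hg _ hc, z]
        apply mat2_congr <;> simp
    rw [← key] at h0
    obtain ⟨f1, f2, f3, f4⟩ := mat2_inj h0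
    simp only [hC] at f1 f2 f3 f4
    refine ⟨?_, ?_, ?_, ?_⟩
    · apply un_cancel (n := q); linear_combination -f1
    · apply un_cancel (n := q); linear_combination -f2
    · apply un_cancel (n := q); linear_combination -f3
    · apply un_cancel (n := q); linear_combination -f4
  have E3 : ∀ t, P (t + 1) = false → P t = false → t + 1 < f - 1 →
      C (J (t + 1)) 0 0 = phi k p (C (J t) 0 0) ∧
      C (J (t + 1)) 0 1 = un (a (J (t + 1))) * phi k p (C (J t) 0 1) ∧
      un (a (J (t + 1))) * C (J (t + 1)) 1 0 = phi k p (C (J t) 1 0) + single 0 (x (t + 1)) ∧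
      C (J (t + 1)) 1 1 = phi k p (C (J t) 1 1) := by
    intro t h1 h2 ht'
    have h0 := h (J (t + 1))
    rw [hJv (t + 1) (by omega), hJs] at h0
    have e1 : (Bp p P f (a (J (t + 1))) (t + 1) : Mat k) =
        !![un (a (J (t + 1))), 0; 0, 1] := Bp_out _ _ _ _ _ h1 h2 ht'
    have e3 : P (t + 1) = false ∧ Pm P (t + 1) = false := ⟨h1, h2⟩
    unfold DsumP at h0
    rw [if_neg (by omega), if_neg (by rw [h1]; exact fun h => Bool.noConfusion h), if_pos e3,
      add_zero, zero_add, e1, comm_two, Matrix.mul_fin_two] at h0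
    obtain ⟨f1, f2, f3, f4⟩ := mat2_inj h0
    simp only [hC] at f1 f2 f3 f4
    rw [HahnSeries.C_apply] at f3
    refine ⟨?_, ?_, ?_, ?_⟩
    · apply un_cancel (n := a (J (t + 1))); linear_combination -f1
    · linear_combination -f2
    · linear_combination -f3
    · linear_combination -f4
  have E4 : un (a (J (f - 1))) * C (J (f - 1)) 0 1 =
        phi k p (C (J (f - 2)) 1 0) + single 0 (x (f - 1)) ∧
      C (J (f - 1)) 0 0 = phi k p (C (J (f - 2)) 1 1) ∧
      C (J (f - 1)) 1 1 = phi k p (C (J (f - 2)) 0 0) ∧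
      C (J (f - 1)) 1 0 = un (a (J (f - 1))) * phi k p (C (J (f - 2)) 0 1) := by
    have hm1 : f - 1 = f - 2 + 1 := by omega
    have h0 := h (J (f - 1))
    have hJm : J (f - 1) - 1 = J (f - 2) := by rw [hm1]; exact hJs _
    rw [hJv (f - 1) (by omega), hJm] at h0
    have e1 : (Bp p P f (a (J (f - 1))) (f - 1) : Mat k) =
        !![0, 1; un (a (J (f - 1))), 0] := Bp_last _ _ _ _ hP
    have e3 : P (f - 1) = false ∧ Pm P (f - 1) = false := by
      refine ⟨hP.h2, ?_⟩
      rw [hm1]
      exact hP.h1
    unfold DsumP at h0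
    rw [if_neg (by omega), if_neg (by rw [hP.h2]; exact fun h => Bool.noConfusion h), if_pos e3,
      add_zero, zero_add, e1, comm_two, Matrix.mul_fin_two] at h0
    obtain ⟨f1, f2, f3, f4⟩ := mat2_inj h0
    simp only [hC] at f1 f2 f3 f4
    rw [HahnSeries.C_apply] at f1
    refine ⟨?_, ?_, ?_, ?_⟩
    · linear_combination -f1
    · linear_combination -f2
    · apply un_cancel (n := a (J (f - 1))); linear_combination -f3
    · linear_combination -f4
  have hJ' : ∀ t : ℕ, J t = i + (t : ZMod f) := fun t => by rw [hJ]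
  simp only [hJ'] at E0 E1 E3 E4
  exact
    { off :=
        { b0 := by linear_combination E0.2.1
          g0 := by linear_combination E0.2.2.1
          b1 := fun t h1 h2 => (E1 t h1 h2).2.1
          g1 := fun t h1 h2 => (E1 t h1 h2).2.2.1
          b3 := fun t h1 h2 h3 => (E3 t h1 h2 h3).2.1
          g3 := fun t h1 h2 h3 => (E3 t h1 h2 h3).2.2.1
          b4 := E4.1
          g4 := E4.2.2.2
          hb := hb
          hg := fun t ht => by rw [hg t ht, neg_zero] }
      d0 := by linear_combination E0.1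
      e0 := by linear_combination E0.2.2.2
      d1 := fun t h1 h2 => (E1 t h1 h2).1
      e1 := fun t h1 h2 => (E1 t h1 h2).2.2.2
      d2 := fun t h1 h2 h3 => (E3 t h1 h2 h3).1
      e2 := fun t h1 h2 h3 => (E3 t h1 h2 h3).2.2.2
      d3 := E4.2.1
      e3 := E4.2.2.1
      hn := hn }

theorem single_sub' (n : ℤ) (x y : k) :
    (single n x : LaurentSeries k) - single n y = single n (x - y) := by
  have h := map_sub (HahnSeries.C : k →+* LaurentSeries k) x y
  rw [← C_un, ← C_un, ← C_un, h]
  ring

/-- The directions are independent modulo coboundaries. -/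
theorem CobEq.indep {a : ℕ → ℕ} {c : k} {n b g x : ℕ → k} {M : ℕ → Mat k}
    (h : CobEq p P f a c n b g x M) (hP : GoodP P f) (ha : ∀ t, 1 ≤ a t ∧ a t ≤ p)
    (h2 : ∀ z : k, 2 * z = 0 → z = 0) :
    c = 0 ∧ (∀ t, t < f → n t = 0 ∧ b t = 0 ∧ g t = 0) ∧
      ∀ t, t < f → P t = false → Pm P t = false → x t = 0 := by
  have hf3 := hP.three_le
  have hPf : ∀ t, P t = true ∨ P t = false := fun t => by cases P t <;> simp
  obtain ⟨ho, hx⟩ := h.off.vanish hP ha
  have hz : ∀ y : k, (single (-1) (-y) : LaurentSeries k) + single (-1) y = 0 := by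
    intro y
    rw [← single_add, neg_add_cancel, single_eq_zero]
  have hc : c = 0 := by
    apply h2
    refine trace_part (p := p) (f := f) (by omega) (τ := fun t => M t 0 0 + M t 1 1) ?_ ?_
    · have e1 : (single 0 (2 * c) : LaurentSeries k) = single 0 c + single 0 c := by
        rw [two_mul, single_add]
      rw [e1, map_add]
      linear_combination h.d0 + h.e0 + hz (n 0)
    · intro t ht
      rw [map_add]
      by_cases c1 : P (t + 1) = true ∨ P t = true
      · linear_combination h.d1 t ht c1 + h.e1 t ht c1 + hz (n (t + 1))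
      · push Not at c1
        have c2 := (hPf _).resolve_left c1.1
        have c3 := (hPf _).resolve_left c1.2
        by_cases c4 : t + 1 < f - 1
        · rw [h.d2 t c2 c3 c4, h.e2 t c2 c3 c4]
        · rw [show t + 1 = f - 1 by omega, show t = f - 2 by omega, h.d3, h.e3, add_comm]
  have hn : ∀ t, t < f → n t = 0 := by
    intro t ht
    apply h2
    have h3 : -(2 * n t) = 0 := by
      refine diag_partP (p := p) hP (η := fun t => M t 0 0 - M t 1 1)
        (n := fun t => -(2 * n t)) ?_ ?_ ?_ ?_ ?_ ht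
      · have e2 : (single (-1) (-(2 * n 0)) : LaurentSeries k) =
            single (-1) (-n 0) - single (-1) (n 0) := by
          rw [single_sub']
          congr 1
          ring
        rw [e2, map_sub]
        linear_combination h.d0 - h.e0
      · intro t ht hin
        have e2 : (single (-1) (-(2 * n (t + 1))) : LaurentSeries k) =
            single (-1) (-n (t + 1)) - single (-1) (n (t + 1)) := by
          rw [single_sub']
          congr 1
          ring
        rw [e2, map_sub]
        linear_combination h.d1 t ht hin - h.e1 t ht hin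
      · intro t h3 h4 h5
        rw [map_sub, h.d2 t h3 h4 h5, h.e2 t h3 h4 h5]
      · rw [map_sub, h.d3, h.e3]
        ring
      · intro t h3
        rw [h.hn t h3, mul_zero, neg_zero]
    rw [← neg_eq_zero]
    exact h3
  refine ⟨hc, fun t ht => ⟨hn t ht, (ho t ht).1, ?_⟩, hx⟩
  have h3 := (ho t ht).2
  exact neg_eq_zero.1 h3

/-- The endomorphisms are the scalars. -/
theorem CobEq.scalar {a : ℕ → ℕ} {M : ℕ → Mat k} (h : CobEq p P f a 0 0 0 0 0 M)
    (hP : GoodP P f) (ha : ∀ t, 1 ≤ a t ∧ a t ≤ p) :
    ∃ c : k, ∀ t, t < f → M t = (HahnSeries.C c : LaurentSeries k) • (1 : Mat k) := by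
  have hf3 := hP.three_le
  have hPf : ∀ t, P t = true ∨ P t = false := fun t => by cases P t <;> simp
  have z : ∀ (m : ℤ) (t : ℕ), (single m ((0 : ℕ → k) t) : LaurentSeries k) = 0 :=
    fun m t => single_eq_zero
  have z' : ∀ (m : ℤ) (t : ℕ), (single m (-(0 : ℕ → k) t) : LaurentSeries k) = 0 := by
    intro m t
    show (single m (-(0 : k)) : LaurentSeries k) = 0
    rw [neg_zero, single_eq_zero]
  have z0 : ∀ (m : ℤ), (single m (0 : k) : LaurentSeries k) = 0 := fun m => single_eq_zero
  have hoff : OffEq p P f a (fun t => M t 0 1) (fun t => M t 1 0) 0 0 0 := by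
    have h0 := h.off
    have e : (fun t => -(0 : ℕ → k) t) = (0 : ℕ → k) := by
      funext t
      show -(0 : k) = 0
      rw [neg_zero]
    rw [e] at h0
    exact h0
  have ho := hoff.zero hP ha
  -- the diagonal entries
  have hd : ∀ t, t + 1 < f - 1 → M (t + 1) 0 0 = phi k p (M t 0 0) := by
    intro t ht
    by_cases c1 : P (t + 1) = true ∨ P t = true
    · rw [h.d1 t (by omega) c1, z', add_zero]
    · push Not at c1
      exact h.d2 t ((hPf _).resolve_left c1.1) ((hPf _).resolve_left c1.2) ht
  have he : ∀ t, t + 1 < f - 1 → M (t + 1) 1 1 = phi k p (M t 1 1) := by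
    intro t ht
    by_cases c1 : P (t + 1) = true ∨ P t = true
    · rw [h.e1 t (by omega) c1, z, add_zero]
    · push Not at c1
      exact h.e2 t ((hPf _).resolve_left c1.1) ((hPf _).resolve_left c1.2) ht
  have hd0 : M 0 0 0 = phi k p (M (f - 1) 0 0) := by
    rw [h.d0, z', z0, add_zero, add_zero]
  have he0 : M 0 1 1 = phi k p (M (f - 1) 1 1) := by
    rw [h.e0, z, z0, add_zero, add_zero]
  obtain ⟨τ, hτ⟩ : ∃ τ : ℕ → LaurentSeries k, τ = fun t =>
      if t < f - 1 then M t 0 0 else if t < 2 * f - 1 then M (t % f) 1 1 else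
        M (t % f) 0 0 := ⟨_, rfl⟩
  have hlow : ∀ t, t < f - 1 → τ t = M t 0 0 := by
    intro t ht
    rw [hτ]
    exact if_pos ht
  have hmid : ∀ t, t < f → τ (f + t) = if t < f - 1 then M t 1 1 else M t 0 0 := by
    intro t ht
    rw [hτ]
    dsimp only
    rw [if_neg (by omega), Nat.add_mod_left, Nat.mod_eq_of_lt ht]
    by_cases c : t < f - 1
    · rw [if_pos c, if_pos (by omega)]
    · rw [if_neg c, if_neg (by omega)]
  have hf1 : τ (f - 1) = M (f - 1) 1 1 := by
    rw [hτ]
    dsimp only
    rw [if_neg (by omega), if_pos (by omega), Nat.mod_eq_of_lt (by omega)]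
  have h2f : τ (2 * f) = τ 0 := by
    rw [hlow 0 (by omega), hτ]
    dsimp only
    rw [if_neg (by omega), if_neg (by omega), Nat.mul_mod_left]
  have hrec : ∀ t, t < 2 * f → τ (t + 1) = phi k p (τ t) := by
    intro t ht
    by_cases c1 : t + 1 < f - 1
    · rw [hlow _ c1, hlow t (by omega)]
      exact hd t c1
    · by_cases c2 : t + 1 = f - 1
      · rw [c2, hf1, hlow t (by omega), show t = f - 2 by omega]
        exact h.e3
      · by_cases c3 : t + 1 = f
        · have h1 := hmid 0 (by omega)
          rw [add_zero, if_pos (by omega)] at h1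
          rw [c3, h1, show t = f - 1 by omega, hf1]
          exact he0
        · obtain ⟨d, rfl⟩ : ∃ d, t = f + d := ⟨t - f, by omega⟩
          by_cases c4 : d + 1 < f - 1
          · rw [add_assoc, hmid (d + 1) (by omega), hmid d (by omega), if_pos c4,
              if_pos (by omega)]
            exact he d c4
          · by_cases c5 : d + 1 = f - 1
            · rw [add_assoc, hmid (d + 1) (by omega), hmid d (by omega), if_neg c4,
                if_pos (by omega), c5, show d = f - 2 by omega]
              exact h.d3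
            · rw [show f + d + 1 = 2 * f by omega, h2f, hlow 0 (by omega), hmid d (by omega),
                if_neg (by omega), show d = f - 1 by omega]
              exact hd0
  have hc := const_of_iter (p := p) (f := 2 * f) (by omega) hrec h2f
  obtain ⟨c, hcc⟩ : ∃ c, c = (τ 0).coeff 0 := ⟨_, rfl⟩
  rw [← hcc] at hc
  have hall : ∀ t, t ≤ 2 * f → τ t = HahnSeries.C c := by
    intro t
    induction t with
    | zero => intro _; exact hc
    | succ t ih =>
      intro ht
      rw [hrec t (by omega), ih (by omega), phi_C]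
  refine ⟨c, fun t ht => ?_⟩
  have hdiag : M t 0 0 = HahnSeries.C c ∧ M t 1 1 = HahnSeries.C c := by
    by_cases c1 : t < f - 1
    · have h1 := hmid t ht
      rw [if_pos c1, hall _ (by omega)] at h1
      exact ⟨by rw [← hlow t c1, hall _ (by omega)], h1.symm⟩
    · have h1 := hmid t ht
      rw [if_neg c1, hall _ (by omega)] at h1
      refine ⟨h1.symm, ?_⟩
      rw [show t = f - 1 by omega, ← hf1, hall _ (by omega)]
  obtain ⟨h5, h6⟩ := ho t ht
  refine Matrix.ext fun r s => ?_
  rw [Matrix.smul_apply, smul_eq_mul]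
  fin_cases r <;> fin_cases s
  · show M t 0 0 = HahnSeries.C c * 1
    rw [mul_one]; exact hdiag.1
  · show M t 0 1 = HahnSeries.C c * 0
    rw [mul_zero]; exact h5
  · show M t 1 0 = HahnSeries.C c * 0
    rw [mul_zero]; exact h6
  · show M t 1 1 = HahnSeries.C c * 1
    rw [mul_one]; exact hdiag.2

end

end Pool.Agent.Lib.MP_74d0c9_nt
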