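import Pool.Agent.Lib.MP_74d0c9_nt.MDefs

/-! Several words: the Kisin modules. -/

set_option autoImplicit false

namespace Pool.Agent.Lib.MP_74d0c9_nt

open HahnSeries

universe u

section
variable {A : Type u} [CommRing A]

/-- the lattices -/
noncomputable def TnP (P : ℕ → Bool) (l : ℕ → A) (t : ℕ) : GL (Fin 2) (LaurentSeries A) :=
  if P t = true then tl (l t) else 1

/-- the left factors -/
def xnP (P : ℕ → Bool) (f : ℕ) (l : ℕ → A) (t : ℕ) : GL (Fin 2) A :=
  if P t = true then (if Pm P t = true then sw else 1) else if Pm P t = true then xl (l (t - 1))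
    else if t < f - 1 then 1 else sw

/-- the right factors -/
def znP (P : ℕ → Bool) (l : ℕ → A) (t : ℕ) : GL (Fin 2) A :=
  if P t = true then (if Pm P t = true then sw else zl (l t)) else if Pm P t = true then sw else 1

theorem step_checkP {p f : ℕ} [Fact p.Prime] {P : ℕ → Bool} (hP : GoodP P f) (a : ℕ) (l : ℕ → A)
    {t t' : ℕ} (htf : t < f) (htt : (t = 0 ∧ t' = f - 1) ∨ (1 ≤ t ∧ t' = t - 1))
    (h0 : P t = true → Pm P t = false → a = 1) (h1 : P t = true → Pm P t = true → a = p - 1)
    (h2 : P t = false → Pm P t = true → a = p)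
    (hl : P t = true → Pm P t = true → l t = l (t - 1)) :
    (TnP P l t).1 * (gz (xnP P f l t) * du a * gz (znP P l t)) =
      Bp p P f a t * (TnP P l t').1.map (phi A p) := by
  have hf3 := hP.three_le
  have hp : 1 ≤ p := (Fact.out : p.Prime).one_lt.le
  have htl : ∀ l : A, (tl l).1 = (!![un (-1), 0; HahnSeries.C l * un (-1), 1] : Mat A) :=
    fun _ => rfl
  have hneg := un_neg_mul (k := A) 1
  have hnegp := un_neg_mul (k := A) (p : ℤ)
  have hPf : ∀ t, P t = true ∨ P t = false := fun t => by cases P t <;> simp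
  have hPmf : Pm P t = true ∨ Pm P t = false := by cases Pm P t <;> simp
  have hnt : ∀ x : Bool, x = false → ¬ x = true := by
    intro x hx
    rw [hx]
    exact fun h => Bool.noConfusion h
  have hPt' : Pm P t = P t' := by
    rcases htt with ⟨ht, ht'⟩ | ⟨ht, ht'⟩
    · rw [ht, ht', hP.h2]
      rfl
    · obtain ⟨s, rfl⟩ : ∃ s, t = s + 1 := ⟨t - 1, by omega⟩
      rw [ht', Nat.add_sub_cancel]
      rfl
  have hlt : Pm P t = true → t' = t - 1 := by
    intro h
    rcases htt with ⟨ht, -⟩ | ⟨-, ht'⟩
    · rw [ht] at h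
      exact absurd h (fun h => Bool.noConfusion h)
    · exact ht'
  rcases hPf t with hPt | hPt
  · rcases hPmf with hc | hc
    · -- inside
      have ha := h1 hPt hc
      have hl' := hl hPt hc
      have e1 : TnP P l t = tl (l t) := by unfold TnP; rw [if_pos hPt]
      have e2 : TnP P l t' = tl (l t) := by
        unfold TnP
        rw [if_pos (by rw [← hPt']; exact hc), hlt hc, ← hl']
      have e3 : xnP P f l t = sw := by unfold xnP; rw [if_pos hPt, if_pos hc]
      have e4 : znP P l t = sw := by unfold znP; rw [if_pos hPt, if_pos hc]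
      have e5 : (Bp p P f a t : Mat A) = !![un (p - 1), 0; 0, un (p - 1)] := by
        unfold Bp; rw [if_pos hPt, if_pos hc]
      have e6 : (a : ℤ) = (p : ℤ) - 1 := by rw [ha]; push_cast [Nat.cast_sub hp]; ring
      have e7 : (un ((p : ℤ) - 1) : LaurentSeries A) * un (-p) = un (-1) := by
        rw [un_mul]; congr 1; ring
      rw [e1, e2, e3, e4, e5, tl_phi, gz_sw, du_two, htl, e6, Matrix.mul_fin_two,
        Matrix.mul_fin_two, Matrix.mul_fin_two, Matrix.mul_fin_two]
      apply mat2_congr
      · linear_combination -e7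
      · ring
      · linear_combination -(HahnSeries.C (l t)) * e7
      · ring
    · -- start
      have ha := h0 hPt hc
      subst ha
      have e1 : TnP P l t = tl (l t) := by unfold TnP; rw [if_pos hPt]
      have e2 : TnP P l t' = 1 := by
        unfold TnP
        rw [if_neg (hnt _ (by rw [← hPt']; exact hc))]
      have e3 : xnP P f l t = 1 := by unfold xnP; rw [if_pos hPt, if_neg (hnt _ hc)]
      have e4 : znP P l t = zl (l t) := by unfold znP; rw [if_pos hPt, if_neg (hnt _ hc)]
      have e5 : (Bp p P f 1 t : Mat A) = 1 := by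
        unfold Bp; rw [if_pos hPt, if_neg (hnt _ hc)]
      rw [e1, e2, e3, e4, e5, one_phi, gz_one, gz_zl, Matrix.one_mul, Matrix.one_mul, du_two, htl,
        Matrix.mul_fin_two, Matrix.mul_fin_two, Matrix.one_fin_two]
      apply mat2_congr
      · linear_combination un_neg_mul (k := A) 1
      · ring
      · linear_combination HahnSeries.C (l t) * un_neg_mul (k := A) 1
      · ring
  · rcases hPmf with hc | hc
    · -- stop
      have ha := h2 hPt hc
      have e1 : TnP P l t = 1 := by unfold TnP; rw [if_neg (hnt _ hPt)]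
      have e2 : TnP P l t' = tl (l (t - 1)) := by
        unfold TnP
        rw [if_pos (by rw [← hPt']; exact hc), hlt hc]
      have e3 : xnP P f l t = xl (l (t - 1)) := by
        unfold xnP; rw [if_neg (hnt _ hPt), if_pos hc]
      have e4 : znP P l t = sw := by unfold znP; rw [if_neg (hnt _ hPt), if_pos hc]
      have e5 : (Bp p P f a t : Mat A) = !![un a, 0; 0, un a] := by
        unfold Bp; rw [if_neg (hnt _ hPt), if_pos hc, ha]
      rw [← ha] at hnegp
      rw [e1, e2, e3, e4, e5, tl_phi, gz_sw, gz_xl, du_two, Units.val_one, Matrix.one_mul,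
        Matrix.mul_fin_two, Matrix.mul_fin_two, Matrix.mul_fin_two, ← ha]
      apply mat2_congr
      · linear_combination -hnegp
      · ring
      · linear_combination -(HahnSeries.C (l (t - 1))) * hnegp
      · ring
    · have e1 : TnP P l t = 1 := by unfold TnP; rw [if_neg (hnt _ hPt)]
      have e2 : TnP P l t' = 1 := by
        unfold TnP
        rw [if_neg (hnt _ (by rw [← hPt']; exact hc))]
      have e4 : znP P l t = 1 := by
        unfold znP; rw [if_neg (hnt _ hPt), if_neg (hnt _ hc)]
      by_cases c3 : t < f - 1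
      · have e3 : xnP P f l t = 1 := by
          unfold xnP; rw [if_neg (hnt _ hPt), if_neg (hnt _ hc), if_pos c3]
        have e5 : (Bp p P f a t : Mat A) = du a := by
          unfold Bp; rw [if_neg (hnt _ hPt), if_neg (hnt _ hc), if_pos c3]
        rw [e1, e2, e3, e4, e5, one_phi, gz_one, Units.val_one, Matrix.one_mul, Matrix.one_mul,
          Matrix.mul_one]
      · have e3 : xnP P f l t = sw := by
          unfold xnP; rw [if_neg (hnt _ hPt), if_neg (hnt _ hc), if_neg c3]
        have e5 : (Bp p P f a t : Mat A) = !![0, 1; un a, 0] := by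
          unfold Bp; rw [if_neg (hnt _ hPt), if_neg (hnt _ hc), if_neg c3]
        rw [e1, e2, e3, e4, e5, one_phi, gz_one, gz_sw, du_two, Units.val_one, Matrix.one_mul,
          Matrix.mul_one, Matrix.mul_one, Matrix.mul_fin_two]
        apply mat2_congr <;> ring

/-- the Frobenius matrices of the family -/
noncomputable def Fp (p : ℕ) (P : ℕ → Bool) (f a : ℕ) (l : ℕ → A) (s : A) (w x : ℕ → A) (t : ℕ) :
    Mat A :=
  if P t = true then
    (HahnSeries.C (if t = 0 then 1 + s else 1) : LaurentSeries A) • (oneN (l t) (w t) *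
      Bp p P f a t)
  else if Pm P t = true then Bp p P f a t
  else Bp p P f a t * !![1, 0; HahnSeries.C (x t), 1]

/-- the factors on the left -/
noncomputable def ELP (P : ℕ → Bool) (s : A) (hs : IsUnit (1 + s)) (w : ℕ → A) (t : ℕ) :
    GL (Fin 2) A :=
  if P t = true then (if t = 0 then gS s hs else 1) * eU (w t) else 1

/-- the factors on the right -/
def ERP (P : ℕ → Bool) (x : ℕ → A) (t : ℕ) : GL (Fin 2) A :=
  if P t = false ∧ Pm P t = false then eL (x t) else 1

variable {p f : ℕ} [Fact p.Prime] [NeZero f] {a : ZMod f → ℕ} {P : ℕ → Bool}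

/-- the Kisin modules -/
noncomputable def MFP (P : ℕ → Bool) (i : ZMod f) (l : ℕ → A) (s : A) (hs : IsUnit (1 + s))
    (w x : ℕ → A) : KisinModule f A where
  X j := Matrix.GeneralLinearGroup.map PowerSeries.C
    (ELP P s hs w (j - i).val * xnP P f l (j - i).val)
  Z j := ERP P x (j - i).val * znP P l (j - i).val

omit [NeZero f] in
theorem MFP_frob (i : ZMod f) (l : ℕ → A) (s : A) (hs : IsUnit (1 + s)) (w x : ℕ → A)
    (j : ZMod f) :
    (MFP P i l s hs w x).frob a j =
      gz (ELP P s hs w (j - i).val) * gz (xnP P f l (j - i).val) * du (a j) *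
        (gz (ERP P x (j - i).val) * gz (znP P l (j - i).val)) := by
  rw [← gz_mul, ← gz_mul]
  show (((ELP P s hs w (j - i).val * xnP P f l (j - i).val).1.map
    PowerSeries.C).map ps) * _ * _ = _
  have : ((ELP P s hs w (j - i).val * xnP P f l (j - i).val).1.map
      PowerSeries.C).map ps = gz (ELP P s hs w (j - i).val * xnP P f l (j - i).val) := by
    refine Matrix.ext fun r s => ?_
    exact ofPowerSeries_C _
  rw [this]
  rfl

theorem step_checkP' (hP : GoodP P f) (i : ZMod f) (hpat : IsPat p f a i P) (l : ℕ → A)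
    (hl : ∀ t, P t = true → Pm P t = true → l t = l (t - 1)) (j : ZMod f) :
    ((j - i).val = 0 → (j - 1 - i).val = f - 1) ∧
    (1 ≤ (j - i).val → (j - 1 - i).val = (j - i).val - 1) ∧
    (TnP P l (j - i).val).1 * (gz (xnP P f l (j - i).val) * du (a j) *
        gz (znP P l (j - i).val)) =
      Bp p P f (a j) (j - i).val * (TnP P l (j - 1 - i).val).1.map (phi A p) := by
  have hf3 := hP.three_le
  have hj : j = i + ((j - i).val : ℕ) := by
    rw [ZMod.natCast_val, ZMod.cast_id', id_eq, add_sub_cancel]
  have hlt : (j - i).val < f := ZMod.val_lt _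
  have q0 : (j - i).val = 0 → (j - 1 - i).val = f - 1 := by
    intro h4
    have h5 : j - i = 0 := (ZMod.val_eq_zero _).1 h4
    have h6 : j - 1 - i = ((f - 1 : ℕ) : ZMod f) := by
      have h7 : ((f - 1 + 1 : ℕ) : ZMod f) = 0 := by
        rw [Nat.sub_add_cancel (by omega), ZMod.natCast_self]
      push_cast at h7
      linear_combination h5 - h7
    rw [h6, ZMod.val_natCast_of_lt (by omega)]
  have q1 : 1 ≤ (j - i).val → (j - 1 - i).val = (j - i).val - 1 := by
    intro h4
    have h6 : j - 1 - i = (((j - i).val - 1 : ℕ) : ZMod f) := by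
      rw [Nat.cast_sub h4, ZMod.natCast_val, ZMod.cast_id', id_eq]
      push_cast
      ring
    conv_lhs => rw [h6]
    rw [ZMod.val_natCast_of_lt (by omega)]
  refine ⟨q0, q1, ?_⟩
  have ea : a j = a (i + ((j - i).val : ℕ)) := by rw [← hj]
  apply step_checkP hP (a j) l hlt
  · rcases Nat.eq_zero_or_pos (j - i).val with h4 | h4
    · exact Or.inl ⟨h4, q0 h4⟩
    · exact Or.inr ⟨h4, q1 h4⟩
  · intro h1 h2
    rw [ea]
    exact hpat.start _ hlt h1 h2
  · intro h1 h2
    rw [ea]
    exact hpat.mid _ hlt h1 h2
  · intro h1 h2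
    rw [ea]
    exact hpat.stop _ hlt h1 h2
  · exact hl _

/-- The members of the family are isomorphic, as étale `φ`-modules, to Kisin modules. -/
theorem isHom_Fp (hP : GoodP P f) (i : ZMod f) (hpat : IsPat p f a i P) (l : ℕ → A)
    (hl : ∀ t, P t = true → Pm P t = true → l t = l (t - 1)) (s : A) (hs : IsUnit (1 + s))
    (w x : ℕ → A) :
    IsHom p ((MFP P i l s hs w x).frob a) (fun j => Fp p P f (a j) l s w x (j - i).val)
      (fun j => (TnP P l (j - i).val).1) := by
  intro j
  have hf3 := hP.three_le
  obtain ⟨q0, q1, h4⟩ := step_checkP' (a := a) hP i hpat l hl j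
  have hPf : ∀ t, P t = true ∨ P t = false := fun t => by cases P t <;> simp
  have hPmf : ∀ t, Pm P t = true ∨ Pm P t = false := fun t => by cases Pm P t <;> simp
  have hnt : ∀ x : Bool, x = false → ¬ x = true := by
    intro x hx
    rw [hx]
    exact fun h => Bool.noConfusion h
  show (TnP P l (j - i).val).1 * _ =
    Fp p P f (a j) l s w x (j - i).val * (TnP P l (j - 1 - i).val).1.map (phi A p)
  rw [MFP_frob]
  rcases hPf (j - i).val with c0 | c0
  · have e1 : TnP P l (j - i).val = tl (l (j - i).val) := by unfold TnP; rw [if_pos c0]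
    have e2 : (ERP P x (j - i).val : GL (Fin 2) A) = 1 := by
      unfold ERP
      rw [if_neg]
      rintro ⟨h, -⟩
      rw [h] at c0
      exact Bool.noConfusion c0
    have e3 : gz (ELP P s hs w (j - i).val) =
        (HahnSeries.C (if (j - i).val = 0 then 1 + s else 1) : LaurentSeries A) •
          gz (eU (w (j - i).val)) := by
      unfold ELP
      rw [if_pos c0, gz_mul]
      split_ifs
      · rw [gz_gS, smul_mul', Matrix.one_mul]
      · rw [gz_one, map_one, one_smul, Matrix.one_mul]
    have e4 : Fp p P f (a j) l s w x (j - i).val =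
        ((HahnSeries.C (if (j - i).val = 0 then 1 + s else 1) : LaurentSeries A) •
          oneN (l (j - i).val) (w (j - i).val)) * Bp p P f (a j) (j - i).val := by
      unfold Fp
      rw [if_pos c0, smul_mul']
    have key : ∀ (G Q : Mat A), Q * (TnP P l (j - i).val).1 = (TnP P l (j - i).val).1 * G →
        (TnP P l (j - i).val).1 * (G * gz (xnP P f l (j - i).val) * du (a j) *
          (1 * gz (znP P l (j - i).val))) =
        Q * Bp p P f (a j) (j - i).val * (TnP P l (j - 1 - i).val).1.map (phi A p) := by
      intro G Q hQ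
      rw [Matrix.one_mul, Matrix.mul_assoc Q, ← h4, ← Matrix.mul_assoc Q, hQ]
      simp only [Matrix.mul_assoc]
    rw [e2, gz_one, e3, e4]
    apply key
    rw [e1, smul_mul', oneN_tl, mul_smul']
  · have e3 : (ELP P s hs w (j - i).val : GL (Fin 2) A) = 1 := by
      unfold ELP
      rw [if_neg (hnt _ c0)]
    rw [e3, gz_one, Matrix.one_mul]
    rcases hPmf (j - i).val with c1 | c1
    · have e2 : (ERP P x (j - i).val : GL (Fin 2) A) = 1 := by
        unfold ERP
        rw [if_neg]
        rintro ⟨-, h⟩
        rw [h] at c1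
        exact Bool.noConfusion c1
      have e4 : Fp p P f (a j) l s w x (j - i).val = Bp p P f (a j) (j - i).val := by
        unfold Fp
        rw [if_neg (hnt _ c0), if_pos c1]
      rw [e2, e4, gz_one, Matrix.one_mul]
      exact h4
    · have e1 : TnP P l (j - i).val = 1 := by unfold TnP; rw [if_neg (hnt _ c0)]
      have e2 : (ERP P x (j - i).val : GL (Fin 2) A) = eL (x (j - i).val) := by
        unfold ERP; rw [if_pos ⟨c0, c1⟩]
      have e4 : Fp p P f (a j) l s w x (j - i).val =
          Bp p P f (a j) (j - i).val * gz (eL (x (j - i).val)) := by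
        unfold Fp
        rw [if_neg (hnt _ c0), if_neg (hnt _ c1), gz_eL]
      have hpos : 1 ≤ (j - i).val := by
        by_contra hc
        have h5 : (j - i).val = 0 := by omega
        rw [h5, hP.h0] at c0
        exact Bool.noConfusion c0
      have e5 : TnP P l (j - 1 - i).val = 1 := by
        rw [q1 hpos]
        obtain ⟨t, ht⟩ : ∃ t, (j - i).val = t + 1 := ⟨(j - i).val - 1, by omega⟩
        rw [ht] at c1 ⊢
        have c1' : P t = false := c1
        rw [Nat.add_sub_cancel]
        unfold TnP
        rw [if_neg (hnt _ c1')]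
      have e6 : znP P l (j - i).val = 1 := by
        unfold znP; rw [if_neg (hnt _ c0), if_neg (hnt _ c1)]
      rw [e1, e5, e6, one_phi, gz_one, Units.val_one, Matrix.one_mul, Matrix.mul_one,
        Matrix.mul_one] at h4
      rw [e2, e4, e1, e5, e6, one_phi, gz_one, Units.val_one, Matrix.one_mul, Matrix.mul_one,
        Matrix.mul_one, ← h4]

end

end Pool.Agent.Lib.MP_74d0c9_nt
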