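import Pool.Agent.Lib.MP_74d0c9_nt.MEnd

/-! Several words: irreducibility. -/

set_option autoImplicit false

namespace Pool.Agent.Lib.MP_74d0c9_nt

open HahnSeries

universe u

section
variable {k : Type u} [Field k] {p f : ℕ} [Fact p.Prime] [NeZero f] {a : ZMod f → ℕ}
  {P : ℕ → Bool}

omit [NeZero f] in
theorem irred_Bp (hp : 5 ≤ p) (ha : ∀ i, 1 ≤ a i ∧ a i ≤ p) (hP : GoodP P f)
    (i : ZMod f) : Irred p fun j => (Bp p P f (a j) (j - i).val : Mat k) := by
  have hf3 := hP.three_le
  rintro ⟨v, ν, hv, h⟩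
  have hp5 : (5 : ℤ) ≤ p := by exact_mod_cast hp
  obtain ⟨J, hJ⟩ : ∃ J : ℕ → ZMod f, J = fun t : ℕ => i + (t : ZMod f) - 1 := ⟨_, rfl⟩
  have hJs : ∀ t, J (t + 1) - 1 = J t := by
    intro t
    rw [hJ]
    push_cast
    ring
  have hJv : ∀ t, t < f → (J (t + 1) - i).val = t := by
    intro t ht
    have : J (t + 1) - i = t := by rw [hJ]; push_cast; ring
    rw [this, ZMod.val_natCast_of_lt ht]
  have hJf : J f = J 0 := by
    rw [hJ]
    simp
  -- the components
  have hstep : ∀ t, t < f - 1 → ∃ c d : ℤ,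
      un c * phi k p (v (J t) 0) = ν (J (t + 1)) * v (J (t + 1)) 0 ∧
      un d * phi k p (v (J t) 1) = ν (J (t + 1)) * v (J (t + 1)) 1 ∧
      (((P t = true ∨ Pm P t = true) ∧ d = c) ∨
        (¬ (P t = true ∨ Pm P t = true) ∧ d = c - a (J (t + 1)))) := by
    intro t ht
    have h1 : (Bp p P f (a (J (t + 1))) (J (t + 1) - i).val).mulVec
        (fun r => phi k p (v (J (t + 1) - 1) r)) = ν (J (t + 1)) • v (J (t + 1)) := h (J (t + 1))
    rw [hJs, hJv t (by omega)] at h1
    have hsc : ∀ c : ℤ, Bp p P f (a (J (t + 1))) t = (!![un c, 0; 0, un c] : Mat k) →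
        un c * phi k p (v (J t) 0) = ν (J (t + 1)) * v (J (t + 1)) 0 ∧
        un c * phi k p (v (J t) 1) = ν (J (t + 1)) * v (J (t + 1)) 1 := by
      intro c hc
      rw [hc] at h1
      constructor
      · have := congrFun h1 0
        rw [Matrix.mulVec, dotProduct, Fin.sum_univ_two] at this
        have e : un c * phi k p (v (J t) 0) + 0 * phi k p (v (J t) 1) =
          ν (J (t + 1)) * v (J (t + 1)) 0 := this
        rw [← e]
        ring
      · have := congrFun h1 1
        rw [Matrix.mulVec, dotProduct, Fin.sum_univ_two] at this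
        have e : 0 * phi k p (v (J t) 0) + un c * phi k p (v (J t) 1) =
          ν (J (t + 1)) * v (J (t + 1)) 1 := this
        rw [← e]
        ring
    by_cases c0 : P t = true ∨ Pm P t = true
    · obtain ⟨q, hq⟩ := Bp_in (k := k) p P f (a (J (t + 1))) t c0
      have := hsc q hq
      exact ⟨q, q, this.1, this.2, Or.inl ⟨c0, rfl⟩⟩
    · have c1 := c0
      push Not at c1
      have hPt : P t = false := by
        have := c1.1
        revert this
        cases P t <;> simp
      have hPmt : Pm P t = false := by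
        have := c1.2
        revert this
        cases Pm P t <;> simp
      have hB : Bp p P f (a (J (t + 1))) t = (!![un (a (J (t + 1))), 0; 0, un 0] : Mat k) :=
        Bp_out _ _ _ _ _ hPt hPmt ht
      rw [hB] at h1
      refine ⟨a (J (t + 1)), 0, ?_, ?_, Or.inr ⟨c0, by ring⟩⟩
      · have := congrFun h1 0
        rw [Matrix.mulVec, dotProduct, Fin.sum_univ_two] at this
        have e : un (a (J (t + 1)) : ℤ) * phi k p (v (J t) 0) + 0 * phi k p (v (J t) 1) =
          ν (J (t + 1)) * v (J (t + 1)) 0 := this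
        rw [← e]
        ring
      · have := congrFun h1 1
        rw [Matrix.mulVec, dotProduct, Fin.sum_univ_two] at this
        have e : 0 * phi k p (v (J t) 0) + un 0 * phi k p (v (J t) 1) =
          ν (J (t + 1)) * v (J (t + 1)) 1 := this
        rw [← e]
        ring
  have hlast : un 0 * phi k p (v (J (f - 1)) 1) = ν (J 0) * v (J 0) 0 ∧
      un (a (J 0)) * phi k p (v (J (f - 1)) 0) = ν (J 0) * v (J 0) 1 := by
    have h1 : (Bp p P f (a (J (f - 1 + 1))) (J (f - 1 + 1) - i).val).mulVec
        (fun r => phi k p (v (J (f - 1 + 1) - 1) r)) =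
        ν (J (f - 1 + 1)) • v (J (f - 1 + 1)) := h (J (f - 1 + 1))
    have hf1 : f - 1 + 1 = f := by omega
    rw [hJs, hJv (f - 1) (by omega), hf1, hJf] at h1
    have hB : Bp p P f (a (J 0)) (f - 1) = (!![0, 1; un (a (J 0)), 0] : Mat k) :=
      Bp_last _ _ _ _ hP
    rw [hB] at h1
    constructor
    · have := congrFun h1 0
      rw [Matrix.mulVec, dotProduct, Fin.sum_univ_two] at this
      have e : 0 * phi k p (v (J (f - 1)) 0) + 1 * phi k p (v (J (f - 1)) 1) =
        ν (J 0) * v (J 0) 0 := this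
      rw [← e, un_zero]
      ring
    · have := congrFun h1 1
      rw [Matrix.mulVec, dotProduct, Fin.sum_univ_two] at this
      have e : un (a (J 0) : ℤ) * phi k p (v (J (f - 1)) 0) + 0 * phi k p (v (J (f - 1)) 1) =
        ν (J 0) * v (J 0) 1 := this
      rw [← e]
      ring
  -- nonzero
  have hν : ν (J 0) ≠ 0 := by
    intro h0
    rw [h0, zero_mul, zero_mul] at hlast
    have h1 : (un 0 : LaurentSeries k) ≠ 0 := single_ne_zero one_ne_zero
    have h2 : (un (a (J 0)) : LaurentSeries k) ≠ 0 := single_ne_zero one_ne_zero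
    apply hv (J (f - 1))
    funext r
    fin_cases r
    · by_contra h3
      exact mul_ne_zero h2 (phi_ne_zero p h3) hlast.2
    · by_contra h3
      exact mul_ne_zero h1 (phi_ne_zero p h3) hlast.1
  have hν' : ∀ t, t < f - 1 → ν (J (t + 1)) ≠ 0 := by
    intro t ht h0
    obtain ⟨c, d, h1, h2, -⟩ := hstep t ht
    rw [h0, zero_mul] at h1 h2
    have h3 : (un c : LaurentSeries k) ≠ 0 := single_ne_zero one_ne_zero
    have h4 : (un d : LaurentSeries k) ≠ 0 := single_ne_zero one_ne_zero
    apply hv (J t)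
    funext r
    fin_cases r
    · by_contra h5
      exact mul_ne_zero h3 (phi_ne_zero p h5) h1
    · by_contra h5
      exact mul_ne_zero h4 (phi_ne_zero p h5) h2
  have hx0 : v (J 0) 0 ≠ 0 := by
    intro h0
    have h1 : ∀ t, t ≤ f - 1 → v (J t) 0 = 0 := by
      intro t
      induction t with
      | zero => intro _; exact h0
      | succ t ih =>
        intro ht
        obtain ⟨c, d, h1, -, -⟩ := hstep t (by omega)
        rw [ih (by omega), map_zero, mul_zero] at h1
        exact (mul_eq_zero.1 h1.symm).resolve_left (hν' t (by omega))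
    have h2 := hlast.2
    rw [h1 _ le_rfl, map_zero, mul_zero] at h2
    have h3 := (mul_eq_zero.1 h2.symm).resolve_left hν
    apply hv (J 0)
    funext r
    fin_cases r
    · exact h0
    · exact h3
  have hy0 : v (J 0) 1 ≠ 0 := by
    intro h0
    have h1 : ∀ t, t ≤ f - 1 → v (J t) 1 = 0 := by
      intro t
      induction t with
      | zero => intro _; exact h0
      | succ t ih =>
        intro ht
        obtain ⟨c, d, -, h1, -⟩ := hstep t (by omega)
        rw [ih (by omega), map_zero, mul_zero] at h1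
        exact (mul_eq_zero.1 h1.symm).resolve_left (hν' t (by omega))
    have h2 := hlast.1
    rw [h1 _ le_rfl, map_zero, mul_zero] at h2
    have h3 := (mul_eq_zero.1 h2.symm).resolve_left hν
    apply hv (J 0)
    funext r
    fin_cases r
    · exact h3
    · exact h0
  have hne : ∀ t, t ≤ f - 1 → v (J t) 0 ≠ 0 ∧ v (J t) 1 ≠ 0 := by
    intro t
    induction t with
    | zero => intro _; exact ⟨hx0, hy0⟩
    | succ t ih =>
      intro ht
      obtain ⟨c, d, h1, h2, -⟩ := hstep t (by omega)
      obtain ⟨h3, h4⟩ := ih (by omega)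
      exact ⟨(order_step p h3 h1).1, (order_step p h4 h2).1⟩
  -- the difference of the orders
  obtain ⟨R, hR⟩ : ∃ R : ℕ → ℤ, R = fun t => (v (J t) 1).order - (v (J t) 0).order := ⟨_, rfl⟩
  have hRs : ∀ t, t < f - 1 → ((P t = true ∨ Pm P t = true) ∧ R (t + 1) = p * R t) ∨
      (¬ (P t = true ∨ Pm P t = true) ∧ R (t + 1) = p * R t - a (J (t + 1))) := by
    intro t ht
    obtain ⟨c, d, h1, h2, h3⟩ := hstep t ht
    obtain ⟨h4, h5⟩ := hne t (by omega)
    have h6 := (order_step p h4 h1).2.2
    have h7 := (order_step p h5 h2).2.2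
    rw [hR]
    rcases h3 with ⟨h3, h8⟩ | ⟨h3, h8⟩
    · exact Or.inl ⟨h3, by dsimp only; rw [h8] at h7; linear_combination h7 - h6⟩
    · exact Or.inr ⟨h3, by dsimp only; rw [h8] at h7; linear_combination h7 - h6⟩
  have hRf : R 0 = a (J 0) - p * R (f - 1) := by
    obtain ⟨h4, h5⟩ := hne (f - 1) le_rfl
    have h6 := (order_step p h5 hlast.1).2.2
    have h7 := (order_step p h4 hlast.2).2.2
    rw [hR]
    dsimp only
    linear_combination h7 - h6
  have hab : ∀ j, (1 : ℤ) ≤ a j ∧ (a j : ℤ) ≤ p := fun j =>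
    ⟨by exact_mod_cast (ha j).1, by exact_mod_cast (ha j).2⟩
  rcases lt_or_ge (R 0) 1 with hlt | hge
  · have h1 : ∀ t, t ≤ f - 1 → R t ≤ 0 := by
      intro t
      induction t with
      | zero => intro _; omega
      | succ t ih =>
        intro ht
        have h2 := ih (by omega)
        rcases hRs t (by omega) with ⟨-, h3⟩ | ⟨-, h3⟩
        · rw [h3]; nlinarith
        · rw [h3]; nlinarith [(hab (J (t + 1))).1]
    have h2 := h1 _ le_rfl
    nlinarith [(hab (J 0)).1]
  · have h1 : ∀ t, t + 1 ≤ f - 1 → (p : ℤ) ≤ R (t + 1) := by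
      intro t
      induction t with
      | zero =>
        intro ht
        rcases hRs 0 (by omega) with ⟨-, h3⟩ | ⟨h4, -⟩
        · rw [h3]; nlinarith
        · exact absurd (Or.inl hP.h0) h4
      | succ t ih =>
        intro ht
        have h2 := ih (by omega)
        rcases hRs (t + 1) (by omega) with ⟨-, h3⟩ | ⟨-, h3⟩
        · rw [h3]; nlinarith
        · rw [h3]; nlinarith [(hab (J (t + 1 + 1))).2]
    have h2 := h1 (f - 2) (by omega)
    have e : f - 2 + 1 = f - 1 := by omega
    rw [e] at h2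
    nlinarith [(hab (J 0)).2]

end

end Pool.Agent.Lib.MP_74d0c9_nt
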