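import Pool.Agent.Lib.MP_74d0c9_nt.MDefs

/-! Several words: the off-diagonal part of a coboundary. -/

set_option autoImplicit false

namespace Pool.Agent.Lib.MP_74d0c9_nt

open HahnSeries

universe u

section
variable {k : Type u} [CommRing k] {p : ℕ} [Fact p.Prime]

/-- the off-diagonal equations -/
structure OffEq (p : ℕ) [Fact p.Prime] (P : ℕ → Bool) (f : ℕ) (a : ℕ → ℕ)
    (β γ : ℕ → LaurentSeries k) (b g x : ℕ → k) : Prop where
  b0 : β 0 = phi k p (β (f - 1)) + single (-1) (b 0)
  g0 : γ 0 = phi k p (γ (f - 1)) + single (-1) (g 0)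
  b1 : ∀ t, t + 1 < f → (P (t + 1) = true ∨ P t = true) →
    β (t + 1) = phi k p (β t) + single (-1) (b (t + 1))
  g1 : ∀ t, t + 1 < f → (P (t + 1) = true ∨ P t = true) →
    γ (t + 1) = phi k p (γ t) + single (-1) (g (t + 1))
  b3 : ∀ t, P (t + 1) = false → P t = false → t + 1 < f - 1 →
    β (t + 1) = un (a (t + 1)) * phi k p (β t)
  g3 : ∀ t, P (t + 1) = false → P t = false → t + 1 < f - 1 →
    un (a (t + 1)) * γ (t + 1) = phi k p (γ t) + single 0 (x (t + 1))
  b4 : un (a (f - 1)) * β (f - 1) = phi k p (γ (f - 2)) + single 0 (x (f - 1))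
  g4 : γ (f - 1) = un (a (f - 1)) * phi k p (β (f - 2))
  hb : ∀ t, P t = false → b t = 0
  hg : ∀ t, P t = false → g t = 0

variable {P : ℕ → Bool} {f : ℕ} {a : ℕ → ℕ} {β γ : ℕ → LaurentSeries k} {b g x : ℕ → k}

theorem OffEq.poles (h : OffEq p P f a β γ b g x) (hP : GoodP P f)
    (ha : ∀ t, 1 ≤ a t ∧ a t ≤ p) :
    GE (β 0) 0 ∧ (∀ t, t < f → P t = true → GE (β t) 0) ∧ (∀ t, t ≤ f - 2 → GE (γ t) 0) ∧
      GE (β (f - 1)) 0 := by
  have hf3 := hP.three_le
  have hp := two_le_p (p := p)
  have hab : ∀ t, (1 : ℤ) ≤ a t ∧ (a t : ℤ) ≤ p := fun t =>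
    ⟨by exact_mod_cast (ha t).1, by exact_mod_cast (ha t).2⟩
  have hmono : ∀ n : ℤ, 1 ≤ n → n + 1 ≤ p * n := fun n hn => by nlinarith
  have hq : ∀ (q : ℤ) (t : ℕ), 2 ≤ q → q ≤ p * q - a t := by
    intro q t hq
    have := (hab t).2
    nlinarith [mul_nonneg (sub_nonneg.2 hp) (show (0 : ℤ) ≤ q - 1 by omega)]
  have hPf : ∀ t, P t = true ∨ P t = false := fun t => by cases P t <;> simp
  -- poles of `β`
  have B1 : ∀ (s : ℕ) (n : ℤ), s < f → P s = true → 1 ≤ n → PL (β s) n →
      ∀ d, s + 1 + d ≤ f - 2 → PL (β (s + 1 + d)) (p * n) := by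
    intro s n hsf hs hn h0 d
    induction d with
    | zero =>
      intro hd
      rw [add_zero, h.b1 s (by omega) (Or.inr hs)]
      exact phi_pole hn h0 _
    | succ d ih =>
      intro hd
      have h1 := ih (by omega)
      have h2 := hmono n hn
      have h3 := hmono (p * n) (by omega)
      rw [← add_assoc]
      by_cases c : P (s + 1 + d + 1) = true ∨ P (s + 1 + d) = true
      · rw [h.b1 (s + 1 + d) (by omega) c]
        exact (phi_pole (by omega) h1 _).mono (by omega)
      · push Not at c
        rw [h.b3 (s + 1 + d) ((hPf _).resolve_left c.1) ((hPf _).resolve_left c.2) (by omega)]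
        exact (h1.phi.un_mul _).mono (hq _ _ (by omega))
  have B4 : ∀ (s : ℕ) (n : ℤ), s < f → P s = true → 1 ≤ n → PL (β s) n →
      PL (γ (f - 1)) (p * n) := by
    intro s n hsf hs hn h0
    have h1 := hmono n hn
    have h4 := hP.lt hsf hs
    have h2 := B1 s n hsf hs hn h0 (f - 2 - (s + 1)) (by omega)
    rw [show s + 1 + (f - 2 - (s + 1)) = f - 2 by omega] at h2
    rw [h.g4]
    exact (h2.phi.un_mul _).mono (hq _ _ (by omega))
  -- poles of `γ`
  have G1 : ∀ (s : ℕ) (n : ℤ), 1 ≤ n → PL (γ s) n → ∀ d, s + d ≤ f - 2 → PL (γ (s + d)) n := by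
    intro s n hn hs d
    induction d with
    | zero => intro _; exact hs
    | succ d ih =>
      intro hd
      have h1 := ih (by omega)
      have h2 := hmono n hn
      rw [← add_assoc]
      by_cases c : P (s + d + 1) = true ∨ P (s + d) = true
      · rw [h.g1 (s + d) (by omega) c]
        exact (phi_pole hn h1 _).mono (by omega)
      · push Not at c
        have h3 : PL (un (a (s + d + 1)) * γ (s + d + 1)) (p * n) := by
          rw [h.g3 (s + d) ((hPf _).resolve_left c.1) ((hPf _).resolve_left c.2) (by omega)]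
          exact h1.phi.add_single (by omega) _
        have h4 := (hab (s + d + 1)).1
        exact h3.of_un_mul.mono (by omega)
  have G2 : ∀ (s : ℕ) (n : ℤ), 1 ≤ n → s ≤ f - 2 → PL (γ s) n → PL (β (f - 1)) (p * n) := by
    intro s n hn hs h0
    have h2 := hmono n hn
    have h1 := G1 s n hn h0 (f - 2 - s) (by omega)
    rw [show s + (f - 2 - s) = f - 2 by omega] at h1
    have h3 : PL (un (a (f - 1)) * β (f - 1)) (p * n) := by
      rw [h.b4]
      exact h1.phi.add_single (by omega) _
    have h4 := (hab (f - 1)).1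
    exact h3.of_un_mul.mono (by omega)
  have key : ∀ i : Bool, ¬ PL ((fun i : Bool => if i then β 0 else γ 0) i) 1 := by
    apply no_poles
    intro i n hn h0
    have h2 := hmono n hn
    have h3 := hmono (p * n) (by omega)
    cases i with
    | true =>
      refine ⟨false, ?_⟩
      show PL (γ 0) (n + 1)
      rw [h.g0]
      exact (phi_pole (by omega) (B4 0 n (by omega) hP.h0 hn h0) _).mono (by omega)
    | false =>
      refine ⟨true, ?_⟩
      show PL (β 0) (n + 1)
      rw [h.b0]
      exact (phi_pole (by omega) (G2 0 n hn (by omega) h0) _).mono (by omega)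
  have hβ0 : ¬ PL (β 0) 1 := key true
  have hγ0 : ¬ PL (γ 0) 1 := key false
  have hβf : ¬ PL (β (f - 1)) 1 := by
    intro h0
    apply hβ0
    rw [h.b0]
    exact (phi_pole le_rfl h0 _).mono (by omega)
  have hγf : ¬ PL (γ (f - 1)) 1 := by
    intro h0
    apply hγ0
    rw [h.g0]
    exact (phi_pole le_rfl h0 _).mono (by omega)
  refine ⟨not_PL hβ0, ?_, ?_, not_PL hβf⟩
  · intro t ht htP
    apply not_PL
    intro h0
    exact hγf ((B4 t 1 ht htP le_rfl h0).mono (by omega))
  · intro t ht
    apply not_PL
    intro h0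
    exact hβf ((G2 t 1 le_rfl ht h0).mono (by omega))

theorem OffEq.vanish (h : OffEq p P f a β γ b g x) (hP : GoodP P f)
    (ha : ∀ t, 1 ≤ a t ∧ a t ≤ p) :
    (∀ t, t < f → b t = 0 ∧ g t = 0) ∧
      ∀ t, t < f → P t = false → Pm P t = false → x t = 0 := by
  have hf3 := hP.three_le
  obtain ⟨hβ0, hβP, hγ, hβf⟩ := h.poles hP ha
  have hp := two_le_p (p := p)
  have hab : ∀ t, (1 : ℤ) ≤ a t ∧ (a t : ℤ) ≤ p := fun t =>
    ⟨by exact_mod_cast (ha t).1, by exact_mod_cast (ha t).2⟩
  have hPf : ∀ t, P t = true ∨ P t = false := fun t => by cases P t <;> simp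
  have hb : ∀ t, t < f → b t = 0 := by
    intro t ht
    rcases hPf t with hc | hc
    · rcases Nat.eq_zero_or_pos t with h4 | h4
      · subst h4
        have h5 := hβ0 (-1) (by norm_num)
        rw [h.b0, coeff_add, phi_coeff_neg_one, zero_add, coeff_single_same] at h5
        exact h5
      · obtain ⟨s, rfl⟩ : ∃ s, t = s + 1 := ⟨t - 1, by omega⟩
        have h5 := hβP (s + 1) ht hc (-1) (by norm_num)
        rw [h.b1 s ht (Or.inl hc), coeff_add, phi_coeff_neg_one, zero_add,
          coeff_single_same] at h5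
        exact h5
    · exact h.hb t hc
  have hg : ∀ t, t < f → g t = 0 := by
    intro t ht
    rcases hPf t with hc | hc
    · have h6 := hP.lt ht hc
      rcases Nat.eq_zero_or_pos t with h4 | h4
      · subst h4
        have h5 := hγ 0 (by omega) (-1) (by norm_num)
        rw [h.g0, coeff_add, phi_coeff_neg_one, zero_add, coeff_single_same] at h5
        exact h5
      · obtain ⟨s, rfl⟩ : ∃ s, t = s + 1 := ⟨t - 1, by omega⟩
        have h5 := hγ (s + 1) (by omega) (-1) (by norm_num)
        rw [h.g1 s ht (Or.inl hc), coeff_add, phi_coeff_neg_one, zero_add,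
          coeff_single_same] at h5
        exact h5
    · exact h.hg t hc
  refine ⟨fun t ht => ⟨hb t ht, hg t ht⟩, ?_⟩
  -- `β` has no poles
  have hβ : ∀ t, t ≤ f - 2 → GE (β t) 0 := by
    intro t
    induction t with
    | zero => intro _; exact hβ0
    | succ t ih =>
      intro ht
      have h1 := phi_GE p (ih (by omega))
      rw [mul_zero] at h1
      by_cases c : P (t + 1) = true ∨ P t = true
      · rw [h.b1 t (by omega) c, hb (t + 1) (by omega), single_eq_zero, add_zero]
        exact h1
      · push Not at c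
        rw [h.b3 t ((hPf _).resolve_left c.1) ((hPf _).resolve_left c.2) (by omega)]
        have h2 := (hab (t + 1)).1
        exact (h1.un_mul (a (t + 1))).mono (by omega)
  have hγf1 : GE (γ (f - 1)) 1 := by
    rw [h.g4]
    have h1 := (phi_GE p (hβ (f - 2) le_rfl)).un_mul (a (f - 1))
    have h2 := (hab (f - 1)).1
    exact h1.mono (by rw [mul_zero]; omega)
  have hγ2 : ∀ t, t ≤ f - 2 → GE (γ t) 2 ∧ (P t = false → Pm P t = false → x t = 0) := by
    intro t
    induction t with
    | zero =>
      intro _
      refine ⟨?_, fun h1 => ?_⟩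
      · rw [h.g0, hg 0 (by omega), single_eq_zero, add_zero]
        exact (phi_GE p hγf1).mono (by omega)
      · rw [hP.h0] at h1
        exact absurd h1 (by decide)
    | succ t ih =>
      intro ht
      obtain ⟨ih1, -⟩ := ih (by omega)
      have h1 := phi_GE p ih1
      by_cases c : P (t + 1) = true ∨ P t = true
      · refine ⟨?_, fun h2 h3 => ?_⟩
        · rw [h.g1 t (by omega) c, hg (t + 1) (by omega), single_eq_zero, add_zero]
          exact h1.mono (by omega)
        · have h3' : P t = false := h3
          rw [h2, h3'] at c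
          rcases c with c | c
          · exact absurd c (by decide)
          · exact absurd c (by decide)
      · push Not at c
        have h2 := h.g3 t ((hPf _).resolve_left c.1) ((hPf _).resolve_left c.2) (by omega)
        have h3 := (hab (t + 1)).1
        have h4 := (hab (t + 1)).2
        have hx : x (t + 1) = 0 := by
          have h5 := congrArg (fun y => y.coeff 0) h2
          have h6 : (un (a (t + 1)) * γ (t + 1)).coeff 0 = 0 := by
            unfold un
            rw [coeff_single_mul, one_mul]
            exact hγ (t + 1) (by omega) _ (by omega)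
          simp only [coeff_add, phi_coeff_zero', coeff_single_same] at h5
          rw [h6, ih1 0 (by norm_num), zero_add] at h5
          exact h5.symm
        refine ⟨?_, fun _ _ => hx⟩
        rw [hx, single_eq_zero, add_zero] at h2
        rw [← h2] at h1
        exact h1.of_un_mul.mono (by nlinarith)
  intro t ht hc1 hc2
  by_cases c : t ≤ f - 2
  · exact (hγ2 t c).2 hc1 hc2
  · have e : t = f - 1 := by omega
    subst e
    have h3 := (hab (f - 1)).1
    have h5 := congrArg (fun y => y.coeff 0) h.b4
    have h6 : (un (a (f - 1)) * β (f - 1)).coeff 0 = 0 := by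
      unfold un
      rw [coeff_single_mul, one_mul]
      exact hβf _ (by omega)
    simp only [coeff_add, phi_coeff_zero', coeff_single_same] at h5
    rw [h6, (hγ2 (f - 2) le_rfl).1 0 (by norm_num), zero_add] at h5
    exact h5.symm

theorem OffEq.zero (h : OffEq p P f a β γ 0 0 0) (hP : GoodP P f)
    (ha : ∀ t, 1 ≤ a t ∧ a t ≤ p) : ∀ t, t < f → β t = 0 ∧ γ t = 0 := by
  have hf3 := hP.three_le
  obtain ⟨hβ0, -, -, -⟩ := h.poles hP ha
  have hp := two_le_p (p := p)
  have hab : ∀ t, (1 : ℤ) ≤ a t ∧ (a t : ℤ) ≤ p := fun t =>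
    ⟨by exact_mod_cast (ha t).1, by exact_mod_cast (ha t).2⟩
  have hPf : ∀ t, P t = true ∨ P t = false := fun t => by cases P t <;> simp
  have hq : ∀ (q : ℤ) (t : ℕ), 2 ≤ q → q ≤ p * q - a t := by
    intro q t hq
    have := (hab t).2
    nlinarith [mul_nonneg (sub_nonneg.2 hp) (show (0 : ℤ) ≤ q - 1 by omega)]
  have z : ∀ (n : ℤ) (t : ℕ), (single n ((0 : ℕ → k) t) : LaurentSeries k) = 0 :=
    fun n t => single_eq_zero
  have b0 : β 0 = phi k p (β (f - 1)) := by rw [h.b0, z, add_zero]
  have g0 : γ 0 = phi k p (γ (f - 1)) := by rw [h.g0, z, add_zero]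
  have b1 : ∀ t, t + 1 < f → (P (t + 1) = true ∨ P t = true) → β (t + 1) = phi k p (β t) :=
    fun t h1 h2 => by rw [h.b1 t h1 h2, z, add_zero]
  have g1 : ∀ t, t + 1 < f → (P (t + 1) = true ∨ P t = true) → γ (t + 1) = phi k p (γ t) :=
    fun t h1 h2 => by rw [h.g1 t h1 h2, z, add_zero]
  have g3 : ∀ t, P (t + 1) = false → P t = false → t + 1 < f - 1 →
      un (a (t + 1)) * γ (t + 1) = phi k p (γ t) :=
    fun t h1 h2 h3 => by rw [h.g3 t h1 h2 h3, z, add_zero]
  have b4 : un (a (f - 1)) * β (f - 1) = phi k p (γ (f - 2)) := by rw [h.b4, z, add_zero]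
  -- zeros
  have grow : ∀ v : ℤ, 0 ≤ v → GE (β 0) v → GE (β 0) (v + 1) := by
    intro v hv h0
    have hpv : v ≤ p * v := by nlinarith
    have h2 : ∀ d, d ≤ f - 2 → GE (β d) v := by
      intro d
      induction d with
      | zero => intro _; exact h0
      | succ d ih =>
        intro hd
        by_cases c : P (d + 1) = true ∨ P d = true
        · rw [b1 d (by omega) c]
          exact (phi_GE p (ih (by omega))).mono hpv
        · push Not at c
          rw [h.b3 d ((hPf _).resolve_left c.1) ((hPf _).resolve_left c.2) (by omega)]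
          have h3 := (hab (d + 1)).1
          exact ((phi_GE p (ih (by omega))).un_mul _).mono (by omega)
    have h3 : GE (γ (f - 1)) (v + 1) := by
      rw [h.g4]
      have h3 := (hab (f - 1)).1
      exact ((phi_GE p (h2 (f - 2) le_rfl)).un_mul _).mono (by omega)
    have h4 : ∀ d, d ≤ f - 2 → GE (γ d) (v + 2) := by
      intro d
      induction d with
      | zero =>
        intro _
        rw [g0]
        exact (phi_GE p h3).mono (by nlinarith)
      | succ d ih =>
        intro hd
        have h5 := phi_GE p (ih (by omega))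
        by_cases c : P (d + 1) = true ∨ P d = true
        · rw [g1 d (by omega) c]
          exact h5.mono (by nlinarith)
        · push Not at c
          rw [← g3 d ((hPf _).resolve_left c.1) ((hPf _).resolve_left c.2) (by omega)] at h5
          exact h5.of_un_mul.mono (hq (v + 2) (d + 1) (by omega))
    have h5 : GE (β (f - 1)) (v + 2) := by
      have h6 := phi_GE p (h4 (f - 2) le_rfl)
      rw [← b4] at h6
      exact h6.of_un_mul.mono (hq (v + 2) (f - 1) (by omega))
    rw [b0]
    exact (phi_GE p h5).mono (by nlinarith)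
  have hall : ∀ n : ℕ, GE (β 0) n := by
    intro n
    induction n with
    | zero => exact hβ0
    | succ n ih =>
      have := grow n (by omega) ih
      push_cast
      exact this
  have z0 : β 0 = 0 := by
    ext n
    exact hall (n.toNat + 1) n (by push_cast; omega)
  have z1 : ∀ t, t ≤ f - 2 → β t = 0 := by
    intro t
    induction t with
    | zero => intro _; exact z0
    | succ t ih =>
      intro ht
      by_cases c : P (t + 1) = true ∨ P t = true
      · rw [b1 t (by omega) c, ih (by omega), map_zero]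
      · push Not at c
        rw [h.b3 t ((hPf _).resolve_left c.1) ((hPf _).resolve_left c.2) (by omega),
          ih (by omega), map_zero, mul_zero]
  have z2 : γ (f - 1) = 0 := by rw [h.g4, z1 (f - 2) le_rfl, map_zero, mul_zero]
  have z3 : ∀ t, t ≤ f - 2 → γ t = 0 := by
    intro t
    induction t with
    | zero => intro _; rw [g0, z2, map_zero]
    | succ t ih =>
      intro ht
      by_cases c : P (t + 1) = true ∨ P t = true
      · rw [g1 t (by omega) c, ih (by omega), map_zero]
      · push Not at c
        have h5 := g3 t ((hPf _).resolve_left c.1) ((hPf _).resolve_left c.2) (by omega)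
        rw [ih (by omega), map_zero] at h5
        exact un_cancel (n := a (t + 1)) (by rw [h5, mul_zero])
  have z4 : β (f - 1) = 0 := by
    rw [z3 (f - 2) le_rfl, map_zero] at b4
    exact un_cancel (n := a (f - 1)) (by rw [b4, mul_zero])
  intro t ht
  by_cases c : t ≤ f - 2
  · exact ⟨z1 t c, z3 t c⟩
  · rw [show t = f - 1 by omega]
    exact ⟨z4, z2⟩

/-- the diagonal part -/
theorem diag_partP (hP : GoodP P f) {η : ℕ → LaurentSeries k} {n : ℕ → k}
    (h0 : η 0 = phi k p (η (f - 1)) + single (-1) (n 0))
    (h1 : ∀ t, t + 1 < f → (P (t + 1) = true ∨ P t = true) →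
      η (t + 1) = phi k p (η t) + single (-1) (n (t + 1)))
    (h2 : ∀ t, P (t + 1) = false → P t = false → t + 1 < f - 1 → η (t + 1) = phi k p (η t))
    (h3 : η (f - 1) = -phi k p (η (f - 2))) (hn : ∀ t, P t = false → n t = 0) {t : ℕ}
    (ht : t < f) : n t = 0 := by
  have hp := two_le_p (p := p)
  have hf3 := hP.three_le
  have hPf : ∀ t, P t = true ∨ P t = false := fun t => by cases P t <;> simp
  have key : ∀ i : Fin f, ¬ PL (η i) 1 := by
    apply no_poles
    rintro ⟨i, hi⟩ n' hn' hpl
    have hmono : n' + 1 ≤ p * n' := by nlinarith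
    by_cases c2 : i + 1 < f - 1
    · refine ⟨⟨i + 1, by omega⟩, ?_⟩
      show PL (η (i + 1)) (n' + 1)
      by_cases c : P (i + 1) = true ∨ P i = true
      · rw [h1 i (by omega) c]
        exact (phi_pole hn' hpl _).mono hmono
      · push Not at c
        rw [h2 i ((hPf _).resolve_left c.1) ((hPf _).resolve_left c.2) c2]
        exact (hpl.phi).mono hmono
    · by_cases c3 : i + 1 = f - 1
      · refine ⟨⟨f - 1, by omega⟩, ?_⟩
        show PL (η (f - 1)) (n' + 1)
        rw [h3]
        have e : f - 2 = i := by omega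
        rw [e]
        obtain ⟨j, hj, hj'⟩ := ((hpl.phi (p := p)).mono hmono)
        refine ⟨j, hj, ?_⟩
        rw [coeff_neg]
        exact neg_ne_zero.2 hj'
      · refine ⟨⟨0, by omega⟩, ?_⟩
        show PL (η 0) (n' + 1)
        rw [h0]
        have e : f - 1 = i := by omega
        rw [e]
        exact (phi_pole hn' hpl _).mono hmono
  have hge : ∀ t, t < f → GE (η t) 0 := fun t ht => not_PL (key ⟨t, ht⟩)
  rcases hPf t with hc | hc
  · rcases Nat.eq_zero_or_pos t with h4 | h4
    · subst h4
      have h5 := hge 0 (by omega) (-1) (by norm_num)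
      rw [h0, coeff_add, phi_coeff_neg_one, zero_add, coeff_single_same] at h5
      exact h5
    · obtain ⟨s, rfl⟩ : ∃ s, t = s + 1 := ⟨t - 1, by omega⟩
      have h5 := hge (s + 1) ht (-1) (by norm_num)
      rw [h1 s ht (Or.inl hc), coeff_add, phi_coeff_neg_one, zero_add, coeff_single_same] at h5
      exact h5
  · exact hn t hc

end

end Pool.Agent.Lib.MP_74d0c9_nt
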