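import Pool.Agent.Lib.MP_74d0c9_nt.Count

/-!
Monomials in a subalgebra, and the number of the pairs of exponents for several words.
-/

set_option autoImplicit false

namespace Pool.Agent.Lib.MP_74d0c9_nt

open Finset

universe u

section
variable {k A : Type u} [Field k] [CommRing A] [Algebra k A] {Λ ι : Type} [Fintype Λ] [Fintype ι]
  [DecidableEq ι] [DecidableEq Λ]

/-- the monomials which belong to a subalgebra -/
theorem mon_mem (S : Subalgebra k A) (l : Λ → A) (y : ι → A) (W : Λ → Finset ι)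
    (hW : ∀ r r' v, v ∈ W r → v ∈ W r' → r = r') (hy : ∀ v, y v ∈ S)
    (h1 : ∀ r, ∀ v ∈ W r, y v * l r ∈ S) (h2 : ∀ r, ∀ v ∈ W r, y v * l r ^ 2 ∈ S) (e : ι →₀ ℕ) :
    ∀ j : Λ → ℕ, (∀ r, j r ≤ 2 * ∑ v ∈ W r, e v) → (∏ r, l r ^ j r) * ∏ v, y v ^ e v ∈ S := by
  have hadd : ∀ e e' : ι →₀ ℕ,
      (∀ j : Λ → ℕ, (∀ r, j r ≤ 2 * ∑ v ∈ W r, e v) → (∏ r, l r ^ j r) * ∏ v, y v ^ e v ∈ S) →
      (∀ j : Λ → ℕ, (∀ r, j r ≤ 2 * ∑ v ∈ W r, e' v) → (∏ r, l r ^ j r) * ∏ v, y v ^ e' v ∈ S) →
      ∀ j : Λ → ℕ, (∀ r, j r ≤ 2 * ∑ v ∈ W r, (e + e' : ι →₀ ℕ) v) →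
        (∏ r, l r ^ j r) * ∏ v, y v ^ (e + e' : ι →₀ ℕ) v ∈ S := by
    intro e e' h h' j hj
    have e1 : ∀ r, ∑ v ∈ W r, (e + e' : ι →₀ ℕ) v = ∑ v ∈ W r, e v + ∑ v ∈ W r, e' v := by
      intro r
      simp only [Finsupp.add_apply, sum_add_distrib]
    have h3 := h (fun r => min (j r) (2 * ∑ v ∈ W r, e v)) fun r => min_le_right _ _
    have h4 := h' (fun r => j r - min (j r) (2 * ∑ v ∈ W r, e v)) fun r => by
      have := hj r
      rw [e1] at this
      show j r - min (j r) (2 * ∑ v ∈ W r, e v) ≤ 2 * ∑ v ∈ W r, e' v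
      omega
    have e2 : (∏ r, l r ^ j r) = (∏ r, l r ^ min (j r) (2 * ∑ v ∈ W r, e v)) *
        ∏ r, l r ^ (j r - min (j r) (2 * ∑ v ∈ W r, e v)) := by
      rw [← prod_mul_distrib]
      refine prod_congr rfl fun r _ => ?_
      rw [← pow_add]
      congr 1
      omega
    have e3 : (∏ v, y v ^ (e + e' : ι →₀ ℕ) v) = (∏ v, y v ^ e v) * ∏ v, y v ^ e' v := by
      rw [← prod_mul_distrib]
      refine prod_congr rfl fun v _ => ?_
      rw [← pow_add]
      rfl
    rw [e2, e3]
    have h5 := S.mul_mem h3 h4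
    have e4 : ∀ a b c d : A, a * b * (c * d) = a * c * (b * d) := fun a b c d => by ring
    rw [e4]
    exact h5
  have hzero : ∀ j : Λ → ℕ, (∀ r, j r ≤ 2 * ∑ v ∈ W r, (0 : ι →₀ ℕ) v) →
      (∏ r, l r ^ j r) * ∏ v, y v ^ (0 : ι →₀ ℕ) v ∈ S := by
    intro j hj
    have e1 : ∀ r, j r = 0 := by
      intro r
      have h3 := hj r
      have h4 : ∑ v ∈ W r, (0 : ι →₀ ℕ) v = 0 := sum_eq_zero fun _ _ => rfl
      omega
    rw [prod_eq_one, prod_eq_one, one_mul]
    · exact S.one_mem
    · intro v _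
      exact pow_zero _
    · intro r _
      rw [e1, pow_zero]
  have hone : ∀ v0 : ι, ∀ j : Λ → ℕ, (∀ r, j r ≤ 2 * ∑ v ∈ W r, (Finsupp.single v0 1 : ι →₀ ℕ) v) →
      (∏ r, l r ^ j r) * ∏ v, y v ^ (Finsupp.single v0 1 : ι →₀ ℕ) v ∈ S := by
    intro v0 j hj
    have e1 : (∏ v, y v ^ (Finsupp.single v0 1 : ι →₀ ℕ) v) = y v0 := by
      rw [prod_eq_single v0]
      · rw [Finsupp.single_eq_same, pow_one]
      · intro b _ hb
        rw [Finsupp.single_apply, if_neg (Ne.symm hb), pow_zero]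
      · intro h
        exact absurd (mem_univ v0) h
    have e2 : ∀ r, v0 ∉ W r → j r = 0 := by
      intro r hr
      have h3 := hj r
      have h4 : ∑ v ∈ W r, (Finsupp.single v0 1 : ι →₀ ℕ) v = 0 := by
        apply sum_eq_zero
        intro b hb
        rw [Finsupp.single_apply, if_neg]
        rintro rfl
        exact hr hb
      omega
    rw [e1]
    by_cases hex : ∃ r, v0 ∈ W r
    · obtain ⟨r0, hr0⟩ := hex
      have e3 : (∏ r, l r ^ j r) = l r0 ^ j r0 := by
        apply prod_eq_single r0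
        · intro r _ hr
          rw [e2 r, pow_zero]
          intro hc
          exact hr (hW _ _ _ hc hr0)
        · intro h
          exact absurd (mem_univ r0) h
      have h3 := hj r0
      have h4 : ∑ v ∈ W r0, (Finsupp.single v0 1 : ι →₀ ℕ) v = 1 := by
        rw [sum_eq_single v0]
        · exact Finsupp.single_eq_same
        · intro b _ hb
          rw [Finsupp.single_apply, if_neg (Ne.symm hb)]
        · intro h
          exact absurd hr0 h
      rw [h4] at h3
      rw [e3, mul_comm]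
      obtain ⟨c, hc⟩ : ∃ c, c = j r0 := ⟨_, rfl⟩
      rw [← hc] at h3 ⊢
      interval_cases c
      · rw [pow_zero, mul_one]
        exact hy v0
      · rw [pow_one]
        exact h1 r0 v0 hr0
      · exact h2 r0 v0 hr0
    · push Not at hex
      rw [prod_eq_one, one_mul]
      · exact hy v0
      · intro r _
        rw [e2 r (hex r), pow_zero]
  have hsingle : ∀ (v0 : ι) (b : ℕ), ∀ j : Λ → ℕ,
      (∀ r, j r ≤ 2 * ∑ v ∈ W r, (Finsupp.single v0 b : ι →₀ ℕ) v) →
      (∏ r, l r ^ j r) * ∏ v, y v ^ (Finsupp.single v0 b : ι →₀ ℕ) v ∈ S := by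
    intro v0 b
    induction b with
    | zero => rw [Finsupp.single_zero]; exact hzero
    | succ b ih =>
      rw [Finsupp.single_add]
      exact hadd _ _ ih (hone v0)
  induction e using Finsupp.induction_linear with
  | zero => exact hzero
  | add e e' h h' => exact hadd e e' h h'
  | single i b => exact hsingle i b

omit [DecidableEq ι] [Fintype ι] in
/-- the dimension of a subalgebra which contains independent elements -/
theorem card_le_of_mem [Module.Finite k A] {κ : Type} [Fintype κ] (S : Subalgebra k A) (v : κ → A)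
    (hv : ∀ i, v i ∈ S) (h : LinearIndependent k v) : Fintype.card κ ≤ Module.finrank k S := by
  have h1 : LinearIndependent k fun i => (⟨v i, hv i⟩ : S) :=
    LinearIndependent.of_comp S.val.toLinearMap h
  exact h1.fintype_card_le_finrank

end

/-- division by `1 + s` in a subalgebra -/
theorem mem_of_unit_mul {k A : Type u} [Field k] [CommRing A] [Algebra k A] (S : Subalgebra k A)
    {s y : A} (hs : s ∈ S) (hn : IsNilpotent s) (h : (1 + s) * y ∈ S) : y ∈ S := by
  have h1 : IsNilpotent (⟨s, hs⟩ : S) := by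
    obtain ⟨m, hm⟩ := hn
    exact ⟨m, Subtype.ext hm⟩
  obtain ⟨v, hv⟩ := h1.isUnit_one_add
  have h2 : ((v⁻¹ : Sˣ) : S).1 * (1 + s) = 1 := by
    have h3 : ((v⁻¹ : Sˣ) : S) * (v : S) = 1 := v.inv_mul
    rw [hv] at h3
    exact congrArg Subtype.val h3
  have h4 : y = ((v⁻¹ : Sˣ) : S).1 * ((1 + s) * y) := by
    rw [← mul_assoc, h2, one_mul]
  rw [h4]
  exact S.mul_mem ((v⁻¹ : Sˣ) : S).2 h

section
variable {ι : Type} [Fintype ι] [DecidableEq ι]

/-- one more unit in the coordinate `i` -/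
theorem sum_EE_mul_succ (i : ι) (G : (ι →₀ ℕ) → ℕ)
    (hG : ∀ e : ι →₀ ℕ, G (e + Finsupp.single i 1) = G e) (n : ℕ) :
    ∑ e ∈ EE ι (n + 1), e i * G e = ∑ e ∈ EE ι n, e i * G e + ∑ e ∈ EE ι n, G e := by
  rw [← sum_add_distrib]
  rw [← sum_filter_of_ne (s := EE ι (n + 1)) (p := fun e => e i ≠ 0)
    (fun e _ h => fun h0 => h (by rw [h0, zero_mul]))]
  symm
  refine sum_bij (fun e _ => e + Finsupp.single i 1) ?_ ?_ ?_ ?_
  · intro e he
    rw [mem_EE] at he
    rw [mem_filter, mem_EE]
    constructor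
    · have h1 : ∑ j, (e + Finsupp.single i 1 : ι →₀ ℕ) j = ∑ j, e j + 1 := by
        simp only [Finsupp.add_apply, sum_add_distrib]
        congr 1
        rw [sum_eq_single i]
        · simp
        · intro j _ hj
          rw [Finsupp.single_apply, if_neg (Ne.symm hj)]
        · intro h
          exact absurd (mem_univ i) h
      omega
    · simp
  · intro e _ e' _ h
    exact add_right_cancel h
  · intro e he
    rw [mem_filter, mem_EE] at he
    have hi : e i ≠ 0 := he.2
    refine ⟨e - Finsupp.single i 1, ?_, ?_⟩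
    · rw [mem_EE]
      have h1 : e - Finsupp.single i 1 + Finsupp.single i 1 = e := by
        apply tsub_add_cancel_of_le
        rw [Finsupp.single_le_iff]
        omega
      have h2 : ∑ j, e j = ∑ j, (e - Finsupp.single i 1 : ι →₀ ℕ) j + 1 := by
        conv_lhs => rw [← h1]
        simp only [Finsupp.add_apply, sum_add_distrib]
        congr 1
        rw [sum_eq_single i]
        · simp
        · intro j _ hj
          rw [Finsupp.single_apply, if_neg (Ne.symm hj)]
        · intro h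
          exact absurd (mem_univ i) h
      have := he.1
      omega
    · apply tsub_add_cancel_of_le
      rw [Finsupp.single_le_iff]
      omega
  · intro e _
    rw [hG, Finsupp.add_apply, Finsupp.single_eq_same]
    ring

/-- the sum of the products of some coordinates -/
theorem sum_EE_prod (hι : 1 ≤ Fintype.card ι) (V : Finset ι) (n : ℕ) :
    ∑ e ∈ EE ι n, ∏ v ∈ V, e v =
      (n + Fintype.card ι - 1).choose (Fintype.card ι + V.card) := by
  revert n
  induction V using Finset.induction_on with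
  | empty =>
    intro n
    rw [card_empty, add_zero, ← card_EE hι, card_eq_sum_ones]
    exact sum_congr rfl fun e _ => prod_empty
  | insert i V hi ih =>
    intro n
    have e1 : ∀ e : ι →₀ ℕ, ∏ v ∈ insert i V, e v = e i * ∏ v ∈ V, e v := fun e =>
      prod_insert hi
    simp only [e1]
    rw [card_insert_of_notMem hi]
    induction n with
    | zero =>
      have : EE ι 0 = ∅ := by
        ext e
        rw [mem_EE]
        simp
      rw [this, sum_empty, Nat.choose_eq_zero_of_lt (by omega)]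
    | succ n ihn =>
      rw [sum_EE_mul_succ i (fun e => ∏ v ∈ V, e v) ?_ n, ihn, ih n]
      · have h1 : n + 1 + Fintype.card ι - 1 = (n + Fintype.card ι - 1) + 1 := by omega
        have h2 : Fintype.card ι + (V.card + 1) = (Fintype.card ι + V.card) + 1 := by omega
        rw [h1, h2, Nat.choose_succ_succ, add_comm]
      · intro e
        refine prod_congr rfl fun v hv => ?_
        rw [Finsupp.add_apply, Finsupp.single_apply, if_neg, add_zero]
        rintro rfl
        exact hi hv

variable {Λ : Type} [Fintype Λ] [DecidableEq Λ]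

/-- the count for several words -/
theorem sum_EE_words (hι : 1 ≤ Fintype.card ι) (W : Λ → Finset ι)
    (hW : ∀ r r' v, v ∈ W r → v ∈ W r' → r = r') (n : ℕ) :
    ∑ e ∈ EE ι n, ∏ r, (2 * ∑ v ∈ W r, e v) = (∏ r, 2 * (W r).card) *
      (n + Fintype.card ι - 1).choose (Fintype.card ι + Fintype.card Λ) := by
  have e1 : ∀ e : ι →₀ ℕ, ∏ r, (2 * ∑ v ∈ W r, e v) =
      2 ^ Fintype.card Λ * ∑ q ∈ Fintype.piFinset W, ∏ r, e (q r) := by
    intro e
    rw [prod_mul_distrib, prod_const, card_univ, prod_univ_sum]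
  have e2 : ∀ q ∈ Fintype.piFinset W, ∑ e ∈ EE ι n, ∏ r, e (q r) =
      (n + Fintype.card ι - 1).choose (Fintype.card ι + Fintype.card Λ) := by
    intro q hq
    rw [Fintype.mem_piFinset] at hq
    have hinj : Function.Injective q := by
      intro r r' h
      exact hW r r' (q r) (hq r) (by rw [h]; exact hq r')
    have e3 : ∀ e : ι →₀ ℕ, ∏ r, e (q r) = ∏ v ∈ univ.image q, e v := by
      intro e
      rw [prod_image fun a _ b _ h => hinj h]
    simp only [e3]
    rw [sum_EE_prod hι, card_image_of_injective _ hinj, card_univ]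
  simp only [e1]
  rw [← mul_sum, sum_comm, sum_congr rfl e2, sum_const, Fintype.card_piFinset, smul_eq_mul,
    prod_mul_distrib, prod_const, card_univ]
  ring

/-- the pairs of exponents for several words -/
noncomputable def EQ (W : Λ → Finset ι) (n : ℕ) : Finset ((ι →₀ ℕ) × (Λ → ℕ)) :=
  (EE ι n).biUnion fun e =>
    (Fintype.piFinset fun r => range (2 * ∑ v ∈ W r, e v + 1)).image fun j => (e, j)

theorem mem_EQ {W : Λ → Finset ι} {n : ℕ} {q : (ι →₀ ℕ) × (Λ → ℕ)} :
    q ∈ EQ W n ↔ ∑ i, q.1 i < n ∧ ∀ r, q.2 r ≤ 2 * ∑ v ∈ W r, q.1 v := by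
  unfold EQ
  rw [mem_biUnion]
  constructor
  · rintro ⟨e, he, h⟩
    rw [mem_image] at h
    obtain ⟨j, hj, rfl⟩ := h
    rw [mem_EE] at he
    rw [Fintype.mem_piFinset] at hj
    refine ⟨he, fun r => ?_⟩
    have := hj r
    rw [mem_range] at this
    exact Nat.lt_succ_iff.1 this
  · rintro ⟨h1, h2⟩
    refine ⟨q.1, mem_EE.2 h1, ?_⟩
    rw [mem_image]
    refine ⟨q.2, ?_, rfl⟩
    rw [Fintype.mem_piFinset]
    intro r
    rw [mem_range]
    exact Nat.lt_succ_iff.2 (h2 r)

theorem card_EQ (hι : 1 ≤ Fintype.card ι) (W : Λ → Finset ι)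
    (hW : ∀ r r' v, v ∈ W r → v ∈ W r' → r = r') (n : ℕ) :
    (∏ r, 2 * (W r).card) *
      (n + Fintype.card ι - 1).choose (Fintype.card ι + Fintype.card Λ) ≤ (EQ W n).card := by
  rw [← sum_EE_words hι W hW n]
  unfold EQ
  rw [card_biUnion]
  · refine sum_le_sum fun e _ => ?_
    rw [card_image_of_injective _ (fun a b h => (Prod.ext_iff.1 h).2), Fintype.card_piFinset]
    refine prod_le_prod' fun r _ => ?_
    rw [card_range]
    exact Nat.le_succ _
  · intro e _ e' _ hne
    rw [Function.onFun, disjoint_left]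
    intro q h h'
    rw [mem_image] at h h'
    obtain ⟨j, _, rfl⟩ := h
    obtain ⟨j', _, h3⟩ := h'
    exact hne (Prod.ext_iff.1 h3).1.symm

end

end Pool.Agent.Lib.MP_74d0c9_nt
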