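import Mathlib

/-!
The truncated polynomial ring `k[l_r, y_v]` modulo the monomials of degree at least `2 n` in some
`l_r` or of degree at least `n` in the `y_v`.
-/

set_option autoImplicit false

namespace Pool.Agent.Lib.MP_74d0c9_nt

open MvPolynomial

universe u

/-- powers of ideals -/
theorem ideal_pow_le {A : Type u} [CommRing A] (I : Ideal A) (J : ℕ → Ideal A) (h0 : J 0 = ⊤)
    (h : ∀ m, J m * I ≤ J (m + 1)) (m : ℕ) : I ^ m ≤ J m := by
  induction m with
  | zero => rw [h0]; exact le_top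
  | succ m ih =>
    rw [pow_succ]
    exact (Ideal.mul_mono_left ih).trans (h m)

section
variable (k : Type u) [Field k] (Λ ι : Type) [Fintype Λ] [Fintype ι] (n : ℕ)

/-- the exponents which are killed -/
def SS : Set (Λ ⊕ ι →₀ ℕ) :=
  {e | (∃ r : Λ, 2 * n ≤ e (Sum.inl r)) ∨ n ≤ ∑ i : ι, e (Sum.inr i)}

/-- the ideal of these monomials -/
noncomputable def II : Ideal (MvPolynomial (Λ ⊕ ι) k) :=
  Ideal.span ((fun s => monomial s (1 : k)) '' SS Λ ι n)

/-- the test algebra -/
abbrev AA : Type u := MvPolynomial (Λ ⊕ ι) k ⧸ II k Λ ι n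

variable {k Λ ι n}

theorem SS_mono {e e' : Λ ⊕ ι →₀ ℕ} (h : e ≤ e') (he : e ∈ SS Λ ι n) : e' ∈ SS Λ ι n := by
  rcases he with ⟨r, he⟩ | he
  · exact Or.inl ⟨r, he.trans (h (Sum.inl r))⟩
  · exact Or.inr (he.trans (Finset.sum_le_sum fun i _ => h (Sum.inr i)))

theorem mem_II {x : MvPolynomial (Λ ⊕ ι) k} :
    x ∈ II k Λ ι n ↔ ∀ e ∈ x.support, e ∈ SS Λ ι n := by
  unfold II
  rw [mem_ideal_span_monomial_image]
  constructor
  · intro h e he
    obtain ⟨s, hs, hle⟩ := h e he
    exact SS_mono hle hs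
  · intro h e he
    exact ⟨e, h e he, le_rfl⟩

theorem monomial_mem_II {e : Λ ⊕ ι →₀ ℕ} (he : e ∈ SS Λ ι n) : monomial e (1 : k) ∈ II k Λ ι n :=
  Ideal.subset_span ⟨e, he, rfl⟩

theorem finite_compl_SS : (SS Λ ι n)ᶜ.Finite := by
  have h : (SS Λ ι n)ᶜ ⊆ Set.range fun g : Λ ⊕ ι → Fin (2 * n + 1) =>
      Finsupp.equivFunOnFinite.symm fun o => (g o : ℕ) := by
    intro e he
    have he1 : ¬ ((∃ r : Λ, 2 * n ≤ e (Sum.inl r)) ∨ n ≤ ∑ i : ι, e (Sum.inr i)) := he
    push Not at he1
    refine ⟨fun o => ⟨e o, ?_⟩, ?_⟩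
    · cases o with
      | inl r =>
        have := he1.1 r
        omega
      | inr i =>
        have h2 : e (Sum.inr i) ≤ ∑ i : ι, e (Sum.inr i) :=
          Finset.single_le_sum (f := fun i : ι => e (Sum.inr i)) (fun _ _ => Nat.zero_le _)
            (Finset.mem_univ i)
        omega
    · ext o
      rfl
  exact (Set.finite_range _).subset h

/-- the class of a monomial -/
noncomputable def mo (k : Type u) [Field k] (n : ℕ) (e : Λ ⊕ ι →₀ ℕ) : AA k Λ ι n :=
  Ideal.Quotient.mk _ (monomial e 1)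

theorem mo_eq_zero {e : Λ ⊕ ι →₀ ℕ} (he : e ∈ SS Λ ι n) : mo k n e = 0 :=
  Ideal.Quotient.eq_zero_iff_mem.2 (monomial_mem_II he)

theorem mo_mul (e e' : Λ ⊕ ι →₀ ℕ) : mo k n e * mo k n e' = mo k n (e + e') := by
  unfold mo
  rw [← map_mul, monomial_mul, one_mul]

theorem mo_zero : mo k n (0 : Λ ⊕ ι →₀ ℕ) = 1 := map_one _

theorem mo_pow (e : Λ ⊕ ι →₀ ℕ) (m : ℕ) : mo k n e ^ m = mo k n (m • e) := by
  unfold mo
  rw [← map_pow, monomial_pow, one_pow]

theorem mk_eq_sum (x : MvPolynomial (Λ ⊕ ι) k) : (Ideal.Quotient.mk (II k Λ ι n)) x =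
    ∑ e ∈ x.support, (Ideal.Quotient.mk (II k Λ ι n)) (C (coeff e x)) * mo k n e := by
  conv_lhs => rw [x.as_sum]
  rw [map_sum]
  refine Finset.sum_congr rfl fun e _ => ?_
  unfold mo
  rw [← map_mul, C_mul_monomial, mul_one]

theorem finite_AA : Module.Finite k (AA k Λ ι n) := by
  classical
  have hf := finite_compl_SS (Λ := Λ) (ι := ι) (n := n)
  refine Module.finite_def.2 ⟨(hf.toFinset).image (mo k n), ?_⟩
  rw [eq_top_iff]
  rintro a -
  obtain ⟨x, rfl⟩ := Ideal.Quotient.mk_surjective a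
  rw [mk_eq_sum]
  refine Submodule.sum_mem _ fun e _ => ?_
  have h1 : (Ideal.Quotient.mk (II k Λ ι n)) (C (coeff e x)) * mo k n e =
      coeff e x • mo k n e := by
    unfold mo
    rw [← map_mul, C_mul', ← Ideal.Quotient.mkₐ_eq_mk k, map_smul]
  rw [h1]
  refine Submodule.smul_mem _ _ ?_
  by_cases he : e ∈ SS Λ ι n
  · rw [mo_eq_zero he]
    exact Submodule.zero_mem _
  · apply Submodule.subset_span
    rw [Finset.mem_coe, Finset.mem_image]
    exact ⟨e, hf.mem_toFinset.2 he, rfl⟩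

theorem linearIndependent_mo {κ : Type} (E : κ → Λ ⊕ ι →₀ ℕ) (hE : Function.Injective E)
    (hT : ∀ q, E q ∉ SS Λ ι n) : LinearIndependent k fun q => mo k n (E q) := by
  classical
  rw [linearIndependent_iff']
  intro s g hg i hi
  by_contra hc
  have h1 : (∑ e ∈ s, monomial (E e) (g e)) ∈ II k Λ ι n := by
    rw [← Ideal.Quotient.eq_zero_iff_mem, ← Ideal.Quotient.mkₐ_eq_mk k, map_sum, ← hg]
    refine Finset.sum_congr rfl fun e _ => ?_
    have h2 : monomial (E e) (g e) = g e • monomial (E e) (1 : k) := by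
      rw [smul_monomial, smul_eq_mul, mul_one]
    rw [h2, map_smul]
    rfl
  rw [mem_II] at h1
  refine hT i (h1 (E i) ?_)
  rw [mem_support_iff, coeff_sum, Finset.sum_eq_single i]
  · rw [coeff_monomial, if_pos rfl]
    exact hc
  · intro b _ hb
    rw [coeff_monomial, if_neg]
    exact fun h => hb (hE h)
  · intro h
    exact absurd hi h

theorem single_nilp (o : Λ ⊕ ι) : IsNilpotent (mo k n (Finsupp.single o 1)) := by
  refine ⟨2 * n, ?_⟩
  rw [mo_pow]
  apply mo_eq_zero
  rw [Finsupp.smul_single, smul_eq_mul, mul_one]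
  cases o with
  | inl r =>
    left
    exact ⟨r, by rw [Finsupp.single_eq_same]⟩
  | inr i =>
    right
    have h2 : (Finsupp.single (Sum.inr i) (2 * n) : Λ ⊕ ι →₀ ℕ) (Sum.inr i) ≤
        ∑ i' : ι, (Finsupp.single (Sum.inr i) (2 * n) : Λ ⊕ ι →₀ ℕ) (Sum.inr i') :=
      Finset.single_le_sum
        (f := fun i' : ι => (Finsupp.single (Sum.inr i) (2 * n) : Λ ⊕ ι →₀ ℕ) (Sum.inr i'))
        (fun _ _ => Nat.zero_le _) (Finset.mem_univ i)
    rw [Finsupp.single_eq_same] at h2
    omega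

theorem mo_nilp {e : Λ ⊕ ι →₀ ℕ} (he : e ≠ 0) : IsNilpotent (mo k n e) := by
  classical
  obtain ⟨o, ho⟩ : ∃ o, e o ≠ 0 := by
    by_contra hc
    push Not at hc
    exact he (Finsupp.ext hc)
  have h4 : mo k n e = mo k n (Finsupp.single o 1) * mo k n (e - Finsupp.single o 1) := by
    rw [mo_mul, add_tsub_cancel_of_le]
    rw [Finsupp.single_le_iff]
    omega
  rw [h4]
  exact (Commute.all _ _).isNilpotent_mul_right (single_nilp o)

/-- every element is a constant plus a nilpotent element -/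
theorem exists_const (a : AA k Λ ι n) : ∃ c : k, IsNilpotent (a - algebraMap k (AA k Λ ι n) c) := by
  classical
  obtain ⟨x, rfl⟩ := Ideal.Quotient.mk_surjective a
  refine ⟨coeff 0 x, ?_⟩
  have h1 : algebraMap k (AA k Λ ι n) (coeff 0 x) =
      (Ideal.Quotient.mk (II k Λ ι n)) (C (coeff 0 x)) := rfl
  rw [h1, ← map_sub, mk_eq_sum, ← mem_nilradical]
  refine Ideal.sum_mem _ fun e he => Ideal.mul_mem_left _ _ ?_
  rw [mem_nilradical]
  apply mo_nilp
  rintro rfl
  rw [mem_support_iff, coeff_sub, coeff_C, if_pos rfl, sub_self] at he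
  exact he rfl

theorem nontrivial_AA (hn : 0 < n) : Nontrivial (AA k Λ ι n) := by
  refine Ideal.Quotient.nontrivial_iff.2 ?_
  intro h
  have h1 : (1 : MvPolynomial (Λ ⊕ ι) k) ∈ II k Λ ι n := by
    rw [h]; trivial
  rw [mem_II] at h1
  have h2 := h1 0 (by
    rw [mem_support_iff, coeff_zero_one]
    exact one_ne_zero)
  rcases h2 with ⟨r, h2⟩ | h2
  · have : (0 : Λ ⊕ ι →₀ ℕ) (Sum.inl r) = 0 := rfl
    omega
  · have : ∑ i : ι, (0 : Λ ⊕ ι →₀ ℕ) (Sum.inr i) = 0 := Finset.sum_eq_zero fun _ _ => rfl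
    omega

end

section
variable {k A : Type u} [Field k] [CommRing A] [Algebra k A]

theorem isUnit_of_const (c : k) (hc : c ≠ 0) (a : A) (h : IsNilpotent (a - algebraMap k A c)) :
    IsUnit a := by
  have h2 : IsUnit (algebraMap k A c) := (IsUnit.mk0 _ hc).map (algebraMap k A)
  have h3 := IsNilpotent.isUnit_add_right_of_commute h h2 (Commute.all _ _)
  rwa [sub_add_cancel] at h3

theorem isLocal_of_const [Nontrivial A]
    (h : ∀ a : A, ∃ c : k, IsNilpotent (a - algebraMap k A c)) : IsLocalRing A := by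
  refine IsLocalRing.of_isUnit_or_isUnit_one_sub_self fun a => ?_
  obtain ⟨c, hc⟩ := h a
  by_cases h0 : c = 0
  · right
    rw [h0, map_zero, sub_zero] at hc
    exact hc.isUnit_one_sub
  · left
    exact isUnit_of_const c h0 a hc

theorem nilp_mem [IsLocalRing A] {a : A} (h : IsNilpotent a) : a ∈ IsLocalRing.maximalIdeal A := by
  rw [IsLocalRing.mem_maximalIdeal, mem_nonunits_iff]
  intro hu
  obtain ⟨m, hm⟩ := h
  have := hu.pow m
  rw [hm] at this
  exact not_isUnit_zero this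

theorem surj_of_const [IsLocalRing A]
    (h : ∀ a : A, ∃ c : k, IsNilpotent (a - algebraMap k A c)) :
    Function.Surjective (algebraMap k (IsLocalRing.ResidueField A)) := by
  intro y
  obtain ⟨a, rfl⟩ := IsLocalRing.residue_surjective y
  obtain ⟨c, hc⟩ := h a
  refine ⟨c, ?_⟩
  have h1 : algebraMap k (IsLocalRing.ResidueField A) c =
    IsLocalRing.residue A (algebraMap k A c) := rfl
  rw [h1, eq_comm, ← sub_eq_zero, ← map_sub, IsLocalRing.residue_eq_zero_iff]
  exact nilp_mem hc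

end

section
variable {k : Type u} [Field k] {Λ ι : Type} [Fintype Λ] [Fintype ι] {n : ℕ}

/-- products of `n` elements of the ideal of the `y_v` vanish -/
theorem pow_vy : (Ideal.span (Set.range fun i : ι =>
    mo (Λ := Λ) k n (Finsupp.single (Sum.inr i) 1))) ^ n = ⊥ := by
  classical
  rw [eq_bot_iff]
  have h := ideal_pow_le (Ideal.span (Set.range fun i : ι =>
    mo (Λ := Λ) k n (Finsupp.single (Sum.inr i) 1)))
    (fun m => Ideal.span (mo k n '' {e : Λ ⊕ ι →₀ ℕ | m ≤ ∑ i : ι, e (Sum.inr i)})) ?_ ?_ n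
  · refine h.trans ?_
    rw [Ideal.span_le]
    rintro _ ⟨e, he, rfl⟩
    exact mo_eq_zero (Or.inr he)
  · rw [Ideal.eq_top_iff_one]
    exact Ideal.subset_span ⟨0, Nat.zero_le _, mo_zero⟩
  · intro m
    rw [Ideal.span_mul_span', Ideal.span_le]
    rintro _ ⟨_, ⟨e, he, rfl⟩, _, ⟨i, rfl⟩, rfl⟩
    refine Ideal.subset_span ⟨e + Finsupp.single (Sum.inr i) 1, ?_, ?_⟩
    · show m + 1 ≤ ∑ j : ι, (e + Finsupp.single (Sum.inr i) 1 : Λ ⊕ ι →₀ ℕ) (Sum.inr j)
      have h2 : ∑ j : ι, (e + Finsupp.single (Sum.inr i) 1 : Λ ⊕ ι →₀ ℕ) (Sum.inr j) =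
          ∑ j : ι, e (Sum.inr j) + 1 := by
        simp only [Finsupp.add_apply, Finset.sum_add_distrib]
        congr 1
        rw [Finset.sum_eq_single i]
        · rw [Finsupp.single_eq_same]
        · intro j _ hj
          rw [Finsupp.single_apply, if_neg]
          exact fun h => hj (Sum.inr.inj h).symm
        · intro h
          exact absurd (Finset.mem_univ i) h
      have he' : m ≤ ∑ j : ι, e (Sum.inr j) := he
      omega
    · exact (mo_mul _ _).symm

/-- a monomial as a product -/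
theorem mo_prod (a : Λ → ℕ) (b : ι → ℕ) :
    (∏ r, mo (ι := ι) k n (Finsupp.single (Sum.inl r) 1) ^ a r) *
      ∏ v, mo (Λ := Λ) k n (Finsupp.single (Sum.inr v) 1) ^ b v =
      mo k n (Finsupp.equivFunOnFinite.symm (Sum.elim a b)) := by
  classical
  have h1 : ∀ (s : Finset Λ), (∏ r ∈ s, mo (ι := ι) k n (Finsupp.single (Sum.inl r) 1) ^ a r) =
      mo k n (∑ r ∈ s, Finsupp.single (Sum.inl r) (a r)) := by
    intro s
    induction s using Finset.induction_on with
    | empty => rw [Finset.prod_empty, Finset.sum_empty]; exact mo_zero.symm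
    | insert r s hr ih =>
      rw [Finset.prod_insert hr, Finset.sum_insert hr, ih, mo_pow, mo_mul, Finsupp.smul_single,
        smul_eq_mul, mul_one]
  have h2 : ∀ (s : Finset ι), (∏ r ∈ s, mo (Λ := Λ) k n (Finsupp.single (Sum.inr r) 1) ^ b r) =
      mo k n (∑ r ∈ s, Finsupp.single (Sum.inr r) (b r)) := by
    intro s
    induction s using Finset.induction_on with
    | empty => rw [Finset.prod_empty, Finset.sum_empty]; exact mo_zero.symm
    | insert r s hr ih =>
      rw [Finset.prod_insert hr, Finset.sum_insert hr, ih, mo_pow, mo_mul, Finsupp.smul_single,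
        smul_eq_mul, mul_one]
  rw [h1, h2, mo_mul]
  congr 1
  ext o
  rw [Finsupp.add_apply, Finsupp.finsetSum_apply, Finsupp.finsetSum_apply]
  cases o with
  | inl r =>
    rw [Finset.sum_eq_single r, Finset.sum_eq_zero, Finsupp.single_eq_same, add_zero]
    · rfl
    · intro v _
      rw [Finsupp.single_apply, if_neg (by simp)]
    · intro r' _ hr'
      rw [Finsupp.single_apply, if_neg]
      exact fun h => hr' (Sum.inl.inj h)
    · intro h
      exact absurd (Finset.mem_univ r) h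
  | inr v =>
    rw [Finset.sum_eq_zero, Finset.sum_eq_single v, Finsupp.single_eq_same, zero_add]
    · rfl
    · intro r' _ hr'
      rw [Finsupp.single_apply, if_neg]
      exact fun h => hr' (Sum.inr.inj h)
    · intro h
      exact absurd (Finset.mem_univ v) h
    · intro r _
      rw [Finsupp.single_apply, if_neg (by simp)]

end

end Pool.Agent.Lib.MP_74d0c9_nt
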