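import Pool.Agent.Lib.MP_74d0c9_nt.UDefs
import Pool.Agent.Lib.MP_74d0c9_nt.Count
import Pool.Agent.Lib.MP_74d0c9_nt.TruncA
import Pool.Agent.Lib.MP_74d0c9_nt.MonA

/-!
The test algebras: truncated polynomial rings, and the dimension of the subalgebra generated by the
coordinates.
-/

set_option autoImplicit false

namespace Pool.Agent.Lib.MP_74d0c9_nt

universe u

/-- the truncated polynomial ring -/
theorem exists_truncG (k : Type u) [Field k] (Λ ι : Type) [Fintype Λ] [Fintype ι] (n : ℕ)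
    (hn : 0 < n) :
    ∃ (A : Type u) (_ : CommRing A) (_ : Algebra k A) (_ : IsLocalRing A) (l : Λ → A) (y : ι → A),
      IsTest k A ∧ (∀ r, l r ∈ IsLocalRing.maximalIdeal A) ∧
        (∀ v, y v ∈ IsLocalRing.maximalIdeal A) ∧ (∀ v, IsNilpotent (y v)) ∧
        Ideal.span (Set.range y) ^ n = ⊥ ∧
        LinearIndependent k fun e : {e : (Λ → ℕ) × (ι → ℕ) //
            (∀ r, e.1 r < 2 * n) ∧ ∑ v, e.2 v < n} =>
          (∏ r, l r ^ e.1.1 r) * ∏ v, y v ^ e.1.2 v := by
  classical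
  have : Nontrivial (AA k Λ ι n) := nontrivial_AA hn
  have hloc : IsLocalRing (AA k Λ ι n) := isLocal_of_const exists_const
  refine ⟨AA k Λ ι n, inferInstance, inferInstance, hloc,
    fun r => mo k n (Finsupp.single (Sum.inl r) 1), fun v => mo k n (Finsupp.single (Sum.inr v) 1),
    ⟨finite_AA, surj_of_const exists_const⟩, fun r => nilp_mem (single_nilp _),
    fun v => nilp_mem (single_nilp _), fun v => single_nilp _, pow_vy, ?_⟩
  have h := linearIndependent_mo (k := k) (n := n)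
    (fun e : {e : (Λ → ℕ) × (ι → ℕ) // (∀ r, e.1 r < 2 * n) ∧ ∑ v, e.2 v < n} =>
      (Finsupp.equivFunOnFinite.symm (Sum.elim e.1.1 e.1.2) : Λ ⊕ ι →₀ ℕ)) ?_ ?_
  · simp only [mo_prod]
    exact h
  · intro e e' he
    have h1 := Finsupp.equivFunOnFinite.symm.injective he
    apply Subtype.ext
    refine Prod.ext ?_ ?_
    · funext r
      exact congrFun h1 (Sum.inl r)
    · funext v
      exact congrFun h1 (Sum.inr v)
  · rintro e (⟨r, hr⟩ | hv)
    · have h1 := e.2.1 r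
      have h2 : (Finsupp.equivFunOnFinite.symm (Sum.elim e.1.1 e.1.2) : Λ ⊕ ι →₀ ℕ) (Sum.inl r) =
          e.1.1 r := rfl
      omega
    · have h1 := e.2.2
      have h2 : ∑ i : ι, (Finsupp.equivFunOnFinite.symm (Sum.elim e.1.1 e.1.2) :
        Λ ⊕ ι →₀ ℕ) (Sum.inr i) = ∑ i : ι, e.1.2 i := rfl
      omega

/-- ROW U5a (helper7). `A = k[l, y_v] / (l ^ (2 n), (y_v)_v ^ n)`. -/
theorem exists_trunc (k : Type u) [Field k] (ι : Type) [Fintype ι] (n : ℕ) (hn : 0 < n) :
    ∃ (A : Type u) (_ : CommRing A) (_ : Algebra k A) (_ : IsLocalRing A) (l : A) (y : ι → A),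
      IsTest k A ∧ l ∈ IsLocalRing.maximalIdeal A ∧ (∀ v, y v ∈ IsLocalRing.maximalIdeal A) ∧
        Ideal.span (Set.range y) ^ n = ⊥ ∧
        LinearIndependent k fun e : {e : ℕ × (ι → ℕ) // e.1 < 2 * n ∧ ∑ v, e.2 v < n} =>
          l ^ e.1.1 * ∏ v, y v ^ e.1.2 v := by
  obtain ⟨A, hA1, hA2, hA3, l, y, hT, hl, hy, -, hp, hli⟩ := exists_truncG k Unit ι n hn
  refine ⟨A, hA1, hA2, hA3, l (), y, hT, hl (), hy, hp, ?_⟩
  have h := hli.comp (fun e : {e : ℕ × (ι → ℕ) // e.1 < 2 * n ∧ ∑ v, e.2 v < n} =>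
    (⟨(fun _ : Unit => e.1.1, e.1.2), fun _ => e.2.1, e.2.2⟩ :
      {e : (Unit → ℕ) × (ι → ℕ) // (∀ r, e.1 r < 2 * n) ∧ ∑ v, e.2 v < n})) ?_
  · have e1 : ((fun e : {e : (Unit → ℕ) × (ι → ℕ) // (∀ r, e.1 r < 2 * n) ∧ ∑ v, e.2 v < n} =>
          (∏ r, l r ^ e.1.1 r) * ∏ v, y v ^ e.1.2 v) ∘
        (fun e : {e : ℕ × (ι → ℕ) // e.1 < 2 * n ∧ ∑ v, e.2 v < n} =>
    (⟨(fun _ : Unit => e.1.1, e.1.2), fun _ => e.2.1, e.2.2⟩ :
      {e : (Unit → ℕ) × (ι → ℕ) // (∀ r, e.1 r < 2 * n) ∧ ∑ v, e.2 v < n}))) =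
        fun e => l () ^ e.1.1 * ∏ v, y v ^ e.1.2 v := by
      funext e
      simp
    rw [e1] at h
    exact h
  · intro e e' he
    have h1 : e.1.1 = e'.1.1 := congrArg (fun z => z.1.1 ()) he
    have h2 : e.1.2 = e'.1.2 := congrArg (fun z => z.1.2) he
    exact Subtype.ext (Prod.ext h1 h2)

/-- the coordinates, for several words -/
def cM {A : Type u} [CommRing A] {J S O : Type} [DecidableEq S] (t0 : S) (ω : S → J) (l : J → A)
    (s : A) (w : S → A) (x : O → A) : Unit ⊕ ((S × Fin 3) ⊕ O) → A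
  | Sum.inl _ => s
  | Sum.inr (Sum.inl y) => (if y.1 = t0 then 1 + s else 1) * w y.1 * l (ω y.1) ^ (y.2 : ℕ)
  | Sum.inr (Sum.inr y) => x y

/-- the positions of a word -/
noncomputable def WW {J S O : Type} [Fintype S] [DecidableEq J] [DecidableEq (Unit ⊕ (S ⊕ O))]
    (ω : S → J) (j : J) : Finset (Unit ⊕ (S ⊕ O)) :=
  (Finset.univ.filter fun t => ω t = j).image fun t => Sum.inr (Sum.inl t)

theorem mem_WW {J S O : Type} [Fintype S] [DecidableEq J] [DecidableEq (Unit ⊕ (S ⊕ O))]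
    {ω : S → J} {j : J} {v : Unit ⊕ (S ⊕ O)} :
    v ∈ WW (O := O) ω j ↔ ∃ t, ω t = j ∧ Sum.inr (Sum.inl t) = v := by
  unfold WW
  rw [Finset.mem_image]
  constructor
  · rintro ⟨t, ht, rfl⟩
    exact ⟨t, (Finset.mem_filter.1 ht).2, rfl⟩
  · rintro ⟨t, ht, rfl⟩
    exact ⟨t, Finset.mem_filter.2 ⟨Finset.mem_univ _, ht⟩, rfl⟩

theorem WW_disj {J S O : Type} [Fintype S] [DecidableEq J] [DecidableEq (Unit ⊕ (S ⊕ O))]
    {ω : S → J} (r r' : J) (v : Unit ⊕ (S ⊕ O)) (h : v ∈ WW (O := O) ω r)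
    (h' : v ∈ WW (O := O) ω r') : r = r' := by
  obtain ⟨t, ht, rfl⟩ := mem_WW.1 h
  obtain ⟨t', ht', h2⟩ := mem_WW.1 h'
  have h3 : t' = t := Sum.inl.inj (Sum.inr.inj h2)
  rw [← ht, ← ht', h3]

theorem card_WW {J S O : Type} [Fintype S] [DecidableEq J] [DecidableEq (Unit ⊕ (S ⊕ O))]
    (ω : S → J) (j : J) : (WW (O := O) ω j).card = Fintype.card {t : S // ω t = j} := by
  unfold WW
  rw [Finset.card_image_of_injective _ fun a b h => Sum.inl.inj (Sum.inr.inj h),
    Fintype.card_subtype]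

/-- the test algebra and the monomials in the subalgebra of the coordinates -/
theorem exists_gen (k : Type u) [Field k] (J S O : Type) [Fintype J] [Fintype S] [Fintype O]
    [DecidableEq J] [DecidableEq S] [DecidableEq (Unit ⊕ (S ⊕ O))] (t0 : S) (ω : S → J) (n : ℕ)
    (hn : 0 < n) :
    ∃ (A : Type u) (_ : CommRing A) (_ : Algebra k A) (_ : IsLocalRing A) (l : J → A) (s : A)
      (w : S → A) (x : O → A),
      IsTest k A ∧ IsUnit (1 + s) ∧
        (∀ v, cM t0 ω l s w x v ∈ IsLocalRing.maximalIdeal A) ∧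
        Ideal.span (Set.range (cM t0 ω l s w x)) ^ n = ⊥ ∧
        (EQ (WW (O := O) ω) n).card ≤
          Module.finrank k (Algebra.adjoin k (Set.range (cM t0 ω l s w x))) := by
  obtain ⟨A, hA1, hA2, hA3, l, y, hT, hl, hy, hny, hp, hli⟩ :=
    exists_truncG k J (Unit ⊕ (S ⊕ O)) n hn
  obtain ⟨s, hs⟩ : ∃ s, s = y (Sum.inl ()) := ⟨_, rfl⟩
  obtain ⟨w, hw⟩ : ∃ w : S → A, w = fun t => y (Sum.inr (Sum.inl t)) := ⟨_, rfl⟩
  obtain ⟨x, hx⟩ : ∃ x : O → A, x = fun t => y (Sum.inr (Sum.inr t)) := ⟨_, rfl⟩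
  have hsn : IsNilpotent s := hs ▸ hny _
  have hdiv : ∀ v, cM t0 ω l s w x v ∈ Ideal.span (Set.range y) := by
    have h1 : ∀ v, y v ∈ Ideal.span (Set.range y) := fun v => Ideal.subset_span ⟨v, rfl⟩
    rintro (v | ⟨q⟩ | v)
    · show s ∈ _
      rw [hs]
      exact h1 _
    · show (if q.1 = t0 then 1 + s else 1) * w q.1 * l (ω q.1) ^ (q.2 : ℕ) ∈ _
      refine Ideal.mul_mem_right _ _ (Ideal.mul_mem_left _ _ ?_)
      rw [hw]
      exact h1 _
    · show x v ∈ _
      rw [hx]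
      exact h1 _
  have hspan : Ideal.span (Set.range y) ≤ IsLocalRing.maximalIdeal A := by
    rw [Ideal.span_le]
    rintro _ ⟨v, rfl⟩
    exact hy v
  refine ⟨A, hA1, hA2, hA3, l, s, w, x, hT, hsn.isUnit_one_add, fun v => hspan (hdiv v), ?_, ?_⟩
  · rw [eq_bot_iff, ← hp]
    apply Ideal.pow_right_mono
    rw [Ideal.span_le]
    rintro _ ⟨v, rfl⟩
    exact hdiv v
  · have : Module.Finite k A := hT.finite
    set B := Algebra.adjoin k (Set.range (cM t0 ω l s w x)) with hB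
    have hc : ∀ v, cM t0 ω l s w x v ∈ B := fun v => Algebra.subset_adjoin ⟨v, rfl⟩
    have hsB : s ∈ B := hc (Sum.inl ())
    have hu : ∀ (t : S) (z : A), (if t = t0 then 1 + s else 1) * z ∈ B → z ∈ B := by
      intro t z hz
      by_cases ht : t = t0
      · rw [if_pos ht] at hz
        exact mem_of_unit_mul B hsB hsn hz
      · rw [if_neg ht, one_mul] at hz
        exact hz
    have hwl : ∀ (t : S) (d : Fin 3), y (Sum.inr (Sum.inl t)) * l (ω t) ^ (d : ℕ) ∈ B := by
      intro t d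
      refine hu t _ ?_
      have h1 : (if t = t0 then 1 + s else 1) * w t * l (ω t) ^ (d : ℕ) ∈ B :=
        hc (Sum.inr (Sum.inl (t, d)))
      rw [mul_assoc, hw] at h1
      exact h1
    have hyB : ∀ v, y v ∈ B := by
      rintro (v | t | v)
      · have h1 := hsB
        rw [hs] at h1
        exact h1
      · have h1 := hwl t 0
        have h2 : l (ω t) ^ ((0 : Fin 3) : ℕ) = 1 := pow_zero _
        rw [h2, mul_one] at h1
        exact h1
      · have h1 : x v ∈ B := hc (Sum.inr (Sum.inr v))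
        rw [hx] at h1
        exact h1
    have h1 : ∀ r, ∀ v ∈ WW (O := O) ω r, y v * l r ∈ B := by
      intro r v hv
      obtain ⟨t, rfl, rfl⟩ := mem_WW.1 hv
      have h1 := hwl t 1
      have h2 : l (ω t) ^ ((1 : Fin 3) : ℕ) = l (ω t) := pow_one _
      rw [h2] at h1
      exact h1
    have h2 : ∀ r, ∀ v ∈ WW (O := O) ω r, y v * l r ^ 2 ∈ B := by
      intro r v hv
      obtain ⟨t, rfl, rfl⟩ := mem_WW.1 hv
      exact hwl t 2
    have hmem := mon_mem B l y (WW (O := O) ω) WW_disj hyB h1 h2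
    have hlt : ∀ (q : EQ (WW (O := O) ω) n) (r : J), q.1.2 r < 2 * n := by
      intro q r
      have h5 := (mem_EQ.1 q.2).2 r
      have h6 := (mem_EQ.1 q.2).1
      have h7 : ∑ v ∈ WW (O := O) ω r, q.1.1 v ≤ ∑ v, q.1.1 v :=
        Finset.sum_le_sum_of_subset (Finset.subset_univ _)
      omega
    have h3 := card_le_of_mem B (κ := EQ (WW (O := O) ω) n)
      (fun q => (∏ r, l r ^ q.1.2 r) * ∏ v, y v ^ q.1.1 v)
      (fun q => hmem q.1.1 q.1.2 (mem_EQ.1 q.2).2) ?_
    · rw [Fintype.card_coe] at h3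
      exact h3
    · have h4 := hli.comp (fun q : EQ (WW (O := O) ω) n =>
        (⟨(q.1.2, fun v => q.1.1 v), hlt q, (mem_EQ.1 q.2).1⟩ :
          {e : (J → ℕ) × (Unit ⊕ (S ⊕ O) → ℕ) // (∀ r, e.1 r < 2 * n) ∧ ∑ v, e.2 v < n})) ?_
      · exact h4
      · intro q q' hq
        have h5 : q.1.2 = q'.1.2 := congrArg (fun z => z.1.1) hq
        have h6 : (fun v => q.1.1 v) = fun v => q'.1.1 v := congrArg (fun z => z.1.2) hq
        exact Subtype.ext (Prod.ext (DFunLike.coe_injective h6) h5)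

/-- D, several words (helper7) -/
theorem exists_testM (k : Type u) [Field k] (J S O : Type) [Fintype J] [Fintype S] [Fintype O]
    [DecidableEq J] [DecidableEq S] (t0 : S) (ω : S → J) (n : ℕ) (hn : 0 < n) :
    ∃ (A : Type u) (_ : CommRing A) (_ : Algebra k A) (_ : IsLocalRing A) (l : J → A) (s : A)
      (w : S → A) (x : O → A),
      IsTest k A ∧ IsUnit (1 + s) ∧
        (∀ v, cM t0 ω l s w x v ∈ IsLocalRing.maximalIdeal A) ∧
        Ideal.span (Set.range (cM t0 ω l s w x)) ^ n = ⊥ ∧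
        (∏ j : J, 2 * Fintype.card {t : S // ω t = j}) *
            (n + Fintype.card S + Fintype.card O).choose
              (1 + Fintype.card S + Fintype.card O + Fintype.card J) ≤
          Module.finrank k (Algebra.adjoin k (Set.range (cM t0 ω l s w x))) := by
  classical
  obtain ⟨A, hA1, hA2, hA3, l, s, w, x, hT, hu, hm, hp, hd⟩ := exists_gen k J S O t0 ω n hn
  refine ⟨A, hA1, hA2, hA3, l, s, w, x, hT, hu, hm, hp, le_trans ?_ hd⟩
  have hι : Fintype.card (Unit ⊕ (S ⊕ O)) = 1 + Fintype.card S + Fintype.card O := by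
    rw [Fintype.card_sum, Fintype.card_sum, Fintype.card_unit, add_assoc]
  have h1 := card_EQ (ι := Unit ⊕ (S ⊕ O)) (by omega) (WW (O := O) ω) WW_disj n
  have h2 : ∀ j, (WW (O := O) ω j).card = Fintype.card {t : S // ω t = j} := card_WW ω
  simp only [h2] at h1
  have e1 : n + Fintype.card (Unit ⊕ (S ⊕ O)) - 1 = n + Fintype.card S + Fintype.card O := by
    omega
  rw [e1, hι] at h1
  exact h1

theorem card_EP_le {ι : Type} [Fintype ι] [DecidableEq ι] (W : Unit → Finset ι) (n : ℕ) :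
    (EP (W ()) n).card ≤ (EQ W n).card := by
  refine Finset.card_le_card_of_injOn (fun q => (q.1, fun _ => q.2)) ?_ ?_
  · intro q hq
    have h1 := mem_EP.1 (Finset.mem_coe.1 hq)
    exact Finset.mem_coe.2 (mem_EQ.2 ⟨h1.1, fun _ => h1.2⟩)
  · intro q _ q' _ h
    have h1 : q.1 = q'.1 := congrArg (fun z => z.1) h
    have h2 : q.2 = q'.2 := congrArg (fun z => z.2 ()) h
    exact Prod.ext h1 h2

/-- ROW U5b (helper7). the coordinates `cu` in the algebra of U5a. -/
theorem exists_test (k : Type u) [Field k] {m f : ℕ} (hm : 2 ≤ m) (hmf : m < f) (n : ℕ)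
    (hn : 0 < n) :
    ∃ (A : Type u) (_ : CommRing A) (_ : Algebra k A) (_ : IsLocalRing A) (l s : A)
      (w : Fin (m - 1) → A) (x : Fin (f - m) → A),
      IsTest k A ∧ IsUnit (1 + s) ∧
        (∀ v, cu l s w x v ∈ IsLocalRing.maximalIdeal A) ∧
        Ideal.span (Set.range (cu l s w x)) ^ n = ⊥ ∧
        (n + f - 1).choose f + 2 * (m - 1) * (n + f - 1).choose (f + 1) ≤
          Module.finrank k (Algebra.adjoin k (Set.range (cu l s w x))) := by
  classical
  have hm1 : 0 < m - 1 := by omega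
  obtain ⟨A, hA1, hA2, hA3, l, s, w, x, hT, hu, hm', hp, hd⟩ :=
    exists_gen k Unit (Fin (m - 1)) (Fin (f - m)) ⟨0, hm1⟩ (fun _ => ()) n hn
  have hcu : cu (l ()) s w x = cM (⟨0, hm1⟩ : Fin (m - 1)) (fun _ => ()) l s w x := by
    funext v
    rcases v with v | q | v
    · rfl
    · show (if (q.1 : ℕ) = 0 then 1 + s else 1) * w q.1 * l () ^ (q.2 : ℕ) =
        (if q.1 = ⟨0, hm1⟩ then 1 + s else 1) * w q.1 * l () ^ (q.2 : ℕ)
      have h1 : ((q.1 : ℕ) = 0) ↔ q.1 = ⟨0, hm1⟩ := by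
        rw [Fin.ext_iff]
      simp only [h1]
    · rfl
  refine ⟨A, hA1, hA2, hA3, l (), s, w, x, hT, hu, ?_, ?_, ?_⟩
  · rw [hcu]
    exact hm'
  · rw [hcu]
    exact hp
  · rw [hcu]
    refine le_trans ?_ (le_trans (card_EP_le _ n) hd)
    have hι : Fintype.card (Unit ⊕ (Fin (m - 1) ⊕ Fin (f - m))) = f := by
      rw [Fintype.card_sum, Fintype.card_sum, Fintype.card_unit, Fintype.card_fin, Fintype.card_fin]
      omega
    rw [card_EP (by omega), hι, card_WW]
    have h2 : Fintype.card {t : Fin (m - 1) // (fun _ => () : Fin (m - 1) → Unit) t = ()} = m - 1 := by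
      simp
    rw [h2]

/-- ROW U8 (helper7 or free). -/
theorem finite_quot_pow (k R : Type u) [Field k] [CommRing R] [Algebra k R] [IsLocalRing R]
    [IsNoetherianRing R] (hres : Function.Surjective (algebraMap k (IsLocalRing.ResidueField R)))
    (n : ℕ) : Module.Finite k (R ⧸ IsLocalRing.maximalIdeal R ^ n) := by
  classical
  have hc : ∀ a : R, ∃ c : k, a - algebraMap k R c ∈ IsLocalRing.maximalIdeal R := by
    intro a
    obtain ⟨c, hc⟩ := hres (IsLocalRing.residue R a)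
    refine ⟨c, ?_⟩
    rw [← IsLocalRing.residue_eq_zero_iff, map_sub, sub_eq_zero, ← hc]
    rfl
  have key : ∀ n : ℕ, ∃ T : Finset R, ∀ x : R, ∃ y ∈ Submodule.span k (T : Set R),
      x - y ∈ IsLocalRing.maximalIdeal R ^ n := by
    intro n
    induction n with
    | zero =>
      refine ⟨∅, fun x => ⟨0, Submodule.zero_mem _, ?_⟩⟩
      rw [pow_zero, Ideal.one_eq_top]
      trivial
    | succ n ih =>
      obtain ⟨T, hT⟩ := ih
      obtain ⟨G, hG⟩ : (IsLocalRing.maximalIdeal R ^ n).FG := IsNoetherian.noetherian _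
      have h1 : ∀ z ∈ IsLocalRing.maximalIdeal R ^ n, ∃ y ∈ Submodule.span k (G : Set R),
          z - y ∈ IsLocalRing.maximalIdeal R ^ (n + 1) := by
        intro z hz
        rw [← hG] at hz
        induction hz using Submodule.span_induction with
        | mem z hz =>
          exact ⟨z, Submodule.subset_span hz, by rw [sub_self]; exact Ideal.zero_mem _⟩
        | zero => exact ⟨0, Submodule.zero_mem _, by rw [sub_self]; exact Ideal.zero_mem _⟩
        | add z z' _ _ h h' =>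
          obtain ⟨y, hy, hy'⟩ := h
          obtain ⟨y', hy1, hy1'⟩ := h'
          refine ⟨y + y', Submodule.add_mem _ hy hy1, ?_⟩
          rw [add_sub_add_comm]
          exact Ideal.add_mem _ hy' hy1'
        | smul a z hz h =>
          obtain ⟨y, hy, hy'⟩ := h
          obtain ⟨c, hc⟩ := hc a
          refine ⟨c • y, Submodule.smul_mem _ _ hy, ?_⟩
          have h2 : a • z - c • y = algebraMap k R c * (z - y) + z * (a - algebraMap k R c) := by
            rw [smul_eq_mul, Algebra.smul_def]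
            ring
          rw [h2]
          refine Ideal.add_mem _ (Ideal.mul_mem_left _ _ hy') ?_
          rw [pow_succ]
          refine Ideal.mul_mem_mul ?_ hc
          rw [← hG]
          exact hz
      refine ⟨T ∪ G, fun x => ?_⟩
      obtain ⟨y, hy, hy'⟩ := hT x
      obtain ⟨y', hy1, hy1'⟩ := h1 _ hy'
      refine ⟨y + y', Submodule.add_mem _ ?_ ?_, ?_⟩
      · refine Submodule.span_mono ?_ hy
        rw [Finset.coe_union]
        exact Set.subset_union_left
      · refine Submodule.span_mono ?_ hy1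
        rw [Finset.coe_union]
        exact Set.subset_union_right
      · rw [← sub_sub]
        exact hy1'
  obtain ⟨T, hT⟩ := key n
  refine Module.finite_def.2 ⟨T.image (Ideal.Quotient.mk (IsLocalRing.maximalIdeal R ^ n)), ?_⟩
  rw [eq_top_iff]
  rintro a -
  obtain ⟨x, rfl⟩ := Ideal.Quotient.mk_surjective a
  obtain ⟨y, hy, hxy⟩ := hT x
  have h1 : Ideal.Quotient.mk (IsLocalRing.maximalIdeal R ^ n) x =
      Ideal.Quotient.mk (IsLocalRing.maximalIdeal R ^ n) y := by
    rw [Ideal.Quotient.eq]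
    exact hxy
  rw [h1]
  have h2 := Submodule.mem_map_of_mem
    (f := (Ideal.Quotient.mkₐ k (IsLocalRing.maximalIdeal R ^ n)).toLinearMap) hy
  rw [Submodule.map_span] at h2
  rw [Finset.coe_image]
  exact h2

end Pool.Agent.Lib.MP_74d0c9_nt
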