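import Pool.Agent.Lib.MP_74d0c9_nt.ULoc

/-! Closed formal subspaces of the deformation space which contain a given family. -/

set_option autoImplicit false

namespace Pool.Agent.Lib.MP_74d0c9_nt

open HahnSeries IsLocalRing

universe u

section
variable {k : Type u} [Field k] {f p : ℕ} [Fact p.Prime] {B : ZMod f → Mat k}

theorem toA_map {A A' : Type u} [CommRing A] [Algebra k A] [CommRing A'] [Algebra k A']
    (g : A →ₐ[k] A') (P : Mat k) : (toA A P).map (lmap g.toRingHom) = toA A' P := by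
  refine Matrix.ext fun r s => ?_
  ext v
  exact g.commutes _

theorem map_lmap_sub {A A' : Type u} [CommRing A] [CommRing A'] (g : A →+* A') (X Y : Mat A) :
    (X - Y).map (lmap g) = X.map (lmap g) - Y.map (lmap g) :=
  Matrix.ext fun r s => map_sub (lmap g) (X r s) (Y r s)

theorem IsDef.map {A A' : Type u} [CommRing A] [Algebra k A] [CommRing A'] [Algebra k A']
    {I : Ideal A} {I' : Ideal A'} (g : A →ₐ[k] A') (hg : ∀ x ∈ I, g x ∈ I') {F : ZMod f → Mat A}
    (hF : IsDef B I F) : IsDef B I' fun j => (F j).map (lmap g.toRingHom) := by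
  intro j
  have h1 : MSmall I' ((F j - toA A (B j)).map (lmap g.toRingHom)) :=
    MSmall.map' g.toRingHom (hF j) hg
  rw [map_lmap_sub, toA_map] at h1
  exact h1

/-- a combination of directions, with coefficients in `A` -/
noncomputable def famA {ι : Type} [Fintype ι] (B : ZMod f → Mat k) (D : ι → ZMod f → Mat k)
    {A : Type u} [CommRing A] [Algebra k A] (c : ι → A) : ZMod f → Mat A :=
  fun j => toA A (B j) + ∑ s, (HahnSeries.C (c s) : LaurentSeries A) • toA A (D s j)

theorem famA_coeff {ι : Type} [Fintype ι] (B : ZMod f → Mat k) (D : ι → ZMod f → Mat k)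
    {A : Type u} [CommRing A] [Algebra k A] (c : ι → A) (j : ZMod f) (r s : Fin 2) (v : ℤ) :
    (famA B D c j r s).coeff v = algebraMap k A ((B j r s).coeff v) +
      ∑ i, c i * algebraMap k A ((D i j r s).coeff v) := by
  unfold famA
  rw [Matrix.add_apply, coeff_add, Matrix.sum_apply, coeff_sum']
  congr 1
  refine Finset.sum_congr rfl fun i _ => ?_
  rw [Matrix.smul_apply, smul_eq_mul, HahnSeries.C_mul_eq_smul]
  rfl

theorem famA_map {ι : Type} [Fintype ι] (B : ZMod f → Mat k) (D : ι → ZMod f → Mat k)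
    {A A' : Type u} [CommRing A] [Algebra k A] [CommRing A'] [Algebra k A'] (c : ι → A)
    (g : A →ₐ[k] A') (j : ZMod f) :
    (famA B D c j).map (lmap g.toRingHom) = famA B D (fun s => g (c s)) j := by
  refine Matrix.ext fun r s => ?_
  ext v
  show g ((famA B D c j r s).coeff v) = _
  rw [famA_coeff, famA_coeff, map_add, g.commutes, map_sum]
  congr 1
  refine Finset.sum_congr rfl fun i _ => ?_
  rw [map_mul, g.commutes]

theorem famA_zero {ι : Type} [Fintype ι] (B : ZMod f → Mat k) (D : ι → ZMod f → Mat k)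
    {A : Type u} [CommRing A] [Algebra k A] (j : ZMod f) :
    famA B D (fun _ => (0 : A)) j = toA A (B j) := by
  refine Matrix.ext fun r s => ?_
  ext v
  rw [famA_coeff]
  simp only [zero_mul, Finset.sum_const_zero, add_zero]
  rfl

theorem LL_famA {ι : Type} [Fintype ι] (B : ZMod f → Mat k) (D : ι → ZMod f → Mat k)
    {A : Type u} [CommRing A] [Algebra k A] (c : ι → A) (lam : A →ₗ[k] k) :
    LL lam (fun j => famA B D c j - toA A (B j)) = ∑ i, lam (c i) • D i := by
  refine W_ext fun j r s v => ?_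
  rw [LL_coeff]
  have h1 : ((∑ i, lam (c i) • D i) j r s).coeff v = ∑ i, lam (c i) * (D i j r s).coeff v := by
    rw [Finset.sum_apply, Matrix.sum_apply, coeff_sum']
    rfl
  have h2 : ((famA B D c j - toA A (B j)) r s).coeff v =
      ∑ i, c i * algebraMap k A ((D i j r s).coeff v) := by
    rw [Matrix.sub_apply, coeff_sub, famA_coeff]
    exact add_sub_cancel_left _ _
  rw [h1, h2, map_sum]
  refine Finset.sum_congr rfl fun i _ => ?_
  rw [mul_comm, ← Algebra.smul_def, map_smul, smul_eq_mul, mul_comm]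

/-- the family is in the closed formal subspace -/
theorem coordinates_mem {R : Type u} [CommRing R] [Algebra k R] [IsLocalRing R]
    (hres : Function.Surjective (algebraMap k (ResidueField R)))
    (H0 : ∀ C : ZMod f → Mat k, dk p B C = 0 →
      ∃ c : k, ∀ j, C j = (HahnSeries.C c : LaurentSeries k) • (1 : Mat k))
    {ι : Type} [Fintype ι] (D : ι → ZMod f → Mat k)
    (hD : ∀ (r : ι → k) (C : ZMod f → Mat k), ∑ s, r s • D s = dk p B C → r = 0)
    (𝓕 : Family B R) (hmono : 𝓕.IsMono p)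
    {A : Type u} [CommRing A] [Algebra k A] [IsLocalRing A] (hA : IsTest k A)
    (c : ι → A) (hc : ∀ s, c s ∈ maximalIdeal A) {n : ℕ}
    (ψ : (R ⧸ maximalIdeal R ^ n) →ₐ[k] A)
    (h : Eqv p (maximalIdeal A) (𝓕.push ψ) (famA B D c)) :
    (∀ s, c s ∈ ψ.range) ∧
      ∀ x ∈ maximalIdeal R, ψ (Ideal.Quotient.mk _ x) ∈ Ideal.span (Set.range c) := by
  have hfin := hA.finite
  have hn : n ≠ 0 := by
    rintro rfl
    have h1 : (1 : R ⧸ maximalIdeal R ^ 0) = 0 := by
      rw [← map_one (Ideal.Quotient.mk (maximalIdeal R ^ 0)), Ideal.Quotient.eq_zero_iff_mem,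
        pow_zero, Ideal.one_eq_top]
      exact Submodule.mem_top
    have h2 := congrArg ψ h1
    rw [map_one, map_zero] at h2
    exact one_ne_zero h2
  obtain ⟨V, σ, hDV, hσ, hV⟩ := exists_section p B D hD
  -- the image
  obtain ⟨S, hS⟩ : ∃ S : Subalgebra k A, S = ψ.range := ⟨_, rfl⟩
  obtain ⟨ψ', hψ', hψs⟩ : ∃ ψ' : (R ⧸ maximalIdeal R ^ n) →ₐ[k] S,
      (∀ y, (ψ' y : A) = ψ y) ∧ Function.Surjective ψ' := by
    subst hS
    exact ⟨ψ.rangeRestrict, fun y => rfl, AlgHom.rangeRestrict_surjective ψ⟩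
  let NS : Ideal S := (maximalIdeal A).comap S.val.toRingHom
  have hNS : ∀ x ∈ NS, S.val x ∈ maximalIdeal A := fun x hx => hx
  have hNSn : IsNilpotent NS := by
    obtain ⟨m, hm⟩ := hA.isNilpotent
    refine ⟨m, ?_⟩
    rw [Ideal.zero_eq_bot, eq_bot_iff]
    intro x hx
    have h1 : S.val.toRingHom x ∈ (maximalIdeal A) ^ m :=
      (Ideal.le_comap_pow S.val.toRingHom m) hx
    rw [hm] at h1
    exact Subtype.ext h1
  have hψN : ∀ y ∈ (maximalIdeal R).map (Ideal.Quotient.mk (maximalIdeal R ^ n)), ψ' y ∈ NS := by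
    intro y hy
    show (ψ' y : A) ∈ maximalIdeal A
    rw [hψ']
    exact mem_max_of_nilpotent ((map_mk_nilpotent hy).map ψ)
  have hFS : IsDef B NS (𝓕.push ψ') := IsDef.map ψ' hψN (𝓕.isDef n)
  obtain ⟨F', hE, hF', hInV⟩ := nf_exists (p := p) hNSn hσ hFS
  have hpush : (fun j => (𝓕.push ψ' j).map (lmap S.val.toRingHom)) = 𝓕.push ψ := by
    funext j
    refine Matrix.ext fun r s => ?_
    ext v
    exact hψ' _
  -- over `A`
  have hEA : Eqv p (maximalIdeal A) (fun j => (F' j).map (lmap S.val.toRingHom)) (famA B D c) := by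
    have h1 := hE.symm.map S.val.toRingHom hNS
    rw [hpush] at h1
    exact h1.trans h
  have hInVA : InV V fun j => (F' j).map (lmap S.val.toRingHom) - toA A (B j) := by
    intro lam
    have h1 := hInV (lam.comp S.val.toLinearMap)
    have h2 : LL lam (fun j => (F' j).map (lmap S.val.toRingHom) - toA A (B j)) =
        LL (lam.comp S.val.toLinearMap) (fun j => F' j - toA S (B j)) :=
      W_ext fun j r s v => by
        rw [LL_coeff, LL_coeff, ← toA_map S.val (B j), ← map_lmap_sub]
        rfl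
    rw [h2]
    exact h1
  have hfam : IsDef B (maximalIdeal A) (famA B D c) := by
    intro j r s v
    show ((famA B D c j - toA A (B j)) r s).coeff v ∈ maximalIdeal A
    rw [Matrix.sub_apply, coeff_sub, famA_coeff]
    have h1 : ∀ x y : A, x + y - x = y := fun x y => add_sub_cancel_left x y
    have h2 : (toA A (B j) r s).coeff v = algebraMap k A ((B j r s).coeff v) := rfl
    rw [h2, h1]
    exact Ideal.sum_mem _ fun i _ => Ideal.mul_mem_right _ _ (hc i)
  have hInVf : InV V fun j => famA B D c j - toA A (B j) := by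
    intro lam
    rw [LL_famA]
    exact V.sum_mem fun i _ => V.smul_mem _ (hDV i)
  have heq : (fun j => (F' j).map (lmap S.val.toRingHom)) = famA B D c :=
    nf_unique hA.isNilpotent hV H0 (IsDef.map S.val hNS hF') hfam hInVA hInVf hEA
  -- the coordinates are in `S`
  have hcS : ∀ s, c s ∈ S := by
    intro s
    refine mem_of_lam (p := Subalgebra.toSubmodule S) fun lam hl => ?_
    have h1 : LL lam (fun j => famA B D c j - toA A (B j)) = 0 := by
      rw [← heq]
      refine W_ext fun j r s v => hl _ ?_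
      show (((F' j).map (lmap S.val.toRingHom) - toA A (B j)) r s).coeff v ∈
        Subalgebra.toSubmodule S
      rw [← toA_map S.val (B j), ← map_lmap_sub]
      exact ((F' j - toA S (B j)) r s |>.coeff v).2
    rw [LL_famA] at h1
    have h2 := hD (fun i => lam (c i)) 0 (by rw [map_zero]; exact h1)
    exact congrFun h2 s
  refine ⟨fun s => hS ▸ hcS s, ?_⟩
  let cS : ι → S := fun s => ⟨c s, hcS s⟩
  have hF'eq : F' = famA B D cS := by
    refine W_ext fun j r s v => Subtype.ext ?_
    have h1 : S.val (F' j r s |>.coeff v) = (famA B D c j r s).coeff v := by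
      rw [← heq]
      rfl
    have h2 : S.val (famA B D cS j r s |>.coeff v) = (famA B D c j r s).coeff v := by
      have h3 := famA_map B D cS S.val j
      have h4 : (fun s => S.val (cS s)) = c := rfl
      rw [h4] at h3
      rw [← h3]
      rfl
    exact h1.trans h2.symm
  -- the quotient by the coordinates
  let I : Ideal S := Ideal.span (Set.range cS)
  have hIN : I ≤ NS := by
    rw [Ideal.span_le]
    rintro _ ⟨s, rfl⟩
    exact hc s
  have hNT : NS ≠ ⊤ := fun h1 => (maximalIdeal.isMaximal A).ne_top ((Ideal.eq_top_iff_one _).2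
    (show (1 : A) ∈ maximalIdeal A from hNS 1 (h1 ▸ Submodule.mem_top)))
  have hIT : I ≠ ⊤ := fun h1 => hNT (top_le_iff.1 (h1 ▸ hIN))
  have : Nontrivial (S ⧸ I) := Ideal.Quotient.nontrivial_iff.2 hIT
  let g1 : (R ⧸ maximalIdeal R ^ n) →ₐ[k] (S ⧸ I) := (Ideal.Quotient.mkₐ k I).comp ψ'
  have hg1 : Function.Surjective g1 := (Ideal.Quotient.mkₐ_surjective k I).comp hψs
  have hloc : IsLocalRing (S ⧸ I) := isLocal_of_surj (g := g1.toRingHom) hg1
  have hfinQ : Module.Finite k (S ⧸ I) := Module.Finite.of_surjective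
    (Ideal.Quotient.mkₐ k I).toLinearMap (Ideal.Quotient.mkₐ_surjective k I)
  have hQ : IsTest k (S ⧸ I) := isTest_of_surj hres hg1
  obtain ⟨g2, hg2⟩ := exists_trivial hres hn (S ⧸ I)
  have hE1 : Eqv p (maximalIdeal (S ⧸ I)) (𝓕.push g1) (𝓕.push g2) := by
    have h1 := hE.map (Ideal.Quotient.mkₐ k I).toRingHom (I' := maximalIdeal (S ⧸ I))
      (fun x hx => mem_max_of_nilpotent (by
        obtain ⟨m, hm⟩ := hNSn
        refine ⟨m, ?_⟩
        rw [← map_pow]
        have h2 : x ^ m ∈ NS ^ m := Ideal.pow_mem_pow hx m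
        rw [hm] at h2
        have h3 : x ^ m = 0 := h2
        rw [h3, map_zero]))
    have h2 : (fun j => (𝓕.push ψ' j).map (lmap (Ideal.Quotient.mkₐ k I).toRingHom)) =
        𝓕.push g1 := rfl
    have h3 : (fun j => (F' j).map (lmap (Ideal.Quotient.mkₐ k I).toRingHom)) = 𝓕.push g2 := by
      funext j
      rw [hF'eq, famA_map]
      have h4 : (fun s => (Ideal.Quotient.mkₐ k I) (cS s)) = fun _ => (0 : S ⧸ I) := by
        funext s
        exact Ideal.Quotient.eq_zero_iff_mem.2 (Ideal.subset_span ⟨s, rfl⟩)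
      rw [h4, famA_zero]
      have h5 : MSmall (⊥ : Ideal (S ⧸ I)) ((𝓕.F n j - toA _ (B j)).map (lmap g2.toRingHom)) := by
        refine MSmall.map' g2.toRingHom (𝓕.isDef n j) fun y hy => ?_
        show g2 y = 0
        have h6 : (maximalIdeal R).map (Ideal.Quotient.mk (maximalIdeal R ^ n)) ≤
            RingHom.ker g2.toRingHom := by
          rw [Ideal.map_le_iff_le_comap]
          exact fun x hx => hg2 x hx
        exact h6 hy
      rw [map_lmap_sub, toA_map] at h5
      exact (sub_eq_zero.1 h5.bot).symm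
    rw [h2, h3] at h1
    exact h1
  have hgg : g1 = g2 := hmono (S ⧸ I) hQ n g1 g2 hE1
  intro x hx
  have h1 : g1 (Ideal.Quotient.mk _ x) = 0 := by rw [hgg]; exact hg2 x hx
  have h2 : ψ' (Ideal.Quotient.mk _ x) ∈ I := Ideal.Quotient.eq_zero_iff_mem.1 h1
  rw [← hψ']
  have h3 : I ≤ (Ideal.span (Set.range c)).comap S.val.toRingHom := by
    rw [Ideal.span_le]
    rintro _ ⟨s, rfl⟩
    exact Ideal.subset_span ⟨s, rfl⟩
  exact h3 h2

/-- the dimension of the quotients of the local ring -/
theorem finrank_le {R : Type u} [CommRing R] [Algebra k R] [IsLocalRing R]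
    (hres : Function.Surjective (algebraMap k (ResidueField R)))
    (H0 : ∀ C : ZMod f → Mat k, dk p B C = 0 →
      ∃ c : k, ∀ j, C j = (HahnSeries.C c : LaurentSeries k) • (1 : Mat k))
    {ι : Type} [Fintype ι] (D : ι → ZMod f → Mat k)
    (hD : ∀ (r : ι → k) (C : ZMod f → Mat k), ∑ s, r s • D s = dk p B C → r = 0)
    (𝓕 : Family B R) (hmono : 𝓕.IsMono p)
    {A : Type u} [CommRing A] [Algebra k A] [IsLocalRing A] (hA : IsTest k A)
    (c : ι → A) (hc : ∀ s, c s ∈ maximalIdeal A)
    (h : ∃ (n : ℕ) (g : (R ⧸ maximalIdeal R ^ n) →ₐ[k] A),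
      Eqv p (maximalIdeal A) (𝓕.push g) (famA B D c)) (n : ℕ)
    (hcn : Ideal.span (Set.range c) ^ n = ⊥) [Module.Finite k (R ⧸ maximalIdeal R ^ n)] :
    Module.finrank k (Algebra.adjoin k (Set.range c)) ≤
      Module.finrank k (R ⧸ maximalIdeal R ^ n) := by
  obtain ⟨n', ψ, hψ⟩ := h
  obtain ⟨h1, h2⟩ := coordinates_mem hres H0 D hD 𝓕 hmono hA c hc ψ hψ
  have hfin := hA.finite
  let θ : R →ₐ[k] A := ψ.comp (Ideal.Quotient.mkₐ k _)
  have h3 : (maximalIdeal R).map θ.toRingHom ≤ Ideal.span (Set.range c) := by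
    rw [Ideal.map_le_iff_le_comap]
    exact fun x hx => h2 x hx
  have h4 : ∀ x ∈ maximalIdeal R ^ n, θ x = 0 := by
    intro x hx
    have h5 : θ x ∈ ((maximalIdeal R) ^ n).map θ.toRingHom := Ideal.mem_map_of_mem _ hx
    rw [Ideal.map_pow] at h5
    have h6 := Ideal.pow_right_mono h3 n h5
    rw [hcn] at h6
    exact h6
  let θ' : (R ⧸ maximalIdeal R ^ n) →ₐ[k] A := Ideal.Quotient.liftₐ _ θ h4
  have h5 : Algebra.adjoin k (Set.range c) ≤ θ'.range := by
    rw [Algebra.adjoin_le_iff]
    rintro _ ⟨s, rfl⟩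
    obtain ⟨y, hy⟩ := h1 s
    obtain ⟨x, rfl⟩ := Ideal.Quotient.mk_surjective y
    exact ⟨Ideal.Quotient.mk _ x, hy⟩
  calc Module.finrank k (Algebra.adjoin k (Set.range c)) ≤ Module.finrank k θ'.range :=
        Submodule.finrank_mono (Subalgebra.toSubmodule.le_iff_le.2 h5)
    _ ≤ Module.finrank k (R ⧸ maximalIdeal R ^ n) := LinearMap.finrank_range_le θ'.toLinearMap

end

end Pool.Agent.Lib.MP_74d0c9_nt
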