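import Pool.Agent.Lib.MP_74d0c9_nt.MFam
import Pool.Agent.Lib.MP_74d0c9_nt.MEnd
import Pool.Agent.Lib.MP_74d0c9_nt.MIrr
import Pool.Agent.Lib.MP_74d0c9_nt.UAbs
import Pool.Agent.Lib.MP_74d0c9_nt.U5

/-! Several words: directions and coordinates. -/

set_option autoImplicit false

namespace Pool.Agent.Lib.MP_74d0c9_nt

open HahnSeries

universe u

/-- the positions of the pattern -/
abbrev SP (P : ℕ → Bool) (f : ℕ) : Type := {t : Fin f // P (t : ℕ) = true}

/-- the positions outside the words -/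
abbrev OP (P : ℕ → Bool) (f : ℕ) : Type :=
  {t : Fin f // P (t : ℕ) = false ∧ Pm P (t : ℕ) = false}

/-- the index set of the directions -/
abbrev IxP (P : ℕ → Bool) (f : ℕ) : Type := Unit ⊕ ((SP P f × Fin 3) ⊕ OP P f)

section
variable {A : Type u} [CommRing A] {p f : ℕ} {P : ℕ → Bool} {a : ZMod f → ℕ}

/-- the directions -/
noncomputable def DP (A : Type u) [CommRing A] (p : ℕ) (P : ℕ → Bool) (f : ℕ) (a : ZMod f → ℕ)
    (i : ZMod f) : IxP P f → ZMod f → Mat A
  | Sum.inl _ => fun j => if (j - i).val = 0 then Bp p P f (a j) (j - i).val else 0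
  | Sum.inr (Sum.inl y) => fun j =>
      if (j - i).val = ((y.1 : Fin f) : ℕ) then M3 y.2 * Bp p P f (a j) (j - i).val else 0
  | Sum.inr (Sum.inr y) => fun j =>
      if (j - i).val = ((y : Fin f) : ℕ) then Bp p P f (a j) (j - i).val * !![0, 0; 1, 0] else 0

theorem DP_map {B : Type u} [CommRing B] (π : A →+* B) (i : ZMod f) (s : IxP P f) (j : ZMod f) :
    (DP A p P f a i s j).map (lmap π) = DP B p P f a i s j := by
  match s with
  | Sum.inl _ =>
    show (if (j - i).val = 0 then (Bp p P f (a j) (j - i).val : Mat A) else 0).map (lmap π) =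
      if (j - i).val = 0 then Bp p P f (a j) (j - i).val else 0
    split_ifs
    · exact Bp_map π _ _ _ _ _
    · exact Matrix.map_zero _ (map_zero _)
  | Sum.inr (Sum.inl y) =>
    show (if (j - i).val = ((y.1 : Fin f) : ℕ) then
      (M3 y.2 * Bp p P f (a j) (j - i).val : Mat A) else 0).map (lmap π) =
      if (j - i).val = ((y.1 : Fin f) : ℕ) then M3 y.2 * Bp p P f (a j) (j - i).val else 0
    split_ifs
    · rw [Matrix.map_mul, Bp_map, lmap_M3]
    · exact Matrix.map_zero _ (map_zero _)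
  | Sum.inr (Sum.inr y) =>
    show (if (j - i).val = ((y : Fin f) : ℕ) then
      (Bp p P f (a j) (j - i).val * !![0, 0; 1, 0] : Mat A) else 0).map (lmap π) =
      if (j - i).val = ((y : Fin f) : ℕ) then Bp p P f (a j) (j - i).val * !![0, 0; 1, 0] else 0
    split_ifs
    · rw [Matrix.map_mul, Bp_map, mat2_map, map_zero, map_one]
    · exact Matrix.map_zero _ (map_zero _)

/-- the value of a combination of directions -/
theorem sum_DP (c : IxP P f → A) (i j : ZMod f) (hlt : (j - i).val < f) :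
    ∑ y : IxP P f, (HahnSeries.C (c y) : LaurentSeries A) • DP A p P f a i y j =
      (if (j - i).val = 0 then (HahnSeries.C (c (Sum.inl ())) : LaurentSeries A) •
        Bp p P f (a j) (j - i).val else 0) +
      (if h : P (j - i).val = true then
        ((HahnSeries.C (c (Sum.inr (Sum.inl (⟨⟨_, hlt⟩, h⟩, 0)))) : LaurentSeries A) • M3 0 +
          (HahnSeries.C (c (Sum.inr (Sum.inl (⟨⟨_, hlt⟩, h⟩, 1)))) : LaurentSeries A) • M3 1 +
          (HahnSeries.C (c (Sum.inr (Sum.inl (⟨⟨_, hlt⟩, h⟩, 2)))) : LaurentSeries A) • M3 2) *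
            Bp p P f (a j) (j - i).val
        else 0) +
      (if h : P (j - i).val = false ∧ Pm P (j - i).val = false then
        (HahnSeries.C (c (Sum.inr (Sum.inr ⟨⟨_, hlt⟩, h⟩))) : LaurentSeries A) •
          (Bp p P f (a j) (j - i).val * !![0, 0; 1, 0])
        else 0) := by
  rw [Fintype.sum_sum_type, Fintype.sum_sum_type, Fintype.sum_unique, Fintype.sum_prod_type,
    add_assoc]
  congr 1
  · show (HahnSeries.C (c (Sum.inl ())) : LaurentSeries A) •
      (if (j - i).val = 0 then Bp p P f (a j) (j - i).val else 0) = _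
    split_ifs
    · rfl
    · exact smul_zero _
  congr 1
  · by_cases h : P (j - i).val = true
    · rw [dif_pos h, Finset.sum_eq_single (⟨⟨(j - i).val, hlt⟩, h⟩ : SP P f)]
      · rw [Fin.sum_univ_three]
        have e : ∀ e : Fin 3, DP A p P f a i (Sum.inr (Sum.inl (⟨⟨(j - i).val, hlt⟩, h⟩, e))) j =
            M3 e * Bp p P f (a j) (j - i).val := fun e => if_pos rfl
        rw [e, e, e, Matrix.add_mul, Matrix.add_mul, smul_mul', smul_mul', smul_mul']
      · intro b _ hb
        refine Finset.sum_eq_zero fun e _ => ?_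
        have e1 : DP A p P f a i (Sum.inr (Sum.inl (b, e))) j = 0 := by
          refine if_neg fun h' => hb ?_
          apply Subtype.ext
          ext
          exact h'.symm
        rw [e1, smul_zero]
      · intro h'
        exact absurd (Finset.mem_univ _) h'
    · rw [dif_neg h]
      refine Finset.sum_eq_zero fun b _ => Finset.sum_eq_zero fun e _ => ?_
      have e1 : DP A p P f a i (Sum.inr (Sum.inl (b, e))) j = 0 := by
        refine if_neg fun h' => h ?_
        rw [h']
        exact b.2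
      rw [e1, smul_zero]
  · by_cases h : P (j - i).val = false ∧ Pm P (j - i).val = false
    · rw [dif_pos h, Finset.sum_eq_single (⟨⟨(j - i).val, hlt⟩, h⟩ : OP P f)]
      · have e : DP A p P f a i (Sum.inr (Sum.inr ⟨⟨(j - i).val, hlt⟩, h⟩)) j =
            Bp p P f (a j) (j - i).val * !![0, 0; 1, 0] := if_pos rfl
        rw [e]
      · intro b _ hb
        have e1 : DP A p P f a i (Sum.inr (Sum.inr b)) j = 0 := by
          refine if_neg fun h' => hb ?_
          apply Subtype.ext
          ext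
          exact h'.symm
        rw [e1, smul_zero]
      · intro h'
        exact absurd (Finset.mem_univ _) h'
    · rw [dif_neg h]
      refine Finset.sum_eq_zero fun b _ => ?_
      have e1 : DP A p P f a i (Sum.inr (Sum.inr b)) j = 0 := by
        refine if_neg fun h' => h ?_
        rw [h']
        exact b.2
      rw [e1, smul_zero]

/-- The family in coordinates. -/
theorem Fp_eq [NeZero f] (hP : GoodP P f) (i : ZMod f) {J : Type} (ω : SP P f → J) (t0 : SP P f)
    (ht0 : ((t0 : Fin f) : ℕ) = 0) (l : J → A) (s : A) (w : SP P f → A) (x : OP P f → A)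
    (l' w' x' : ℕ → A)
    (hl' : ∀ (t : ℕ) (ht : t < f) (h : P t = true), l' t = l (ω ⟨⟨t, ht⟩, h⟩))
    (hw' : ∀ (t : ℕ) (ht : t < f) (h : P t = true), w' t = w ⟨⟨t, ht⟩, h⟩)
    (hx' : ∀ (t : ℕ) (ht : t < f) (h : P t = false ∧ Pm P t = false), x' t = x ⟨⟨t, ht⟩, h⟩)
    (j : ZMod f) :
    Fp p P f (a j) l' s w' x' (j - i).val = Bp p P f (a j) (j - i).val +
      ∑ y : IxP P f, (HahnSeries.C (cM t0 ω l s w x y) : LaurentSeries A) •
        DP A p P f a i y j := by
  have hlt : (j - i).val < f := ZMod.val_lt _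
  have hnt : ∀ x : Bool, x = false → ¬ x = true := by
    intro x hx
    rw [hx]
    exact fun h => Bool.noConfusion h
  have key : ∀ (g l w : A) (B : Mat A),
      (HahnSeries.C g : LaurentSeries A) • (oneN l w * B) =
      (HahnSeries.C g : LaurentSeries A) • B +
      ((HahnSeries.C (g * w * l ^ ((0 : Fin 3) : ℕ)) : LaurentSeries A) • M3 0 +
        (HahnSeries.C (g * w * l ^ ((1 : Fin 3) : ℕ)) : LaurentSeries A) • M3 1 +
        (HahnSeries.C (g * w * l ^ ((2 : Fin 3) : ℕ)) : LaurentSeries A) • M3 2) * B := by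
    intro g l w B
    rw [oneN_eq, Matrix.add_mul, Matrix.one_mul, smul_add, ← smul_mul' (HahnSeries.C g), smul_add,
      smul_add, smul_smul, smul_smul, smul_smul, ← map_mul, ← map_mul, ← map_mul]
    have f0 : g * w * l ^ ((0 : Fin 3) : ℕ) = g * w := by
      show g * w * l ^ 0 = _
      ring
    have f1 : g * w * l ^ ((1 : Fin 3) : ℕ) = g * (w * l) := by
      show g * w * l ^ 1 = _
      ring
    have f2 : g * w * l ^ ((2 : Fin 3) : ℕ) = g * (w * (l * l)) := by
      show g * w * l ^ 2 = _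
      ring
    rw [f0, f1, f2]
  rw [sum_DP _ i j hlt]
  by_cases c0 : P (j - i).val = true
  · have e0 : ¬ (P (j - i).val = false ∧ Pm P (j - i).val = false) := by
      rintro ⟨h, -⟩
      exact hnt _ h c0
    have f0 : ∀ (h : P (j - i).val = true) (e : Fin 3),
        cM t0 ω l s w x (Sum.inr (Sum.inl (⟨⟨(j - i).val, hlt⟩, h⟩, e))) =
          (if (j - i).val = 0 then 1 + s else 1) * w' (j - i).val *
            l' (j - i).val ^ (e : ℕ) := by
      intro h e
      show (if (⟨⟨(j - i).val, hlt⟩, h⟩ : SP P f) = t0 then 1 + s else 1) *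
        w ⟨⟨(j - i).val, hlt⟩, h⟩ * l (ω ⟨⟨(j - i).val, hlt⟩, h⟩) ^ (e : ℕ) = _
      rw [hl' _ hlt h, hw' _ hlt h]
      have e3 : (⟨⟨(j - i).val, hlt⟩, h⟩ : SP P f) = t0 ↔ (j - i).val = 0 := by
        constructor
        · intro h3
          rw [← ht0, ← h3]
        · intro h3
          apply Subtype.ext
          ext
          show (j - i).val = _
          rw [h3, ht0]
      by_cases h3 : (j - i).val = 0
      · rw [if_pos (e3.2 h3), if_pos h3]
      · rw [if_neg (fun h4 => h3 (e3.1 h4)), if_neg h3]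
    rw [dif_pos c0, dif_neg e0, add_zero, f0, f0, f0]
    unfold Fp
    rw [if_pos c0, key, ← add_assoc]
    congr 1
    split_ifs
    · have f1 : (HahnSeries.C (1 + s) : LaurentSeries A) = 1 + HahnSeries.C s := by
        rw [map_add, map_one]
      rw [f1, add_smul, one_smul]
      rfl
    · rw [map_one, one_smul, add_zero]
  · have hPt : P (j - i).val = false := by
      revert c0
      cases P (j - i).val <;> simp
    have h0 : ¬ (j - i).val = 0 := by
      intro h
      rw [h, hP.h0] at c0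
      exact c0 rfl
    rw [if_neg h0, dif_neg c0, add_zero, zero_add]
    by_cases c1 : Pm P (j - i).val = true
    · have e0 : ¬ (P (j - i).val = false ∧ Pm P (j - i).val = false) := by
        rintro ⟨-, h⟩
        exact hnt _ h c1
      rw [dif_neg e0, add_zero]
      unfold Fp
      rw [if_neg c0, if_pos c1]
    · have hPmt : Pm P (j - i).val = false := by
        revert c1
        cases Pm P (j - i).val <;> simp
      have f1 : (!![1, 0; HahnSeries.C (x' (j - i).val), 1] : Mat A) =
          1 + (HahnSeries.C (x' (j - i).val) : LaurentSeries A) • !![0, 0; 1, 0] := by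
        refine Matrix.ext fun i' j' => ?_
        rw [Matrix.add_apply, Matrix.smul_apply, smul_eq_mul]
        fin_cases i' <;> fin_cases j'
        · show (1 : LaurentSeries A) = 1 + HahnSeries.C (x' (j - i).val) * 0
          ring
        · show (0 : LaurentSeries A) = 0 + HahnSeries.C (x' (j - i).val) * 0
          ring
        · show HahnSeries.C (x' (j - i).val) = 0 + HahnSeries.C (x' (j - i).val) * 1
          ring
        · show (1 : LaurentSeries A) = 1 + HahnSeries.C (x' (j - i).val) * 0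
          ring
      have f2 : ∀ h, cM t0 ω l s w x (Sum.inr (Sum.inr (⟨⟨(j - i).val, hlt⟩, h⟩ : OP P f))) =
          x' (j - i).val := fun h => (hx' _ hlt h).symm
      rw [dif_pos ⟨hPt, hPmt⟩, f2]
      unfold Fp
      rw [if_neg c0, if_neg c1, f1, Matrix.mul_add, Matrix.mul_one, mul_smul']

end

section
variable {k : Type u} [Field k] {p f : ℕ} [Fact p.Prime] [NeZero f] {P : ℕ → Bool}
  {a : ZMod f → ℕ}

/-- The family comes from Kisin modules. -/
theorem famA_fromKisin (hP : GoodP P f) (i : ZMod f) (hpat : IsPat p f a i P) {J : Type}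
    (ω : SP P f → J)
    (hω : ∀ s t : SP P f, ((t : Fin f) : ℕ) = ((s : Fin f) : ℕ) + 1 → ω t = ω s)
    (t0 : SP P f) (ht0 : ((t0 : Fin f) : ℕ) = 0)
    {A : Type u} [CommRing A] [Algebra k A] (l : J → A) (s : A) (hs : IsUnit (1 + s))
    (w : SP P f → A) (x : OP P f → A) :
    FromKisin p a (famA (fun j => (Bp p P f (a j) (j - i).val : Mat k)) (DP k p P f a i)
      (cM t0 ω l s w x)) := by
  have hf3 := hP.three_le
  obtain ⟨l', hl'⟩ : ∃ l' : ℕ → A, l' = fun t => if h : t < f ∧ P t = true then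
    l (ω ⟨⟨t, h.1⟩, h.2⟩) else 0 := ⟨_, rfl⟩
  obtain ⟨w', hw'⟩ : ∃ w' : ℕ → A, w' = fun t => if h : t < f ∧ P t = true then
    w ⟨⟨t, h.1⟩, h.2⟩ else 0 := ⟨_, rfl⟩
  obtain ⟨x', hx'⟩ : ∃ x' : ℕ → A, x' = fun t => if h : t < f ∧ P t = false ∧ Pm P t = false then
    x ⟨⟨t, h.1⟩, h.2⟩ else 0 := ⟨_, rfl⟩
  have gl' : ∀ (t : ℕ) (ht : t < f) (h : P t = true), l' t = l (ω ⟨⟨t, ht⟩, h⟩) := by
    intro t ht h
    rw [hl']
    dsimp only
    rw [dif_pos ⟨ht, h⟩]
  have gw' : ∀ (t : ℕ) (ht : t < f) (h : P t = true), w' t = w ⟨⟨t, ht⟩, h⟩ := by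
    intro t ht h
    rw [hw']
    dsimp only
    rw [dif_pos ⟨ht, h⟩]
  have gx' : ∀ (t : ℕ) (ht : t < f) (h : P t = false ∧ Pm P t = false),
      x' t = x ⟨⟨t, ht⟩, h⟩ := by
    intro t ht h
    rw [hx']
    dsimp only
    rw [dif_pos ⟨ht, h⟩]
  have hl : ∀ t, P t = true → Pm P t = true → l' t = l' (t - 1) := by
    intro t h1 h2
    obtain ⟨r, rfl⟩ : ∃ r, t = r + 1 := by
      rcases Nat.eq_zero_or_pos t with h3 | h3
      · rw [h3] at h2
        exact absurd h2 (fun h => Bool.noConfusion h)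
      · exact ⟨t - 1, by omega⟩
    have h3 : P r = true := h2
    rw [Nat.add_sub_cancel]
    by_cases h4 : r + 1 < f
    · rw [gl' _ h4 h1, gl' r (by omega) h3]
      congr 1
      exact hω ⟨⟨r, by omega⟩, h3⟩ ⟨⟨r + 1, h4⟩, h1⟩ rfl
    · rw [hl']
      dsimp only
      rw [dif_neg (fun h => h4 h.1), dif_neg]
      rintro ⟨h5, -⟩
      have h6 : r = f - 1 := by omega
      rw [h6, hP.h2] at h3
      exact Bool.noConfusion h3
  refine ⟨MFP P i l' s hs w' x', fun j => TnP P l' (j - i).val, ?_⟩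
  have h4 := isHom_Fp (a := a) hP i hpat l' hl s hs w' x'
  have h5 : (fun j => Fp p P f (a j) l' s w' x' (j - i).val) =
      famA (fun j => (Bp p P f (a j) (j - i).val : Mat k)) (DP k p P f a i)
        (cM t0 ω l s w x) := by
    funext j
    rw [Fp_eq (a := a) hP i ω t0 ht0 l s w x l' w' x' gl' gw' gx' j]
    show _ = (Bp p P f (a j) (j - i).val : Mat k).map (lmap (algebraMap k A)) +
      ∑ y, (HahnSeries.C (cM t0 ω l s w x y) : LaurentSeries A) •
        (DP k p P f a i y j).map (lmap (algebraMap k A))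
    simp only [Bp_map, DP_map]
  rw [← h5]
  exact h4

/-- the endomorphisms of the residual module are the scalars -/
theorem kernel_BP (hP : GoodP P f) (ha : ∀ i, 1 ≤ a i ∧ a i ≤ p) (i : ZMod f)
    (C : ZMod f → Mat k)
    (h : ∀ j, C j * Bp p P f (a j) (j - i).val =
      Bp p P f (a j) (j - i).val * (C (j - 1)).map (phi k p)) :
    ∃ c : k, ∀ j, C j = (HahnSeries.C c : LaurentSeries k) • (1 : Mat k) := by
  have h1 : ∀ j, DsumP p P f (a j) (0 : k) 0 0 0 0 (j - i).val =
      C j * Bp p P f (a j) (j - i).val -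
        Bp p P f (a j) (j - i).val * (C (j - 1)).map (phi k p) := by
    intro j
    rw [h j, sub_self]
    unfold DsumP
    have e1 : (HahnSeries.C (0 : k) : LaurentSeries k) • (Bp p P f (a j) (j - i).val : Mat k) =
        0 := by rw [map_zero, zero_smul]
    have e2 : (!![single (-1) (-(0 : ℕ → k) (j - i).val), single (-1) ((0 : ℕ → k) (j - i).val);
        single (-1) (-(0 : ℕ → k) (j - i).val), single (-1) ((0 : ℕ → k) (j - i).val)] :
          Mat k) = 0 := by
      refine Matrix.ext fun r s => ?_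
      fin_cases r <;> fin_cases s <;> simp
    have e3 : (!![0, 0; HahnSeries.C ((0 : ℕ → k) (j - i).val), 0] : Mat k) = 0 := by
      refine Matrix.ext fun r s => ?_
      fin_cases r <;> fin_cases s <;> simp
    rw [e1, e2, e3, Matrix.zero_mul, Matrix.mul_zero]
    split_ifs <;> simp
  obtain ⟨c, hc⟩ := (cobEq (p := p) hP i (0 : k) 0 0 0 0 (fun _ _ => rfl) (fun _ _ => rfl)
    (fun _ _ => rfl) C h1).scalar hP (fun t => ha _)
  refine ⟨c, fun j => ?_⟩
  have hv : (j - i).val < f := ZMod.val_lt _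
  have h2 := hc _ hv
  have e : i + (((j - i).val : ℕ) : ZMod f) = j := by
    rw [ZMod.natCast_val, ZMod.cast_id', id_eq, add_sub_cancel]
  rw [e] at h2
  exact h2

theorem indep_DP (hP : GoodP P f) (ha : ∀ i, 1 ≤ a i ∧ a i ≤ p) (h2 : (2 : k) ≠ 0) (i : ZMod f)
    (r : IxP P f → k) (C : ZMod f → Mat k)
    (h : ∀ j, ∑ s, (HahnSeries.C (r s) : LaurentSeries k) • DP k p P f a i s j =
      C j * Bp p P f (a j) (j - i).val -
        Bp p P f (a j) (j - i).val * (C (j - 1)).map (phi k p)) : r = 0 := by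
  have hnt : ∀ x : Bool, x = false → ¬ x = true := by
    intro x hx
    rw [hx]
    exact fun h => Bool.noConfusion h
  obtain ⟨v, hv⟩ : ∃ v : Fin 3 → ℕ → k, v = fun e t => if h : t < f ∧ P t = true then
    r (Sum.inr (Sum.inl (⟨⟨t, h.1⟩, h.2⟩, e))) else 0 := ⟨_, rfl⟩
  obtain ⟨x, hx⟩ : ∃ x : ℕ → k, x = fun t => if h : t < f ∧ P t = false ∧ Pm P t = false then
    r (Sum.inr (Sum.inr ⟨⟨t, h.1⟩, h.2⟩)) else 0 := ⟨_, rfl⟩
  have gv : ∀ (e : Fin 3) (t : ℕ) (ht : t < f) (h : P t = true),
      v e t = r (Sum.inr (Sum.inl (⟨⟨t, ht⟩, h⟩, e))) := by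
    intro e t ht h
    rw [hv]
    dsimp only
    rw [dif_pos ⟨ht, h⟩]
  have gx : ∀ (t : ℕ) (ht : t < f) (h : P t = false ∧ Pm P t = false),
      x t = r (Sum.inr (Sum.inr ⟨⟨t, ht⟩, h⟩)) := by
    intro t ht h
    rw [hx]
    dsimp only
    rw [dif_pos ⟨ht, h⟩]
  have gv0 : ∀ (e : Fin 3) (t : ℕ), P t = false → v e t = 0 := by
    intro e t h
    rw [hv]
    dsimp only
    rw [dif_neg (fun h' => hnt _ h h'.2)]
  have h1 : ∀ j, DsumP p P f (a j) (r (Sum.inl ())) (v 1) (v 0) (v 2) x (j - i).val =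
      C j * Bp p P f (a j) (j - i).val -
        Bp p P f (a j) (j - i).val * (C (j - 1)).map (phi k p) := by
    intro j
    have hlt : (j - i).val < f := ZMod.val_lt _
    rw [← h j, sum_DP _ i j hlt]
    unfold DsumP
    congr 1
    · congr 1
      by_cases c : P (j - i).val = true
      · rw [if_pos c, dif_pos c, ← gv 0 _ hlt c, ← gv 1 _ hlt c, ← gv 2 _ hlt c]
        congr 1
        refine Matrix.ext fun i' j' => ?_
        rw [Matrix.add_apply, Matrix.add_apply, Matrix.smul_apply, Matrix.smul_apply,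
          Matrix.smul_apply, smul_eq_mul, smul_eq_mul, smul_eq_mul]
        fin_cases i' <;> fin_cases j'
        · show single (-1) (-v 1 (j - i).val) = HahnSeries.C (v 0 (j - i).val) * 0 +
            HahnSeries.C (v 1 (j - i).val) * -un (-1) + HahnSeries.C (v 2 (j - i).val) * 0
          rw [← C_un, map_neg]
          ring
        · show single (-1) (v 0 (j - i).val) = HahnSeries.C (v 0 (j - i).val) * un (-1) +
            HahnSeries.C (v 1 (j - i).val) * 0 + HahnSeries.C (v 2 (j - i).val) * 0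
          rw [← C_un]
          ring
        · show single (-1) (-v 2 (j - i).val) = HahnSeries.C (v 0 (j - i).val) * 0 +
            HahnSeries.C (v 1 (j - i).val) * 0 + HahnSeries.C (v 2 (j - i).val) * -un (-1)
          rw [← C_un, map_neg]
          ring
        · show single (-1) (v 1 (j - i).val) = HahnSeries.C (v 0 (j - i).val) * 0 +
            HahnSeries.C (v 1 (j - i).val) * un (-1) + HahnSeries.C (v 2 (j - i).val) * 0
          rw [← C_un]
          ring
      · rw [if_neg c, dif_neg c]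
    · by_cases c : P (j - i).val = false ∧ Pm P (j - i).val = false
      · rw [if_pos c, dif_pos c, ← gx _ hlt c, ← mul_smul']
        congr 1
        refine Matrix.ext fun i' j' => ?_
        rw [Matrix.smul_apply, smul_eq_mul]
        fin_cases i' <;> fin_cases j'
        · exact (mul_zero _).symm
        · exact (mul_zero _).symm
        · exact (mul_one _).symm
        · exact (mul_zero _).symm
      · rw [if_neg c, dif_neg c]
  obtain ⟨e1, e2, e3⟩ := (cobEq (p := p) hP i (r (Sum.inl ())) (v 1) (v 0) (v 2) x (gv0 1) (gv0 0)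
    (gv0 2) C h1).indep hP (fun t => ha _) (fun z hz => (mul_eq_zero.1 hz).resolve_left h2)
  funext s
  match s with
  | Sum.inl _ => exact e1
  | Sum.inr (Sum.inl (⟨⟨t, ht⟩, hc⟩, e)) =>
    have h3 := e2 t ht
    show r (Sum.inr (Sum.inl (⟨⟨t, ht⟩, hc⟩, e))) = 0
    rw [← gv e t ht hc]
    fin_cases e
    · exact h3.2.1
    · exact h3.1
    · exact h3.2.2
  | Sum.inr (Sum.inr ⟨⟨t, ht⟩, hc⟩) =>
    show r (Sum.inr (Sum.inr ⟨⟨t, ht⟩, hc⟩)) = 0
    rw [← gx t ht hc]
    exact e3 t ht hc.1 hc.2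

end

end Pool.Agent.Lib.MP_74d0c9_nt
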