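import Pool.Agent.Lib.MP_74d0c9_nt.MWords

/-! Several words: shapes with words of given lengths. -/

set_option autoImplicit false

namespace Pool.Agent.Lib.MP_74d0c9_nt

/-- the position of the word `j` -/
def SJ {r : ℕ} (m : Fin r → ℕ) (j : Fin r) : ℕ := ∑ j' ∈ Finset.Iio j, m j'

theorem SJ_add {r : ℕ} (m : Fin r → ℕ) (j : Fin r) :
    SJ m j + m j = ∑ j' ∈ Finset.Iic j, m j' := by
  unfold SJ
  rw [← Finset.Iio_insert, Finset.sum_insert (by simp), add_comm]

theorem SJ_le {r : ℕ} (m : Fin r → ℕ) {j j' : Fin r} (h : j < j') : SJ m j + m j ≤ SJ m j' := by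
  rw [SJ_add]
  unfold SJ
  refine Finset.sum_le_sum_of_subset fun x hx => ?_
  rw [Finset.mem_Iic] at hx
  rw [Finset.mem_Iio]
  exact lt_of_le_of_lt hx h

theorem SJ_lt {r : ℕ} (m : Fin r → ℕ) (j : Fin r) : SJ m j + m j ≤ ∑ j, m j := by
  rw [SJ_add]
  exact Finset.sum_le_sum_of_subset (Finset.subset_univ _)

theorem SJ_inj {r : ℕ} (m : Fin r → ℕ) {j j' : Fin r} {s s' : ℕ} (hs : s < m j) (hs' : s' < m j')
    (e : SJ m j + s = SJ m j' + s') : j = j' ∧ s = s' := by
  rcases lt_trichotomy j j' with h | h | h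
  · have := SJ_le m h
    omega
  · subst h
    exact ⟨rfl, by omega⟩
  · have := SJ_le m h
    omega

/-- There are shapes with disjoint words of given lengths. -/
theorem exists_shape {p : ℕ} (hp : 5 ≤ p) {f : ℕ} [NeZero f] {r : ℕ} (m : Fin r → ℕ)
    (hm : ∀ j, 2 ≤ m j) (hs : ∑ j, m j < f) :
    ∃ (a : ZMod f → ℕ) (i : Fin r → ZMod f), (∀ t, 1 ≤ a t ∧ a t ≤ p) ∧ IsWords p f a i m := by
  classical
  have hval : ∀ (j : Fin r) (s : ℕ), s < m j →
      (((SJ m j : ℕ) : ZMod f) + (s : ZMod f)).val = SJ m j + s := by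
    intro j s h
    have h1 := SJ_lt m j
    rw [← Nat.cast_add, ZMod.val_natCast_of_lt (by omega)]
  refine ⟨fun t => if ∃ j, t.val = SJ m j then 1 else
    if ∃ j, t.val = SJ m j + (m j - 1) then p else p - 1, fun j => ((SJ m j : ℕ) : ZMod f),
    fun t => ?_, ?_, ?_, hs⟩
  · dsimp only
    split_ifs <;> omega
  · intro j
    have h0 := hm j
    have h1 := SJ_lt m j
    refine ⟨h0, by omega, ?_, ?_, ?_⟩
    · have h2 := hval j 0 (by omega)
      rw [Nat.cast_zero, add_zero, add_zero] at h2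
      exact if_pos ⟨j, h2⟩
    · intro s h2 h3
      have h4 := hval j s (by omega)
      dsimp only
      rw [if_neg, if_neg]
      · rintro ⟨j', e⟩
        rw [h4] at e
        have h5 := hm j'
        obtain ⟨rfl, h6⟩ := SJ_inj m (by omega) (by omega) e
        omega
      · rintro ⟨j', e⟩
        rw [h4] at e
        have h5 := hm j'
        obtain ⟨-, h6⟩ := SJ_inj m (j' := j') (s' := 0) (by omega) (by omega) e
        omega
    · have h4 := hval j (m j - 1) (by omega)
      dsimp only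
      rw [if_neg, if_pos ⟨j, h4⟩]
      rintro ⟨j', e⟩
      rw [h4] at e
      have h5 := hm j'
      obtain ⟨-, h6⟩ := SJ_inj m (j' := j') (s' := 0) (by omega) (by omega) e
      omega
  · intro j j' s s' h1 h2 e
    have h3 := congrArg ZMod.val e
    rw [hval j s h1, hval j' s' h2] at h3
    exact (SJ_inj m h1 h2 h3).1

end Pool.Agent.Lib.MP_74d0c9_nt
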