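import Pool.Agent.Lib.MP_74d0c9_nt.MRows
import Pool.Agent.Lib.MP_74d0c9_nt.Words

/-! Several words: the pattern of a family of disjoint words. -/

set_option autoImplicit false

namespace Pool.Agent.Lib.MP_74d0c9_nt

open Classical in
/-- the pattern -/
noncomputable def PW {f : ℕ} {J : Type} (i : J → ZMod f) (m : J → ℕ) (i0 : ZMod f) (t : ℕ) :
    Bool :=
  decide (∃ j, ∃ s : ℕ, s + 1 < m j ∧ i0 + (t : ZMod f) = i j + (s : ℕ))

section
variable {p f : ℕ} [NeZero f] {a : ZMod f → ℕ} {J : Type} [Fintype J] {i : J → ZMod f}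
  {m : J → ℕ}

omit [NeZero f] in
theorem IsWords.inj (h : IsWords p f a i m) {j j' : J} {s s' : ℕ} (hs : s < m j)
    (hs' : s' < m j') (e : i j + s = i j' + s') : j = j' ∧ s = s' := by
  have h1 := h.disj j j' s s' hs hs' e
  subst h1
  refine ⟨rfl, ?_⟩
  have h2 := (h.word j).2.1
  have h3 : (s : ZMod f) = s' := add_left_cancel e
  have h4 := congrArg ZMod.val h3
  rwa [ZMod.val_natCast_of_lt (by omega), ZMod.val_natCast_of_lt (by omega)] at h4

/-- the positions of the words -/
def Cov (i : J → ZMod f) (m : J → ℕ) (x : ZMod f) : Prop := ∃ j, ∃ s, s < m j ∧ x = i j + (s : ℕ)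

theorem exists_gap [Nonempty J] (h : IsWords p f a i m) : ∃ j0, ¬ Cov i m (i j0 - 1) := by
  classical
  by_contra hc
  push Not at hc
  have h1 : ∀ x, Cov i m x → Cov i m (x - 1) := by
    rintro x ⟨j, s, hs, rfl⟩
    rcases Nat.eq_zero_or_pos s with h0 | h0
    · rw [h0, Nat.cast_zero, add_zero]
      exact hc j
    · refine ⟨j, s - 1, by omega, ?_⟩
      rw [Nat.cast_sub h0]
      push_cast
      ring
  obtain ⟨j⟩ := ‹Nonempty J›
  have h2 : ∀ n : ℕ, Cov i m (i j - n) := by
    intro n
    induction n with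
    | zero =>
      refine ⟨j, 0, by have := (h.word j).1; omega, ?_⟩
      rw [Nat.cast_zero, sub_zero, add_zero]
    | succ n ih =>
      have h3 := h1 _ ih
      have e : i j - (n : ZMod f) - 1 = i j - ((n + 1 : ℕ) : ZMod f) := by
        push_cast
        ring
      rwa [e] at h3
  have h3 : ∀ x, Cov i m x := by
    intro x
    have h4 := h2 (i j - x).val
    rwa [ZMod.natCast_val, ZMod.cast_id', id_eq, sub_sub_cancel] at h4
  have h4 : (Finset.univ : Finset (ZMod f)) ⊆
      Finset.univ.biUnion fun j => (Finset.range (m j)).image fun s : ℕ => i j + (s : ZMod f) := by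
    intro x _
    obtain ⟨j', s, hs, hx⟩ := h3 x
    rw [Finset.mem_biUnion]
    exact ⟨j', Finset.mem_univ _, Finset.mem_image.2 ⟨s, Finset.mem_range.2 hs, hx.symm⟩⟩
  have h5 := Finset.card_le_card h4
  have h6 : (Finset.univ : Finset (ZMod f)).card = f := by
    rw [Finset.card_univ, ZMod.card]
  have h7 : (Finset.univ.biUnion fun j =>
      (Finset.range (m j)).image fun s : ℕ => i j + (s : ZMod f)).card ≤ ∑ j, m j := by
    refine Finset.card_biUnion_le.trans ?_
    refine Finset.sum_le_sum fun j' _ => ?_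
    exact Finset.card_image_le.trans (Finset.card_range _).le
  have h8 := h.sum_lt
  omega

omit [NeZero f] [Fintype J] in
theorem PW_iff {i0 : ZMod f} {t : ℕ} :
    PW i m i0 t = true ↔ ∃ j, ∃ s : ℕ, s + 1 < m j ∧ i0 + (t : ZMod f) = i j + (s : ℕ) := by
  classical
  unfold PW
  exact decide_eq_true_iff

omit [NeZero f] [Fintype J] in
theorem PW_false {i0 : ZMod f} {t : ℕ} :
    PW i m i0 t = false ↔
      ¬ ∃ j, ∃ s : ℕ, s + 1 < m j ∧ i0 + (t : ZMod f) = i j + (s : ℕ) := by
  rw [← PW_iff]
  cases PW i m i0 t <;> simp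

theorem castsub_one : ((f - 1 : ℕ) : ZMod f) = -1 := by
  have hf : 0 < f := Nat.pos_of_ne_zero (NeZero.ne f)
  have : ((f - 1 + 1 : ℕ) : ZMod f) = 0 := by
    rw [Nat.sub_add_cancel hf, ZMod.natCast_self]
  push_cast at this
  exact eq_neg_of_add_eq_zero_left this

theorem goodP_PW (h : IsWords p f a i m) {j0 : J} (h0 : ¬ Cov i m (i j0 - 1)) :
    GoodP (PW i m (i j0)) f := by
  have hw := h.word j0
  have hm := hw.1
  have hmf := hw.2.1
  refine ⟨?_, ?_, ?_⟩
  · rw [PW_iff]
    exact ⟨j0, 0, by omega, by rw [Nat.cast_zero]⟩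
  · rw [PW_false]
    rintro ⟨j, s, hs, e⟩
    apply h0
    refine ⟨j, s + 1, hs, ?_⟩
    have e2 : ((f - 2 : ℕ) : ZMod f) = -2 := by
      have e3 : f - 2 = f - 1 - 1 := by omega
      rw [e3, Nat.cast_sub (by omega), castsub_one]
      push_cast
      ring
    rw [e2] at e
    push_cast
    linear_combination e
  · rw [PW_false]
    rintro ⟨j, s, hs, e⟩
    apply h0
    refine ⟨j, s, by omega, ?_⟩
    rw [castsub_one] at e
    linear_combination e

omit [NeZero f] in
/-- positions inside the words -/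
theorem pm_iff (h : IsWords p f a i m) {j0 : J} (t : ℕ) :
    Pm (PW i m (i j0)) (t + 1) = true ↔
      ∃ j, ∃ s : ℕ, s + 1 < m j ∧ i j0 + ((t + 1 : ℕ) : ZMod f) = i j + ((s + 1 : ℕ) : ZMod f) := by
  have := h
  show PW i m (i j0) t = true ↔ _
  rw [PW_iff]
  constructor
  · rintro ⟨j, s, hs, e⟩
    refine ⟨j, s, hs, ?_⟩
    push_cast
    linear_combination e
  · rintro ⟨j, s, hs, e⟩
    refine ⟨j, s, hs, ?_⟩
    push_cast at e
    linear_combination e

omit [NeZero f] in
theorem isPat_PW (h : IsWords p f a i m) {j0 : J} : IsPat p f a (i j0) (PW i m (i j0)) := by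
  refine ⟨?_, ?_, ?_⟩
  · intro t _ hP hPm
    obtain ⟨j, s, hs, e⟩ := PW_iff.1 hP
    rcases Nat.eq_zero_or_pos s with h1 | h1
    · rw [e, h1, Nat.cast_zero, add_zero]
      exact (h.word j).2.2.1
    · exfalso
      rcases Nat.eq_zero_or_pos t with h2 | h2
      · have h3 : i j0 + ((0 : ℕ) : ZMod f) = i j + (s : ℕ) := by
          rw [← e, h2]
        have h4 := h.inj (j := j0) (s := 0) (by have := (h.word j0).1; omega) (by omega) h3
        omega
      · obtain ⟨r, rfl⟩ : ∃ r, t = r + 1 := ⟨t - 1, by omega⟩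
        have h3 : Pm (PW i m (i j0)) (r + 1) = true := by
          rw [pm_iff h]
          refine ⟨j, s - 1, by omega, ?_⟩
          rw [Nat.sub_add_cancel h1]
          exact e
        rw [hPm] at h3
        exact Bool.noConfusion h3
  · intro t _ hP hPm
    obtain ⟨r, rfl⟩ : ∃ r, t = r + 1 := by
      rcases Nat.eq_zero_or_pos t with h2 | h2
      · rw [h2] at hPm
        exact Bool.noConfusion hPm
      · exact ⟨t - 1, by omega⟩
    obtain ⟨j, s, hs, e⟩ := PW_iff.1 hP
    obtain ⟨j', s', hs', e'⟩ := (pm_iff h r).1 hPm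
    obtain ⟨rfl, h2⟩ := h.inj (by omega) (by omega) (e'.symm.trans e)
    rw [e]
    exact (h.word j').2.2.2.1 s (by omega) (by omega)
  · intro t _ hP hPm
    obtain ⟨r, rfl⟩ : ∃ r, t = r + 1 := by
      rcases Nat.eq_zero_or_pos t with h2 | h2
      · rw [h2] at hPm
        exact Bool.noConfusion hPm
      · exact ⟨t - 1, by omega⟩
    obtain ⟨j, s, hs, e⟩ := (pm_iff h r).1 hPm
    have h1 : s + 1 = m j - 1 := by
      by_contra hc
      exact (PW_false.1 hP) ⟨j, s + 1, by omega, e⟩
    rw [e, h1]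
    exact (h.word j).2.2.2.2

/-- the word of a position -/
noncomputable def om {f : ℕ} {J : Type} (i : J → ZMod f) (m : J → ℕ) (i0 : ZMod f) (t : SP (PW i m i0) f) : J :=
  (PW_iff.1 t.2).choose

omit [NeZero f] [Fintype J] in
theorem om_spec (i0 : ZMod f) (t : SP (PW i m i0) f) :
    ∃ s : ℕ, s + 1 < m (om i m i0 t) ∧
      i0 + (((t : Fin f) : ℕ) : ZMod f) = i (om i m i0 t) + (s : ℕ) :=
  (PW_iff.1 t.2).choose_spec

omit [NeZero f] in
theorem om_eq (h : IsWords p f a i m) (i0 : ZMod f) (t : SP (PW i m i0) f) {j : J} {s : ℕ}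
    (hs : s < m j) (e : i0 + (((t : Fin f) : ℕ) : ZMod f) = i j + (s : ℕ)) :
    om i m i0 t = j := by
  obtain ⟨s', hs', e'⟩ := om_spec i0 t
  exact (h.inj (by omega) hs (e'.symm.trans e)).1

omit [NeZero f] in
theorem om_succ (h : IsWords p f a i m) (i0 : ZMod f) (s t : SP (PW i m i0) f)
    (hst : ((t : Fin f) : ℕ) = ((s : Fin f) : ℕ) + 1) : om i m i0 t = om i m i0 s := by
  obtain ⟨r, hr, e⟩ := om_spec i0 s
  refine om_eq h i0 t (s := r + 1) hr ?_
  rw [hst]
  push_cast
  linear_combination e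

theorem posval (x i0 : ZMod f) : i0 + (((x - i0).val : ℕ) : ZMod f) = x := by
  rw [ZMod.natCast_val, ZMod.cast_id', id_eq, add_sub_cancel]

theorem card_fibre (h : IsWords p f a i m) (i0 : ZMod f) [DecidableEq J] (j : J) :
    Fintype.card {t : SP (PW i m i0) f // om i m i0 t = j} = m j - 1 := by
  have hmf := (h.word j).2.1
  have hP : ∀ s : Fin (m j - 1), PW i m i0 (i j + ((s : ℕ) : ZMod f) - i0).val = true := by
    intro s
    have := s.2
    rw [PW_iff]
    exact ⟨j, s, by omega, posval _ _⟩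
  let g : Fin (m j - 1) → {t : SP (PW i m i0) f // om i m i0 t = j} := fun s =>
    ⟨⟨⟨(i j + ((s : ℕ) : ZMod f) - i0).val, ZMod.val_lt _⟩, hP s⟩,
      om_eq h i0 _ (s := s) (by have := s.2; omega) (posval _ _)⟩
  have hg : Function.Bijective g := by
    constructor
    · intro s s' hss
      have h1 : (i j + ((s : ℕ) : ZMod f) - i0).val = (i j + ((s' : ℕ) : ZMod f) - i0).val :=
        congrArg (fun t : {t : SP (PW i m i0) f // om i m i0 t = j} => ((t.1 : Fin f) : ℕ)) hss
      have h2 := ZMod.val_injective f h1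
      have h3 : i j + ((s : ℕ) : ZMod f) = i j + ((s' : ℕ) : ZMod f) := by
        linear_combination h2
      have := s.2
      have := s'.2
      exact Fin.ext (h.inj (by omega) (by omega) h3).2
    · rintro ⟨t, ht⟩
      obtain ⟨s, hs, e⟩ := om_spec i0 t
      rw [ht] at hs e
      refine ⟨⟨s, by omega⟩, ?_⟩
      apply Subtype.ext
      apply Subtype.ext
      apply Fin.ext
      show (i j + ((s : ℕ) : ZMod f) - i0).val = ((t : Fin f) : ℕ)
      rw [← e, add_sub_cancel_left, ZMod.val_natCast_of_lt (t : Fin f).2]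
  have h1 := Fintype.card_of_bijective hg
  rw [← h1, Fintype.card_fin]

/-- the stops of the words are in bijection with the words -/
theorem card_stop (h : IsWords p f a i m) (j0 : J) :
    Fintype.card {t : Fin f // PW i m (i j0) (t : ℕ) = false ∧
      Pm (PW i m (i j0)) (t : ℕ) = true} = Fintype.card J := by
  have hpos : ∀ j, ∃ r, (i j + ((m j - 1 : ℕ) : ZMod f) - i j0).val = r + 1 := by
    intro j
    rcases Nat.eq_zero_or_pos (i j + ((m j - 1 : ℕ) : ZMod f) - i j0).val with h1 | h1
    · exfalso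
      have h2 := posval (i j + ((m j - 1 : ℕ) : ZMod f)) (i j0)
      rw [h1] at h2
      have h3 := (h.word j).1
      have h4 := (h.word j0).1
      have h5 := h.inj (j := j0) (s := 0) (by omega) (by omega) h2
      omega
    · exact ⟨_, (Nat.sub_add_cancel h1).symm⟩
  have hP : ∀ j, PW i m (i j0) (i j + ((m j - 1 : ℕ) : ZMod f) - i j0).val = false ∧
      Pm (PW i m (i j0)) (i j + ((m j - 1 : ℕ) : ZMod f) - i j0).val = true := by
    intro j
    have h3 := (h.word j).1
    have h2 := posval (i j + ((m j - 1 : ℕ) : ZMod f)) (i j0)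
    constructor
    · rw [PW_false]
      rintro ⟨j', s, hs, e⟩
      rw [h2] at e
      obtain ⟨rfl, h4⟩ := h.inj (by omega) (by omega) e
      omega
    · obtain ⟨r, hr⟩ := hpos j
      rw [hr] at h2 ⊢
      rw [pm_iff h]
      refine ⟨j, m j - 2, by omega, ?_⟩
      rw [h2, show m j - 2 + 1 = m j - 1 by omega]
  let g : J → {t : Fin f // PW i m (i j0) (t : ℕ) = false ∧
      Pm (PW i m (i j0)) (t : ℕ) = true} := fun j =>
    ⟨⟨(i j + ((m j - 1 : ℕ) : ZMod f) - i j0).val, ZMod.val_lt _⟩, hP j⟩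
  have hg : Function.Bijective g := by
    constructor
    · intro j j' hjj
      have h1 : (i j + ((m j - 1 : ℕ) : ZMod f) - i j0).val =
          (i j' + ((m j' - 1 : ℕ) : ZMod f) - i j0).val :=
        congrArg (fun t : {t : Fin f // PW i m (i j0) (t : ℕ) = false ∧
          Pm (PW i m (i j0)) (t : ℕ) = true} => ((t : Fin f) : ℕ)) hjj
      have h2 := ZMod.val_injective f h1
      have h3 : i j + ((m j - 1 : ℕ) : ZMod f) = i j' + ((m j' - 1 : ℕ) : ZMod f) := by
        linear_combination h2
      have := (h.word j).1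
      have := (h.word j').1
      exact (h.inj (by omega) (by omega) h3).1
    · rintro ⟨⟨t, htf⟩, ht1, ht2⟩
      obtain ⟨r, rfl⟩ : ∃ r, t = r + 1 := by
        rcases Nat.eq_zero_or_pos t with h2 | h2
        · subst h2
          exact Bool.noConfusion ht2
        · exact ⟨t - 1, by omega⟩
      obtain ⟨j, s, hs, e⟩ := (pm_iff h r).1 ht2
      have h1 : s + 1 = m j - 1 := by
        by_contra hc
        exact (PW_false.1 ht1) ⟨j, s + 1, by omega, e⟩
      refine ⟨j, ?_⟩
      apply Subtype.ext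
      apply Fin.ext
      show (i j + ((m j - 1 : ℕ) : ZMod f) - i j0).val = r + 1
      rw [← h1, ← e, add_sub_cancel_left, ZMod.val_natCast_of_lt htf]
  exact (Fintype.card_of_bijective hg).symm

theorem card_SP_OP (h : IsWords p f a i m) (j0 : J) :
    Fintype.card (SP (PW i m (i j0)) f) + Fintype.card (OP (PW i m (i j0)) f) +
      Fintype.card J = f := by
  classical
  rw [← card_stop h j0, Fintype.card_subtype, Fintype.card_subtype, Fintype.card_subtype]
  have h1 : (Finset.univ : Finset (Fin f)).card = f := by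
    rw [Finset.card_univ, Fintype.card_fin]
  have h2 : (Finset.univ.filter fun t : Fin f => PW i m (i j0) (t : ℕ) = true).card +
      (Finset.univ.filter fun t : Fin f => ¬ PW i m (i j0) (t : ℕ) = true).card = f := by
    rw [Finset.card_filter_add_card_filter_not, h1]
  have h3 : (Finset.univ.filter fun t : Fin f => ¬ PW i m (i j0) (t : ℕ) = true).card =
      (Finset.univ.filter fun t : Fin f => PW i m (i j0) (t : ℕ) = false ∧
        Pm (PW i m (i j0)) (t : ℕ) = false).card +
      (Finset.univ.filter fun t : Fin f => PW i m (i j0) (t : ℕ) = false ∧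
        Pm (PW i m (i j0)) (t : ℕ) = true).card := by
    rw [← Finset.card_union_of_disjoint]
    · congr 1
      ext t
      simp only [Finset.mem_filter, Finset.mem_univ, true_and, Finset.mem_union]
      cases PW i m (i j0) (t : ℕ) <;> cases Pm (PW i m (i j0)) (t : ℕ) <;> simp
    · rw [Finset.disjoint_left]
      intro t ht ht'
      simp only [Finset.mem_filter, Finset.mem_univ, true_and] at ht ht'
      rw [ht.2] at ht'
      exact Bool.noConfusion ht'.2
  omega

end

end Pool.Agent.Lib.MP_74d0c9_nt
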