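import Pool.Agent.Lib.MP_74d0c9_nt.Stable
import Pool.Agent.Lib.MP_74d0c9_nt.Comb

/-! Morphisms are integral if the shape contains no word. -/

set_option autoImplicit false

namespace Pool.Agent.Lib.MP_74d0c9_nt

open HahnSeries

universe u

section
variable {A K : Type u} [CommRing A] [Field K] {p f : ℕ} [Fact p.Prime] [NeZero f]
  {a : ZMod f → ℕ}

omit [NeZero f] in
theorem Y_baseChange (M : KisinModule f A) (π : A →+* K) (i : ZMod f) (r s : Fin 2) :
    (M.baseChange π).Y i r s = π (M.Y i r s) := by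
  unfold KisinModule.Y
  rw [Matrix.mul_apply, Matrix.mul_apply, map_sum]
  refine Finset.sum_congr rfl fun t _ => ?_
  rw [map_mul]
  congr 1

/-- Let `A` be a local ring with a local homomorphism to an algebraically closed field. If the shape
contains no word, then every morphism of étale `φ`-modules between two Kisin modules of this shape,
the first of which is residually irreducible, is integral. -/
theorem integral_of_not_hasWord [IsLocalRing A] [IsAlgClosed K] (π : A →+* K) [IsLocalHom π]
    (hp : 5 ≤ p) (ha : ∀ i, 1 ≤ a i ∧ a i ≤ p) (hw : ¬ HasWord p f a) (M N : KisinModule f A)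
    (hM : Irred p ((M.baseChange π).frob a)) (G : ZMod f → Mat A)
    (hG : IsHom p (M.frob a) (N.frob a) G) (i : ZMod f) : Integral (G i) := by
  by_contra hi
  have hle := pole_le_one hG hp ha
  have hi1 : pole (G i) = 1 := by
    have h0 : pole (G i) ≠ 0 := fun h => hi (pole_eq_zero_iff.1 h)
    have := hle i
    omega
  have hy : ∀ y : A, (∃ b : A, b ≠ 0 ∧ b * y = 0) → π y = 0 := by
    rintro y ⟨b, hb, hby⟩
    by_contra hne
    have h1 : IsUnit (π y) := isUnit_iff_ne_zero.2 hne
    have h2 : IsUnit y := (isUnit_map_iff π y).1 h1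
    exact hb ((h2.mul_left_eq_zero).1 hby)
  have h01 : ∀ i, pole (G (i - 1)) = 0 → pole (G i) = 1 →
      a i = 1 ∧ (M.baseChange π).Y i 1 1 = 0 := by
    intro i h0 h1
    refine ⟨step_zero_one hG ha h0 h1, ?_⟩
    rw [Y_baseChange]
    exact hy _ (Y_of_zero_one hG hp ha h0 h1)
  have h11 : ∀ i, pole (G (i - 1)) = 1 → pole (G i) = 1 →
      a i = p - 1 ∧ (M.baseChange π).Y i 1 0 = 0 := by
    intro i h0 h1
    refine ⟨step_one_one hG hp ha h0 h1, ?_⟩
    rw [Y_baseChange]
    exact hy _ (Y_of_one_one hG hp ha h0 h1)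
  have h10 : ∀ i, pole (G (i - 1)) = 1 → pole (G i) = 0 → a i = p :=
    fun i h0 h1 => step_one_zero hG hp ha h0 h1
  by_cases h00 : ∀ i, pole (G (i - 1)) = 0 → pole (G i) = 1
  · exact reducible (M := M.baseChange π) (n := fun i => pole (G i)) hp hle h00 h01 h11 h10 hM
  · push Not at h00
    obtain ⟨j, hj, hj'⟩ := h00
    have hj0 : pole (G j) = 0 := by
      have := hle j
      omega
    exact hw (hasWord_of (n := fun i => pole (G i)) hle (fun i h0 h1 => (h01 i h0 h1).1)
      (fun i h0 h1 => (h11 i h0 h1).1) h10 hj hj0 hi1)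

end

end Pool.Agent.Lib.MP_74d0c9_nt
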