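import Pool.Agent.Lib.MP_74d0c9_nt.Basic

/-! Pole orders of matrices of Laurent series and one step of the Frobenius. -/

set_option autoImplicit false

namespace Pool.Agent.Lib.MP_74d0c9_nt

open HahnSeries

universe u

variable {A : Type u} [CommRing A]

theorem exists_MGE (G : Mat A) : ∃ n : ℕ, MGE G (-(n : ℤ)) := by
  have h : ∀ r s, ∃ n : ℕ, GE (G r s) (-(n : ℤ)) := by
    intro r s
    refine ⟨((G r s).order).natAbs, fun j hj => ?_⟩
    apply coeff_eq_zero_of_lt_order
    omega
  choose n hn using h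
  refine ⟨n 0 0 + n 0 1 + n 1 0 + n 1 1, ?_⟩
  intro r s
  refine (hn r s).mono ?_
  fin_cases r <;> fin_cases s <;> simp <;> omega

/-- the pole order (`0` for integral matrices) -/
noncomputable def pole (G : Mat A) : ℕ := sInf {n : ℕ | MGE G (-(n : ℤ))}

theorem pole_spec (G : Mat A) : MGE G (-(pole G : ℤ)) := Nat.sInf_mem (exists_MGE G)

theorem pole_le {G : Mat A} {n : ℕ} (h : MGE G (-(n : ℤ))) : pole G ≤ n := Nat.sInf_le h

theorem pole_ge {G : Mat A} {r s : Fin 2} {n : ℕ} (h : (G r s).coeff (-(n : ℤ)) ≠ 0) :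
    n ≤ pole G := by
  by_contra hc
  exact h (pole_spec G r s _ (by omega))

theorem pole_ge' {G : Mat A} {r s : Fin 2} {j : ℤ} (h : (G r s).coeff j ≠ 0) :
    -j ≤ (pole G : ℤ) := by
  by_contra hc
  exact h (pole_spec G r s _ (by omega))

theorem coeff_of_pole {G : Mat A} {n : ℕ} (h : pole G ≤ n) (r s : Fin 2) {j : ℤ}
    (hj : j < -(n : ℤ)) : (G r s).coeff j = 0 :=
  pole_spec G r s _ (by omega)

theorem pole_ne {G : Mat A} (h : 1 ≤ pole G) :
    ∃ r s, (G r s).coeff (-(pole G : ℤ)) ≠ 0 := by
  by_contra hc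
  push Not at hc
  have h1 : MGE G (-((pole G - 1 : ℕ) : ℤ)) := by
    intro r s j hj
    rcases lt_or_ge j (-(pole G : ℤ)) with h2 | h2
    · exact pole_spec G r s j h2
    · have : j = -(pole G : ℤ) := by omega
      rw [this]
      exact hc r s
  have := pole_le h1
  omega

theorem pole_eq_zero_iff {G : Mat A} : pole G = 0 ↔ Integral G := by
  constructor
  · intro h r s j hj
    exact coeff_of_pole h.le r s (by simpa using hj)
  · intro h
    apply Nat.le_zero.1
    apply pole_le
    intro r s j hj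
    exact h r s j (by simpa using hj)

theorem pole_congr {G H : Mat A} (h : ∀ m, MGE G m ↔ MGE H m) : pole G = pole H := by
  unfold pole
  congr 1
  ext n
  exact h _

section
variable {p : ℕ} [Fact p.Prime] {a : ℕ} {H K : Mat A}

/-- the relation of one step, for the coefficients -/
structure Rel (p : ℕ) [Fact p.Prime] (a : ℕ) (H K : Mat A) : Prop where
  h00 : ∀ j, (H 0 0).coeff j = (phi A p (K 0 0)).coeff j
  h01 : ∀ j, (H 0 1).coeff j = (phi A p (K 0 1)).coeff (j - a)
  h10 : ∀ j, (H 1 0).coeff j = (phi A p (K 1 0)).coeff (j + a)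
  h11 : ∀ j, (H 1 1).coeff j = (phi A p (K 1 1)).coeff j

theorem Rel.of_eq (h : H * du (a : ℤ) = du (a : ℤ) * K.map (phi A p)) : Rel p a H K := by
  have e : ∀ r s, H r s * (![single (a : ℤ) 1, 1] : Fin 2 → LaurentSeries A) s =
      (![single (a : ℤ) 1, 1] : Fin 2 → LaurentSeries A) r * phi A p (K r s) := by
    intro r s
    have := congrFun (congrFun h r) s
    rwa [du, Matrix.mul_diagonal, Matrix.diagonal_mul, Matrix.map_apply] at this
  constructor
  · intro j
    have := congrArg (fun x : LaurentSeries A => x.coeff (j + a)) (e 0 0)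
    simp only [Matrix.cons_val_zero] at this
    rw [coeff_mul_single_add, coeff_single_mul] at this
    simpa using this
  · intro j
    have := congrArg (fun x : LaurentSeries A => x.coeff j) (e 0 1)
    simp only [Matrix.cons_val_zero, Matrix.cons_val_one, mul_one] at this
    rw [coeff_single_mul] at this
    simpa using this
  · intro j
    have := congrArg (fun x : LaurentSeries A => x.coeff (j + a)) (e 1 0)
    simp only [Matrix.cons_val_zero, Matrix.cons_val_one, one_mul] at this
    rw [coeff_mul_single_add] at this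
    simpa using this
  · intro j
    have := congrArg (fun x : LaurentSeries A => x.coeff j) (e 1 1)
    simp only [Matrix.cons_val_one, Matrix.cons_val_zero, one_mul, mul_one] at this
    exact this

/-- a pole of order at least two grows -/
theorem Rel.grow (h : Rel p a H K) (hp : 5 ≤ p) (ha : 1 ≤ a) (hap : a ≤ p) (hK : 2 ≤ pole K) :
    pole K + 1 ≤ pole H := by
  obtain ⟨r, s, hrs⟩ := pole_ne (show 1 ≤ pole K by omega)
  set n : ℤ := (pole K : ℤ) with hn
  have hn2 : 2 ≤ n := by omega
  have hp5 : (5 : ℤ) ≤ p := by exact_mod_cast hp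
  have hapz : (a : ℤ) ≤ p := by exact_mod_cast hap
  have key : n + 1 ≤ (pole H : ℤ) := by
    fin_cases r <;> fin_cases s
    · have h1 : (H 0 0).coeff (p * (-n)) ≠ 0 := by
        rw [h.h00, phi_coeff]; exact hrs
      have := pole_ge' h1
      nlinarith
    · have h1 : (H 0 1).coeff (p * (-n) + a) ≠ 0 := by
        rw [h.h01, add_sub_cancel_right, phi_coeff]; exact hrs
      have := pole_ge' h1
      nlinarith
    · have h1 : (H 1 0).coeff (p * (-n) - a) ≠ 0 := by
        rw [h.h10, sub_add_cancel, phi_coeff]; exact hrs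
      have := pole_ge' h1
      nlinarith
    · have h1 : (H 1 1).coeff (p * (-n)) ≠ 0 := by
        rw [h.h11, phi_coeff]; exact hrs
      have := pole_ge' h1
      nlinarith
  omega

omit [Fact (Nat.Prime p)] in
theorem not_dvd_neg_one (hp : 5 ≤ p) : ¬ (p : ℤ) ∣ -1 := by
  intro h
  have := Int.le_of_dvd (by norm_num : (0 : ℤ) < 1) ((dvd_neg (b := (1 : ℤ))).1 h)
  omega

/-- a pole of order one -/
theorem Rel.one (h : Rel p a H K) (hp : 5 ≤ p) (hap : a ≤ p) (hK : pole K = 1)
    (hH : pole H ≤ 1) :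
    (K 0 1).coeff (-1) ≠ 0 ∧ (K 0 0).coeff (-1) = 0 ∧ (K 1 0).coeff (-1) = 0 ∧
      (K 1 1).coeff (-1) = 0 ∧ ((pole H = 1 ∧ a = p - 1 ∧ (H 0 0).coeff (-1) = 0 ∧
        (H 1 0).coeff (-1) = 0 ∧ (H 1 1).coeff (-1) = 0) ∨ (pole H = 0 ∧ a = p)) := by
  have hp5 : (5 : ℤ) ≤ p := by exact_mod_cast hp
  have hapz : (a : ℤ) ≤ p := by exact_mod_cast hap
  have e00 : (K 0 0).coeff (-1) = 0 := by
    have := coeff_of_pole hH 0 0 (j := p * (-1)) (by push_cast; linarith)
    rwa [h.h00, phi_coeff] at this
  have e11 : (K 1 1).coeff (-1) = 0 := by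
    have := coeff_of_pole hH 1 1 (j := p * (-1)) (by push_cast; linarith)
    rwa [h.h11, phi_coeff] at this
  have e10 : (K 1 0).coeff (-1) = 0 := by
    have := coeff_of_pole hH 1 0 (j := p * (-1) - a) (by push_cast; linarith)
    rwa [h.h10, sub_add_cancel, phi_coeff] at this
  have e01 : (K 0 1).coeff (-1) ≠ 0 := by
    obtain ⟨r, s, hrs⟩ := pole_ne (show 1 ≤ pole K by omega)
    rw [hK] at hrs
    fin_cases r <;> fin_cases s
    · exact absurd e00 hrs
    · exact hrs
    · exact absurd e10 hrs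
    · exact absurd e11 hrs
  have hpa : (p : ℤ) - a ≤ pole H := by
    have h1 : (H 0 1).coeff (p * (-1) + a) ≠ 0 := by
      rw [h.h01, add_sub_cancel_right, phi_coeff]; exact e01
    have := pole_ge' h1
    linarith
  refine ⟨e01, e00, e10, e11, ?_⟩
  have hnd := not_dvd_neg_one (p := p) hp
  rcases eq_or_lt_of_le hap with hap' | hap'
  · right
    refine ⟨?_, hap'⟩
    have f0 : (K 1 0).coeff 0 = 0 := by
      have := coeff_of_pole hH 1 0 (j := -(a : ℤ)) (by push_cast; omega)
      rw [h.h10, neg_add_cancel, show (0 : ℤ) = p * 0 by ring, phi_coeff] at this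
      exact this
    have hneg : ∀ r s, ∀ j : ℤ, j < -1 → (K r s).coeff j = 0 := by
      intro r s j hj
      exact coeff_of_pole hK.le r s (by simpa using hj)
    have hppos : (0 : ℤ) < p := by linarith
    have g1 : ∀ x : LaurentSeries A, (∀ j : ℤ, j < -1 → x.coeff j = 0) → x.coeff (-1) = 0 →
        ∀ j : ℤ, j < 0 → (phi A p x).coeff j = 0 := by
      intro x hx hx1 j hj
      by_cases hd : (p : ℤ) ∣ j
      · obtain ⟨n, rfl⟩ := hd
        rw [phi_coeff]
        have hn : n < 0 := by
          by_contra hc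
          have : 0 ≤ (p : ℤ) * n := mul_nonneg hppos.le (not_lt.1 hc)
          omega
        rcases eq_or_lt_of_le (show n ≤ -1 by omega) with h2 | h2
        · rw [h2]; exact hx1
        · exact hx n h2
      · exact phi_coeff_zero p x hd
    rw [pole_eq_zero_iff]
    intro r s j hj
    fin_cases r <;> fin_cases s
    · show (H 0 0).coeff j = 0
      rw [h.h00]
      exact g1 _ (hneg 0 0) e00 j hj
    · show (H 0 1).coeff j = 0
      rw [h.h01]
      by_cases hd : (p : ℤ) ∣ j - a
      · obtain ⟨n, hn⟩ := hd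
        rw [hn, phi_coeff]
        apply hneg
        by_contra hc
        have : (p : ℤ) * (-1) ≤ p * n := mul_le_mul_of_nonneg_left (not_lt.1 hc) hppos.le
        have haz : (a : ℤ) = p := by exact_mod_cast hap'
        linarith
      · exact phi_coeff_zero p _ hd
    · show (H 1 0).coeff j = 0
      rw [h.h10]
      by_cases hd : (p : ℤ) ∣ j + a
      · obtain ⟨n, hn⟩ := hd
        rw [hn, phi_coeff]
        have haz : (a : ℤ) = p := by exact_mod_cast hap'
        have hn1 : n < 1 := by
          by_contra hc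
          have : (p : ℤ) * 1 ≤ p * n := mul_le_mul_of_nonneg_left (not_lt.1 hc) hppos.le
          linarith
        rcases eq_or_lt_of_le (show n ≤ 0 by omega) with h2 | h2
        · rw [h2]; exact f0
        · rcases eq_or_lt_of_le (show n ≤ -1 by omega) with h3 | h3
          · rw [h3]; exact e10
          · exact hneg 1 0 n h3
      · exact phi_coeff_zero p _ hd
    · show (H 1 1).coeff j = 0
      rw [h.h11]
      exact g1 _ (hneg 1 1) e11 j hj
  · left
    have haz : (a : ℤ) = p - 1 := by omega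
    refine ⟨by omega, by omega, ?_, ?_, ?_⟩
    · rw [h.h00]; exact phi_coeff_zero p _ hnd
    · rw [h.h10]
      apply phi_coeff_zero
      rw [haz]
      intro hd
      apply not_dvd_neg_one (p := p) hp
      have h2 : (p : ℤ) ∣ (-1 + ((p : ℤ) - 1)) - p := dvd_sub hd (dvd_refl _)
      have h3 : (-1 + ((p : ℤ) - 1)) - p = -2 := by ring
      rw [h3] at h2
      have := Int.le_of_dvd (by norm_num : (0 : ℤ) < 2) ((dvd_neg (b := (2 : ℤ))).1 h2)
      omega
    · rw [h.h11]; exact phi_coeff_zero p _ hnd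

/-- a new pole -/
theorem Rel.new (h : Rel p a H K) (ha : 1 ≤ a) (hap : a ≤ p) (hK : pole K = 0)
    (hH : pole H = 1) :
    a = 1 ∧ (H 0 0).coeff (-1) = 0 ∧ (H 0 1).coeff (-1) = 0 ∧ (H 1 1).coeff (-1) = 0 := by
  have hKi := pole_eq_zero_iff.1 hK
  have hphi : ∀ r s, ∀ j : ℤ, j < 0 → (phi A p (K r s)).coeff j = 0 := by
    intro r s j hj
    have h1 : GE (K r s) 0 := hKi r s
    have := phi_GE p h1
    rw [mul_zero] at this
    exact this j hj
  have e00 : (H 0 0).coeff (-1) = 0 := by rw [h.h00]; exact hphi _ _ _ (by norm_num)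
  have e11 : (H 1 1).coeff (-1) = 0 := by rw [h.h11]; exact hphi _ _ _ (by norm_num)
  have e01 : (H 0 1).coeff (-1) = 0 := by rw [h.h01]; exact hphi _ _ _ (by omega)
  refine ⟨?_, e00, e01, e11⟩
  have e10 : (H 1 0).coeff (-1) ≠ 0 := by
    obtain ⟨r, s, hrs⟩ := pole_ne (show 1 ≤ pole H by omega)
    rw [hH] at hrs
    fin_cases r <;> fin_cases s
    · exact absurd e00 hrs
    · exact absurd e01 hrs
    · exact hrs
    · exact absurd e11 hrs
  rw [h.h10] at e10
  by_contra hne
  apply e10
  apply phi_coeff_zero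
  intro hd
  have hpos : (0 : ℤ) < -1 + a := by omega
  have := Int.le_of_dvd hpos hd
  omega

end

end Pool.Agent.Lib.MP_74d0c9_nt
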