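import Pool.Agent.Lib.MP_74d0c9_nt.Example

/-! Poles of the solutions of Frobenius equations. -/

set_option autoImplicit false

namespace Pool.Agent.Lib.MP_74d0c9_nt

open HahnSeries

universe u

section
variable {k : Type u} [CommRing k] {p : ℕ} [Fact p.Prime]

/-- `x` has a pole of order at least `n` -/
def PL (x : LaurentSeries k) (n : ℤ) : Prop := ∃ j : ℤ, j ≤ -n ∧ x.coeff j ≠ 0

theorem not_PL {x : LaurentSeries k} (h : ¬ PL x 1) : GE x 0 := by
  intro j hj
  by_contra hc
  exact h ⟨j, by omega, hc⟩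

theorem PL.bound (x : LaurentSeries k) : ∃ N : ℕ, ∀ n : ℤ, N ≤ n → ¬ PL x n := by
  by_cases hx : x = 0
  · refine ⟨0, fun n _ h => ?_⟩
    obtain ⟨j, -, hj⟩ := h
    rw [hx] at hj
    exact hj rfl
  · refine ⟨(-x.order).toNat + 1, fun n hn h => ?_⟩
    obtain ⟨j, hj, hj'⟩ := h
    have h1 : x.order ≤ j := order_le_of_coeff_ne_zero hj'
    have h2 : -x.order ≤ (-x.order).toNat := Int.self_le_toNat _
    push_cast at hn
    omega

theorem PL.mono {x : LaurentSeries k} {n m : ℤ} (h : PL x n) (hm : m ≤ n) : PL x m := by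
  obtain ⟨j, hj, hj'⟩ := h
  exact ⟨j, by omega, hj'⟩

theorem PL.phi {x : LaurentSeries k} {n : ℤ} (h : PL x n) : PL (phi k p x) (p * n) := by
  obtain ⟨j, hj, hj'⟩ := h
  refine ⟨p * j, ?_, ?_⟩
  · have hp : (0 : ℤ) ≤ p := by positivity
    nlinarith
  · rw [phi_coeff]
    exact hj'

theorem PL.add_single {x : LaurentSeries k} {n : ℤ} (h : PL x n) {m : ℤ} (hm : -n < m) (c : k) :
    PL (x + single m c) n := by
  obtain ⟨j, hj, hj'⟩ := h
  refine ⟨j, hj, ?_⟩
  rw [coeff_add, coeff_single_of_ne (by omega), add_zero]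
  exact hj'

theorem PL.un_mul {x : LaurentSeries k} {n : ℤ} (h : PL x n) (a : ℤ) :
    PL (un a * x) (n - a) := by
  obtain ⟨j, hj, hj'⟩ := h
  refine ⟨j + a, by omega, ?_⟩
  unfold un
  rw [coeff_single_mul, one_mul, add_sub_cancel_right]
  exact hj'

theorem PL.of_un_mul {x : LaurentSeries k} {n : ℤ} {a : ℤ} (h : PL (un a * x) n) :
    PL x (n + a) := by
  obtain ⟨j, hj, hj'⟩ := h
  refine ⟨j - a, by omega, ?_⟩
  unfold un at hj'
  rwa [coeff_single_mul, one_mul] at hj'

/-- a family of Laurent series has no poles if every pole leads to a bigger pole -/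
theorem no_poles {ι : Type} [Finite ι] {h : ι → LaurentSeries k}
    (hs : ∀ (i : ι) (n : ℤ), 1 ≤ n → PL (h i) n → ∃ i', PL (h i') (n + 1)) (i : ι) :
    ¬ PL (h i) 1 := by
  intro hi
  have h1 : ∀ n : ℕ, ∃ i, PL (h i) (n + 1) := by
    intro n
    induction n with
    | zero => exact ⟨i, by simpa using hi⟩
    | succ n ih =>
      obtain ⟨i', hi'⟩ := ih
      obtain ⟨i'', hi''⟩ := hs i' _ (by omega) hi'
      exact ⟨i'', by push_cast; exact hi''⟩
  choose N hN using fun i => PL.bound (h i)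
  haveI := Fintype.ofFinite ι
  obtain ⟨i', hi'⟩ := h1 (∑ i, N i)
  apply hN i' _ _ hi'
  have h2 : N i' ≤ ∑ i, N i := Finset.single_le_sum (f := N) (fun _ _ => Nat.zero_le _)
    (Finset.mem_univ i')
  push_cast
  have h3 : ((N i' : ℕ) : ℤ) ≤ ((∑ i, N i : ℕ) : ℤ) := by exact_mod_cast h2
  push_cast at h3
  omega

theorem two_le_p : (2 : ℤ) ≤ p := by exact_mod_cast (Fact.out : p.Prime).two_le

theorem phi_coeff_neg_one (x : LaurentSeries k) : (phi k p x).coeff (-1) = 0 := by
  apply phi_coeff_zero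
  intro h
  have h1 := Int.eq_one_of_dvd_one (by positivity) ((dvd_neg).1 h)
  have h2 := two_le_p (p := p)
  omega

theorem phi_coeff_zero' (x : LaurentSeries k) : (phi k p x).coeff 0 = x.coeff 0 := by
  have := phi_coeff p x 0
  rwa [mul_zero] at this

theorem phi_pole {x : LaurentSeries k} {n : ℤ} (hn : 1 ≤ n) (h : PL x n) (c : k) :
    PL (phi k p x + single (-1) c) (p * n) := by
  apply h.phi.add_single
  have h2 := two_le_p (p := p)
  nlinarith

end

section
variable {k : Type u} [CommRing k] {p : ℕ} [Fact p.Prime]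

/-- the diagonal part -/
theorem diag_part {m f : ℕ} (hm : 2 ≤ m) (hmf : m < f) {η : ℕ → LaurentSeries k} {n : ℕ → k}
    (h0 : η 0 = phi k p (η (f - 1)) + single (-1) (n 0))
    (h1 : ∀ t, t + 1 < m - 1 → η (t + 1) = phi k p (η t) + single (-1) (n (t + 1)))
    (h2 : ∀ t, m - 1 ≤ t + 1 → t + 1 < f - 1 → η (t + 1) = phi k p (η t))
    (h3 : η (f - 1) = -phi k p (η (f - 2))) {t : ℕ} (ht : t < m - 1) : n t = 0 := by
  have hp := two_le_p (p := p)
  have key : ∀ i : Fin f, ¬ PL (η i) 1 := by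
    apply no_poles
    rintro ⟨i, hi⟩ n' hn' hpl
    have hmono : n' + 1 ≤ p * n' := by nlinarith
    by_cases c1 : i + 1 < m - 1
    · refine ⟨⟨i + 1, by omega⟩, ?_⟩
      show PL (η (i + 1)) (n' + 1)
      rw [h1 i c1]
      exact (phi_pole hn' hpl _).mono hmono
    · by_cases c2 : i + 1 < f - 1
      · refine ⟨⟨i + 1, by omega⟩, ?_⟩
        show PL (η (i + 1)) (n' + 1)
        rw [h2 i (by omega) c2]
        exact (hpl.phi).mono hmono
      · by_cases c3 : i + 1 = f - 1
        · refine ⟨⟨f - 1, by omega⟩, ?_⟩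
          show PL (η (f - 1)) (n' + 1)
          rw [h3]
          have e : f - 2 = i := by omega
          rw [e]
          obtain ⟨j, hj, hj'⟩ := ((hpl.phi (p := p)).mono hmono)
          refine ⟨j, hj, ?_⟩
          rw [coeff_neg]
          exact neg_ne_zero.2 hj'
        · refine ⟨⟨0, by omega⟩, ?_⟩
          show PL (η 0) (n' + 1)
          rw [h0]
          have e : f - 1 = i := by omega
          rw [e]
          exact (phi_pole hn' hpl _).mono hmono
  have hge : ∀ t, t < f → GE (η t) 0 := fun t ht => not_PL (key ⟨t, ht⟩)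
  rcases Nat.eq_zero_or_pos t with h4 | h4
  · subst h4
    have h5 := hge 0 (by omega) (-1) (by norm_num)
    rw [h0, coeff_add, phi_coeff_neg_one, zero_add, coeff_single_same] at h5
    exact h5
  · obtain ⟨s, rfl⟩ : ∃ s, t = s + 1 := ⟨t - 1, by omega⟩
    have h5 := hge (s + 1) (by omega) (-1) (by norm_num)
    rw [h1 s ht, coeff_add, phi_coeff_neg_one, zero_add, coeff_single_same] at h5
    exact h5

/-- the scalar part -/
theorem trace_part {f : ℕ} (hf : 0 < f) {τ : ℕ → LaurentSeries k} {c : k}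
    (h0 : τ 0 = phi k p (τ (f - 1)) + single 0 c)
    (h1 : ∀ t, t + 1 < f → τ (t + 1) = phi k p (τ t)) : c = 0 := by
  have h2 : ∀ t, t < f → (τ t).coeff 0 = (τ 0).coeff 0 := by
    intro t
    induction t with
    | zero => intro _; rfl
    | succ t ih =>
      intro ht
      rw [h1 t ht, phi_coeff_zero', ih (by omega)]
  have h3 := congrArg (fun x => x.coeff 0) h0
  simp only [coeff_add, phi_coeff_zero', coeff_single_same] at h3
  rw [h2 (f - 1) (by omega)] at h3
  exact left_eq_add.1 h3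

end

end Pool.Agent.Lib.MP_74d0c9_nt
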