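import Pool.Agent.Lib.MP_74d0c9_nt.Basic

/-! A family of invertible integral matrices has a Frobenius eigenvector. -/

set_option autoImplicit false

namespace Pool.Agent.Lib.MP_74d0c9_nt

open HahnSeries

universe u

section
variable {k : Type u} [Field k] {f : ℕ}

/-- the coefficients of the solution -/
noncomputable def cc (p : ℕ) (hp : 2 ≤ p) (U : ZMod f → Fin 2 → Fin 2 → ℕ → k) (μ : k)
    (x : ZMod f → Fin 2 → k) : ℕ → ZMod f → Fin 2 → k
  | 0 => x
  | n + 1 => fun i r => μ⁻¹ * ∑ s : Fin 2, ∑ q : Fin (n + 2), U i r s q *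
      (if p ∣ n + 1 - (q : ℕ) then
        have : (n + 1 - (q : ℕ)) / p < n + 1 := by
          have h1 : (n + 1 - (q : ℕ)) / p ≤ (n + 1) / 2 :=
            (Nat.div_le_div_right (Nat.sub_le _ _)).trans (Nat.div_le_div_left hp (by norm_num))
          omega
        cc p hp U μ x ((n + 1 - (q : ℕ)) / p) (i - 1) s else 0)

theorem cc_zero (p : ℕ) (hp : 2 ≤ p) (U : ZMod f → Fin 2 → Fin 2 → ℕ → k) (μ : k)
    (x : ZMod f → Fin 2 → k) : cc p hp U μ x 0 = x := by
  rw [cc]

theorem cc_succ (p : ℕ) (hp : 2 ≤ p) (U : ZMod f → Fin 2 → Fin 2 → ℕ → k) (μ : k)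
    (x : ZMod f → Fin 2 → k) (n : ℕ) (i : ZMod f) (r : Fin 2) :
    cc p hp U μ x (n + 1) i r = μ⁻¹ * ∑ s : Fin 2, ∑ q : Fin (n + 2), U i r s q *
      (if p ∣ n + 1 - (q : ℕ) then cc p hp U μ x ((n + 1 - (q : ℕ)) / p) (i - 1) s else 0) := by
  rw [cc]

end

section
variable {k : Type u} [Field k]

/-- the Frobenius on power series -/
noncomputable def phiP (p : ℕ) (w : PowerSeries k) : PowerSeries k :=
  PowerSeries.mk fun n => if p ∣ n then PowerSeries.coeff (n / p) w else 0

theorem phi_ps (p : ℕ) [Fact p.Prime] (w : PowerSeries k) : phi k p (ps w) = ps (phiP p w) := by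
  have hp : 0 < p := (Fact.out : p.Prime).pos
  have hpz : (0 : ℤ) < p := by exact_mod_cast hp
  ext j
  by_cases hd : (p : ℤ) ∣ j
  · obtain ⟨n, rfl⟩ := hd
    rw [phi_coeff]
    rcases lt_or_ge n 0 with hn | hn
    · rw [coeff_ps_neg _ hn, coeff_ps_neg _ (mul_neg_of_pos_of_neg hpz hn)]
    · obtain ⟨m, rfl⟩ := Int.eq_ofNat_of_zero_le hn
      rw [coeff_ps, ← Nat.cast_mul, coeff_ps, phiP, PowerSeries.coeff_mk,
        if_pos (dvd_mul_right p m), Nat.mul_div_cancel_left m hp]
  · rw [phi_coeff_zero p _ hd]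
    rcases lt_or_ge j 0 with hn | hn
    · rw [coeff_ps_neg _ hn]
    · obtain ⟨m, rfl⟩ := Int.eq_ofNat_of_zero_le hn
      rw [coeff_ps, phiP, PowerSeries.coeff_mk, if_neg]
      intro h
      exact hd (by exact_mod_cast h)

/-- Frobenius eigenvectors -/
theorem exists_eigen [IsAlgClosed k] {p f : ℕ} [Fact p.Prime] [NeZero f] (U : ZMod f → Mat k)
    (hU : ∀ i, MGE (U i) 0) (hdet : ∀ i, (lead (U i) 0).det ≠ 0) :
    ∃ (μ : k) (w : ZMod f → Fin 2 → LaurentSeries k), μ ≠ 0 ∧ (∀ i, w i ≠ 0) ∧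
      ∀ i, (U i).mulVec (fun r => phi k p (w (i - 1) r)) = (HahnSeries.C μ : LaurentSeries k) • w i := by
  classical
  have hp2 : 2 ≤ p := (Fact.out : p.Prime).two_le
  -- the operator on constants
  let L : (ZMod f → Fin 2 → k) →ₗ[k] (ZMod f → Fin 2 → k) :=
    { toFun := fun x i => (lead (U i) 0).mulVec (x (i - 1))
      map_add' := by
        intro x y
        funext i
        exact Matrix.mulVec_add (lead (U i) 0) (x (i - 1)) (y (i - 1))
      map_smul' := by
        intro c x
        funext i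
        exact Matrix.mulVec_smul (lead (U i) 0) c (x (i - 1)) }
  have hL : ∀ x i, L x i = (lead (U i) 0).mulVec (x (i - 1)) := fun _ _ => rfl
  have hinj0 : ∀ i (v : Fin 2 → k), (lead (U i) 0).mulVec v = 0 → v = 0 := by
    intro i v hv
    by_contra hne
    exact hdet i (Matrix.exists_mulVec_eq_zero_iff.1 ⟨v, hne, hv⟩)
  have hLinj : ∀ x, L x = 0 → x = 0 := by
    intro x hx
    funext i
    have h1 := congrFun hx (i + 1)
    rw [hL, add_sub_cancel_right] at h1
    exact hinj0 _ _ h1
  obtain ⟨μ, hμ⟩ := Module.End.exists_eigenvalue L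
  obtain ⟨x, hx⟩ := hμ.exists_hasEigenvector
  have hx0 : x ≠ 0 := hx.2
  have hLx : L x = μ • x := hx.apply_eq_smul
  have hμ0 : μ ≠ 0 := by
    rintro rfl
    rw [zero_smul] at hLx
    exact hx0 (hLinj x hLx)
  have hLx' : ∀ i, (lead (U i) 0).mulVec (x (i - 1)) = μ • x i := by
    intro i
    rw [← hL, hLx]
    rfl
  have hxi : ∀ i, x i ≠ 0 := by
    intro i hi
    apply hx0
    have key : ∀ n : ℕ, x (i + n) = 0 := by
      intro n
      induction n with
      | zero => simpa using hi
      | succ n ih =>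
        have h1 := hLx' (i + (n + 1 : ℕ))
        have e : i + ((n + 1 : ℕ) : ZMod f) - 1 = i + n := by push_cast; ring
        rw [e, ih, Matrix.mulVec_zero] at h1
        exact (smul_eq_zero.1 h1.symm).resolve_left hμ0
    funext j
    have h2 := key (j - i).val
    rwa [ZMod.natCast_val, ZMod.cast_id', id_eq, add_sub_cancel] at h2
  -- the coefficients
  let V : ZMod f → Fin 2 → Fin 2 → ℕ → k := fun i r s q => (U i r s).coeff (q : ℤ)
  let c := cc p hp2 V μ x
  have hc0 : c 0 = x := cc_zero p hp2 V μ x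
  let w' : ZMod f → Fin 2 → PowerSeries k := fun i r => PowerSeries.mk fun n => c n i r
  have hUps : ∀ i r s, U i r s = ps (PowerSeries.mk (V i r s)) := by
    intro i r s
    ext j
    rcases lt_or_ge j 0 with hn | hn
    · rw [coeff_ps_neg _ hn, hU i r s j hn]
    · obtain ⟨m, rfl⟩ := Int.eq_ofNat_of_zero_le hn
      rw [coeff_ps, PowerSeries.coeff_mk]
  have hmain : ∀ i r, ∑ s, PowerSeries.mk (V i r s) * phiP p (w' (i - 1) s) =
      PowerSeries.C μ * w' i r := by
    intro i r
    ext n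
    rw [map_sum, PowerSeries.coeff_C_mul]
    have hterm : ∀ s, PowerSeries.coeff n (PowerSeries.mk (V i r s) * phiP p (w' (i - 1) s)) =
        ∑ q : Fin (n + 1), V i r s q *
          (if p ∣ n - (q : ℕ) then c ((n - (q : ℕ)) / p) (i - 1) s else 0) := by
      intro s
      rw [PowerSeries.coeff_mul, Finset.Nat.sum_antidiagonal_eq_sum_range_succ_mk,
        Finset.sum_range]
      refine Finset.sum_congr rfl fun q _ => ?_
      rw [PowerSeries.coeff_mk, phiP, PowerSeries.coeff_mk]
      simp only [w', PowerSeries.coeff_mk]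
    rw [Finset.sum_congr rfl fun s _ => hterm s]
    simp only [w', PowerSeries.coeff_mk]
    cases n with
    | zero =>
      have h1 := congrFun (hLx' i) r
      rw [hc0]
      simp only [dvd_zero, if_true, Nat.zero_div, Pi.smul_apply, smul_eq_mul,
        zero_le, Nat.sub_eq_zero_of_le] at h1 ⊢
      rw [← h1, Matrix.mulVec, dotProduct, hc0]
      refine Finset.sum_congr rfl fun s _ => ?_
      rw [Fin.sum_univ_succ, Fin.sum_univ_zero, add_zero]
      rfl
    | succ n =>
      have h1 : c (n + 1) i r = _ := cc_succ p hp2 V μ x n i r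
      rw [h1, mul_inv_cancel_left₀ hμ0]
  refine ⟨μ, fun i r => ps (w' i r), hμ0, ?_, ?_⟩
  · intro i hi
    apply hxi i
    funext r
    have h1 := congrFun hi r
    have h2 := congrArg (fun y : LaurentSeries k => y.coeff 0) h1
    simp only [Pi.zero_apply, coeff_zero] at h2
    rw [coeff_ps_zero, ← PowerSeries.coeff_zero_eq_constantCoeff_apply] at h2
    simp only [w', PowerSeries.coeff_mk] at h2
    rw [hc0] at h2
    exact h2
  · intro i
    funext r
    rw [Matrix.mulVec, dotProduct]
    have e1 : ∀ s, U i r s * phi k p (ps (w' (i - 1) s)) =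
        ps (PowerSeries.mk (V i r s) * phiP p (w' (i - 1) s)) := by
      intro s
      rw [phi_ps, map_mul, ← hUps]
    rw [Finset.sum_congr rfl fun s _ => e1 s, ← map_sum, hmain, map_mul, Pi.smul_apply,
      smul_eq_mul]
    congr 1
    exact PowerSeries.coe_C (R := k) μ

end

end Pool.Agent.Lib.MP_74d0c9_nt
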