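import Pool.Agent.Lib.MP_74d0c9_nt.Word
import Pool.Agent.Lib.MP_74d0c9_nt.Solve

/-! A stable vertex and reducibility. -/

set_option autoImplicit false

namespace Pool.Agent.Lib.MP_74d0c9_nt

open HahnSeries

universe u

section
variable {k : Type u} [Field k]

/-- diagonal matrices `diag (u ^ c, u ^ d)` -/
noncomputable def dd (c d : ℤ) : Mat k := Matrix.diagonal ![single c 1, single d 1]

theorem dd_mul (c d c' d' : ℤ) : (dd c d : Mat k) * dd c' d' = dd (c + c') (d + d') := by
  unfold dd
  rw [Matrix.diagonal_mul_diagonal]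
  congr 1
  funext i
  fin_cases i
  · show (single c (1 : k) : LaurentSeries k) * single c' 1 = single (c + c') 1
    rw [single_mul_single, one_mul]
  · show (single d (1 : k) : LaurentSeries k) * single d' 1 = single (d + d') 1
    rw [single_mul_single, one_mul]

theorem dd_zero : (dd 0 0 : Mat k) = 1 := by
  unfold dd
  rw [← Matrix.diagonal_one]
  congr 1
  funext i
  fin_cases i <;> rfl

theorem du_eq (a : ℤ) : (du a : Mat k) = dd a 0 := by
  unfold du dd
  congr 1

theorem smul_dd (e c d : ℤ) (G : Mat k) :
    (single e (1 : k) : LaurentSeries k) • (dd c d * G) = dd (e + c) (e + d) * G := by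
  have : (single e (1 : k) : LaurentSeries k) • (dd c d : Mat k) = dd (e + c) (e + d) := by
    unfold dd
    rw [← Matrix.diagonal_smul]
    congr 1
    funext i
    fin_cases i
    · show (single e (1 : k) : LaurentSeries k) * single c 1 = single (e + c) 1
      rw [single_mul_single, one_mul]
    · show (single e (1 : k) : LaurentSeries k) * single d 1 = single (e + d) 1
      rw [single_mul_single, one_mul]
  rw [← Matrix.smul_mul, this]

theorem dd_phi (p : ℕ) [Fact p.Prime] (c d : ℤ) :
    (dd c d : Mat k).map (phi k p) = dd (p * c) (p * d) := by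
  unfold dd
  rw [Matrix.diagonal_map (map_zero _)]
  congr 1
  funext i
  fin_cases i
  · exact phi_single p c 1
  · exact phi_single p d 1

theorem dd_mul_apply (c d : ℤ) (G : Mat k) (r s : Fin 2) :
    (dd c d * G : Mat k) r s = (single (![c, d] r) 1 : LaurentSeries k) * G r s := by
  unfold dd
  rw [Matrix.diagonal_mul]
  fin_cases r <;> rfl

theorem mul_dd_apply (c d : ℤ) (G : Mat k) (r s : Fin 2) :
    (G * dd c d : Mat k) r s = G r s * (single (![c, d] s) 1 : LaurentSeries k) := by
  unfold dd
  rw [Matrix.mul_diagonal]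
  fin_cases s <;> rfl

theorem det_dd (c d : ℤ) : (dd c d : Mat k).det = single (c + d) 1 := by
  unfold dd
  rw [Matrix.det_diagonal, Fin.prod_univ_two]
  exact single_mul_single.trans (by rw [one_mul])

/-- the determinant of the leading matrix -/
theorem det_lead {G : Mat k} (h : MGE G 0) : (lead G 0).det = G.det.coeff 0 := by
  rw [Matrix.det_fin_two, Matrix.det_fin_two, coeff_sub]
  have h1 := ((h 0 0).mul (h 1 1)).2
  have h2 := ((h 0 1).mul (h 1 0)).2
  rw [add_zero] at h1 h2
  rw [h1, h2]
  rfl

theorem GE_single_mul {x : LaurentSeries k} {m c : ℤ} (h : GE x m) :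
    GE ((single c (1 : k) : LaurentSeries k) * x) (c + m) := by
  intro j hj
  rw [coeff_single_mul, one_mul]
  exact h _ (by omega)

end

section
variable {k : Type u} [Field k] {p f : ℕ} [Fact p.Prime] [NeZero f] {a : ZMod f → ℕ}
  {M : KisinModule f k} {n : ZMod f → ℕ}

/-- `Z_i X_{i-1}` -/
noncomputable def Vm (M : KisinModule f k) (i : ZMod f) : Mat k := gz (M.Z i) * gx (M.X (i - 1))

theorem Vm_MGE (i : ZMod f) : MGE (Vm M i) 0 := by
  have := ((gz_MGE (M.Z i)).mul (gx_MGE (M.X (i - 1)))).1
  rwa [add_zero] at this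

theorem lead_Vm (i : ZMod f) : lead (Vm M (i + 1)) 0 = M.Y i := by
  have := ((gz_MGE (M.Z (i + 1))).mul (gx_MGE (M.X (i + 1 - 1)))).2
  rw [add_zero, lead_gz, lead_gx] at this
  have e : i + 1 - 1 = i := add_sub_cancel_right i 1
  unfold Vm KisinModule.Y
  rw [this, e]

theorem lead_Vm' (i : ZMod f) : lead (Vm M i) 0 = M.Y (i - 1) := by
  have := lead_Vm (M := M) (i - 1)
  rwa [sub_add_cancel] at this

theorem det_Vm (i : ZMod f) : (lead (Vm M i) 0).det ≠ 0 := by
  have h1 := ((gz_MGE (M.Z i)).mul (gx_MGE (M.X (i - 1)))).2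
  rw [add_zero, lead_gz, lead_gx] at h1
  unfold Vm
  rw [h1, Matrix.det_mul]
  apply mul_ne_zero
  · exact ((Matrix.isUnit_iff_isUnit_det _).1 (M.Z i).isUnit).ne_zero
  · have h2 : ((M.X (i - 1)).1.map PowerSeries.constantCoeff).det =
        PowerSeries.constantCoeff (M.X (i - 1)).1.det := by
      rw [RingHom.map_det]
      rfl
    rw [h2]
    exact (((Matrix.isUnit_iff_isUnit_det _).1 (M.X (i - 1)).isUnit).map
      PowerSeries.constantCoeff).ne_zero

theorem Wm_MGE (i : ZMod f) : MGE ((Vm M i).map (phi k p)) 0 := by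
  intro r s
  have := phi_GE p (Vm_MGE (M := M) i r s)
  rwa [mul_zero] at this

theorem lead_Wm (i : ZMod f) : lead ((Vm M i).map (phi k p)) 0 = lead (Vm M i) 0 := by
  ext r s
  have := phi_coeff p (Vm M i r s) 0
  rw [mul_zero] at this
  exact this

/-- entries with constant term zero -/
theorem Wm_GE {i : ZMod f} {r s : Fin 2} (h : M.Y (i - 1) r s = 0) :
    GE ((Vm M i).map (phi k p) r s) p := by
  have h1 : GE (Vm M i r s) 1 := by
    intro j hj
    rcases lt_or_ge j 0 with h2 | h2
    · exact Vm_MGE i r s j h2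
    · have : j = 0 := by omega
      rw [this]
      have h3 := congrFun (congrFun (lead_Vm' (M := M) i) r) s
      rw [h] at h3
      exact h3
  have := phi_GE p h1
  rwa [mul_one] at this

theorem reducible [IsAlgClosed k] (hp : 5 ≤ p) (hn : ∀ i, n i ≤ 1)
    (h00 : ∀ i, n (i - 1) = 0 → n i = 1)
    (h01 : ∀ i, n (i - 1) = 0 → n i = 1 → a i = 1 ∧ M.Y i 1 1 = 0)
    (h11 : ∀ i, n (i - 1) = 1 → n i = 1 → a i = p - 1 ∧ M.Y i 1 0 = 0)
    (h10 : ∀ i, n (i - 1) = 1 → n i = 0 → a i = p) : ¬ Irred p (M.frob a) := by
  classical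
  -- exponents of `D i`
  let c : ZMod f → ℤ := fun i => if n i = 1 ∧ n (i - 1) = 1 then -1 else 0
  let d : ZMod f → ℤ := fun i => if n i = 1 ∧ n (i - 1) = 0 then -1 else 0
  let e : ZMod f → ℤ := fun i => if n (i - 1) = 0 then 0 else p
  let W : ZMod f → Mat k := fun i => (Vm M i).map (phi k p)
  let U : ZMod f → Mat k := fun i => dd (e i) 0 * (W i * dd (p * c (i - 1)) (p * d (i - 1)))
  have hU0 : ∀ i r s, U i r s =
      (single (![e i, 0] r) 1 : LaurentSeries k) *
        (W i r s * (single (![p * c (i - 1), p * d (i - 1)] s) 1 : LaurentSeries k)) := by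
    intro i r s
    simp only [U]
    rw [dd_mul_apply, mul_dd_apply]
  have hUm : ∀ i r s, U i r s =
      (single (![e i, 0] r + ![p * c (i - 1), p * d (i - 1)] s) 1 : LaurentSeries k) * W i r s := by
    intro i r s
    have h1 : (single (![e i, 0] r + ![p * c (i - 1), p * d (i - 1)] s) (1 : k) :
        LaurentSeries k) = single (![e i, 0] r) 1 * single (![p * c (i - 1), p * d (i - 1)] s) 1 := by
      rw [single_mul_single, one_mul]
    rw [hU0, h1]
    ring
  have hU : ∀ i, MGE (U i) 0 := by
    intro i r s
    rw [hUm]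
    have hW := Wm_MGE (M := M) (p := p) i
    by_cases h0 : n (i - 1) = 0
    · have hc : c (i - 1) = 0 := by simp only [c]; rw [if_neg]; omega
      have hd : d (i - 1) = 0 := by simp only [d]; rw [if_neg]; omega
      have he : e i = 0 := by simp only [e]; rw [if_pos h0]
      rw [hc, hd, he]
      have h1 := GE_single_mul (c := 0) (hW r s)
      have h2 : ![(0 : ℤ), 0] r + ![(p : ℤ) * 0, p * 0] s = 0 := by
        fin_cases r <;> fin_cases s <;> simp
      rw [h2]
      rw [add_zero] at h1
      exact h1
    · have hn1 : n (i - 1) = 1 := by have := hn (i - 1); omega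
      have he : e i = p := by simp only [e]; rw [if_neg h0]
      have hppos : (0 : ℤ) ≤ p := by positivity
      by_cases h2 : n (i - 1 - 1) = 1
      · have hc : c (i - 1) = -1 := by simp only [c]; rw [if_pos ⟨hn1, h2⟩]
        have hd : d (i - 1) = 0 := by simp only [d]; rw [if_neg]; omega
        have hY := (h11 (i - 1) h2 hn1).2
        have hW10 := Wm_GE (M := M) (p := p) hY
        rw [hc, hd, he]
        fin_cases r <;> fin_cases s
        · have := GE_single_mul (c := (p : ℤ) + p * -1) (hW 0 0)
          refine this.mono ?_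
          linarith
        · have := GE_single_mul (c := (p : ℤ) + p * 0) (hW 0 1)
          refine this.mono ?_
          linarith
        · have := GE_single_mul (c := (0 : ℤ) + p * -1) hW10
          refine this.mono ?_
          linarith
        · have := GE_single_mul (c := (0 : ℤ) + p * 0) (hW 1 1)
          refine this.mono ?_
          linarith
      · have h2' : n (i - 1 - 1) = 0 := by have := hn (i - 1 - 1); omega
        have hc : c (i - 1) = 0 := by simp only [c]; rw [if_neg]; omega
        have hd : d (i - 1) = -1 := by simp only [d]; rw [if_pos ⟨hn1, h2'⟩]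
        have hY := (h01 (i - 1) h2' hn1).2
        have hW11 := Wm_GE (M := M) (p := p) hY
        rw [hc, hd, he]
        fin_cases r <;> fin_cases s
        · have := GE_single_mul (c := (p : ℤ) + p * 0) (hW 0 0)
          refine this.mono ?_
          linarith
        · have := GE_single_mul (c := (p : ℤ) + p * -1) (hW 0 1)
          refine this.mono ?_
          linarith
        · have := GE_single_mul (c := (0 : ℤ) + p * 0) (hW 1 0)
          refine this.mono ?_
          linarith
        · have := GE_single_mul (c := (0 : ℤ) + p * -1) hW11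
          refine this.mono ?_
          linarith
  have hcde : ∀ i, e i + (p * c (i - 1) + p * d (i - 1)) = 0 := by
    intro i
    simp only [c, d, e]
    have h1 := hn (i - 1)
    have h2 := hn (i - 1 - 1)
    by_cases h0 : n (i - 1) = 0
    · rw [if_pos h0, if_neg (by omega), if_neg (by omega)]
      ring
    · by_cases h3 : n (i - 1 - 1) = 1
      · rw [if_neg h0, if_pos (by omega), if_neg (by omega)]
        ring
      · rw [if_neg h0, if_neg (by omega), if_pos (by omega)]
        ring
  have hdet : ∀ i, (lead (U i) 0).det ≠ 0 := by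
    intro i
    rw [det_lead (hU i)]
    have h1 : (U i).det = (W i).det := by
      simp only [U]
      rw [Matrix.det_mul, Matrix.det_mul, det_dd, det_dd]
      have h2 : (single (e i + 0) (1 : k) : LaurentSeries k) *
          single (p * c (i - 1) + p * d (i - 1)) 1 = 1 := by
        rw [single_mul_single, one_mul, add_zero, hcde]
        rfl
      rw [mul_left_comm, h2, mul_one]
    rw [h1, ← det_lead (Wm_MGE (M := M) (p := p) i), lead_Wm]
    exact det_Vm i
  obtain ⟨μ, w, hμ, hw, hUw⟩ := exists_eigen (p := p) U hU hdet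
  -- the vertex
  let T : ZMod f → Mat k := fun i => gx (M.X i) * dd (c i) (d i)
  have hTU : ∀ i, M.frob a i * (T (i - 1)).map (phi k p) =
      (single (if n (i - 1) = 0 then (1 : ℤ) else 0) (1 : k) : LaurentSeries k) • (T i * U i) := by
    intro i
    have hF : M.frob a i = gx (M.X i) * du (a i) * gz (M.Z i) := rfl
    have hW : W i = gz (M.Z i) * (gx (M.X (i - 1))).map (phi k p) := by
      simp only [W, Vm]
      rw [Matrix.map_mul, phi_gz]
    have hL : M.frob a i * (T (i - 1)).map (phi k p) =
        gx (M.X i) * (dd (a i) 0 * (W i * dd (p * c (i - 1)) (p * d (i - 1)))) := by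
      simp only [T]
      rw [hF, Matrix.map_mul, dd_phi, hW, du_eq]
      simp only [Matrix.mul_assoc]
    have hR : (single (if n (i - 1) = 0 then (1 : ℤ) else 0) (1 : k) : LaurentSeries k) •
        (T i * U i) = gx (M.X i) * ((single (if n (i - 1) = 0 then (1 : ℤ) else 0) (1 : k) :
          LaurentSeries k) • (dd (c i + e i) (d i) * (W i * dd (p * c (i - 1)) (p * d (i - 1))))) := by
      have h5 : T i * U i = gx (M.X i) *
          (dd (c i + e i) (d i) * (W i * dd (p * c (i - 1)) (p * d (i - 1)))) := by
        simp only [T, U]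
        rw [Matrix.mul_assoc, ← Matrix.mul_assoc (dd (c i) (d i)), dd_mul, add_zero]
      rw [h5, Matrix.mul_smul]
    rw [hL, hR, smul_dd]
    have hexp : (a i : ℤ) = (if n (i - 1) = 0 then (1 : ℤ) else 0) + (c i + e i) ∧
        (0 : ℤ) = (if n (i - 1) = 0 then (1 : ℤ) else 0) + d i := by
      simp only [c, d, e]
      by_cases h0 : n (i - 1) = 0
      · have h1 := h00 i h0
        have h2 := (h01 i h0 h1).1
        rw [if_pos h0, if_pos h0, if_neg (by omega), if_pos (by omega), h2]
        constructor <;> norm_num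
      · have hn1 : n (i - 1) = 1 := by have := hn (i - 1); omega
        rw [if_neg h0, if_neg h0]
        by_cases h1 : n i = 1
        · have h2 := (h11 i hn1 h1).1
          rw [if_pos ⟨h1, hn1⟩, if_neg (by omega)]
          constructor <;> omega
        · have h2 := h10 i hn1 (by have := hn i; omega)
          rw [if_neg (by omega), if_neg (by omega)]
          constructor <;> omega
    rw [← hexp.1, ← hexp.2]
  intro hirr
  apply hirr
  refine ⟨fun i => (T i).mulVec (w i), fun i =>
    single (if n (i - 1) = 0 then (1 : ℤ) else 0) 1 * (HahnSeries.C μ : LaurentSeries k), ?_, ?_⟩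
  · intro i hi
    apply hw i
    have hTinv : dd (-(c i)) (-(d i)) * gx (M.X i)⁻¹ * T i = 1 := by
      simp only [T]
      rw [Matrix.mul_assoc, ← Matrix.mul_assoc (gx (M.X i)⁻¹), ← gx_mul, inv_mul_cancel, gx_one,
        Matrix.one_mul, dd_mul, neg_add_cancel, neg_add_cancel, dd_zero]
    have h1 : (dd (-(c i)) (-(d i)) * gx (M.X i)⁻¹).mulVec ((T i).mulVec (w i)) = w i := by
      rw [Matrix.mulVec_mulVec, hTinv, Matrix.one_mulVec]
    have hi' : (T i).mulVec (w i) = 0 := hi
    rw [← h1, hi', Matrix.mulVec_zero]
  · intro i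
    have h1 : (fun r => phi k p ((T (i - 1)).mulVec (w (i - 1)) r)) =
        ((T (i - 1)).map (phi k p)).mulVec (fun r => phi k p (w (i - 1) r)) := by
      funext r
      rw [Matrix.mulVec, Matrix.mulVec, dotProduct, dotProduct, map_sum]
      refine Finset.sum_congr rfl fun s _ => ?_
      rw [map_mul]
      rfl
    rw [h1, Matrix.mulVec_mulVec, hTU, Matrix.smul_mulVec, ← Matrix.mulVec_mulVec, hUw,
      Matrix.mulVec_smul, smul_smul]

end

end Pool.Agent.Lib.MP_74d0c9_nt
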