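import Pool.Agent.Lib.MP_74d0c9_nt.MEnd

/-! The integral tangent space: every integral family is a coboundary of an integral family, up to
the scalar direction and the directions outside the words. -/

set_option autoImplicit false

namespace Pool.Agent.Lib.MP_74d0c9_nt

open HahnSeries

universe u

section
variable {k : Type u} [CommRing k] {p : ℕ} [Fact p.Prime] {P : ℕ → Bool} {f : ℕ}

/-- the map `X ↦ B φ(X) B⁻¹` at the position `t` -/
noncomputable def th (p : ℕ) [Fact p.Prime] (P : ℕ → Bool) (f a t : ℕ) (X : Mat k) : Mat k :=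
  if P t = true ∨ Pm P t = true then X.map (phi k p)
  else if t < f - 1 then
    !![phi k p (X 0 0), un a * phi k p (X 0 1); un (-a) * phi k p (X 1 0), phi k p (X 1 1)]
  else
    !![phi k p (X 1 1), un (-a) * phi k p (X 1 0); un a * phi k p (X 0 1), phi k p (X 0 0)]

theorem mat_eta (X : Mat k) : X = !![X 0 0, X 0 1; X 1 0, X 1 1] := by
  refine Matrix.ext fun r s => ?_
  fin_cases r <;> fin_cases s <;> rfl

theorem th_spec (hP : GoodP P f) (a t : ℕ) (ht : t < f) (X : Mat k) :
    th p P f a t X * Bp p P f a t = Bp p P f a t * X.map (phi k p) := by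
  have hPf : ∀ t, P t = true ∨ P t = false := fun t => by cases P t <;> simp
  have hPmf : ∀ t, Pm P t = true ∨ Pm P t = false := fun t => by cases Pm P t <;> simp
  unfold th
  by_cases c : P t = true ∨ Pm P t = true
  · rw [if_pos c]
    obtain ⟨q, hq⟩ := Bp_in (k := k) p P f a t c
    rw [hq, mat_eta (X.map (phi k p)), Matrix.mul_fin_two, Matrix.mul_fin_two]
    apply mat2_congr <;> ring
  · rw [if_neg c]
    push Not at c
    have c1 := (hPf t).resolve_left c.1
    have c2 := (hPmf t).resolve_left c.2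
    have h1 := un_mul_neg (k := k) a
    have h2 := un_neg_mul (k := k) a
    have hX : X.map (phi k p) = !![phi k p (X 0 0), phi k p (X 0 1);
      phi k p (X 1 0), phi k p (X 1 1)] := mat_eta _
    by_cases c3 : t < f - 1
    · rw [if_pos c3, Bp_out _ _ _ _ _ c1 c2 c3, hX, Matrix.mul_fin_two, Matrix.mul_fin_two]
      apply mat2_congr
      · ring
      · ring
      · linear_combination phi k p (X 1 0) * h2
      · ring
    · rw [if_neg c3, show t = f - 1 by omega, Bp_last _ _ _ _ hP, hX, Matrix.mul_fin_two,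
        Matrix.mul_fin_two]
      apply mat2_congr
      · linear_combination phi k p (X 1 0) * h2
      · ring
      · ring
      · ring

theorem th_add (a t : ℕ) (X Y : Mat k) : th p P f a t (X + Y) = th p P f a t X + th p P f a t Y := by
  unfold th
  split_ifs
  · exact Matrix.ext fun r s => map_add (phi k p) (X r s) (Y r s)
  · refine Matrix.ext fun r s => ?_
    rw [Matrix.add_apply]
    fin_cases r <;> fin_cases s
    · exact map_add (phi k p) (X 0 0) (Y 0 0)
    · show un a * phi k p (X 0 1 + Y 0 1) = un a * phi k p (X 0 1) + un a * phi k p (Y 0 1)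
      rw [map_add]; ring
    · show un (-a) * phi k p (X 1 0 + Y 1 0) =
        un (-a) * phi k p (X 1 0) + un (-a) * phi k p (Y 1 0)
      rw [map_add]; ring
    · exact map_add (phi k p) (X 1 1) (Y 1 1)
  · refine Matrix.ext fun r s => ?_
    rw [Matrix.add_apply]
    fin_cases r <;> fin_cases s
    · exact map_add (phi k p) (X 1 1) (Y 1 1)
    · show un (-a) * phi k p (X 1 0 + Y 1 0) =
        un (-a) * phi k p (X 1 0) + un (-a) * phi k p (Y 1 0)
      rw [map_add]; ring
    · show un a * phi k p (X 0 1 + Y 0 1) = un a * phi k p (X 0 1) + un a * phi k p (Y 0 1)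
      rw [map_add]; ring
    · exact map_add (phi k p) (X 0 0) (Y 0 0)

theorem th_zero (a t : ℕ) : th p P f a t (0 : Mat k) = 0 := by
  have h := th_add (p := p) (P := P) (f := f) a t (0 : Mat k) 0
  rw [add_zero] at h
  exact left_eq_add.1 h

theorem th_MGE {a : ℕ} (ha : a ≤ p) (t : ℕ) {X : Mat k} {n : ℤ} (hX : MGE X n) :
    MGE (th p P f a t X) (p * n - p) := by
  have ha' : (a : ℤ) ≤ p := by exact_mod_cast ha
  have ha0 : (0 : ℤ) ≤ a := by positivity
  have h : ∀ r s, GE (phi k p (X r s)) (p * n) := fun r s => phi_GE p (hX r s)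
  unfold th
  split_ifs
  · exact fun r s => (h r s).mono (by omega)
  · intro r s
    fin_cases r <;> fin_cases s
    · exact (h 0 0).mono (by omega)
    · exact ((h 0 1).un_mul a).mono (by omega)
    · exact ((h 1 0).un_mul (-a)).mono (by omega)
    · exact (h 1 1).mono (by omega)
  · intro r s
    fin_cases r <;> fin_cases s
    · exact (h 1 1).mono (by omega)
    · exact ((h 1 0).un_mul (-a)).mono (by omega)
    · exact ((h 0 1).un_mul a).mono (by omega)
    · exact (h 0 0).mono (by omega)

/-- the operator on families -/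
noncomputable def Th (p : ℕ) [Fact p.Prime] (P : ℕ → Bool) (f : ℕ) (a : ZMod f → ℕ) (i : ZMod f)
    (X : ZMod f → Mat k) : ZMod f → Mat k :=
  fun j => th p P f (a j) (j - i).val (X (j - 1))

/-- the direction `e₂₁` -/
noncomputable def e21 (k : Type u) [CommRing k] : Mat k := !![0, 0; 1, 0]

/-- `H` is the coboundary of an integral family, up to the directions -/
def Sol (p : ℕ) [Fact p.Prime] (P : ℕ → Bool) (f : ℕ) (a : ZMod f → ℕ) (i : ZMod f)
    (H : ZMod f → Mat k) : Prop :=
  ∃ (C : ZMod f → Mat k) (σ : k) (x : ZMod f → k), (∀ j, MGE (C j) 0) ∧ ∀ j,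
    H j = C j - Th p P f a i C j +
      (if (j - i).val = 0 then (HahnSeries.C σ : LaurentSeries k) • (1 : Mat k) else 0) +
      (if P (j - i).val = false ∧ Pm P (j - i).val = false then
        (HahnSeries.C (x j) : LaurentSeries k) • th p P f (a j) (j - i).val (e21 k) else 0)

variable {a : ZMod f → ℕ} {i : ZMod f}

theorem Th_add (X Y : ZMod f → Mat k) : Th p P f a i (X + Y) = Th p P f a i X + Th p P f a i Y :=
  funext fun _ => th_add _ _ _ _

theorem Th_zero : Th p P f a i (0 : ZMod f → Mat k) = 0 := funext fun _ => th_zero _ _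

theorem MGE.add' {G H : Mat k} {n : ℤ} (hG : MGE G n) (hH : MGE H n) : MGE (G + H) n :=
  fun r s => (hG r s).add (hH r s)

theorem MGE.zero' (n : ℤ) : MGE (0 : Mat k) n := fun _ _ => GE.zero n

theorem Sol.add {H H' : ZMod f → Mat k} (h : Sol p P f a i H) (h' : Sol p P f a i H') :
    Sol p P f a i (H + H') := by
  obtain ⟨C, σ, x, hC, h1⟩ := h
  obtain ⟨C', σ', x', hC', h1'⟩ := h'
  refine ⟨C + C', σ + σ', x + x', fun j => (hC j).add' (hC' j), fun j => ?_⟩
  have e1 : ∀ y y' : k, (HahnSeries.C (y + y') : LaurentSeries k) =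
    HahnSeries.C y + HahnSeries.C y' := fun y y' => map_add _ _ _
  rw [Th_add]
  show H j + H' j = C j + C' j - (Th p P f a i C j + Th p P f a i C' j) + _ + _
  rw [h1 j, h1' j]
  have e2 : (x + x') j = x j + x' j := rfl
  rw [e2]
  split_ifs
  · rw [e1, add_smul, e1, add_smul]; abel
  · rw [e1, add_smul]; abel
  · rw [e1, add_smul]; abel
  · abel

theorem Sol.zero : Sol p P f a i (0 : ZMod f → Mat k) := by
  refine ⟨0, 0, 0, fun _ => MGE.zero' 0, fun j => ?_⟩
  rw [Th_zero]
  have e1 : (0 : ZMod f → k) j = 0 := rfl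
  rw [e1, map_zero, zero_smul, zero_smul]
  show (0 : Mat k) = 0 - 0 + _ + _
  split_ifs <;> simp

theorem Sol.sum {ι : Type} (s : Finset ι) {H : ι → ZMod f → Mat k}
    (h : ∀ y ∈ s, Sol p P f a i (H y)) : Sol p P f a i (∑ y ∈ s, H y) := by
  classical
  induction s using Finset.induction_on with
  | empty => exact Sol.zero
  | insert y s hy ih =>
    rw [Finset.sum_insert hy]
    exact (h y (Finset.mem_insert_self _ _)).add (ih fun z hz => h z (Finset.mem_insert_of_mem hz))

theorem th_neg (a t : ℕ) (X : Mat k) : th p P f a t (-X) = -th p P f a t X := by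
  have h := th_add (p := p) (P := P) (f := f) a t X (-X)
  rw [add_neg_cancel, th_zero] at h
  exact eq_neg_of_add_eq_zero_right h.symm

theorem Sol.neg {H : ZMod f → Mat k} (h : Sol p P f a i H) : Sol p P f a i (-H) := by
  obtain ⟨C, σ, x, hC, h1⟩ := h
  refine ⟨-C, -σ, -x, fun j r s v hv => ?_, fun j => ?_⟩
  · show (-(C j r s)).coeff v = 0
    rw [coeff_neg, hC j r s v hv, neg_zero]
  · have e1 : ∀ y : k, (HahnSeries.C (-y) : LaurentSeries k) = -HahnSeries.C y :=
      fun y => map_neg _ _
    have e3 : Th p P f a i (-C) j = -Th p P f a i C j := th_neg _ _ _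
    rw [e3]
    show -(H j) = -(C j) - -Th p P f a i C j + _ + _
    rw [h1 j]
    have e2 : (-x) j = -(x j) := rfl
    rw [e2]
    split_ifs
    · rw [e1, neg_smul, e1, neg_smul]; abel
    · rw [e1, neg_smul]; abel
    · rw [e1, neg_smul]; abel
    · abel

/-- a family supported at one component -/
def sg {f : ℕ} (j0 : ZMod f) (M : Mat k) : ZMod f → Mat k := fun j => if j = j0 then M else 0

theorem sg_add (j0 : ZMod f) (M N : Mat k) : sg j0 (M + N) = sg j0 M + sg j0 N := by
  funext j
  show (if j = j0 then M + N else 0) = (if j = j0 then M else 0) + (if j = j0 then N else 0)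
  split_ifs
  · rfl
  · exact (add_zero _).symm

theorem Th_sg (j0 : ZMod f) (M : Mat k) :
    Th p P f a i (sg j0 M) = sg (j0 + 1) (th p P f (a (j0 + 1)) (j0 + 1 - i).val M) := by
  funext j
  show th p P f (a j) (j - i).val (if j - 1 = j0 then M else 0) =
    if j = j0 + 1 then th p P f (a (j0 + 1)) (j0 + 1 - i).val M else 0
  by_cases h : j = j0 + 1
  · rw [if_pos h, if_pos (by rw [h]; ring), h]
  · rw [if_neg h, if_neg (fun h' => h (by rw [← h']; ring)), th_zero]

/-- moving along the cycle -/
theorem Sol.step {j0 : ZMod f} {M : Mat k} (hM : MGE M 0) :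
    Sol p P f a i (sg j0 M - sg (j0 + 1) (th p P f (a (j0 + 1)) (j0 + 1 - i).val M)) := by
  refine ⟨sg j0 M, 0, 0, fun j => ?_, fun j => ?_⟩
  · show MGE (if j = j0 then M else 0) 0
    split_ifs
    · exact hM
    · exact MGE.zero' 0
  · rw [Th_sg]
    have e1 : (0 : ZMod f → k) j = 0 := rfl
    rw [e1, map_zero, zero_smul, zero_smul, ite_self, ite_self, add_zero, add_zero]
    rfl

theorem Sol.back {j0 : ZMod f} {M : Mat k} (hM : MGE M 0)
    (h : Sol p P f a i (sg (j0 + 1) (th p P f (a (j0 + 1)) (j0 + 1 - i).val M))) :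
    Sol p P f a i (sg j0 M) := by
  have h1 := (Sol.step (p := p) (P := P) (a := a) (i := i) (j0 := j0) hM).add h
  rwa [sub_add_cancel] at h1

/-- the directions outside the words -/
theorem Sol.dir {j0 : ZMod f} (h1 : P (j0 - i).val = false) (h2 : Pm P (j0 - i).val = false)
    (c : k) : Sol p P f a i (sg j0 ((HahnSeries.C c : LaurentSeries k) •
      th p P f (a j0) (j0 - i).val (e21 k))) := by
  refine ⟨0, 0, fun j => if j = j0 then c else 0, fun _ => MGE.zero' 0, fun j => ?_⟩
  rw [Th_zero, map_zero, zero_smul, ite_self]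
  show (if j = j0 then _ else 0) = (0 : Mat k) - 0 + 0 +
    (if P (j - i).val = false ∧ Pm P (j - i).val = false then
      (HahnSeries.C (if j = j0 then c else 0) : LaurentSeries k) •
        th p P f (a j) (j - i).val (e21 k) else 0)
  rw [sub_zero, add_zero, zero_add]
  by_cases h : j = j0
  · rw [if_pos h, if_pos h, h, if_pos ⟨h1, h2⟩]
  · rw [if_neg h, if_neg h, map_zero, zero_smul, ite_self]

/-- the scalar direction -/
theorem Sol.scal [NeZero f] (c : k) :
    Sol p P f a i (sg i ((HahnSeries.C c : LaurentSeries k) • (1 : Mat k))) := by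
  refine ⟨0, c, 0, fun _ => MGE.zero' 0, fun j => ?_⟩
  have e1 : (0 : ZMod f → k) j = 0 := rfl
  rw [Th_zero, e1, map_zero, zero_smul, ite_self]
  show (if j = i then _ else 0) = (0 : Mat k) - 0 + _ + 0
  rw [sub_zero, add_zero, zero_add]
  by_cases h : j = i
  · rw [if_pos h, if_pos (by rw [h, sub_self, ZMod.val_zero])]
  · rw [if_neg h, if_neg]
    intro h'
    exact h (sub_eq_zero.1 ((ZMod.val_eq_zero _).1 h'))

/-! ### contraction -/

/-- A contraction has a fixed point. -/
theorem exists_fixed {W : Type} (Θ : (W → LaurentSeries k) →+ (W → LaurentSeries k)) (n0 : ℤ)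
    (hΘ : ∀ (X : W → LaurentSeries k) (n : ℤ), n0 ≤ n → (∀ w, GE (X w) n) →
      ∀ w, GE (Θ X w) (n + 1)) (H : W → LaurentSeries k) (hH : ∀ w, GE (H w) n0) :
    ∃ C : W → LaurentSeries k, (∀ w, GE (C w) n0) ∧ C - Θ C = H := by
  obtain ⟨I, hI⟩ : ∃ I : ℕ → W → LaurentSeries k, I = fun n => (Θ^[n]) H := ⟨_, rfl⟩
  have hI0 : I 0 = H := by rw [hI]; rfl
  have hIs : ∀ n, I (n + 1) = Θ (I n) := by
    intro n
    rw [hI]
    exact Function.iterate_succ_apply' _ _ _
  have hIG : ∀ (n : ℕ) w, GE (I n w) (n0 + n) := by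
    intro n
    induction n with
    | zero => intro w; rw [hI0, Nat.cast_zero, add_zero]; exact hH w
    | succ n ih =>
      intro w
      rw [hIs]
      have h1 := hΘ (I n) (n0 + n) (by omega) ih w
      rw [Nat.cast_succ, ← add_assoc]
      exact h1
  -- the partial sums
  obtain ⟨S, hS⟩ : ∃ S : ℕ → W → LaurentSeries k, S = fun n => ∑ q ∈ Finset.range n, I q :=
    ⟨_, rfl⟩
  have hS0 : S 0 = 0 := by rw [hS]; exact Finset.sum_range_zero _
  have hSs : ∀ n, S (n + 1) = S n + I n := by
    intro n
    rw [hS]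
    exact Finset.sum_range_succ _ _
  have hSG : ∀ (n : ℕ) w, GE (S n w) n0 := by
    intro n
    induction n with
    | zero => intro w; rw [hS0]; exact GE.zero _
    | succ n ih =>
      intro w
      rw [hSs]
      exact (ih w).add ((hIG n w).mono (by omega))
  have hst : ∀ (n d : ℕ) w (v : ℤ), v < n0 + n → (S (n + d) w).coeff v = (S n w).coeff v := by
    intro n d
    induction d with
    | zero => intro w v _; rfl
    | succ d ih =>
      intro w v hv
      rw [← add_assoc, hSs]
      show (S (n + d) w + I (n + d) w).coeff v = _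
      rw [coeff_add, ih w v hv, hIG (n + d) w v (by push_cast; omega), add_zero]
  let C : W → LaurentSeries k := fun w =>
    single n0 1 * ps (PowerSeries.mk fun v => (S (v + 1) w).coeff (n0 + v))
  have hCv : ∀ (n : ℕ) w (v : ℤ), v < n0 + n → (C w).coeff v = (S n w).coeff v := by
    intro n w v hv
    show (single n0 1 * ps (PowerSeries.mk fun v => (S (v + 1) w).coeff (n0 + v))).coeff v = _
    rw [coeff_single_mul, one_mul]
    rcases lt_or_ge v n0 with h1 | h1
    · rw [coeff_ps_neg _ (by omega), hSG n w v h1]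
    · obtain ⟨q, hq⟩ := Int.eq_ofNat_of_zero_le (sub_nonneg.2 h1)
      rw [hq, coeff_ps, PowerSeries.coeff_mk]
      have e : n0 + (q : ℤ) = v := by omega
      rw [e]
      have h2 : q + 1 ≤ n := by omega
      obtain ⟨d, rfl⟩ := Nat.exists_eq_add_of_le h2
      exact (hst (q + 1) d w v (by push_cast; omega)).symm
  refine ⟨C, fun w v hv => ?_, ?_⟩
  · rw [hCv 0 w v (by push_cast; omega), hS0]
    rfl
  · have hlev : ∀ (n : ℕ) w, GE ((C - Θ C - H) w) (n0 + n) := by
      intro n
      have hd : ∀ w, GE ((C - S n) w) (n0 + n) := by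
        intro w v hv
        show (C w - S n w).coeff v = 0
        rw [coeff_sub, hCv n w v hv, sub_self]
      have hd' := hΘ (C - S n) (n0 + n) (by omega) hd
      have hSI : S n - Θ (S n) - H = -I n := by
        have h3 : ∀ n : ℕ, Θ (S n) + H = S (n + 1) := by
          intro n
          induction n with
          | zero => rw [hSs, hS0, map_zero, hI0]
          | succ n ih =>
            have h6 : S (n + 1 + 1) = S (n + 1) + I (n + 1) := hSs (n + 1)
            have h7 : Θ (S (n + 1)) = Θ (S n) + I (n + 1) := by rw [hSs n, map_add, ← hIs]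
            rw [h6, h7, ← ih]
            abel
        have h4 := h3 n
        rw [hSs] at h4
        have h5 : H = S n + I n - Θ (S n) := by rw [← h4]; abel
        rw [h5]
        abel
      have e : C - Θ C - H = (C - S n) - Θ (C - S n) + (S n - Θ (S n) - H) := by
        rw [map_sub]
        abel
      intro w
      rw [e, hSI]
      show GE ((C - S n) w - Θ (C - S n) w + -I n w) (n0 + n)
      intro v hv
      rw [coeff_add, coeff_sub, coeff_neg, hd w v hv, hd' w v (by omega), hIG n w v hv]
      simp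
    have h0 : C - Θ C - H = 0 := by
      funext w
      ext v
      exact hlev (v - n0 + 1).toNat w v (by
        have := Int.self_le_toNat (v - n0 + 1)
        omega)
    exact sub_eq_zero.1 h0


/-! ### the values of the operator -/

theorem th_in (a t : ℕ) (h : P t = true ∨ Pm P t = true) (w x y z : LaurentSeries k) :
    th p P f a t !![w, x; y, z] = !![phi k p w, phi k p x; phi k p y, phi k p z] := by
  unfold th
  rw [if_pos h]
  exact mat_eta _

theorem th_out (a t : ℕ) (h : P t = false) (h' : Pm P t = false) (ht : t < f - 1)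
    (w x y z : LaurentSeries k) :
    th p P f a t !![w, x; y, z] =
      !![phi k p w, un a * phi k p x; un (-a) * phi k p y, phi k p z] := by
  unfold th
  rw [if_neg (by rw [h, h']; decide), if_pos ht]
  rfl

theorem th_last (hP : GoodP P f) (a : ℕ) (w x y z : LaurentSeries k) :
    th p P f a (f - 1) !![w, x; y, z] =
      !![phi k p z, un (-a) * phi k p y; un a * phi k p x, phi k p w] := by
  have h3 := hP.three_le
  have e : f - 1 = f - 2 + 1 := by omega
  have h4 : Pm P (f - 1) = false := by
    rw [e]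
    exact hP.h1
  unfold th
  rw [if_neg (by rw [h4, hP.h2]; decide), if_neg (lt_irrefl _)]
  rfl

theorem un_mul_single (q v : ℤ) (c : k) : (un q * single v c : LaurentSeries k) = single (q + v) c := by
  show single q 1 * single v c = _
  rw [single_mul_single, one_mul]

theorem GE_single {v n : ℤ} (h : n ≤ v) (c : k) : GE (single v c : LaurentSeries k) n := by
  intro j hj
  rw [coeff_single_of_ne (by omega)]

theorem MGE_mk {w x y z : LaurentSeries k} {n : ℤ} (hw : GE w n) (hx : GE x n) (hy : GE y n)
    (hz : GE z n) : MGE !![w, x; y, z] n := by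
  intro r s
  fin_cases r <;> fin_cases s
  · exact hw
  · exact hx
  · exact hy
  · exact hz

/-- a solution at the position `t` -/
def SolAt (p : ℕ) [Fact p.Prime] (P : ℕ → Bool) (f : ℕ) (a : ZMod f → ℕ) (i : ZMod f) (t : ℕ)
    (M : Mat k) : Prop := Sol p P f a i (sg (i + (t : ZMod f)) M)

theorem posv {f : ℕ} (i : ZMod f) {t : ℕ} (ht : t < f) : (i + (t : ZMod f) - i).val = t := by
  rw [add_sub_cancel_left, ZMod.val_natCast_of_lt ht]

theorem SolAt.nx {t : ℕ} (ht : t + 1 < f) {M : Mat k} (hM : MGE M 0)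
    (h : SolAt p P f a i (t + 1) (th p P f (a (i + ((t + 1 : ℕ) : ZMod f))) (t + 1) M)) :
    SolAt p P f a i t M := by
  have e : i + (t : ZMod f) + 1 = i + ((t + 1 : ℕ) : ZMod f) := by push_cast; ring
  refine Sol.back hM ?_
  rw [e, posv i ht]
  exact h

theorem SolAt.nx0 (hf : 0 < f) {M : Mat k} (hM : MGE M 0)
    (h : SolAt p P f a i 0 (th p P f (a (i + ((0 : ℕ) : ZMod f))) 0 M)) :
    SolAt p P f a i (f - 1) M := by
  have e : i + ((f - 1 : ℕ) : ZMod f) + 1 = i + ((0 : ℕ) : ZMod f) := by
    have h7 : ((f - 1 + 1 : ℕ) : ZMod f) = 0 := by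
      rw [Nat.sub_add_cancel (by omega), ZMod.natCast_self]
    rw [add_assoc, ← Nat.cast_succ, h7, Nat.cast_zero]
  refine Sol.back hM ?_
  rw [e, posv i hf]
  exact h

theorem SolAt.add {t : ℕ} {M N : Mat k} (h : SolAt p P f a i t M) (h' : SolAt p P f a i t N) :
    SolAt p P f a i t (M + N) := by
  unfold SolAt
  rw [sg_add]
  exact Sol.add h h'

/-- level two -/
theorem sol_two [NeZero f] (hp : 3 ≤ p) (ha : ∀ j, a j ≤ p) (H : ZMod f → Mat k)
    (hH : ∀ j, MGE (H j) 2) : Sol p P f a i H := by
  let W : Type := ZMod f × (Fin 2 × Fin 2)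
  let up : (W → LaurentSeries k) → ZMod f → Mat k := fun X j r s => X (j, (r, s))
  have hup : ∀ X Y, up (X + Y) = up X + up Y := fun X Y => rfl
  let Θ : (W → LaurentSeries k) →+ (W → LaurentSeries k) :=
    { toFun := fun X w => Th p P f a i (up X) w.1 w.2.1 w.2.2
      map_zero' := by
        funext w
        have e : up 0 = 0 := rfl
        show Th p P f a i (up 0) w.1 w.2.1 w.2.2 = 0
        rw [e, Th_zero]
        rfl
      map_add' := by
        intro X Y
        funext w
        show Th p P f a i (up (X + Y)) w.1 w.2.1 w.2.2 = _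
        rw [hup, Th_add]
        rfl }
  have hΘ : ∀ (X : W → LaurentSeries k) (n : ℤ), 2 ≤ n → (∀ w, GE (X w) n) →
      ∀ w, GE (Θ X w) (n + 1) := by
    intro X n hn hX w
    have h1 : MGE (up X (w.1 - 1)) n := fun r s => hX (w.1 - 1, (r, s))
    have h2 := th_MGE (P := P) (f := f) (ha w.1) (w.1 - i).val h1 w.2.1 w.2.2
    have hp' : (3 : ℤ) ≤ p := by exact_mod_cast hp
    refine h2.mono ?_
    nlinarith
  obtain ⟨C, hC, hC1⟩ := exists_fixed Θ 2 hΘ (fun w => H w.1 w.2.1 w.2.2)
    (fun w => hH w.1 w.2.1 w.2.2)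
  refine ⟨up C, 0, 0, fun j r s => (hC (j, (r, s))).mono (by omega), fun j => ?_⟩
  have e1 : (0 : ZMod f → k) j = 0 := rfl
  rw [e1, map_zero, zero_smul, zero_smul, ite_self, ite_self, add_zero, add_zero]
  refine Matrix.ext fun r s => ?_
  have h1 := congrFun hC1 (j, (r, s))
  exact h1.symm

variable (hp : 3 ≤ p) (hP : GoodP P f) (ha : ∀ j, a j ≤ p) (ha1 : ∀ j, 1 ≤ a j)

include hp ha in
theorem SolAt.two [NeZero f] (t : ℕ) {M : Mat k} (hM : MGE M 2) : SolAt p P f a i t M := by
  refine sol_two hp ha _ fun j => ?_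
  show MGE (if j = _ then M else 0) 2
  split_ifs
  · exact hM
  · exact MGE.zero' 2

include hp hP ha in
/-- entries of level `1`, `1`, `2`, `1` -/
theorem SolAt.one [NeZero f] {t : ℕ} (ht : t < f) {w x y z : LaurentSeries k} (hw : GE w 1)
    (hx : GE x 1) (hy : GE y 2) (hz : GE z 1) : SolAt p P f a i t !![w, x; y, z] := by
  have hf3 := hP.three_le
  have hp' : (3 : ℤ) ≤ p := by exact_mod_cast hp
  have hM : MGE !![w, x; y, z] 0 :=
    MGE_mk (hw.mono (by omega)) (hx.mono (by omega)) (hy.mono (by omega)) (hz.mono (by omega))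
  have hw' := phi_GE p hw
  have hx' := phi_GE p hx
  have hy' := phi_GE p hy
  have hz' := phi_GE p hz
  have hPf : ∀ t, P t = true ∨ P t = false := fun t => by cases P t <;> simp
  have hPmf : ∀ t, Pm P t = true ∨ Pm P t = false := fun t => by cases Pm P t <;> simp
  have key : ∀ t', t' < f → MGE (th p P f (a (i + (t' : ZMod f))) t' !![w, x; y, z]) 2 := by
    intro t' ht'
    have ha' : (a (i + (t' : ZMod f)) : ℤ) ≤ p := by exact_mod_cast ha _
    have ha0 : (0 : ℤ) ≤ a (i + (t' : ZMod f)) := by positivity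
    by_cases c : P t' = true ∨ Pm P t' = true
    · rw [th_in _ _ c]
      exact MGE_mk (hw'.mono (by omega)) (hx'.mono (by omega)) (hy'.mono (by omega))
        (hz'.mono (by omega))
    · push Not at c
      by_cases c3 : t' < f - 1
      · rw [th_out _ _ ((hPf _).resolve_left c.1) ((hPmf _).resolve_left c.2) c3]
        exact MGE_mk (hw'.mono (by omega)) ((hx'.un_mul _).mono (by omega))
          ((hy'.un_mul _).mono (by omega)) (hz'.mono (by omega))
      · rw [show t' = f - 1 by omega, th_last hP]
        rw [show t' = f - 1 by omega] at ha' ha0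
        exact MGE_mk (hz'.mono (by omega)) ((hy'.un_mul _).mono (by omega))
          ((hx'.un_mul _).mono (by omega)) (hw'.mono (by omega))
  by_cases c : t + 1 < f
  · exact SolAt.nx c hM (SolAt.two hp ha _ (key _ c))
  · rw [show t = f - 1 by omega]
    exact SolAt.nx0 (by omega) hM (SolAt.two hp ha _ (key _ (by omega)))

include hp hP ha in
/-- level one at the last position -/
theorem SolAt.last_one [NeZero f] {M : Mat k} (hM : MGE M 1) : SolAt p P f a i (f - 1) M := by
  have hf3 := hP.three_le
  have hp' : (3 : ℤ) ≤ p := by exact_mod_cast hp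
  refine SolAt.nx0 (by omega) (hM.mono (by omega)) (SolAt.two hp ha _ ?_)
  rw [mat_eta M, th_in _ _ (Or.inl hP.h0)]
  exact MGE_mk ((phi_GE p (hM 0 0)).mono (by omega)) ((phi_GE p (hM 0 1)).mono (by omega))
    ((phi_GE p (hM 1 0)).mono (by omega)) ((phi_GE p (hM 1 1)).mono (by omega))

/-- induction down from `f - 2` -/
theorem down_ind {Q : ℕ → Prop} {n : ℕ} (h0 : Q n) (h1 : ∀ t, t + 1 ≤ n → Q (t + 1) → Q t) :
    ∀ t, t ≤ n → Q t := by
  have h2 : ∀ d, ∀ t, t + d = n → Q t := by
    intro d
    induction d with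
    | zero => intro t ht; rw [show t = n by omega]; exact h0
    | succ d ih => intro t ht; exact h1 t (by omega) (ih (t + 1) (by omega))
  exact fun t ht => h2 (n - t) t (by omega)

include hp hP ha ha1 in
theorem SolAt.e12 [NeZero f] (c : k) : ∀ t, t < f → SolAt p P f a i t !![0, single 0 c; 0, 0] := by
  have hf3 := hP.three_le
  have hp' : (3 : ℤ) ≤ p := by exact_mod_cast hp
  have hPf : ∀ t, P t = true ∨ P t = false := fun t => by cases P t <;> simp
  have hPmf : ∀ t, Pm P t = true ∨ Pm P t = false := fun t => by cases Pm P t <;> simp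
  have hM : MGE (!![0, single 0 c; 0, 0] : Mat k) 0 :=
    MGE_mk (GE.zero _) (GE_single le_rfl _) (GE.zero _) (GE.zero _)
  have hz : phi k p (0 : LaurentSeries k) = 0 := map_zero _
  have hs : phi k p (single 0 c : LaurentSeries k) = single 0 c := by rw [phi_single, mul_zero]
  have h1 : ∀ t, t ≤ f - 2 → SolAt p P f a i t !![0, single 0 c; 0, 0] := by
    refine down_ind ?_ ?_
    · have e : f - 2 + 1 = f - 1 := by omega
      refine SolAt.nx (by omega) hM ?_
      rw [e, th_last hP, hz, hs, mul_zero, un_mul_single]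
      refine SolAt.last_one hp hP ha (MGE_mk (GE.zero _) (GE.zero _) (GE_single ?_ _) (GE.zero _))
      have := ha1 (i + ((f - 1 : ℕ) : ZMod f))
      omega
    · intro t ht ih
      refine SolAt.nx (by omega) hM ?_
      by_cases c1 : P (t + 1) = true ∨ Pm P (t + 1) = true
      · rw [th_in _ _ c1, hz, hs]
        exact ih
      · push Not at c1
        rw [th_out _ _ ((hPf _).resolve_left c1.1) ((hPmf _).resolve_left c1.2) (by omega), hz, hs,
          mul_zero, un_mul_single]
        refine SolAt.one hp hP ha (by omega) (GE.zero _) (GE_single ?_ _) (GE.zero _) (GE.zero _)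
        have := ha1 (i + ((t + 1 : ℕ) : ZMod f))
        omega
  intro t ht
  by_cases c1 : t ≤ f - 2
  · exact h1 t c1
  · rw [show t = f - 1 by omega]
    refine SolAt.nx0 (by omega) hM ?_
    rw [th_in _ _ (Or.inl hP.h0), hz, hs]
    exact h1 0 (by omega)

theorem C_smul_e21 (c : k) : (HahnSeries.C c : LaurentSeries k) • e21 k =
    !![0, 0; single 0 c, 0] := by
  unfold e21
  refine Matrix.ext fun r s => ?_
  rw [Matrix.smul_apply, smul_eq_mul]
  fin_cases r <;> fin_cases s
  · exact mul_zero _
  · exact mul_zero _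
  · exact mul_one _
  · exact mul_zero _

theorem th_C_smul (a t : ℕ) (c : k) (X : Mat k) :
    th p P f a t ((HahnSeries.C c : LaurentSeries k) • X) =
      (HahnSeries.C c : LaurentSeries k) • th p P f a t X := by
  have h1 : ∀ r s, phi k p (((HahnSeries.C c : LaurentSeries k) • X) r s) =
      HahnSeries.C c * phi k p (X r s) := by
    intro r s
    rw [Matrix.smul_apply, smul_eq_mul, map_mul, phi_C]
  unfold th
  split_ifs
  · refine Matrix.ext fun r s => ?_
    exact h1 r s
  · refine Matrix.ext fun r s => ?_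
    rw [Matrix.smul_apply, smul_eq_mul]
    fin_cases r <;> fin_cases s
    · exact h1 0 0
    · show un a * phi k p (((HahnSeries.C c : LaurentSeries k) • X) 0 1) =
        HahnSeries.C c * (un a * phi k p (X 0 1))
      rw [h1]; ring
    · show un (-a) * phi k p (((HahnSeries.C c : LaurentSeries k) • X) 1 0) =
        HahnSeries.C c * (un (-a) * phi k p (X 1 0))
      rw [h1]; ring
    · exact h1 1 1
  · refine Matrix.ext fun r s => ?_
    rw [Matrix.smul_apply, smul_eq_mul]
    fin_cases r <;> fin_cases s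
    · exact h1 1 1
    · show un (-a) * phi k p (((HahnSeries.C c : LaurentSeries k) • X) 1 0) =
        HahnSeries.C c * (un (-a) * phi k p (X 1 0))
      rw [h1]; ring
    · show un a * phi k p (((HahnSeries.C c : LaurentSeries k) • X) 0 1) =
        HahnSeries.C c * (un a * phi k p (X 0 1))
      rw [h1]; ring
    · exact h1 0 0

/-- the direction outside the words -/
theorem SolAt.dir {t : ℕ} (ht : t < f) (h1 : P t = false) (h2 : Pm P t = false) (c : k) :
    SolAt p P f a i t (th p P f (a (i + (t : ZMod f))) t !![0, 0; single 0 c, 0]) := by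
  rw [← C_smul_e21, th_C_smul]
  have h3 := Sol.dir (k := k) (p := p) (P := P) (f := f) (a := a) (i := i)
    (j0 := i + (t : ZMod f)) (by rw [posv i ht]; exact h1) (by rw [posv i ht]; exact h2) c
  rw [posv i ht] at h3
  exact h3

include hP in
theorem SolAt.e21 [NeZero f] (c : k) : ∀ t, t < f → SolAt p P f a i t !![0, 0; single 0 c, 0] := by
  have hf3 := hP.three_le
  have hPf : ∀ t, P t = true ∨ P t = false := fun t => by cases P t <;> simp
  have hPmf : ∀ t, Pm P t = true ∨ Pm P t = false := fun t => by cases Pm P t <;> simp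
  have hM : MGE (!![0, 0; single 0 c, 0] : Mat k) 0 :=
    MGE_mk (GE.zero _) (GE.zero _) (GE_single le_rfl _) (GE.zero _)
  have hz : phi k p (0 : LaurentSeries k) = 0 := map_zero _
  have hs : phi k p (single 0 c : LaurentSeries k) = single 0 c := by rw [phi_single, mul_zero]
  have hl : Pm P (f - 1) = false := by
    rw [show f - 1 = f - 2 + 1 by omega]
    exact hP.h1
  have h1 : ∀ t, t ≤ f - 2 → SolAt p P f a i t !![0, 0; single 0 c, 0] := by
    refine down_ind ?_ ?_
    · refine SolAt.nx (by omega) hM ?_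
      rw [show f - 2 + 1 = f - 1 by omega]
      exact SolAt.dir (by omega) hP.h2 hl c
    · intro t ht ih
      refine SolAt.nx (by omega) hM ?_
      by_cases c1 : P (t + 1) = true ∨ Pm P (t + 1) = true
      · rw [th_in _ _ c1, hz, hs]
        exact ih
      · push Not at c1
        exact SolAt.dir (by omega) ((hPf _).resolve_left c1.1) ((hPmf _).resolve_left c1.2) c
  intro t ht
  by_cases c1 : t ≤ f - 2
  · exact h1 t c1
  · rw [show t = f - 1 by omega]
    refine SolAt.nx0 (by omega) hM ?_
    rw [th_in _ _ (Or.inl hP.h0), hz, hs]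
    exact h1 0 (by omega)

include hp hP ha ha1 in
theorem SolAt.ue21 [NeZero f] (c : k) :
    ∀ t, t < f → SolAt p P f a i t !![0, 0; single 1 c, 0] := by
  have hf3 := hP.three_le
  have hp' : (3 : ℤ) ≤ p := by exact_mod_cast hp
  have hPf : ∀ t, P t = true ∨ P t = false := fun t => by cases P t <;> simp
  have hPmf : ∀ t, Pm P t = true ∨ Pm P t = false := fun t => by cases Pm P t <;> simp
  have hM : MGE (!![0, 0; single 1 c, 0] : Mat k) 0 :=
    MGE_mk (GE.zero _) (GE.zero _) (GE_single (by omega) _) (GE.zero _)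
  have hz : phi k p (0 : LaurentSeries k) = 0 := map_zero _
  have hs : phi k p (single 1 c : LaurentSeries k) = single (p : ℤ) c := by
    rw [phi_single, mul_one]
  have hM1 : MGE (!![0, 0; single 1 c, 0] : Mat k) 1 :=
    MGE_mk (GE.zero _) (GE.zero _) (GE_single le_rfl _) (GE.zero _)
  have h1 : ∀ t, t ≤ f - 1 → SolAt p P f a i t !![0, 0; single 1 c, 0] := by
    refine down_ind (SolAt.last_one hp hP ha hM1) ?_
    intro t ht ih
    refine SolAt.nx (by omega) hM ?_
    have hat : (a (i + ((t + 1 : ℕ) : ZMod f)) : ℤ) ≤ p := by exact_mod_cast ha _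
    have e1 : ∀ q : ℕ, -(q : ℤ) + p = p - q := fun q => by ring
    by_cases c1 : P (t + 1) = true ∨ Pm P (t + 1) = true
    · rw [th_in _ _ c1, hz, hs]
      exact SolAt.two hp ha _ (MGE_mk (GE.zero _) (GE.zero _) (GE_single (by omega) _) (GE.zero _))
    · push Not at c1
      by_cases c2 : t + 1 < f - 1
      · rw [th_out _ _ ((hPf _).resolve_left c1.1) ((hPmf _).resolve_left c1.2) c2, hz, hs,
          mul_zero, un_mul_single, e1]
        rcases lt_trichotomy ((p : ℤ) - a (i + ((t + 1 : ℕ) : ZMod f))) 1 with h | h | h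
        · rw [show (p : ℤ) - a (i + ((t + 1 : ℕ) : ZMod f)) = 0 by omega]
          exact SolAt.e21 hP c _ (by omega)
        · rw [h]
          exact ih
        · exact SolAt.two hp ha _
            (MGE_mk (GE.zero _) (GE.zero _) (GE_single (by omega) _) (GE.zero _))
      · have e2 : t + 1 = f - 1 := by omega
        rw [e2] at hat ⊢
        rw [th_last hP, hz, hs, mul_zero, un_mul_single, e1]
        rcases lt_or_ge ((p : ℤ) - a (i + ((f - 1 : ℕ) : ZMod f))) 1 with h | h
        · rw [show (p : ℤ) - a (i + ((f - 1 : ℕ) : ZMod f)) = 0 by omega]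
          exact SolAt.e12 hp hP ha ha1 c _ (by omega)
        · exact SolAt.last_one hp hP ha
            (MGE_mk (GE.zero _) (GE_single h _) (GE.zero _) (GE.zero _))
  exact fun t ht => h1 t (by omega)

/-- constant diagonal matrices -/
noncomputable def dgc (x y : k) : Mat k := !![single 0 x, 0; 0, single 0 y]

theorem dgc_MGE (x y : k) : MGE (dgc x y) 0 :=
  MGE_mk (GE_single le_rfl _) (GE.zero _) (GE.zero _) (GE_single le_rfl _)

theorem dgc_add (x y x' y' : k) : dgc (x + x') (y + y') = dgc x y + dgc x' y' := by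
  unfold dgc
  refine Matrix.ext fun r s => ?_
  rw [Matrix.add_apply]
  fin_cases r <;> fin_cases s
  · exact single_add _ _ _
  · exact (add_zero _).symm
  · exact (add_zero _).symm
  · exact single_add _ _ _

theorem th_dgc (a t : ℕ) (ht : t < f - 1) (x y : k) :
    th p P f a t (dgc x y) = dgc x y := by
  have hPf : ∀ t, P t = true ∨ P t = false := fun t => by cases P t <;> simp
  have hPmf : ∀ t, Pm P t = true ∨ Pm P t = false := fun t => by cases Pm P t <;> simp
  have hs : ∀ c : k, phi k p (single 0 c : LaurentSeries k) = single 0 c := fun c => by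
    rw [phi_single, mul_zero]
  unfold dgc
  by_cases c1 : P t = true ∨ Pm P t = true
  · rw [th_in _ _ c1, map_zero, hs, hs]
  · push Not at c1
    rw [th_out _ _ ((hPf _).resolve_left c1.1) ((hPmf _).resolve_left c1.2) ht, map_zero, hs, hs,
      mul_zero, mul_zero]

include hP in
theorem th_dgc_last (a : ℕ) (x y : k) : th p P f a (f - 1) (dgc x y) = dgc y x := by
  have hs : ∀ c : k, phi k p (single 0 c : LaurentSeries k) = single 0 c := fun c => by
    rw [phi_single, mul_zero]
  unfold dgc
  rw [th_last hP, map_zero, hs, hs, mul_zero, mul_zero]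

theorem smul_one_dgc (c : k) : (HahnSeries.C c : LaurentSeries k) • (1 : Mat k) = dgc c c := by
  unfold dgc
  rw [Matrix.one_fin_two]
  refine Matrix.ext fun r s => ?_
  rw [Matrix.smul_apply, smul_eq_mul]
  fin_cases r <;> fin_cases s
  · exact mul_one _
  · exact mul_zero _
  · exact mul_zero _
  · exact mul_one _

include hP in
theorem SolAt.dg [NeZero f] (h2 : ∃ h : k, h + h = 1) (x y : k) :
    ∀ t, t < f → SolAt p P f a i t (dgc x y) := by
  have hf3 := hP.three_le
  -- the steps
  have hst : ∀ t, t + 1 ≤ f - 2 → ∀ x y : k, Sol p P f a i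
      (sg (i + (t : ZMod f)) (dgc x y) - sg (i + ((t + 1 : ℕ) : ZMod f)) (dgc x y)) := by
    intro t ht x y
    have e : i + (t : ZMod f) + 1 = i + ((t + 1 : ℕ) : ZMod f) := by push_cast; ring
    have h := Sol.step (p := p) (P := P) (a := a) (i := i) (j0 := i + (t : ZMod f)) (dgc_MGE x y)
    rw [e, posv i (by omega), th_dgc _ _ (by omega)] at h
    exact h
  have hst1 : ∀ x y : k, Sol p P f a i
      (sg (i + ((f - 2 : ℕ) : ZMod f)) (dgc x y) - sg (i + ((f - 1 : ℕ) : ZMod f)) (dgc y x)) := by
    intro x y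
    have e : i + ((f - 2 : ℕ) : ZMod f) + 1 = i + ((f - 1 : ℕ) : ZMod f) := by
      rw [show f - 1 = f - 2 + 1 by omega]; push_cast; ring
    have h := Sol.step (p := p) (P := P) (a := a) (i := i) (j0 := i + ((f - 2 : ℕ) : ZMod f))
      (dgc_MGE x y)
    rw [e, posv i (by omega), th_dgc_last hP] at h
    exact h
  have hst2 : ∀ x y : k, Sol p P f a i
      (sg (i + ((f - 1 : ℕ) : ZMod f)) (dgc x y) - sg (i + ((0 : ℕ) : ZMod f)) (dgc x y)) := by
    intro x y
    have e : i + ((f - 1 : ℕ) : ZMod f) + 1 = i + ((0 : ℕ) : ZMod f) := by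
      have h7 : ((f - 1 + 1 : ℕ) : ZMod f) = 0 := by
        rw [Nat.sub_add_cancel (by omega), ZMod.natCast_self]
      rw [add_assoc, ← Nat.cast_succ, h7, Nat.cast_zero]
    have h := Sol.step (p := p) (P := P) (a := a) (i := i) (j0 := i + ((f - 1 : ℕ) : ZMod f))
      (dgc_MGE x y)
    rw [e, posv i (by omega), th_dgc _ _ (by omega)] at h
    exact h
  -- from `0` to `t`
  have hch : ∀ t, t ≤ f - 2 → ∀ x y : k, Sol p P f a i
      (sg (i + ((0 : ℕ) : ZMod f)) (dgc x y) - sg (i + (t : ZMod f)) (dgc x y)) := by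
    intro t
    induction t with
    | zero => intro _ x y; rw [sub_self]; exact Sol.zero
    | succ t ih =>
      intro ht x y
      have h := (ih (by omega) x y).add (hst t ht x y)
      rwa [sub_add_sub_cancel] at h
  have hsw : ∀ x y : k, Sol p P f a i
      (sg (i + ((0 : ℕ) : ZMod f)) (dgc x y) - sg (i + ((0 : ℕ) : ZMod f)) (dgc y x)) := by
    intro x y
    have h := ((hch (f - 2) le_rfl x y).add (hst1 x y)).add (hst2 y x)
    rwa [sub_add_sub_cancel, sub_add_sub_cancel] at h
  have hsc : ∀ x : k, Sol p P f a i (sg (i + ((0 : ℕ) : ZMod f)) (dgc x x)) := by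
    intro x
    have h := Sol.scal (p := p) (P := P) (a := a) (i := i) x
    rw [smul_one_dgc] at h
    rw [Nat.cast_zero, add_zero]
    exact h
  have h0 : ∀ x y : k, Sol p P f a i (sg (i + ((0 : ℕ) : ZMod f)) (dgc x y)) := by
    obtain ⟨h, hh⟩ := h2
    intro x y
    have h1 := (hsc (h * (x + y))).add (hsw (h * (x - y)) 0)
    have e : sg (i + ((0 : ℕ) : ZMod f)) (dgc (h * (x + y)) (h * (x + y))) +
        (sg (i + ((0 : ℕ) : ZMod f)) (dgc (h * (x - y)) 0) -
          sg (i + ((0 : ℕ) : ZMod f)) (dgc 0 (h * (x - y)))) =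
        sg (i + ((0 : ℕ) : ZMod f)) (dgc x y) := by
      have e1 : dgc x y + dgc 0 (h * (x - y)) =
          dgc (h * (x + y)) (h * (x + y)) + dgc (h * (x - y)) 0 := by
        rw [← dgc_add, ← dgc_add]
        congr 1
        · linear_combination (-x) * hh
        · linear_combination (-y) * hh
      have e2 := congrArg (sg (i + ((0 : ℕ) : ZMod f))) e1
      rw [sg_add, sg_add] at e2
      rw [← add_sub_assoc, ← e2, add_sub_cancel_right]
    rwa [e] at h1
  have hneg : ∀ {H : ZMod f → Mat k} {H' : ZMod f → Mat k}, Sol p P f a i H →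
      Sol p P f a i (H - H') → Sol p P f a i H' := by
    intro H H' h h'
    have h3 := h.add h'.neg
    rwa [neg_sub, add_sub_cancel] at h3
  intro t ht
  by_cases c1 : t ≤ f - 2
  · exact hneg (h0 x y) (hch t c1 x y)
  · rw [show t = f - 1 by omega]
    have h3 := (h0 x y).add (hst2 x y)
    rwa [add_sub_cancel] at h3

include hp hP ha ha1 in
/-- **T1.** Every integral family is a coboundary of an integral family, up to the directions. -/
theorem sol_all [NeZero f] (h2 : ∃ h : k, h + h = 1) (H : ZMod f → Mat k)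
    (hH : ∀ j, MGE (H j) 0) : Sol p P f a i H := by
  have h1 : ∀ (t : ℕ), t < f → ∀ M : Mat k, MGE M 0 → SolAt p P f a i t M := by
    intro t ht M hM
    have g1 : ∀ (x : LaurentSeries k), GE x 0 → GE (x - single 0 (x.coeff 0)) 1 := by
      intro x hx v hv
      rw [coeff_sub]
      rcases lt_or_ge v 0 with h | h
      · rw [hx v h, coeff_single_of_ne (by omega), sub_zero]
      · rw [show v = 0 by omega, coeff_single_same, sub_self]
    have g2 : ∀ (x : LaurentSeries k), GE x 0 →
        GE (x - single 0 (x.coeff 0) - single 1 (x.coeff 1)) 2 := by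
      intro x hx v hv
      rw [coeff_sub, coeff_sub]
      rcases lt_trichotomy v 0 with h | h | h
      · rw [hx v h, coeff_single_of_ne (by omega), coeff_single_of_ne (by omega), sub_zero,
          sub_zero]
      · rw [h, coeff_single_same, coeff_single_of_ne (by omega), sub_self, sub_zero]
      · rw [show v = 1 by omega, coeff_single_same, coeff_single_of_ne (by omega), sub_zero,
          sub_self]
    have e : M = !![M 0 0 - single 0 ((M 0 0).coeff 0), M 0 1 - single 0 ((M 0 1).coeff 0);
        M 1 0 - single 0 ((M 1 0).coeff 0) - single 1 ((M 1 0).coeff 1),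
        M 1 1 - single 0 ((M 1 1).coeff 0)] + (dgc ((M 0 0).coeff 0) ((M 1 1).coeff 0) +
        (!![0, single 0 ((M 0 1).coeff 0); 0, 0] + (!![0, 0; single 0 ((M 1 0).coeff 0), 0] +
          !![0, 0; single 1 ((M 1 0).coeff 1), 0]))) := by
      unfold dgc
      refine Matrix.ext fun r s => ?_
      rw [Matrix.add_apply, Matrix.add_apply, Matrix.add_apply, Matrix.add_apply]
      fin_cases r <;> fin_cases s
      · show M 0 0 = M 0 0 - single 0 ((M 0 0).coeff 0) + (single 0 ((M 0 0).coeff 0) +
          (0 + (0 + 0)))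
        ring
      · show M 0 1 = M 0 1 - single 0 ((M 0 1).coeff 0) + (0 +
          (single 0 ((M 0 1).coeff 0) + (0 + 0)))
        ring
      · show M 1 0 = M 1 0 - single 0 ((M 1 0).coeff 0) - single 1 ((M 1 0).coeff 1) + (0 +
          (0 + (single 0 ((M 1 0).coeff 0) + single 1 ((M 1 0).coeff 1))))
        ring
      · show M 1 1 = M 1 1 - single 0 ((M 1 1).coeff 0) + (single 0 ((M 1 1).coeff 0) +
          (0 + (0 + 0)))
        ring
    rw [e]
    exact (SolAt.one hp hP ha ht (g1 _ (hM 0 0)) (g1 _ (hM 0 1)) (g2 _ (hM 1 0))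
      (g1 _ (hM 1 1))).add ((SolAt.dg hP h2 _ _ t ht).add ((SolAt.e12 hp hP ha ha1 _ t ht).add
        ((SolAt.e21 hP _ t ht).add (SolAt.ue21 hp hP ha ha1 _ t ht))))
  have e : H = ∑ j, sg j (H j) := by
    funext j
    rw [Finset.sum_apply, Finset.sum_eq_single j]
    · show H j = if j = j then H j else 0
      rw [if_pos rfl]
    · intro j' _ hj
      show (if j = j' then H j' else 0) = 0
      rw [if_neg hj.symm]
    · intro h
      exact absurd (Finset.mem_univ j) h
  rw [e]
  refine Sol.sum _ fun j _ => ?_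
  have h4 := h1 (j - i).val (ZMod.val_lt _) (H j) (hH j)
  unfold SolAt at h4
  rwa [ZMod.natCast_zmod_val, add_sub_cancel] at h4

end

end Pool.Agent.Lib.MP_74d0c9_nt
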