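import Pool.Agent.Lib.MP_74d0c9_nt.Main

/-! Isomorphisms are isomorphisms of Kisin modules. -/

set_option autoImplicit false

namespace Pool.Agent.Lib.MP_74d0c9_nt

open HahnSeries

universe u

section
variable {A : Type u} [CommRing A]

theorem coeff_mul_mem (I : Ideal A) {x y : LaurentSeries A} {v : ℤ} (hx : GE x 0)
    (hy : ∀ j ≤ v, y.coeff j ∈ I) : (x * y).coeff v ∈ I := by
  rw [coeff_mul]
  refine Ideal.sum_mem _ fun ij hij => ?_
  rw [Finset.mem_addAntidiagonal] at hij
  apply Ideal.mul_mem_left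
  apply hy
  have h1 : x.coeff ij.1 ≠ 0 := hij.1
  have h2 : 0 ≤ ij.1 := by
    by_contra hc
    exact h1 (hx _ (by omega))
  have h3 := hij.2.2
  omega

theorem exists_coeff_unit [IsLocalRing A] {x : LaurentSeries A} (hx : IsUnit x) :
    ∃ j, IsUnit (x.coeff j) := by
  by_contra hc
  push Not at hc
  obtain ⟨y, hy⟩ := hx.exists_right_inv
  have h1 : (x * y).coeff 0 ∈ IsLocalRing.maximalIdeal A := by
    rw [coeff_mul]
    refine Ideal.sum_mem _ fun ij hij => ?_
    exact Ideal.mul_mem_right _ _ ((IsLocalRing.mem_maximalIdeal _).2 (hc _))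
  rw [hy, coeff_one, if_pos rfl] at h1
  exact (IsLocalRing.maximalIdeal.isMaximal A).ne_top ((Ideal.eq_top_iff_one _).2 h1)

theorem unit_of_rec [IsLocalRing A] {p f : ℕ} [Fact p.Prime] [NeZero f]
    {x ε : ZMod f → LaurentSeries A} (hx : ∀ i, IsUnit (x i)) (hx0 : ∀ i, GE (x i) 0)
    (hε : ∀ i, GE (ε i) 0) (h : ∀ i, x i = ε i * phi A p (x (i - 1))) (i : ZMod f) :
    IsUnit ((x i).coeff 0) := by
  by_contra hi
  have hp1 : 1 < p := (Fact.out : p.Prime).one_lt
  have hpz : (1 : ℤ) < p := by exact_mod_cast hp1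
  set m := IsLocalRing.maximalIdeal A with hm
  have hi' : (x i).coeff 0 ∈ m := (IsLocalRing.mem_maximalIdeal _).2 hi
  have hstep : ∀ v : ℤ, ∀ j, (∀ w, p * w ≤ v → (x (j - 1)).coeff w ∈ m) →
      (x j).coeff v ∈ m := by
    intro v j hj
    rw [h j]
    apply coeff_mul_mem m (hε j)
    intro w hw
    by_cases hd : (p : ℤ) ∣ w
    · obtain ⟨n, rfl⟩ := hd
      rw [phi_coeff]
      exact hj n hw
    · rw [phi_coeff_zero p _ hd]
      exact Ideal.zero_mem _
  have h0 : ∀ n : ℕ, (x (i + n)).coeff 0 ∈ m := by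
    intro n
    induction n with
    | zero => rw [Nat.cast_zero, add_zero]; exact hi'
    | succ n ih =>
      apply hstep
      intro w hw
      have e : i + ((n + 1 : ℕ) : ZMod f) - 1 = i + n := by push_cast; ring
      rw [e]
      rcases eq_or_lt_of_le (show w ≤ 0 by nlinarith) with h1 | h1
      · rw [h1]; exact ih
      · rw [hx0 _ w h1]; exact Ideal.zero_mem _
  have h0' : ∀ j, (x j).coeff 0 ∈ m := by
    intro j
    have := h0 (j - i).val
    rwa [ZMod.natCast_val, ZMod.cast_id', id_eq, add_sub_cancel] at this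
  have hall : ∀ v : ℕ, ∀ w : ℕ, w ≤ v → ∀ j, (x j).coeff (w : ℤ) ∈ m := by
    intro v
    induction v with
    | zero =>
      intro w hw j
      have : w = 0 := by omega
      rw [this, Nat.cast_zero]
      exact h0' j
    | succ v ih =>
      intro w hw j
      rcases Nat.eq_zero_or_pos w with h1 | h1
      · rw [h1, Nat.cast_zero]
        exact h0' j
      · apply hstep
        intro t ht
        rcases lt_or_ge t 0 with h2 | h2
        · rw [hx0 _ t h2]; exact Ideal.zero_mem _
        · obtain ⟨s, rfl⟩ := Int.eq_ofNat_of_zero_le h2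
          apply ih
          have h3 : p * s ≤ w := by exact_mod_cast ht
          have h4 : 2 * s ≤ p * s := Nat.mul_le_mul_right s hp1
          omega
  obtain ⟨j, hj⟩ := exists_coeff_unit (hx i)
  have hj' : (x i).coeff j ∈ m := by
    rcases lt_or_ge j 0 with h1 | h1
    · rw [hx0 i j h1]; exact Ideal.zero_mem _
    · obtain ⟨s, rfl⟩ := Int.eq_ofNat_of_zero_le h1
      exact hall s s le_rfl i
  exact (IsLocalRing.mem_maximalIdeal _).1 hj' hj

theorem gx_of_integral {G : Mat A} (h : Integral G) (hdet : IsUnit (G.det.coeff 0)) :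
    ∃ g : GL (Fin 2) (PowerSeries A), G = gx g := by
  have h1 : ∀ r s, ∃ g : PowerSeries A, G r s = ps g := by
    intro r s
    obtain ⟨g, hg, -⟩ := GE.exists_ps (m := 0) (h r s)
    refine ⟨g, ?_⟩
    rw [hg]
    have : (single (0 : ℤ) (1 : A) : LaurentSeries A) = 1 := rfl
    rw [this, one_mul]
  choose g hg using h1
  have h2 : G = (Matrix.of g).map ps := by
    ext r s
    rw [hg]
    rfl
  have h3 : IsUnit (Matrix.of g).det := by
    rw [PowerSeries.isUnit_iff_constantCoeff, ← coeff_ps_zero, RingHom.map_det]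
    have : (ps : PowerSeries A →+* LaurentSeries A).mapMatrix (Matrix.of g) = G := h2.symm
    rw [this]
    exact hdet
  exact ⟨Matrix.GeneralLinearGroup.mk'' _ h3, h2⟩

theorem det_frob {f : ℕ} {a : ZMod f → ℕ} (M : KisinModule f A) (i : ZMod f) :
    (M.frob a i).det = single (a i : ℤ) 1 * ((gx (M.X i)).det * (gz (M.Z i)).det) := by
  have hF : M.frob a i = gx (M.X i) * du (a i) * gz (M.Z i) := rfl
  have h1 : (du (a i) : Mat A).det = single (a i : ℤ) 1 := by
    unfold du
    rw [Matrix.det_diagonal, Fin.prod_univ_two]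
    simp
  rw [hF, Matrix.det_mul, Matrix.det_mul, h1]
  ring

/-- If the shape contains no word: an isomorphism of étale `φ`-modules between two Kisin modules
of this shape, the first of which is residually irreducible, is an isomorphism of Kisin modules. -/
theorem gx_of_not_hasWord {K : Type u} [Field K] [IsLocalRing A] [IsAlgClosed K]
    {p f : ℕ} [Fact p.Prime] [NeZero f] {a : ZMod f → ℕ} (π : A →+* K) [IsLocalHom π]
    (hp : 5 ≤ p) (ha : ∀ i, 1 ≤ a i ∧ a i ≤ p) (hw : ¬ HasWord p f a) (M N : KisinModule f A)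
    (hM : Irred p ((M.baseChange π).frob a)) (G : ZMod f → GL (Fin 2) (LaurentSeries A))
    (hG : IsHom p (M.frob a) (N.frob a) fun i => (G i).1) (i : ZMod f) :
    ∃ g : GL (Fin 2) (PowerSeries A), (G i).1 = gx g := by
  have hint := integral_of_not_hasWord π hp ha hw M N hM _ hG
  apply gx_of_integral (hint i)
  let ν : ZMod f → LaurentSeries A := fun i => (gx (M.X i)⁻¹).det * (gz (M.Z i)⁻¹).det
  have hν : ∀ i, ν i * ((gx (M.X i)).det * (gz (M.Z i)).det) = 1 := by
    intro i
    simp only [ν]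
    have e1 : (gx (M.X i)⁻¹).det * (gx (M.X i)).det = 1 := by
      rw [← Matrix.det_mul, ← gx_mul, inv_mul_cancel, gx_one, Matrix.det_one]
    have e2 : (gz (M.Z i)⁻¹).det * (gz (M.Z i)).det = 1 := by
      rw [← Matrix.det_mul, ← gz_mul, inv_mul_cancel, gz_one, Matrix.det_one]
    calc _ = ((gx (M.X i)⁻¹).det * (gx (M.X i)).det) * ((gz (M.Z i)⁻¹).det * (gz (M.Z i)).det) := by
          ring
      _ = 1 := by rw [e1, e2, one_mul]
  have hdetGE : ∀ {F : Mat A}, MGE F 0 → GE F.det 0 := by
    intro F hF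
    rw [Matrix.det_fin_two]
    have h1 := ((hF 0 0).mul (hF 1 1)).1
    have h2 := ((hF 0 1).mul (hF 1 0)).1
    rw [add_zero] at h1 h2
    intro j hj
    rw [coeff_sub, h1 j hj, h2 j hj, sub_zero]
  refine unit_of_rec (p := p) (x := fun i => (G i).1.det)
    (ε := fun i => (gx (N.X i)).det * (gz (N.Z i)).det * ν i) ?_ ?_ ?_ ?_ i
  · intro i
    exact (Matrix.isUnit_iff_isUnit_det _).1 (G i).isUnit
  · intro i
    exact hdetGE (hint i)
  · intro i
    have h1 := ((hdetGE (gx_MGE (N.X i))).mul (hdetGE (gz_MGE (N.Z i)))).1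
    have h2 := ((hdetGE (gx_MGE (M.X i)⁻¹)).mul (hdetGE (gz_MGE (M.Z i)⁻¹))).1
    have h3 := (h1.mul h2).1
    rw [add_zero, add_zero] at h3
    exact h3
  · intro i
    have h1 := congrArg Matrix.det (hG i)
    rw [Matrix.det_mul, Matrix.det_mul, det_frob, det_frob] at h1
    have h2 : ((G (i - 1)).1.map (phi A p)).det = phi A p (G (i - 1)).1.det :=
      (RingHom.map_det (phi A p) _).symm
    rw [h2] at h1
    have h3 : (single (-(a i : ℤ)) (1 : A) : LaurentSeries A) * single (a i : ℤ) 1 = 1 := by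
      rw [single_mul_single, one_mul, neg_add_cancel]
      rfl
    calc (G i).1.det = (single (-(a i : ℤ)) (1 : A) * single (a i : ℤ) 1) * ((G i).1.det *
          (ν i * ((gx (M.X i)).det * (gz (M.Z i)).det))) := by rw [h3, hν, one_mul, mul_one]
      _ = single (-(a i : ℤ)) (1 : A) * ν i * ((G i).1.det *
          (single (a i : ℤ) 1 * ((gx (M.X i)).det * (gz (M.Z i)).det))) := by ring
      _ = single (-(a i : ℤ)) (1 : A) * ν i * (single (a i : ℤ) 1 *
          ((gx (N.X i)).det * (gz (N.Z i)).det) * phi A p (G (i - 1)).1.det) := by rw [h1]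
      _ = (single (-(a i : ℤ)) (1 : A) * single (a i : ℤ) 1) *
          ((gx (N.X i)).det * (gz (N.Z i)).det * ν i * phi A p (G (i - 1)).1.det) := by ring
      _ = _ := by rw [h3, one_mul]

end

end Pool.Agent.Lib.MP_74d0c9_nt
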