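import Pool.Agent.Lib.MP_74d0c9_nt.Indep
import Pool.Agent.Lib.MP_74d0c9_nt.Unique
import Pool.Agent.Lib.MP_74d0c9_nt.Deform

/-! The tangent vectors which belong to a word. -/

set_option autoImplicit false

namespace Pool.Agent.Lib.MP_74d0c9_nt

open HahnSeries

universe u

section
variable {k : Type u} [Field k] {p f m : ℕ} [Fact p.Prime] [NeZero f] {a : ZMod f → ℕ}

/-- the parameters `0, 1, -1` -/
def lam (k : Type u) [Field k] (e : Fin 3) : k := ![0, 1, -1] e

/-- the index set of the directions -/
abbrev Ix (m f : ℕ) : Type := Unit ⊕ ((Fin (m - 1) × Fin 3) ⊕ Fin (f - m))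

theorem card_Ix (hm : 2 ≤ m) (hmf : m < f) : Fintype.card (Ix m f) = f + 2 * m - 2 := by
  rw [Fintype.card_sum, Fintype.card_sum, Fintype.card_prod, Fintype.card_fin, Fintype.card_fin,
    Fintype.card_fin, Fintype.card_unit]
  omega

/-- the directions -/
noncomputable def Dx (k : Type u) [Field k] (p m f : ℕ) (a : ZMod f → ℕ) (i : ZMod f) :
    Ix m f → ZMod f → Mat k
  | Sum.inl _ => fun j =>
      if (j - i).val = 0 then 1 * Bn p m f (a j) (j - i).val else 0
  | Sum.inr (Sum.inl y) => fun j =>
      if (j - i).val = (y.1 : ℕ) then nl (lam k y.2) * Bn p m f (a j) (j - i).val else 0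
  | Sum.inr (Sum.inr y) => fun j =>
      if (j - i).val = m + (y : ℕ) then Bn p m f (a j) (j - i).val * !![0, 0; 1, 0] else 0

theorem deform_eq (B D : Mat k) : deform B D = dfm (algebraMap k (DualNumber k)) DualNumber.eps B D :=
  rfl

theorem exists_kisin (hm : 2 ≤ m) (hmf : m < f) (i : ZMod f) (h1 : a i = 1)
    (h2 : ∀ s : ℕ, 0 < s → s < m - 1 → a (i + s) = p - 1) (h3 : a (i + (m - 1 : ℕ)) = p)
    (s : Ix m f) : ∃ (M : KisinModule f (DualNumber k))
      (T : ZMod f → GL (Fin 2) (LaurentSeries (DualNumber k))),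
      IsHom p (M.frob a) (fun j => deform (Bn p m f (a j) (j - i).val) (Dx k p m f a i s j))
        (fun j => (T j).1) := by
  have hee : (DualNumber.eps : DualNumber k) * DualNumber.eps = 0 := DualNumber.eps_mul_eps
  match s with
  | Sum.inl _ =>
    refine ⟨Mx m i (algebraMap k (DualNumber k) 0) 0 (eS hee) 1,
      fun j => Tn m (algebraMap k (DualNumber k) 0) (j - i).val, ?_⟩
    exact isHom_left (algebraMap k (DualNumber k)) DualNumber.eps hm hmf i h1 h2 h3 0 0 (eS hee) 1
      (eS_comm (algebraMap k (DualNumber k)) hee _)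
  | Sum.inr (Sum.inl y) =>
    refine ⟨Mx m i (algebraMap k (DualNumber k) (lam k y.2)) y.1 (eU DualNumber.eps) 1,
      fun j => Tn m (algebraMap k (DualNumber k) (lam k y.2)) (j - i).val, ?_⟩
    refine isHom_left (algebraMap k (DualNumber k)) DualNumber.eps hm hmf i h1 h2 h3 (lam k y.2) y.1
      (eU DualNumber.eps) (nl (lam k y.2)) ?_
    have e : Tn m (algebraMap k (DualNumber k) (lam k y.2)) y.1 =
        tl (algebraMap k (DualNumber k) (lam k y.2)) := by
      unfold Tn; rw [if_pos y.1.2]
    rw [e]
    exact nl_tl (algebraMap k (DualNumber k)) DualNumber.eps (lam k y.2)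
  | Sum.inr (Sum.inr y) =>
    refine ⟨Mx m i (algebraMap k (DualNumber k) 0) (m + y) 1 (eL DualNumber.eps),
      fun j => Tn m (algebraMap k (DualNumber k) 0) (j - i).val, ?_⟩
    exact isHom_right (algebraMap k (DualNumber k)) DualNumber.eps hm hmf i h1 h2 h3 0 (m + y)
      (by omega) (eL DualNumber.eps) !![0, 0; 1, 0] (eL_dfm (algebraMap k (DualNumber k)) _)

/-- the coefficients at the components of the word -/
def rr (r : Ix m f → k) (t : ℕ) (e : Fin 3) : k :=
  if h : t < m - 1 then r (Sum.inr (Sum.inl (⟨t, h⟩, e))) else 0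

/-- the coefficients at the other components -/
def xx (r : Ix m f → k) (t : ℕ) : k :=
  if h : m ≤ t ∧ t < f then r (Sum.inr (Sum.inr ⟨t - m, by omega⟩)) else 0

theorem sum_Dx (hmf : m < f) (i : ZMod f) (r : Ix m f → k) (j : ZMod f) :
    ∑ s, (HahnSeries.C (r s) : LaurentSeries k) • Dx k p m f a i s j =
      Dsum p m f (a j) (r (Sum.inl ())) (rr r) (xx r) (j - i).val := by
  rw [Fintype.sum_sum_type, Fintype.sum_sum_type, Fintype.sum_unique, Fintype.sum_prod_type,
    ← add_assoc]
  have hlt : (j - i).val < f := ZMod.val_lt _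
  unfold Dsum
  congr 1
  · congr 1
    · show (HahnSeries.C (r (Sum.inl ())) : LaurentSeries k) •
        (if (j - i).val = 0 then 1 * Bn p m f (a j) (j - i).val else 0) = _
      rw [Matrix.one_mul]
      split_ifs
      · rfl
      · exact smul_zero _
    · by_cases h : (j - i).val < m - 1
      · rw [if_pos h, Finset.sum_eq_single (⟨(j - i).val, h⟩ : Fin (m - 1))]
        · rw [Fin.sum_univ_three]
          have e : ∀ e : Fin 3, Dx k p m f a i (Sum.inr (Sum.inl (⟨(j - i).val, h⟩, e))) j =
              nl (lam k e) * Bn p m f (a j) (j - i).val := fun e => if_pos rfl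
          rw [e, e, e]
          have e2 : ∀ e : Fin 3, rr r (j - i).val e =
              r (Sum.inr (Sum.inl (⟨(j - i).val, h⟩, e))) := fun e => dif_pos h
          unfold Nm
          rw [e2, e2, e2, Matrix.add_mul, Matrix.add_mul, smul_mul', smul_mul', smul_mul']
          rfl
        · intro b _ hb
          refine Finset.sum_eq_zero fun e _ => ?_
          have e1 : Dx k p m f a i (Sum.inr (Sum.inl (b, e))) j = 0 := by
            refine if_neg fun h' => hb ?_
            ext
            exact h'.symm
          rw [e1, smul_zero]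
        · intro h'
          exact absurd (Finset.mem_univ _) h'
      · rw [if_neg h]
        refine Finset.sum_eq_zero fun b _ => Finset.sum_eq_zero fun e _ => ?_
        have e1 : Dx k p m f a i (Sum.inr (Sum.inl (b, e))) j = 0 := by
          refine if_neg fun h' => h ?_
          rw [h']
          exact b.2
        rw [e1, smul_zero]
  · by_cases h : m ≤ (j - i).val
    · rw [if_pos h, Finset.sum_eq_single (⟨(j - i).val - m, by omega⟩ : Fin (f - m))]
      · have e : Dx k p m f a i (Sum.inr (Sum.inr ⟨(j - i).val - m, by omega⟩)) j =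
            Bn p m f (a j) (j - i).val * !![0, 0; 1, 0] := if_pos (by
              show (j - i).val = m + ((j - i).val - m)
              omega)
        have e2 : xx r (j - i).val = r (Sum.inr (Sum.inr ⟨(j - i).val - m, by omega⟩)) :=
          dif_pos ⟨h, hlt⟩
        rw [e, e2, ← mul_smul']
        congr 1
        refine Matrix.ext fun a b => ?_
        rw [Matrix.smul_apply, smul_eq_mul]
        fin_cases a <;> fin_cases b
        · exact mul_zero _
        · exact mul_zero _
        · exact mul_one _
        · exact mul_zero _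
      · intro b _ hb
        have e1 : Dx k p m f a i (Sum.inr (Sum.inr b)) j = 0 := by
          refine if_neg fun h' => hb ?_
          ext
          show (b : ℕ) = (j - i).val - m
          omega
        rw [e1, smul_zero]
      · intro h'
        exact absurd (Finset.mem_univ _) h'
    · rw [if_neg h]
      refine Finset.sum_eq_zero fun b _ => ?_
      have e1 : Dx k p m f a i (Sum.inr (Sum.inr b)) j = 0 := by
        refine if_neg fun h' => h ?_
        omega
      rw [e1, smul_zero]

theorem indep_Dx (hm : 2 ≤ m) (hmf : m < f) (ha : ∀ i, 1 ≤ a i ∧ a i ≤ p) (h2 : (2 : k) ≠ 0)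
    (i : ZMod f) (r : Ix m f → k) (C : ZMod f → Mat k)
    (h : ∀ j, ∑ s, (HahnSeries.C (r s) : LaurentSeries k) • Dx k p m f a i s j =
      C j * Bn p m f (a j) (j - i).val -
        Bn p m f (a j) (j - i).val * (C (j - 1)).map (phi k p)) : r = 0 := by
  obtain ⟨e1, e2, e3⟩ := indep hm hmf ha
    (fun z hz => (mul_eq_zero.1 hz).resolve_left h2) i (r (Sum.inl ())) (rr r) (xx r) C
    (fun j => by rw [← sum_Dx hmf]; exact h j)
  funext s
  match s with
  | Sum.inl _ => exact e1
  | Sum.inr (Sum.inl y) =>
    have h3 := congrFun (e2 y.1 y.1.2) y.2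
    unfold rr at h3
    rw [dif_pos y.1.2] at h3
    exact h3
  | Sum.inr (Sum.inr y) =>
    have hy := y.2
    have h3 := e3 (m + y) (by omega) (by omega)
    unfold xx at h3
    rw [dif_pos ⟨by omega, by omega⟩] at h3
    have e : (⟨m + (y : ℕ) - m, by omega⟩ : Fin (f - m)) = y := by
      ext
      show m + (y : ℕ) - m = y
      omega
    rw [e] at h3
    exact h3

end

end Pool.Agent.Lib.MP_74d0c9_nt
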