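import Pool.Agent.Lib.MP_74d0c9_nt.Formal
import Pool.Agent.Lib.MP_74d0c9_nt.Tangent

/-! The directions and the coordinates. -/

set_option autoImplicit false

namespace Pool.Agent.Lib.MP_74d0c9_nt

open HahnSeries

universe u

section
variable {k : Type u} [Field k] {p f m : ℕ} [Fact p.Prime] [NeZero f] {a : ZMod f → ℕ}

/-- `u⁻¹ e₁₂`, `u⁻¹ (e₂₂ - e₁₁)`, `- u⁻¹ e₂₁` -/
noncomputable def eE : Fin 3 → Mat k :=
  ![!![0, un (-1); 0, 0], !![-un (-1), 0; 0, un (-1)], !![0, 0; -un (-1), 0]]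

/-- the directions -/
noncomputable def Du (k : Type u) [Field k] (p m f : ℕ) (a : ZMod f → ℕ) (i : ZMod f) :
    Ix m f → ZMod f → Mat k
  | Sum.inl _ => fun j => if (j - i).val = 0 then Bn p m f (a j) (j - i).val else 0
  | Sum.inr (Sum.inl y) => fun j =>
      if (j - i).val = (y.1 : ℕ) then eE y.2 * Bn p m f (a j) (j - i).val else 0
  | Sum.inr (Sum.inr y) => fun j =>
      if (j - i).val = m + (y : ℕ) then Bn p m f (a j) (j - i).val * !![0, 0; 1, 0] else 0

/-- the coordinates -/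
def cu {A : Type u} [CommRing A] (l s : A) (w : Fin (m - 1) → A) (x : Fin (f - m) → A) :
    Ix m f → A
  | Sum.inl _ => s
  | Sum.inr (Sum.inl y) => (if (y.1 : ℕ) = 0 then 1 + s else 1) * w y.1 * l ^ (y.2 : ℕ)
  | Sum.inr (Sum.inr y) => x y

/-- the étale `φ`-module over `A` with coordinates `c` -/
noncomputable def Fu (k : Type u) [Field k] (p m f : ℕ) (a : ZMod f → ℕ) (i : ZMod f) {A : Type u}
    [CommRing A] [Algebra k A] (c : Ix m f → A) : ZMod f → Mat A :=
  fun j => toA A (Bn p m f (a j) (j - i).val : Mat k) +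
    ∑ s, (HahnSeries.C (c s) : LaurentSeries A) • toA A (Du k p m f a i s j)

end

end Pool.Agent.Lib.MP_74d0c9_nt
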