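import Pool.Agent.Lib.MP_74d0c9_nt.UDefs

/-! Linear maps applied to the coefficients. -/

set_option autoImplicit false

namespace Pool.Agent.Lib.MP_74d0c9_nt

open HahnSeries

universe u

section
variable {A : Type u} [CommRing A]

theorem coeff_mul_big {x y : LaurentSeries A} {s t : Set ℤ} (hs : s.IsPWO) (ht : t.IsPWO)
    (hx : x.support ⊆ s) (hy : y.support ⊆ t) (v : ℤ) :
    (x * y).coeff v = ∑ ij ∈ Finset.antidiagonal hs ht v, x.coeff ij.1 * y.coeff ij.2 := by
  rw [coeff_mul_left' hs hx]
  apply Finset.sum_subset (Finset.antidiagonal_mono_right hy)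
  intro ij h1 h2
  rw [Finset.mem_antidiagonal] at h1 h2
  have h3 : y.coeff ij.2 = 0 := by
    by_contra h4
    exact h2 ⟨h1.1, h4, h1.2.2⟩
  rw [h3, mul_zero]

end

section
variable {k : Type u} [Field k] {A A' : Type u} [CommRing A] [Algebra k A] [CommRing A']
  [Algebra k A']

/-- a linear map applied to the coefficients -/
noncomputable def cm (lam : A →ₗ[k] A') (x : LaurentSeries A) : LaurentSeries A' := x.map lam

theorem cm_coeff (lam : A →ₗ[k] A') (x : LaurentSeries A) (v : ℤ) :
    (cm lam x).coeff v = lam (x.coeff v) := rfl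

theorem cm_add (lam : A →ₗ[k] A') (x y : LaurentSeries A) : cm lam (x + y) = cm lam x + cm lam y := by
  ext v
  rw [cm_coeff, coeff_add, coeff_add, map_add, cm_coeff, cm_coeff]

theorem cm_sub (lam : A →ₗ[k] A') (x y : LaurentSeries A) : cm lam (x - y) = cm lam x - cm lam y := by
  ext v
  rw [cm_coeff, coeff_sub, coeff_sub, map_sub, cm_coeff, cm_coeff]

theorem cm_zero (lam : A →ₗ[k] A') : cm lam (0 : LaurentSeries A) = 0 := by
  ext v
  rw [cm_coeff, coeff_zero, coeff_zero, map_zero]

theorem support_lmap {A A' : Type u} [CommRing A] [CommRing A'] (π : A →+* A') (x : LaurentSeries A) :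
    (lmap π x).support ⊆ x.support := by
  intro v hv hx
  apply hv
  rw [lmap_coeff, hx, map_zero]

theorem support_cm (lam : A →ₗ[k] A') (x : LaurentSeries A) :
    (cm lam x).support ⊆ x.support := by
  intro v hv hx
  apply hv
  rw [cm_coeff, hx, map_zero]

/-- the map on the coefficients is linear over `k((u))` -/
theorem cm_mul_left (lam : A →ₗ[k] A') (P : LaurentSeries k) (x : LaurentSeries A) :
    cm lam (lmap (algebraMap k A) P * x) = lmap (algebraMap k A') P * cm lam x := by
  ext v
  rw [cm_coeff, coeff_mul_big P.isPWO_support x.isPWO_support (support_lmap _ P) subset_rfl,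
    coeff_mul_big P.isPWO_support x.isPWO_support (support_lmap _ P) (support_cm lam x), map_sum]
  refine Finset.sum_congr rfl fun ij _ => ?_
  rw [lmap_coeff, lmap_coeff, cm_coeff, ← Algebra.smul_def, ← Algebra.smul_def, map_smul]

theorem cm_mul_right (lam : A →ₗ[k] A') (P : LaurentSeries k) (x : LaurentSeries A) :
    cm lam (x * lmap (algebraMap k A) P) = cm lam x * lmap (algebraMap k A') P := by
  rw [mul_comm, cm_mul_left, mul_comm]

/-- a constant times a series over `k` -/
theorem cm_C_mul (lam : A →ₗ[k] A') (c : A) (P : LaurentSeries k) :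
    cm lam (HahnSeries.C c * lmap (algebraMap k A) P) =
      HahnSeries.C (lam c) * lmap (algebraMap k A') P := by
  rw [cm_mul_right]
  congr 1
  ext v
  rw [cm_coeff, HahnSeries.C_apply, HahnSeries.C_apply]
  by_cases h : v = 0
  · rw [h, coeff_single_same, coeff_single_same]
  · rw [coeff_single_of_ne h, coeff_single_of_ne h, map_zero]

theorem cm_phi (p : ℕ) [Fact p.Prime] (lam : A →ₗ[k] A') (x : LaurentSeries A) :
    cm lam (phi A p x) = phi A' p (cm lam x) := by
  ext v
  rw [cm_coeff]
  by_cases hd : (p : ℤ) ∣ v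
  · obtain ⟨n, rfl⟩ := hd
    rw [phi_coeff, phi_coeff, cm_coeff]
  · rw [phi_coeff_zero p x hd, phi_coeff_zero p _ hd, map_zero]

theorem lmap_phi {A A' : Type u} [CommRing A] [CommRing A'] (p : ℕ) [Fact p.Prime] (π : A →+* A')
    (x : LaurentSeries A) : lmap π (phi A p x) = phi A' p (lmap π x) := by
  ext v
  rw [lmap_coeff]
  by_cases hd : (p : ℤ) ∣ v
  · obtain ⟨n, rfl⟩ := hd
    rw [phi_coeff, phi_coeff, lmap_coeff]
  · rw [phi_coeff_zero p x hd, phi_coeff_zero p _ hd, map_zero]

theorem lmap_one {A : Type u} [CommRing A] (x : LaurentSeries A) : lmap (RingHom.id A) x = x := by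
  ext v
  rfl

theorem lmap_lmap {A A' A'' : Type u} [CommRing A] [CommRing A'] [CommRing A''] (π : A →+* A')
    (π' : A' →+* A'') (x : LaurentSeries A) : lmap π' (lmap π x) = lmap (π'.comp π) x := by
  ext v
  rfl

/-! ### matrices -/

variable {f : ℕ}

/-- a linear map applied to the coefficients of matrices -/
noncomputable def LL (lam : A →ₗ[k] A') (X : ZMod f → Mat A) : ZMod f → Mat A' :=
  fun j => (X j).map (cm lam)

theorem LL_apply (lam : A →ₗ[k] A') (X : ZMod f → Mat A) (j : ZMod f) (r s : Fin 2) :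
    LL lam X j r s = cm lam (X j r s) := rfl

theorem LL_coeff (lam : A →ₗ[k] A') (X : ZMod f → Mat A) (j : ZMod f) (r s : Fin 2) (v : ℤ) :
    (LL lam X j r s).coeff v = lam ((X j r s).coeff v) := rfl

theorem W_ext {X Y : ZMod f → Mat A}
    (h : ∀ (j : ZMod f) (r s : Fin 2) (v : ℤ), (X j r s).coeff v = (Y j r s).coeff v) : X = Y := by
  funext j
  refine Matrix.ext fun r s => ?_
  ext v
  exact h j r s v

theorem LL_add (lam : A →ₗ[k] A') (X Y : ZMod f → Mat A) : LL lam (X + Y) = LL lam X + LL lam Y :=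
  W_ext fun j r s v => by
    show lam ((X j r s + Y j r s).coeff v) = (LL lam X j r s + LL lam Y j r s).coeff v
    rw [coeff_add, coeff_add, map_add]
    rfl

theorem LL_sub (lam : A →ₗ[k] A') (X Y : ZMod f → Mat A) : LL lam (X - Y) = LL lam X - LL lam Y :=
  W_ext fun j r s v => by
    show lam ((X j r s - Y j r s).coeff v) = (LL lam X j r s - LL lam Y j r s).coeff v
    rw [coeff_sub, coeff_sub, map_sub]
    rfl

theorem LL_zero (lam : A →ₗ[k] A') : LL lam (0 : ZMod f → Mat A) = 0 :=
  W_ext fun j r s v => by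
    show lam ((0 : LaurentSeries A).coeff v) = (0 : LaurentSeries A').coeff v
    rw [coeff_zero, coeff_zero, map_zero]

theorem LL_sum {ι : Type*} (t : Finset ι) (lam : A →ₗ[k] A') (X : ι → ZMod f → Mat A) :
    LL lam (∑ s ∈ t, X s) = ∑ s ∈ t, LL lam (X s) := by
  classical
  induction t using Finset.induction_on with
  | empty => exact LL_zero lam
  | insert a s ha ih => rw [Finset.sum_insert ha, Finset.sum_insert ha, LL_add, ih]

theorem map_mul_toA (lam : A →ₗ[k] A') (P : Mat k) (X : Mat A) :
    (toA A P * X).map (cm lam) = toA A' P * X.map (cm lam) := by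
  refine Matrix.ext fun r s => ?_
  show cm lam ((toA A P * X) r s) = _
  rw [Matrix.mul_apply, Matrix.mul_apply, Fin.sum_univ_two, Fin.sum_univ_two, cm_add]
  exact congrArg₂ _ (cm_mul_left lam _ _) (cm_mul_left lam _ _)

theorem map_toA_mul (lam : A →ₗ[k] A') (P : Mat k) (X : Mat A) :
    (X * toA A P).map (cm lam) = X.map (cm lam) * toA A' P := by
  refine Matrix.ext fun r s => ?_
  show cm lam ((X * toA A P) r s) = _
  rw [Matrix.mul_apply, Matrix.mul_apply, Fin.sum_univ_two, Fin.sum_univ_two, cm_add]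
  exact congrArg₂ _ (cm_mul_right lam _ _) (cm_mul_right lam _ _)

theorem map_phi_cm (p : ℕ) [Fact p.Prime] (lam : A →ₗ[k] A') (X : Mat A) :
    (X.map (phi A p)).map (cm lam) = (X.map (cm lam)).map (phi A' p) :=
  Matrix.ext fun r s => cm_phi p lam (X r s)

/-- the coboundary operator -/
noncomputable def dA (p : ℕ) [Fact p.Prime] (B : ZMod f → Mat k) (C : ZMod f → Mat A) :
    ZMod f → Mat A :=
  fun j => C j * toA A (B j) - toA A (B j) * (C (j - 1)).map (phi A p)

theorem LL_dA (p : ℕ) [Fact p.Prime] (B : ZMod f → Mat k) (lam : A →ₗ[k] A') (C : ZMod f → Mat A) :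
    LL lam (dA p B C) = dA p B (LL lam C) := by
  funext j
  have h1 := map_toA_mul lam (B j) (C j)
  have h2 := map_mul_toA lam (B j) ((C (j - 1)).map (phi A p))
  rw [map_phi_cm] at h2
  show (C j * toA A (B j) - toA A (B j) * (C (j - 1)).map (phi A p)).map (cm lam) = _
  have h3 : ∀ X Y : Mat A, (X - Y).map (cm lam) = X.map (cm lam) - Y.map (cm lam) := fun X Y =>
    Matrix.ext fun r s => cm_sub lam (X r s) (Y r s)
  rw [h3, h1, h2]
  rfl

theorem toA_self (P : Mat k) : toA k P = P :=
  Matrix.ext fun r s => lmap_one (P r s)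

end

end Pool.Agent.Lib.MP_74d0c9_nt
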