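import Pool.Agent.Lib.MP_74d0c9_nt.UNorm

/-! Facts on the test algebras. -/

set_option autoImplicit false

namespace Pool.Agent.Lib.MP_74d0c9_nt

open HahnSeries IsLocalRing

universe u

section
variable {k : Type u} [Field k]

theorem IsTest.isNilpotent {A : Type u} [CommRing A] [Algebra k A] [IsLocalRing A]
    (hA : IsTest k A) : IsNilpotent (maximalIdeal A) := by
  have := hA.finite
  have : IsArtinianRing A := IsArtinianRing.of_finite k A
  rw [← IsLocalRing.jacobson_eq_maximalIdeal (⊥ : Ideal A) bot_ne_top]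
  exact IsArtinianRing.isNilpotent_jacobson_bot

theorem mem_max_of_nilpotent {A : Type u} [CommRing A] [IsLocalRing A] {x : A}
    (hx : IsNilpotent x) : x ∈ maximalIdeal A := by
  rw [mem_maximalIdeal, mem_nonunits_iff]
  intro hu
  exact not_isUnit_zero (M₀ := A) (by
    obtain ⟨n, hn⟩ := hx
    rw [← hn]
    exact hu.pow n)

/-- every element is congruent to a constant -/
theorem exists_constant {R : Type u} [CommRing R] [Algebra k R] [IsLocalRing R]
    (hres : Function.Surjective (algebraMap k (ResidueField R))) (x : R) :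
    ∃ c : k, x - algebraMap k R c ∈ maximalIdeal R := by
  obtain ⟨c, hc⟩ := hres (residue R x)
  refine ⟨c, ?_⟩
  have h1 : residue R (algebraMap k R c) = residue R x := hc
  rw [← Ideal.Quotient.eq_zero_iff_mem, map_sub, sub_eq_zero]
  exact h1.symm

theorem isTest_of {A : Type u} [CommRing A] [Algebra k A] [IsLocalRing A] [Module.Finite k A]
    (h : ∀ x : A, ∃ c : k, x - algebraMap k A c ∈ maximalIdeal A) : IsTest k A := by
  refine ⟨inferInstance, fun y => ?_⟩
  obtain ⟨x, rfl⟩ := Ideal.Quotient.mk_surjective y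
  obtain ⟨c, hc⟩ := h x
  refine ⟨c, ?_⟩
  rw [← Ideal.Quotient.eq_zero_iff_mem, map_sub, sub_eq_zero] at hc
  exact hc.symm

variable {R : Type u} [CommRing R] [Algebra k R] [IsLocalRing R] {n : ℕ}

theorem map_mk_nilpotent {y : R ⧸ maximalIdeal R ^ n}
    (hy : y ∈ (maximalIdeal R).map (Ideal.Quotient.mk (maximalIdeal R ^ n))) : IsNilpotent y := by
  refine ⟨n, ?_⟩
  have h1 : y ^ n ∈ ((maximalIdeal R).map (Ideal.Quotient.mk (maximalIdeal R ^ n))) ^ n :=
    Ideal.pow_mem_pow hy n
  rw [← Ideal.map_pow, Ideal.map_quotient_self] at h1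
  exact h1

theorem mk_mem_max {Q : Type u} [CommRing Q] [IsLocalRing Q] (g : (R ⧸ maximalIdeal R ^ n) →+* Q)
    {x : R} (hx : x ∈ maximalIdeal R) : g (Ideal.Quotient.mk _ x) ∈ maximalIdeal Q :=
  mem_max_of_nilpotent ((map_mk_nilpotent (Ideal.mem_map_of_mem _ hx)).map g)

theorem isLocal_of_surj {Q : Type u} [CommRing Q] [Nontrivial Q]
    {g : (R ⧸ maximalIdeal R ^ n) →+* Q} (hg : Function.Surjective g) : IsLocalRing Q :=
  IsLocalRing.of_surjective' (g.comp (Ideal.Quotient.mk _))
    (hg.comp Ideal.Quotient.mk_surjective)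

theorem isTest_of_surj (hres : Function.Surjective (algebraMap k (ResidueField R)))
    {Q : Type u} [CommRing Q] [Algebra k Q] [IsLocalRing Q] [Module.Finite k Q]
    {g : (R ⧸ maximalIdeal R ^ n) →ₐ[k] Q} (hg : Function.Surjective g) : IsTest k Q := by
  refine isTest_of fun y => ?_
  obtain ⟨z, rfl⟩ := hg y
  obtain ⟨x, rfl⟩ := Ideal.Quotient.mk_surjective z
  obtain ⟨c, hc⟩ := exists_constant hres x
  refine ⟨c, ?_⟩
  have h1 : g (Ideal.Quotient.mk _ x) - algebraMap k Q c =
      g (Ideal.Quotient.mk _ (x - algebraMap k R c)) := by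
    rw [map_sub, map_sub]
    congr 1
    exact (g.commutes c).symm
  rw [h1]
  exact mk_mem_max g.toRingHom hc

/-- the constant homomorphism -/
theorem exists_trivial (hres : Function.Surjective (algebraMap k (ResidueField R))) (hn : n ≠ 0)
    (Q : Type u) [CommRing Q] [Algebra k Q] :
    ∃ g : (R ⧸ maximalIdeal R ^ n) →ₐ[k] Q,
      ∀ x ∈ maximalIdeal R, g (Ideal.Quotient.mk _ x) = 0 := by
  have hinj : Function.Injective (Algebra.ofId k (ResidueField R)) :=
    (algebraMap k (ResidueField R)).injective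
  let e : k ≃ₐ[k] ResidueField R := AlgEquiv.ofBijective (Algebra.ofId k (ResidueField R))
    ⟨hinj, hres⟩
  let t : R →ₐ[k] ResidueField R := Ideal.Quotient.mkₐ k (maximalIdeal R)
  have ht : ∀ x ∈ maximalIdeal R, t x = 0 := fun x hx => Ideal.Quotient.eq_zero_iff_mem.2 hx
  refine ⟨((Algebra.ofId k Q).comp e.symm.toAlgHom).comp
    (Ideal.Quotient.liftₐ (maximalIdeal R ^ n) t fun x hx => ht x (Ideal.pow_le_self hn hx)), ?_⟩
  intro x hx
  show (Algebra.ofId k Q) (e.symm (t x)) = 0
  rw [ht x hx, map_zero, map_zero]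

end

end Pool.Agent.Lib.MP_74d0c9_nt
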