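import Pool.Agent.Lib.MP_74d0c9_nt.USmall
import Mathlib.LinearAlgebra.Projection

/-! Normal forms of deformations. -/

set_option autoImplicit false

namespace Pool.Agent.Lib.MP_74d0c9_nt

open HahnSeries

universe u

section
variable {k : Type u} [Field k] {f : ℕ}

theorem smul_eq_C (c : k) (X : Mat k) : c • X = (HahnSeries.C c : LaurentSeries k) • X := by
  refine Matrix.ext fun r s => ?_
  rw [Matrix.smul_apply, Matrix.smul_apply, smul_eq_mul, HahnSeries.C_mul_eq_smul]

theorem W_smul_coeff (c : k) (X : ZMod f → Mat k) (j : ZMod f) (r s : Fin 2) (v : ℤ) :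
    ((c • X) j r s).coeff v = c * (X j r s).coeff v := rfl

/-- the coboundary operator over `k` -/
noncomputable def dk (p : ℕ) [Fact p.Prime] (B : ZMod f → Mat k) :
    (ZMod f → Mat k) →ₗ[k] (ZMod f → Mat k) where
  toFun C := fun j => C j * B j - B j * (C (j - 1)).map (phi k p)
  map_add' X Y := by
    funext j
    show (X j + Y j) * B j - B j * (X (j - 1) + Y (j - 1)).map (phi k p) =
      (X j * B j - B j * (X (j - 1)).map (phi k p)) + (Y j * B j - B j * (Y (j - 1)).map (phi k p))
    rw [map_add_phi, Matrix.add_mul, Matrix.mul_add]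
    abel
  map_smul' c X := by
    funext j
    show (c • X j) * B j - B j * (c • X (j - 1)).map (phi k p) =
      c • (X j * B j - B j * (X (j - 1)).map (phi k p))
    have h : (c • X (j - 1)).map (phi k p) = c • (X (j - 1)).map (phi k p) := by
      rw [smul_eq_C, smul_eq_C]
      refine Matrix.ext fun r s => ?_
      show phi k p (HahnSeries.C c * X (j - 1) r s) = HahnSeries.C c * phi k p (X (j - 1) r s)
      rw [map_mul, phi_C]
    rw [h, smul_eq_C, smul_eq_C, smul_eq_C, smul_mul', mul_smul', smul_sub]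

theorem dk_apply (p : ℕ) [Fact p.Prime] (B C : ZMod f → Mat k) (j : ZMod f) :
    dk p B C j = C j * B j - B j * (C (j - 1)).map (phi k p) := rfl

theorem dk_eq_dA (p : ℕ) [Fact p.Prime] (B C : ZMod f → Mat k) : dk p B C = dA p B C := by
  funext j
  show _ = C j * toA k (B j) - toA k (B j) * (C (j - 1)).map (phi k p)
  rw [toA_self]
  rfl

/-- A complement of the coboundaries which contains given vectors, independent modulo the
coboundaries. -/
theorem exists_section (p : ℕ) [Fact p.Prime] (B : ZMod f → Mat k) {ι : Type} [Fintype ι]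
    (D : ι → ZMod f → Mat k)
    (hD : ∀ (r : ι → k) (C : ZMod f → Mat k), ∑ s, r s • D s = dk p B C → r = 0) :
    ∃ (V : Submodule k (ZMod f → Mat k)) (σ : (ZMod f → Mat k) →ₗ[k] (ZMod f → Mat k)),
      (∀ s, D s ∈ V) ∧ (∀ w, w - dk p B (σ w) ∈ V) ∧ ∀ C, dk p B C ∈ V → dk p B C = 0 := by
  have hdis : Disjoint (Submodule.span k (Set.range D)) (LinearMap.range (dk p B)) := by
    rw [Submodule.disjoint_def]
    rintro x hx ⟨C, rfl⟩
    obtain ⟨r, hr⟩ := (Submodule.mem_span_range_iff_exists_fun k).1 hx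
    have h0 := hD r C hr
    rw [← hr, h0]
    simp
  obtain ⟨V, hV, hc⟩ := hdis.exists_isCompl
  obtain ⟨g, hg⟩ := LinearMap.exists_rightInverse_of_surjective (dk p B).rangeRestrict
    (LinearMap.range_rangeRestrict _)
  refine ⟨V, g.comp (Submodule.projectionOnto _ _ hc.symm), fun s => hV
    (Submodule.subset_span ⟨s, rfl⟩), fun w => ?_, fun C hC => ?_⟩
  · have h1 : dk p B (g (Submodule.projectionOnto _ _ hc.symm w)) =
        Submodule.projection _ _ hc.symm w := by
      have h2 := LinearMap.congr_fun hg (Submodule.projectionOnto _ _ hc.symm w)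
      exact congrArg Subtype.val h2
    show w - dk p B (g (Submodule.projectionOnto _ _ hc.symm w)) ∈ V
    rw [h1]
    exact Submodule.sub_projection_mem hc.symm w
  · exact (Submodule.disjoint_def.1 hc.disjoint) _ hC ⟨C, rfl⟩

end

section
variable {k : Type u} [Field k] {f : ℕ} {A : Type u} [CommRing A] [Algebra k A]

/-- all the `k`-linear functionals on `A` map `X` into `V` -/
def InV (V : Submodule k (ZMod f → Mat k)) (X : ZMod f → Mat A) : Prop :=
  ∀ lam : A →ₗ[k] k, LL lam X ∈ V

theorem InV.add {V : Submodule k (ZMod f → Mat k)} {X Y : ZMod f → Mat A} (hX : InV V X)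
    (hY : InV V Y) : InV V (X + Y) := fun lam => by
  rw [LL_add]
  exact V.add_mem (hX lam) (hY lam)

theorem InV.zero {V : Submodule k (ZMod f → Mat k)} : InV V (0 : ZMod f → Mat A) := fun lam => by
  rw [LL_zero]
  exact V.zero_mem

/-- an element of `A` is in a subspace if it is killed by all functionals killing the subspace -/
theorem mem_of_lam {p : Submodule k A} {x : A} (h : ∀ lam : A →ₗ[k] k, (∀ y ∈ p, lam y = 0) →
    lam x = 0) : x ∈ p := by
  by_contra hx
  obtain ⟨lam, h1, h2⟩ := Submodule.exists_le_ker_of_notMem hx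
  exact h1 (h lam fun y hy => h2 hy)

theorem LL_toA (lam : A →ₗ[k] k) (c : A) (w : ZMod f → Mat k) :
    LL lam (fun j => (HahnSeries.C c : LaurentSeries A) • toA A (w j)) = lam c • w := by
  funext j
  refine Matrix.ext fun r s => ?_
  show cm lam (HahnSeries.C c * lmap (algebraMap k A) (w j r s)) = lam c • w j r s
  rw [cm_C_mul, ← HahnSeries.C_mul_eq_smul]
  congr 1

/-- a linear map of the matrices over `k`, extended to `A` -/
noncomputable def extA {ι : Type*} [Fintype ι] (b : Module.Basis ι k A)
    (σ : (ZMod f → Mat k) →ₗ[k] (ZMod f → Mat k)) (X : ZMod f → Mat A) : ZMod f → Mat A :=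
  ∑ i, fun j => (HahnSeries.C (b i) : LaurentSeries A) • toA A (σ (LL (b.coord i) X) j)

theorem LL_extA {ι : Type*} [Fintype ι] (b : Module.Basis ι k A)
    (σ : (ZMod f → Mat k) →ₗ[k] (ZMod f → Mat k)) (X : ZMod f → Mat A) (lam : A →ₗ[k] k) :
    LL lam (extA b σ X) = σ (LL lam X) := by
  unfold extA
  rw [LL_sum]
  have h1 : ∀ i, LL lam (fun j => (HahnSeries.C (b i) : LaurentSeries A) •
      toA A (σ (LL (b.coord i) X) j)) = lam (b i) • σ (LL (b.coord i) X) := fun i =>
    LL_toA lam (b i) (σ (LL (b.coord i) X))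
  rw [Finset.sum_congr rfl fun i _ => h1 i]
  have h2 : LL lam X = ∑ i, lam (b i) • LL (b.coord i) X := by
    refine W_ext fun j r s v => ?_
    have h3 : (((∑ i, lam (b i) • LL (b.coord i) X) : ZMod f → Mat k) j r s).coeff v =
        ∑ i, lam (b i) * b.coord i ((X j r s).coeff v) := by
      rw [Finset.sum_apply, Matrix.sum_apply, coeff_sum']
      rfl
    rw [h3]
    show lam ((X j r s).coeff v) = _
    conv_lhs => rw [← b.sum_repr ((X j r s).coeff v), map_sum]
    refine Finset.sum_congr rfl fun i _ => ?_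
    rw [map_smul, smul_eq_mul, mul_comm]
    rfl
  rw [h2, map_sum]
  refine Finset.sum_congr rfl fun i _ => ?_
  rw [map_smul]

theorem small_extA {ι : Type*} [Fintype ι] (b : Module.Basis ι k A)
    (σ : (ZMod f → Mat k) →ₗ[k] (ZMod f → Mat k)) {X : ZMod f → Mat A} {I : Ideal A}
    (hX : Small I X) : Small I (extA b σ X) := by
  intro j r s v
  refine mem_of_lam (p := I.restrictScalars k) fun lam hlam => ?_
  have h1 : LL lam X = 0 := W_ext fun j r s v => hlam _ (hX j r s v)
  have h2 := LL_extA b σ X lam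
  rw [h1, map_zero] at h2
  have h3 : (LL lam (extA b σ X) j r s).coeff v = 0 := by rw [h2]; rfl
  exact h3

theorem inV_extA {ι : Type*} [Fintype ι] (b : Module.Basis ι k A) {p : ℕ} [Fact p.Prime]
    {B : ZMod f → Mat k} {V : Submodule k (ZMod f → Mat k)}
    {σ : (ZMod f → Mat k) →ₗ[k] (ZMod f → Mat k)} (hσ : ∀ w, w - dk p B (σ w) ∈ V)
    (X : ZMod f → Mat A) : InV V (X - dA p B (extA b σ X)) := by
  intro lam
  rw [LL_sub, LL_dA, LL_extA, ← dk_eq_dA]
  exact hσ _

end

section
variable {k : Type u} [Field k] {f p : ℕ} [Fact p.Prime] {A : Type u} [CommRing A] [Algebra k A]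
  {N : Ideal A} {B : ZMod f → Mat k}

/-- one step of the construction of the normal form -/
theorem nf_step (hN : IsNilpotent N) {r : ℕ} (hr : 1 ≤ r) {F : ZMod f → Mat A}
    (hF : IsDef B N F) {C : ZMod f → Mat A} (hC : Small (N ^ r) C) :
    ∃ F' : ZMod f → Mat A, Eqv p N F F' ∧ Small (N ^ (r + 1)) (F' - F + dA p B C) := by
  have hle : N ^ r ≤ N := Ideal.pow_le_self (by omega)
  have hC' : ∀ j, MSmall N (C j) := fun j => MSmall.mono (hC j) hle
  choose G hG using fun j => exists_gl hN (hC' j)
  have hGs : ∀ j, MSmall (N ^ r) ((G j).1 - 1) := by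
    intro j
    rw [hG, sub_sub_cancel_left]
    exact MSmall.neg (hC j)
  refine ⟨fun j => (G j).1 * F j * ((glphi p (G (j - 1)))⁻¹).1, ⟨G, fun j => (hGs j).mono hle,
    fun j => ?_⟩, fun j => ?_⟩
  · show (G j).1 * F j = (G j).1 * F j * ((glphi p (G (j - 1)))⁻¹).1 * (glphi p (G (j - 1))).1
    rw [Matrix.mul_assoc _ ((glphi p (G (j - 1)))⁻¹).1, ← Units.val_mul, inv_mul_cancel,
      Units.val_one, Matrix.mul_one]
  · set H := ((glphi p (G (j - 1)))⁻¹).1 with hH
    have hHs : MSmall (N ^ r) (H - 1) := msmall_inv (msmall_glphi p (hGs (j - 1)))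
    have e1 : (glphi p (G (j - 1))).1 * H = 1 := by
      rw [hH, ← Units.val_mul, mul_inv_cancel, Units.val_one]
    have e2 : (glphi p (G (j - 1))).1 = 1 - (C (j - 1)).map (phi A p) := by
      rw [glphi_val, hG, map_sub_phi, map_one_phi]
    have hF' : MSmall N (F j - toA A (B j)) := hF j
    have key : (G j).1 * F j * H - F j + (C j * toA A (B j) -
        toA A (B j) * (C (j - 1)).map (phi A p)) =
        (-(C j) * (F j - toA A (B j)) + (F j - toA A (B j)) * (C (j - 1)).map (phi A p)) +
          (-(C j) * F j + F j * (C (j - 1)).map (phi A p)) * (H - 1) := by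
      have h3 : F j = F j * (glphi p (G (j - 1))).1 * H := by
        rw [Matrix.mul_assoc, e1, Matrix.mul_one]
      have h4 : (G j).1 * F j * H - F j = (-(C j) * F j + F j * (C (j - 1)).map (phi A p)) * H := by
        conv_lhs => rw [h3]
        rw [e2, hG]
        have h5 : (F j * (1 - (C (j - 1)).map (phi A p)) * H) = F j := by
          rw [← e2]
          exact h3.symm
        rw [h5]
        have h6 : F j = F j * H - F j * (C (j - 1)).map (phi A p) * H := by
          conv_lhs => rw [← h5]
          rw [Matrix.mul_sub, Matrix.mul_one, Matrix.sub_mul]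
        calc (1 - C j) * F j * H - F j = (1 - C j) * F j * H -
              (F j * H - F j * (C (j - 1)).map (phi A p) * H) := by rw [← h6]
          _ = _ := by noncomm_ring
      rw [h4]
      noncomm_ring
    show MSmall (N ^ (r + 1)) _
    have key' : ((fun j => (G j).1 * F j * ((glphi p (G (j - 1)))⁻¹).1) - F + dA p B C) j =
        (G j).1 * F j * H - F j + (C j * toA A (B j) -
        toA A (B j) * (C (j - 1)).map (phi A p)) := rfl
    rw [key', key]
    have hp1 : N ^ (r + 1) = N ^ r * N := pow_succ N r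
    have h7 : MSmall (N ^ (r + 1)) (-(C j) * (F j - toA A (B j))) := by
      rw [hp1]
      exact (MSmall.neg (hC j)).mul hF'
    have h8 : MSmall (N ^ (r + 1)) ((F j - toA A (B j)) * (C (j - 1)).map (phi A p)) := by
      rw [hp1, mul_comm]
      exact hF'.mul (MSmall.frob p (hC (j - 1)))
    have h9 : MSmall (N ^ (r + 1)) ((-(C j) * F j + F j * (C (j - 1)).map (phi A p)) * (H - 1)) := by
      rw [hp1]
      have h10 : MSmall (N ^ r) (-(C j) * F j + F j * (C (j - 1)).map (phi A p)) :=
        ((MSmall.neg (hC j)).mul_right _).add ((MSmall.frob p (hC (j - 1))).mul_left _)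
      exact h10.mul (hHs.mono hle)
    exact (h7.add h8).add h9

end

end Pool.Agent.Lib.MP_74d0c9_nt
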