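import Pool.Agent.Lib.MP_74d0c9_nt.UNF

/-! Existence and uniqueness of normal forms. -/

set_option autoImplicit false

namespace Pool.Agent.Lib.MP_74d0c9_nt

open HahnSeries

universe u

section
variable {k : Type u} [Field k] {f p : ℕ} [Fact p.Prime] {A : Type u} [CommRing A] [Algebra k A]
  {N : Ideal A} {B : ZMod f → Mat k}

/-- Every deformation has a normal form. -/
theorem nf_exists [Module.Finite k A] (hN : IsNilpotent N) {V : Submodule k (ZMod f → Mat k)}
    {σ : (ZMod f → Mat k) →ₗ[k] (ZMod f → Mat k)} (hσ : ∀ w, w - dk p B (σ w) ∈ V)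
    {F : ZMod f → Mat A} (hF : IsDef B N F) :
    ∃ F' : ZMod f → Mat A, Eqv p N F F' ∧ IsDef B N F' ∧ InV V fun j => F' j - toA A (B j) := by
  have key : ∀ r : ℕ, 1 ≤ r → ∃ F' Y E : ZMod f → Mat A, Eqv p N F F' ∧ IsDef B N F' ∧ InV V Y ∧
      Small (N ^ r) E ∧ ∀ j, F' j - toA A (B j) = Y j + E j := by
    intro r hr
    induction r, hr using Nat.le_induction with
    | base =>
      refine ⟨F, 0, fun j => F j - toA A (B j), Eqv.refl _ _, hF, InV.zero, ?_, fun j => ?_⟩
      · rw [pow_one]
        exact hF
      · exact (zero_add _).symm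
    | succ r hr ih =>
      obtain ⟨F', Y, E, h1, h2, h3, h4, h5⟩ := ih
      have hC : Small (N ^ r) (extA (Module.finBasis k A) σ E) := small_extA _ σ h4
      obtain ⟨F'', h6, h7⟩ := nf_step (p := p) hN hr h2 hC
      refine ⟨F'', Y + (E - dA p B (extA (Module.finBasis k A) σ E)),
        F'' - F' + dA p B (extA (Module.finBasis k A) σ E), h1.trans h6, ?_,
        h3.add (inV_extA (p := p) _ hσ E), h7, fun j => ?_⟩
      · have hle : N ^ r ≤ N := Ideal.pow_le_self (by omega)
        intro j
        have e : F'' j - toA A (B j) = (F'' - F' + dA p B (extA (Module.finBasis k A) σ E)) j +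
            (F' j - toA A (B j)) - dA p B (extA (Module.finBasis k A) σ E) j := by
          show F'' j - toA A (B j) = (F'' j - F' j + dA p B (extA (Module.finBasis k A) σ E) j) +
            (F' j - toA A (B j)) - dA p B (extA (Module.finBasis k A) σ E) j
          abel
        show MSmall N (F'' j - toA A (B j))
        rw [e]
        refine (((MSmall.mono (h7 j) (Ideal.pow_le_self (by omega))).add (h2 j))).sub ?_
        show MSmall N (extA (Module.finBasis k A) σ E j * toA A (B j) -
          toA A (B j) * (extA (Module.finBasis k A) σ E (j - 1)).map (phi A p))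
        exact ((MSmall.mono (hC j) hle).mul_right _).sub
          ((MSmall.frob p (MSmall.mono (hC (j - 1)) hle)).mul_left _)
      · show F'' j - toA A (B j) = Y j + (E j - dA p B (extA (Module.finBasis k A) σ E) j) +
          (F'' j - F' j + dA p B (extA (Module.finBasis k A) σ E) j)
        have e : F'' j - toA A (B j) = (F' j - toA A (B j)) + (F'' j - F' j) := by abel
        rw [e, h5 j]
        abel
  obtain ⟨n, hn⟩ := hN
  obtain ⟨F', Y, E, h1, h2, h3, h4, h5⟩ := key (n + 1) (by omega)
  refine ⟨F', h1, h2, ?_⟩
  have hn1 : N ^ (n + 1) = ⊥ := by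
    rw [pow_succ, hn]
    exact Ideal.bot_mul N
  have h6 : (fun j => F' j - toA A (B j)) = Y := by
    funext j
    have h7 : E j = 0 := by
      have h8 : MSmall (N ^ (n + 1)) (E j) := h4 j
      rw [hn1] at h8
      exact h8.bot
    rw [h5 j, h7, add_zero]
  rw [h6]
  exact h3

theorem C_smul_one_coeff (g : A) (r s : Fin 2) (v : ℤ) :
    (((HahnSeries.C g : LaurentSeries A) • (1 : Mat A)) r s).coeff v =
      if r = s ∧ v = 0 then g else 0 := by
  rw [Matrix.smul_apply, smul_eq_mul, Matrix.one_apply]
  by_cases h1 : r = s
  · rw [if_pos h1, mul_one, HahnSeries.C_apply]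
    by_cases h2 : v = 0
    · rw [if_pos ⟨h1, h2⟩, h2, coeff_single_same]
    · rw [if_neg (fun h => h2 h.2), coeff_single_of_ne h2]
  · rw [if_neg h1, mul_zero, if_neg (fun h => h1 h.1), coeff_zero]

/-- Normal forms are unique. -/
theorem nf_unique (hN : IsNilpotent N) {V : Submodule k (ZMod f → Mat k)}
    (hV : ∀ C, dk p B C ∈ V → dk p B C = 0)
    (H0 : ∀ C : ZMod f → Mat k, dk p B C = 0 →
      ∃ c : k, ∀ j, C j = (HahnSeries.C c : LaurentSeries k) • (1 : Mat k))
    {F F' : ZMod f → Mat A} (hF : IsDef B N F) (hF' : IsDef B N F')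
    (hv : InV V fun j => F j - toA A (B j)) (hv' : InV V fun j => F' j - toA A (B j))
    (h : Eqv p N F F') : F = F' := by
  obtain ⟨G, hG1, hG2⟩ := h
  have key : ∀ r : ℕ, 1 ≤ r → Small (N ^ r) (F - F') ∧ ∃ g : A, g - 1 ∈ N ∧
      Small (N ^ r) fun j => (G j).1 - (HahnSeries.C g : LaurentSeries A) • (1 : Mat A) := by
    intro r hr
    induction r, hr using Nat.le_induction with
    | base =>
      rw [pow_one]
      refine ⟨fun j => ?_, 1, by rw [sub_self]; exact N.zero_mem, fun j => ?_⟩
      · have e : (F - F') j = (F j - toA A (B j)) - (F' j - toA A (B j)) := by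
          show F j - F' j = _
          abel
        show MSmall N ((F - F') j)
        rw [e]
        exact MSmall.sub (hF j) (hF' j)
      · show MSmall N ((G j).1 - (HahnSeries.C (1 : A) : LaurentSeries A) • (1 : Mat A))
        rw [map_one, one_smul]
        exact hG1 j
    | succ r hr ih =>
      obtain ⟨h1, g, h2, h3⟩ := ih
      have hle : N ^ r ≤ N := Ideal.pow_le_self (by omega)
      have hp1 : N ^ (r + 1) = N ^ r * N := pow_succ N r
      obtain ⟨E, hE⟩ : ∃ E : ZMod f → Mat A,
        E = fun j => (G j).1 - (HahnSeries.C g : LaurentSeries A) • (1 : Mat A) := ⟨_, rfl⟩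
      have hEs : ∀ j, MSmall (N ^ r) (E j) := by
        intro j
        rw [hE]
        exact h3 j
      have hGE : ∀ j, (G j).1 = (HahnSeries.C g : LaurentSeries A) • (1 : Mat A) + E j := by
        intro j
        rw [hE]
        show (G j).1 = _ + ((G j).1 - _)
        abel
      have hsm : Small (N ^ (r + 1)) (F - F' + dA p B E) := by
        intro j
        have e1 : (G j).1 * F j = F' j * (G (j - 1)).1.map (phi A p) := hG2 j
        have e2 : (G (j - 1)).1.map (phi A p) =
            (HahnSeries.C g : LaurentSeries A) • (1 : Mat A) + (E (j - 1)).map (phi A p) := by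
          rw [hGE, map_add_phi]
          congr 1
          refine Matrix.ext fun r s => ?_
          show phi A p (HahnSeries.C g * (1 : Mat A) r s) = HahnSeries.C g * (1 : Mat A) r s
          rw [map_mul, phi_C, Matrix.one_apply]
          split_ifs
          · rw [map_one]
          · rw [map_zero]
        rw [e2, hGE, Matrix.add_mul, Matrix.mul_add, smul_mul', mul_smul', Matrix.one_mul,
          Matrix.mul_one] at e1
        have e3 : (F - F' + dA p B E) j =
            -((HahnSeries.C (g - 1) : LaurentSeries A) • (F j - F' j)) -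
              E j * (F j - toA A (B j)) +
              (F' j - toA A (B j)) * (E (j - 1)).map (phi A p) := by
          show F j - F' j + (E j * toA A (B j) - toA A (B j) * (E (j - 1)).map (phi A p)) = _
          rw [map_sub, map_one, sub_smul, one_smul, smul_sub, Matrix.mul_sub, Matrix.sub_mul]
          have e4 : (HahnSeries.C g : LaurentSeries A) • F j =
              (HahnSeries.C g : LaurentSeries A) • F' j + F' j * (E (j - 1)).map (phi A p) -
                E j * F j := by
            rw [← e1]
            abel
          rw [e4]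
          abel
        show MSmall (N ^ (r + 1)) _
        rw [e3]
        have e5 : MSmall (N ^ (r + 1))
            ((HahnSeries.C (g - 1) : LaurentSeries A) • (F j - F' j)) := by
          rw [hp1, mul_comm]
          exact MSmall.smul (h1 j) h2
        have e6 : MSmall (N ^ (r + 1)) (E j * (F j - toA A (B j))) := by
          rw [hp1]
          exact (hEs j).mul (hF j)
        have e7 : MSmall (N ^ (r + 1)) ((F' j - toA A (B j)) * (E (j - 1)).map (phi A p)) := by
          rw [hp1, mul_comm]
          exact MSmall.mul (hF' j) ((hEs (j - 1)).frob p)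
        exact (e5.neg.sub e6).add e7
      have hlam : ∀ lam : A →ₗ[k] k, (∀ y ∈ (N ^ (r + 1)).restrictScalars k, lam y = 0) →
          LL lam (F - F') = 0 ∧ ∃ c : k, ∀ j, LL lam E j =
            (HahnSeries.C c : LaurentSeries k) • (1 : Mat k) := by
        intro lam hl
        have h4 : LL lam (F - F' + dA p B E) = 0 := W_ext fun j r s v => hl _ (hsm j r s v)
        rw [LL_add, LL_dA, ← dk_eq_dA] at h4
        have h5 : LL lam (F - F') ∈ V := by
          have e : F - F' = (fun j => F j - toA A (B j)) - fun j => F' j - toA A (B j) := by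
            funext j
            show F j - F' j = (F j - toA A (B j)) - (F' j - toA A (B j))
            abel
          rw [e, LL_sub]
          exact V.sub_mem (hv lam) (hv' lam)
        have h6 : dk p B (LL lam E) = -LL lam (F - F') := by
          rw [eq_neg_iff_add_eq_zero, add_comm]
          exact h4
        have h7 : dk p B (LL lam E) = 0 := by
          apply hV
          rw [h6]
          exact V.neg_mem h5
        refine ⟨?_, H0 _ h7⟩
        rw [h7, eq_comm, neg_eq_zero] at h6
        exact h6
      refine ⟨fun j r' s v => ?_, g + (E 0 0 0).coeff 0, ?_, fun j r' s v => ?_⟩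
      · refine mem_of_lam (p := (N ^ (r + 1)).restrictScalars k) fun lam hl => ?_
        have h4 : (LL lam (F - F') j r' s).coeff v = 0 := by rw [(hlam lam hl).1]; rfl
        exact h4
      · have e : g + (E 0 0 0).coeff 0 - 1 = (g - 1) + (E 0 0 0).coeff 0 := by ring
        rw [e]
        exact N.add_mem h2 (hle (hEs 0 0 0 0))
      · refine mem_of_lam (p := (N ^ (r + 1)).restrictScalars k) fun lam hl => ?_
        obtain ⟨-, c, hc⟩ := hlam lam hl
        have h4 : ∀ j r s v, lam ((E j r s).coeff v) = if r = s ∧ v = 0 then c else 0 := by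
          intro j r s v
          rw [← C_smul_one_coeff c r s v, ← hc j]
          rfl
        have h5 : (((G j).1 - (HahnSeries.C (g + (E 0 0 0).coeff 0) : LaurentSeries A) •
            (1 : Mat A)) r' s).coeff v = (E j r' s).coeff v -
              if r' = s ∧ v = 0 then (E 0 0 0).coeff 0 else 0 := by
          rw [hGE, map_add, add_smul, add_sub_add_left_eq_sub, Matrix.sub_apply, coeff_sub,
            C_smul_one_coeff]
        rw [h5, map_sub, h4]
        split_ifs with h6
        · rw [h4, if_pos ⟨rfl, rfl⟩, sub_self]
        · rw [map_zero, sub_zero]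
  obtain ⟨n, hn⟩ := hN
  have hn1 : N ^ (n + 1) = ⊥ := by
    rw [pow_succ, hn]
    exact Ideal.bot_mul N
  have h1 := (key (n + 1) (by omega)).1
  rw [hn1] at h1
  funext j
  have h2 : MSmall (⊥ : Ideal A) (F j - F' j) := h1 j
  exact sub_eq_zero.1 h2.bot

end

end Pool.Agent.Lib.MP_74d0c9_nt
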