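import Pool.Agent.Lib.MP_74d0c9_nt.UDefs
import Pool.Agent.Lib.MP_74d0c9_nt.Basis
import Pool.Agent.Lib.MP_74d0c9_nt.KisFam
import Pool.Agent.Lib.MP_74d0c9_nt.EndB

/-! The Kisin family, its directions, and the endomorphisms of the residual module. -/

set_option autoImplicit false

namespace Pool.Agent.Lib.MP_74d0c9_nt

open HahnSeries

universe u

section
variable {k : Type u} [Field k] {p f m : ℕ} [Fact p.Prime] [NeZero f] {a : ZMod f → ℕ}

omit [Fact p.Prime] [NeZero f] in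
theorem Du_eq (i : ZMod f) (s : Ix m f) (j : ZMod f) :
    Du k p m f a i s j = Ex k p m f a i s j := by
  match s with
  | Sum.inl _ => rfl
  | Sum.inr (Sum.inl _) => rfl
  | Sum.inr (Sum.inr _) => rfl

theorem fu_fromKisin (hm : 2 ≤ m) (hmf : m < f) (i : ZMod f) (h1 : a i = 1)
    (h2 : ∀ s : ℕ, 0 < s → s < m - 1 → a (i + s) = p - 1) (h3 : a (i + (m - 1 : ℕ)) = p)
    {A : Type u} [CommRing A] [Algebra k A] (l s : A) (hs : IsUnit (1 + s)) (w : Fin (m - 1) → A)
    (x : Fin (f - m) → A) : FromKisin p a (Fu k p m f a i (cu l s w x)) := by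
  obtain ⟨w', hw'⟩ : ∃ w' : ℕ → A, w' = fun t => if h : t < m - 1 then w ⟨t, h⟩ else 0 := ⟨_, rfl⟩
  obtain ⟨x', hx'⟩ : ∃ x' : ℕ → A, x' = fun t => if h : m ≤ t ∧ t < f then x ⟨t - m, by omega⟩
    else 0 := ⟨_, rfl⟩
  have hc : ∀ y : Ix m f, cx l s w' x' y = cu l s w x y := by
    intro y
    match y with
    | Sum.inl _ => rfl
    | Sum.inr (Sum.inl y) =>
      show (if (y.1 : ℕ) = 0 then 1 + s else 1) * w' y.1 * l ^ (y.2 : ℕ) =
        (if (y.1 : ℕ) = 0 then 1 + s else 1) * w y.1 * l ^ (y.2 : ℕ)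
      rw [hw']
      dsimp only
      rw [dif_pos y.1.2]
    | Sum.inr (Sum.inr y) =>
      show x' (m + y) = x y
      have hy := y.2
      rw [hx']
      dsimp only
      rw [dif_pos ⟨by omega, by omega⟩]
      congr 1
      ext
      show m + (y : ℕ) - m = y
      omega
  refine ⟨MF m i l s hs w' x', fun j => Tn m l (j - i).val, ?_⟩
  have h4 := isHom_Fm (a := a) hm hmf i h1 h2 h3 l s hs w' x'
  have h5 : (fun j => Fm p m f (a j) l s w' x' (j - i).val) =
      Fu k p m f a i (cu l s w x) := by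
    funext j
    rw [Fm_eq (algebraMap k A) hm hmf i l s w' x' j]
    show _ = (Bn p m f (a j) (j - i).val : Mat k).map (lmap (algebraMap k A)) + _
    congr 1
    refine Finset.sum_congr rfl fun y _ => ?_
    rw [hc y, Du_eq]
    rfl
  rw [← h5]
  exact h4

theorem kernel_B (hp : 5 ≤ p) (ha : ∀ i, 1 ≤ a i ∧ a i ≤ p) (hm : 2 ≤ m) (hmf : m < f) (i : ZMod f)
    (C : ZMod f → Mat k)
    (h : ∀ j, C j * Bn p m f (a j) (j - i).val =
      Bn p m f (a j) (j - i).val * (C (j - 1)).map (phi k p)) :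
    ∃ c : k, ∀ j, C j = (HahnSeries.C c : LaurentSeries k) • (1 : Mat k) := by
  have := hp
  exact end_Bn hm hmf ha i C h

theorem indep_Du (hm : 2 ≤ m) (hmf : m < f) (ha : ∀ i, 1 ≤ a i ∧ a i ≤ p) (h2 : (2 : k) ≠ 0)
    (i : ZMod f) (r : Ix m f → k) (C : ZMod f → Mat k)
    (h : ∀ j, ∑ s, (HahnSeries.C (r s) : LaurentSeries k) • Du k p m f a i s j =
      C j * Bn p m f (a j) (j - i).val -
        Bn p m f (a j) (j - i).val * (C (j - 1)).map (phi k p)) : r = 0 := by
  refine indep_Ex hm hmf ha h2 i r C fun j => ?_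
  rw [← h j]
  exact Finset.sum_congr rfl fun s _ => by rw [Du_eq]

end

end Pool.Agent.Lib.MP_74d0c9_nt
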