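import Pool.Agent.Lib.MP_74d0c9_nt.UFun

/-! Matrices with all coefficients in an ideal. -/

set_option autoImplicit false

namespace Pool.Agent.Lib.MP_74d0c9_nt

open HahnSeries

universe u

section
variable {A : Type u} [CommRing A] {I J : Ideal A}

/-- all coefficients of all entries are in the ideal `I` -/
def MSmall (I : Ideal A) (X : Mat A) : Prop := ∀ (r s : Fin 2) (v : ℤ), (X r s).coeff v ∈ I

theorem MSmall.mono {X : Mat A} (h : MSmall I X) (hIJ : I ≤ J) : MSmall J X :=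
  fun r s v => hIJ (h r s v)

theorem MSmall.zero : MSmall I (0 : Mat A) := fun _ _ _ => I.zero_mem

theorem MSmall.add {X Y : Mat A} (hX : MSmall I X) (hY : MSmall I Y) : MSmall I (X + Y) := by
  intro r s v
  rw [Matrix.add_apply, coeff_add]
  exact I.add_mem (hX r s v) (hY r s v)

theorem MSmall.sub {X Y : Mat A} (hX : MSmall I X) (hY : MSmall I Y) : MSmall I (X - Y) := by
  intro r s v
  rw [Matrix.sub_apply, coeff_sub]
  exact I.sub_mem (hX r s v) (hY r s v)

theorem MSmall.neg {X : Mat A} (hX : MSmall I X) : MSmall I (-X) := by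
  intro r s v
  rw [Matrix.neg_apply, coeff_neg]
  exact I.neg_mem (hX r s v)

theorem coeff_mul_mem_mul {x y : LaurentSeries A} (hx : ∀ v, x.coeff v ∈ I)
    (hy : ∀ v, y.coeff v ∈ J) (v : ℤ) : (x * y).coeff v ∈ I * J := by
  rw [coeff_mul]
  exact Ideal.sum_mem _ fun ij _ => Ideal.mul_mem_mul (hx _) (hy _)

theorem MSmall.mul {X Y : Mat A} (hX : MSmall I X) (hY : MSmall J Y) : MSmall (I * J) (X * Y) := by
  intro r s v
  rw [Matrix.mul_apply, Fin.sum_univ_two, coeff_add]
  exact Ideal.add_mem _ (coeff_mul_mem_mul (hX r 0) (hY 0 s) v)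
    (coeff_mul_mem_mul (hX r 1) (hY 1 s) v)

theorem MSmall.top (X : Mat A) : MSmall ⊤ X := fun _ _ _ => Submodule.mem_top

theorem MSmall.mul_left {X : Mat A} (hX : MSmall I X) (Y : Mat A) : MSmall I (Y * X) := by
  have h := (MSmall.top Y).mul hX
  rwa [Ideal.top_mul] at h

theorem MSmall.mul_right {X : Mat A} (hX : MSmall I X) (Y : Mat A) : MSmall I (X * Y) := by
  have h := hX.mul (MSmall.top Y)
  rwa [Ideal.mul_top] at h

theorem MSmall.smul {X : Mat A} (hX : MSmall I X) {c : A} (hc : c ∈ J) :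
    MSmall (J * I) ((HahnSeries.C c : LaurentSeries A) • X) := by
  intro r s v
  rw [Matrix.smul_apply, smul_eq_mul]
  refine coeff_mul_mem_mul (fun v => ?_) (hX r s) v
  rw [HahnSeries.C_apply]
  by_cases h : v = 0
  · rw [h, coeff_single_same]; exact hc
  · rw [coeff_single_of_ne h]; exact J.zero_mem

theorem MSmall.frob (p : ℕ) [Fact p.Prime] {X : Mat A} (hX : MSmall I X) :
    MSmall I (X.map (phi A p)) := by
  intro r s v
  show (phi A p (X r s)).coeff v ∈ I
  by_cases hd : (p : ℤ) ∣ v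
  · obtain ⟨n, rfl⟩ := hd
    rw [phi_coeff]
    exact hX r s n
  · rw [phi_coeff_zero p _ hd]
    exact I.zero_mem

theorem MSmall.bot {X : Mat A} (hX : MSmall (⊥ : Ideal A) X) : X = 0 := by
  refine Matrix.ext fun r s => ?_
  ext v
  exact hX r s v

theorem MSmall.map {A' : Type u} [CommRing A'] (π : A →+* A') {X : Mat A} (hX : MSmall I X) :
    MSmall (I.map π) (X.map (lmap π)) := fun r s v => Ideal.mem_map_of_mem π (hX r s v)

theorem MSmall.map' {A' : Type u} [CommRing A'] (π : A →+* A') {I' : Ideal A'} {X : Mat A}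
    (hX : MSmall I X) (h : ∀ x ∈ I, π x ∈ I') :
    MSmall I' (X.map (lmap π)) := fun r s v => h _ (hX r s v)

theorem MSmall.pow {X : Mat A} (hX : MSmall I X) (n : ℕ) : MSmall (I ^ n) (X ^ n) := by
  induction n with
  | zero =>
    rw [pow_zero, Ideal.one_eq_top]
    exact MSmall.top _
  | succ n ih =>
    rw [pow_succ, pow_succ]
    exact ih.mul hX

theorem MSmall.isNilpotent (hI : IsNilpotent I) {X : Mat A} (hX : MSmall I X) : IsNilpotent X := by
  obtain ⟨n, hn⟩ := hI
  refine ⟨n, ?_⟩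
  have h := hX.pow n
  rw [hn] at h
  exact MSmall.bot h

/-- `1 - C` as an invertible matrix -/
theorem exists_gl (hI : IsNilpotent I) {X : Mat A} (hX : MSmall I X) :
    ∃ G : GL (Fin 2) (LaurentSeries A), G.1 = 1 - X :=
  ⟨((hX.isNilpotent hI).isUnit_one_sub).unit, rfl⟩

theorem msmall_inv {G : GL (Fin 2) (LaurentSeries A)} (hG : MSmall I (G.1 - 1)) :
    MSmall I ((G⁻¹).1 - 1) := by
  have h : (G⁻¹).1 - 1 = -((G⁻¹).1 * (G.1 - 1)) := by
    have h1 : (G⁻¹).1 * G.1 = 1 := by rw [← Units.val_mul, inv_mul_cancel, Units.val_one]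
    rw [Matrix.mul_sub, h1, Matrix.mul_one, neg_sub]
  rw [h]
  exact (hG.mul_left _).neg

theorem msmall_mul {G H : GL (Fin 2) (LaurentSeries A)} (hG : MSmall I (G.1 - 1))
    (hH : MSmall I (H.1 - 1)) : MSmall I ((G * H).1 - 1) := by
  have h : (G * H).1 - 1 = G.1 * (H.1 - 1) + (G.1 - 1) := by
    rw [Units.val_mul, Matrix.mul_sub, Matrix.mul_one]
    abel
  rw [h]
  exact (hH.mul_left _).add hG

/-- the Frobenius on invertible matrices -/
noncomputable def glphi (p : ℕ) [Fact p.Prime] (G : GL (Fin 2) (LaurentSeries A)) :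
    GL (Fin 2) (LaurentSeries A) :=
  Matrix.GeneralLinearGroup.map (phi A p) G

theorem glphi_val (p : ℕ) [Fact p.Prime] (G : GL (Fin 2) (LaurentSeries A)) :
    (glphi p G).1 = G.1.map (phi A p) := rfl

theorem map_one_phi (p : ℕ) [Fact p.Prime] : (1 : Mat A).map (phi A p) = 1 :=
  Matrix.map_one _ (map_zero _) (map_one _)

theorem map_sub_phi (p : ℕ) [Fact p.Prime] (X Y : Mat A) :
    (X - Y).map (phi A p) = X.map (phi A p) - Y.map (phi A p) :=
  Matrix.ext fun r s => map_sub (phi A p) (X r s) (Y r s)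

theorem map_add_phi (p : ℕ) [Fact p.Prime] (X Y : Mat A) :
    (X + Y).map (phi A p) = X.map (phi A p) + Y.map (phi A p) :=
  Matrix.ext fun r s => map_add (phi A p) (X r s) (Y r s)

theorem msmall_glphi (p : ℕ) [Fact p.Prime] {G : GL (Fin 2) (LaurentSeries A)}
    (hG : MSmall I (G.1 - 1)) : MSmall I ((glphi p G).1 - 1) := by
  have h := hG.frob p
  rwa [map_sub_phi, map_one_phi] at h

/-! ### equivalence -/

variable {f p : ℕ} [Fact p.Prime] {F F' F'' : ZMod f → Mat A}

theorem Eqv.refl (I : Ideal A) (F : ZMod f → Mat A) : Eqv p I F F := by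
  refine ⟨fun _ => 1, fun j => ?_, fun j => ?_⟩
  · show MSmall I (1 - 1)
    rw [sub_self]
    exact MSmall.zero
  · show 1 * F j = F j * (1 : Mat A).map (phi A p)
    rw [map_one_phi, Matrix.one_mul, Matrix.mul_one]

theorem Eqv.symm (h : Eqv p I F F') : Eqv p I F' F := by
  obtain ⟨G, h1, h2⟩ := h
  refine ⟨fun j => (G j)⁻¹, fun j => msmall_inv (h1 j), fun j => ?_⟩
  have h3 : (G j).1 * F j = F' j * (glphi p (G (j - 1))).1 := h2 j
  have h4 : ((G (j - 1))⁻¹).1.map (phi A p) = ((glphi p (G (j - 1)))⁻¹).1 := by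
    have : glphi p ((G (j - 1))⁻¹) = (glphi p (G (j - 1)))⁻¹ := map_inv _ _
    rw [← this]
    rfl
  show ((G j)⁻¹).1 * F' j = F j * ((G (j - 1))⁻¹).1.map (phi A p)
  rw [h4]
  have e1 : ((G j)⁻¹).1 * (G j).1 = 1 := by rw [← Units.val_mul, inv_mul_cancel, Units.val_one]
  have e2 : (glphi p (G (j - 1))).1 * ((glphi p (G (j - 1)))⁻¹).1 = 1 := by
    rw [← Units.val_mul, mul_inv_cancel, Units.val_one]
  calc ((G j)⁻¹).1 * F' j = ((G j)⁻¹).1 * (F' j * (glphi p (G (j - 1))).1) *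
        ((glphi p (G (j - 1)))⁻¹).1 := by
        simp only [Matrix.mul_assoc]
        rw [e2, Matrix.mul_one]
    _ = ((G j)⁻¹).1 * ((G j).1 * F j) * ((glphi p (G (j - 1)))⁻¹).1 := by rw [h3]
    _ = F j * ((glphi p (G (j - 1)))⁻¹).1 := by
        rw [← Matrix.mul_assoc, e1, Matrix.one_mul]

theorem Eqv.trans (h : Eqv p I F F') (h' : Eqv p I F' F'') : Eqv p I F F'' := by
  obtain ⟨G, h1, h2⟩ := h
  obtain ⟨H, h3, h4⟩ := h'
  refine ⟨fun j => H j * G j, fun j => msmall_mul (h3 j) (h1 j), fun j => ?_⟩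
  have e1 : (G j).1 * F j = F' j * (G (j - 1)).1.map (phi A p) := h2 j
  have e2 : (H j).1 * F' j = F'' j * (H (j - 1)).1.map (phi A p) := h4 j
  show (H j * G j).1 * F j = F'' j * (H (j - 1) * G (j - 1)).1.map (phi A p)
  rw [Units.val_mul, Units.val_mul, Matrix.map_mul, Matrix.mul_assoc, e1, ← Matrix.mul_assoc, e2,
    Matrix.mul_assoc]

theorem Eqv.map {A' : Type u} [CommRing A'] (π : A →+* A') {I' : Ideal A'}
    (hI : ∀ x ∈ I, π x ∈ I') (h : Eqv p I F F') :
    Eqv p I' (fun j => (F j).map (lmap π)) (fun j => (F' j).map (lmap π)) := by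
  obtain ⟨G, h1, h2⟩ := h
  refine ⟨fun j => Matrix.GeneralLinearGroup.map (lmap π) (G j), fun j => ?_, fun j => ?_⟩
  · have h3 : MSmall I' (((G j).1 - 1).map (lmap π)) := MSmall.map' π (h1 j) hI
    have h4 : ((G j).1 - 1).map (lmap π) = (G j).1.map (lmap π) - 1 := by
      have e : ((G j).1 - 1).map (lmap π) = (G j).1.map (lmap π) - (1 : Mat A).map (lmap π) :=
        Matrix.ext fun r s => map_sub (lmap π) ((G j).1 r s) ((1 : Mat A) r s)
      rw [e, map_one_mat]
    rw [h4] at h3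
    exact h3
  · have e1 : (G j).1 * F j = F' j * (G (j - 1)).1.map (phi A p) := h2 j
    show (G j).1.map (lmap π) * (F j).map (lmap π) =
      (F' j).map (lmap π) * ((G (j - 1)).1.map (lmap π)).map (phi A' p)
    have e2 : ((G (j - 1)).1.map (lmap π)).map (phi A' p) =
        ((G (j - 1)).1.map (phi A p)).map (lmap π) :=
      Matrix.ext fun r s => (lmap_phi p π ((G (j - 1)).1 r s)).symm
    rw [e2, ← Matrix.map_mul, e1, Matrix.map_mul]

end

end Pool.Agent.Lib.MP_74d0c9_nt
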