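import Pool.Agent.Lib.MP_74d0c9_nt.Pole

/-! Pole orders of a morphism between two Kisin modules of the same shape. -/

set_option autoImplicit false

namespace Pool.Agent.Lib.MP_74d0c9_nt

open HahnSeries

universe u

variable {A : Type u} [CommRing A] {p f : ℕ} [Fact p.Prime] [NeZero f] {a : ZMod f → ℕ}
  {M N : KisinModule f A} {G : ZMod f → Mat A}

/-- the constant matrix `Z_{i+1} X_i(0)` -/
noncomputable def KisinModule.Y (M : KisinModule f A) (i : ZMod f) : Matrix (Fin 2) (Fin 2) A :=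
  (M.Z (i + 1)).1 * (M.X i).1.map PowerSeries.constantCoeff

/-- `X'^{-1} G X` -/
noncomputable def Hm (M N : KisinModule f A) (G : ZMod f → Mat A) (i : ZMod f) : Mat A :=
  gx (N.X i)⁻¹ * G i * gx (M.X i)

/-- `Z' G Z^{-1}` -/
noncomputable def Km (M N : KisinModule f A) (G : ZMod f → Mat A) (i : ZMod f) : Mat A :=
  gz (N.Z i) * G (i - 1) * gz (M.Z i)⁻¹

theorem rel (h : IsHom p (M.frob a) (N.frob a) G) (i : ZMod f) :
    Rel p (a i) (Hm M N G i) (Km M N G i) := by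
  apply Rel.of_eq
  have h1 := h i
  have hF : M.frob a i = gx (M.X i) * du (a i) * gz (M.Z i) := rfl
  have hF' : N.frob a i = gx (N.X i) * du (a i) * gz (N.Z i) := rfl
  rw [hF, hF'] at h1
  have e1 : gz (M.Z i) * gz (M.Z i)⁻¹ = 1 := by rw [← gz_mul, mul_inv_cancel, gz_one]
  have e2 : gx (N.X i)⁻¹ * gx (N.X i) = 1 := by rw [← gx_mul, inv_mul_cancel, gx_one]
  have h2 : (Km M N G i).map (phi A p) =
      gz (N.Z i) * (G (i - 1)).map (phi A p) * gz (M.Z i)⁻¹ := by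
    unfold Km
    rw [Matrix.map_mul, Matrix.map_mul, phi_gz, phi_gz]
  rw [h2]
  unfold Hm
  calc gx (N.X i)⁻¹ * G i * gx (M.X i) * du (a i)
      = gx (N.X i)⁻¹ * (G i * (gx (M.X i) * du (a i) * gz (M.Z i))) * gz (M.Z i)⁻¹ := by
        simp only [Matrix.mul_assoc]
        rw [e1, Matrix.mul_one]
    _ = gx (N.X i)⁻¹ * (gx (N.X i) * du (a i) * gz (N.Z i) * (G (i - 1)).map (phi A p)) *
          gz (M.Z i)⁻¹ := by rw [h1]
    _ = (gx (N.X i)⁻¹ * gx (N.X i)) *
          (du (a i) * (gz (N.Z i) * (G (i - 1)).map (phi A p) * gz (M.Z i)⁻¹)) := by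
        simp only [Matrix.mul_assoc]
    _ = du (a i) * (gz (N.Z i) * (G (i - 1)).map (phi A p) * gz (M.Z i)⁻¹) := by
        rw [e2, Matrix.one_mul]

theorem pole_Hm (i : ZMod f) : pole (Hm M N G i) = pole (G i) := by
  apply pole_congr
  intro m
  unfold Hm
  exact MGE_conj (gx_MGE _) (gx_MGE (N.X i)) (gx_MGE _) (gx_MGE (M.X i)⁻¹)
    (by rw [← gx_mul, mul_inv_cancel, gx_one]) (by rw [← gx_mul, mul_inv_cancel, gx_one]) m

theorem pole_Km (i : ZMod f) : pole (Km M N G i) = pole (G (i - 1)) := by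
  apply pole_congr
  intro m
  unfold Km
  exact MGE_conj (gz_MGE _) (gz_MGE (N.Z i)⁻¹) (gz_MGE _) (gz_MGE (M.Z i))
    (by rw [← gz_mul, inv_mul_cancel, gz_one]) (by rw [← gz_mul, inv_mul_cancel, gz_one]) m

/-- the pole orders are at most one -/
theorem pole_le_one (h : IsHom p (M.frob a) (N.frob a) G) (hp : 5 ≤ p)
    (ha : ∀ i, 1 ≤ a i ∧ a i ≤ p) (i : ZMod f) : pole (G i) ≤ 1 := by
  by_contra hc
  have hi : 2 ≤ pole (G i) := by omega
  have key : ∀ n : ℕ, pole (G i) + n ≤ pole (G (i + n)) := by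
    intro n
    induction n with
    | zero => simp
    | succ n ih =>
      have hr := rel h (i + (n + 1 : ℕ))
      have e : i + ((n + 1 : ℕ) : ZMod f) - 1 = i + n := by push_cast; ring
      have hk := pole_Km (M := M) (N := N) (G := G) (i + (n + 1 : ℕ))
      rw [e] at hk
      have := hr.grow hp (ha _).1 (ha _).2 (by rw [hk]; omega)
      rw [hk, pole_Hm] at this
      omega
  have := key f
  rw [ZMod.natCast_self, add_zero] at this
  have hf : f ≠ 0 := NeZero.ne f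
  omega

theorem step_one_one (h : IsHom p (M.frob a) (N.frob a) G) (hp : 5 ≤ p)
    (ha : ∀ i, 1 ≤ a i ∧ a i ≤ p) {i : ZMod f} (h0 : pole (G (i - 1)) = 1)
    (h1 : pole (G i) = 1) : a i = p - 1 := by
  have := (rel h i).one hp (ha i).2 (by rw [pole_Km]; exact h0) (by rw [pole_Hm]; omega)
  rcases this.2.2.2.2 with h2 | h2
  · exact h2.2.1
  · rw [pole_Hm] at h2; omega

theorem step_one_zero (h : IsHom p (M.frob a) (N.frob a) G) (hp : 5 ≤ p)
    (ha : ∀ i, 1 ≤ a i ∧ a i ≤ p) {i : ZMod f} (h0 : pole (G (i - 1)) = 1)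
    (h1 : pole (G i) = 0) : a i = p := by
  have := (rel h i).one hp (ha i).2 (by rw [pole_Km]; exact h0) (by rw [pole_Hm]; omega)
  rcases this.2.2.2.2 with h2 | h2
  · rw [pole_Hm] at h2; omega
  · exact h2.2

theorem step_zero_one (h : IsHom p (M.frob a) (N.frob a) G)
    (ha : ∀ i, 1 ≤ a i ∧ a i ≤ p) {i : ZMod f} (h0 : pole (G (i - 1)) = 0)
    (h1 : pole (G i) = 1) : a i = 1 :=
  ((rel h i).new (ha i).1 (ha i).2 (by rw [pole_Km]; exact h0) (by rw [pole_Hm]; exact h1)).1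


/-- the relation between the leading coefficients at the component `i` -/
theorem lead_rel (i : ZMod f) (h1 : pole (G i) = 1) :
    lead (Km M N G (i + 1)) (-1) * M.Y i = N.Y i * lead (Hm M N G i) (-1) := by
  have e1 : gz (M.Z (i + 1))⁻¹ * gz (M.Z (i + 1)) = 1 := by rw [← gz_mul, inv_mul_cancel, gz_one]
  have e2 : gx (N.X i) * gx (N.X i)⁻¹ = 1 := by rw [← gx_mul, mul_inv_cancel, gx_one]
  have key : Km M N G (i + 1) * (gz (M.Z (i + 1)) * gx (M.X i)) =
      (gz (N.Z (i + 1)) * gx (N.X i)) * Hm M N G i := by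
    unfold Km Hm
    rw [add_sub_cancel_right]
    calc gz (N.Z (i + 1)) * G i * gz (M.Z (i + 1))⁻¹ * (gz (M.Z (i + 1)) * gx (M.X i))
        = gz (N.Z (i + 1)) * (G i * ((gz (M.Z (i + 1))⁻¹ * gz (M.Z (i + 1))) * gx (M.X i))) := by
          simp only [Matrix.mul_assoc]
      _ = gz (N.Z (i + 1)) * (G i * gx (M.X i)) := by rw [e1, Matrix.one_mul]
      _ = gz (N.Z (i + 1)) * ((gx (N.X i) * gx (N.X i)⁻¹) * (G i * gx (M.X i))) := by
          rw [e2, Matrix.one_mul]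
      _ = gz (N.Z (i + 1)) * gx (N.X i) * (gx (N.X i)⁻¹ * G i * gx (M.X i)) := by
          simp only [Matrix.mul_assoc]
  have hK : MGE (Km M N G (i + 1)) (-1) := by
    have := pole_spec (Km M N G (i + 1))
    rw [pole_Km, add_sub_cancel_right, h1] at this
    simpa using this
  have hH : MGE (Hm M N G i) (-1) := by
    have := pole_spec (Hm M N G i)
    rw [pole_Hm, h1] at this
    simpa using this
  have hY : ∀ L : KisinModule f A, MGE (gz (L.Z (i + 1)) * gx (L.X i)) 0 ∧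
      lead (gz (L.Z (i + 1)) * gx (L.X i)) 0 = L.Y i := by
    intro L
    have := (gz_MGE (L.Z (i + 1))).mul (gx_MGE (L.X i))
    rw [add_zero, lead_gz, lead_gx] at this
    exact this
  have a1 := (hK.mul (hY M).1).2
  have a2 := ((hY N).1.mul hH).2
  rw [add_zero, (hY M).2] at a1
  rw [zero_add, (hY N).2] at a2
  rw [← a1, ← a2, key]

theorem lead_Km (h : IsHom p (M.frob a) (N.frob a) G) (hp : 5 ≤ p)
    (ha : ∀ i, 1 ≤ a i ∧ a i ≤ p) {i : ZMod f} (h1 : pole (G i) = 1) :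
    lead (Km M N G (i + 1)) (-1) 0 1 ≠ 0 ∧ lead (Km M N G (i + 1)) (-1) 0 0 = 0 := by
  have hle := pole_le_one h hp ha (i + 1)
  have := (rel h (i + 1)).one hp (ha (i + 1)).2
    (by rw [pole_Km, add_sub_cancel_right]; exact h1) (by rw [pole_Hm]; exact hle)
  exact ⟨this.1, this.2.1⟩

/-- a pole which stays -/
theorem Y_of_one_one (h : IsHom p (M.frob a) (N.frob a) G) (hp : 5 ≤ p)
    (ha : ∀ i, 1 ≤ a i ∧ a i ≤ p) {i : ZMod f} (h0 : pole (G (i - 1)) = 1)
    (h1 : pole (G i) = 1) : ∃ b : A, b ≠ 0 ∧ b * M.Y i 1 0 = 0 := by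
  obtain ⟨hb, hb0⟩ := lead_Km h hp ha h1
  have hr := lead_rel (M := M) (N := N) i h1
  have hs := (rel h i).one hp (ha i).2 (by rw [pole_Km]; exact h0) (by rw [pole_Hm]; omega)
  rcases hs.2.2.2.2 with h2 | h2
  · have e := congrFun (congrFun hr 0) 0
    rw [Matrix.mul_apply, Matrix.mul_apply, Fin.sum_univ_two, Fin.sum_univ_two, hb0, zero_mul,
      zero_add] at e
    have z0 : lead (Hm M N G i) (-1) 0 0 = 0 := h2.2.2.1
    have z1 : lead (Hm M N G i) (-1) 1 0 = 0 := h2.2.2.2.1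
    rw [z0, z1, mul_zero, mul_zero, add_zero] at e
    exact ⟨_, hb, e⟩
  · rw [pole_Hm] at h2; omega

/-- a new pole -/
theorem Y_of_zero_one (h : IsHom p (M.frob a) (N.frob a) G) (hp : 5 ≤ p)
    (ha : ∀ i, 1 ≤ a i ∧ a i ≤ p) {i : ZMod f} (h0 : pole (G (i - 1)) = 0)
    (h1 : pole (G i) = 1) : ∃ b : A, b ≠ 0 ∧ b * M.Y i 1 1 = 0 := by
  obtain ⟨hb, hb0⟩ := lead_Km h hp ha h1
  have hr := lead_rel (M := M) (N := N) i h1
  have hs := (rel h i).new (ha i).1 (ha i).2 (by rw [pole_Km]; exact h0)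
    (by rw [pole_Hm]; exact h1)
  have e := congrFun (congrFun hr 0) 1
  rw [Matrix.mul_apply, Matrix.mul_apply, Fin.sum_univ_two, Fin.sum_univ_two, hb0, zero_mul,
    zero_add] at e
  have z0 : lead (Hm M N G i) (-1) 0 1 = 0 := hs.2.2.1
  have z1 : lead (Hm M N G i) (-1) 1 1 = 0 := hs.2.2.2
  rw [z0, z1, mul_zero, mul_zero, add_zero] at e
  exact ⟨_, hb, e⟩

end Pool.Agent.Lib.MP_74d0c9_nt
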