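import Pool.Agent.Lib.MP_74d0c9_nt.MRows

/-! The Kisin modules of a pattern, near any point of the residual Kisin variety. -/

set_option autoImplicit false

namespace Pool.Agent.Lib.MP_74d0c9_nt

open HahnSeries

universe u

section
variable {A : Type u} [CommRing A]

/-- the lattices: `Q_t diag(u⁻¹, 1)` at the positions of the pattern -/
noncomputable def TK (P : ℕ → Bool) (Q : ℕ → GL (Fin 2) A) (t : ℕ) : GL (Fin 2) (LaurentSeries A) :=
  if P t = true then Matrix.GeneralLinearGroup.map HahnSeries.C (Q t) * tl 0 else 1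

/-- the Kisin module at the point `Q` -/
noncomputable def MB (p : ℕ) (P : ℕ → Bool) (f a : ℕ) (Q : ℕ → GL (Fin 2) A) (t : ℕ) : Mat A :=
  if P t = true then
    (if Pm P t = true then !![1, 0; 0, un (p - 1)] else !![un 1, 0; 0, 1] * gz (Q t)⁻¹)
  else if Pm P t = true then gz (Q (t - 1)) * !![1, 0; 0, un p]
  else if t < f - 1 then du a else !![0, 1; un a, 0]

/-- the deformations of the Kisin module -/
noncomputable def MX (p : ℕ) (P : ℕ → Bool) (f a : ℕ) (Q : ℕ → GL (Fin 2) A) (s : A) (w x : ℕ → A)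
    (t : ℕ) : Mat A :=
  if P t = true then
    (HahnSeries.C (if t = 0 then 1 + s else 1) : LaurentSeries A) •
      (!![1, HahnSeries.C (w t); 0, 1] * MB p P f a Q t)
  else if Pm P t = true then MB p P f a Q t
  else MB p P f a Q t * !![1, 0; HahnSeries.C (x t), 1]

/-- the tangent directions of the deformations `Q_t * [[1, 0], [l_t, 1]], s, w, x` -/
noncomputable def DK (p : ℕ) (P : ℕ → Bool) (f a : ℕ) (Q : ℕ → GL (Fin 2) A) (l : ℕ → A) (s : A)
    (w x : ℕ → A) (t : ℕ) : Mat A :=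
  if P t = true then
    (if t = 0 then (HahnSeries.C s : LaurentSeries A) • MB p P f a Q t else 0) +
      (HahnSeries.C (w t) : LaurentSeries A) • (!![0, 1; 0, 0] * MB p P f a Q t) -
      (if Pm P t = true then 0
        else (HahnSeries.C (l t) : LaurentSeries A) • (!![0, 0; 1, 0] * gz (Q t)⁻¹))
  else if Pm P t = true then
    (HahnSeries.C (l (t - 1)) : LaurentSeries A) • (gz (Q (t - 1)) * !![0, 0; 1, 0])
  else (HahnSeries.C (x t) : LaurentSeries A) • (MB p P f a Q t * !![0, 0; 1, 0])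

/-- the coordinates: `w_t det(Q_t)⁻¹ (Q_t)₀₀ ^ (2 - e) (Q_t)₁₀ ^ e` at the positions of the pattern -/
noncomputable def cK (P : ℕ → Bool) (f : ℕ) (Q : ℕ → GL (Fin 2) A) (s : A) (w x : ℕ → A) :
    IxP P f → A
  | Sum.inl _ => s
  | Sum.inr (Sum.inl y) =>
      (if ((y.1 : Fin f) : ℕ) = 0 then 1 + s else 1) * w (y.1 : Fin f) *
        (Q (y.1 : Fin f))⁻¹.1.det * (Q (y.1 : Fin f)).1 0 0 ^ (2 - (y.2 : ℕ)) *
        (Q (y.1 : Fin f)).1 1 0 ^ (y.2 : ℕ)
  | Sum.inr (Sum.inr y) => x (y : Fin f)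

end

end Pool.Agent.Lib.MP_74d0c9_nt
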