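import Pool.Agent.Lib.MP_74d0c9_nt.XDefs
import Pool.Agent.Lib.MP_74d0c9_nt.UAbs

/-! Small matrices in coordinates, and the linearity of the directions. -/

set_option autoImplicit false

namespace Pool.Agent.Lib.MP_74d0c9_nt

open HahnSeries

universe u

section
variable {k : Type u} [Field k] {A : Type u} [CommRing A] [Algebra k A]

/-- generators of an ideal, as a vector space, with dual functionals -/
theorem exists_dual [Module.Finite k A] (I : Ideal A) :
    ∃ (d : ℕ) (b : Fin d → A) (lam : Fin d → (A →ₗ[k] k)), (∀ i, b i ∈ I) ∧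
      ∀ x ∈ I, x = ∑ i, algebraMap k A (lam i x) * b i := by
  obtain ⟨S, hS⟩ : ∃ S : Submodule k A, S = I.restrictScalars k := ⟨_, rfl⟩
  have hSI : ∀ x, x ∈ S ↔ x ∈ I := by
    intro x
    rw [hS]
    exact Iff.rfl
  obtain ⟨g, hg⟩ := LinearMap.exists_leftInverse_of_injective S.subtype
    (LinearMap.ker_eq_bot.2 S.injective_subtype)
  refine ⟨_, fun i => (Module.finBasis k S i : A), fun i => ((Module.finBasis k S).coord i).comp g,
    fun i => (hSI _).1 (Module.finBasis k S i).2, fun x hx => ?_⟩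
  have h1 : g x = ⟨x, (hSI x).2 hx⟩ := LinearMap.congr_fun hg ⟨x, (hSI x).2 hx⟩
  have h2 := (Module.finBasis k S).sum_repr ⟨x, (hSI x).2 hx⟩
  have h3 := congrArg Subtype.val h2
  rw [AddSubmonoidClass.coe_finsetSum] at h3
  refine h3.symm.trans (Finset.sum_congr rfl fun i _ => ?_)
  show _ = algebraMap k A ((Module.finBasis k S).coord i (g x)) * _
  rw [h1, ← Algebra.smul_def]
  rfl

theorem coeff_C_mul' (c : A) (x : LaurentSeries A) (v : ℤ) :
    ((HahnSeries.C c : LaurentSeries A) * x).coeff v = c * x.coeff v := by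
  rw [HahnSeries.C_mul_eq_smul]
  rfl

theorem expand_mat {I : Ideal A} {d : ℕ} {b : Fin d → A} {lam : Fin d → (A →ₗ[k] k)}
    (hb : ∀ x ∈ I, x = ∑ i, algebraMap k A (lam i x) * b i) {X : Mat A} (hX : MSmall I X) :
    X = ∑ i, (HahnSeries.C (b i) : LaurentSeries A) • toA A (X.map (cm (lam i))) := by
  refine Matrix.ext fun r s => ?_
  ext v
  rw [Matrix.sum_apply, coeff_sum', hb _ (hX r s v)]
  refine Finset.sum_congr rfl fun i _ => ?_
  rw [Matrix.smul_apply, smul_eq_mul, coeff_C_mul', mul_comm]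
  rfl

theorem toA_mul (X Y : Mat k) : toA A (X * Y) = toA A X * toA A Y := Matrix.map_mul

theorem toA_add (X Y : Mat k) : toA A (X + Y) = toA A X + toA A Y :=
  Matrix.ext fun r s => map_add (lmap (algebraMap k A)) (X r s) (Y r s)

theorem toA_sub (X Y : Mat k) : toA A (X - Y) = toA A X - toA A Y :=
  Matrix.ext fun r s => map_sub (lmap (algebraMap k A)) (X r s) (Y r s)

theorem toA_zero : toA A (0 : Mat k) = 0 :=
  Matrix.ext fun r s => map_zero (lmap (algebraMap k A))

theorem toA_neg (X : Mat k) : toA A (-X) = -toA A X :=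
  Matrix.ext fun r s => map_neg (lmap (algebraMap k A)) (X r s)

theorem toA_C_smul (c : k) (X : Mat k) : toA A ((HahnSeries.C c : LaurentSeries k) • X) =
    (HahnSeries.C (algebraMap k A c) : LaurentSeries A) • toA A X := by
  refine Matrix.ext fun r s => ?_
  show lmap (algebraMap k A) (HahnSeries.C c * X r s) = HahnSeries.C (algebraMap k A c) *
    lmap (algebraMap k A) (X r s)
  rw [map_mul, lmap_C]

theorem toA_phi (p : ℕ) [Fact p.Prime] (X : Mat k) :
    toA A (X.map (phi k p)) = (toA A X).map (phi A p) :=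
  Matrix.ext fun r s => lmap_phi p (algebraMap k A) (X r s)

theorem toA_gz (Z : GL (Fin 2) k) :
    toA A (gz Z) = gz (Matrix.GeneralLinearGroup.map (algebraMap k A) Z) :=
  Matrix.ext fun r s => lmap_C (algebraMap k A) (Z.1 r s)

theorem smul_phi (p : ℕ) [Fact p.Prime] (c : A) (X : Mat A) :
    ((HahnSeries.C c : LaurentSeries A) • X).map (phi A p) =
      (HahnSeries.C c : LaurentSeries A) • X.map (phi A p) := by
  refine Matrix.ext fun r s => ?_
  show phi A p (HahnSeries.C c * X r s) = HahnSeries.C c * phi A p (X r s)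
  rw [map_mul, phi_C]

theorem sum_phi (p : ℕ) [Fact p.Prime] {ι : Type*} (t : Finset ι) (X : ι → Mat A) :
    (∑ i ∈ t, X i).map (phi A p) = ∑ i ∈ t, (X i).map (phi A p) := by
  classical
  induction t using Finset.induction_on with
  | empty => exact Matrix.ext fun r s => map_zero (phi A p)
  | insert a s ha ih => rw [Finset.sum_insert ha, Finset.sum_insert ha, map_add_phi, ih]

theorem C_smul_add (c d : A) (X : Mat A) : (HahnSeries.C (c + d) : LaurentSeries A) • X =
    (HahnSeries.C c : LaurentSeries A) • X + (HahnSeries.C d : LaurentSeries A) • X := by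
  rw [map_add, add_smul]

theorem C_smul_smul (c d : A) (X : Mat A) : (HahnSeries.C c : LaurentSeries A) •
    ((HahnSeries.C d : LaurentSeries A) • X) = (HahnSeries.C (c * d) : LaurentSeries A) • X := by
  rw [smul_smul, ← map_mul]

theorem sum_C_smul {ι : Type*} (t : Finset ι) (c : ι → A) (X : Mat A) :
    ∑ i ∈ t, (HahnSeries.C (c i) : LaurentSeries A) • X =
      (HahnSeries.C (∑ i ∈ t, c i) : LaurentSeries A) • X := by
  rw [map_sum, Finset.sum_smul]

end

/-! ### the base point and the directions -/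

section
variable {k : Type u} [Field k] {A : Type u} [CommRing A] [Algebra k A]

theorem toA_two (x y z w : LaurentSeries k) : toA A !![x, y; z, w] =
    !![lmap (algebraMap k A) x, lmap (algebraMap k A) y; lmap (algebraMap k A) z,
      lmap (algebraMap k A) w] := by
  unfold toA
  rw [mat2_map]

theorem toA_MB (p : ℕ) (P : ℕ → Bool) (f b : ℕ) (Q : ℕ → GL (Fin 2) k) (t : ℕ) :
    toA A (MB p P f b Q t) =
      MB p P f b (fun t => Matrix.GeneralLinearGroup.map (algebraMap k A) (Q t)) t := by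
  have h : ∀ Z : GL (Fin 2) k, Matrix.GeneralLinearGroup.map (algebraMap k A) Z⁻¹ =
      (Matrix.GeneralLinearGroup.map (algebraMap k A) Z)⁻¹ := fun Z => map_inv _ Z
  unfold MB
  split_ifs
  · rw [toA_two, map_one, map_zero, lmap_un]
  · rw [toA_mul, toA_two, map_one, map_zero, lmap_un, toA_gz, h]
  · rw [toA_mul, toA_two, map_one, map_zero, lmap_un, toA_gz]
  · rw [du_two, du_two, toA_two, map_one, map_zero, lmap_un]
  · rw [toA_two, map_one, map_zero, lmap_un]

/-- the direction of the variable `s` -/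
noncomputable def E1 (p : ℕ) (P : ℕ → Bool) (f b : ℕ) (Q : ℕ → GL (Fin 2) A) (t : ℕ) : Mat A :=
  if P t = true then (if t = 0 then MB p P f b Q t else 0) else 0

/-- the direction of the variable `w_t` -/
noncomputable def E2 (p : ℕ) (P : ℕ → Bool) (f b : ℕ) (Q : ℕ → GL (Fin 2) A) (t : ℕ) : Mat A :=
  if P t = true then !![0, 1; 0, 0] * MB p P f b Q t else 0

/-- the direction of the variable `l_t` -/
noncomputable def E3 (P : ℕ → Bool) (Q : ℕ → GL (Fin 2) A) (t : ℕ) : Mat A :=
  if P t = true then (if Pm P t = true then 0 else -(!![0, 0; 1, 0] * gz (Q t)⁻¹)) else 0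

/-- the direction of the variable `l_(t-1)` -/
noncomputable def E4 (P : ℕ → Bool) (Q : ℕ → GL (Fin 2) A) (t : ℕ) : Mat A :=
  if P t = true then 0 else if Pm P t = true then gz (Q (t - 1)) * !![0, 0; 1, 0] else 0

/-- the direction of the variable `x_t` -/
noncomputable def E5 (p : ℕ) (P : ℕ → Bool) (f b : ℕ) (Q : ℕ → GL (Fin 2) A) (t : ℕ) : Mat A :=
  if P t = true then 0 else if Pm P t = true then 0 else MB p P f b Q t * !![0, 0; 1, 0]

theorem DK_eq (p : ℕ) (P : ℕ → Bool) (f b : ℕ) (Q : ℕ → GL (Fin 2) A) (l : ℕ → A) (s : A)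
    (w x : ℕ → A) (t : ℕ) : DK p P f b Q l s w x t =
      (HahnSeries.C s : LaurentSeries A) • E1 p P f b Q t +
        (HahnSeries.C (w t) : LaurentSeries A) • E2 p P f b Q t +
        (HahnSeries.C (l t) : LaurentSeries A) • E3 P Q t +
        (HahnSeries.C (l (t - 1)) : LaurentSeries A) • E4 P Q t +
        (HahnSeries.C (x t) : LaurentSeries A) • E5 p P f b Q t := by
  unfold DK E1 E2 E3 E4 E5
  split_ifs <;> simp only [smul_zero, add_zero, zero_add, sub_zero, smul_neg, sub_eq_add_neg,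
    neg_zero]

theorem toA_E1 (p : ℕ) (P : ℕ → Bool) (f b : ℕ) (Q : ℕ → GL (Fin 2) k) (t : ℕ) :
    toA A (E1 p P f b Q t) =
      E1 p P f b (fun t => Matrix.GeneralLinearGroup.map (algebraMap k A) (Q t)) t := by
  unfold E1
  split_ifs
  · exact toA_MB p P f b Q t
  · exact toA_zero
  · exact toA_zero

theorem toA_E2 (p : ℕ) (P : ℕ → Bool) (f b : ℕ) (Q : ℕ → GL (Fin 2) k) (t : ℕ) :
    toA A (E2 p P f b Q t) =
      E2 p P f b (fun t => Matrix.GeneralLinearGroup.map (algebraMap k A) (Q t)) t := by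
  unfold E2
  split_ifs
  · rw [toA_mul, toA_two, map_one, map_zero, toA_MB]
  · exact toA_zero

theorem toA_E3 (P : ℕ → Bool) (Q : ℕ → GL (Fin 2) k) (t : ℕ) :
    toA A (E3 P Q t) =
      E3 P (fun t => Matrix.GeneralLinearGroup.map (algebraMap k A) (Q t)) t := by
  have h : ∀ Z : GL (Fin 2) k, Matrix.GeneralLinearGroup.map (algebraMap k A) Z⁻¹ =
      (Matrix.GeneralLinearGroup.map (algebraMap k A) Z)⁻¹ := fun Z => map_inv _ Z
  unfold E3
  split_ifs
  · exact toA_zero
  · rw [toA_neg, toA_mul, toA_two, map_one, map_zero, toA_gz, h]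
  · exact toA_zero

theorem toA_E4 (P : ℕ → Bool) (Q : ℕ → GL (Fin 2) k) (t : ℕ) :
    toA A (E4 P Q t) =
      E4 P (fun t => Matrix.GeneralLinearGroup.map (algebraMap k A) (Q t)) t := by
  unfold E4
  split_ifs
  · exact toA_zero
  · rw [toA_mul, toA_two, map_one, map_zero, toA_gz]
  · exact toA_zero

theorem toA_E5 (p : ℕ) (P : ℕ → Bool) (f b : ℕ) (Q : ℕ → GL (Fin 2) k) (t : ℕ) :
    toA A (E5 p P f b Q t) =
      E5 p P f b (fun t => Matrix.GeneralLinearGroup.map (algebraMap k A) (Q t)) t := by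
  unfold E5
  split_ifs
  · exact toA_zero
  · exact toA_zero
  · rw [toA_mul, toA_two, map_one, map_zero, toA_MB]

/-- the directions are linear -/
theorem sum_toA_DK {d : ℕ} (b : Fin d → A) (p : ℕ) (P : ℕ → Bool) (f n : ℕ)
    (Q : ℕ → GL (Fin 2) k) (l w x : Fin d → ℕ → k) (s : Fin d → k) (t : ℕ) :
    ∑ i, (HahnSeries.C (b i) : LaurentSeries A) •
        toA A (DK p P f n Q (l i) (s i) (w i) (x i) t) =
      DK p P f n (fun t => Matrix.GeneralLinearGroup.map (algebraMap k A) (Q t))
        (fun t => ∑ i, b i * algebraMap k A (l i t)) (∑ i, b i * algebraMap k A (s i))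
        (fun t => ∑ i, b i * algebraMap k A (w i t)) (fun t => ∑ i, b i * algebraMap k A (x i t))
        t := by
  rw [DK_eq]
  simp only [DK_eq, toA_add, toA_C_smul, toA_E1, toA_E2, toA_E3, toA_E4, toA_E5, smul_add,
    C_smul_smul, Finset.sum_add_distrib, sum_C_smul]

theorem MX_zero (p : ℕ) (P : ℕ → Bool) (f b : ℕ) (Q : ℕ → GL (Fin 2) A) (t : ℕ) :
    MX p P f b Q 0 (fun _ => 0) (fun _ => 0) t = MB p P f b Q t := by
  have e1 : (!![1, HahnSeries.C (0 : A); 0, 1] : Mat A) = 1 := by
    rw [map_zero, Matrix.one_fin_two]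
  have e2 : (!![1, 0; HahnSeries.C (0 : A), 1] : Mat A) = 1 := by
    rw [map_zero, Matrix.one_fin_two]
  unfold MX
  rw [e1, e2, Matrix.one_mul, Matrix.mul_one, add_zero, ite_self, map_one, one_smul]
  split_ifs <;> rfl

theorem eL_zero : (eL (0 : A)) = 1 := by
  apply Units.ext
  show (!![1, 0; 0, 1] : Matrix (Fin 2) (Fin 2) A) = 1
  rw [Matrix.one_fin_two]

end

end Pool.Agent.Lib.MP_74d0c9_nt
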