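import Pool.Agent.Lib.MP_74d0c9_nt.XSmall

/-!
The formal family over the local ring of the words.
-/

set_option autoImplicit false
set_option linter.unusedSectionVars false

namespace Pool.Agent.Lib.MP_74d0c9_nt

open HahnSeries IsLocalRing

universe u

section
variable {k : Type u} [Field k] {f : ℕ}

/-- a combination of directions is a deformation modulo the ideal of its coefficients -/
theorem isDef_famA {ι : Type} [Fintype ι] (B : ZMod f → Mat k) (D : ι → ZMod f → Mat k)
    {A : Type u} [CommRing A] [Algebra k A] (I : Ideal A) (c : ι → A) (hc : ∀ i, c i ∈ I) :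
    IsDef B I (famA B D c) := by
  intro j r s v
  show ((famA B D c j - toA A (B j)) r s).coeff v ∈ I
  rw [Matrix.sub_apply, coeff_sub, famA_coeff]
  have h1 : ∀ x y : A, x + y - x = y := fun x y => add_sub_cancel_left x y
  have h2 : (toA A (B j) r s).coeff v = algebraMap k A ((B j r s).coeff v) := rfl
  rw [h2, h1]
  exact Ideal.sum_mem _ fun i _ => Ideal.mul_mem_right _ _ (hc i)

/-- the formal family with given coordinates -/
noncomputable def famR {ι : Type} [Fintype ι] (B : ZMod f → Mat k) (D : ι → ZMod f → Mat k)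
    {R : Type u} [CommRing R] [Algebra k R] [IsLocalRing R] (X : ι → R)
    (hX : ∀ v, X v ∈ maximalIdeal R) : Family B R where
  F n := famA B D fun v => Ideal.Quotient.mk (maximalIdeal R ^ n) (X v)
  isDef n := isDef_famA B D _ _ fun v => Ideal.mem_map_of_mem _ (hX v)
  compat n j := by
    have h1 := famA_map B D (fun v => Ideal.Quotient.mk (maximalIdeal R ^ (n + 1)) (X v))
      ({ Ideal.Quotient.factorPow (maximalIdeal R) n.le_succ with commutes' := fun _ => rfl } :
        (R ⧸ maximalIdeal R ^ (n + 1)) →ₐ[k] (R ⧸ maximalIdeal R ^ n)) j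
    exact h1

variable {p : ℕ} [Fact p.Prime] {ι : Type} [Fintype ι] {B : ZMod f → Mat k}
  {D : ι → ZMod f → Mat k} {R : Type u} [CommRing R] [Algebra k R] [IsLocalRing R] {X : ι → R}
  {hX : ∀ v, X v ∈ maximalIdeal R}

theorem famR_F (n : ℕ) : (famR B D X hX).F n =
    famA B D fun v => Ideal.Quotient.mk (maximalIdeal R ^ n) (X v) := rfl

theorem famR_push {A : Type u} [CommRing A] [Algebra k A] {n : ℕ}
    (g : (R ⧸ maximalIdeal R ^ n) →ₐ[k] A) : (famR B D X hX).push g =
      famA B D fun v => g (Ideal.Quotient.mk (maximalIdeal R ^ n) (X v)) :=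
  funext fun j => famA_map B D _ g j

/-- the coordinates are determined by the equivalence class -/
theorem famA_inj (H0 : ∀ C : ZMod f → Mat k, dk p B C = 0 →
      ∃ c : k, ∀ j, C j = (HahnSeries.C c : LaurentSeries k) • (1 : Mat k))
    (hD : ∀ (r : ι → k) (C : ZMod f → Mat k), ∑ s, r s • D s = dk p B C → r = 0)
    {A : Type u} [CommRing A] [Algebra k A] [IsLocalRing A] (hA : IsTest k A) (c c' : ι → A)
    (hc : ∀ i, c i ∈ maximalIdeal A) (hc' : ∀ i, c' i ∈ maximalIdeal A)
    (h : Eqv p (maximalIdeal A) (famA B D c) (famA B D c')) : c = c' := by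
  have hfin := hA.finite
  obtain ⟨V, σ, hDV, hσ, hV⟩ := exists_section p B D hD
  have hInV : ∀ c : ι → A, InV V fun j => famA B D c j - toA A (B j) := by
    intro c lam
    rw [LL_famA]
    exact V.sum_mem fun i _ => V.smul_mem _ (hDV i)
  have heq := nf_unique hA.isNilpotent hV H0 (isDef_famA B D _ c hc) (isDef_famA B D _ c' hc')
    (hInV c) (hInV c') h
  funext i
  rw [← sub_eq_zero]
  have h0 : c i - c' i ∈ (⊥ : Submodule k A) := by
    refine mem_of_lam fun lam _ => ?_
    have h1 := LL_famA B D c lam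
    have h2 := LL_famA B D c' lam
    rw [heq, h2] at h1
    have h3 : ∑ s, (lam (c s) - lam (c' s)) • D s = dk p B 0 := by
      rw [map_zero]
      simp only [sub_smul, Finset.sum_sub_distrib]
      rw [← h1, sub_self]
    have h4 := congrFun (hD (fun s => lam (c s) - lam (c' s)) 0 h3) i
    rw [map_sub]
    exact h4
  exact (Submodule.mem_bot k).1 h0

/-- two homomorphisms which induce equivalent deformations agree on the coordinates -/
theorem famR_mono (H0 : ∀ C : ZMod f → Mat k, dk p B C = 0 →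
      ∃ c : k, ∀ j, C j = (HahnSeries.C c : LaurentSeries k) • (1 : Mat k))
    (hD : ∀ (r : ι → k) (C : ZMod f → Mat k), ∑ s, r s • D s = dk p B C → r = 0)
    (hext : ∀ (A : Type u) [CommRing A] [Algebra k A] (n : ℕ)
      (g g' : (R ⧸ maximalIdeal R ^ n) →ₐ[k] A),
      (∀ v, g (Ideal.Quotient.mk _ (X v)) = g' (Ideal.Quotient.mk _ (X v))) → g = g') :
    (famR B D X hX).IsMono p := by
  intro A _ _ _ hA n g g' h
  rw [famR_push, famR_push] at h
  have hm : ∀ (g : (R ⧸ maximalIdeal R ^ n) →ₐ[k] A) (v : ι),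
      g (Ideal.Quotient.mk _ (X v)) ∈ maximalIdeal A := fun g v =>
    mk_mem_max g.toRingHom (hX v)
  have h1 := famA_inj H0 hD hA _ _ (hm g) (hm g') h
  exact hext A n g g' fun v => congrFun h1 v

end

section
variable {J S O : Type} [Fintype J] [Fintype S] [Fintype O] [DecidableEq J] {k : Type u} [Field k]
  {f p : ℕ} [Fact p.Prime]

/-- the formal family over the local ring of the words -/
noncomputable def famRW (B : ZMod f → Mat k) (ω : S → J)
    (D : Unit ⊕ ((S × Fin 3) ⊕ O) → ZMod f → Mat k) : Family B (RW k O ω) :=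
  famR B D (XM k O ω) (XM_mem ω)

theorem famRW_F (B : ZMod f → Mat k) (ω : S → J)
    (D : Unit ⊕ ((S × Fin 3) ⊕ O) → ZMod f → Mat k) (n : ℕ) : (famRW B ω D).F n =
      famA B D fun v => Ideal.Quotient.mk (maximalIdeal (RW k O ω) ^ n) (XM k O ω v) := rfl

variable {B : ZMod f → Mat k} {ω : S → J} {D : Unit ⊕ ((S × Fin 3) ⊕ O) → ZMod f → Mat k}

theorem famRW_mono (H0 : ∀ C : ZMod f → Mat k, dk p B C = 0 →
      ∃ c : k, ∀ j, C j = (HahnSeries.C c : LaurentSeries k) • (1 : Mat k))
    (hD : ∀ (r : Unit ⊕ ((S × Fin 3) ⊕ O) → k) (C : ZMod f → Mat k),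
      ∑ s, r s • D s = dk p B C → r = 0) : (famRW B ω D).IsMono p :=
  famR_mono H0 hD fun _ _ _ _ g g' h => ext_XM g g' h

/-- the deformations with coordinates `s`, `w_t α ^ e β ^ (2 - e)`, `x_o` are induced by
homomorphisms -/
theorem famRW_hom {A : Type u} [CommRing A] [Algebra k A] [IsLocalRing A] (hA : IsTest k A)
    (c : Unit ⊕ ((S × Fin 3) ⊕ O) → A) (w : S → A) (α β : J → A)
    (hs : c (Sum.inl ()) ∈ maximalIdeal A) (hw : ∀ t, w t ∈ maximalIdeal A)
    (hx : ∀ o, c (Sum.inr (Sum.inr o)) ∈ maximalIdeal A)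
    (hc : ∀ z : S × Fin 3, c (Sum.inr (Sum.inl z)) =
      w z.1 * (α (ω z.1) ^ (z.2 : ℕ) * β (ω z.1) ^ (2 - (z.2 : ℕ)))) :
    ∃ (n : ℕ) (g : (RW k O ω ⧸ maximalIdeal (RW k O ω) ^ n) →ₐ[k] A),
      (famRW B ω D).push g = famA B D c := by
  obtain ⟨n, g, h1, h2, h3⟩ := exists_hom_XM (k := k) (O := O) (ω := ω) hA (c (Sum.inl ())) w
    (fun o => c (Sum.inr (Sum.inr o))) hs hw hx α β
  refine ⟨n, g, ?_⟩
  have h4 : (fun v => g (Ideal.Quotient.mk (maximalIdeal (RW k O ω) ^ n) (XM k O ω v))) = c := by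
    funext v
    rcases v with v | z | o
    · exact h1 v
    · rw [h2, hc]
    · exact h3 o
  have h5 := famR_push (B := B) (D := D) (hX := XM_mem (k := k) (O := O) ω) g
  rw [h4] at h5
  exact h5

/-- the family contains the deformations which are isomorphic to Kisin modules -/
theorem famRW_hasKisin (a : ZMod f → ℕ)
    (h : ∀ (A : Type u) [CommRing A] [Algebra k A] [IsLocalRing A], IsTest k A →
      ∀ F : ZMod f → Mat A, IsDef B (maximalIdeal A) F → FromKisin p a F →
      ∃ (c : Unit ⊕ ((S × Fin 3) ⊕ O) → A) (w : S → A) (α β : J → A),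
        c (Sum.inl ()) ∈ maximalIdeal A ∧ (∀ t, w t ∈ maximalIdeal A) ∧
        (∀ o, c (Sum.inr (Sum.inr o)) ∈ maximalIdeal A) ∧
        (∀ z : S × Fin 3, c (Sum.inr (Sum.inl z)) =
          w z.1 * (α (ω z.1) ^ (z.2 : ℕ) * β (ω z.1) ^ (2 - (z.2 : ℕ)))) ∧
        Eqv p (maximalIdeal A) (famA B D c) F) : (famRW B ω D).HasKisin p a := by
  intro A _ _ _ hA F hF hF'
  obtain ⟨c, w, α, β, hs, hw, hx, hc, hE⟩ := h A hA F hF hF'
  obtain ⟨n, g, hg⟩ := famRW_hom (B := B) (D := D) hA c w α β hs hw hx hc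
  exact ⟨n, g, by rw [hg]; exact hE⟩

end

end Pool.Agent.Lib.MP_74d0c9_nt
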