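import Pool.Agent.Lib.MP_74d0c9_nt.XK1
import Pool.Agent.Lib.MP_74d0c9_nt.TOne

/-! The tangent space of the Kisin modules at an arbitrary residual point. -/

set_option autoImplicit false

namespace Pool.Agent.Lib.MP_74d0c9_nt

open HahnSeries

universe u

section
variable {A : Type u} [CommRing A] {p f : ℕ} [Fact p.Prime] [NeZero f] {P : ℕ → Bool}
  {a : ZMod f → ℕ}

/-- the lattices intertwine `MB` and `B` -/
theorem TK_MB (hP : GoodP P f) (i : ZMod f) (hpat : IsPat p f a i P)
    (Q : ℕ → GL (Fin 2) A) (hQ : ∀ t, P t = true → Pm P t = true → Q t = Q (t - 1))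
    (j : ZMod f) :
    (TK P Q (j - i).val).1 * MB p P f (a j) Q (j - i).val =
      Bp p P f (a j) (j - i).val * (TK P Q (j - 1 - i).val).1.map (phi A p) := by
  have hlt : (j - i).val < f := ZMod.val_lt _
  have ea : a j = a (i + ((j - i).val : ℕ)) := by
    rw [ZMod.natCast_val, ZMod.cast_id', id_eq, add_sub_cancel]
  have hMB : (MB p P f (a j) Q (j - i).val : Mat A) =
      gz (xnQ P f Q (j - i).val) * du (a j) * gz (znQ P Q (j - i).val) := by
    apply MB_eq hP
    · intro h1 h2
      rw [ea]
      exact hpat.start _ hlt h1 h2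
    · intro h1 h2
      rw [ea]
      exact hpat.mid _ hlt h1 h2
    · intro h1 h2
      rw [ea]
      exact hpat.stop _ hlt h1 h2
  rw [hMB]
  exact (step_checkQ' (a := a) hP i hpat Q hQ j).2.2

theorem Pm_val (hP : GoodP P f) (i j : ZMod f) : Pm P (j - i).val = P (j - 1 - i).val := by
  have hf3 := hP.three_le
  have hlt : (j - i).val < f := ZMod.val_lt _
  rcases Nat.eq_zero_or_pos (j - i).val with h | h
  · have h5 : j - i = 0 := (ZMod.val_eq_zero _).1 h
    have h6 : j - 1 - i = ((f - 1 : ℕ) : ZMod f) := by
      have h7 : ((f - 1 + 1 : ℕ) : ZMod f) = 0 := by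
        rw [Nat.sub_add_cancel (by omega), ZMod.natCast_self]
      push_cast at h7
      linear_combination h5 - h7
    rw [h, h6, ZMod.val_natCast_of_lt (by omega), hP.h2]
    rfl
  · have h6 : j - 1 - i = (((j - i).val - 1 : ℕ) : ZMod f) := by
      rw [Nat.cast_sub h, ZMod.natCast_val, ZMod.cast_id', id_eq]
      push_cast
      ring
    rw [h6, ZMod.val_natCast_of_lt (by omega)]
    obtain ⟨t, ht⟩ : ∃ t, (j - i).val = t + 1 := ⟨(j - i).val - 1, by omega⟩
    rw [ht, Nat.add_sub_cancel]
    rfl

theorem val_pred (hP : GoodP P f) (i j : ZMod f) (h : Pm P (j - i).val = true) :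
    (j - 1 - i).val = (j - i).val - 1 := by
  have hf3 := hP.three_le
  have hlt : (j - i).val < f := ZMod.val_lt _
  have h0 : 1 ≤ (j - i).val := by
    by_contra hc
    rw [show (j - i).val = 0 by omega] at h
    exact Bool.noConfusion h
  have h6 : j - 1 - i = (((j - i).val - 1 : ℕ) : ZMod f) := by
    rw [Nat.cast_sub h0, ZMod.natCast_val, ZMod.cast_id', id_eq]
    push_cast
    ring
  rw [h6, ZMod.val_natCast_of_lt (by omega)]

end

section
variable {k : Type u} [Field k] {p f : ℕ} [Fact p.Prime] [NeZero f] {P : ℕ → Bool}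
  {a : ZMod f → ℕ}

/-- the coordinates of the lattice -/
theorem conj_lattice (Q : GL (Fin 2) k) (w x y z : LaurentSeries k) :
    (gz Q * !![w, un (-1) * x; un 1 * y, z] * gz Q⁻¹) * (gc Q * tl 0).1 =
      (gc Q * tl 0).1 * !![w, x; y, z] := by
  have hval : (gc Q * tl 0).1 = gz Q * (tl (0 : k)).1 := rfl
  have e1 : gz Q * !![w, un (-1) * x; un 1 * y, z] * gz Q⁻¹ * (gz Q * (tl (0 : k)).1) =
      gz Q * (!![w, un (-1) * x; un 1 * y, z] * (tl (0 : k)).1) := by
    have e2 := gz_inv_mul Q
    calc gz Q * !![w, un (-1) * x; un 1 * y, z] * gz Q⁻¹ * (gz Q * (tl (0 : k)).1) =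
        gz Q * !![w, un (-1) * x; un 1 * y, z] * (gz Q⁻¹ * gz Q) * (tl (0 : k)).1 := by
          simp only [Matrix.mul_assoc]
      _ = _ := by rw [e2, Matrix.mul_one, Matrix.mul_assoc]
  rw [hval, e1, Matrix.mul_assoc]
  congr 1
  rw [tl0_eq, Matrix.mul_fin_two, Matrix.mul_fin_two]
  apply mat2_congr
  · ring
  · ring
  · linear_combination y * un_mul_neg (k := k) 1
  · ring

/-- K3, with `z = 0` -/
theorem tangent_MB0 (hp : 5 ≤ p) (hk : (2 : k) ≠ 0) (hP : GoodP P f)
    (ha : ∀ i, 1 ≤ a i ∧ a i ≤ p) (i : ZMod f) (hpat : IsPat p f a i P) (Q : ℕ → GL (Fin 2) k)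
    (hQ : ∀ t, P t = true → Pm P t = true → Q t = Q (t - 1))
    (y : ZMod f → Mat k) (hy : ∀ j, MGE (y j) 0) :
    ∃ (c : ZMod f → Mat k) (l w x : ℕ → k) (s : k), (∀ j, MGE (c j) 0) ∧
      (∀ t, P t = true → Pm P t = true → l t = l (t - 1)) ∧
      ∀ j, y j * MB p P f (a j) Q (j - i).val =
        c j * MB p P f (a j) Q (j - i).val -
          MB p P f (a j) Q (j - i).val * (c (j - 1)).map (phi k p) +
          DK p P f (a j) Q l s w x (j - i).val := by
  have hf3 := hP.three_le
  have hnt : ∀ x : Bool, x = false → ¬ x = true := by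
    intro x hx
    rw [hx]
    exact fun h => Bool.noConfusion h
  have hPf : ∀ t, P t = true ∨ P t = false := fun t => by cases P t <;> simp
  have hPmf : ∀ t, Pm P t = true ∨ Pm P t = false := fun t => by cases Pm P t <;> simp
  -- the element of `w`
  obtain ⟨wj, hwj⟩ : ∃ wj : ZMod f → k, wj = fun j => (y j 0 1).coeff 0 := ⟨_, rfl⟩
  -- the integral family
  obtain ⟨E, hE⟩ : ∃ E : ZMod f → Mat k, E = fun j =>
      !![y j 0 0, un (-1) * (y j 0 1 - HahnSeries.C (wj j)); un 1 * y j 1 0, y j 1 1] := ⟨_, rfl⟩
  obtain ⟨H, hH⟩ : ∃ H : ZMod f → Mat k, H = fun j => if P (j - i).val = true then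
      gz (Q (j - i).val) * E j * gz (Q (j - i).val)⁻¹ else y j := ⟨_, rfl⟩
  have hEint : ∀ j, MGE (E j) 0 := by
    intro j
    rw [hE]
    refine MGE_mk (hy j 0 0) ?_ (((hy j 1 0).un_mul 1).mono (by omega)) (hy j 1 1)
    have h1 : GE (y j 0 1 - HahnSeries.C (wj j)) 1 := by
      intro v hv
      rw [coeff_sub, hwj, HahnSeries.C_apply]
      rcases lt_or_ge v 0 with h | h
      · rw [hy j 0 1 v h, coeff_single_of_ne (by omega), sub_zero]
      · rw [show v = 0 by omega, coeff_single_same, sub_self]
    exact (h1.un_mul (-1)).mono (by omega)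
  have hHint : ∀ j, MGE (H j) 0 := by
    intro j
    rw [hH]
    dsimp only
    split_ifs
    · have h1 := (((gz_MGE (Q (j - i).val)).mul (hEint j)).1.mul (gz_MGE (Q (j - i).val)⁻¹)).1
      exact h1.mono (by omega)
    · exact hy j
  have h2 : ∃ h : k, h + h = 1 := ⟨2⁻¹, by rw [← two_mul, mul_inv_cancel₀ hk]⟩
  obtain ⟨C, σ, x, hC, hCeq⟩ := sol_all (p := p) (P := P) (a := a) (i := i) (by omega) hP
    (fun j => (ha j).2) (fun j => (ha j).1) h2 H hHint
  -- the lattice
  obtain ⟨K, hK⟩ : ∃ K : ZMod f → Mat k, K = fun j =>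
      gz (Q (j - i).val)⁻¹ * C j * gz (Q (j - i).val) := ⟨_, rfl⟩
  obtain ⟨γ, hγ⟩ : ∃ γ : ZMod f → k, γ = fun j => (K j 1 0).coeff 0 := ⟨_, rfl⟩
  obtain ⟨c, hc⟩ : ∃ c : ZMod f → Mat k, c = fun j => if P (j - i).val = true then
      !![K j 0 0, un 1 * K j 0 1; un (-1) * (K j 1 0 - HahnSeries.C (γ j)), K j 1 1] else C j :=
    ⟨_, rfl⟩
  have hKint : ∀ j, MGE (K j) 0 := by
    intro j
    rw [hK]
    have h1 := (((gz_MGE (Q (j - i).val)⁻¹).mul (hC j)).1.mul (gz_MGE (Q (j - i).val))).1
    exact h1.mono (by omega)
  have hcint : ∀ j, MGE (c j) 0 := by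
    intro j
    rw [hc]
    dsimp only
    split_ifs
    · refine MGE_mk (hKint j 0 0) (((hKint j 0 1).un_mul 1).mono (by omega)) ?_ (hKint j 1 1)
      have h1 : GE (K j 1 0 - HahnSeries.C (γ j)) 1 := by
        intro v hv
        rw [coeff_sub, hγ, HahnSeries.C_apply]
        rcases lt_or_ge v 0 with h | h
        · rw [hKint j 1 0 v h, coeff_single_of_ne (by omega), sub_zero]
        · rw [show v = 0 by omega, coeff_single_same, sub_self]
      exact (h1.un_mul (-1)).mono (by omega)
    · exact hC j
  -- the element of `l` is constant along the words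
  have hmid : ∀ j, P (j - i).val = true → Pm P (j - i).val = true → γ j = γ (j - 1) := by
    intro j h3 h4
    have e1 := hCeq j
    have h0 : ¬ (j - i).val = 0 := by
      intro h0
      rw [h0] at h4
      exact Bool.noConfusion h4
    rw [if_neg h0, add_zero, if_neg (fun h => hnt _ h.1 h3), add_zero] at e1
    have e2 : Th p P f a i C j = (C (j - 1)).map (phi k p) := by
      show th p P f (a j) (j - i).val (C (j - 1)) = _
      unfold th
      rw [if_pos (Or.inl h3)]
    have e3 : H j = gz (Q (j - i).val) * E j * gz (Q (j - i).val)⁻¹ := by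
      rw [hH]
      exact if_pos h3
    have e4 : Q (j - i).val = Q (j - 1 - i).val := by
      rw [hQ _ h3 h4, val_pred hP i j h4]
    rw [e2, e3] at e1
    have e5 : E j = K j - (K (j - 1)).map (phi k p) := by
      have h5 := congrArg (fun M => gz (Q (j - i).val)⁻¹ * M * gz (Q (j - i).val)) e1
      have h6 : gz (Q (j - i).val)⁻¹ * (gz (Q (j - i).val) * E j * gz (Q (j - i).val)⁻¹) *
          gz (Q (j - i).val) = E j := by
        calc _ = (gz (Q (j - i).val)⁻¹ * gz (Q (j - i).val)) * E j *
            (gz (Q (j - i).val)⁻¹ * gz (Q (j - i).val)) := by simp only [Matrix.mul_assoc]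
          _ = _ := by rw [gz_inv_mul, Matrix.one_mul, Matrix.mul_one]
      rw [h6, Matrix.mul_sub, Matrix.sub_mul] at h5
      rw [h5, hK]
      dsimp only
      rw [Matrix.map_mul, Matrix.map_mul, phi_gz, phi_gz, ← e4]
    have e6 := congrArg (fun M : Mat k => (M 1 0).coeff 0) e5
    have e7 : (E j 1 0).coeff 0 = 0 := by
      rw [hE]
      show (un 1 * y j 1 0).coeff 0 = 0
      exact ((hy j 1 0).un_mul 1) 0 (by omega)
    have e8 : ((K j - (K (j - 1)).map (phi k p)) 1 0).coeff 0 =
        (K j 1 0).coeff 0 - (K (j - 1) 1 0).coeff 0 := by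
      show (K j 1 0 - phi k p (K (j - 1) 1 0)).coeff 0 = _
      rw [coeff_sub, phi_coeff_zero']
    rw [e7, e8] at e6
    rw [hγ]
    exact (sub_eq_zero.1 e6.symm)
  -- the relations
  have hCT : ∀ j, C j * (TK P Q (j - i).val).1 = (TK P Q (j - i).val).1 * (c j +
      if P (j - i).val = true then (HahnSeries.C (γ j) : LaurentSeries k) •
        !![0, 0; un (-1), 0] else 0) := by
    intro j
    by_cases h3 : P (j - i).val = true
    · have e1 : TK P Q (j - i).val = gc (Q (j - i).val) * tl 0 := if_pos h3
      have e2 : c j + (if P (j - i).val = true then (HahnSeries.C (γ j) : LaurentSeries k) •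
          !![0, 0; un (-1), 0] else 0) = !![K j 0 0, un 1 * K j 0 1; un (-1) * K j 1 0,
            K j 1 1] := by
        rw [if_pos h3, hc]
        dsimp only
        rw [if_pos h3]
        refine Matrix.ext fun r s => ?_
        rw [Matrix.add_apply, Matrix.smul_apply, smul_eq_mul]
        fin_cases r <;> fin_cases s
        · show K j 0 0 + HahnSeries.C (γ j) * 0 = K j 0 0
          ring
        · show un 1 * K j 0 1 + HahnSeries.C (γ j) * 0 = un 1 * K j 0 1
          ring
        · show un (-1) * (K j 1 0 - HahnSeries.C (γ j)) + HahnSeries.C (γ j) * un (-1) =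
            un (-1) * K j 1 0
          ring
        · show K j 1 1 + HahnSeries.C (γ j) * 0 = K j 1 1
          ring
      rw [e2, e1, ← conj_lattice]
      have e3 : C j = gz (Q (j - i).val) * K j * gz (Q (j - i).val)⁻¹ := by
        rw [hK]
        dsimp only
        calc C j = (gz (Q (j - i).val) * gz (Q (j - i).val)⁻¹) * C j *
            (gz (Q (j - i).val) * gz (Q (j - i).val)⁻¹) := by
              rw [gz_mul_inv, Matrix.one_mul, Matrix.mul_one]
          _ = _ := by simp only [Matrix.mul_assoc]
      have e4 : K j = !![K j 0 0, un (-1) * (un 1 * K j 0 1); un 1 * (un (-1) * K j 1 0),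
          K j 1 1] := by
        rw [← mul_assoc, ← mul_assoc, un_neg_mul, un_mul_neg, one_mul, one_mul]
        exact mat_eta _
      rw [← e4, ← e3]
    · have e1 : TK P Q (j - i).val = 1 := if_neg h3
      rw [if_neg h3, add_zero, e1, Units.val_one, Matrix.mul_one, Matrix.one_mul, hc]
      dsimp only
      rw [if_neg h3]
  have hHT : ∀ j, H j * (TK P Q (j - i).val).1 = (TK P Q (j - i).val).1 * (y j -
      if P (j - i).val = true then (HahnSeries.C (wj j) : LaurentSeries k) •
        !![0, 1; 0, 0] else 0) := by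
    intro j
    by_cases h3 : P (j - i).val = true
    · have e1 : TK P Q (j - i).val = gc (Q (j - i).val) * tl 0 := if_pos h3
      have e2 : y j - (if P (j - i).val = true then (HahnSeries.C (wj j) : LaurentSeries k) •
          !![0, 1; 0, 0] else 0) = !![y j 0 0, y j 0 1 - HahnSeries.C (wj j); y j 1 0,
            y j 1 1] := by
        rw [if_pos h3]
        refine Matrix.ext fun r s => ?_
        rw [Matrix.sub_apply, Matrix.smul_apply, smul_eq_mul]
        fin_cases r <;> fin_cases s
        · show y j 0 0 - HahnSeries.C (wj j) * 0 = y j 0 0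
          ring
        · show y j 0 1 - HahnSeries.C (wj j) * 1 = y j 0 1 - HahnSeries.C (wj j)
          ring
        · show y j 1 0 - HahnSeries.C (wj j) * 0 = y j 1 0
          ring
        · show y j 1 1 - HahnSeries.C (wj j) * 0 = y j 1 1
          ring
      rw [e2, e1, ← conj_lattice, hH, hE]
      dsimp only
      rw [if_pos h3]
    · have e1 : TK P Q (j - i).val = 1 := if_neg h3
      rw [if_neg h3, sub_zero, e1, Units.val_one, Matrix.mul_one, Matrix.one_mul, hH]
      exact if_neg h3
  -- the equation
  have hTM := TK_MB (p := p) (a := a) hP i hpat Q hQ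
  have hun : phi k p (un (-1) : LaurentSeries k) = un (-p) := by
    show phi k p (single (-1) 1) = single (-(p : ℤ)) 1
    rw [phi_single, mul_neg, mul_one]
  have key : ∀ j, (y j - if P (j - i).val = true then (HahnSeries.C (wj j) : LaurentSeries k) •
        !![0, 1; 0, 0] else 0) * MB p P f (a j) Q (j - i).val =
      (c j + if P (j - i).val = true then (HahnSeries.C (γ j) : LaurentSeries k) •
        !![0, 0; un (-1), 0] else 0) * MB p P f (a j) Q (j - i).val -
      MB p P f (a j) Q (j - i).val * ((c (j - 1)).map (phi k p) +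
        if Pm P (j - i).val = true then (HahnSeries.C (γ (j - 1)) : LaurentSeries k) •
        !![0, 0; un (-p), 0] else 0) +
      (if (j - i).val = 0 then (HahnSeries.C σ : LaurentSeries k) •
        MB p P f (a j) Q (j - i).val else 0) +
      (if P (j - i).val = false ∧ Pm P (j - i).val = false then
        (HahnSeries.C (x j) : LaurentSeries k) •
          (MB p P f (a j) Q (j - i).val * !![0, 0; 1, 0]) else 0) := by
    intro j
    have hlt : (j - i).val < f := ZMod.val_lt _
    refine (Units.mul_right_inj (TK P Q (j - i).val)).1 ?_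
    have e1 : ∀ X : Mat k, Th p P f a i (fun _ => X) j * ((TK P Q (j - i).val).1 *
        MB p P f (a j) Q (j - i).val) = Bp p P f (a j) (j - i).val * ((X *
          (TK P Q (j - 1 - i).val).1).map (phi k p)) := by
      intro X
      rw [hTM, ← Matrix.mul_assoc]
      show th p P f (a j) (j - i).val X * _ * _ = _
      rw [th_spec hP _ _ hlt, Matrix.map_mul, Matrix.mul_assoc]
    have e2 := congrArg (fun M => M * ((TK P Q (j - i).val).1 *
      MB p P f (a j) Q (j - i).val)) (hCeq j)
    have e3 : Th p P f a i C j = Th p P f a i (fun _ => C (j - 1)) j := rfl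
    rw [Matrix.add_mul, Matrix.add_mul, Matrix.sub_mul, e3, e1, hCT (j - 1), Matrix.map_mul,
      ← Matrix.mul_assoc (Bp p P f (a j) (j - i).val), ← hTM, ← Matrix.mul_assoc (H j), hHT,
      ← Matrix.mul_assoc (C j), hCT] at e2
    have e4 : (c (j - 1) + if P (j - 1 - i).val = true then
        (HahnSeries.C (γ (j - 1)) : LaurentSeries k) • !![0, 0; un (-1), 0] else 0).map
          (phi k p) = (c (j - 1)).map (phi k p) +
        if Pm P (j - i).val = true then (HahnSeries.C (γ (j - 1)) : LaurentSeries k) •
        !![0, 0; un (-p), 0] else 0 := by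
      rw [← Pm_val hP i j]
      have e5 : ∀ X Y : Mat k, (X + Y).map (phi k p) = X.map (phi k p) + Y.map (phi k p) := by
        intro X Y
        refine Matrix.ext fun r s => ?_
        exact map_add (phi k p) _ _
      rw [e5]
      congr 1
      split_ifs
      · refine Matrix.ext fun r s => ?_
        rw [Matrix.map_apply, Matrix.smul_apply, Matrix.smul_apply, smul_eq_mul, smul_eq_mul,
          map_mul, phi_C]
        congr 1
        fin_cases r <;> fin_cases s
        · exact map_zero _
        · exact map_zero _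
        · exact hun
        · exact map_zero _
      · exact Matrix.map_zero _ (map_zero _)
    rw [e4] at e2
    have e6 : (if (j - i).val = 0 then (HahnSeries.C σ : LaurentSeries k) • (1 : Mat k) else 0) *
        ((TK P Q (j - i).val).1 * MB p P f (a j) Q (j - i).val) =
        (TK P Q (j - i).val).1 * (if (j - i).val = 0 then (HahnSeries.C σ : LaurentSeries k) •
          MB p P f (a j) Q (j - i).val else 0) := by
      split_ifs
      · rw [smul_mul', Matrix.one_mul, mul_smul']
      · rw [Matrix.zero_mul, Matrix.mul_zero]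
    have e7 : (if P (j - i).val = false ∧ Pm P (j - i).val = false then
        (HahnSeries.C (x j) : LaurentSeries k) • th p P f (a j) (j - i).val (e21 k) else 0) *
        ((TK P Q (j - i).val).1 * MB p P f (a j) Q (j - i).val) =
        (TK P Q (j - i).val).1 * (if P (j - i).val = false ∧ Pm P (j - i).val = false then
        (HahnSeries.C (x j) : LaurentSeries k) •
          (MB p P f (a j) Q (j - i).val * !![0, 0; 1, 0]) else 0) := by
      by_cases h : P (j - i).val = false ∧ Pm P (j - i).val = false
      · rw [if_pos h, if_pos h, smul_mul', mul_smul']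
        have h8 := e1 (e21 k)
        have h9 : Th p P f a i (fun _ => e21 k) j = th p P f (a j) (j - i).val (e21 k) := rfl
        have h10 : TK P Q (j - 1 - i).val = 1 := by
          refine if_neg (hnt _ ?_)
          rw [← Pm_val hP i j]
          exact h.2
        have h11 : (e21 k).map (phi k p) = !![0, 0; 1, 0] := by
          unfold e21
          rw [mat2_map, map_zero, map_one]
        rw [h9, Matrix.map_mul, h10, one_phi, Matrix.mul_one, h11] at h8
        have h12 := hTM j
        rw [h10, one_phi, Matrix.mul_one] at h12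
        rw [h8, ← h12, Matrix.mul_assoc]
      · rw [if_neg h, if_neg h, Matrix.zero_mul, Matrix.mul_zero]
    rw [e6, e7] at e2
    rw [Matrix.mul_add, Matrix.mul_add, Matrix.mul_sub]
    simp only [← Matrix.mul_assoc] at e2 ⊢
    exact e2
  -- the parameters
  obtain ⟨l', hl'⟩ : ∃ l' : ℕ → k, l' = fun t : ℕ => if t < f then -γ (i + (t : ZMod f)) else 0 :=
    ⟨_, rfl⟩
  have hv : ∀ j, i + (((j - i).val : ℕ) : ZMod f) = j := by
    intro j
    rw [ZMod.natCast_val, ZMod.cast_id', id_eq, add_sub_cancel]
  have hl'v : ∀ j, l' (j - i).val = -γ j := by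
    intro j
    rw [hl']
    dsimp only
    rw [if_pos (ZMod.val_lt _), hv]
  refine ⟨c, l', fun t => wj (i + (t : ZMod f)), fun t => x (i + (t : ZMod f)), σ, hcint, ?_, ?_⟩
  · intro t h3 h4
    by_cases ht : t < f
    · have e1 : (i + (t : ZMod f) - i).val = t := posv i ht
      have e2 := hmid (i + (t : ZMod f)) (by rw [e1]; exact h3) (by rw [e1]; exact h4)
      have e3 : l' t = -γ (i + (t : ZMod f)) := by
        have := hl'v (i + (t : ZMod f))
        rwa [e1] at this
      have e4 : l' (t - 1) = -γ (i + (t : ZMod f) - 1) := by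
        have := hl'v (i + (t : ZMod f) - 1)
        rwa [val_pred hP i _ (by rw [e1]; exact h4), e1] at this
      rw [e3, e4, e2]
    · obtain ⟨r, rfl⟩ : ∃ r, t = r + 1 := ⟨t - 1, by omega⟩
      have h5 : P r = true := h4
      have h6 : ¬ r < f := by
        intro h7
        rw [show r = f - 1 by omega, hP.h2] at h5
        exact Bool.noConfusion h5
      rw [hl']
      dsimp only
      rw [if_neg ht, Nat.add_sub_cancel, if_neg h6]
  · intro j
    have e1 := key j
    unfold DK
    dsimp only
    rw [hv]
    rcases hPf (j - i).val with h3 | h3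
    · have h5 : ¬ (P (j - i).val = false ∧ Pm P (j - i).val = false) := fun h => hnt _ h.1 h3
      rw [if_pos h3, if_pos h3, if_neg h5, add_zero, Matrix.sub_mul, Matrix.add_mul,
        Matrix.mul_add, smul_mul', smul_mul'] at e1
      rw [if_pos h3, hl'v]
      rcases hPmf (j - i).val with h4 | h4
      · have eM : (MB p P f (a j) Q (j - i).val : Mat k) = !![1, 0; 0, un (p - 1)] := by
          unfold MB
          rw [if_pos h3, if_pos h4]
        have e2 : (HahnSeries.C (γ j) : LaurentSeries k) • (!![0, 0; un (-1), 0] *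
            MB p P f (a j) Q (j - i).val) = MB p P f (a j) Q (j - i).val *
            ((HahnSeries.C (γ (j - 1)) : LaurentSeries k) • !![0, 0; un (-p), 0]) := by
          rw [mul_smul', hmid j h3 h4, eM]
          congr 1
          rw [Matrix.mul_fin_two, Matrix.mul_fin_two]
          have e3 : (un ((p : ℤ) - 1) : LaurentSeries k) * un (-p) = un (-1) := by
            rw [un_mul]; congr 1; ring
          apply mat2_congr
          · ring
          · ring
          · linear_combination -e3
          · ring
        rw [if_pos h4, e2] at e1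
        rw [if_pos h4, sub_zero]
        rw [sub_eq_iff_eq_add] at e1
        rw [e1]
        abel
      · have eM : (MB p P f (a j) Q (j - i).val : Mat k) =
            !![un 1, 0; 0, 1] * gz (Q (j - i).val)⁻¹ := by
          unfold MB
          rw [if_pos h3, if_neg (hnt _ h4)]
        have e2 : (HahnSeries.C (γ j) : LaurentSeries k) • (!![0, 0; un (-1), 0] *
            MB p P f (a j) Q (j - i).val) = (HahnSeries.C (γ j) : LaurentSeries k) •
            (!![0, 0; 1, 0] * gz (Q (j - i).val)⁻¹) := by
          rw [eM, ← Matrix.mul_assoc, Matrix.mul_fin_two]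
          congr 2
          apply mat2_congr
          · ring
          · ring
          · linear_combination un_neg_mul (k := k) 1
          · ring
        rw [if_neg (hnt _ h4), e2, Matrix.mul_zero, add_zero] at e1
        rw [if_neg (hnt _ h4), map_neg, neg_smul, sub_neg_eq_add]
        rw [sub_eq_iff_eq_add] at e1
        rw [e1]
        abel
    · have h0 : ¬ (j - i).val = 0 := by
        intro h
        rw [h, hP.h0] at h3
        exact Bool.noConfusion h3
      rw [if_neg (hnt _ h3), if_neg (hnt _ h3), sub_zero, add_zero, if_neg h0, add_zero,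
        Matrix.mul_add] at e1
      rw [if_neg (hnt _ h3)]
      rcases hPmf (j - i).val with h4 | h4
      · have h5 : ¬ (P (j - i).val = false ∧ Pm P (j - i).val = false) := fun h => hnt _ h.2 h4
        have eM : (MB p P f (a j) Q (j - i).val : Mat k) =
            gz (Q ((j - i).val - 1)) * !![1, 0; 0, un p] := by
          unfold MB
          rw [if_neg (hnt _ h3), if_pos h4]
        have e2 : MB p P f (a j) Q (j - i).val *
            ((HahnSeries.C (γ (j - 1)) : LaurentSeries k) • !![0, 0; un (-p), 0]) =
            (HahnSeries.C (γ (j - 1)) : LaurentSeries k) • (gz (Q ((j - i).val - 1)) *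
              !![0, 0; 1, 0]) := by
          rw [mul_smul', eM, Matrix.mul_assoc, Matrix.mul_fin_two]
          congr 2
          apply mat2_congr
          · ring
          · ring
          · linear_combination un_mul_neg (k := k) (p : ℤ)
          · ring
        have e3 : l' ((j - i).val - 1) = -γ (j - 1) := by
          have := hl'v (j - 1)
          rwa [val_pred hP i j h4] at this
        rw [if_pos h4, e2, if_neg h5, add_zero] at e1
        rw [if_pos h4, e3, map_neg, neg_smul, e1]
        abel
      · rw [if_neg (hnt _ h4), Matrix.mul_zero, add_zero, if_pos ⟨h3, h4⟩] at e1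
        rw [if_neg (hnt _ h4), e1]

/-- K3: every first order deformation, as a Kisin module, is a sum of an integral coboundary and of
the directions. -/
theorem tangent_MB (hp : 5 ≤ p) (hk : (2 : k) ≠ 0) (hP : GoodP P f)
    (ha : ∀ i, 1 ≤ a i ∧ a i ≤ p) (i : ZMod f) (hpat : IsPat p f a i P) (Q : ℕ → GL (Fin 2) k)
    (hQ : ∀ t, P t = true → Pm P t = true → Q t = Q (t - 1))
    (y : ZMod f → Mat k) (hy : ∀ j, MGE (y j) 0) (z : ZMod f → Matrix (Fin 2) (Fin 2) k) :
    ∃ (c : ZMod f → Mat k) (l w x : ℕ → k) (s : k), (∀ j, MGE (c j) 0) ∧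
      (∀ t, P t = true → Pm P t = true → l t = l (t - 1)) ∧
      ∀ j, y j * MB p P f (a j) Q (j - i).val +
          MB p P f (a j) Q (j - i).val * (z j).map HahnSeries.C =
        c j * MB p P f (a j) Q (j - i).val -
          MB p P f (a j) Q (j - i).val * (c (j - 1)).map (phi k p) +
          DK p P f (a j) Q l s w x (j - i).val := by
  have hzG : ∀ j, MGE ((z j).map (HahnSeries.C : k → LaurentSeries k)) 0 := by
    intro j r s v hv
    show ((HahnSeries.C (z j r s) : LaurentSeries k)).coeff v = 0
    rw [HahnSeries.C_apply, coeff_single_of_ne (by omega)]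
  have hzphi : ∀ j, ((z j).map (HahnSeries.C : k → LaurentSeries k)).map (phi k p) =
      (z j).map HahnSeries.C := by
    intro j
    refine Matrix.ext fun r s => ?_
    exact phi_C (p := p) _
  obtain ⟨c, l, w, x, s, hc, hl, h⟩ := tangent_MB0 (a := a) hp hk hP ha i hpat Q hQ
    (fun j => y j + (z (j + 1)).map HahnSeries.C) (fun j => (hy j).add' (hzG _))
  refine ⟨fun j => c j - (z (j + 1)).map HahnSeries.C, l, w, x, s, fun j => ?_, hl, fun j => ?_⟩
  · intro r s v hv
    show (c j r s - (HahnSeries.C (z (j + 1) r s) : LaurentSeries k)).coeff v = 0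
    rw [coeff_sub, hc j r s v hv, HahnSeries.C_apply, coeff_single_of_ne (by omega), sub_zero]
  · have h1 := h j
    have e1 : (c (j - 1) - (z (j - 1 + 1)).map (HahnSeries.C : k → LaurentSeries k)).map
        (phi k p) = (c (j - 1)).map (phi k p) - (z j).map HahnSeries.C := by
      rw [sub_add_cancel]
      conv_rhs => rw [← hzphi j]
      refine Matrix.ext fun r s => ?_
      exact map_sub (phi k p) _ _
    rw [Matrix.add_mul] at h1
    have h2 := eq_sub_of_add_eq h1
    show _ = (c j - (z (j + 1)).map HahnSeries.C) * _ - _ * (c (j - 1) -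
      (z (j - 1 + 1)).map HahnSeries.C).map (phi k p) + _
    rw [e1, Matrix.sub_mul, Matrix.mul_sub, h2]
    abel

end

end Pool.Agent.Lib.MP_74d0c9_nt
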