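import Pool.Agent.Lib.MP_74d0c9_nt.XK2
import Pool.Agent.Lib.MP_74d0c9_nt.XK3
import Pool.Agent.Lib.MP_74d0c9_nt.ULoc

/-! Functoriality of the Kisin modules of a pattern, and the residual point. -/

set_option autoImplicit false

namespace Pool.Agent.Lib.MP_74d0c9_nt

open HahnSeries IsLocalRing

universe u

section
variable {A : Type u} [CommRing A] {p f : ℕ} [Fact p.Prime] {F F' F'' G H : ZMod f → Mat A}

theorem IsHom.comp (h : IsHom p F F' G) (h' : IsHom p F' F'' H) :
    IsHom p F F'' fun j => H j * G j := by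
  intro j
  have e1 := h j
  have e2 := h' j
  show H j * G j * F j = F'' j * (H (j - 1) * G (j - 1)).map (phi A p)
  rw [Matrix.map_mul, Matrix.mul_assoc, e1, ← Matrix.mul_assoc, e2, Matrix.mul_assoc]

theorem IsHom.inv {G : ZMod f → GL (Fin 2) (LaurentSeries A)}
    (h : IsHom p F F' fun j => (G j).1) : IsHom p F' F fun j => ((G j)⁻¹).1 := by
  intro j
  have e1 : (G j).1 * F j = F' j * (glphi p (G (j - 1))).1 := h j
  have e2 : ((G (j - 1))⁻¹).1.map (phi A p) = ((glphi p (G (j - 1)))⁻¹).1 := by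
    have : glphi p ((G (j - 1))⁻¹) = (glphi p (G (j - 1)))⁻¹ := map_inv _ _
    rw [← this]
    rfl
  show ((G j)⁻¹).1 * F' j = F j * ((G (j - 1))⁻¹).1.map (phi A p)
  rw [e2]
  have e3 : F' j = (G j).1 * F j * ((glphi p (G (j - 1)))⁻¹).1 := by
    rw [e1, Matrix.mul_assoc, ← Units.val_mul, mul_inv_cancel, Units.val_one, Matrix.mul_one]
  rw [e3, ← Matrix.mul_assoc, ← Matrix.mul_assoc, ← Units.val_mul, inv_mul_cancel, Units.val_one,
    Matrix.one_mul]

theorem IsHom.comp3 {F0 F1 F2 F3 : ZMod f → Mat A} {T0 G T2 : ZMod f → GL (Fin 2) (LaurentSeries A)}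
    (h0 : IsHom p F1 F0 fun j => (T0 j).1) (h1 : IsHom p F2 F1 fun j => (G j).1)
    (h2 : IsHom p F2 F3 fun j => (T2 j).1) :
    IsHom p F0 F3 fun j => (T2 j * ((G j)⁻¹ * (T0 j)⁻¹)).1 := by
  have g0 : IsHom p F0 F1 fun j => ((T0 j)⁻¹).1 := h0.inv
  have g1 : IsHom p F1 F2 fun j => ((G j)⁻¹).1 := h1.inv
  have g2 : IsHom p F0 F2 fun j => ((G j)⁻¹).1 * ((T0 j)⁻¹).1 := g0.comp g1
  have g3 : IsHom p F0 F3 fun j => (T2 j).1 * (((G j)⁻¹).1 * ((T0 j)⁻¹).1) := g2.comp h2
  exact g3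

variable {B : Type u} [CommRing B] (π : A →+* B)

theorem IsHom.lmap (h : IsHom p F F' G) : IsHom p (fun j => (F j).map (lmap π))
    (fun j => (F' j).map (lmap π)) (fun j => (G j).map (lmap π)) := by
  intro j
  show (G j).map _ * (F j).map _ = (F' j).map _ * ((G (j - 1)).map _).map (phi B p)
  have e1 : ((G (j - 1)).map (Pool.Agent.Lib.MP_74d0c9_nt.lmap π)).map (phi B p) =
      ((G (j - 1)).map (phi A p)).map (Pool.Agent.Lib.MP_74d0c9_nt.lmap π) :=
    Matrix.ext fun r s => (lmap_phi p π (G (j - 1) r s)).symm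
  rw [e1, ← Matrix.map_mul, ← Matrix.map_mul, h j]

theorem lmap_ps (x : PowerSeries A) : lmap π (ps x) = ps (PowerSeries.map π x) := by
  ext v
  rw [lmap_coeff]
  rcases lt_or_ge v 0 with h | h
  · rw [coeff_ps_neg _ h, coeff_ps_neg _ h, map_zero]
  · obtain ⟨n, rfl⟩ := Int.eq_ofNat_of_zero_le h
    rw [coeff_ps, coeff_ps, PowerSeries.coeff_map]

theorem gx_lmap (g : GL (Fin 2) (PowerSeries A)) :
    (gx g).map (lmap π) = gx (Matrix.GeneralLinearGroup.map (PowerSeries.map π) g) :=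
  Matrix.ext fun r s => lmap_ps π (g.1 r s)

theorem gz_lmap (Q : GL (Fin 2) A) :
    (gz Q).map (lmap π) = gz (Matrix.GeneralLinearGroup.map π Q) :=
  Matrix.ext fun r s => lmap_C π (Q.1 r s)

theorem gz_lmap_inv (Q : GL (Fin 2) A) :
    (gz Q⁻¹).map (lmap π) = gz (Matrix.GeneralLinearGroup.map π Q)⁻¹ := by
  rw [gz_lmap, map_inv]

theorem du_lmap (b : ℤ) : (du b : Mat A).map (lmap π) = du b := by
  rw [du_two, du_two, mat2_map, lmap_un, map_zero, map_one]

theorem frob_baseChange (a : ZMod f → ℕ) (M : KisinModule f A) (j : ZMod f) :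
    (M.baseChange π).frob a j = (M.frob a j).map (lmap π) := by
  have e1 : M.frob a j = gx (M.X j) * du (a j) * gz (M.Z j) := rfl
  have e2 : (M.baseChange π).frob a j = gx (Matrix.GeneralLinearGroup.map (PowerSeries.map π)
      (M.X j)) * du (a j) * gz (Matrix.GeneralLinearGroup.map π (M.Z j)) := rfl
  rw [e1, e2, Matrix.map_mul, Matrix.map_mul, gx_lmap, gz_lmap, du_lmap]

theorem tl0_lmap : (tl (0 : A)).1.map (lmap π) = (tl (0 : B)).1 := by
  rw [tl0_eq, tl0_eq, mat2_map, lmap_un, map_zero, map_one]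

theorem TK_lmap (P : ℕ → Bool) (Q : ℕ → GL (Fin 2) A) (t : ℕ) :
    (TK P Q t).1.map (lmap π) =
      (TK P (fun t => Matrix.GeneralLinearGroup.map π (Q t)) t).1 := by
  unfold TK
  split_ifs
  · show (gz (Q t) * (tl (0 : A)).1).map (lmap π) =
      gz (Matrix.GeneralLinearGroup.map π (Q t)) * (tl (0 : B)).1
    rw [Matrix.map_mul, gz_lmap, tl0_lmap]
  · exact map_one_mat π

theorem MB_lmap (P : ℕ → Bool) (b : ℕ) (Q : ℕ → GL (Fin 2) A) (t : ℕ) :
    (MB p P f b Q t).map (lmap π) =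
      MB p P f b (fun t => Matrix.GeneralLinearGroup.map π (Q t)) t := by
  unfold MB
  split_ifs
  · rw [mat2_map, map_zero, map_one, lmap_un]
  · rw [Matrix.map_mul, gz_lmap_inv, mat2_map, map_zero, map_one, lmap_un]
  · rw [Matrix.map_mul, gz_lmap, mat2_map, map_zero, map_one, lmap_un]
  · exact du_lmap π _
  · rw [mat2_map, map_zero, map_one, lmap_un]

end

section
variable {k : Type u} [Field k]

/-- the residue map of a test algebra -/
theorem exists_resmap {A : Type u} [CommRing A] [Algebra k A] [IsLocalRing A] (hA : IsTest k A) :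
    ∃ π : A →+* k, (∀ c, π (algebraMap k A c) = c) ∧ ∀ x, π x = 0 ↔ x ∈ maximalIdeal A := by
  have hinj : Function.Injective (algebraMap k (ResidueField A)) :=
    (algebraMap k (ResidueField A)).injective
  let e : k ≃+* ResidueField A := RingEquiv.ofBijective (algebraMap k (ResidueField A))
    ⟨hinj, hA.res⟩
  refine ⟨e.symm.toRingHom.comp (residue A), fun c => ?_, fun x => ?_⟩
  · show e.symm (residue A (algebraMap k A c)) = c
    rw [RingEquiv.symm_apply_eq]
    rfl
  · show e.symm (residue A x) = 0 ↔ _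
    rw [map_eq_zero_iff _ e.symm.injective]
    exact Ideal.Quotient.eq_zero_iff_mem

end

end Pool.Agent.Lib.MP_74d0c9_nt
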