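import Pool.Agent.Lib.MP_74d0c9_nt.XFun
import Pool.Agent.Lib.MP_74d0c9_nt.Unique
import Pool.Agent.Lib.MP_74d0c9_nt.Irr

/-! The points of the residual Kisin variety. -/

set_option autoImplicit false

namespace Pool.Agent.Lib.MP_74d0c9_nt

open HahnSeries

universe u

section
variable {k : Type u} [Field k] {p : ℕ} [Fact p.Prime]

theorem GE_one' : GE (1 : LaurentSeries k) 0 := by
  intro v hv
  rw [← HahnSeries.single_zero_one, coeff_single_of_ne (by omega)]

/-- the Frobenius of an integral matrix is constant modulo `u ^ p` -/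
theorem phi_gx_const (U : GL (Fin 2) (PowerSeries k)) : ∃ U0 : GL (Fin 2) k,
    MGE ((gx U).map (phi k p) - gz U0) p := by
  obtain ⟨h0, hh0⟩ : ∃ h0 : GL (Fin 2) k,
      h0 = Matrix.GeneralLinearGroup.map (PowerSeries.constantCoeff (R := k)) U := ⟨_, rfl⟩
  have h0v : ∀ r s, h0.1 r s = PowerSeries.constantCoeff (U.1 r s) := by
    intro r s
    rw [hh0]
    rfl
  have h1 : MGE (gx U - gz h0) 1 := by
    intro r s v hv
    show (gx U r s - gz h0 r s).coeff v = 0
    rw [coeff_sub]
    have e1 : gz h0 r s = HahnSeries.C (h0.1 r s) := rfl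
    have e2 : gx U r s = ps (U.1 r s) := rfl
    rw [e1, e2, HahnSeries.C_apply]
    rcases lt_or_ge v 0 with hv0 | hv0
    · rw [coeff_ps_neg _ hv0, coeff_single_of_ne (by omega), sub_zero]
    · rw [show v = 0 by omega, coeff_ps_zero, coeff_single_same, h0v, sub_self]
  refine ⟨h0, ?_⟩
  have e1 : (gx U).map (phi k p) - gz h0 = (gx U - gz h0).map (phi k p) := by
    have e2 := phi_gz p h0
    conv_lhs => rw [← e2]
    refine Matrix.ext fun r s => ?_
    exact (map_sub (phi k p) _ _).symm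
  rw [e1]
  intro r s
  have h3 := phi_GE p (h1 r s)
  rw [mul_one] at h3
  exact h3

/-- a matrix which is constant and invertible modulo `u ^ p` -/
theorem const_mod (U : GL (Fin 2) (PowerSeries k)) (Z : GL (Fin 2) k) : ∃ K0 : GL (Fin 2) k,
    MGE ((gx U).map (phi k p) * gz Z - gz K0) p := by
  obtain ⟨U0, h⟩ := phi_gx_const (p := p) U
  refine ⟨U0 * Z, ?_⟩
  rw [gz_mul, ← Matrix.sub_mul]
  have h1 := (h.mul (gz_MGE Z)).1
  exact h1.mono (by omega)

/-- the start of a word -/
theorem start_step (hp : 1 ≤ p) (T : GL (Fin 2) (LaurentSeries k)) (U X : GL (Fin 2) (PowerSeries k))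
    (Z : GL (Fin 2) k)
    (h : T.1 * (gx X * du 1 * gz Z) = (gx U).map (phi k p)) :
    ∃ (g : GL (Fin 2) (PowerSeries k)) (Q : GL (Fin 2) k),
      T.1 * gx g = (gc Q * tl 0).1 := by
  obtain ⟨Q, hQ⟩ := const_mod (p := p) U Z⁻¹
  obtain ⟨V, hV⟩ : ∃ V : Mat k, V = gz Q⁻¹ * ((gx U).map (phi k p) * gz Z⁻¹ - gz Q) := ⟨_, rfl⟩
  have hVp : MGE V 1 := by
    rw [hV]
    have h3 := ((gz_MGE Q⁻¹).mul hQ).1
    exact h3.mono (by omega)
  have hK : (gx U).map (phi k p) * gz Z⁻¹ = gz Q * (1 + V) := by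
    rw [hV, Matrix.mul_add, Matrix.mul_one, ← Matrix.mul_assoc, gz_mul_inv, Matrix.one_mul]
    abel
  obtain ⟨G, hG⟩ : ∃ G : Mat k, G = !![1 + V 0 0, un 1 * V 0 1; un (-1) * V 1 0, 1 + V 1 1] :=
    ⟨_, rfl⟩
  have h1V : (1 + V : Mat k) = !![1 + V 0 0, V 0 1; V 1 0, 1 + V 1 1] := by
    rw [Matrix.one_fin_two]
    refine Matrix.ext fun r s => ?_
    rw [Matrix.add_apply]
    fin_cases r <;> fin_cases s
    · rfl
    · exact zero_add _
    · exact zero_add _
    · rfl
  have hGd : (1 + V) * !![un (-1), 0; 0, 1] = (tl (0 : k)).1 * G := by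
    rw [h1V, hG, tl0_eq, Matrix.mul_fin_two, Matrix.mul_fin_two]
    apply mat2_congr
    · ring
    · linear_combination -(V 0 1) * un_neg_mul (k := k) 1
    · ring
    · ring
  have hGi : Integral G := by
    rw [hG]
    exact MGE_mk (GE_one'.add ((hVp 0 0).mono (by omega))) (((hVp 0 1).un_mul 1).mono (by omega))
      (((hVp 1 0).un_mul (-1)).mono (by omega)) (GE_one'.add ((hVp 1 1).mono (by omega)))
  have hdet : IsUnit (G.det.coeff 0) := by
    have e2 : G.det = 1 + (V 0 0 + V 1 1 + (V 0 0 * V 1 1 - V 0 1 * V 1 0)) := by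
      rw [hG, Matrix.det_fin_two_of]
      linear_combination -(V 0 1) * (V 1 0) * un_mul_neg (k := k) 1
    have e3 : GE (V 0 0 + V 1 1 + (V 0 0 * V 1 1 - V 0 1 * V 1 0)) 1 := by
      have e4 := ((hVp 0 0).mul (hVp 1 1)).1
      have e5 := ((hVp 0 1).mul (hVp 1 0)).1
      intro v hv
      rw [coeff_add, coeff_add, coeff_sub, hVp 0 0 v (by omega), hVp 1 1 v (by omega),
        e4 v (by omega), e5 v (by omega)]
      simp
    rw [e2, coeff_add, e3 0 (by omega), add_zero, ← HahnSeries.single_zero_one,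
      coeff_single_same]
    exact isUnit_one
  obtain ⟨n, hn⟩ := gx_of_integral hGi hdet
  refine ⟨X * n⁻¹, Q, ?_⟩
  have hdu : (du 1 : Mat k) * !![un (-1), 0; 0, 1] = 1 := by
    rw [du_two, Matrix.mul_fin_two, Matrix.one_fin_two]
    apply mat2_congr
    · linear_combination un_mul_neg (k := k) 1
    · ring
    · ring
    · ring
  have e1 : T.1 * gx X = (gx U).map (phi k p) * gz Z⁻¹ * !![un (-1), 0; 0, 1] := by
    rw [← h]
    calc T.1 * gx X = T.1 * gx X * (du 1 * (gz Z * gz Z⁻¹) * !![un (-1), 0; 0, 1]) := by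
          rw [gz_mul_inv, Matrix.mul_one, hdu, Matrix.mul_one]
      _ = _ := by simp only [Matrix.mul_assoc]
  rw [gx_mul, ← Matrix.mul_assoc, e1, hK, Matrix.mul_assoc (gz Q), hGd, hn]
  have e2 : gx n * gx n⁻¹ = 1 := by rw [← gx_mul, mul_inv_cancel, gx_one]
  show gz Q * ((tl (0 : k)).1 * gx n) * gx n⁻¹ = gz Q * (tl (0 : k)).1
  rw [Matrix.mul_assoc, Matrix.mul_assoc, e2, Matrix.mul_one]

/-- the middle of a word -/
theorem mid_step (hp : 2 ≤ p) (T : GL (Fin 2) (LaurentSeries k)) (U X : GL (Fin 2) (PowerSeries k))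
    (Z Q : GL (Fin 2) k) (hT : MGE T.1 (1 - p))
    (h : T.1 * (gx X * du (p - 1) * gz Z) = !![un (p - 1), 0; 0, un (p - 1)] *
      ((gc Q * tl 0).1 * gx U).map (phi k p)) :
    ∃ g : GL (Fin 2) (PowerSeries k), T.1 * gx g = (gc Q * tl 0).1 := by
  obtain ⟨K0, hK0⟩ := const_mod (p := p) U Z⁻¹
  obtain ⟨K, hK⟩ : ∃ K : Mat k, K = (gx U).map (phi k p) * gz Z⁻¹ := ⟨_, rfl⟩
  rw [← hK] at hK0
  have hKi : MGE K 0 := by
    intro r s v hv
    have e1 := hK0 r s v (by omega)
    have e2 : (K - gz K0) r s = K r s - gz K0 r s := rfl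
    rw [e2, coeff_sub, gz_MGE K0 r s v hv, sub_zero] at e1
    exact e1
  have hKc : ∀ r s, (K r s).coeff 0 = K0.1 r s := by
    intro r s
    have e1 := hK0 r s 0 (by omega)
    have e2 : (K - gz K0) r s = K r s - HahnSeries.C (K0.1 r s) := rfl
    rw [e2, coeff_sub, HahnSeries.C_apply, coeff_single_same] at e1
    exact sub_eq_zero.1 e1
  have hdu : (du (p - 1) : Mat k) * !![un (1 - p), 0; 0, 1] = 1 := by
    rw [du_two, Matrix.mul_fin_two, Matrix.one_fin_two]
    have e1 : (un ((p : ℤ) - 1) : LaurentSeries k) * un (1 - p) = 1 := by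
      rw [un_mul, show (p : ℤ) - 1 + (1 - p) = 0 by ring, un_zero]
    apply mat2_congr
    · linear_combination e1
    · ring
    · ring
    · ring
  have e1 : T.1 * gx X = gz Q * (!![un (-p) * K 0 0, un (-1) * K 0 1; K 1 0,
      un (p - 1) * K 1 1]) := by
    have e2 : T.1 * gx X = T.1 * (gx X * du (p - 1) * gz Z) * gz Z⁻¹ * !![un (1 - p), 0; 0, 1] := by
      calc T.1 * gx X = T.1 * gx X * (du (p - 1) * (gz Z * gz Z⁻¹) * !![un (1 - p), 0; 0, 1]) := by
            rw [gz_mul_inv, Matrix.mul_one, hdu, Matrix.mul_one]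
        _ = _ := by simp only [Matrix.mul_assoc]
    have e3 : ((gc Q * tl 0).1 * gx U).map (phi k p) =
        gz Q * (!![un (-p), 0; 0, 1] * (gx U).map (phi k p)) := by
      have : (gc Q * tl 0).1 = gz Q * (tl (0 : k)).1 := rfl
      rw [this, Matrix.map_mul, Matrix.map_mul, phi_gz, tl0_phi, Matrix.mul_assoc]
    have e4 : (!![un (p - 1), 0; 0, un (p - 1)] : Mat k) * (gz Q * (!![un (-p), 0; 0, 1] *
        (gx U).map (phi k p))) = gz Q * (!![un (p - 1), 0; 0, un (p - 1)] *
          (!![un (-p), 0; 0, 1] * (gx U).map (phi k p))) := by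
      have e5 : (!![un (p - 1), 0; 0, un (p - 1)] : Mat k) = (un ((p : ℤ) - 1) : LaurentSeries k) •
          (1 : Mat k) := by
        rw [Matrix.one_fin_two]
        refine Matrix.ext fun r s => ?_
        rw [Matrix.smul_apply, smul_eq_mul]
        fin_cases r <;> fin_cases s
        · exact (mul_one _).symm
        · exact (mul_zero _).symm
        · exact (mul_zero _).symm
        · exact (mul_one _).symm
      rw [e5, smul_mul', smul_mul', Matrix.one_mul, Matrix.one_mul, mul_smul']
    rw [e2, h, e3, e4]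
    have e6 : gz Q * (!![un (p - 1), 0; 0, un (p - 1)] * (!![un (-p), 0; 0, 1] *
        (gx U).map (phi k p))) * gz Z⁻¹ * !![un (1 - p), 0; 0, 1] =
        gz Q * (!![un (p - 1), 0; 0, un (p - 1)] * (!![un (-p), 0; 0, 1] * (K *
          !![un (1 - p), 0; 0, 1]))) := by
      rw [hK]
      simp only [Matrix.mul_assoc]
    have e9 : K * !![un (1 - p), 0; 0, 1] = !![K 0 0 * un (1 - p), K 0 1;
        K 1 0 * un (1 - p), K 1 1] := by
      conv_lhs => rw [mat_eta K]
      rw [Matrix.mul_fin_two]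
      apply mat2_congr <;> ring
    rw [e6, e9]
    congr 1
    rw [Matrix.mul_fin_two, Matrix.mul_fin_two]
    have e7 : (un ((p : ℤ) - 1) : LaurentSeries k) * un (1 - p) = 1 := by
      rw [un_mul, show (p : ℤ) - 1 + (1 - p) = 0 by ring, un_zero]
    have e8 : (un ((p : ℤ) - 1) : LaurentSeries k) * un (-p) = un (-1) := by
      rw [un_mul]; congr 1; ring
    apply mat2_congr
    · linear_combination (un (-p) * K 0 0) * e7
    · linear_combination (K 0 1) * e8
    · linear_combination (K 1 0) * e7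
    · ring
  -- the pole
  have h00 : K0.1 0 0 = 0 := by
    have e2 : gz Q⁻¹ * (T.1 * gx X) = !![un (-p) * K 0 0, un (-1) * K 0 1; K 1 0,
        un (p - 1) * K 1 1] := by
      rw [e1, ← Matrix.mul_assoc, gz_inv_mul, Matrix.one_mul]
    have e3 := ((gz_MGE Q⁻¹).mul (hT.mul (gx_MGE X)).1).1
    rw [e2] at e3
    have e4 : GE (un (-p) * K 0 0) (0 + (1 - p + 0)) := e3 0 0
    have e5 := e4 (-p) (by omega)
    have e6 : (un (-p) * K 0 0).coeff (-(p : ℤ)) = (K 0 0).coeff 0 := by
      show (single (-(p : ℤ)) (1 : k) * K 0 0).coeff (-(p : ℤ)) = _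
      rw [coeff_single_mul, one_mul, sub_self]
    rw [e6, hKc] at e5
    exact e5
  have hK00 : GE (K 0 0) p := by
    intro v hv
    have e2 := hK0 0 0 v hv
    have e3 : (K - gz K0) 0 0 = K 0 0 - HahnSeries.C (K0.1 0 0) := rfl
    rw [e3, h00, map_zero, sub_zero] at e2
    exact e2
  obtain ⟨N, hN⟩ : ∃ N : Mat k, N = !![un (1 - p) * K 0 0, K 0 1; K 1 0, un (p - 1) * K 1 1] :=
    ⟨_, rfl⟩
  have hNi : Integral N := by
    rw [hN]
    exact MGE_mk ((hK00.un_mul _).mono (by omega)) (hKi 0 1) (hKi 1 0)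
      (((hKi 1 1).un_mul _).mono (by omega))
  have hdet : IsUnit (N.det.coeff 0) := by
    have e2 : N.det = un 0 * (K 0 0 * K 1 1) - K 0 1 * K 1 0 := by
      rw [hN, Matrix.det_fin_two_of]
      have e7 : (un ((p : ℤ) - 1) : LaurentSeries k) * un (1 - p) = un 0 := by
        rw [un_mul, show (p : ℤ) - 1 + (1 - p) = 0 by ring]
      linear_combination (K 0 0 * K 1 1) * e7
    have e3 : (K 0 0 * K 1 1).coeff 0 = 0 := by
      have := (hK00.mul (hKi 1 1)).1
      exact this 0 (by omega)
    have e4 : (K 0 1 * K 1 0).coeff 0 = K0.1 0 1 * K0.1 1 0 := by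
      have := ((hKi 0 1).mul (hKi 1 0)).2
      rw [add_zero] at this
      rw [this, hKc, hKc]
    rw [e2, un_zero, one_mul, coeff_sub, e3, e4, zero_sub]
    have e5 : IsUnit K0.1.det := (Matrix.isUnit_iff_isUnit_det _).1 K0.isUnit
    rw [Matrix.det_fin_two, h00, zero_mul, zero_sub] at e5
    exact e5
  obtain ⟨n, hn⟩ := gx_of_integral hNi hdet
  refine ⟨X * n⁻¹, ?_⟩
  have e2 : gz Q * (!![un (-p) * K 0 0, un (-1) * K 0 1; K 1 0, un (p - 1) * K 1 1]) =
      (gc Q * tl 0).1 * gx n := by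
    have : (gc Q * tl 0).1 = gz Q * (tl (0 : k)).1 := rfl
    rw [this, Matrix.mul_assoc, ← hn, hN, tl0_eq, Matrix.mul_fin_two]
    congr 1
    have e8 : (un (-1) : LaurentSeries k) * un (1 - p) = un (-p) := by
      rw [un_mul]; congr 1; ring
    apply mat2_congr
    · linear_combination -(K 0 0) * e8
    · ring
    · ring
    · ring
  have e3 : gx n * gx n⁻¹ = 1 := by rw [← gx_mul, mul_inv_cancel, gx_one]
  rw [gx_mul, ← Matrix.mul_assoc, e1, e2, Matrix.mul_assoc, e3, Matrix.mul_one]


theorem order_zero {x : LaurentSeries k} (h : GE x 0) (h0 : x.coeff 0 ≠ 0) : x.order = 0 := by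
  have h1 : x.order ≤ 0 := order_le_of_coeff_ne_zero h0
  have h2 : x ≠ 0 := by
    rintro rfl
    exact h0 rfl
  by_contra h3
  have h4 : x.order < 0 := lt_of_le_of_ne h1 h3
  exact coeff_order_eq_zero.not.2 h2 (h _ h4)

theorem order_det_gx (X : GL (Fin 2) (PowerSeries k)) :
    (gx X).det.order = 0 ∧ (gx X).det ≠ 0 := by
  have h1 : (gx X).det = ps X.1.det := (RingHom.map_det (ps : PowerSeries k →+* _) _).symm
  have h2 : IsUnit X.1.det := (Matrix.isUnit_iff_isUnit_det _).1 X.isUnit
  have h3 : (gx X).det.coeff 0 ≠ 0 := by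
    rw [h1, coeff_ps_zero]
    exact (PowerSeries.isUnit_iff_constantCoeff.1 h2).ne_zero
  refine ⟨order_zero ?_ h3, ?_⟩
  · rw [h1]
    exact GE_ps _
  · intro h
    rw [h] at h3
    exact h3 rfl

theorem order_det_gz (Z : GL (Fin 2) k) :
    (gz Z).det.order = 0 ∧ (gz Z).det ≠ 0 := by
  have h1 : (gz Z).det = HahnSeries.C Z.1.det :=
    (RingHom.map_det (HahnSeries.C : k →+* LaurentSeries k) _).symm
  have h2 : IsUnit Z.1.det := (Matrix.isUnit_iff_isUnit_det _).1 Z.isUnit
  have h3 : (gz Z).det.coeff 0 ≠ 0 := by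
    rw [h1, HahnSeries.C_apply, coeff_single_same]
    exact h2.ne_zero
  refine ⟨order_zero ?_ h3, ?_⟩
  · rw [h1]
    intro v hv
    rw [HahnSeries.C_apply, coeff_single_of_ne (by omega)]
  · intro h
    rw [h] at h3
    exact h3 rfl

variable {f : ℕ} [NeZero f] {a : ZMod f → ℕ}

/-- an isomorphism of étale `φ`-modules between Kisin modules of the same shape has determinant of
order zero -/
theorem order_det_iso (M N : KisinModule f k) (G : ZMod f → GL (Fin 2) (LaurentSeries k))
    (hG : IsHom p (M.frob a) (N.frob a) fun j => (G j).1) (j : ZMod f) :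
    (G j).1.det.order = 0 ∧ (G j).1.det ≠ 0 := by
  have hne : ∀ j, (G j).1.det ≠ 0 := fun j =>
    ((Matrix.isUnit_iff_isUnit_det _).1 (G j).isUnit).ne_zero
  refine ⟨?_, hne j⟩
  have hs : ∀ n : ℤ, (single n (1 : k) : LaurentSeries k).order = n ∧
      (single n (1 : k) : LaurentSeries k) ≠ 0 := by
    intro n
    exact ⟨order_single one_ne_zero, single_ne_zero one_ne_zero⟩
  have hst : ∀ j, (G j).1.det.order = p * (G (j - 1)).1.det.order := by
    intro j
    have h1 := congrArg Matrix.det (hG j)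
    rw [Matrix.det_mul, Matrix.det_mul, det_frob, det_frob] at h1
    have h2 : ((G (j - 1)).1.map (phi k p)).det = phi k p (G (j - 1)).1.det :=
      (RingHom.map_det (phi k p) _).symm
    rw [h2] at h1
    have h3 := congrArg HahnSeries.order h1
    have o1 := order_det_gx (M.X j)
    have o2 := order_det_gz (M.Z j)
    have o3 := order_det_gx (N.X j)
    have o4 := order_det_gz (N.Z j)
    have o5 := hs (a j : ℤ)
    have o6 := order_phi (p := p) (hne (j - 1))
    have o7 := phi_ne_zero (p := p) (hne (j - 1))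
    rw [order_mul (hne j) (mul_ne_zero o5.2 (mul_ne_zero o1.2 o2.2)),
      order_mul o5.2 (mul_ne_zero o1.2 o2.2), order_mul o1.2 o2.2,
      order_mul (mul_ne_zero o5.2 (mul_ne_zero o3.2 o4.2)) o7,
      order_mul o5.2 (mul_ne_zero o3.2 o4.2), order_mul o3.2 o4.2, o1.1, o2.1, o3.1, o4.1, o5.1,
      o6] at h3
    omega
  have hit : ∀ n : ℕ, (G (j + n)).1.det.order = p ^ n * (G j).1.det.order := by
    intro n
    induction n with
    | zero => simp
    | succ n ih =>
      have e : j + ((n + 1 : ℕ) : ZMod f) - 1 = j + n := by push_cast; ring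
      rw [hst, e, ih, pow_succ]
      ring
  have h5 := hit f
  rw [ZMod.natCast_self, add_zero] at h5
  have hp : (2 : ℤ) ≤ p := two_le_p
  have hf : f ≠ 0 := NeZero.ne f
  have h6 : (2 : ℤ) ≤ (p : ℤ) ^ f := by
    calc (2 : ℤ) ≤ p := hp
      _ = (p : ℤ) ^ 1 := (pow_one _).symm
      _ ≤ (p : ℤ) ^ f := pow_le_pow_right₀ (by omega) (by omega)
  have h7 : ((p : ℤ) ^ f - 1) * (G j).1.det.order = 0 := by linear_combination -h5
  rcases mul_eq_zero.1 h7 with h8 | h8
  · omega
  · exact h8

variable {P : ℕ → Bool}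

/-- the standard Kisin module -/
noncomputable def stdK (k : Type u) [Field k] (P : ℕ → Bool) {f : ℕ} (i : ZMod f) :
    KisinModule f k where
  X j := Matrix.GeneralLinearGroup.map PowerSeries.C (xnQ P f (fun _ => 1) (j - i).val)
  Z j := znQ P (fun _ => 1) (j - i).val

theorem stdK_hom (hP : GoodP P f) (i : ZMod f) (hpat : IsPat p f a i P) :
    IsHom p ((stdK k P i).frob a) (fun j => (Bp p P f (a j) (j - i).val : Mat k))
      fun j => (TK P (fun _ => 1) (j - i).val).1 := by
  intro j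
  have h1 := (step_checkQ' (A := k) (p := p) (a := a) hP i hpat (fun _ => 1)
    (fun _ _ _ => rfl) j).2.2
  have h2 : (stdK k P i).frob a j = gz (xnQ P f (fun _ => 1) (j - i).val) * du (a j) *
      gz (znQ P (fun _ => 1) (j - i).val) := by
    have h3 : (stdK k P i).frob a j = ((xnQ P f (fun _ => 1) (j - i).val).1.map
      PowerSeries.C).map ps * du (a j) * gz (znQ P (fun _ => 1) (j - i).val) := rfl
    rw [h3]
    congr 2
    refine Matrix.ext fun r s => ?_
    exact ofPowerSeries_C _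
  dsimp only
  rw [h2]
  exact h1

theorem stdK_Y (i : ZMod f) (t : ℕ) (ht : t + 1 < f) (h1 : P t = false) (h2 : Pm P t = false) :
    (stdK k P i).Y (i + (t : ZMod f)) 1 1 = 1 := by
  have hnt : ∀ x : Bool, x = false → ¬ x = true := by
    intro x hx
    rw [hx]
    exact fun h => Bool.noConfusion h
  have e1 : (i + (t : ZMod f) - i).val = t := posv i (by omega)
  have e2 : (i + (t : ZMod f) + 1 - i).val = t + 1 := by
    have := posv i ht
    have e : i + (t : ZMod f) + 1 = i + ((t + 1 : ℕ) : ZMod f) := by push_cast; ring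
    rw [e]
    exact this
  have e3 : (xnQ P f (fun _ => (1 : GL (Fin 2) k)) t) = 1 := by
    unfold xnQ
    rw [if_neg (hnt _ h1), if_neg (hnt _ h2), if_pos (by omega)]
  have e4 : (znQ P (fun _ => (1 : GL (Fin 2) k)) (t + 1)) = 1 := by
    unfold znQ
    have h3 : ¬ Pm P (t + 1) = true := hnt _ h1
    rw [if_neg h3, if_neg h3, inv_one, ite_self]
  unfold KisinModule.Y stdK
  dsimp only
  rw [e1, e2, e3, e4, map_one, Units.val_one, Matrix.one_mul, Units.val_one,
    Matrix.map_one _ (map_zero _) (map_one _)]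
  exact Matrix.one_apply_eq _

/-- K0: the points of the residual Kisin variety. -/
theorem residual_point (hp : 5 ≤ p) (hP : GoodP P f)
    (ha : ∀ i, 1 ≤ a i ∧ a i ≤ p) (i : ZMod f) (hpat : IsPat p f a i P) (M : KisinModule f k)
    (T : ZMod f → GL (Fin 2) (LaurentSeries k))
    (hT : IsHom p (M.frob a) (fun j => (Bp p P f (a j) (j - i).val : Mat k)) fun j => (T j).1) :
    ∃ (g : ZMod f → GL (Fin 2) (PowerSeries k)) (Q : ℕ → GL (Fin 2) k),
      (∀ t, P t = true → Pm P t = true → Q t = Q (t - 1)) ∧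
      ∀ j, (T j).1 * gx (g j) = (TK P Q (j - i).val).1 := by
  have hf3 := hP.three_le
  have hp' : (5 : ℤ) ≤ p := by exact_mod_cast hp
  have hnt : ∀ x : Bool, x = false → ¬ x = true := by
    intro x hx
    rw [hx]
    exact fun h => Bool.noConfusion h
  have hPf : ∀ t, P t = true ∨ P t = false := fun t => by cases P t <;> simp
  have hPmf : ∀ t, Pm P t = true ∨ Pm P t = false := fun t => by cases Pm P t <;> simp
  -- the morphism from the standard Kisin module
  have hM0 := stdK_hom (k := k) hP i hpat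
  obtain ⟨G, hG⟩ : ∃ G : ZMod f → GL (Fin 2) (LaurentSeries k),
      G = fun j => (T j)⁻¹ * TK P (fun _ => 1) (j - i).val := ⟨_, rfl⟩
  have hG1 : IsHom p ((stdK k P i).frob a) (M.frob a) fun j => (G j).1 := by
    have h1 := hM0.comp hT.inv
    rw [hG]
    exact h1
  have hG2 : IsHom p (M.frob a) ((stdK k P i).frob a) fun j => ((G j)⁻¹).1 := hG1.inv
  have hTG : ∀ j, (T j).1 = (TK P (fun _ => 1) (j - i).val).1 * ((G j)⁻¹).1 := by
    intro j
    rw [← Units.val_mul, hG]
    congr 1
    dsimp only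
    rw [mul_inv_rev, inv_inv, mul_inv_cancel_left]
  have hle := pole_le_one hG1 hp ha
  have hle2 := pole_le_one hG2 hp ha
  -- all the poles are small
  have hTpole : ∀ j, MGE (T j).1 (1 - p) := by
    intro j
    rw [hTG j]
    have h1 : MGE ((G j)⁻¹).1 (-1) := by
      have h2 := pole_spec ((G j)⁻¹).1
      have h3 := hle2 j
      exact h2.mono (by omega)
    have h2 : MGE (TK P (fun _ => (1 : GL (Fin 2) k)) (j - i).val).1 (-1) := by
      unfold TK
      split_ifs
      · have e1 : (Matrix.GeneralLinearGroup.map HahnSeries.C (1 : GL (Fin 2) k) * tl 0).1 =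
            (tl (0 : k)).1 := by rw [map_one, one_mul]
        rw [e1, tl0_eq]
        refine MGE_mk (GE_single le_rfl _) (GE.zero _) (GE.zero _) (GE_one'.mono (by omega))
      · rw [Units.val_one, Matrix.one_fin_two]
        exact MGE_mk (GE_one'.mono (by omega)) (GE.zero _) (GE.zero _) (GE_one'.mono (by omega))
    exact (h2.mul h1).1.mono (by omega)
  -- no poles outside the words
  have h01 : ∀ j, pole (G (j - 1)).1 = 0 → pole (G j).1 = 1 →
      a j = 1 ∧ (stdK k P i).Y j 1 1 = 0 := by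
    intro j h0 h1
    refine ⟨step_zero_one hG1 ha h0 h1, ?_⟩
    obtain ⟨b, hb, hb'⟩ := Y_of_zero_one hG1 hp ha h0 h1
    exact (mul_eq_zero.1 hb').resolve_left hb
  have h1a : ∀ j, pole (G j).1 = 1 → a j = 1 ∨ a j = p - 1 := by
    intro j h1
    have h2 := hle (j - 1)
    rcases Nat.eq_zero_or_pos (pole (G (j - 1)).1) with h0 | h0
    · exact Or.inl (h01 j h0 h1).1
    · exact Or.inr (step_one_one hG1 hp ha (by omega) h1)
  have h1b : ∀ j, pole (G (j - 1)).1 = 1 → a j = p - 1 ∨ a j = p := by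
    intro j h1
    have h2 := hle j
    rcases Nat.eq_zero_or_pos (pole (G j).1) with h0 | h0
    · exact Or.inr (step_one_zero hG1 hp ha h1 h0)
    · exact Or.inl (step_one_one hG1 hp ha h1 (by omega))
  have hpole0 : ∀ t, t < f → P t = false → pole (G (i + (t : ZMod f))).1 = 0 := by
    intro t
    induction t with
    | zero =>
      intro _ h
      rw [hP.h0] at h
      exact Bool.noConfusion h
    | succ t ih =>
      intro ht h
      have e : i + ((t + 1 : ℕ) : ZMod f) - 1 = i + (t : ZMod f) := by push_cast; ring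
      by_contra hc
      have hc1 : pole (G (i + ((t + 1 : ℕ) : ZMod f))).1 = 1 := by
        have := hle (i + ((t + 1 : ℕ) : ZMod f))
        omega
      rcases hPf t with h2 | h2
      · -- the end of a word
        have h3 := hpat.stop (t + 1) ht h h2
        rcases h1a _ hc1 with h4 | h4
        · omega
        · omega
      · by_cases h3 : t + 1 < f - 1
        · have h4 := ih (by omega) h2
          have h5 := h01 (i + ((t + 1 : ℕ) : ZMod f)) (by rw [e]; exact h4) hc1
          rw [stdK_Y i (t + 1) (by omega) h h2] at h5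
          exact one_ne_zero h5.2
        · -- the last position
          have e5 : i + ((t + 1 : ℕ) : ZMod f) = i - 1 := by
            have e6 : t + 1 = f - 1 := by omega
            have h7 : ((f - 1 + 1 : ℕ) : ZMod f) = 0 := by
              rw [Nat.sub_add_cancel (by omega), ZMod.natCast_self]
            rw [e6]
            push_cast at h7
            linear_combination h7
          rw [e5] at hc1
          have h5 := hpat.start 0 (by omega) hP.h0 rfl
          rw [Nat.cast_zero, add_zero] at h5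
          rcases h1b i hc1 with h6 | h6
          · omega
          · omega
  -- integral outside the words
  have hout : ∀ t, t < f → P t = false →
      ∃ h : GL (Fin 2) (PowerSeries k), (T (i + (t : ZMod f))).1 = gx h := by
    intro t ht h
    have h1 : Integral (G (i + (t : ZMod f))).1 := pole_eq_zero_iff.1 (hpole0 t ht h)
    have h2 := order_det_iso (p := p) (a := a) _ _ G hG1 (i + (t : ZMod f))
    have h3 : IsUnit ((G (i + (t : ZMod f))).1.det.coeff 0) := by
      have h4 := coeff_order_eq_zero.not.2 h2.2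
      rw [h2.1] at h4
      exact isUnit_iff_ne_zero.2 h4
    obtain ⟨g, hg⟩ := gx_of_integral h1 h3
    refine ⟨g⁻¹, ?_⟩
    have e1 : TK P (fun _ => (1 : GL (Fin 2) k)) t = 1 := if_neg (hnt _ h)
    have e2 : ((G (i + (t : ZMod f)))⁻¹).1 = gx g⁻¹ := by
      have e3 : (G (i + (t : ZMod f))).1 * gx g⁻¹ = 1 := by
        rw [hg, ← gx_mul, mul_inv_cancel, gx_one]
      have e4 : ((G (i + (t : ZMod f)))⁻¹).1 * (G (i + (t : ZMod f))).1 = 1 := by
        rw [← Units.val_mul, inv_mul_cancel, Units.val_one]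
      calc ((G (i + (t : ZMod f)))⁻¹).1 = ((G (i + (t : ZMod f)))⁻¹).1 *
            ((G (i + (t : ZMod f))).1 * gx g⁻¹) := by rw [e3, Matrix.mul_one]
        _ = gx g⁻¹ := by rw [← Matrix.mul_assoc, e4, Matrix.one_mul]
    rw [hTG, posv i ht, e1, Units.val_one, Matrix.one_mul, e2]
  -- the starts
  have hfrob : ∀ j, M.frob a j = gx (M.X j) * du (a j) * gz (M.Z j) := fun _ => rfl
  have hstart : ∀ t, ∃ q : GL (Fin 2) k, t < f → P t = true → Pm P t = false →
      ∃ g : GL (Fin 2) (PowerSeries k), (T (i + (t : ZMod f))).1 * gx g = (gc q * tl 0).1 := by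
    intro t
    by_cases h : t < f ∧ P t = true ∧ Pm P t = false
    · obtain ⟨h1, h2, h3⟩ := h
      have h4 := hT (i + (t : ZMod f))
      dsimp only at h4
      rw [posv i h1] at h4
      have e1 : (Bp p P f (a (i + (t : ZMod f))) t : Mat k) = 1 := by
        unfold Bp
        rw [if_pos h2, if_neg (hnt _ h3)]
      have h5 : ∃ U : GL (Fin 2) (PowerSeries k), (T (i + (t : ZMod f) - 1)).1 = gx U := by
        have h6 := Pm_val hP i (i + (t : ZMod f))
        rw [posv i h1, h3] at h6
        have h7 := hout _ (ZMod.val_lt _) h6.symm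
        rw [ZMod.natCast_val, ZMod.cast_id', id_eq, add_sub_cancel] at h7
        exact h7
      obtain ⟨U, hU⟩ := h5
      rw [e1, Matrix.one_mul, hfrob, hpat.start t h1 h2 h3, hU] at h4
      obtain ⟨g, q, hq⟩ := start_step (p := p) (by omega) _ U _ _ h4
      exact ⟨q, fun _ _ _ => ⟨g, hq⟩⟩
    · exact ⟨1, fun h1 h2 h3 => absurd ⟨h1, h2, h3⟩ h⟩
  choose q hq using hstart
  obtain ⟨Q, hQ0, hQs⟩ : ∃ Q : ℕ → GL (Fin 2) k, Q 0 = q 0 ∧
      ∀ t, Q (t + 1) = if P (t + 1) = true ∧ P t = true then Q t else q (t + 1) :=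
    ⟨fun t => Nat.rec (q 0) (fun t r => if P (t + 1) = true ∧ P t = true then r else q (t + 1)) t,
      rfl, fun t => rfl⟩
  have hQr : ∀ t, P t = true → Pm P t = true → Q t = Q (t - 1) := by
    intro t h1 h2
    cases t with
    | zero => exact Bool.noConfusion h2
    | succ t =>
      have h3 : P t = true := h2
      rw [hQs, if_pos ⟨h1, h3⟩, Nat.add_sub_cancel]
  have hin : ∀ t, t < f → P t = true →
      ∃ g : GL (Fin 2) (PowerSeries k), (T (i + (t : ZMod f))).1 * gx g = (gc (Q t) * tl 0).1 := by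
    intro t
    induction t with
    | zero =>
      intro h1 h2
      rw [hQ0]
      exact hq 0 h1 h2 rfl
    | succ t ih =>
      intro h1 h2
      rw [hQs]
      rcases hPf t with h3 | h3
      · rw [if_pos ⟨h2, h3⟩]
        obtain ⟨g, hg⟩ := ih (by omega) h3
        have h4 := hT (i + ((t + 1 : ℕ) : ZMod f))
        dsimp only at h4
        have e : i + ((t + 1 : ℕ) : ZMod f) - 1 = i + (t : ZMod f) := by push_cast; ring
        have e1 : (Bp p P f (a (i + ((t + 1 : ℕ) : ZMod f))) (t + 1) : Mat k) =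
            !![un (p - 1), 0; 0, un (p - 1)] := by
          unfold Bp
          rw [if_pos h2]
          exact if_pos h3
        have e2 : (T (i + (t : ZMod f))).1 = (gc (Q t) * tl 0).1 * gx g⁻¹ := by
          rw [← hg, Matrix.mul_assoc, ← gx_mul, mul_inv_cancel, gx_one, Matrix.mul_one]
        have e3 : ((p - 1 : ℕ) : ℤ) = (p : ℤ) - 1 := by
          push_cast [Nat.cast_sub (show 1 ≤ p by omega)]
          ring
        rw [posv i h1, e1, e, e2, hfrob, hpat.mid (t + 1) h1 h2 h3, e3] at h4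
        exact mid_step (p := p) (by omega) _ g⁻¹ _ _ _ (hTpole _) h4
      · rw [if_neg (fun h => hnt _ h3 h.2)]
        exact hq (t + 1) h1 h2 h3
  have hfin : ∀ j, ∃ g : GL (Fin 2) (PowerSeries k),
      (T j).1 * gx g = (TK P Q (j - i).val).1 := by
    intro j
    have hj : i + (((j - i).val : ℕ) : ZMod f) = j := by
      rw [ZMod.natCast_val, ZMod.cast_id', id_eq, add_sub_cancel]
    rcases hPf (j - i).val with h | h
    · obtain ⟨g, hg⟩ := hin _ (ZMod.val_lt _) h
      rw [hj] at hg
      refine ⟨g, ?_⟩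
      rw [hg]
      unfold TK
      rw [if_pos h]
      rfl
    · obtain ⟨g, hg⟩ := hout _ (ZMod.val_lt _) h
      rw [hj] at hg
      refine ⟨g⁻¹, ?_⟩
      unfold TK
      rw [if_neg (hnt _ h), hg, ← gx_mul, mul_inv_cancel, gx_one, Units.val_one]
  choose g hg using hfin
  exact ⟨g, Q, hQr, hg⟩

end

end Pool.Agent.Lib.MP_74d0c9_nt
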