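import Pool.Agent.Lib.MP_74d0c9_nt.XDefs
import Pool.Agent.Lib.MP_74d0c9_nt.USmall

/-! The Kisin modules of a pattern near an arbitrary residual point: the family and its first order
expansion. -/

set_option autoImplicit false

namespace Pool.Agent.Lib.MP_74d0c9_nt

open HahnSeries

universe u

section
variable {A : Type u} [CommRing A]

/-- a constant invertible matrix -/
noncomputable def gc (Q : GL (Fin 2) A) : GL (Fin 2) (LaurentSeries A) :=
  Matrix.GeneralLinearGroup.map HahnSeries.C Q

theorem gc_val (Q : GL (Fin 2) A) : (gc Q).1 = gz Q := rfl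

theorem gz_eq (Q : GL (Fin 2) A) : gz Q = !![HahnSeries.C (Q.1 0 0), HahnSeries.C (Q.1 0 1);
    HahnSeries.C (Q.1 1 0), HahnSeries.C (Q.1 1 1)] := by
  refine Matrix.ext fun r s => ?_
  fin_cases r <;> fin_cases s <;> rfl

theorem gz_inv_mul (Q : GL (Fin 2) A) : gz Q⁻¹ * gz Q = 1 := by
  rw [← gz_mul, inv_mul_cancel, gz_one]

theorem gz_mul_inv (Q : GL (Fin 2) A) : gz Q * gz Q⁻¹ = 1 := by
  rw [← gz_mul, mul_inv_cancel, gz_one]

theorem tl0_eq : (tl (0 : A)).1 = !![un (-1), 0; 0, 1] := by
  have h : (tl (0 : A)).1 = !![un (-1), 0; HahnSeries.C 0 * un (-1), 1] := rfl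
  rw [h, map_zero, zero_mul]

theorem tl0_phi (p : ℕ) [Fact p.Prime] :
    (tl (0 : A)).1.map (phi A p) = !![un (-p), 0; 0, 1] := by
  rw [tl_phi, map_zero, zero_mul]

theorem gz_phi (p : ℕ) [Fact p.Prime] (Q : GL (Fin 2) A) (M : Mat A) :
    (gz Q * M).map (phi A p) = gz Q * M.map (phi A p) := by
  rw [Matrix.map_mul, phi_gz]

/-- the left factors -/
def xnQ (P : ℕ → Bool) (f : ℕ) (Q : ℕ → GL (Fin 2) A) (t : ℕ) : GL (Fin 2) A :=
  if P t = true then (if Pm P t = true then sw else 1) else if Pm P t = true then Q (t - 1) * sw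
    else if t < f - 1 then 1 else sw

/-- the right factors -/
def znQ (P : ℕ → Bool) (Q : ℕ → GL (Fin 2) A) (t : ℕ) : GL (Fin 2) A :=
  if P t = true then (if Pm P t = true then sw else (Q t)⁻¹) else if Pm P t = true then sw else 1

theorem step_checkQ {p f : ℕ} [Fact p.Prime] {P : ℕ → Bool} (hP : GoodP P f) (a : ℕ)
    (Q : ℕ → GL (Fin 2) A)
    {t t' : ℕ} (htf : t < f) (htt : (t = 0 ∧ t' = f - 1) ∨ (1 ≤ t ∧ t' = t - 1))
    (h0 : P t = true → Pm P t = false → a = 1) (h1 : P t = true → Pm P t = true → a = p - 1)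
    (h2 : P t = false → Pm P t = true → a = p)
    (hQ : P t = true → Pm P t = true → Q t = Q (t - 1)) :
    (TK P Q t).1 * (gz (xnQ P f Q t) * du a * gz (znQ P Q t)) =
      Bp p P f a t * (TK P Q t').1.map (phi A p) := by
  have hf3 := hP.three_le
  have hp : 1 ≤ p := (Fact.out : p.Prime).one_lt.le
  have hneg := un_neg_mul (k := A) 1
  have hnegp := un_neg_mul (k := A) (p : ℤ)
  have hPf : ∀ t, P t = true ∨ P t = false := fun t => by cases P t <;> simp
  have hPmf : Pm P t = true ∨ Pm P t = false := by cases Pm P t <;> simp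
  have hnt : ∀ x : Bool, x = false → ¬ x = true := by
    intro x hx
    rw [hx]
    exact fun h => Bool.noConfusion h
  have hPt' : Pm P t = P t' := by
    rcases htt with ⟨ht, ht'⟩ | ⟨ht, ht'⟩
    · rw [ht, ht', hP.h2]
      rfl
    · obtain ⟨s, rfl⟩ : ∃ s, t = s + 1 := ⟨t - 1, by omega⟩
      rw [ht', Nat.add_sub_cancel]
      rfl
  have hlt : Pm P t = true → t' = t - 1 := by
    intro h
    rcases htt with ⟨ht, -⟩ | ⟨-, ht'⟩
    · rw [ht] at h
      exact absurd h (fun h => Bool.noConfusion h)
    · exact ht'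
  have hsc : ∀ (x : LaurentSeries A) (M N : Mat A), !![x, 0; 0, x] * (M * N) =
      M * (!![x, 0; 0, x] * N) := by
    intro x M N
    have e : !![x, 0; 0, x] = x • (1 : Mat A) := by
      rw [Matrix.one_fin_two]
      refine Matrix.ext fun r s => ?_
      rw [Matrix.smul_apply, smul_eq_mul]
      fin_cases r <;> fin_cases s
      · exact (mul_one _).symm
      · exact (mul_zero _).symm
      · exact (mul_zero _).symm
      · exact (mul_one _).symm
    rw [e, smul_mul', smul_mul', Matrix.one_mul, Matrix.one_mul, mul_smul']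
  have hval : ∀ Q : GL (Fin 2) A, (gc Q * tl 0).1 = gz Q * (tl (0 : A)).1 := fun _ => rfl
  rcases hPf t with hPt | hPt
  · rcases hPmf with hc | hc
    · -- inside
      have ha := h1 hPt hc
      have hQ' := hQ hPt hc
      have e1 : TK P Q t = gc (Q t) * tl 0 := if_pos hPt
      have e2 : TK P Q t' = gc (Q t) * tl 0 := by
        unfold TK
        rw [if_pos (by rw [← hPt']; exact hc), hlt hc, ← hQ']
        rfl
      have e3 : xnQ P f Q t = sw := by unfold xnQ; rw [if_pos hPt, if_pos hc]
      have e4 : znQ P Q t = sw := by unfold znQ; rw [if_pos hPt, if_pos hc]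
      have e5 : (Bp p P f a t : Mat A) = !![un (p - 1), 0; 0, un (p - 1)] := by
        unfold Bp; rw [if_pos hPt, if_pos hc]
      have e6 : (a : ℤ) = (p : ℤ) - 1 := by rw [ha]; push_cast [Nat.cast_sub hp]; ring
      have e7 : (un ((p : ℤ) - 1) : LaurentSeries A) * un (-p) = un (-1) := by
        rw [un_mul]; congr 1; ring
      rw [e1, e2, e3, e4, e5, hval, gz_phi, hsc, Matrix.mul_assoc]
      congr 1
      rw [tl0_phi, tl0_eq, gz_sw, du_two, e6, Matrix.mul_fin_two,
        Matrix.mul_fin_two, Matrix.mul_fin_two, Matrix.mul_fin_two]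
      apply mat2_congr
      · linear_combination -e7
      · ring
      · ring
      · ring
    · -- start
      have ha := h0 hPt hc
      subst ha
      have e1 : TK P Q t = gc (Q t) * tl 0 := if_pos hPt
      have e2 : TK P Q t' = 1 := by
        unfold TK
        rw [if_neg (hnt _ (by rw [← hPt']; exact hc))]
      have e3 : xnQ P f Q t = 1 := by unfold xnQ; rw [if_pos hPt, if_neg (hnt _ hc)]
      have e4 : znQ P Q t = (Q t)⁻¹ := by unfold znQ; rw [if_pos hPt, if_neg (hnt _ hc)]
      have e5 : (Bp p P f 1 t : Mat A) = 1 := by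
        unfold Bp; rw [if_pos hPt, if_neg (hnt _ hc)]
      have e6 : (tl (0 : A)).1 * du ((1 : ℕ) : ℤ) = 1 := by
        rw [tl0_eq, du_two, Matrix.mul_fin_two, Matrix.one_fin_two]
        apply mat2_congr
        · linear_combination un_neg_mul (k := A) 1
        · ring
        · ring
        · ring
      rw [e1, e2, e3, e4, e5, one_phi, gz_one, hval, Matrix.one_mul, Matrix.one_mul,
        Matrix.mul_assoc, ← Matrix.mul_assoc (tl (0 : A)).1, e6, Matrix.one_mul, gz_mul_inv]
  · rcases hPmf with hc | hc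
    · -- stop
      have ha := h2 hPt hc
      have e1 : TK P Q t = 1 := by unfold TK; rw [if_neg (hnt _ hPt)]
      have e2 : TK P Q t' = gc (Q (t - 1)) * tl 0 := by
        unfold TK
        rw [if_pos (by rw [← hPt']; exact hc), hlt hc]
        rfl
      have e3 : xnQ P f Q t = Q (t - 1) * sw := by
        unfold xnQ; rw [if_neg (hnt _ hPt), if_pos hc]
      have e4 : znQ P Q t = sw := by unfold znQ; rw [if_neg (hnt _ hPt), if_pos hc]
      have e5 : (Bp p P f a t : Mat A) = !![un a, 0; 0, un a] := by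
        unfold Bp; rw [if_neg (hnt _ hPt), if_pos hc, ha]
      rw [← ha] at hnegp
      rw [e1, e2, e3, e4, e5, hval, gz_phi, hsc, gz_mul, Units.val_one, Matrix.one_mul,
        Matrix.mul_assoc, Matrix.mul_assoc]
      congr 1
      rw [tl0_phi, gz_sw, du_two, Matrix.mul_fin_two,
        Matrix.mul_fin_two, Matrix.mul_fin_two, ← ha]
      apply mat2_congr
      · linear_combination -hnegp
      · ring
      · ring
      · ring
    · have e1 : TK P Q t = 1 := by unfold TK; rw [if_neg (hnt _ hPt)]
      have e2 : TK P Q t' = 1 := by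
        unfold TK
        rw [if_neg (hnt _ (by rw [← hPt']; exact hc))]
      have e4 : znQ P Q t = 1 := by
        unfold znQ; rw [if_neg (hnt _ hPt), if_neg (hnt _ hc)]
      by_cases c3 : t < f - 1
      · have e3 : xnQ P f Q t = 1 := by
          unfold xnQ; rw [if_neg (hnt _ hPt), if_neg (hnt _ hc), if_pos c3]
        have e5 : (Bp p P f a t : Mat A) = du a := by
          unfold Bp; rw [if_neg (hnt _ hPt), if_neg (hnt _ hc), if_pos c3]
        rw [e1, e2, e3, e4, e5, one_phi, gz_one, Units.val_one, Matrix.one_mul, Matrix.one_mul,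
          Matrix.mul_one]
      · have e3 : xnQ P f Q t = sw := by
          unfold xnQ; rw [if_neg (hnt _ hPt), if_neg (hnt _ hc), if_neg c3]
        have e5 : (Bp p P f a t : Mat A) = !![0, 1; un a, 0] := by
          unfold Bp; rw [if_neg (hnt _ hPt), if_neg (hnt _ hc), if_neg c3]
        rw [e1, e2, e3, e4, e5, one_phi, gz_one, gz_sw, du_two, Units.val_one, Matrix.one_mul,
          Matrix.mul_one, Matrix.mul_one, Matrix.mul_fin_two]
        apply mat2_congr <;> ring

/-- `1 + w N`, `N = u⁻¹ [[-x y, x²], [-y², x y]]` -/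
noncomputable def oneQ (x y w : A) : Mat A :=
  !![1 - HahnSeries.C (w * x * y) * un (-1), HahnSeries.C (w * x * x) * un (-1);
    -(HahnSeries.C (w * y * y) * un (-1)), 1 + HahnSeries.C (w * x * y) * un (-1)]

theorem det_inv_mul (Q : GL (Fin 2) A) : Q⁻¹.1.det * Q.1.det = 1 := by
  have h : Q⁻¹.1 * Q.1 = 1 := by
    rw [← Units.val_mul, inv_mul_cancel, Units.val_one]
  rw [← Matrix.det_mul, h, Matrix.det_one]

theorem oneQ_T (Q : GL (Fin 2) A) (w : A) :
    oneQ (Q.1 0 0) (Q.1 1 0) (w * Q⁻¹.1.det) * (gc Q * tl 0).1 =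
      (gc Q * tl 0).1 * gz (eU w) := by
  have hval : (gc Q * tl 0).1 = gz Q * (tl (0 : A)).1 := rfl
  have hQ := det_inv_mul Q
  rw [Matrix.det_fin_two Q.1] at hQ
  have h1 := congrArg (HahnSeries.C : A → LaurentSeries A) hQ
  rw [map_mul, map_sub, map_mul, map_mul, map_one] at h1
  unfold oneQ
  rw [hval, gz_eU, gz_eq, tl0_eq, Matrix.mul_fin_two, Matrix.mul_fin_two, Matrix.mul_fin_two]
  simp only [map_mul]
  apply mat2_congr
  · ring
  · linear_combination HahnSeries.C w * HahnSeries.C (Q.1 0 0) * un (-1) * h1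
  · ring
  · linear_combination HahnSeries.C w * HahnSeries.C (Q.1 1 0) * un (-1) * h1

/-- the Frobenius matrices of the family -/
noncomputable def FQ (p : ℕ) (P : ℕ → Bool) (f a : ℕ) (Q : ℕ → GL (Fin 2) A) (s : A)
    (w x : ℕ → A) (t : ℕ) : Mat A :=
  if P t = true then
    (HahnSeries.C (if t = 0 then 1 + s else 1) : LaurentSeries A) •
      (oneQ ((Q t).1 0 0) ((Q t).1 1 0) (w t * (Q t)⁻¹.1.det) * Bp p P f a t)
  else if Pm P t = true then Bp p P f a t
  else Bp p P f a t * !![1, 0; HahnSeries.C (x t), 1]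

variable {p f : ℕ} [Fact p.Prime] [NeZero f] {a : ZMod f → ℕ} {P : ℕ → Bool}

/-- the Kisin modules -/
noncomputable def MFQ (P : ℕ → Bool) (i : ZMod f) (Q : ℕ → GL (Fin 2) A) (s : A)
    (hs : IsUnit (1 + s)) (w x : ℕ → A) : KisinModule f A where
  X j := Matrix.GeneralLinearGroup.map PowerSeries.C
    (ELP P s hs w (j - i).val * xnQ P f Q (j - i).val)
  Z j := ERP P x (j - i).val * znQ P Q (j - i).val

omit [NeZero f] in
theorem MFQ_frob (i : ZMod f) (Q : ℕ → GL (Fin 2) A) (s : A) (hs : IsUnit (1 + s))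
    (w x : ℕ → A) (j : ZMod f) :
    (MFQ P i Q s hs w x).frob a j =
      gz (ELP P s hs w (j - i).val) * gz (xnQ P f Q (j - i).val) * du (a j) *
        (gz (ERP P x (j - i).val) * gz (znQ P Q (j - i).val)) := by
  rw [← gz_mul, ← gz_mul]
  show (((ELP P s hs w (j - i).val * xnQ P f Q (j - i).val).1.map
    PowerSeries.C).map ps) * _ * _ = _
  have : ((ELP P s hs w (j - i).val * xnQ P f Q (j - i).val).1.map
      PowerSeries.C).map ps = gz (ELP P s hs w (j - i).val * xnQ P f Q (j - i).val) := by
    refine Matrix.ext fun r s => ?_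
    exact ofPowerSeries_C _
  rw [this]
  rfl

theorem step_checkQ' (hP : GoodP P f) (i : ZMod f) (hpat : IsPat p f a i P)
    (Q : ℕ → GL (Fin 2) A) (hQ : ∀ t, P t = true → Pm P t = true → Q t = Q (t - 1))
    (j : ZMod f) :
    ((j - i).val = 0 → (j - 1 - i).val = f - 1) ∧
    (1 ≤ (j - i).val → (j - 1 - i).val = (j - i).val - 1) ∧
    (TK P Q (j - i).val).1 * (gz (xnQ P f Q (j - i).val) * du (a j) *
        gz (znQ P Q (j - i).val)) =
      Bp p P f (a j) (j - i).val * (TK P Q (j - 1 - i).val).1.map (phi A p) := by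
  have hf3 := hP.three_le
  have hj : j = i + ((j - i).val : ℕ) := by
    rw [ZMod.natCast_val, ZMod.cast_id', id_eq, add_sub_cancel]
  have hlt : (j - i).val < f := ZMod.val_lt _
  obtain ⟨q0, q1, -⟩ := step_checkP' (A := A) (a := a) (p := p) hP i hpat 0 (fun _ _ _ => rfl) j
  refine ⟨q0, q1, ?_⟩
  have ea : a j = a (i + ((j - i).val : ℕ)) := by rw [← hj]
  apply step_checkQ hP (a j) Q hlt
  · rcases Nat.eq_zero_or_pos (j - i).val with h4 | h4
    · exact Or.inl ⟨h4, q0 h4⟩
    · exact Or.inr ⟨h4, q1 h4⟩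
  · intro h1 h2
    rw [ea]
    exact hpat.start _ hlt h1 h2
  · intro h1 h2
    rw [ea]
    exact hpat.mid _ hlt h1 h2
  · intro h1 h2
    rw [ea]
    exact hpat.stop _ hlt h1 h2
  · exact hQ _

/-- The members of the family are isomorphic, as étale `φ`-modules, to Kisin modules. -/
theorem isHom_FQ (hP : GoodP P f) (i : ZMod f) (hpat : IsPat p f a i P)
    (Q : ℕ → GL (Fin 2) A) (hQ : ∀ t, P t = true → Pm P t = true → Q t = Q (t - 1)) (s : A) (hs : IsUnit (1 + s)) (w x : ℕ → A) :
    IsHom p ((MFQ P i Q s hs w x).frob a) (fun j => FQ p P f (a j) Q s w x (j - i).val)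
      (fun j => (TK P Q (j - i).val).1) := by
  intro j
  have hf3 := hP.three_le
  obtain ⟨q0, q1, h4⟩ := step_checkQ' (a := a) hP i hpat Q hQ j
  have hPf : ∀ t, P t = true ∨ P t = false := fun t => by cases P t <;> simp
  have hPmf : ∀ t, Pm P t = true ∨ Pm P t = false := fun t => by cases Pm P t <;> simp
  have hnt : ∀ x : Bool, x = false → ¬ x = true := by
    intro x hx
    rw [hx]
    exact fun h => Bool.noConfusion h
  show (TK P Q (j - i).val).1 * _ =
    FQ p P f (a j) Q s w x (j - i).val * (TK P Q (j - 1 - i).val).1.map (phi A p)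
  rw [MFQ_frob]
  rcases hPf (j - i).val with c0 | c0
  · have e1 : TK P Q (j - i).val = gc (Q (j - i).val) * tl 0 := if_pos c0
    have e2 : (ERP P x (j - i).val : GL (Fin 2) A) = 1 := by
      unfold ERP
      rw [if_neg]
      rintro ⟨h, -⟩
      rw [h] at c0
      exact Bool.noConfusion c0
    have e3 : gz (ELP P s hs w (j - i).val) =
        (HahnSeries.C (if (j - i).val = 0 then 1 + s else 1) : LaurentSeries A) •
          gz (eU (w (j - i).val)) := by
      unfold ELP
      rw [if_pos c0, gz_mul]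
      split_ifs
      · rw [gz_gS, smul_mul', Matrix.one_mul]
      · rw [gz_one, map_one, one_smul, Matrix.one_mul]
    have e4 : FQ p P f (a j) Q s w x (j - i).val =
        ((HahnSeries.C (if (j - i).val = 0 then 1 + s else 1) : LaurentSeries A) •
          oneQ ((Q (j - i).val).1 0 0) ((Q (j - i).val).1 1 0)
            (w (j - i).val * (Q (j - i).val)⁻¹.1.det)) * Bp p P f (a j) (j - i).val := by
      unfold FQ
      rw [if_pos c0, smul_mul']
    have key : ∀ (G N : Mat A), N * (TK P Q (j - i).val).1 = (TK P Q (j - i).val).1 * G →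
        (TK P Q (j - i).val).1 * (G * gz (xnQ P f Q (j - i).val) * du (a j) *
          (1 * gz (znQ P Q (j - i).val))) =
        N * Bp p P f (a j) (j - i).val * (TK P Q (j - 1 - i).val).1.map (phi A p) := by
      intro G N hN
      rw [Matrix.one_mul, Matrix.mul_assoc N, ← h4, ← Matrix.mul_assoc N, hN]
      simp only [Matrix.mul_assoc]
    rw [e2, gz_one, e3, e4]
    apply key
    rw [e1, smul_mul', oneQ_T, mul_smul']
  · have e3 : (ELP P s hs w (j - i).val : GL (Fin 2) A) = 1 := by
      unfold ELP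
      rw [if_neg (hnt _ c0)]
    rw [e3, gz_one, Matrix.one_mul]
    rcases hPmf (j - i).val with c1 | c1
    · have e2 : (ERP P x (j - i).val : GL (Fin 2) A) = 1 := by
        unfold ERP
        rw [if_neg]
        rintro ⟨-, h⟩
        rw [h] at c1
        exact Bool.noConfusion c1
      have e4 : FQ p P f (a j) Q s w x (j - i).val = Bp p P f (a j) (j - i).val := by
        unfold FQ
        rw [if_neg (hnt _ c0), if_pos c1]
      rw [e2, e4, gz_one, Matrix.one_mul]
      exact h4
    · have e1 : TK P Q (j - i).val = 1 := by unfold TK; rw [if_neg (hnt _ c0)]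
      have e2 : (ERP P x (j - i).val : GL (Fin 2) A) = eL (x (j - i).val) := by
        unfold ERP; rw [if_pos ⟨c0, c1⟩]
      have e4 : FQ p P f (a j) Q s w x (j - i).val =
          Bp p P f (a j) (j - i).val * gz (eL (x (j - i).val)) := by
        unfold FQ
        rw [if_neg (hnt _ c0), if_neg (hnt _ c1), gz_eL]
      have hpos : 1 ≤ (j - i).val := by
        by_contra hc
        have h5 : (j - i).val = 0 := by omega
        rw [h5, hP.h0] at c0
        exact Bool.noConfusion c0
      have e5 : TK P Q (j - 1 - i).val = 1 := by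
        rw [q1 hpos]
        obtain ⟨t, ht⟩ : ∃ t, (j - i).val = t + 1 := ⟨(j - i).val - 1, by omega⟩
        rw [ht] at c1 ⊢
        have c1' : P t = false := c1
        rw [Nat.add_sub_cancel]
        unfold TK
        rw [if_neg (hnt _ c1')]
      have e6 : znQ P Q (j - i).val = 1 := by
        unfold znQ; rw [if_neg (hnt _ c0), if_neg (hnt _ c1)]
      rw [e1, e5, e6, one_phi, gz_one, Units.val_one, Matrix.one_mul, Matrix.mul_one,
        Matrix.mul_one] at h4
      rw [e2, e4, e1, e5, e6, one_phi, gz_one, Units.val_one, Matrix.one_mul, Matrix.mul_one,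
        Matrix.mul_one, ← h4]

/-! ### coordinates -/

theorem oneQ_eq (x y w : A) : oneQ x y w = 1 +
    ((HahnSeries.C (w * x ^ 2 * y ^ 0) : LaurentSeries A) • M3 0 +
      (HahnSeries.C (w * x ^ 1 * y ^ 1) : LaurentSeries A) • M3 1 +
      (HahnSeries.C (w * x ^ 0 * y ^ 2) : LaurentSeries A) • M3 2) := by
  unfold oneQ
  rw [Matrix.one_fin_two]
  refine Matrix.ext fun r s => ?_
  rw [Matrix.add_apply, Matrix.add_apply, Matrix.add_apply, Matrix.smul_apply, Matrix.smul_apply,
    Matrix.smul_apply, smul_eq_mul, smul_eq_mul, smul_eq_mul]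
  simp only [map_mul, map_pow]
  fin_cases r <;> fin_cases s
  · show 1 - HahnSeries.C w * HahnSeries.C x * HahnSeries.C y * un (-1) =
      1 + (HahnSeries.C w * HahnSeries.C x ^ 2 * HahnSeries.C y ^ 0 * 0 +
        HahnSeries.C w * HahnSeries.C x ^ 1 * HahnSeries.C y ^ 1 * -un (-1) +
        HahnSeries.C w * HahnSeries.C x ^ 0 * HahnSeries.C y ^ 2 * 0)
    ring
  · show HahnSeries.C w * HahnSeries.C x * HahnSeries.C x * un (-1) =
      0 + (HahnSeries.C w * HahnSeries.C x ^ 2 * HahnSeries.C y ^ 0 * un (-1) +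
        HahnSeries.C w * HahnSeries.C x ^ 1 * HahnSeries.C y ^ 1 * 0 +
        HahnSeries.C w * HahnSeries.C x ^ 0 * HahnSeries.C y ^ 2 * 0)
    ring
  · show -(HahnSeries.C w * HahnSeries.C y * HahnSeries.C y * un (-1)) =
      0 + (HahnSeries.C w * HahnSeries.C x ^ 2 * HahnSeries.C y ^ 0 * 0 +
        HahnSeries.C w * HahnSeries.C x ^ 1 * HahnSeries.C y ^ 1 * 0 +
        HahnSeries.C w * HahnSeries.C x ^ 0 * HahnSeries.C y ^ 2 * -un (-1))
    ring
  · show 1 + HahnSeries.C w * HahnSeries.C x * HahnSeries.C y * un (-1) =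
      1 + (HahnSeries.C w * HahnSeries.C x ^ 2 * HahnSeries.C y ^ 0 * 0 +
        HahnSeries.C w * HahnSeries.C x ^ 1 * HahnSeries.C y ^ 1 * un (-1) +
        HahnSeries.C w * HahnSeries.C x ^ 0 * HahnSeries.C y ^ 2 * 0)
    ring

/-- The family in coordinates. -/
theorem FQ_eq (hP : GoodP P f) (i : ZMod f) (Q : ℕ → GL (Fin 2) A) (s : A) (w x : ℕ → A)
    (j : ZMod f) :
    FQ p P f (a j) Q s w x (j - i).val = Bp p P f (a j) (j - i).val +
      ∑ y : IxP P f, (HahnSeries.C (cK P f Q s w x y) : LaurentSeries A) •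
        DP A p P f a i y j := by
  have hlt : (j - i).val < f := ZMod.val_lt _
  have hnt : ∀ x : Bool, x = false → ¬ x = true := by
    intro x hx
    rw [hx]
    exact fun h => Bool.noConfusion h
  have key : ∀ (g x y w d : A) (B : Mat A),
      (HahnSeries.C g : LaurentSeries A) • (oneQ x y (w * d) * B) =
      (HahnSeries.C g : LaurentSeries A) • B +
      ((HahnSeries.C (g * w * d * x ^ (2 - ((0 : Fin 3) : ℕ)) * y ^ ((0 : Fin 3) : ℕ)) :
          LaurentSeries A) • M3 0 +
        (HahnSeries.C (g * w * d * x ^ (2 - ((1 : Fin 3) : ℕ)) * y ^ ((1 : Fin 3) : ℕ)) :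
          LaurentSeries A) • M3 1 +
        (HahnSeries.C (g * w * d * x ^ (2 - ((2 : Fin 3) : ℕ)) * y ^ ((2 : Fin 3) : ℕ)) :
          LaurentSeries A) • M3 2) * B := by
    intro g x y w d B
    rw [oneQ_eq, Matrix.add_mul, Matrix.one_mul, smul_add, ← smul_mul' (HahnSeries.C g), smul_add,
      smul_add, smul_smul, smul_smul, smul_smul, ← map_mul, ← map_mul, ← map_mul]
    have f0 : g * w * d * x ^ (2 - ((0 : Fin 3) : ℕ)) * y ^ ((0 : Fin 3) : ℕ) =
        g * (w * d * x ^ 2 * y ^ 0) := by
      show g * w * d * x ^ 2 * y ^ 0 = _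
      ring
    have f1 : g * w * d * x ^ (2 - ((1 : Fin 3) : ℕ)) * y ^ ((1 : Fin 3) : ℕ) =
        g * (w * d * x ^ 1 * y ^ 1) := by
      show g * w * d * x ^ 1 * y ^ 1 = _
      ring
    have f2 : g * w * d * x ^ (2 - ((2 : Fin 3) : ℕ)) * y ^ ((2 : Fin 3) : ℕ) =
        g * (w * d * x ^ 0 * y ^ 2) := by
      show g * w * d * x ^ 0 * y ^ 2 = _
      ring
    rw [f0, f1, f2]
  rw [sum_DP _ i j hlt]
  by_cases c0 : P (j - i).val = true
  · have e0 : ¬ (P (j - i).val = false ∧ Pm P (j - i).val = false) := by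
      rintro ⟨h, -⟩
      exact hnt _ h c0
    have f0 : ∀ (h : P (j - i).val = true) (e : Fin 3),
        cK P f Q s w x (Sum.inr (Sum.inl (⟨⟨(j - i).val, hlt⟩, h⟩, e))) =
          (if (j - i).val = 0 then 1 + s else 1) * w (j - i).val * (Q (j - i).val)⁻¹.1.det *
            (Q (j - i).val).1 0 0 ^ (2 - (e : ℕ)) * (Q (j - i).val).1 1 0 ^ (e : ℕ) :=
      fun _ _ => rfl
    rw [dif_pos c0, dif_neg e0, add_zero, f0, f0, f0]
    unfold FQ
    rw [if_pos c0, key, ← add_assoc]
    congr 1
    split_ifs
    · have f1 : (HahnSeries.C (1 + s) : LaurentSeries A) = 1 + HahnSeries.C s := by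
        rw [map_add, map_one]
      rw [f1, add_smul, one_smul]
      rfl
    · rw [map_one, one_smul, add_zero]
  · have hPt : P (j - i).val = false := by
      revert c0
      cases P (j - i).val <;> simp
    have h0 : ¬ (j - i).val = 0 := by
      intro h
      rw [h, hP.h0] at c0
      exact c0 rfl
    rw [if_neg h0, dif_neg c0, add_zero, zero_add]
    by_cases c1 : Pm P (j - i).val = true
    · have e0 : ¬ (P (j - i).val = false ∧ Pm P (j - i).val = false) := by
        rintro ⟨-, h⟩
        exact hnt _ h c1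
      rw [dif_neg e0, add_zero]
      unfold FQ
      rw [if_neg c0, if_pos c1]
    · have hPmt : Pm P (j - i).val = false := by
        revert c1
        cases Pm P (j - i).val <;> simp
      have f1 : (!![1, 0; HahnSeries.C (x (j - i).val), 1] : Mat A) =
          1 + (HahnSeries.C (x (j - i).val) : LaurentSeries A) • !![0, 0; 1, 0] := by
        refine Matrix.ext fun i' j' => ?_
        rw [Matrix.add_apply, Matrix.smul_apply, smul_eq_mul]
        fin_cases i' <;> fin_cases j'
        · show (1 : LaurentSeries A) = 1 + HahnSeries.C (x (j - i).val) * 0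
          ring
        · show (0 : LaurentSeries A) = 0 + HahnSeries.C (x (j - i).val) * 0
          ring
        · show HahnSeries.C (x (j - i).val) = 0 + HahnSeries.C (x (j - i).val) * 1
          ring
        · show (1 : LaurentSeries A) = 1 + HahnSeries.C (x (j - i).val) * 0
          ring
      have f2 : ∀ h, cK P f Q s w x (Sum.inr (Sum.inr (⟨⟨(j - i).val, hlt⟩, h⟩ : OP P f))) =
          x (j - i).val := fun _ => rfl
      rw [dif_pos ⟨hPt, hPmt⟩, f2]
      unfold FQ
      rw [if_neg c0, if_neg c1, f1, Matrix.mul_add, Matrix.mul_one, mul_smul']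

/-! ### the Frobenius matrices -/

theorem MB_eq (hP : GoodP P f) (b : ℕ) (Q : ℕ → GL (Fin 2) A) {t : ℕ}
    (h0 : P t = true → Pm P t = false → b = 1) (h1 : P t = true → Pm P t = true → b = p - 1)
    (h2 : P t = false → Pm P t = true → b = p) :
    MB p P f b Q t = gz (xnQ P f Q t) * du b * gz (znQ P Q t) := by
  have hp : 1 ≤ p := (Fact.out : p.Prime).one_lt.le
  have hPf : P t = true ∨ P t = false := by cases P t <;> simp
  have hPmf : Pm P t = true ∨ Pm P t = false := by cases Pm P t <;> simp
  have hnt : ∀ x : Bool, x = false → ¬ x = true := by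
    intro x hx
    rw [hx]
    exact fun h => Bool.noConfusion h
  unfold MB xnQ znQ
  rcases hPf with hPt | hPt
  · rcases hPmf with hc | hc
    · have e6 : (b : ℤ) = (p : ℤ) - 1 := by
        rw [h1 hPt hc]; push_cast [Nat.cast_sub hp]; ring
      rw [if_pos hPt, if_pos hc, if_pos hPt, if_pos hc, if_pos hPt, if_pos hc, gz_sw, du_two,
        Matrix.mul_fin_two, Matrix.mul_fin_two, e6]
      apply mat2_congr <;> ring
    · rw [if_pos hPt, if_neg (hnt _ hc), if_pos hPt, if_neg (hnt _ hc), if_pos hPt,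
        if_neg (hnt _ hc), gz_one, Matrix.one_mul, du_two, h0 hPt hc]
      rfl
  · rcases hPmf with hc | hc
    · rw [if_neg (hnt _ hPt), if_pos hc, if_neg (hnt _ hPt), if_pos hc, if_neg (hnt _ hPt),
        if_pos hc, gz_mul, Matrix.mul_assoc, Matrix.mul_assoc]
      congr 1
      rw [gz_sw, du_two, Matrix.mul_fin_two, Matrix.mul_fin_two, h2 hPt hc]
      apply mat2_congr <;> ring
    · rw [if_neg (hnt _ hPt), if_neg (hnt _ hc), if_neg (hnt _ hPt), if_neg (hnt _ hc),
        if_neg (hnt _ hPt), if_neg (hnt _ hc), gz_one, Matrix.mul_one]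
      split_ifs
      · rw [gz_one, Matrix.one_mul]
      · rw [gz_sw, du_two, Matrix.mul_fin_two]
        apply mat2_congr <;> ring

theorem MFQ_frob_MX (hP : GoodP P f) (i : ZMod f) (hpat : IsPat p f a i P)
    (Q : ℕ → GL (Fin 2) A) (s : A) (hs : IsUnit (1 + s)) (w x : ℕ → A) (j : ZMod f) :
    (MFQ P i Q s hs w x).frob a j = MX p P f (a j) Q s w x (j - i).val := by
  have hlt : (j - i).val < f := ZMod.val_lt _
  have ea : a j = a (i + ((j - i).val : ℕ)) := by
    rw [ZMod.natCast_val, ZMod.cast_id', id_eq, add_sub_cancel]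
  have hMB : (MB p P f (a j) Q (j - i).val : Mat A) =
      gz (xnQ P f Q (j - i).val) * du (a j) * gz (znQ P Q (j - i).val) := by
    apply MB_eq hP
    · intro h1 h2
      rw [ea]
      exact hpat.start _ hlt h1 h2
    · intro h1 h2
      rw [ea]
      exact hpat.mid _ hlt h1 h2
    · intro h1 h2
      rw [ea]
      exact hpat.stop _ hlt h1 h2
  have hPf : P (j - i).val = true ∨ P (j - i).val = false := by cases P (j - i).val <;> simp
  have hPmf : Pm P (j - i).val = true ∨ Pm P (j - i).val = false := by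
    cases Pm P (j - i).val <;> simp
  have hnt : ∀ x : Bool, x = false → ¬ x = true := by
    intro x hx
    rw [hx]
    exact fun h => Bool.noConfusion h
  rw [MFQ_frob]
  unfold MX
  rcases hPf with c0 | c0
  · have e2 : (ERP P x (j - i).val : GL (Fin 2) A) = 1 := by
      unfold ERP
      rw [if_neg]
      rintro ⟨h, -⟩
      rw [h] at c0
      exact Bool.noConfusion c0
    have e3 : gz (ELP P s hs w (j - i).val) =
        (HahnSeries.C (if (j - i).val = 0 then 1 + s else 1) : LaurentSeries A) •
          gz (eU (w (j - i).val)) := by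
      unfold ELP
      rw [if_pos c0, gz_mul]
      split_ifs
      · rw [gz_gS, smul_mul', Matrix.one_mul]
      · rw [gz_one, map_one, one_smul, Matrix.one_mul]
    rw [if_pos c0, e2, gz_one, Matrix.one_mul, e3, hMB, gz_eU, smul_mul', smul_mul', smul_mul']
    simp only [Matrix.mul_assoc]
  · have e3 : (ELP P s hs w (j - i).val : GL (Fin 2) A) = 1 := by
      unfold ELP
      rw [if_neg (hnt _ c0)]
    rw [e3, gz_one, Matrix.one_mul]
    rcases hPmf with c1 | c1
    · have e2 : (ERP P x (j - i).val : GL (Fin 2) A) = 1 := by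
        unfold ERP
        rw [if_neg]
        rintro ⟨-, h⟩
        rw [h] at c1
        exact Bool.noConfusion c1
      rw [if_neg (hnt _ c0), if_pos c1, e2, gz_one, Matrix.one_mul, hMB]
    · have e2 : (ERP P x (j - i).val : GL (Fin 2) A) = eL (x (j - i).val) := by
        unfold ERP; rw [if_pos ⟨c0, c1⟩]
      have e6 : znQ P Q (j - i).val = 1 := by
        unfold znQ; rw [if_neg (hnt _ c0), if_neg (hnt _ c1)]
      rw [if_neg (hnt _ c0), if_neg (hnt _ c1), e2, hMB, e6, gz_one, Matrix.mul_one,
        Matrix.mul_one, gz_eL]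

end

section
variable {p f : ℕ} [Fact p.Prime] [NeZero f] {P : ℕ → Bool} {a : ZMod f → ℕ}

/-- K1: the Kisin modules of the family. -/
theorem exists_MX {k A : Type u} [Field k] [CommRing A] [Algebra k A] (hP : GoodP P f) (i : ZMod f)
    (hpat : IsPat p f a i P) (Q : ℕ → GL (Fin 2) A)
    (hQ : ∀ t, P t = true → Pm P t = true → Q t = Q (t - 1)) (s : A) (hs : IsUnit (1 + s))
    (w x : ℕ → A) :
    ∃ M : KisinModule f A, (∀ j, M.frob a j = MX p P f (a j) Q s w x (j - i).val) ∧
      IsHom p (M.frob a) (famA (fun j => (Bp p P f (a j) (j - i).val : Mat k)) (DP k p P f a i)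
        (cK P f Q s w x)) fun j => (TK P Q (j - i).val).1 := by
  refine ⟨MFQ P i Q s hs w x, MFQ_frob_MX hP i hpat Q s hs w x, ?_⟩
  have h4 := isHom_FQ (a := a) hP i hpat Q hQ s hs w x
  have h5 : (fun j => FQ p P f (a j) Q s w x (j - i).val) =
      famA (fun j => (Bp p P f (a j) (j - i).val : Mat k)) (DP k p P f a i)
        (cK P f Q s w x) := by
    funext j
    rw [FQ_eq (a := a) hP i Q s w x j]
    show _ = (Bp p P f (a j) (j - i).val : Mat k).map (lmap (algebraMap k A)) +
      ∑ y, (HahnSeries.C (cK P f Q s w x y) : LaurentSeries A) •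
        (DP k p P f a i y j).map (lmap (algebraMap k A))
    simp only [Bp_map, DP_map]
  rw [← h5]
  exact h4

end

/-! ### the first order expansion -/

section
variable {A : Type u} [CommRing A]

theorem small_C_mul {I : Ideal A} {c : A} (hc : c ∈ I) (y : LaurentSeries A) (v : ℤ) :
    (HahnSeries.C c * y).coeff v ∈ I := by
  rw [HahnSeries.C_apply, coeff_single_zero_mul]
  exact I.mul_mem_right _ hc

theorem MSmall_mk {I : Ideal A} {w x y z : LaurentSeries A} (hw : ∀ v, w.coeff v ∈ I)
    (hx : ∀ v, x.coeff v ∈ I) (hy : ∀ v, y.coeff v ∈ I) (hz : ∀ v, z.coeff v ∈ I) :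
    MSmall I !![w, x; y, z] := by
  intro r s
  fin_cases r <;> fin_cases s
  · exact hw
  · exact hx
  · exact hy
  · exact hz

theorem eL_add (x y : A) : eL (x + y) = eL x * eL y := by
  apply Units.ext
  show !![1, 0; x + y, 1] = !![1, 0; x, 1] * !![1, 0; y, 1]
  rw [Matrix.mul_fin_two]
  apply mat2_congr <;> ring

theorem gz_eL_inv (x : A) : gz (eL x)⁻¹ = !![1, 0; -HahnSeries.C x, 1] := by
  show (!![1, 0; -x, 1] : Matrix (Fin 2) (Fin 2) A).map HahnSeries.C = _
  rw [mat2_map, map_zero, map_one, map_neg]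

/-- K1b: the first order expansion. -/
theorem MX_expand {p f : ℕ} {P : ℕ → Bool} {N : Ideal A} {r : ℕ} (hr : 1 ≤ r) (b t : ℕ)
    (Q : ℕ → GL (Fin 2) A) (l w x l' w' x' : ℕ → A) (s s' : A)
    (hl : ∀ t, l t ∈ N) (hs : s ∈ N) (hw : ∀ t, w t ∈ N) (hx : ∀ t, x t ∈ N)
    (hl' : ∀ t, l' t ∈ N ^ r) (hs' : s' ∈ N ^ r) (hw' : ∀ t, w' t ∈ N ^ r)
    (hx' : ∀ t, x' t ∈ N ^ r) :
    MSmall (N ^ (r + 1))
      (MX p P f b (fun t => Q t * eL (l t + l' t)) (s + s') (fun t => w t + w' t)
          (fun t => x t + x' t) t -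
        MX p P f b (fun t => Q t * eL (l t)) s w x t - DK p P f b Q l' s' w' x' t) := by
  have hnt : ∀ x : Bool, x = false → ¬ x = true := by
    intro x hx
    rw [hx]
    exact fun h => Bool.noConfusion h
  have hPf : P t = true ∨ P t = false := by cases P t <;> simp
  have hPmf : Pm P t = true ∨ Pm P t = false := by cases Pm P t <;> simp
  have hz : (0 : Mat A) = !![0, 0; 0, 0] := by
    refine Matrix.ext fun i j => ?_
    fin_cases i <;> fin_cases j <;> rfl
  have h1 : ∀ {y z : A}, y ∈ N → z ∈ N ^ r → y * z ∈ N ^ (r + 1) := by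
    intro y z hy hz
    rw [pow_succ']
    exact Ideal.mul_mem_mul hy hz
  have hNr : N ^ r ≤ N := Ideal.pow_le_self (by omega)
  -- the constants
  obtain ⟨g, hg⟩ : ∃ g : A, g = if t = 0 then 1 + s else 1 := ⟨_, rfl⟩
  obtain ⟨g', hg'⟩ : ∃ g' : A, g' = if t = 0 then 1 + (s + s') else 1 := ⟨_, rfl⟩
  obtain ⟨e, he⟩ : ∃ e : A, e = if t = 0 then s' else 0 := ⟨_, rfl⟩
  have hge : g' = g + e := by
    rw [hg, hg', he]
    split_ifs
    · ring
    · ring
  have hgN : g - 1 ∈ N := by
    rw [hg]
    split_ifs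
    · rw [add_sub_cancel_left]; exact hs
    · rw [sub_self]; exact N.zero_mem
  have heN : e ∈ N ^ r := by
    rw [he]
    split_ifs
    · exact hs'
    · exact (N ^ r).zero_mem
  have hsm : ∀ M : Mat A, (if t = 0 then (HahnSeries.C s' : LaurentSeries A) • M else 0) =
      !![HahnSeries.C e, 0; 0, HahnSeries.C e] * M := by
    intro M
    have e1 : (!![HahnSeries.C e, 0; 0, HahnSeries.C e] : Mat A) =
        (HahnSeries.C e : LaurentSeries A) • 1 := by
      rw [Matrix.one_fin_two]
      refine Matrix.ext fun r s => ?_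
      rw [Matrix.smul_apply, smul_eq_mul]
      fin_cases r <;> fin_cases s
      · exact (mul_one _).symm
      · exact (mul_zero _).symm
      · exact (mul_zero _).symm
      · exact (mul_one _).symm
    rw [e1, smul_mul', Matrix.one_mul, he]
    split_ifs
    · rfl
    · rw [map_zero, zero_smul]
  have hWm : ∀ (y : A) (M : Mat A), (HahnSeries.C y : LaurentSeries A) • (!![0, 1; 0, 0] * M) =
      !![0, HahnSeries.C y; 0, 0] * M := by
    intro y M
    rw [← smul_mul']
    congr 1
    refine Matrix.ext fun r s => ?_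
    rw [Matrix.smul_apply, smul_eq_mul]
    fin_cases r <;> fin_cases s
    · exact mul_zero _
    · exact mul_one _
    · exact mul_zero _
    · exact mul_zero _
  have hgm : ∀ (y v : A) (M : Mat A), (HahnSeries.C y : LaurentSeries A) •
      (!![1, HahnSeries.C v; 0, 1] * M) =
      !![HahnSeries.C y, HahnSeries.C (y * v); 0, HahnSeries.C y] * M := by
    intro y v M
    rw [← smul_mul']
    congr 1
    refine Matrix.ext fun r s => ?_
    rw [Matrix.smul_apply, smul_eq_mul]
    fin_cases r <;> fin_cases s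
    · exact mul_one _
    · exact (map_mul _ _ _).symm
    · exact mul_zero _
    · exact mul_one _
  have hc01 : g' * (w t + w' t) - g * w t - w' t ∈ N ^ (r + 1) := by
    have e1 : g' * (w t + w' t) - g * w t - w' t =
        (g - 1) * w' t + (w t + w' t) * e := by rw [hge]; ring
    rw [e1]
    exact Ideal.add_mem _ (h1 hgN (hw' t)) (h1 (N.add_mem (hw t) (hNr (hw' t))) heN)
  rcases hPf with hPt | hPt
  · rcases hPmf with hc | hc
    · -- mid
      have eM : ∀ Q : ℕ → GL (Fin 2) A, MB p P f b Q t = !![1, 0; 0, un (p - 1)] := by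
        intro Q
        unfold MB
        rw [if_pos hPt, if_pos hc]
      unfold MX DK
      rw [if_pos hPt, if_pos hPt, if_pos hPt, if_pos hc, sub_zero, ← hg, ← hg', eM, eM, eM, hsm,
        hWm, hgm, hgm, ← Matrix.add_mul, ← Matrix.sub_mul, ← Matrix.sub_mul]
      refine MSmall.mul_right ?_ _
      have e2 : (!![HahnSeries.C g', HahnSeries.C (g' * (w t + w' t)); 0, HahnSeries.C g'] -
          !![HahnSeries.C g, HahnSeries.C (g * w t); 0, HahnSeries.C g] -
          (!![HahnSeries.C e, 0; 0, HahnSeries.C e] + !![0, HahnSeries.C (w' t); 0, 0]) : Mat A) =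
          !![0, HahnSeries.C (g' * (w t + w' t) - g * w t - w' t) * 1; 0, 0] := by
        refine Matrix.ext fun r s => ?_
        rw [Matrix.sub_apply, Matrix.sub_apply, Matrix.add_apply, hge]
        fin_cases r <;> fin_cases s
        · show HahnSeries.C (g + e) - HahnSeries.C g - (HahnSeries.C e + 0) =
            (0 : LaurentSeries A)
          rw [map_add]; ring
        · show HahnSeries.C ((g + e) * (w t + w' t)) - HahnSeries.C (g * w t) -
            (0 + HahnSeries.C (w' t)) =
            HahnSeries.C ((g + e) * (w t + w' t) - g * w t - w' t) * (1 : LaurentSeries A)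
          rw [map_sub, map_sub]; ring
        · show (0 : LaurentSeries A) - 0 - (0 + 0) = 0
          ring
        · show HahnSeries.C (g + e) - HahnSeries.C g - (HahnSeries.C e + 0) =
            (0 : LaurentSeries A)
          rw [map_add]; ring
      rw [e2]
      exact MSmall_mk (fun _ => (N ^ (r + 1)).zero_mem) (small_C_mul hc01 _)
        (fun _ => (N ^ (r + 1)).zero_mem) (fun _ => (N ^ (r + 1)).zero_mem)
    · -- start
      have eM : ∀ (Q : ℕ → GL (Fin 2) A), MB p P f b Q t = !![un 1, 0; 0, 1] * gz (Q t)⁻¹ := by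
        intro Q
        unfold MB
        rw [if_pos hPt, if_neg (hnt _ hc)]
      have eM' : ∀ (l : ℕ → A), MB p P f b (fun t => Q t * eL (l t)) t =
          !![un 1, 0; -HahnSeries.C (l t), 1] * gz (Q t)⁻¹ := by
        intro l
        rw [eM, mul_inv_rev, gz_mul, gz_eL_inv, ← Matrix.mul_assoc, Matrix.mul_fin_two]
        congr 1
        apply mat2_congr <;> ring
      have hll : ∀ M : Mat A, (HahnSeries.C (l' t) : LaurentSeries A) • (!![0, 0; 1, 0] * M) =
          !![0, 0; HahnSeries.C (l' t), 0] * M := by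
        intro M
        rw [← smul_mul']
        congr 1
        refine Matrix.ext fun r s => ?_
        rw [Matrix.smul_apply, smul_eq_mul]
        fin_cases r <;> fin_cases s
        · exact mul_zero _
        · exact mul_zero _
        · exact mul_one _
        · exact mul_zero _
      unfold MX DK
      rw [if_pos hPt, if_pos hPt, if_pos hPt, if_neg (hnt _ hc), ← hg, ← hg', eM Q,
        eM' (fun t => l t + l' t), eM' l, hsm, hWm, hgm, hgm, hll]
      simp only [← Matrix.mul_assoc]
      rw [← Matrix.add_mul, ← Matrix.sub_mul, ← Matrix.sub_mul, ← Matrix.sub_mul]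
      refine MSmall.mul_right ?_ _
      have hc00 : -(g' * (w t + w' t) * (l t + l' t) - g * w t * l t) ∈ N ^ (r + 1) := by
        have e1 : -(g' * (w t + w' t) * (l t + l' t) - g * w t * l t) =
            -(g' * ((w t + w' t) * l' t) + g' * (l t * w' t) + w t * (l t * e)) := by
          rw [hge]; ring
        rw [e1]
        exact (N ^ (r + 1)).neg_mem (Ideal.add_mem _ (Ideal.add_mem _
          (Ideal.mul_mem_left _ _ (h1 (N.add_mem (hw t) (hNr (hw' t))) (hl' t)))
          (Ideal.mul_mem_left _ _ (h1 (hl t) (hw' t))))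
          (Ideal.mul_mem_left _ _ (h1 (hl t) heN)))
      have hc10 : -(g' * (l t + l' t) - g * l t - l' t) ∈ N ^ (r + 1) := by
        have e1 : -(g' * (l t + l' t) - g * l t - l' t) =
            -((g - 1) * l' t + (l t + l' t) * e) := by rw [hge]; ring
        rw [e1]
        exact (N ^ (r + 1)).neg_mem (Ideal.add_mem _ (h1 hgN (hl' t))
          (h1 (N.add_mem (hl t) (hNr (hl' t))) heN))
      have e2 : (!![HahnSeries.C g', HahnSeries.C (g' * (w t + w' t)); 0, HahnSeries.C g'] *
            !![un 1, 0; -HahnSeries.C (l t + l' t), 1] -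
          !![HahnSeries.C g, HahnSeries.C (g * w t); 0, HahnSeries.C g] *
            !![un 1, 0; -HahnSeries.C (l t), 1] -
          (!![HahnSeries.C e, 0; 0, HahnSeries.C e] * !![un 1, 0; 0, 1] +
            !![0, HahnSeries.C (w' t); 0, 0] * !![un 1, 0; 0, 1] -
            !![0, 0; HahnSeries.C (l' t), 0]) : Mat A) =
          !![HahnSeries.C (-(g' * (w t + w' t) * (l t + l' t) - g * w t * l t)) * 1,
            HahnSeries.C (g' * (w t + w' t) - g * w t - w' t) * 1;
            HahnSeries.C (-(g' * (l t + l' t) - g * l t - l' t)) * 1, 0] := by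
        rw [Matrix.mul_fin_two, Matrix.mul_fin_two, Matrix.mul_fin_two, Matrix.mul_fin_two]
        refine Matrix.ext fun r s => ?_
        rw [Matrix.sub_apply, Matrix.sub_apply, Matrix.sub_apply, Matrix.add_apply, hge]
        fin_cases r <;> fin_cases s
        · show HahnSeries.C (g + e) * un 1 + HahnSeries.C ((g + e) * (w t + w' t)) *
              -HahnSeries.C (l t + l' t) - (HahnSeries.C g * un 1 + HahnSeries.C (g * w t) *
              -HahnSeries.C (l t)) - ((HahnSeries.C e * un 1 + 0 * 0) +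
              (0 * un 1 + HahnSeries.C (w' t) * 0) - 0) =
            HahnSeries.C (-((g + e) * (w t + w' t) * (l t + l' t) - g * w t * l t)) *
              (1 : LaurentSeries A)
          simp only [map_add, map_sub, map_neg, map_mul]; ring
        · show HahnSeries.C (g + e) * 0 + HahnSeries.C ((g + e) * (w t + w' t)) * 1 -
              (HahnSeries.C g * 0 + HahnSeries.C (g * w t) * 1) - ((HahnSeries.C e * 0 + 0 * 1) +
              (0 * 0 + HahnSeries.C (w' t) * 1) - 0) =
            HahnSeries.C ((g + e) * (w t + w' t) - g * w t - w' t) * (1 : LaurentSeries A)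
          simp only [map_add, map_sub, map_neg, map_mul]; ring
        · show 0 * un 1 + HahnSeries.C (g + e) * -HahnSeries.C (l t + l' t) -
              (0 * un 1 + HahnSeries.C g * -HahnSeries.C (l t)) - ((0 * un 1 +
              HahnSeries.C e * 0) + (0 * un 1 + 0 * 0) - HahnSeries.C (l' t)) =
            HahnSeries.C (-((g + e) * (l t + l' t) - g * l t - l' t)) * (1 : LaurentSeries A)
          simp only [map_add, map_sub, map_neg, map_mul]; ring
        · show 0 * 0 + HahnSeries.C (g + e) * 1 -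
              (0 * 0 + HahnSeries.C g * 1) - ((0 * 0 + HahnSeries.C e * 1) +
              (0 * 0 + 0 * 1) - 0) = (0 : LaurentSeries A)
          simp only [map_add, map_sub, map_neg, map_mul]; ring
      rw [e2]
      exact MSmall_mk (small_C_mul hc00 _) (small_C_mul hc01 _) (small_C_mul hc10 _)
        (fun _ => (N ^ (r + 1)).zero_mem)
  · rcases hPmf with hc | hc
    · -- end
      have eM : ∀ (Q : ℕ → GL (Fin 2) A), MB p P f b Q t =
          gz (Q (t - 1)) * !![1, 0; 0, un p] := by
        intro Q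
        unfold MB
        rw [if_neg (hnt _ hPt), if_pos hc]
      unfold MX DK
      rw [if_neg (hnt _ hPt), if_neg (hnt _ hPt), if_neg (hnt _ hPt), if_pos hc, if_pos hc,
        if_pos hc, eM, eM, gz_mul, gz_mul, gz_eL, gz_eL, ← mul_smul', Matrix.mul_assoc,
        Matrix.mul_assoc, ← Matrix.mul_sub, ← Matrix.mul_sub]
      have e2 : (!![1, 0; HahnSeries.C (l (t - 1) + l' (t - 1)), 1] * !![1, 0; 0, un p] -
          !![1, 0; HahnSeries.C (l (t - 1)), 1] * !![1, 0; 0, un p] -
          (HahnSeries.C (l' (t - 1)) : LaurentSeries A) • !![0, 0; 1, 0] : Mat A) = 0 := by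
        rw [Matrix.mul_fin_two, Matrix.mul_fin_two, hz]
        refine Matrix.ext fun r s => ?_
        rw [Matrix.sub_apply, Matrix.sub_apply, Matrix.smul_apply, smul_eq_mul]
        fin_cases r <;> fin_cases s
        · show (1 : LaurentSeries A) * 1 + 0 * 0 - (1 * 1 + 0 * 0) -
            HahnSeries.C (l' (t - 1)) * 0 = 0
          ring
        · show (1 : LaurentSeries A) * 0 + 0 * un p - (1 * 0 + 0 * un p) -
            HahnSeries.C (l' (t - 1)) * 0 = 0
          ring
        · show HahnSeries.C (l (t - 1) + l' (t - 1)) * 1 + 1 * 0 -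
            (HahnSeries.C (l (t - 1)) * 1 + 1 * 0) - HahnSeries.C (l' (t - 1)) * 1 =
              (0 : LaurentSeries A)
          rw [map_add]; ring
        · show HahnSeries.C (l (t - 1) + l' (t - 1)) * 0 + 1 * un p -
            (HahnSeries.C (l (t - 1)) * 0 + 1 * un p) - HahnSeries.C (l' (t - 1)) * 0 =
              (0 : LaurentSeries A)
          ring
      rw [e2, Matrix.mul_zero]
      exact MSmall.zero
    · have eM : ∀ (Q Q' : ℕ → GL (Fin 2) A), MB p P f b Q t = MB p P f b Q' t := by
        intro Q Q'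
        unfold MB
        rw [if_neg (hnt _ hPt), if_neg (hnt _ hc), if_neg (hnt _ hPt), if_neg (hnt _ hc)]
      unfold MX DK
      rw [if_neg (hnt _ hPt), if_neg (hnt _ hPt), if_neg (hnt _ hPt), if_neg (hnt _ hc),
        if_neg (hnt _ hc), if_neg (hnt _ hc), eM (fun t => Q t * eL (l t + l' t)) Q,
        eM (fun t => Q t * eL (l t)) Q, ← mul_smul', ← Matrix.mul_sub, ← Matrix.mul_sub]
      have e2 : (!![1, 0; HahnSeries.C (x t + x' t), 1] - !![1, 0; HahnSeries.C (x t), 1] -
          (HahnSeries.C (x' t) : LaurentSeries A) • !![0, 0; 1, 0] : Mat A) = 0 := by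
        rw [hz]
        refine Matrix.ext fun r s => ?_
        rw [Matrix.sub_apply, Matrix.sub_apply, Matrix.smul_apply, smul_eq_mul]
        fin_cases r <;> fin_cases s
        · show (1 : LaurentSeries A) - 1 - HahnSeries.C (x' t) * 0 = 0
          ring
        · show (0 : LaurentSeries A) - 0 - HahnSeries.C (x' t) * 0 = 0
          ring
        · show HahnSeries.C (x t + x' t) - HahnSeries.C (x t) - HahnSeries.C (x' t) * 1 =
            (0 : LaurentSeries A)
          rw [map_add]; ring
        · show (1 : LaurentSeries A) - 1 - HahnSeries.C (x' t) * 0 = 0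
          ring
      rw [e2, Matrix.mul_zero]
      exact MSmall.zero

end

end Pool.Agent.Lib.MP_74d0c9_nt
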