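import Pool.Agent.Lib.MP_74d0c9_nt.XK1
import Pool.Agent.Lib.MP_74d0c9_nt.Unique

/-! Transport of structure, and the difference of two Kisin modules. -/

set_option autoImplicit false

namespace Pool.Agent.Lib.MP_74d0c9_nt

open HahnSeries

universe u

section
variable {A : Type u} [CommRing A]

theorem gx_inv_mul (X : GL (Fin 2) (PowerSeries A)) : gx X⁻¹ * gx X = 1 := by
  rw [← gx_mul, inv_mul_cancel, gx_one]

theorem gx_mul_inv (X : GL (Fin 2) (PowerSeries A)) : gx X * gx X⁻¹ = 1 := by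
  rw [← gx_mul, mul_inv_cancel, gx_one]

theorem map_mul_phi (p : ℕ) [Fact p.Prime] (X Y : Mat A) :
    (X * Y).map (phi A p) = X.map (phi A p) * Y.map (phi A p) := Matrix.map_mul

/-- the Frobenius of a power series: a constant plus a multiple of `u ^ p` -/
theorem phi_ps' (p : ℕ) [Fact p.Prime] (x : PowerSeries A) :
    ∃ y : PowerSeries A, phi A p (ps x) =
      HahnSeries.C (PowerSeries.constantCoeff x) + un p * ps y := by
  have h : GE (phi A p (ps x) - HahnSeries.C (PowerSeries.constantCoeff x)) (p : ℤ) := by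
    intro j hj
    have hp : (0 : ℤ) < p := by exact_mod_cast (Fact.out : p.Prime).pos
    rw [coeff_sub, HahnSeries.C_apply]
    by_cases hd : (p : ℤ) ∣ j
    · obtain ⟨n, rfl⟩ := hd
      rw [phi_coeff]
      rcases lt_trichotomy n 0 with hn | hn | hn
      · rw [coeff_ps_neg _ hn, coeff_single_of_ne, sub_zero]
        exact (mul_neg_of_pos_of_neg hp hn).ne
      · rw [hn, mul_zero, coeff_single_same, coeff_ps_zero, sub_self]
      · exfalso
        have : (p : ℤ) * 1 ≤ p * n := mul_le_mul_of_nonneg_left (by omega) hp.le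
        omega
    · rw [phi_coeff_zero p _ hd, coeff_single_of_ne, sub_zero]
      rintro rfl
      exact hd (dvd_zero _)
  obtain ⟨y, hy, -⟩ := h.exists_ps
  exact ⟨y, by rw [← sub_eq_iff_eq_add', hy]; try rfl⟩

theorem phi_gx (p : ℕ) [Fact p.Prime] (h : GL (Fin 2) (PowerSeries A)) :
    ∃ Y : Matrix (Fin 2) (Fin 2) (PowerSeries A), (gx h).map (phi A p) =
      gz (Matrix.GeneralLinearGroup.map PowerSeries.constantCoeff h) +
        (un p : LaurentSeries A) • Y.map ps := by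
  choose Y hY using fun r s => phi_ps' p (h.1 r s)
  refine ⟨Matrix.of Y, Matrix.ext fun r s => ?_⟩
  rw [Matrix.add_apply, Matrix.smul_apply, smul_eq_mul]
  exact hY r s

/-- the Kisin module `X du(b) Z` multiplied by `φ(h)` on the right -/
theorem frob_mul_phi (p : ℕ) [Fact p.Prime] {b : ℕ} (hb : b ≤ p) (Z : GL (Fin 2) A)
    (h : GL (Fin 2) (PowerSeries A)) :
    ∃ (W : GL (Fin 2) (PowerSeries A)) (Z' : GL (Fin 2) A),
      du (b : ℤ) * gz Z * (gx h).map (phi A p) = gx W * du b * gz Z' := by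
  obtain ⟨Y, hY⟩ := phi_gx p h
  obtain ⟨h0, hh0⟩ : ∃ h0, h0 = Matrix.GeneralLinearGroup.map PowerSeries.constantCoeff h :=
    ⟨_, rfl⟩
  rw [← hh0] at hY
  obtain ⟨Z', hZ'⟩ : ∃ Z', Z' = Z * h0 := ⟨_, rfl⟩
  -- the matrix `Z * Y * Z'⁻¹` over power series
  obtain ⟨V, hV⟩ : ∃ V : Matrix (Fin 2) (Fin 2) (PowerSeries A),
      V = Z.1.map PowerSeries.C * Y * (Z'⁻¹).1.map PowerSeries.C := ⟨_, rfl⟩
  have hC : ∀ Z : GL (Fin 2) A, (Z.1.map PowerSeries.C).map ps = gz Z := by
    intro Z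
    refine Matrix.ext fun r s => ?_
    exact ofPowerSeries_C _
  have hVm : V.map ps = gz Z * Y.map ps * gz Z'⁻¹ := by
    rw [hV, Matrix.map_mul, Matrix.map_mul, hC, hC]
  have e1 : gz Z * (gx h).map (phi A p) = (1 + (un p : LaurentSeries A) • V.map ps) * gz Z' := by
    rw [hVm, Matrix.add_mul, Matrix.one_mul, smul_mul', Matrix.mul_assoc (gz Z * Y.map ps),
      gz_inv_mul, Matrix.mul_one, hY, Matrix.mul_add, mul_smul', ← gz_mul, hZ']
  have hp0 : 0 < p := (Fact.out : p.Prime).pos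
  -- the matrix `du(b) (1 + u ^ p V) du(- b)`
  obtain ⟨W, hW⟩ : ∃ W : Matrix (Fin 2) (Fin 2) (PowerSeries A),
      W = !![1 + PowerSeries.X ^ p * V 0 0, PowerSeries.X ^ (p + b) * V 0 1;
        PowerSeries.X ^ (p - b) * V 1 0, 1 + PowerSeries.X ^ p * V 1 1] := ⟨_, rfl⟩
  have hX : ∀ n : ℕ, ps ((PowerSeries.X : PowerSeries A) ^ n) = un n := by
    intro n
    exact ofPowerSeries_X_pow n
  have e2 : du (b : ℤ) * (1 + (un p : LaurentSeries A) • V.map ps) = W.map ps * du b := by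
    have hV2 : V.map ps = !![ps (V 0 0), ps (V 0 1); ps (V 1 0), ps (V 1 1)] := by
      refine Matrix.ext fun r s => ?_
      fin_cases r <;> fin_cases s <;> rfl
    have h1 : (1 + (un p : LaurentSeries A) • V.map ps) =
        !![1 + un p * ps (V 0 0), un p * ps (V 0 1); un p * ps (V 1 0), 1 + un p * ps (V 1 1)] := by
      rw [hV2]
      refine Matrix.ext fun r s => ?_
      rw [Matrix.add_apply, Matrix.smul_apply, smul_eq_mul]
      fin_cases r <;> fin_cases s
      · rfl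
      · exact zero_add _
      · exact zero_add _
      · rfl
    have h2 : (un ((p + b : ℕ) : ℤ) : LaurentSeries A) = un p * un b := by
      rw [un_mul]; push_cast; rfl
    have h3 : (un ((p - b : ℕ) : ℤ) : LaurentSeries A) * un b = un p := by
      rw [un_mul]; congr 1; omega
    rw [h1, hW, mat2_map, du_two, Matrix.mul_fin_two, Matrix.mul_fin_two]
    simp only [map_add, map_mul, map_one, hX, h2]
    apply mat2_congr
    · ring
    · ring
    · linear_combination (-(ps (V 1 0))) * h3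
    · ring
  have h4 : IsUnit W.det := by
    rw [PowerSeries.isUnit_iff_constantCoeff, hW, Matrix.det_fin_two_of]
    simp only [map_sub, map_mul, map_add, map_one, map_pow, PowerSeries.constantCoeff_X]
    rw [zero_pow hp0.ne', zero_pow (by omega : p + b ≠ 0)]
    simp
  refine ⟨Matrix.GeneralLinearGroup.mk'' W h4, Z', ?_⟩
  show _ = W.map ps * du b * gz Z'
  rw [Matrix.mul_assoc, e1, ← Matrix.mul_assoc, e2]

/-- Two Kisin modules of the same shape which are congruent modulo `I`. -/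
theorem stab_lemma {I : Ideal A} {b : ℕ} (hb : 1 ≤ b) (X X' : GL (Fin 2) (PowerSeries A))
    (Z Z' : GL (Fin 2) A)
    (h : MSmall I (gx X' * du b * gz Z' - gx X * du b * gz Z)) :
    ∃ (y : Mat A) (z : Matrix (Fin 2) (Fin 2) A), MGE y 0 ∧ MSmall I y ∧ (∀ r s, z r s ∈ I) ∧
      gx X' * du b * gz Z' - gx X * du b * gz Z =
        y * (gx X * du b * gz Z) + (gx X' * du b * gz Z') * z.map HahnSeries.C := by
  obtain ⟨ξ, hξ⟩ : ∃ ξ, ξ = X⁻¹ * X' := ⟨_, rfl⟩
  obtain ⟨ζ, hζ⟩ : ∃ ζ, ζ = Z' * Z⁻¹ := ⟨_, rfl⟩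
  have hX' : gx X' = gx X * gx ξ := by rw [hξ, ← gx_mul, mul_inv_cancel_left]
  have hZ' : gz Z' = gz ζ * gz Z := by rw [hζ, ← gz_mul, inv_mul_cancel_right]
  -- the difference in the coordinates of the first module
  have h1 : MSmall I (gx ξ * du b * gz ζ - du (b : ℤ)) := by
    have h2 := (h.mul_left (gx X⁻¹)).mul_right (gz Z⁻¹)
    have e : gx X⁻¹ * (gx X' * du b * gz Z' - gx X * du b * gz Z) * gz Z⁻¹ =
        gx ξ * du b * gz ζ - du (b : ℤ) := by
      rw [hX', hZ', Matrix.mul_sub, Matrix.sub_mul]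
      congr 1
      · calc gx X⁻¹ * (gx X * gx ξ * du b * (gz ζ * gz Z)) * gz Z⁻¹ =
            (gx X⁻¹ * gx X) * (gx ξ * du b * gz ζ) * (gz Z * gz Z⁻¹) := by
              simp only [Matrix.mul_assoc]
          _ = _ := by rw [gx_inv_mul, gz_mul_inv, Matrix.one_mul, Matrix.mul_one]
      · calc gx X⁻¹ * (gx X * du b * gz Z) * gz Z⁻¹ =
            (gx X⁻¹ * gx X) * du b * (gz Z * gz Z⁻¹) := by simp only [Matrix.mul_assoc]
          _ = _ := by rw [gx_inv_mul, gz_mul_inv, Matrix.one_mul, Matrix.mul_one]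
    rwa [e] at h2
  -- the entry `ζ₂₁` is in `I`
  have h2 : ζ.1 1 0 ∈ I := by
    have h3 := h1.mul_left (gx ξ⁻¹)
    have e : gx ξ⁻¹ * (gx ξ * du b * gz ζ - du (b : ℤ)) = du (b : ℤ) * gz ζ - gx ξ⁻¹ * du b := by
      rw [Matrix.mul_sub]
      congr 1
      calc gx ξ⁻¹ * (gx ξ * du b * gz ζ) = (gx ξ⁻¹ * gx ξ) * du b * gz ζ := by
            simp only [Matrix.mul_assoc]
        _ = _ := by rw [gx_inv_mul, Matrix.one_mul]
    rw [e] at h3
    have h4 := h3 1 0 0
    rw [Matrix.sub_apply, coeff_sub, du_two, Matrix.mul_apply, Matrix.mul_apply, Fin.sum_univ_two,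
      Fin.sum_univ_two] at h4
    have e1 : (!![(un b : LaurentSeries A), 0; 0, 1] 1 0 : LaurentSeries A) = 0 := rfl
    have e2 : (!![(un b : LaurentSeries A), 0; 0, 1] 1 1 : LaurentSeries A) = 1 := rfl
    have e3 : (!![(un b : LaurentSeries A), 0; 0, 1] 0 0 : LaurentSeries A) = un b := rfl
    rw [e1, e2, e3, zero_mul, zero_add, one_mul, mul_zero, add_zero] at h4
    have e4 : (gz ζ 1 0).coeff 0 = ζ.1 1 0 := by
      show (HahnSeries.C (ζ.1 1 0) : LaurentSeries A).coeff 0 = _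
      rw [HahnSeries.C_apply, coeff_single_same]
    have e5 : (gx ξ⁻¹ 1 0 * un b).coeff 0 = 0 := by
      rw [mul_comm]
      unfold un
      rw [coeff_single_mul, one_mul]
      exact gx_MGE ξ⁻¹ 1 0 _ (by omega)
    rw [e4, e5, sub_zero] at h4
    exact h4
  obtain ⟨β, hβ⟩ : ∃ β : Mat A, β = !![HahnSeries.C (ζ.1 0 0), HahnSeries.C (ζ.1 0 1);
    0, HahnSeries.C (ζ.1 1 1)] := ⟨_, rfl⟩
  have hζβ : gz ζ = β + (HahnSeries.C (ζ.1 1 0) : LaurentSeries A) • !![0, 0; 1, 0] := by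
    rw [hβ]
    refine Matrix.ext fun r s => ?_
    rw [Matrix.add_apply, Matrix.smul_apply, smul_eq_mul]
    fin_cases r <;> fin_cases s
    · show HahnSeries.C (ζ.1 0 0) = HahnSeries.C (ζ.1 0 0) + HahnSeries.C (ζ.1 1 0) * 0
      ring
    · show HahnSeries.C (ζ.1 0 1) = HahnSeries.C (ζ.1 0 1) + HahnSeries.C (ζ.1 1 0) * 0
      ring
    · show HahnSeries.C (ζ.1 1 0) = 0 + HahnSeries.C (ζ.1 1 0) * 1
      ring
    · show HahnSeries.C (ζ.1 1 1) = HahnSeries.C (ζ.1 1 1) + HahnSeries.C (ζ.1 1 0) * 0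
      ring
  obtain ⟨β', hβ'⟩ : ∃ β' : Mat A, β' = !![HahnSeries.C (ζ.1 0 0),
    un b * HahnSeries.C (ζ.1 0 1); 0, HahnSeries.C (ζ.1 1 1)] := ⟨_, rfl⟩
  have hdβ : du (b : ℤ) * β = β' * du b := by
    rw [hβ, hβ', du_two, Matrix.mul_fin_two, Matrix.mul_fin_two]
    apply mat2_congr <;> ring
  obtain ⟨κ, hκ⟩ : ∃ κ : Mat A, κ = gx ξ * β' - 1 := ⟨_, rfl⟩
  have hβ'G : MGE β' 0 := by
    have hCG : ∀ c : A, GE (HahnSeries.C c : LaurentSeries A) 0 := by
      intro c j hj
      rw [HahnSeries.C_apply, coeff_single_of_ne (by omega)]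
    intro r s
    rw [hβ']
    fin_cases r <;> fin_cases s
    · exact hCG _
    · show GE (un b * HahnSeries.C (ζ.1 0 1)) 0
      intro j hj
      unfold un
      rw [coeff_single_mul, one_mul]
      exact hCG _ _ (by omega)
    · exact GE.zero 0
    · exact hCG _
  have h1G : MGE (1 : Mat A) 0 := by
    have := gx_MGE (1 : GL (Fin 2) (PowerSeries A))
    rwa [gx_one] at this
  have hκG : MGE κ 0 := by
    rw [hκ]
    intro r s j hj
    rw [Matrix.sub_apply, coeff_sub]
    have e1 := ((gx_MGE ξ).mul hβ'G).1 r s j (by simpa using hj)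
    rw [e1, h1G r s j hj, sub_zero]
  have hκd : κ * du b = (gx ξ * du b * gz ζ - du (b : ℤ)) -
      (HahnSeries.C (ζ.1 1 0) : LaurentSeries A) • (gx ξ * du b * !![0, 0; 1, 0]) := by
    rw [hκ, hζβ, Matrix.mul_add, mul_smul', Matrix.mul_assoc (gx ξ) (du b) β, hdβ, Matrix.sub_mul,
      Matrix.one_mul, Matrix.mul_assoc (gx ξ) β']
    abel
  have hκS : MSmall I κ := by
    have h5 : MSmall I (κ * du b) := by
      rw [hκd]
      refine h1.sub ?_
      have h6 := (MSmall.top (gx ξ * du b * !![0, 0; 1, 0])).smul h2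
      rwa [Ideal.mul_top] at h6
    have h6 := h5.mul_right (du (-(b : ℤ)))
    have e : (du (b : ℤ) : Mat A) * du (-(b : ℤ)) = 1 := by
      rw [du_two, du_two, Matrix.mul_fin_two, Matrix.one_fin_two]
      apply mat2_congr
      · linear_combination un_mul_neg (k := A) b
      · ring
      · ring
      · ring
    rwa [Matrix.mul_assoc, e, Matrix.mul_one] at h6
  refine ⟨gx X * κ * gx X⁻¹, ζ.1 1 0 • ((Z'⁻¹).1 * !![0, 0; 1, 0] * Z.1), ?_, ?_, ?_, ?_⟩
  · have := (((gx_MGE X).mul hκG).1.mul (gx_MGE X⁻¹)).1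
    simpa using this
  · exact (hκS.mul_left _).mul_right _
  · intro r s
    exact I.mul_mem_right _ h2
  · have e1 : (ζ.1 1 0 • ((Z'⁻¹).1 * !![0, 0; 1, 0] * Z.1)).map HahnSeries.C =
        (HahnSeries.C (ζ.1 1 0) : LaurentSeries A) • (gz Z'⁻¹ * !![0, 0; 1, 0] * gz Z) := by
      have e2 : (!![0, 0; 1, 0] : Mat A) =
          (!![0, 0; 1, 0] : Matrix (Fin 2) (Fin 2) A).map HahnSeries.C := by
        rw [mat2_map, map_zero, map_one]
      rw [e2]
      unfold gz
      rw [← Matrix.map_mul, ← Matrix.map_mul]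
      refine Matrix.ext fun r s => ?_
      rw [Matrix.smul_apply, smul_eq_mul]
      exact map_mul (HahnSeries.C : A →+* LaurentSeries A) _ _
    have e3 : gx X' * du b * gz Z' * (gz Z'⁻¹ * !![0, 0; 1, 0] * gz Z) =
        gx X * (gx ξ * du b * !![0, 0; 1, 0]) * gz Z := by
      rw [hX']
      calc gx X * gx ξ * du b * gz Z' * (gz Z'⁻¹ * !![0, 0; 1, 0] * gz Z) =
          gx X * gx ξ * du b * (gz Z' * gz Z'⁻¹) * !![0, 0; 1, 0] * gz Z := by
            simp only [Matrix.mul_assoc]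
        _ = _ := by
            rw [gz_mul_inv, Matrix.mul_one]
            simp only [Matrix.mul_assoc]
    have e4 : gx X * κ * gx X⁻¹ * (gx X * du b * gz Z) = gx X * (κ * du b) * gz Z := by
      calc gx X * κ * gx X⁻¹ * (gx X * du b * gz Z) =
          gx X * κ * (gx X⁻¹ * gx X) * du b * gz Z := by simp only [Matrix.mul_assoc]
        _ = _ := by
            rw [gx_inv_mul, Matrix.mul_one]
            simp only [Matrix.mul_assoc]
    rw [e1, mul_smul', e3, e4, hκd, Matrix.mul_sub, Matrix.sub_mul, mul_smul', smul_mul',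
      sub_add_cancel, Matrix.mul_sub, Matrix.sub_mul, hX', hZ']
    simp only [Matrix.mul_assoc]

end

section
variable {A : Type u} [CommRing A] {p f : ℕ} [Fact p.Prime] {a : ZMod f → ℕ}

/-- K2: transport of structure. -/
theorem exists_transport (ha : ∀ i, a i ≤ p) (M : KisinModule f A)
    (g : ZMod f → GL (Fin 2) (PowerSeries A)) :
    ∃ M' : KisinModule f A, IsHom p (M.frob a) (M'.frob a) fun j => gx (g j) := by
  choose W Z' hW using fun j => frob_mul_phi p (ha j) (M.Z j) ((g (j - 1))⁻¹)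
  refine ⟨⟨fun j => g j * M.X j * W j, Z'⟩, fun j => ?_⟩
  show gx (g j) * (gx (M.X j) * du (a j) * gz (M.Z j)) =
    gx (g j * M.X j * W j) * du (a j) * gz (Z' j) * (gx (g (j - 1))).map (phi A p)
  have e1 : (gx (g (j - 1))⁻¹).map (phi A p) * (gx (g (j - 1))).map (phi A p) = 1 := by
    rw [← map_mul_phi, gx_inv_mul, map_one_phi]
  rw [gx_mul, gx_mul]
  calc gx (g j) * (gx (M.X j) * du (a j) * gz (M.Z j)) =
      gx (g j) * gx (M.X j) * (du (a j) * gz (M.Z j)) * 1 := by
        simp only [Matrix.mul_assoc, Matrix.mul_one]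
    _ = gx (g j) * gx (M.X j) * (du (a j) * gz (M.Z j) * (gx (g (j - 1))⁻¹).map (phi A p)) *
        (gx (g (j - 1))).map (phi A p) := by
        rw [← e1]
        simp only [Matrix.mul_assoc]
    _ = _ := by
        rw [hW]
        simp only [Matrix.mul_assoc]

/-- two Kisin modules which are congruent modulo `I` -/
theorem exists_stab {I : Ideal A} (ha : ∀ i, 1 ≤ a i) (M M' : KisinModule f A)
    (h : ∀ j, MSmall I (M'.frob a j - M.frob a j)) :
    ∃ (y : ZMod f → Mat A) (z : ZMod f → Matrix (Fin 2) (Fin 2) A), (∀ j, MGE (y j) 0) ∧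
      (∀ j, MSmall I (y j)) ∧ (∀ j r s, z j r s ∈ I) ∧
      ∀ j, M'.frob a j - M.frob a j = y j * M.frob a j + M'.frob a j * (z j).map HahnSeries.C := by
  choose y z h1 h2 h3 h4 using fun j => stab_lemma (ha j) (M.X j) (M'.X j) (M.Z j) (M'.Z j) (h j)
  exact ⟨y, z, h1, h2, h3, h4⟩

end

end Pool.Agent.Lib.MP_74d0c9_nt
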