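import Pool.Agent.Lib.MP_74d0c9_nt.XK1
import Pool.Agent.Lib.MP_74d0c9_nt.XK2
import Pool.Agent.Lib.MP_74d0c9_nt.XK3
import Pool.Agent.Lib.MP_74d0c9_nt.XExp

/-! Newton iteration: the Kisin modules near a point of the residual Kisin variety. -/

set_option autoImplicit false

namespace Pool.Agent.Lib.MP_74d0c9_nt

open HahnSeries

universe u

section
variable {A : Type u} [CommRing A] {p f : ℕ} [Fact p.Prime] {N : Ideal A}

theorem isNilpotent_mem (hN : IsNilpotent N) {x : A} (hx : x ∈ N) : IsNilpotent x := by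
  obtain ⟨n, hn⟩ := hN
  refine ⟨n, ?_⟩
  have h := Ideal.pow_mem_pow hx n
  rw [hn] at h
  exact h

theorem isUnit_one_add_mem (hN : IsNilpotent N) {x : A} (hx : x ∈ N) : IsUnit (1 + x) := by
  have h := (isNilpotent_mem hN (N.neg_mem hx)).isUnit_one_sub
  rwa [sub_neg_eq_add] at h

theorem mge_one : MGE (1 : Mat A) 0 := by
  have := gx_MGE (1 : GL (Fin 2) (PowerSeries A))
  rwa [gx_one] at this

theorem MGE.sub' {X Y : Mat A} {m : ℤ} (hX : MGE X m) (hY : MGE Y m) : MGE (X - Y) m := by
  intro r s j hj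
  rw [Matrix.sub_apply, coeff_sub, hX r s j hj, hY r s j hj, sub_zero]

/-- `1 - C` as an invertible matrix of power series -/
theorem exists_gx_one_sub (hN : IsNilpotent N) {C : Mat A} (hC : MGE C 0) (hCN : MSmall N C) :
    ∃ g : GL (Fin 2) (PowerSeries A), gx g = 1 - C := by
  have hG : MGE (1 - C) 0 := mge_one.sub' hC
  have e0 : (1 : LaurentSeries A).coeff 0 = 1 := by
    rw [coeff_one, if_pos rfl]
  have h1 : IsUnit (((1 - C) : Mat A).det.coeff 0) := by
    rw [Matrix.det_fin_two, coeff_sub]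
    have h2 := ((hG 0 0).mul (hG 1 1)).2
    have h3 := ((hG 0 1).mul (hG 1 0)).2
    rw [add_zero] at h2 h3
    rw [h2, h3]
    have f1 : (((1 - C) : Mat A) 0 0).coeff 0 = 1 - (C 0 0).coeff 0 := by
      rw [Matrix.sub_apply, coeff_sub, Matrix.one_apply_eq, e0]
    have f2 : (((1 - C) : Mat A) 1 1).coeff 0 = 1 - (C 1 1).coeff 0 := by
      rw [Matrix.sub_apply, coeff_sub, Matrix.one_apply_eq, e0]
    have f3 : (((1 - C) : Mat A) 0 1).coeff 0 = - (C 0 1).coeff 0 := by
      rw [Matrix.sub_apply, coeff_sub, Matrix.one_apply_ne (by decide), coeff_zero, zero_sub]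
    rw [f1, f2, f3]
    have h4 : (1 - (C 0 0).coeff 0) * (1 - (C 1 1).coeff 0) -
        -(C 0 1).coeff 0 * (((1 - C) : Mat A) 1 0).coeff 0 =
        1 + (-(C 0 0).coeff 0 - (C 1 1).coeff 0 + (C 0 0).coeff 0 * (C 1 1).coeff 0 +
          (C 0 1).coeff 0 * (((1 - C) : Mat A) 1 0).coeff 0) := by ring
    rw [h4]
    apply isUnit_one_add_mem hN
    exact N.add_mem (N.add_mem (N.sub_mem (N.neg_mem (hCN 0 0 0)) (hCN 1 1 0))
      (N.mul_mem_right _ (hCN 0 0 0))) (N.mul_mem_right _ (hCN 0 1 0))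
  obtain ⟨g, hg⟩ := gx_of_integral hG h1
  exact ⟨g, hg.symm⟩

/-- one step of the iteration -/
theorem step_calc {r : ℕ} (hr : 1 ≤ r) {C F F' B' : ZMod f → Mat A}
    (hC : ∀ j, MSmall (N ^ r) (C j)) (hF : ∀ j, MSmall N (F j - B' j))
    (h : ∀ j, (1 - C j) * F j = F' j * (1 - (C (j - 1)).map (phi A p))) :
    (∀ j, MSmall N (F' j - B' j)) ∧
      ∀ j, MSmall (N ^ (r + 1))
        (F' j - F j + (C j * B' j - B' j * (C (j - 1)).map (phi A p))) := by
  have hle : N ^ r ≤ N := Ideal.pow_le_self (by omega)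
  have e : ∀ j, F' j - F j = F' j * (C (j - 1)).map (phi A p) - C j * F j := by
    intro j
    have h1 := h j
    rw [Matrix.sub_mul, Matrix.one_mul, Matrix.mul_sub, Matrix.mul_one] at h1
    have h2 : F' j = (F j - C j * F j) + F' j * (C (j - 1)).map (phi A p) := by
      rw [h1]
      abel
    calc F' j - F j = ((F j - C j * F j) + F' j * (C (j - 1)).map (phi A p)) - F j := by
          rw [← h2]
      _ = _ := by abel
  have h1 : ∀ j, MSmall N (F' j - B' j) := by
    intro j
    have e1 : F' j - B' j = (F j - B' j) +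
        (F' j * (C (j - 1)).map (phi A p) - C j * F j) := by
      rw [← e j]
      abel
    rw [e1]
    exact (hF j).add ((((MSmall.mono (hC (j - 1)) hle).frob p).mul_left _).sub
      ((MSmall.mono (hC j) hle).mul_right _))
  refine ⟨h1, fun j => ?_⟩
  have e1 : F' j - F j + (C j * B' j - B' j * (C (j - 1)).map (phi A p)) =
      (F' j - B' j) * (C (j - 1)).map (phi A p) - C j * (F j - B' j) := by
    rw [e j]
    noncomm_ring
  rw [e1, pow_succ]
  refine MSmall.sub ?_ ((hC j).mul (hF j))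
  rw [mul_comm]
  exact (h1 j).mul ((hC (j - 1)).frob p)

/-- an invertible matrix of power series as an invertible matrix of Laurent series -/
noncomputable def glps (g : GL (Fin 2) (PowerSeries A)) : GL (Fin 2) (LaurentSeries A) :=
  Matrix.GeneralLinearGroup.map ps g

theorem glps_val (g : GL (Fin 2) (PowerSeries A)) : (glps g).1 = gx g := rfl

theorem glps_mul_val (g : GL (Fin 2) (PowerSeries A)) (G : GL (Fin 2) (LaurentSeries A)) :
    (glps g * G).1 = gx g * G.1 := rfl

theorem arrange (X3 X' X'' Y D Xn Xo : Mat A) (h : X'' = Xo) :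
    X3 - Xn = (X3 - X' + Y) + (X' - X'' - (Y + D)) - (Xn - Xo - D) := by
  rw [h]
  abel

theorem msmall_C {I : Ideal A} {z : Matrix (Fin 2) (Fin 2) A} (hz : ∀ r s, z r s ∈ I) :
    MSmall I (z.map HahnSeries.C) := by
  intro r' s' v
  show (HahnSeries.C (z r' s') : LaurentSeries A).coeff v ∈ I
  rw [HahnSeries.C_apply]
  by_cases hv : v = 0
  · rw [hv, coeff_single_same]
    exact hz r' s'
  · rw [coeff_single_of_ne hv]
    exact Ideal.zero_mem _

end

section
variable {p f : ℕ} [Fact p.Prime] [NeZero f] {P : ℕ → Bool} {a : ZMod f → ℕ}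

/-- the tangent equations, with coefficients in an ideal -/
theorem tangent_ideal {k A : Type u} [Field k] [CommRing A] [Algebra k A] [Module.Finite k A]
    (hp : 5 ≤ p)
    (hk : (2 : k) ≠ 0) (hP : GoodP P f) (ha : ∀ i, 1 ≤ a i ∧ a i ≤ p) (i : ZMod f)
    (hpat : IsPat p f a i P) (I : Ideal A)
    (Q : ℕ → GL (Fin 2) k) (hQ : ∀ t, P t = true → Pm P t = true → Q t = Q (t - 1))
    (y : ZMod f → Mat A) (hy0 : ∀ j, MGE (y j) 0) (hyN : ∀ j, MSmall I (y j))
    (z : ZMod f → Matrix (Fin 2) (Fin 2) A) (hzN : ∀ j r s, z j r s ∈ I) :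
    ∃ (C : ZMod f → Mat A) (l w x : ℕ → A) (s : A), (∀ j, MGE (C j) 0) ∧ (∀ j, MSmall I (C j)) ∧
      (∀ t, l t ∈ I) ∧ (∀ t, w t ∈ I) ∧ (∀ t, x t ∈ I) ∧ s ∈ I ∧
      (∀ t, P t = true → Pm P t = true → l t = l (t - 1)) ∧
      ∀ j, y j * toA A (MB p P f (a j) Q (j - i).val) +
          toA A (MB p P f (a j) Q (j - i).val) * (z j).map HahnSeries.C =
          (C j * toA A (MB p P f (a j) Q (j - i).val) -
            toA A (MB p P f (a j) Q (j - i).val) * (C (j - 1)).map (phi A p)) +
          DK p P f (a j) (fun t => Matrix.GeneralLinearGroup.map (algebraMap k A) (Q t)) l s w x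
            (j - i).val := by
  obtain ⟨d, b, lam, hb, hbx⟩ := exists_dual (k := k) I
  have hyl : ∀ (e : Fin d) (j : ZMod f), MGE (LL (lam e) y j) 0 := by
    intro e j r' s' v hv
    rw [LL_coeff, hy0 j r' s' v hv, map_zero]
  choose c l' w' x' s' hc hl' hT using fun e : Fin d =>
    tangent_MB hp hk hP ha i hpat Q hQ (LL (lam e) y) (hyl e) (fun j => (z j).map (lam e))
  have hmem : ∀ c' : Fin d → k, ∑ e, b e * algebraMap k A (c' e) ∈ I := fun c' =>
    Ideal.sum_mem _ fun e _ => Ideal.mul_mem_right _ _ (hb e)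
  refine ⟨fun j => ∑ e, (HahnSeries.C (b e) : LaurentSeries A) • toA A (c e j),
    fun t => ∑ e, b e * algebraMap k A (l' e t), fun t => ∑ e, b e * algebraMap k A (w' e t),
    fun t => ∑ e, b e * algebraMap k A (x' e t), ∑ e, b e * algebraMap k A (s' e), ?_, ?_,
    fun t => hmem fun e => l' e t, fun t => hmem fun e => w' e t, fun t => hmem fun e => x' e t,
    hmem s', fun t h1 h2 => Finset.sum_congr rfl fun e _ => by rw [hl' e t h1 h2], fun j => ?_⟩
  · intro j r' s' v hv
    show ((∑ e, (HahnSeries.C (b e) : LaurentSeries A) • toA A (c e j)) r' s').coeff v = 0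
    rw [Matrix.sum_apply, coeff_sum']
    refine Finset.sum_eq_zero fun e _ => ?_
    rw [Matrix.smul_apply, smul_eq_mul, coeff_C_mul']
    have e1 : (toA A (c e j) r' s').coeff v = 0 := by
      show algebraMap k A ((c e j r' s').coeff v) = 0
      rw [hc e j r' s' v hv, map_zero]
    rw [e1, mul_zero]
  · intro j r' s' v
    show ((∑ e, (HahnSeries.C (b e) : LaurentSeries A) • toA A (c e j)) r' s').coeff v ∈ I
    rw [Matrix.sum_apply, coeff_sum']
    refine Ideal.sum_mem _ fun e _ => ?_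
    rw [Matrix.smul_apply, smul_eq_mul, coeff_C_mul']
    exact Ideal.mul_mem_right _ _ (hb e)
  · have hCphi : (∑ e, (HahnSeries.C (b e) : LaurentSeries A) • toA A (c e (j - 1))).map
        (phi A p) =
        ∑ e, (HahnSeries.C (b e) : LaurentSeries A) • toA A ((c e (j - 1)).map (phi k p)) := by
      rw [sum_phi]
      refine Finset.sum_congr rfl fun e _ => ?_
      rw [smul_phi, toA_phi]
    have h1 := expand_mat (k := k) hbx (hyN j)
    have h2 : (z j).map HahnSeries.C = ∑ e, (HahnSeries.C (b e) : LaurentSeries A) •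
        toA A (((z j).map (lam e)).map HahnSeries.C) := by
      have h4 := expand_mat (k := k) hbx (msmall_C (hzN j))
      rw [h4]
      refine Finset.sum_congr rfl fun e _ => ?_
      congr 2
      refine Matrix.ext fun r' s' => ?_
      ext v
      show lam e ((HahnSeries.C (z j r' s') : LaurentSeries A).coeff v) =
        (HahnSeries.C (lam e (z j r' s')) : LaurentSeries k).coeff v
      rw [HahnSeries.C_apply, HahnSeries.C_apply]
      by_cases hv : v = 0
      · rw [hv, coeff_single_same, coeff_single_same]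
      · rw [coeff_single_of_ne hv, coeff_single_of_ne hv, map_zero]
    have h5 : ∀ e, (y j).map (cm (lam e)) = LL (lam e) y j := fun e => rfl
    rw [hCphi, h2]
    conv_lhs => rw [h1]
    rw [← sum_toA_DK, Finset.sum_mul, Finset.mul_sum, Finset.sum_mul, Finset.mul_sum,
      ← Finset.sum_add_distrib, ← Finset.sum_sub_distrib, ← Finset.sum_add_distrib]
    refine Finset.sum_congr rfl fun e _ => ?_
    rw [h5, smul_mul', mul_smul', smul_mul', mul_smul', ← smul_add, ← smul_sub, ← smul_add,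
      ← toA_mul, ← toA_mul, ← toA_mul, ← toA_mul, ← toA_add, ← toA_sub, ← toA_add, hT e j]

/-- one step of the Newton iteration -/
theorem newton_step {k A : Type u} [Field k] [CommRing A] [Algebra k A] [Module.Finite k A]
    (hp : 5 ≤ p)
    (hk : (2 : k) ≠ 0) (hP : GoodP P f) (ha : ∀ i, 1 ≤ a i ∧ a i ≤ p) (i : ZMod f)
    (hpat : IsPat p f a i P) (N : Ideal A) (hN : IsNilpotent N)
    (Q : ℕ → GL (Fin 2) k) (hQ : ∀ t, P t = true → Pm P t = true → Q t = Q (t - 1))
    (QA : ℕ → GL (Fin 2) A)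
    (hQA : QA = fun t => Matrix.GeneralLinearGroup.map (algebraMap k A) (Q t))
    {r : ℕ} (hr : 1 ≤ r) (l w x : ℕ → A) (s : A) (M' : KisinModule f A)
    (hl : ∀ t, l t ∈ N) (hw : ∀ t, w t ∈ N) (hx : ∀ t, x t ∈ N) (hs : s ∈ N)
    (hlr : ∀ t, P t = true → Pm P t = true → l t = l (t - 1))
    (hMN : ∀ j, MSmall N (M'.frob a j - toA A (MB p P f (a j) Q (j - i).val)))
    (hMr : ∀ j, MSmall (N ^ r) (M'.frob a j -
        MX p P f (a j) (fun t => QA t * eL (l t)) s w x (j - i).val)) :
    ∃ (l' w' x' : ℕ → A) (s' : A) (M3 : KisinModule f A)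
      (g : ZMod f → GL (Fin 2) (PowerSeries A)),
      (∀ t, l' t ∈ N ^ r) ∧ (∀ t, w' t ∈ N ^ r) ∧ (∀ t, x' t ∈ N ^ r) ∧ s' ∈ N ^ r ∧
      (∀ t, P t = true → Pm P t = true → l' t = l' (t - 1)) ∧
      (∀ j, MSmall (N ^ r) (gx (g j) - 1)) ∧
      IsHom p (M'.frob a) (M3.frob a) (fun j => gx (g j)) ∧
      (∀ j, MSmall N (M3.frob a j - toA A (MB p P f (a j) Q (j - i).val))) ∧
      ∀ j, MSmall (N ^ (r + 1)) (M3.frob a j -
        MX p P f (a j) (fun t => QA t * eL (l t + l' t)) (s + s') (fun t => w t + w' t)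
          (fun t => x t + x' t) (j - i).val) := by
  have hQAc : ∀ t, P t = true → Pm P t = true → QA t = QA (t - 1) := by
    intro t h1 h2
    rw [hQA]
    show Matrix.GeneralLinearGroup.map (algebraMap k A) (Q t) = _
    rw [hQ t h1 h2]
  have hle : N ^ r ≤ N := Ideal.pow_le_self (by omega)
  obtain ⟨M'', hM'', -⟩ := exists_MX (k := k) hP i hpat (fun t => QA t * eL (l t))
    (fun t h1 h2 => by rw [hQAc t h1 h2, hlr t h1 h2]) s (isUnit_one_add_mem hN hs) w x
  have hD : ∀ j, MSmall (N ^ r) (M'.frob a j - M''.frob a j) := by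
    intro j
    rw [hM'']
    exact hMr j
  obtain ⟨y, z, hy0, hyN, hzN, hyz⟩ := exists_stab (fun j => (ha j).1) M'' M' hD
  have hM''N : ∀ j, MSmall N (M''.frob a j - toA A (MB p P f (a j) Q (j - i).val)) := by
    intro j
    have e1 : M''.frob a j - toA A (MB p P f (a j) Q (j - i).val) =
        (M'.frob a j - toA A (MB p P f (a j) Q (j - i).val)) -
          (M'.frob a j - M''.frob a j) := by abel
    rw [e1]
    exact (hMN j).sub ((hD j).mono hle)
  obtain ⟨C, l', w', x', s', hC0, hCr, hl', hw', hx', hs', hlr', hsum⟩ :=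
    tangent_ideal hp hk hP ha i hpat (N ^ r) Q hQ y hy0 hyN z hzN
  rw [← hQA] at hsum
  choose g hg using fun j => exists_gx_one_sub hN (hC0 j) ((hCr j).mono hle)
  obtain ⟨M3, hM3⟩ := exists_transport (p := p) (fun j => (ha j).2) M' g
  have hstep : ∀ j, (1 - C j) * M'.frob a j =
      M3.frob a j * (1 - (C (j - 1)).map (phi A p)) := by
    intro j
    have h1 : gx (g j) * M'.frob a j = M3.frob a j * (gx (g (j - 1))).map (phi A p) := hM3 j
    rw [hg, hg, map_sub_phi, map_one_phi] at h1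
    exact h1
  obtain ⟨hM3N, hM3r⟩ := step_calc (p := p) hr hCr hMN hstep
  refine ⟨l', w', x', s', M3, g, hl', hw', hx', hs', hlr', fun j => ?_, hM3, hM3N, fun j => ?_⟩
  · rw [hg, sub_sub_cancel_left]
    exact (hCr j).neg
  · have hYD : MSmall (N ^ (r + 1)) ((M'.frob a j - M''.frob a j) -
        (y j * toA A (MB p P f (a j) Q (j - i).val) +
          toA A (MB p P f (a j) Q (j - i).val) * (z j).map HahnSeries.C)) := by
      rw [hyz j]
      have e1 : y j * M''.frob a j + M'.frob a j * (z j).map HahnSeries.C -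
          (y j * toA A (MB p P f (a j) Q (j - i).val) +
          toA A (MB p P f (a j) Q (j - i).val) * (z j).map HahnSeries.C) =
          y j * (M''.frob a j - toA A (MB p P f (a j) Q (j - i).val)) +
          (M'.frob a j - toA A (MB p P f (a j) Q (j - i).val)) *
            (z j).map HahnSeries.C := by
        rw [Matrix.mul_sub, Matrix.sub_mul]
        abel
      rw [e1, pow_succ]
      refine MSmall.add ((hyN j).mul (hM''N j)) ?_
      rw [mul_comm]
      exact (hMN j).mul (msmall_C (hzN j))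
    rw [hsum j] at hYD
    rw [arrange (M3.frob a j) (M'.frob a j) (M''.frob a j)
      (C j * toA A (MB p P f (a j) Q (j - i).val) -
        toA A (MB p P f (a j) Q (j - i).val) * (C (j - 1)).map (phi A p)) _ _ _ (hM'' j)]
    exact ((hM3r j).add hYD).sub
      (MX_expand (p := p) (P := P) (f := f) hr (a j) (j - i).val QA l w x l' w' x' s s' hl hs hw
        hx hl' hs' hw' hx')

/-- Newton iteration. -/
theorem newton {k A : Type u} [Field k] [CommRing A] [Algebra k A] [Module.Finite k A] (hp : 5 ≤ p)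
    (hk : (2 : k) ≠ 0) (hP : GoodP P f) (ha : ∀ i, 1 ≤ a i ∧ a i ≤ p) (i : ZMod f)
    (hpat : IsPat p f a i P) (N : Ideal A) (hN : IsNilpotent N)
    (Q : ℕ → GL (Fin 2) k) (hQ : ∀ t, P t = true → Pm P t = true → Q t = Q (t - 1))
    (M : KisinModule f A)
    (hM : Small N fun j => M.frob a j - toA A (MB p P f (a j) Q (j - i).val)) :
    ∃ (l w x : ℕ → A) (s : A) (G : ZMod f → GL (Fin 2) (LaurentSeries A)),
      (∀ t, l t ∈ N) ∧ (∀ t, w t ∈ N) ∧ (∀ t, x t ∈ N) ∧ s ∈ N ∧
      (∀ t, P t = true → Pm P t = true → l t = l (t - 1)) ∧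
      Small N (fun j => (G j).1 - 1) ∧
      IsHom p (M.frob a) (fun j => MX p P f (a j)
        (fun t => Matrix.GeneralLinearGroup.map (algebraMap k A) (Q t) * eL (l t)) s w x
          (j - i).val) fun j => (G j).1 := by
  obtain ⟨QA, hQA⟩ : ∃ QA : ℕ → GL (Fin 2) A,
      QA = fun t => Matrix.GeneralLinearGroup.map (algebraMap k A) (Q t) := ⟨_, rfl⟩
  have hMB : ∀ j, toA A (MB p P f (a j) Q (j - i).val) = MB p P f (a j) QA (j - i).val := by
    intro j
    rw [toA_MB, hQA]
  have key : ∀ r : ℕ, 1 ≤ r → ∃ (l w x : ℕ → A) (s : A) (M' : KisinModule f A)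
      (G : ZMod f → GL (Fin 2) (LaurentSeries A)),
      (∀ t, l t ∈ N) ∧ (∀ t, w t ∈ N) ∧ (∀ t, x t ∈ N) ∧ s ∈ N ∧
      (∀ t, P t = true → Pm P t = true → l t = l (t - 1)) ∧
      (∀ j, MSmall N ((G j).1 - 1)) ∧
      IsHom p (M.frob a) (M'.frob a) (fun j => (G j).1) ∧
      (∀ j, MSmall N (M'.frob a j - toA A (MB p P f (a j) Q (j - i).val))) ∧
      ∀ j, MSmall (N ^ r) (M'.frob a j -
        MX p P f (a j) (fun t => QA t * eL (l t)) s w x (j - i).val) := by
    intro r hr
    induction r, hr using Nat.le_induction with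
    | base =>
      refine ⟨fun _ => 0, fun _ => 0, fun _ => 0, 0, M, fun _ => 1, fun _ => N.zero_mem,
        fun _ => N.zero_mem, fun _ => N.zero_mem, N.zero_mem, fun _ _ _ => rfl, fun j => ?_,
        fun j => ?_, fun j => hM j, fun j => ?_⟩
      · rw [Units.val_one, sub_self]
        exact MSmall.zero
      · show (1 : Mat A) * _ = _ * (1 : Mat A).map (phi A p)
        rw [map_one_phi, Matrix.one_mul, Matrix.mul_one]
      · have e1 : (fun t => QA t * eL (0 : A)) = QA := by
          funext t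
          rw [eL_zero, mul_one]
        have e2 : MX p P f (a j) (fun t => QA t * eL ((fun _ => (0 : A)) t)) 0 (fun _ => 0)
            (fun _ => 0) (j - i).val = toA A (MB p P f (a j) Q (j - i).val) := by
          rw [hMB]
          show MX p P f (a j) (fun t => QA t * eL (0 : A)) 0 (fun _ => 0) (fun _ => 0)
            (j - i).val = _
          rw [e1, MX_zero]
        rw [e2, pow_one]
        exact hM j
    | succ r hr ih =>
      obtain ⟨l, w, x, s, M', G, hl, hw, hx, hs, hlr, hG, hGM, hMN, hMr⟩ := ih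
      have hle : N ^ r ≤ N := Ideal.pow_le_self (by omega)
      obtain ⟨l', w', x', s', M3, g, hl', hw', hx', hs', hlr', hg, hM3, hM3N, hM3r⟩ :=
        newton_step hp hk hP ha i hpat N hN Q hQ QA hQA hr l w x s M' hl hw hx hs hlr hMN hMr
      refine ⟨fun t => l t + l' t, fun t => w t + w' t, fun t => x t + x' t, s + s', M3,
        fun j => glps (g j) * G j,
        fun t => N.add_mem (hl t) (hle (hl' t)), fun t => N.add_mem (hw t) (hle (hw' t)),
        fun t => N.add_mem (hx t) (hle (hx' t)), N.add_mem hs (hle hs'), fun t h1 h2 => ?_,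
        fun j => ?_, fun j => ?_, hM3N, hM3r⟩
      · show l t + l' t = l (t - 1) + l' (t - 1)
        rw [hlr t h1 h2, hlr' t h1 h2]
      · show MSmall N ((glps (g j) * G j).1 - 1)
        have h1 : MSmall N ((glps (g j)).1 - 1) := by
          rw [glps_val]
          exact (hg j).mono hle
        exact msmall_mul h1 (hG j)
      · have e3 : (G j).1 * M.frob a j = M'.frob a j * (G (j - 1)).1.map (phi A p) := hGM j
        have e4 : gx (g j) * M'.frob a j = M3.frob a j * (gx (g (j - 1))).map (phi A p) := hM3 j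
        show (glps (g j) * G j).1 * M.frob a j = M3.frob a j *
          (glps (g (j - 1)) * G (j - 1)).1.map (phi A p)
        rw [glps_mul_val, glps_mul_val, map_mul_phi, Matrix.mul_assoc, e3, ← Matrix.mul_assoc, e4,
          Matrix.mul_assoc]
  obtain ⟨n, hn⟩ := hN
  obtain ⟨l, w, x, s, M', G, hl, hw, hx, hs, hlr, hG, hGM, -, hMr⟩ := key (n + 1) (by omega)
  have hn1 : N ^ (n + 1) = ⊥ := by
    rw [pow_succ, hn, Ideal.zero_eq_bot, Ideal.bot_mul]
  refine ⟨l, w, x, s, G, hl, hw, hx, hs, hlr, fun j => hG j, fun j => ?_⟩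
  have h1 := hMr j
  rw [hn1] at h1
  have h2 := sub_eq_zero.1 (MSmall.bot h1)
  show (G j).1 * M.frob a j = MX p P f (a j)
    (fun t => Matrix.GeneralLinearGroup.map (algebraMap k A) (Q t) * eL (l t)) s w x
      (j - i).val * (G (j - 1)).1.map (phi A p)
  have h3 : (fun t => Matrix.GeneralLinearGroup.map (algebraMap k A) (Q t) * eL (l t)) =
      fun t => QA t * eL (l t) := by rw [hQA]
  rw [h3, ← h2]
  exact hGM j

end

end Pool.Agent.Lib.MP_74d0c9_nt
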