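import Pool.Agent.Lib.MP_74d0c9_nt.XFun
import Pool.Agent.Lib.MP_74d0c9_nt.XNewton
import Pool.Agent.Lib.MP_74d0c9_nt.XK0

/-! All the deformations which are isomorphic to Kisin modules. -/

set_option autoImplicit false

namespace Pool.Agent.Lib.MP_74d0c9_nt

open HahnSeries IsLocalRing

universe u

section
variable {p f : ℕ} [Fact p.Prime] [NeZero f] {P : ℕ → Bool} {a : ZMod f → ℕ}

/-- K5: all the deformations which are isomorphic to Kisin modules. -/
theorem kisin_form {k A : Type u} [Field k] [CommRing A] [Algebra k A] [IsLocalRing A] (hp : 5 ≤ p)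
    (hk : (2 : k) ≠ 0) (hP : GoodP P f) (ha : ∀ i, 1 ≤ a i ∧ a i ≤ p) (i : ZMod f)
    (hpat : IsPat p f a i P) (hA : IsTest k A) (F : ZMod f → Mat A)
    (hF : IsDef (fun j => (Bp p P f (a j) (j - i).val : Mat k)) (IsLocalRing.maximalIdeal A) F)
    (hF' : FromKisin p a F) :
    ∃ (Q : ℕ → GL (Fin 2) A) (w x : ℕ → A) (s : A),
      (∀ t, P t = true → Pm P t = true → Q t = Q (t - 1)) ∧
      (∀ t, w t ∈ IsLocalRing.maximalIdeal A) ∧ (∀ t, x t ∈ IsLocalRing.maximalIdeal A) ∧
      s ∈ IsLocalRing.maximalIdeal A ∧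
      Eqv p (IsLocalRing.maximalIdeal A)
        (famA (fun j => (Bp p P f (a j) (j - i).val : Mat k)) (DP k p P f a i) (cK P f Q s w x))
        F := by
  obtain ⟨M, T, hT⟩ := hF'
  obtain ⟨π, hπ, hπm⟩ := exists_resmap hA
  have hfin := hA.finite
  have hπι : π.comp (algebraMap k A) = RingHom.id k := RingHom.ext fun c => hπ c
  have hsmall : ∀ X : Mat A, X.map (lmap π) = 0 → MSmall (maximalIdeal A) X := by
    intro X hX r s v
    rw [← hπm]
    have h1 : (lmap π (X r s)).coeff v = 0 := by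
      have h2 : lmap π (X r s) = 0 := congrFun (congrFun hX r) s
      rw [h2]
      rfl
    exact h1
  have hsmall' : ∀ X : Mat A, MSmall (maximalIdeal A) X → X.map (lmap π) = 0 := by
    intro X hX
    refine Matrix.ext fun r s => ?_
    ext v
    exact (hπm _).2 (hX r s v)
  have hsub : ∀ X Y : Mat A, (X - Y).map (lmap π) = X.map (lmap π) - Y.map (lmap π) :=
    fun X Y => Matrix.ext fun r s => map_sub (lmap π) (X r s) (Y r s)
  have htoA : ∀ X : Mat k, (toA A X).map (lmap π) = X := by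
    intro X
    refine Matrix.ext fun r s => ?_
    ext v
    exact hπ _
  -- the residual isomorphism
  have hFb : ∀ j, (F j).map (lmap π) = Bp p P f (a j) (j - i).val := by
    intro j
    have h1 := hsmall' _ (hF j)
    rw [hsub, htoA] at h1
    exact sub_eq_zero.1 h1
  obtain ⟨Tb, hTb⟩ : ∃ Tb : ZMod f → GL (Fin 2) (LaurentSeries k),
      Tb = fun j => Matrix.GeneralLinearGroup.map (lmap π) (T j) := ⟨_, rfl⟩
  have hTbv : ∀ j, (Tb j).1 = (T j).1.map (lmap π) := by
    intro j
    rw [hTb]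
    rfl
  have hTb1 : IsHom p ((M.baseChange π).frob a)
      (fun j => (Bp p P f (a j) (j - i).val : Mat k)) fun j => (Tb j).1 := by
    have h1 := hT.lmap π
    intro j
    have h2 := h1 j
    dsimp only at h2 ⊢
    rw [hFb] at h2
    rw [frob_baseChange, hTbv, hTbv]
    exact h2
  obtain ⟨g, Q, hQ, hg⟩ := residual_point hp hP ha i hpat (M.baseChange π) Tb hTb1
  -- the lift of the change of bases
  obtain ⟨gA, hgA⟩ : ∃ gA : ZMod f → GL (Fin 2) (PowerSeries A),
      gA = fun j => Matrix.GeneralLinearGroup.map (PowerSeries.map (algebraMap k A)) (g j) :=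
    ⟨_, rfl⟩
  have hgAv : ∀ j, gx (gA j) = (gx (g j)).map (lmap (algebraMap k A)) := by
    intro j
    rw [hgA, gx_lmap]
  have hgAπ : ∀ j, (gx (gA j)).map (lmap π) = gx (g j) := by
    intro j
    rw [hgAv]
    refine Matrix.ext fun r s => ?_
    ext v
    exact hπ _
  obtain ⟨M', hM'⟩ := exists_transport (p := p) (fun j => (ha j).2) M (fun j => (gA j)⁻¹)
  -- `M'` and its isomorphism to `F`
  obtain ⟨gl, hgl⟩ : ∃ gl : ZMod f → GL (Fin 2) (LaurentSeries A),
      gl = fun j => Matrix.GeneralLinearGroup.map (ps : PowerSeries A →+* LaurentSeries A) (gA j) :=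
    ⟨_, rfl⟩
  have hglv : ∀ j, (gl j).1 = gx (gA j) := by
    intro j
    rw [hgl]
    rfl
  have hglv' : ∀ j, ((gl j)⁻¹).1 = gx (gA j)⁻¹ := by
    intro j
    rw [hgl]
    dsimp only
    rw [← map_inv]
    rfl
  have hM1 : IsHom p (M'.frob a) (M.frob a) fun j => (gl j).1 := by
    have h1 : IsHom p (M.frob a) (M'.frob a) fun j => ((gl j)⁻¹).1 := by
      intro j
      have h2 := hM' j
      dsimp only at h2 ⊢
      rw [hglv', hglv']
      exact h2
    have h3 := IsHom.inv (G := fun j => (gl j)⁻¹) h1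
    intro j
    have h4 := h3 j
    simp only [inv_inv] at h4
    exact h4
  have hM2 : IsHom p (M'.frob a) F fun j => (T j * gl j).1 := hM1.comp hT
  have hred : ∀ j, (T j * gl j).1.map (lmap π) = (TK P Q (j - i).val).1 := by
    intro j
    rw [← hg j, hTbv]
    show ((T j).1 * (gl j).1).map (lmap π) = _
    rw [Matrix.map_mul, hglv, hgAπ]
  -- the reduction of `M'`
  have hM3 : ∀ j, (M'.frob a j).map (lmap π) = MB p P f (a j) Q (j - i).val := by
    intro j
    have h1 := (hM2.lmap π) j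
    dsimp only at h1
    rw [hred, hred, hFb] at h1
    have h2 := TK_MB (p := p) (a := a) hP i hpat Q hQ j
    rw [← h2] at h1
    exact (Units.mul_right_inj (TK P Q (j - i).val)).1 h1
  have hM4 : Small (maximalIdeal A) fun j =>
      M'.frob a j - toA A (MB p P f (a j) Q (j - i).val) := by
    intro j
    refine hsmall _ ?_
    rw [hsub, htoA, hM3, sub_self]
  obtain ⟨l, w, x, s, G, hl, hw, hx, hs, hlr, hG, hG1⟩ := newton hp hk hP ha i hpat
    (maximalIdeal A) hA.isNilpotent Q hQ M' hM4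
  obtain ⟨Q', hQ'⟩ : ∃ Q' : ℕ → GL (Fin 2) A, Q' = fun t =>
      Matrix.GeneralLinearGroup.map (algebraMap k A) (Q t) * eL (l t) := ⟨_, rfl⟩
  rw [← hQ'] at hG1
  have hQ'r : ∀ t, P t = true → Pm P t = true → Q' t = Q' (t - 1) := by
    intro t h1 h2
    rw [hQ']
    dsimp only
    rw [hQ t h1 h2, hlr t h1 h2]
  have hsu : IsUnit (1 + s) := by
    by_contra h
    have h1 : 1 + s ∈ maximalIdeal A := h
    have h2 : (1 : A) ∈ maximalIdeal A := by
      have h3 := (maximalIdeal A).sub_mem h1 hs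
      rwa [add_sub_cancel_right] at h3
    exact (Ideal.ne_top_iff_one _).1 (maximalIdeal.isMaximal A).ne_top h2
  obtain ⟨M'', hM5, hM6⟩ := exists_MX (k := k) (a := a) hP i hpat Q' hQ'r s hsu w x
  refine ⟨Q', w, x, s, hQ'r, hw, hx, hs, ?_⟩
  -- the composition
  have hM7 : (M''.frob a) = fun j => MX p P f (a j) Q' s w x (j - i).val := funext hM5
  rw [hM7] at hM6
  have hc := IsHom.comp3 hM6 hG1 hM2
  refine ⟨fun j => T j * gl j * ((G j)⁻¹ * (TK P Q' (j - i).val)⁻¹), fun j => ?_, ?_⟩
  · refine hsmall _ ?_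
    have e1 : ((G j)⁻¹).1.map (lmap π) = 1 := by
      have h1 : MSmall (maximalIdeal A) (((G j)⁻¹).1 - 1) := msmall_inv (hG j)
      have h2 := hsmall' _ h1
      rw [hsub, map_one_mat] at h2
      exact sub_eq_zero.1 h2
    have e2 : (TK P Q' (j - i).val).1.map (lmap π) = (TK P Q (j - i).val).1 := by
      rw [TK_lmap]
      have h1 : ∀ t, Matrix.GeneralLinearGroup.map π (Q' t) = Q t := by
        intro t
        rw [hQ']
        apply Units.ext
        refine Matrix.ext fun r s => ?_
        show π (((Matrix.GeneralLinearGroup.map (algebraMap k A) (Q t)).1 * (eL (l t)).1) r s) =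
          (Q t).1 r s
        rw [Matrix.mul_apply, Fin.sum_univ_two, map_add, map_mul, map_mul]
        have h2 : ∀ r s, π ((Matrix.GeneralLinearGroup.map (algebraMap k A) (Q t)).1 r s) =
            (Q t).1 r s := fun r s => hπ _
        have h3 : π (l t) = 0 := (hπm _).2 (hl t)
        rw [h2, h2]
        fin_cases s
        · show (Q t).1 r 0 * π 1 + (Q t).1 r 1 * π (l t) = (Q t).1 r 0
          rw [h3, map_one, mul_one, mul_zero, add_zero]
        · show (Q t).1 r 0 * π 0 + (Q t).1 r 1 * π 1 = (Q t).1 r 1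
          rw [map_zero, map_one, mul_one, mul_zero, zero_add]
      simp only [h1]
    have e3 : ((TK P Q' (j - i).val)⁻¹).1.map (lmap π) = ((TK P Q (j - i).val)⁻¹).1 := by
      have h1 : Matrix.GeneralLinearGroup.map (lmap π) (TK P Q' (j - i).val) =
          TK P Q (j - i).val := Units.ext e2
      rw [← h1, ← map_inv]
      rfl
    show ((T j * gl j).1 * (((G j)⁻¹).1 * ((TK P Q' (j - i).val)⁻¹).1) - 1).map (lmap π) = 0
    rw [hsub, Matrix.map_mul, Matrix.map_mul, e1, e3, hred, Matrix.one_mul, map_one_mat,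
      ← Units.val_mul, mul_inv_cancel, Units.val_one, sub_self]
  · exact hc

end

end Pool.Agent.Lib.MP_74d0c9_nt
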