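import Pool.Agent.Lib.MP_74d0c9_nt.XR0e

/-! The local ring of the words is an integral domain. -/

set_option autoImplicit false
set_option linter.unusedSectionVars false

namespace Pool.Agent.Lib.MP_74d0c9_nt

universe u

section
variable {ι J : Type} [Fintype ι] [Fintype J] {k : Type u} [Field k] {W : J → Finset ι}

instance uniq_MM : TwoUniqueSums (MM W) :=
  TwoUniqueSums.of_injective_addHom (MM W).subtype.toAddHom Subtype.val_injective inferInstance

instance dom_RM : IsDomain (RM k W) := NoZeroDivisors.to_isDomain _

instance dom_R0 : IsDomain (R0 k W) :=
  IsLocalization.isDomain_localization (PM k W).primeCompl_le_nonZeroDivisors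

end

end Pool.Agent.Lib.MP_74d0c9_nt
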