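import Pool.Agent.Lib.MP_74d0c9_nt.MWords

/-! Functions which are constant on the runs of the pattern of disjoint words. -/

set_option autoImplicit false

namespace Pool.Agent.Lib.MP_74d0c9_nt

section
variable {p f : ℕ} [NeZero f] {a : ZMod f → ℕ} {J : Type} [Fintype J] {i : J → ZMod f}
  {m : J → ℕ}

omit [Fintype J] in
theorem run_const {X : Type*} {i0 : ZMod f} (hf1 : PW i m i0 (f - 1) = false) (Q : ℕ → X)
    (hQ : ∀ t, PW i m i0 t = true → Pm (PW i m i0) t = true → Q t = Q (t - 1)) (j : J) :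
    ∀ s : ℕ, s + 1 < m j → Q (i j + (s : ℕ) - i0).val = Q (i j - i0).val := by
  intro s
  induction s with
  | zero =>
    intro _
    rw [Nat.cast_zero, add_zero]
  | succ s ih =>
    intro hs
    have hPs : PW i m i0 (i j + ((s : ℕ) : ZMod f) - i0).val = true := by
      rw [PW_iff]
      refine ⟨j, s, by omega, ?_⟩
      rw [ZMod.natCast_val, ZMod.cast_id', id_eq, add_sub_cancel]
    have hPs' : PW i m i0 (i j + ((s + 1 : ℕ) : ZMod f) - i0).val = true := by
      rw [PW_iff]
      refine ⟨j, s + 1, hs, ?_⟩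
      rw [ZMod.natCast_val, ZMod.cast_id', id_eq, add_sub_cancel]
    have hlt : (i j + ((s : ℕ) : ZMod f) - i0).val < f := ZMod.val_lt _
    have hne : (i j + ((s : ℕ) : ZMod f) - i0).val ≠ f - 1 := by
      intro h
      rw [h, hf1] at hPs
      exact Bool.noConfusion hPs
    have hval : (i j + ((s + 1 : ℕ) : ZMod f) - i0).val =
        (i j + ((s : ℕ) : ZMod f) - i0).val + 1 := by
      have e : i j + ((s + 1 : ℕ) : ZMod f) - i0 =
          (((i j + ((s : ℕ) : ZMod f) - i0).val + 1 : ℕ) : ZMod f) := by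
        have e1 : (((i j + ((s : ℕ) : ZMod f) - i0).val : ℕ) : ZMod f) =
            i j + ((s : ℕ) : ZMod f) - i0 := by
          rw [ZMod.natCast_val, ZMod.cast_id', id_eq]
        rw [Nat.cast_add (i j + ((s : ℕ) : ZMod f) - i0).val 1, e1]
        push_cast
        ring
      rw [e, ZMod.val_natCast_of_lt (by omega)]
    rw [← ih (by omega), hval, hQ _ (by rw [← hval]; exact hPs') (by exact hPs),
      Nat.add_sub_cancel]

omit [Fintype J] in
/-- a function which is constant on the runs depends only on the word -/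
theorem om_const {X : Type*} {i0 : ZMod f} (hf1 : PW i m i0 (f - 1) = false) (Q : ℕ → X)
    (hQ : ∀ t, PW i m i0 t = true → Pm (PW i m i0) t = true → Q t = Q (t - 1))
    (t : SP (PW i m i0) f) : Q ((t : Fin f) : ℕ) = Q (i (om i m i0 t) - i0).val := by
  obtain ⟨s, hs, e⟩ := om_spec i0 t
  rw [← run_const hf1 Q hQ (om i m i0 t) s hs, ← e, add_sub_cancel_left,
    ZMod.val_natCast_of_lt (t : Fin f).2]

end

end Pool.Agent.Lib.MP_74d0c9_nt
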