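import Pool.Agent.Lib.MP_74d0c9_nt.XK5
import Pool.Agent.Lib.MP_74d0c9_nt.XWords
import Pool.Agent.Lib.MP_74d0c9_nt.XR0f

/-! The Kisin modules over the local ring of the words. -/

set_option autoImplicit false

namespace Pool.Agent.Lib.MP_74d0c9_nt

open HahnSeries IsLocalRing

universe u

section
variable {p f : ℕ} [Fact p.Prime] [NeZero f] {P : ℕ → Bool} {a : ZMod f → ℕ} {k : Type u} [Field k]

/-- All the deformations which come from Kisin modules are members of the family. -/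
theorem hasKisin_RW (hp : 5 ≤ p) (hk : (2 : k) ≠ 0) (hP : GoodP P f)
    (ha : ∀ i, 1 ≤ a i ∧ a i ≤ p) (i : ZMod f) (hpat : IsPat p f a i P)
    {J : Type} [Fintype J] [DecidableEq J] (ω : SP P f → J) (rep : J → ℕ)
    (hrep : ∀ (A : Type u) [CommRing A] (Q : ℕ → GL (Fin 2) A),
      (∀ t, P t = true → Pm P t = true → Q t = Q (t - 1)) →
      ∀ t : SP P f, Q ((t : Fin f) : ℕ) = Q (rep (ω t)))
    (𝓕 : Family (fun j => (Bp p P f (a j) (j - i).val : Mat k)) (RW k (OP P f) ω))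
    (h𝓕 : ∀ n, 𝓕.F n = famA (fun j => (Bp p P f (a j) (j - i).val : Mat k)) (DP k p P f a i)
      fun v => Ideal.Quotient.mk _ (XM k (OP P f) ω v)) : 𝓕.HasKisin p a := by
  intro A _ _ _ hA F hF hK
  obtain ⟨Q, w, x, s, hQ, hw, hx, hs, hE⟩ := kisin_form hp hk hP ha i hpat hA F hF hK
  obtain ⟨n, g, h1, h2, h3⟩ := exists_hom_XM (O := OP P f) (ω := ω) hA s
    (fun t => (if ((t : Fin f) : ℕ) = 0 then 1 + s else 1) * w (t : Fin f) *
      (Q (t : Fin f))⁻¹.1.det) (fun o => x ((o : Fin f) : ℕ)) hs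
    (fun t => Ideal.mul_mem_right _ _ (Ideal.mul_mem_left _ _ (hw _))) (fun o => hx _)
    (fun j => (Q (rep j)).1 1 0) (fun j => (Q (rep j)).1 0 0)
  refine ⟨n, g, ?_⟩
  have e : 𝓕.push g = famA (fun j => (Bp p P f (a j) (j - i).val : Mat k)) (DP k p P f a i)
      (cK P f Q s w x) := by
    funext j
    show (𝓕.F n j).map (lmap g.toRingHom) = _
    rw [h𝓕, famA_map]
    congr 1
    funext v
    rcases v with v | z | o
    · exact h1 v
    · have e1 := hrep A Q hQ z.1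
      have h2' : g (Ideal.Quotient.mk _ (XM k (OP P f) ω (Sum.inr (Sum.inl z)))) =
          (if ((z.1 : Fin f) : ℕ) = 0 then 1 + s else 1) * w (z.1 : Fin f) *
            (Q (z.1 : Fin f))⁻¹.1.det * ((Q (rep (ω z.1))).1 1 0 ^ (z.2 : ℕ) *
              (Q (rep (ω z.1))).1 0 0 ^ (2 - (z.2 : ℕ))) := h2 z
      rw [← e1] at h2'
      refine h2'.trans ?_
      show _ = (if ((z.1 : Fin f) : ℕ) = 0 then 1 + s else 1) * w (z.1 : Fin f) *
        (Q (z.1 : Fin f))⁻¹.1.det * (Q (z.1 : Fin f)).1 0 0 ^ (2 - (z.2 : ℕ)) *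
        (Q (z.1 : Fin f)).1 1 0 ^ (z.2 : ℕ)
      ring
    · exact h3 o
  rw [e]
  exact hE

end

end Pool.Agent.Lib.MP_74d0c9_nt
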