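import Pool.Agent.Lib.MP_74d0c9_nt.XR0f
import Pool.Agent.Lib.MP_74d0c9_nt.UAbs

/-!
The family over the local ring of the words is the smallest formal family which contains the
deformations which are isomorphic to Kisin modules.
-/

set_option autoImplicit false
set_option linter.unusedSectionVars false

namespace Pool.Agent.Lib.MP_74d0c9_nt

open HahnSeries IsLocalRing

universe u

/-- Nakayama for algebras -/
theorem adjoin_eq_top_of_nilpotent {k S : Type u} [Field k] [CommRing S] [Algebra k S] {ι : Type}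
    (c : ι → S) (hn : IsNilpotent (Ideal.span (Set.range c)))
    (hconst : ∀ y : S, ∃ a : k, y - algebraMap k S a ∈ Ideal.span (Set.range c)) :
    Algebra.adjoin k (Set.range c) = ⊤ := by
  have key : ∀ (j : ℕ) (y : S), y ∈ Ideal.span (Set.range c) ^ j →
      ∃ a ∈ Algebra.adjoin k (Set.range c), y - a ∈ Ideal.span (Set.range c) ^ (j + 1) := by
    intro j
    induction j with
    | zero =>
      intro y _
      obtain ⟨a, ha⟩ := hconst y
      exact ⟨algebraMap k S a, Subalgebra.algebraMap_mem _ a, by rw [zero_add, pow_one]; exact ha⟩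
    | succ j ih =>
      intro y hy
      rw [pow_succ'] at hy
      refine Submodule.mul_induction_on hy ?_ ?_
      · intro i hi
        refine Submodule.span_induction (p := fun i _ => ∀ b ∈ Ideal.span (Set.range c) ^ j,
          ∃ a ∈ Algebra.adjoin k (Set.range c),
            i * b - a ∈ Ideal.span (Set.range c) ^ (j + 1 + 1)) ?_ ?_ ?_ ?_ hi
        · rintro _ ⟨s, rfl⟩ b hb
          obtain ⟨a, ha, hab⟩ := ih b hb
          refine ⟨c s * a, Subalgebra.mul_mem _ (Algebra.subset_adjoin ⟨s, rfl⟩) ha, ?_⟩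
          rw [← mul_sub, pow_succ']
          exact Ideal.mul_mem_mul (Ideal.subset_span ⟨s, rfl⟩) hab
        · intro b _
          exact ⟨0, Subalgebra.zero_mem _, by rw [zero_mul, sub_zero]; exact Ideal.zero_mem _⟩
        · intro i i' _ _ h h' b hb
          obtain ⟨a, ha, hab⟩ := h b hb
          obtain ⟨a', ha', hab'⟩ := h' b hb
          refine ⟨a + a', Subalgebra.add_mem _ ha ha', ?_⟩
          rw [add_mul, add_sub_add_comm]
          exact Ideal.add_mem _ hab hab'
        · intro t i _ h b hb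
          obtain ⟨a, ha, hab⟩ := h (t * b) (Ideal.mul_mem_left _ _ hb)
          refine ⟨a, ha, ?_⟩
          rw [smul_eq_mul, mul_assoc, mul_left_comm]
          exact hab
      · intro x y hx hy
        obtain ⟨a, ha, hab⟩ := hx
        obtain ⟨a', ha', hab'⟩ := hy
        refine ⟨a + a', Subalgebra.add_mem _ ha ha', ?_⟩
        rw [add_sub_add_comm]
        exact Ideal.add_mem _ hab hab'
  have key2 : ∀ (j : ℕ) (y : S),
      ∃ a ∈ Algebra.adjoin k (Set.range c), y - a ∈ Ideal.span (Set.range c) ^ j := by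
    intro j
    induction j with
    | zero =>
      intro y
      refine ⟨0, Subalgebra.zero_mem _, ?_⟩
      rw [pow_zero, Ideal.one_eq_top]
      trivial
    | succ j ih =>
      intro y
      obtain ⟨a, ha, hab⟩ := ih y
      obtain ⟨a', ha', hab'⟩ := key j _ hab
      refine ⟨a + a', Subalgebra.add_mem _ ha ha', ?_⟩
      rw [← sub_sub]
      exact hab'
  obtain ⟨m, hm⟩ := hn
  rw [eq_top_iff]
  intro y _
  obtain ⟨a, ha, hab⟩ := key2 m y
  rw [hm] at hab
  rw [sub_eq_zero.1 hab]
  exact ha

section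
variable {k : Type u} [Field k] {f p : ℕ} [Fact p.Prime] {B : ZMod f → Mat k}

theorem Eqv.mono {A : Type u} [CommRing A] {I I' : Ideal A} (hI : I ≤ I') {F F' : ZMod f → Mat A}
    (h : Eqv p I F F') : Eqv p I' F F' := by
  obtain ⟨G, hG, hG'⟩ := h
  exact ⟨G, fun j r s v => hI (hG j r s v), hG'⟩

/-- the image is generated by the coordinates, and the equivalence is defined over the image -/
theorem coordinates_range {R : Type u} [CommRing R] [Algebra k R] [IsLocalRing R]
    (hres : Function.Surjective (algebraMap k (ResidueField R)))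
    (H0 : ∀ C : ZMod f → Mat k, dk p B C = 0 →
      ∃ c : k, ∀ j, C j = (HahnSeries.C c : LaurentSeries k) • (1 : Mat k))
    {ι : Type} [Fintype ι] (D : ι → ZMod f → Mat k)
    (hD : ∀ (r : ι → k) (C : ZMod f → Mat k), ∑ s, r s • D s = dk p B C → r = 0)
    (𝓕 : Family B R) (hmono : 𝓕.IsMono p)
    {A : Type u} [CommRing A] [Algebra k A] [IsLocalRing A] (hA : IsTest k A)
    (c : ι → A) (hc : ∀ s, c s ∈ maximalIdeal A) {n : ℕ}
    (ψ : (R ⧸ maximalIdeal R ^ n) →ₐ[k] A)
    (h : Eqv p (maximalIdeal A) (𝓕.push ψ) (famA B D c)) :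
    ∃ (S : Subalgebra k A) (ψ' : (R ⧸ maximalIdeal R ^ n) →ₐ[k] S) (cS : ι → S),
      (∀ y, (ψ' y : A) = ψ y) ∧ Function.Surjective ψ' ∧ (∀ s, (cS s : A) = c s) ∧
      Algebra.adjoin k (Set.range cS) = ⊤ ∧
      Eqv p ((maximalIdeal A).comap S.val.toRingHom) (𝓕.push ψ') (famA B D cS) := by
  have hfin := hA.finite
  have hn : n ≠ 0 := by
    rintro rfl
    have h1 : (1 : R ⧸ maximalIdeal R ^ 0) = 0 := by
      rw [← map_one (Ideal.Quotient.mk (maximalIdeal R ^ 0)), Ideal.Quotient.eq_zero_iff_mem,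
        pow_zero, Ideal.one_eq_top]
      exact Submodule.mem_top
    have h2 := congrArg ψ h1
    rw [map_one, map_zero] at h2
    exact one_ne_zero h2
  obtain ⟨V, σ, hDV, hσ, hV⟩ := exists_section p B D hD
  -- the image
  obtain ⟨S, hS⟩ : ∃ S : Subalgebra k A, S = ψ.range := ⟨_, rfl⟩
  obtain ⟨ψ', hψ', hψs⟩ : ∃ ψ' : (R ⧸ maximalIdeal R ^ n) →ₐ[k] S,
      (∀ y, (ψ' y : A) = ψ y) ∧ Function.Surjective ψ' := by
    subst hS
    exact ⟨ψ.rangeRestrict, fun y => rfl, AlgHom.rangeRestrict_surjective ψ⟩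
  let NS : Ideal S := (maximalIdeal A).comap S.val.toRingHom
  have hNS : ∀ x ∈ NS, S.val x ∈ maximalIdeal A := fun x hx => hx
  have hNSn : IsNilpotent NS := by
    obtain ⟨m, hm⟩ := hA.isNilpotent
    refine ⟨m, ?_⟩
    rw [Ideal.zero_eq_bot, eq_bot_iff]
    intro x hx
    have h1 : S.val.toRingHom x ∈ (maximalIdeal A) ^ m :=
      (Ideal.le_comap_pow S.val.toRingHom m) hx
    rw [hm] at h1
    exact Subtype.ext h1
  have hψN : ∀ y ∈ (maximalIdeal R).map (Ideal.Quotient.mk (maximalIdeal R ^ n)), ψ' y ∈ NS := by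
    intro y hy
    show (ψ' y : A) ∈ maximalIdeal A
    rw [hψ']
    exact mem_max_of_nilpotent ((map_mk_nilpotent hy).map ψ)
  have hFS : IsDef B NS (𝓕.push ψ') := IsDef.map ψ' hψN (𝓕.isDef n)
  obtain ⟨F', hE, hF', hInV⟩ := nf_exists (p := p) hNSn hσ hFS
  have hpush : (fun j => (𝓕.push ψ' j).map (lmap S.val.toRingHom)) = 𝓕.push ψ := by
    funext j
    refine Matrix.ext fun r s => ?_
    ext v
    exact hψ' _
  -- over `A`
  have hEA : Eqv p (maximalIdeal A) (fun j => (F' j).map (lmap S.val.toRingHom)) (famA B D c) := by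
    have h1 := hE.symm.map S.val.toRingHom hNS
    rw [hpush] at h1
    exact h1.trans h
  have hInVA : InV V fun j => (F' j).map (lmap S.val.toRingHom) - toA A (B j) := by
    intro lam
    have h1 := hInV (lam.comp S.val.toLinearMap)
    have h2 : LL lam (fun j => (F' j).map (lmap S.val.toRingHom) - toA A (B j)) =
        LL (lam.comp S.val.toLinearMap) (fun j => F' j - toA S (B j)) :=
      W_ext fun j r s v => by
        rw [LL_coeff, LL_coeff, ← toA_map S.val (B j), ← map_lmap_sub]
        rfl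
    rw [h2]
    exact h1
  have hfam : IsDef B (maximalIdeal A) (famA B D c) := by
    intro j r s v
    show ((famA B D c j - toA A (B j)) r s).coeff v ∈ maximalIdeal A
    rw [Matrix.sub_apply, coeff_sub, famA_coeff]
    have h1 : ∀ x y : A, x + y - x = y := fun x y => add_sub_cancel_left x y
    have h2 : (toA A (B j) r s).coeff v = algebraMap k A ((B j r s).coeff v) := rfl
    rw [h2, h1]
    exact Ideal.sum_mem _ fun i _ => Ideal.mul_mem_right _ _ (hc i)
  have hInVf : InV V fun j => famA B D c j - toA A (B j) := by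
    intro lam
    rw [LL_famA]
    exact V.sum_mem fun i _ => V.smul_mem _ (hDV i)
  have heq : (fun j => (F' j).map (lmap S.val.toRingHom)) = famA B D c :=
    nf_unique hA.isNilpotent hV H0 (IsDef.map S.val hNS hF') hfam hInVA hInVf hEA
  -- the coordinates are in `S`
  have hcS : ∀ s, c s ∈ S := by
    intro s
    refine mem_of_lam (p := Subalgebra.toSubmodule S) fun lam hl => ?_
    have h1 : LL lam (fun j => famA B D c j - toA A (B j)) = 0 := by
      rw [← heq]
      refine W_ext fun j r s v => hl _ ?_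
      show (((F' j).map (lmap S.val.toRingHom) - toA A (B j)) r s).coeff v ∈
        Subalgebra.toSubmodule S
      rw [← toA_map S.val (B j), ← map_lmap_sub]
      exact ((F' j - toA S (B j)) r s |>.coeff v).2
    rw [LL_famA] at h1
    have h2 := hD (fun i => lam (c i)) 0 (by rw [map_zero]; exact h1)
    exact congrFun h2 s
  let cS : ι → S := fun s => ⟨c s, hcS s⟩
  have hF'eq : F' = famA B D cS := by
    refine W_ext fun j r s v => Subtype.ext ?_
    have h1 : S.val (F' j r s |>.coeff v) = (famA B D c j r s).coeff v := by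
      rw [← heq]
      rfl
    have h2 : S.val (famA B D cS j r s |>.coeff v) = (famA B D c j r s).coeff v := by
      have h3 := famA_map B D cS S.val j
      have h4 : (fun s => S.val (cS s)) = c := rfl
      rw [h4] at h3
      rw [← h3]
      rfl
    exact h1.trans h2.symm
  -- the quotient by the coordinates
  let I : Ideal S := Ideal.span (Set.range cS)
  have hIN : I ≤ NS := by
    rw [Ideal.span_le]
    rintro _ ⟨s, rfl⟩
    exact hc s
  have hNT : NS ≠ ⊤ := fun h1 => (maximalIdeal.isMaximal A).ne_top ((Ideal.eq_top_iff_one _).2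
    (show (1 : A) ∈ maximalIdeal A from hNS 1 (h1 ▸ Submodule.mem_top)))
  have hIT : I ≠ ⊤ := fun h1 => hNT (top_le_iff.1 (h1 ▸ hIN))
  have : Nontrivial (S ⧸ I) := Ideal.Quotient.nontrivial_iff.2 hIT
  let g1 : (R ⧸ maximalIdeal R ^ n) →ₐ[k] (S ⧸ I) := (Ideal.Quotient.mkₐ k I).comp ψ'
  have hg1 : Function.Surjective g1 := (Ideal.Quotient.mkₐ_surjective k I).comp hψs
  have hloc : IsLocalRing (S ⧸ I) := isLocal_of_surj (g := g1.toRingHom) hg1
  have hfinQ : Module.Finite k (S ⧸ I) := Module.Finite.of_surjective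
    (Ideal.Quotient.mkₐ k I).toLinearMap (Ideal.Quotient.mkₐ_surjective k I)
  have hQ : IsTest k (S ⧸ I) := isTest_of_surj hres hg1
  obtain ⟨g2, hg2⟩ := exists_trivial hres hn (S ⧸ I)
  have hE1 : Eqv p (maximalIdeal (S ⧸ I)) (𝓕.push g1) (𝓕.push g2) := by
    have h1 := hE.map (Ideal.Quotient.mkₐ k I).toRingHom (I' := maximalIdeal (S ⧸ I))
      (fun x hx => mem_max_of_nilpotent (by
        obtain ⟨m, hm⟩ := hNSn
        refine ⟨m, ?_⟩
        rw [← map_pow]
        have h2 : x ^ m ∈ NS ^ m := Ideal.pow_mem_pow hx m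
        rw [hm] at h2
        have h3 : x ^ m = 0 := h2
        rw [h3, map_zero]))
    have h2 : (fun j => (𝓕.push ψ' j).map (lmap (Ideal.Quotient.mkₐ k I).toRingHom)) =
        𝓕.push g1 := rfl
    have h3 : (fun j => (F' j).map (lmap (Ideal.Quotient.mkₐ k I).toRingHom)) = 𝓕.push g2 := by
      funext j
      rw [hF'eq, famA_map]
      have h4 : (fun s => (Ideal.Quotient.mkₐ k I) (cS s)) = fun _ => (0 : S ⧸ I) := by
        funext s
        exact Ideal.Quotient.eq_zero_iff_mem.2 (Ideal.subset_span ⟨s, rfl⟩)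
      rw [h4, famA_zero]
      have h5 : MSmall (⊥ : Ideal (S ⧸ I)) ((𝓕.F n j - toA _ (B j)).map (lmap g2.toRingHom)) := by
        refine MSmall.map' g2.toRingHom (𝓕.isDef n j) fun y hy => ?_
        show g2 y = 0
        have h6 : (maximalIdeal R).map (Ideal.Quotient.mk (maximalIdeal R ^ n)) ≤
            RingHom.ker g2.toRingHom := by
          rw [Ideal.map_le_iff_le_comap]
          exact fun x hx => hg2 x hx
        exact h6 hy
      rw [map_lmap_sub, toA_map] at h5
      exact (sub_eq_zero.1 h5.bot).symm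
    rw [h2, h3] at h1
    exact h1
  have hgg : g1 = g2 := hmono (S ⧸ I) hQ n g1 g2 hE1
  have hIn : IsNilpotent I := by
    obtain ⟨m, hm⟩ := hNSn
    refine ⟨m, ?_⟩
    have h1 : I ^ m ≤ NS ^ m := Ideal.pow_right_mono hIN m
    rw [hm] at h1
    exact le_bot_iff.1 h1
  refine ⟨S, ψ', cS, hψ', hψs, fun _ => rfl, ?_, ?_⟩
  · refine adjoin_eq_top_of_nilpotent cS hIn fun y => ?_
    obtain ⟨z, rfl⟩ := hψs y
    obtain ⟨x, rfl⟩ := Ideal.Quotient.mk_surjective z
    obtain ⟨a, ha⟩ := exists_constant hres x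
    refine ⟨a, ?_⟩
    have h1 : g1 (Ideal.Quotient.mk _ (x - algebraMap k R a)) = 0 := by
      rw [hgg]
      exact hg2 _ ha
    have h2 : ψ' (Ideal.Quotient.mk _ (x - algebraMap k R a)) ∈ I :=
      Ideal.Quotient.eq_zero_iff_mem.1 h1
    have h3 : ψ' (Ideal.Quotient.mk _ (x - algebraMap k R a)) =
        ψ' (Ideal.Quotient.mk _ x) - algebraMap k S a := by
      rw [map_sub, map_sub]
      congr 1
      exact ψ'.commutes a
    rw [h3] at h2
    exact h2
  · rw [← hF'eq]
    exact hE

/-- the smallest formal family -/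
theorem exists_surj {R : Type u} [CommRing R] [Algebra k R] [IsLocalRing R]
    (hres : Function.Surjective (algebraMap k (ResidueField R)))
    (H0 : ∀ C : ZMod f → Mat k, dk p B C = 0 →
      ∃ c : k, ∀ j, C j = (HahnSeries.C c : LaurentSeries k) • (1 : Mat k))
    {ι : Type} [Fintype ι] (D : ι → ZMod f → Mat k)
    (hD : ∀ (r : ι → k) (C : ZMod f → Mat k), ∑ s, r s • D s = dk p B C → r = 0)
    (𝓕 : Family B R) (hmono : 𝓕.IsMono p)
    {Q : Type u} [CommRing Q] [Algebra k Q] (X : ι → Q)
    {A : Type u} [CommRing A] [Algebra k A] [IsLocalRing A] (hA : IsTest k A)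
    (g0 : Q →ₐ[k] A) (hinj : Function.Injective g0) (hc : ∀ s, g0 (X s) ∈ maximalIdeal A)
    (hX : Algebra.adjoin k (Set.range X) = ⊤) {N : ℕ}
    (ψ : (R ⧸ maximalIdeal R ^ N) →ₐ[k] A)
    (h : Eqv p (maximalIdeal A) (𝓕.push ψ) (famA B D fun s => g0 (X s))) :
    ∃ g : (R ⧸ maximalIdeal R ^ N) →ₐ[k] Q, Function.Surjective g ∧
      Eqv p ((maximalIdeal A).comap g0.toRingHom) (𝓕.push g) (famA B D X) := by
  obtain ⟨S, ψ', cS, hψ', hψs, hcS, hS, hE⟩ :=
    coordinates_range hres H0 D hD 𝓕 hmono hA (fun s => g0 (X s)) hc ψ h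
  -- `S` is the image of `g0`
  have hSr : S = g0.range := by
    have h1 : S = Algebra.adjoin k (Set.range fun s => g0 (X s)) := by
      have h2 := congrArg (fun T : Subalgebra k S => T.map S.val) hS
      simp only [Algebra.map_top] at h2
      rw [AlgHom.map_adjoin, Subalgebra.range_val] at h2
      rw [← h2]
      congr 1
      rw [← Set.range_comp]
      congr 1
      funext s
      exact hcS s
    have h3 : g0.range = Algebra.adjoin k (Set.range fun s => g0 (X s)) := by
      rw [← Algebra.map_top, ← hX, AlgHom.map_adjoin, ← Set.range_comp]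
      rfl
    rw [h1, h3]
  subst hSr
  obtain ⟨e, he⟩ : ∃ e : Q ≃ₐ[k] g0.range, ∀ y, ((e y : g0.range) : A) = g0 y :=
    ⟨AlgEquiv.ofInjective g0 hinj, fun y => rfl⟩
  refine ⟨e.symm.toAlgHom.comp ψ', e.symm.surjective.comp hψs, ?_⟩
  have h1 := hE.map e.symm.toAlgHom.toRingHom (I' := (maximalIdeal A).comap g0.toRingHom) (by
    intro x hx
    show g0 (e.symm x) ∈ maximalIdeal A
    rw [← he, AlgEquiv.apply_symm_apply]
    exact hx)
  have h2 : (fun j => (𝓕.push ψ' j).map (lmap e.symm.toAlgHom.toRingHom)) =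
      𝓕.push (e.symm.toAlgHom.comp ψ') := rfl
  have h3 : (fun j => (famA B D cS j).map (lmap e.symm.toAlgHom.toRingHom)) = famA B D X := by
    funext j
    rw [famA_map]
    congr 1
    funext s
    show e.symm (cS s) = X s
    rw [AlgEquiv.symm_apply_eq]
    apply Subtype.ext
    rw [he, hcS]
  rw [h2, h3] at h1
  exact h1

end

section
variable {J S O : Type} [Fintype J] [Fintype S] [Fintype O] [DecidableEq J] {k : Type u} [Field k]

/-- the coordinates generate the quotients -/
theorem adjoin_XM (ω : S → J) (n : ℕ) :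
    Algebra.adjoin k (Set.range fun v => Ideal.Quotient.mk
      (maximalIdeal (RW k O ω) ^ n) (XM k O ω v)) = ⊤ := by
  have h1 : ∀ m : MM (WX O ω), Ideal.Quotient.mk (maximalIdeal (RW k O ω) ^ n) (mo0 k m) ∈
      Algebra.adjoin k (Set.range fun v => Ideal.Quotient.mk
        (maximalIdeal (RW k O ω) ^ n) (XM k O ω v)) := by
    have key : ∀ (d : ℕ) (m : MM (WX O ω)), dg m = d →
        Ideal.Quotient.mk (maximalIdeal (RW k O ω) ^ n) (mo0 k m) ∈
      Algebra.adjoin k (Set.range fun v => Ideal.Quotient.mk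
        (maximalIdeal (RW k O ω) ^ n) (XM k O ω v)) := by
      intro d
      induction d with
      | zero =>
        intro m hm
        rw [dg_eq_zero.1 hm]
        have e : mo0 k (0 : MM (WX O ω)) = 1 := by
          unfold mo0
          rw [mon_zero, map_one]
        rw [e, map_one]
        exact Subalgebra.one_mem _
      | succ d ih =>
        intro m hm
        obtain ⟨a, m', ha, hm', rfl⟩ := exists_split m hm
        have e : mo0 k (a + m') = mo0 k a * mo0 k m' := by
          unfold mo0
          rw [mon_add, map_mul]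
        rw [e, map_mul]
        refine Subalgebra.mul_mem _ ?_ (ih m' hm')
        obtain ⟨v, rfl⟩ := exists_ex a ha
        exact Algebra.subset_adjoin ⟨v, rfl⟩
    intro m
    exact key _ m rfl
  rw [eq_top_iff]
  intro x _
  obtain ⟨y, rfl⟩ := (eqv k (WX O ω) n).surjective x
  obtain ⟨z, rfl⟩ := Ideal.Quotient.mk_surjective y
  induction z using AddMonoidAlgebra.induction_linear with
  | zero => rw [map_zero, map_zero]; exact Subalgebra.zero_mem _
  | add x y hx hy =>
    rw [map_add, map_add]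
    exact Subalgebra.add_mem _ (hx trivial) (hy trivial)
  | single m c =>
    have e : Ideal.Quotient.mk (PM k (WX O ω) ^ n) (AddMonoidAlgebra.single m c) =
        c • Ideal.Quotient.mk (PM k (WX O ω) ^ n) (mon k m) := by
      rw [single_eq, ← Ideal.Quotient.mkₐ_eq_mk k, map_smul]
    rw [e, map_smul]
    exact Subalgebra.smul_mem _ (h1 m) c

end

end Pool.Agent.Lib.MP_74d0c9_nt
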