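import Pool.Agent.Lib.MP_74d0c9_nt.CountX

/-!
The monomial algebra generated by the `y_i` and the `y_i l_r ^ e`, `i ∈ W r`, `e ≤ 2`, and its
quotients by the powers of the ideal of the origin.
-/

set_option autoImplicit false

namespace Pool.Agent.Lib.MP_74d0c9_nt

open Finset

universe u

section
variable {ι J : Type} [Fintype ι] [Fintype J]

/-- the exponents of the products of the monomials `y_i`, and `y_i l_r ^ e`, `i ∈ W r`, `e ≤ 2` -/
def MM (W : J → Finset ι) : AddSubmonoid ((ι → ℕ) × (J → ℕ)) where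
  carrier := {q | ∀ r, q.2 r ≤ 2 * ∑ i ∈ W r, q.1 i}
  zero_mem' := fun _ => Nat.zero_le _
  add_mem' := by
    intro a b ha hb r
    have h1 := ha r
    have h2 := hb r
    show a.2 r + b.2 r ≤ 2 * ∑ i ∈ W r, (a.1 i + b.1 i)
    rw [sum_add_distrib]
    omega

variable {W : J → Finset ι}

/-- the degree -/
def dg (m : MM W) : ℕ := ∑ i, m.1.1 i

omit [Fintype J] [Fintype ι] in
theorem mem_MM (m : MM W) (r : J) : m.1.2 r ≤ 2 * ∑ i ∈ W r, m.1.1 i := m.2 r

omit [Fintype J] in
theorem dg_zero : dg (0 : MM W) = 0 := sum_eq_zero fun _ _ => rfl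

omit [Fintype J] in
theorem dg_add (m m' : MM W) : dg (m + m') = dg m + dg m' := by
  unfold dg
  rw [← sum_add_distrib]
  rfl

omit [Fintype J] in
theorem sum_le_dg (m : MM W) (r : J) : ∑ i ∈ W r, m.1.1 i ≤ dg m :=
  sum_le_sum_of_subset (subset_univ _)

omit [Fintype J] in
theorem le_dg (m : MM W) (i : ι) : m.1.1 i ≤ dg m :=
  single_le_sum (f := fun i => m.1.1 i) (fun _ _ => Nat.zero_le _) (mem_univ i)

omit [Fintype J] in
theorem dg_eq_zero {m : MM W} : dg m = 0 ↔ m = 0 := by
  constructor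
  · intro h
    apply Subtype.ext
    refine Prod.ext ?_ ?_
    · funext i
      have := le_dg m i
      show m.1.1 i = 0
      omega
    · funext r
      have h1 := sum_le_dg m r
      have h2 := mem_MM m r
      show m.1.2 r = 0
      omega
  · rintro rfl
    exact dg_zero

omit [Fintype J] in
/-- every exponent is a sum of exponents of degree one -/
theorem exists_split (m : MM W) {d : ℕ} (h : dg m = d + 1) :
    ∃ g m' : MM W, dg g = 1 ∧ dg m' = d ∧ m = g + m' := by
  classical
  obtain ⟨i, hi⟩ : ∃ i, m.1.1 i ≠ 0 := by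
    by_contra hc
    push Not at hc
    have : dg m = 0 := sum_eq_zero fun i _ => hc i
    omega
  have hsum : ∀ T : Finset ι, i ∈ T → ∑ j ∈ T, (Pi.single i 1 : ι → ℕ) j = 1 := by
    intro T hT
    rw [sum_eq_single i]
    · rw [Pi.single_eq_same]
    · intro j _ hj
      exact Pi.single_eq_of_ne hj _
    · intro hc
      exact absurd hT hc
  have hdec : ∀ j, m.1.1 j = (Pi.single i 1 : ι → ℕ) j + (m.1.1 j - (Pi.single i 1 : ι → ℕ) j) := by
    intro j
    by_cases hj : j = i
    · subst hj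
      rw [Pi.single_eq_same]
      omega
    · rw [Pi.single_eq_of_ne hj]
      omega
  have hsub : ∀ T : Finset ι, i ∈ T →
      ∑ j ∈ T, m.1.1 j = 1 + ∑ j ∈ T, (m.1.1 j - (Pi.single i 1 : ι → ℕ) j) := by
    intro T hT
    calc ∑ j ∈ T, m.1.1 j = ∑ j ∈ T, ((Pi.single i 1 : ι → ℕ) j +
          (m.1.1 j - (Pi.single i 1 : ι → ℕ) j)) := sum_congr rfl fun j _ => hdec j
      _ = _ := by rw [sum_add_distrib, hsum T hT]
  have hsub' : ∀ T : Finset ι, i ∉ T →
      ∑ j ∈ T, (m.1.1 j - (Pi.single i 1 : ι → ℕ) j) = ∑ j ∈ T, m.1.1 j := by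
    intro T hT
    refine sum_congr rfl fun j hj => ?_
    rw [Pi.single_eq_of_ne (fun h : j = i => hT (by rw [← h]; exact hj)), Nat.sub_zero]
  refine ⟨⟨(Pi.single i 1, fun r => if i ∈ W r then min 2 (m.1.2 r) else 0), ?_⟩,
    ⟨(fun j => m.1.1 j - (Pi.single i 1 : ι → ℕ) j,
      fun r => if i ∈ W r then m.1.2 r - 2 else m.1.2 r), ?_⟩, ?_, ?_, ?_⟩
  · intro r
    show (if i ∈ W r then min 2 (m.1.2 r) else 0) ≤ 2 * ∑ j ∈ W r, (Pi.single i 1 : ι → ℕ) j
    by_cases hr : i ∈ W r
    · rw [if_pos hr, hsum _ hr]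
      omega
    · rw [if_neg hr]
      omega
  · intro r
    show (if i ∈ W r then m.1.2 r - 2 else m.1.2 r) ≤
      2 * ∑ j ∈ W r, (m.1.1 j - (Pi.single i 1 : ι → ℕ) j)
    have h1 := mem_MM m r
    by_cases hr : i ∈ W r
    · rw [if_pos hr]
      have h2 := hsub _ hr
      omega
    · rw [if_neg hr, hsub' _ hr]
      exact h1
  · exact hsum _ (mem_univ i)
  · have h2 := hsub _ (mem_univ i)
    have h3 : dg m = ∑ j, m.1.1 j := rfl
    show ∑ j, (m.1.1 j - (Pi.single i 1 : ι → ℕ) j) = d
    omega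
  · apply Subtype.ext
    refine Prod.ext ?_ ?_
    · funext j
      exact hdec j
    · funext r
      show m.1.2 r = (if i ∈ W r then min 2 (m.1.2 r) else 0) +
        (if i ∈ W r then m.1.2 r - 2 else m.1.2 r)
      by_cases hr : i ∈ W r
      · rw [if_pos hr, if_pos hr]
        omega
      · rw [if_neg hr, if_neg hr, zero_add]

theorem finite_dg (n : ℕ) : Finite {m : MM W // dg m < n} := by
  have h1 : ∀ (m : {m : MM W // dg m < n}) (i : ι), m.1.1.1 i < n := fun m i =>
    (le_dg m.1 i).trans_lt m.2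
  have h2 : ∀ (m : {m : MM W // dg m < n}) (r : J), m.1.1.2 r < 2 * n := by
    intro m r
    have h3 := mem_MM m.1 r
    have h4 := sum_le_dg m.1 r
    have h5 := m.2
    omega
  refine Finite.of_injective (fun m : {m : MM W // dg m < n} =>
    ((fun i => (⟨m.1.1.1 i, h1 m i⟩ : Fin n), fun r => (⟨m.1.1.2 r, h2 m r⟩ : Fin (2 * n))) :
      (ι → Fin n) × (J → Fin (2 * n)))) ?_
  intro m m' h
  apply Subtype.ext
  apply Subtype.ext
  refine Prod.ext ?_ ?_
  · funext i
    have := congrFun (congrArg Prod.fst h) i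
    exact Fin.mk.inj_iff.1 this
  · funext r
    have := congrFun (congrArg Prod.snd h) r
    exact Fin.mk.inj_iff.1 this

instance fg_MM : AddMonoid.FG (MM W) := by
  rw [AddMonoid.fg_iff]
  refine ⟨{m | dg m < 2}, ?_, ?_⟩
  · rw [eq_top_iff]
    have key : ∀ (d : ℕ) (m : MM W), dg m = d → m ∈ AddSubmonoid.closure {m : MM W | dg m < 2} := by
      intro d
      induction d with
      | zero =>
        intro m hm
        rw [dg_eq_zero.1 hm]
        exact AddSubmonoid.zero_mem _
      | succ d ih =>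
        intro m hm
        obtain ⟨g, m', hg, hm', rfl⟩ := exists_split m hm
        refine AddSubmonoid.add_mem _ (AddSubmonoid.subset_closure ?_) (ih m' hm')
        show dg g < 2
        omega
    intro m _
    exact key _ m rfl
  · exact @Set.toFinite _ _ (finite_dg (W := W) 2)

/-- the number of the exponents -/
theorem card_dg [DecidableEq ι] [DecidableEq J] (n : ℕ) :
    Nat.card {m : MM W // dg m < n} = (EQ W n).card := by
  have e : {m : MM W // dg m < n} ≃ EQ W n :=
    { toFun := fun m => ⟨(Finsupp.equivFunOnFinite.symm m.1.1.1, m.1.1.2), by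
        rw [mem_EQ]
        exact ⟨m.2, fun r => m.1.2 r⟩⟩
      invFun := fun q => ⟨⟨(Finsupp.equivFunOnFinite q.1.1, q.1.2), (mem_EQ.1 q.2).2⟩,
        (mem_EQ.1 q.2).1⟩
      left_inv := fun m => by
        apply Subtype.ext
        apply Subtype.ext
        exact Prod.ext (by simp) rfl
      right_inv := fun q => by
        apply Subtype.ext
        exact Prod.ext (by simp) rfl }
  rw [Nat.card_congr e, Nat.card_eq_fintype_card, Fintype.card_coe]

end

end Pool.Agent.Lib.MP_74d0c9_nt
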