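import Pool.Agent.Lib.MP_74d0c9_nt.XR0a

/-!
The monomial algebra and its quotients by the powers of the ideal of the origin.
-/

set_option autoImplicit false
set_option linter.unusedSectionVars false

namespace Pool.Agent.Lib.MP_74d0c9_nt

open Finset

universe u

section
variable {ι J : Type} [Fintype ι] {k : Type u} [Field k] {W : J → Finset ι}

/-- the monomial algebra `k[y_i, y_i l_r, y_i l_r ^ 2 : i ∈ W r]` -/
abbrev RM (k : Type u) [Field k] (W : J → Finset ι) : Type u := AddMonoidAlgebra k (MM W)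

/-- a monomial -/
noncomputable def mon (k : Type u) [Field k] (m : MM W) : RM k W := AddMonoidAlgebra.single m 1

theorem mon_zero : mon k (0 : MM W) = 1 := rfl

theorem mon_add (m m' : MM W) : mon k (m + m') = mon k m * mon k m' := by
  unfold mon
  rw [AddMonoidAlgebra.single_mul_single, one_mul]

theorem single_eq (m : MM W) (c : k) : (AddMonoidAlgebra.single m c : RM k W) = c • mon k m := by
  unfold mon
  rw [AddMonoidAlgebra.smul_single, smul_eq_mul, mul_one]

/-- the homomorphism of algebras given by a homomorphism of monoids -/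
noncomputable def liftM {A : Type u} [CommRing A] [Algebra k A] (F : MM W → A) (h0 : F 0 = 1)
    (hadd : ∀ m m', F (m + m') = F m * F m') : RM k W →ₐ[k] A :=
  AddMonoidAlgebra.lift k A (MM W)
    { toFun := fun q => F q.toAdd
      map_one' := h0
      map_mul' := fun a b => hadd a.toAdd b.toAdd }

theorem liftM_mon {A : Type u} [CommRing A] [Algebra k A] (F : MM W → A) (h0 : F 0 = 1)
    (hadd : ∀ m m', F (m + m') = F m * F m') (m : MM W) : liftM (k := k) F h0 hadd (mon k m) = F m := by
  unfold liftM mon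
  rw [AddMonoidAlgebra.lift_single, one_smul]
  rfl

/-- two homomorphisms which agree on the monomials of degree one are equal -/
theorem algHom_ext_dg {A : Type u} [CommRing A] [Algebra k A] (g g' : RM k W →ₐ[k] A)
    (h : ∀ m : MM W, dg m = 1 → g (mon k m) = g' (mon k m)) : g = g' := by
  have key : ∀ (d : ℕ) (m : MM W), dg m = d → g (mon k m) = g' (mon k m) := by
    intro d
    induction d with
    | zero =>
      intro m hm
      rw [dg_eq_zero.1 hm, mon_zero, map_one, map_one]
    | succ d ih =>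
      intro m hm
      obtain ⟨a, m', ha, hm', rfl⟩ := exists_split m hm
      rw [mon_add, map_mul, map_mul, h a ha, ih m' hm']
  apply AlgHom.ext
  intro x
  induction x using AddMonoidAlgebra.induction_linear with
  | zero => rw [map_zero, map_zero]
  | add x y hx hy => rw [map_add, map_add, hx, hy]
  | single m c => rw [single_eq, map_smul, map_smul, key _ m rfl]

open Classical in
/-- the value at the origin -/
noncomputable def aug (k : Type u) [Field k] (W : J → Finset ι) : RM k W →ₐ[k] k :=
  liftM (fun m => if dg m = 0 then 1 else 0) (if_pos dg_zero) (by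
    intro m m'
    rw [dg_add]
    by_cases h : dg m = 0
    · rw [if_pos h, one_mul, h, zero_add]
    · rw [if_neg h, if_neg (by omega), zero_mul])

theorem aug_zero_dg {m : MM W} (h : dg m ≠ 0) : aug k W (mon k m) = 0 := by
  unfold aug
  rw [liftM_mon, if_neg h]

/-- the ideal of the origin -/
noncomputable def PM (k : Type u) [Field k] (W : J → Finset ι) : Ideal (RM k W) :=
  RingHom.ker (aug k W)

theorem mem_PM {x : RM k W} : x ∈ PM k W ↔ aug k W x = 0 := Iff.rfl

theorem aug_surjective : Function.Surjective (aug k W) := fun c =>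
  ⟨algebraMap k _ c, by rw [AlgHom.commutes]; rfl⟩

instance isMaximal_PM : (PM k W).IsMaximal :=
  RingHom.ker_isMaximal_of_surjective (aug k W) aug_surjective

theorem sub_mem_PM (x : RM k W) : x - algebraMap k _ (aug k W x) ∈ PM k W := by
  rw [mem_PM, map_sub, AlgHom.commutes]
  exact sub_self _

theorem mon_mem_pow (m : MM W) : mon k m ∈ PM k W ^ dg m := by
  have key : ∀ (d : ℕ) (m : MM W), dg m = d → mon k m ∈ PM k W ^ d := by
    intro d
    induction d with
    | zero =>
      intro m _
      rw [pow_zero, Ideal.one_eq_top]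
      trivial
    | succ d ih =>
      intro m hm
      obtain ⟨a, m', ha, hm', rfl⟩ := exists_split m hm
      rw [mon_add, pow_succ']
      refine Ideal.mul_mem_mul ?_ (ih m' hm')
      rw [mem_PM]
      exact aug_zero_dg (by omega)
  exact key _ m rfl

/-- every element is a constant plus a combination of monomials of positive degree -/
theorem sub_aug_mem (x : RM k W) : x - algebraMap k _ (aug k W x) ∈
    Submodule.span k {y : RM k W | ∃ m : MM W, dg m ≠ 0 ∧ y = mon k m} := by
  induction x using AddMonoidAlgebra.induction_linear with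
  | zero => rw [map_zero, map_zero, sub_self]; exact Submodule.zero_mem _
  | add x y hx hy =>
    have e : x + y - algebraMap k _ (aug k W (x + y)) =
        (x - algebraMap k _ (aug k W x)) + (y - algebraMap k _ (aug k W y)) := by
      rw [map_add, map_add]
      ring
    rw [e]
    exact Submodule.add_mem _ hx hy
  | single m c =>
    by_cases h : dg m = 0
    · have h0 := dg_eq_zero.1 h
      subst h0
      have e : (AddMonoidAlgebra.single 0 c : RM k W) = algebraMap k _ c := by
        rw [single_eq, mon_zero, Algebra.algebraMap_eq_smul_one]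
      rw [e, AlgHom.commutes]
      have e2 : algebraMap k k c = c := rfl
      rw [e2, sub_self]
      exact Submodule.zero_mem _
    · rw [single_eq, map_smul, aug_zero_dg h, smul_zero, map_zero, sub_zero]
      exact Submodule.smul_mem _ _ (Submodule.subset_span ⟨m, h, rfl⟩)

/-- the ideal of the origin is generated by the monomials of degree one -/
theorem PM_eq_span : PM k W = Ideal.span {y : RM k W | ∃ m : MM W, dg m = 1 ∧ y = mon k m} := by
  apply le_antisymm
  · intro x hx
    have h := sub_aug_mem x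
    rw [mem_PM.1 hx, map_zero, sub_zero] at h
    refine Submodule.span_induction (p := fun x _ => x ∈ Ideal.span
      {y : RM k W | ∃ m : MM W, dg m = 1 ∧ y = mon k m}) ?_ ?_ ?_ ?_ h
    · rintro _ ⟨m, hm, rfl⟩
      obtain ⟨a, m', ha, -, rfl⟩ := exists_split m (d := dg m - 1) (by omega)
      rw [mon_add]
      exact Ideal.mul_mem_right _ _ (Ideal.subset_span ⟨a, ha, rfl⟩)
    · exact Ideal.zero_mem _
    · intro x y _ _ hx hy
      exact Ideal.add_mem _ hx hy
    · intro c x _ hx
      rw [Algebra.smul_def]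
      exact Ideal.mul_mem_left _ _ hx
  · rw [Ideal.span_le]
    rintro _ ⟨m, hm, rfl⟩
    exact mem_PM.2 (aug_zero_dg (by omega))

/-- the monomials of degree less than `n` span the quotient -/
theorem span_quot (n : ℕ) : ⊤ ≤ Submodule.span k (Set.range fun m : {m : MM W // dg m < n} =>
    Ideal.Quotient.mk (PM k W ^ n) (mon k m.1)) := by
  rintro a -
  obtain ⟨x, rfl⟩ := Ideal.Quotient.mk_surjective a
  induction x using AddMonoidAlgebra.induction_linear with
  | zero => rw [map_zero]; exact Submodule.zero_mem _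
  | add x y hx hy => rw [map_add]; exact Submodule.add_mem _ hx hy
  | single m c =>
    rw [single_eq, ← Ideal.Quotient.mkₐ_eq_mk k, map_smul]
    refine Submodule.smul_mem _ _ ?_
    by_cases h : dg m < n
    · exact Submodule.subset_span ⟨⟨m, h⟩, rfl⟩
    · have h1 : (Ideal.Quotient.mkₐ k (PM k W ^ n)) (mon k m) = 0 := by
        rw [Ideal.Quotient.mkₐ_eq_mk, Ideal.Quotient.eq_zero_iff_mem]
        exact Ideal.pow_le_pow_right (by omega) (mon_mem_pow m)
      rw [h1]
      exact Submodule.zero_mem _

end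

section
variable {ι J : Type} [Fintype ι] [Fintype J] {k : Type u} [Field k] {W : J → Finset ι}

/-- the homomorphism given by `y_i`, `α_r`, `β_r` -/
noncomputable def evM {A : Type u} [CommRing A] [Algebra k A] (y : ι → A) (α β : J → A) :
    RM k W →ₐ[k] A :=
  liftM (fun m => (∏ i, y i ^ m.1.1 i) *
      ∏ r, α r ^ m.1.2 r * β r ^ (2 * ∑ i ∈ W r, m.1.1 i - m.1.2 r))
    (by
      have h1 : ∀ r : J, 2 * ∑ i ∈ W r, (0 : MM W).1.1 i - (0 : MM W).1.2 r = 0 := by
        intro r
        have : ∑ i ∈ W r, (0 : MM W).1.1 i = 0 := sum_eq_zero fun _ _ => rfl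
        omega
      have h2 : ∏ i, y i ^ (0 : MM W).1.1 i = 1 := prod_eq_one fun i _ => pow_zero _
      rw [h2, one_mul]
      refine prod_eq_one fun r _ => ?_
      rw [h1]
      have h3 : (0 : MM W).1.2 r = 0 := rfl
      rw [h3, pow_zero, pow_zero, one_mul])
    (by
      intro m m'
      have h1 : ∀ r : J, 2 * ∑ i ∈ W r, (m + m').1.1 i - (m + m').1.2 r =
          (2 * ∑ i ∈ W r, m.1.1 i - m.1.2 r) + (2 * ∑ i ∈ W r, m'.1.1 i - m'.1.2 r) := by
        intro r
        have e1 : ∑ i ∈ W r, (m + m').1.1 i = ∑ i ∈ W r, m.1.1 i + ∑ i ∈ W r, m'.1.1 i := by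
          rw [← sum_add_distrib]
          rfl
        have e2 : (m + m').1.2 r = m.1.2 r + m'.1.2 r := rfl
        have h3 := mem_MM m r
        have h4 := mem_MM m' r
        omega
      have h2 : ∏ i, y i ^ (m + m').1.1 i = (∏ i, y i ^ m.1.1 i) * ∏ i, y i ^ m'.1.1 i := by
        rw [← prod_mul_distrib]
        exact prod_congr rfl fun i _ => pow_add _ _ _
      have h3 : ∏ r, α r ^ (m + m').1.2 r *
            β r ^ (2 * ∑ i ∈ W r, (m + m').1.1 i - (m + m').1.2 r) =
          (∏ r, α r ^ m.1.2 r * β r ^ (2 * ∑ i ∈ W r, m.1.1 i - m.1.2 r)) *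
            ∏ r, α r ^ m'.1.2 r * β r ^ (2 * ∑ i ∈ W r, m'.1.1 i - m'.1.2 r) := by
        rw [← prod_mul_distrib]
        refine prod_congr rfl fun r _ => ?_
        have e3 : α r ^ (m + m').1.2 r = α r ^ m.1.2 r * α r ^ m'.1.2 r := pow_add _ _ _
        rw [h1, e3, pow_add]
        ring
      rw [h2, h3]
      ring)

theorem evM_mon {A : Type u} [CommRing A] [Algebra k A] (y : ι → A) (α β : J → A) (m : MM W) :
    evM (k := k) (W := W) y α β (mon k m) = (∏ i, y i ^ m.1.1 i) *
      ∏ r, α r ^ m.1.2 r * β r ^ (2 * ∑ i ∈ W r, m.1.1 i - m.1.2 r) := liftM_mon _ _ _ m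

theorem evM_mem {A : Type u} [CommRing A] [Algebra k A] (y : ι → A) (α β : J → A) (I : Ideal A)
    (hy : ∀ i, y i ∈ I) : PM k W ≤ I.comap (evM (k := k) (W := W) y α β) := by
  classical
  rw [PM_eq_span, Ideal.span_le]
  rintro _ ⟨m, hm, rfl⟩
  show evM (k := k) (W := W) y α β (mon k m) ∈ I
  rw [evM_mon]
  refine Ideal.mul_mem_right _ _ ?_
  obtain ⟨i, hi⟩ : ∃ i, m.1.1 i ≠ 0 := by
    by_contra hc
    push Not at hc
    have : dg m = 0 := sum_eq_zero fun i _ => hc i
    omega
  rw [← Finset.mul_prod_erase _ _ (mem_univ i)]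
  refine Ideal.mul_mem_right _ _ ?_
  exact Ideal.pow_mem_of_mem _ (hy i) _ (by omega)

theorem evM_pow {A : Type u} [CommRing A] [Algebra k A] (y : ι → A) (α β : J → A) (I : Ideal A)
    (hy : ∀ i, y i ∈ I) (n : ℕ) (hI : I ^ n = ⊥) (x : RM k W) (hx : x ∈ PM k W ^ n) :
    evM (k := k) (W := W) y α β x = 0 := by
  have h1 : (PM k W ^ n).map (evM (k := k) (W := W) y α β).toRingHom ≤ I ^ n := by
    rw [Ideal.map_pow]
    exact Ideal.pow_right_mono (Ideal.map_le_iff_le_comap.2 (evM_mem y α β I hy)) n
  have h2 := h1 (Ideal.mem_map_of_mem _ hx)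
  rw [hI] at h2
  exact h2

/-- the homomorphism of the quotient -/
noncomputable def evQ {A : Type u} [CommRing A] [Algebra k A] (y : ι → A) (α β : J → A) (I : Ideal A)
    (hy : ∀ i, y i ∈ I) (n : ℕ) (hI : I ^ n = ⊥) : (RM k W ⧸ PM k W ^ n) →ₐ[k] A :=
  Ideal.Quotient.liftₐ _ (evM y α β) fun x hx => evM_pow y α β I hy n hI x hx

theorem evQ_mk {A : Type u} [CommRing A] [Algebra k A] (y : ι → A) (α β : J → A) (I : Ideal A)
    (hy : ∀ i, y i ∈ I) (n : ℕ) (hI : I ^ n = ⊥) (x : RM k W) :
    evQ (k := k) (W := W) y α β I hy n hI (Ideal.Quotient.mk _ x) = evM y α β x := rfl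

/-- the quotient embeds in the truncated polynomial ring -/
theorem exists_embed (n : ℕ) (hn : 0 < n) :
    ∃ (A : Type u) (_ : CommRing A) (_ : Algebra k A) (_ : IsLocalRing A) (l : J → A) (y : ι → A)
      (g : (RM k W ⧸ PM k W ^ n) →ₐ[k] A),
      IsTest k A ∧ (∀ r, l r ∈ IsLocalRing.maximalIdeal A) ∧
        (∀ i, y i ∈ IsLocalRing.maximalIdeal A) ∧ (∀ i, IsNilpotent (y i)) ∧
        (∀ m : MM W, g (Ideal.Quotient.mk _ (mon k m)) =
          (∏ r, l r ^ m.1.2 r) * ∏ i, y i ^ m.1.1 i) ∧
        Function.Injective g ∧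
        LinearIndependent k fun m : {m : MM W // dg m < n} =>
          Ideal.Quotient.mk (PM k W ^ n) (mon k m.1) := by
  obtain ⟨A, hA1, hA2, hA3, l, y, hT, hl, hy, hny, hp, hli⟩ := exists_truncG k J ι n hn
  obtain ⟨g, hgd⟩ : ∃ g, g = evQ (k := k) (W := W) y l (fun _ => 1) (Ideal.span (Set.range y))
    (fun i => Ideal.subset_span ⟨i, rfl⟩) n hp := ⟨_, rfl⟩
  have hg : ∀ m : MM W, g (Ideal.Quotient.mk _ (mon k m)) =
      (∏ r, l r ^ m.1.2 r) * ∏ i, y i ^ m.1.1 i := by
    intro m
    rw [hgd, evQ_mk, evM_mon, mul_comm]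
    congr 1
    refine prod_congr rfl fun r _ => ?_
    rw [one_pow, mul_one]
  have h1 : LinearIndependent k fun m : {m : MM W // dg m < n} =>
      g (Ideal.Quotient.mk (PM k W ^ n) (mon k m.1)) := by
    have hlt : ∀ (m : {m : MM W // dg m < n}) (r : J), m.1.1.2 r < 2 * n := by
      intro m r
      have h3 := mem_MM m.1 r
      have h4 := sum_le_dg m.1 r
      have h5 := m.2
      omega
    have h4 := hli.comp (fun m : {m : MM W // dg m < n} =>
        (⟨(m.1.1.2, m.1.1.1), hlt m, m.2⟩ :
          {e : (J → ℕ) × (ι → ℕ) // (∀ r, e.1 r < 2 * n) ∧ ∑ v, e.2 v < n})) ?_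
    · simp only [hg]
      exact h4
    · intro m m' h
      have h5 : m.1.1.2 = m'.1.1.2 := congrArg (fun z => z.1.1) h
      have h6 : m.1.1.1 = m'.1.1.1 := congrArg (fun z => z.1.2) h
      exact Subtype.ext (Subtype.ext (Prod.ext h6 h5))
  have h2 : LinearIndependent k fun m : {m : MM W // dg m < n} =>
      Ideal.Quotient.mk (PM k W ^ n) (mon k m.1) :=
    LinearIndependent.of_comp g.toLinearMap h1
  refine ⟨A, hA1, hA2, hA3, l, y, g, hT, hl, hy, hny, hg, ?_, h2⟩
  obtain ⟨b, hb⟩ : ∃ b : Module.Basis {m : MM W // dg m < n} k (RM k W ⧸ PM k W ^ n),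
      b = Module.Basis.mk h2 (span_quot n) := ⟨_, rfl⟩
  have h3 : ∀ x, g x = 0 → x = 0 := by
    intro x hx
    have h4 : Finsupp.linearCombination k (fun m : {m : MM W // dg m < n} =>
        g (Ideal.Quotient.mk (PM k W ^ n) (mon k m.1))) (b.repr x) = 0 := by
      rw [← hx, ← b.linearCombination_repr x]
      have h5 := Finsupp.apply_linearCombination k g.toLinearMap b (b.repr x)
      rw [b.linearCombination_repr x] at h5 ⊢
      have h6 : (g.toLinearMap ∘ b : {m : MM W // dg m < n} → A) =
          fun m => g (Ideal.Quotient.mk (PM k W ^ n) (mon k m.1)) := by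
        funext m
        rw [hb]
        exact congrArg g (Module.Basis.mk_apply h2 (span_quot n) m)
      rw [h6] at h5
      exact h5.symm
    have h5 := linearIndependent_iff.1 h1 _ h4
    rw [← b.linearCombination_repr x, h5, map_zero]
  intro x x' h
  have h4 := h3 (x - x') (by rw [map_sub, h, sub_self])
  exact sub_eq_zero.1 h4

/-- the dimension of the quotient -/
theorem finrank_quot [DecidableEq ι] [DecidableEq J] (n : ℕ) (hn : 0 < n) :
    Module.finrank k (RM k W ⧸ PM k W ^ n) = (EQ W n).card := by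
  obtain ⟨A, _, _, _, l, y, g, -, -, -, -, -, -, hli⟩ := exists_embed (k := k) (W := W) n hn
  have hfin := finite_dg (W := W) n
  rw [← card_dg n, Module.finrank_eq_nat_card_basis (Module.Basis.mk hli (span_quot n))]

end

end Pool.Agent.Lib.MP_74d0c9_nt
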