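import Pool.Agent.Lib.MP_74d0c9_nt.XR0b
import Pool.Agent.Lib.MP_74d0c9_nt.ULoc

/-!
The local ring at the origin of the monomial algebra.
-/

set_option autoImplicit false
set_option linter.unusedSectionVars false

namespace Pool.Agent.Lib.MP_74d0c9_nt

open Finset

universe u

section
variable {ι J : Type} [Fintype ι] [Fintype J] {k : Type u} [Field k] {W : J → Finset ι}

instance noeth_RM : IsNoetherianRing (RM k W) :=
  Algebra.FiniteType.isNoetherianRing k (RM k W)

/-- the local ring at the origin of the monomial algebra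
`k[y_i, y_i l_r, y_i l_r ^ 2 : i ∈ W r]` -/
def R0 (k : Type u) [Field k] (W : J → Finset ι) : Type u := Localization.AtPrime (PM k W)

noncomputable instance commRing_R0 : CommRing (R0 k W) :=
  inferInstanceAs (CommRing (Localization.AtPrime (PM k W)))

noncomputable instance algebraM_R0 : Algebra (RM k W) (R0 k W) :=
  inferInstanceAs (Algebra (RM k W) (Localization.AtPrime (PM k W)))

noncomputable instance algebra_R0 : Algebra k (R0 k W) :=
  inferInstanceAs (Algebra k (Localization.AtPrime (PM k W)))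

instance tower_R0 : IsScalarTower k (RM k W) (R0 k W) :=
  inferInstanceAs (IsScalarTower k (RM k W) (Localization.AtPrime (PM k W)))

instance local_R0 : IsLocalRing (R0 k W) :=
  inferInstanceAs (IsLocalRing (Localization.AtPrime (PM k W)))

instance loc_R0 : IsLocalization.AtPrime (R0 k W) (PM k W) :=
  inferInstanceAs (IsLocalization.AtPrime (Localization.AtPrime (PM k W)) (PM k W))

instance noeth_R0 : IsNoetherianRing (R0 k W) :=
  IsLocalization.isNoetherianRing (PM k W).primeCompl (R0 k W) inferInstance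

/-- a monomial in the local ring -/
noncomputable def mo0 (k : Type u) [Field k] (m : MM W) : R0 k W :=
  algebraMap (RM k W) (R0 k W) (mon k m)

/-- the quotients -/
noncomputable def eqv (k : Type u) [Field k] (W : J → Finset ι) (n : ℕ) :
    (RM k W ⧸ PM k W ^ n) ≃ₐ[k] (R0 k W ⧸ IsLocalRing.maximalIdeal (R0 k W) ^ n) :=
  (IsLocalization.AtPrime.equivQuotMaximalIdealPow (PM k W) (R0 k W) n).restrictScalars k

theorem eqv_mk (n : ℕ) (x : RM k W) : eqv k W n (Ideal.Quotient.mk _ x) =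
    Ideal.Quotient.mk _ (algebraMap (RM k W) (R0 k W) x) := rfl

theorem eqv_symm_mo0 (n : ℕ) (m : MM W) : (eqv k W n).symm (Ideal.Quotient.mk _ (mo0 k m)) =
    Ideal.Quotient.mk _ (mon k m) := by
  rw [AlgEquiv.symm_apply_eq]
  rfl

theorem mo0_mem {m : MM W} (h : dg m ≠ 0) : mo0 k m ∈ IsLocalRing.maximalIdeal (R0 k W) := by
  rw [← IsLocalization.AtPrime.map_eq_maximalIdeal (PM k W) (R0 k W)]
  exact Ideal.mem_map_of_mem _ (mem_PM.2 (aug_zero_dg h))

theorem res_R0 : Function.Surjective (algebraMap k (IsLocalRing.ResidueField (R0 k W))) := by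
  intro y
  obtain ⟨a, ha⟩ := (IsLocalization.AtPrime.equivQuotMaximalIdeal (PM k W) (R0 k W)).surjective y
  obtain ⟨x, rfl⟩ := Ideal.Quotient.mk_surjective a
  refine ⟨aug k W x, ?_⟩
  have h1 : (Ideal.Quotient.mk (PM k W)) x = (Ideal.Quotient.mk (PM k W))
      (algebraMap k _ (aug k W x)) := by
    rw [Ideal.Quotient.eq]
    exact sub_mem_PM x
  rw [← ha, h1]
  rfl

/-- two homomorphisms which agree on the monomials of degree one are equal -/
theorem ext_R0 {A : Type u} [CommRing A] [Algebra k A] {n : ℕ}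
    (g g' : (R0 k W ⧸ IsLocalRing.maximalIdeal (R0 k W) ^ n) →ₐ[k] A)
    (h : ∀ m : MM W, dg m = 1 →
      g (Ideal.Quotient.mk _ (mo0 k m)) = g' (Ideal.Quotient.mk _ (mo0 k m))) : g = g' := by
  have h1 : (g.comp (eqv k W n).toAlgHom).comp (Ideal.Quotient.mkₐ k (PM k W ^ n)) =
      (g'.comp (eqv k W n).toAlgHom).comp (Ideal.Quotient.mkₐ k (PM k W ^ n)) :=
    algHom_ext_dg _ _ fun m hm => h m hm
  apply AlgHom.ext
  intro x
  obtain ⟨y, rfl⟩ := (eqv k W n).surjective x
  obtain ⟨z, rfl⟩ := Ideal.Quotient.mk_surjective y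
  exact AlgHom.congr_fun h1 z

/-- the homomorphisms to local algebras which are finite over `k` -/
theorem exists_hom_R0 {A : Type u} [CommRing A] [Algebra k A] [IsLocalRing A] (hA : IsTest k A)
    (y : ι → A) (hy : ∀ i, y i ∈ IsLocalRing.maximalIdeal A) (α β : J → A) :
    ∃ (n : ℕ) (g : (R0 k W ⧸ IsLocalRing.maximalIdeal (R0 k W) ^ n) →ₐ[k] A),
      ∀ m : MM W, g (Ideal.Quotient.mk _ (mo0 k m)) = (∏ i, y i ^ m.1.1 i) *
        ∏ r, α r ^ m.1.2 r * β r ^ (2 * ∑ i ∈ W r, m.1.1 i - m.1.2 r) := by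
  obtain ⟨n, hn⟩ := hA.isNilpotent
  refine ⟨n, (evQ (k := k) (W := W) y α β (IsLocalRing.maximalIdeal A) hy n hn).comp
    (eqv k W n).symm.toAlgHom, fun m => ?_⟩
  have h1 : ((evQ (k := k) (W := W) y α β (IsLocalRing.maximalIdeal A) hy n hn).comp
      (eqv k W n).symm.toAlgHom) (Ideal.Quotient.mk _ (mo0 k m)) =
      evQ (k := k) (W := W) y α β (IsLocalRing.maximalIdeal A) hy n hn
        ((eqv k W n).symm (Ideal.Quotient.mk _ (mo0 k m))) := rfl
  rw [h1, eqv_symm_mo0, evQ_mk, evM_mon]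

/-- the quotients embed in truncated polynomial rings -/
theorem exists_embed_R0 (n : ℕ) (hn : 0 < n) :
    ∃ (A : Type u) (_ : CommRing A) (_ : Algebra k A) (_ : IsLocalRing A) (l : J → A) (y : ι → A)
      (g : (R0 k W ⧸ IsLocalRing.maximalIdeal (R0 k W) ^ n) →ₐ[k] A),
      IsTest k A ∧ (∀ r, l r ∈ IsLocalRing.maximalIdeal A) ∧
        (∀ i, y i ∈ IsLocalRing.maximalIdeal A) ∧ (∀ i, IsNilpotent (y i)) ∧
        (∀ m : MM W, g (Ideal.Quotient.mk _ (mo0 k m)) =
          (∏ r, l r ^ m.1.2 r) * ∏ i, y i ^ m.1.1 i) ∧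
        Function.Injective g := by
  obtain ⟨A, hA1, hA2, hA3, l, y, g, hT, hl, hy, hny, hg, hinj, -⟩ :=
    exists_embed (k := k) (W := W) n hn
  refine ⟨A, hA1, hA2, hA3, l, y, g.comp (eqv k W n).symm.toAlgHom, hT, hl, hy, hny, fun m => ?_,
    ?_⟩
  · have h1 : (g.comp (eqv k W n).symm.toAlgHom) (Ideal.Quotient.mk _ (mo0 k m)) =
      g ((eqv k W n).symm (Ideal.Quotient.mk _ (mo0 k m))) := rfl
    rw [h1, eqv_symm_mo0, hg]
  · exact hinj.comp (eqv k W n).symm.injective

/-- the Hilbert function -/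
theorem finrank_R0 (hι : 1 ≤ Fintype.card ι) (hW : ∀ r r' v, v ∈ W r → v ∈ W r' → r = r') (n : ℕ) :
    Module.finrank k (R0 k W ⧸ IsLocalRing.maximalIdeal (R0 k W) ^ n) =
      ∑ T : Finset J, (∏ r ∈ T, 2 * (W r).card) *
        (n + Fintype.card ι - 1).choose (Fintype.card ι + T.card) := by
  classical
  rcases Nat.eq_zero_or_pos n with h0 | h0
  · subst h0
    have h1 : Subsingleton (R0 k W ⧸ IsLocalRing.maximalIdeal (R0 k W) ^ 0) := by
      rw [pow_zero, Ideal.one_eq_top]
      infer_instance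
    rw [Module.finrank_zero_of_subsingleton]
    refine (sum_eq_zero fun T _ => ?_).symm
    rw [Nat.choose_eq_zero_of_lt (by omega), mul_zero]
  · rw [← card_EQ_eq hι W hW n, ← finrank_quot (k := k) n h0]
    exact (eqv k W n).symm.toLinearEquiv.finrank_eq

end

end Pool.Agent.Lib.MP_74d0c9_nt
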