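import Pool.Agent.Lib.MP_74d0c9_nt.XR0c

/-!
The local ring of several words: coordinates, homomorphisms, Hilbert function.
-/

set_option autoImplicit false
set_option linter.unusedSectionVars false

namespace Pool.Agent.Lib.MP_74d0c9_nt

open Finset

universe u

section
variable {J S O : Type} [Fintype J] [Fintype S] [Fintype O] [DecidableEq J]

/-- the positions of a word -/
def WX (O : Type) (ω : S → J) (j : J) : Finset (Unit ⊕ (S ⊕ O)) :=
  (univ.filter fun t => ω t = j).map (Function.Embedding.inl.trans Function.Embedding.inr)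

theorem mem_WX {ω : S → J} {j : J} {v : Unit ⊕ (S ⊕ O)} :
    v ∈ WX O ω j ↔ ∃ t, ω t = j ∧ Sum.inr (Sum.inl t) = v := by
  unfold WX
  rw [mem_map]
  constructor
  · rintro ⟨t, ht, rfl⟩
    exact ⟨t, (mem_filter.1 ht).2, rfl⟩
  · rintro ⟨t, ht, rfl⟩
    exact ⟨t, mem_filter.2 ⟨mem_univ _, ht⟩, rfl⟩

theorem mem_WX_inl {ω : S → J} {j : J} {t : S} :
    (Sum.inr (Sum.inl t) : Unit ⊕ (S ⊕ O)) ∈ WX O ω j ↔ ω t = j := by
  rw [mem_WX]
  constructor
  · rintro ⟨t', ht', h⟩
    have h3 : t' = t := Sum.inl.inj (Sum.inr.inj h)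
    rw [← h3]
    exact ht'
  · intro h
    exact ⟨t, h, rfl⟩

theorem not_mem_WX_s {ω : S → J} {j : J} {a : Unit} :
    (Sum.inl a : Unit ⊕ (S ⊕ O)) ∉ WX O ω j := by
  rw [mem_WX]
  rintro ⟨t, -, h⟩
  exact Sum.inr_ne_inl h

theorem not_mem_WX_x {ω : S → J} {j : J} {o : O} :
    (Sum.inr (Sum.inr o) : Unit ⊕ (S ⊕ O)) ∉ WX O ω j := by
  rw [mem_WX]
  rintro ⟨t, -, h⟩
  exact Sum.inl_ne_inr (Sum.inr.inj h)

theorem WX_disj {ω : S → J} (r r' : J) (v : Unit ⊕ (S ⊕ O)) (h : v ∈ WX O ω r)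
    (h' : v ∈ WX O ω r') : r = r' := by
  obtain ⟨t, ht, rfl⟩ := mem_WX.1 h
  rw [← ht]
  exact mem_WX_inl.1 h'

theorem card_WX (ω : S → J) (j : J) : (WX O ω j).card = Fintype.card {t : S // ω t = j} := by
  unfold WX
  rw [card_map, Fintype.card_subtype]

/-- the exponents of the coordinates -/
theorem single_mem {ω : S → J} (i : Unit ⊕ (S ⊕ O)) (c : J → ℕ) [DecidableEq (Unit ⊕ (S ⊕ O))]
    (h : ∀ r, c r ≤ if i ∈ WX O ω r then 2 else 0) :
    ((Pi.single i 1, c) : ((Unit ⊕ (S ⊕ O)) → ℕ) × (J → ℕ)) ∈ MM (WX O ω) := by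
  intro r
  show c r ≤ 2 * ∑ j ∈ WX O ω r, (Pi.single i 1 : Unit ⊕ (S ⊕ O) → ℕ) j
  have h1 := h r
  by_cases hi : i ∈ WX O ω r
  · rw [if_pos hi] at h1
    rw [sum_eq_single i, Pi.single_eq_same]
    · exact h1
    · intro j _ hj
      exact Pi.single_eq_of_ne hj _
    · intro hc
      exact absurd hi hc
  · rw [if_neg hi] at h1
    omega

open Classical in
/-- the exponents of the coordinates `s`, `w_t l_(ω t) ^ e`, `x_o` -/
noncomputable def ex (O : Type) [Fintype O] (ω : S → J) :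
    Unit ⊕ ((S × Fin 3) ⊕ O) → MM (WX O ω)
  | Sum.inl _ => ⟨(Pi.single (Sum.inl ()) 1, fun _ => 0), single_mem _ _ fun _ => Nat.zero_le _⟩
  | Sum.inr (Sum.inl y) => ⟨(Pi.single (Sum.inr (Sum.inl y.1)) 1,
      fun r => if r = ω y.1 then (y.2 : ℕ) else 0), single_mem _ _ fun r => by
        by_cases h : r = ω y.1
        · rw [if_pos h, if_pos (mem_WX_inl.2 h.symm)]
          have := y.2.2
          omega
        · rw [if_neg h]
          exact Nat.zero_le _⟩
  | Sum.inr (Sum.inr o) => ⟨(Pi.single (Sum.inr (Sum.inr o)) 1, fun _ => 0),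
      single_mem _ _ fun _ => Nat.zero_le _⟩

theorem dg_ex (ω : S → J) (v : Unit ⊕ ((S × Fin 3) ⊕ O)) : dg (ex O ω v) = 1 := by
  classical
  have h : ∀ i : Unit ⊕ (S ⊕ O), ∑ j, (Pi.single i 1 : Unit ⊕ (S ⊕ O) → ℕ) j = 1 := by
    intro i
    rw [sum_eq_single i]
    · rw [Pi.single_eq_same]
    · intro j _ hj
      exact Pi.single_eq_of_ne hj _
    · intro hc
      exact absurd (mem_univ i) hc
  rcases v with v | y | o
  · refine Eq.trans (sum_congr rfl fun j _ => ?_) (h (Sum.inl ()))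
    unfold ex
    congr
  · refine Eq.trans (sum_congr rfl fun j _ => ?_) (h (Sum.inr (Sum.inl y.1)))
    unfold ex
    congr
  · refine Eq.trans (sum_congr rfl fun j _ => ?_) (h (Sum.inr (Sum.inr o)))
    unfold ex
    congr

/-- the exponents of degree one are those of the coordinates -/
theorem exists_ex {ω : S → J} (m : MM (WX O ω)) (hm : dg m = 1) : ∃ v, m = ex O ω v := by
  classical
  obtain ⟨i, hi⟩ : ∃ i, m.1.1 i ≠ 0 := by
    by_contra hc
    push Not at hc
    have : dg m = 0 := sum_eq_zero fun i _ => hc i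
    omega
  have hi1 : m.1.1 i = 1 := by
    have := le_dg m i
    omega
  have h1 : ∀ j, j ≠ i → m.1.1 j = 0 := by
    intro j hj
    have h2 : m.1.1 i + m.1.1 j ≤ dg m := by
      have h3 : ∑ x ∈ ({i, j} : Finset (Unit ⊕ (S ⊕ O))), m.1.1 x ≤ dg m :=
        sum_le_sum_of_subset (subset_univ _)
      rwa [sum_pair (Ne.symm hj)] at h3
    omega
  have h2 : m.1.1 = Pi.single i 1 := by
    funext j
    by_cases hj : j = i
    · subst hj
      rw [Pi.single_eq_same, hi1]
    · rw [h1 j hj, Pi.single_eq_of_ne hj]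
  have h3 : ∀ r, i ∉ WX O ω r → m.1.2 r = 0 := by
    intro r hr
    have h4 := mem_MM m r
    have h5 : ∑ j ∈ WX O ω r, m.1.1 j = 0 := by
      refine sum_eq_zero fun j hj => h1 j ?_
      rintro rfl
      exact hr hj
    omega
  rcases i with i | t | o
  · refine ⟨Sum.inl (), Subtype.ext (Prod.ext ?_ ?_)⟩
    · rw [h2]
      unfold ex
      congr
    · funext r
      exact h3 r not_mem_WX_s
  · have h4 : m.1.2 (ω t) < 3 := by
      have h5 := mem_MM m (ω t)
      have h6 := sum_le_dg m (ω t)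
      omega
    refine ⟨Sum.inr (Sum.inl (t, ⟨m.1.2 (ω t), h4⟩)), Subtype.ext (Prod.ext ?_ ?_)⟩
    · rw [h2]
      unfold ex
      congr
    · funext r
      show m.1.2 r = if r = ω t then m.1.2 (ω t) else 0
      by_cases hr : r = ω t
      · rw [if_pos hr, hr]
      · rw [if_neg hr]
        exact h3 r fun h => hr (mem_WX_inl.1 h).symm
  · refine ⟨Sum.inr (Sum.inr o), Subtype.ext (Prod.ext ?_ ?_)⟩
    · rw [h2]
      unfold ex
      congr
    · funext r
      exact h3 r not_mem_WX_x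

variable {k : Type u} [Field k]

/-- the local ring of the words: the local ring at the origin of the algebra generated by `s`, the
`w_t l_(ω t) ^ e` for `e = 0, 1, 2`, and the `x_o` -/
abbrev RW (k : Type u) [Field k] (O : Type) [Fintype O] (ω : S → J) : Type u := R0 k (WX O ω)

/-- the coordinates -/
noncomputable def XM (k : Type u) [Field k] (O : Type) [Fintype O] (ω : S → J)
    (v : Unit ⊕ ((S × Fin 3) ⊕ O)) : RW k O ω := mo0 k (ex O ω v)

theorem XM_mem (ω : S → J) (v : Unit ⊕ ((S × Fin 3) ⊕ O)) :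
    XM k O ω v ∈ IsLocalRing.maximalIdeal (RW k O ω) :=
  mo0_mem (by rw [dg_ex]; exact one_ne_zero)

/-- (2) two homomorphisms which agree on the coordinates are equal -/
theorem ext_XM {ω : S → J} {A : Type u} [CommRing A] [Algebra k A] {n : ℕ}
    (g g' : (RW k O ω ⧸ IsLocalRing.maximalIdeal (RW k O ω) ^ n) →ₐ[k] A)
    (h : ∀ v, g (Ideal.Quotient.mk _ (XM k O ω v)) = g' (Ideal.Quotient.mk _ (XM k O ω v))) :
    g = g' := by
  refine ext_R0 g g' fun m hm => ?_
  obtain ⟨v, rfl⟩ := exists_ex m hm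
  exact h v

theorem prod_single_pow {ι A : Type*} [Fintype ι] [DecidableEq ι] [CommRing A] (y : ι → A) (i : ι) :
    ∏ j, y j ^ (Pi.single i 1 : ι → ℕ) j = y i := by
  rw [prod_eq_single i]
  · rw [Pi.single_eq_same, pow_one]
  · intro j _ hj
    rw [Pi.single_eq_of_ne hj, pow_zero]
  · intro hc
    exact absurd (mem_univ i) hc

theorem ev_ex {ω : S → J} {A : Type u} [CommRing A] (y : Unit ⊕ (S ⊕ O) → A) (α β : J → A)
    (v : Unit ⊕ ((S × Fin 3) ⊕ O)) :
    (∏ i, y i ^ (ex O ω v).1.1 i) * ∏ r, α r ^ (ex O ω v).1.2 r *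
        β r ^ (2 * ∑ i ∈ WX O ω r, (ex O ω v).1.1 i - (ex O ω v).1.2 r) =
      match v with
      | Sum.inl _ => y (Sum.inl ())
      | Sum.inr (Sum.inl z) => y (Sum.inr (Sum.inl z.1)) *
          (α (ω z.1) ^ (z.2 : ℕ) * β (ω z.1) ^ (2 - (z.2 : ℕ)))
      | Sum.inr (Sum.inr o) => y (Sum.inr (Sum.inr o)) := by
  classical
  have hz : ∀ (i : Unit ⊕ (S ⊕ O)) (r : J), i ∉ WX O ω r →
      ∑ j ∈ WX O ω r, (Pi.single i 1 : Unit ⊕ (S ⊕ O) → ℕ) j = 0 := by
    intro i r hi
    refine sum_eq_zero fun j hj => Pi.single_eq_of_ne ?_ _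
    rintro rfl
    exact hi hj
  rcases v with v | z | o
  · have e1 : (ex O ω (Sum.inl v)).1.1 = Pi.single (Sum.inl ()) 1 := by
      unfold ex
      congr
    have e2 : ∀ r, (ex O ω (Sum.inl v)).1.2 r = 0 := fun r => rfl
    simp only [e2]
    rw [e1, prod_single_pow, prod_eq_one, mul_one]
    intro r _
    rw [hz _ _ not_mem_WX_s]
    simp
  · have e1 : (ex O ω (Sum.inr (Sum.inl z))).1.1 = Pi.single (Sum.inr (Sum.inl z.1)) 1 := by
      unfold ex
      congr
    have e2 : ∀ r, (ex O ω (Sum.inr (Sum.inl z))).1.2 r = if r = ω z.1 then (z.2 : ℕ) else 0 :=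
      fun r => rfl
    simp only [e2]
    rw [e1, prod_single_pow, prod_eq_single (ω z.1)]
    · rw [if_pos rfl, sum_eq_single (Sum.inr (Sum.inl z.1))]
      · rw [Pi.single_eq_same, mul_one]
      · intro j _ hj
        exact Pi.single_eq_of_ne hj _
      · intro hc
        exact absurd (mem_WX_inl.2 rfl) hc
    · intro r _ hr
      rw [if_neg hr, hz _ _ fun h => hr (mem_WX_inl.1 h).symm]
      simp
    · intro hc
      exact absurd (mem_univ _) hc
  · have e1 : (ex O ω (Sum.inr (Sum.inr o))).1.1 = Pi.single (Sum.inr (Sum.inr o)) 1 := by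
      unfold ex
      congr
    have e2 : ∀ r, (ex O ω (Sum.inr (Sum.inr o))).1.2 r = 0 := fun r => rfl
    simp only [e2]
    rw [e1, prod_single_pow, prod_eq_one, mul_one]
    intro r _
    rw [hz _ _ not_mem_WX_x]
    simp

/-- (3) the homomorphisms to local algebras which are finite over `k` -/
theorem exists_hom_XM {ω : S → J} {A : Type u} [CommRing A] [Algebra k A] [IsLocalRing A]
    (hA : IsTest k A) (s : A) (w : S → A) (x : O → A) (hs : s ∈ IsLocalRing.maximalIdeal A)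
    (hw : ∀ t, w t ∈ IsLocalRing.maximalIdeal A) (hx : ∀ o, x o ∈ IsLocalRing.maximalIdeal A)
    (α β : J → A) :
    ∃ (n : ℕ) (g : (RW k O ω ⧸ IsLocalRing.maximalIdeal (RW k O ω) ^ n) →ₐ[k] A),
      (∀ a, g (Ideal.Quotient.mk _ (XM k O ω (Sum.inl a))) = s) ∧
      (∀ z : S × Fin 3, g (Ideal.Quotient.mk _ (XM k O ω (Sum.inr (Sum.inl z)))) =
        w z.1 * (α (ω z.1) ^ (z.2 : ℕ) * β (ω z.1) ^ (2 - (z.2 : ℕ)))) ∧
      ∀ o, g (Ideal.Quotient.mk _ (XM k O ω (Sum.inr (Sum.inr o)))) = x o := by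
  obtain ⟨n, g, hg⟩ := exists_hom_R0 (k := k) (W := WX O ω) hA
    (fun i => match i with
      | Sum.inl _ => s
      | Sum.inr (Sum.inl t) => w t
      | Sum.inr (Sum.inr o) => x o)
    (by
      rintro (i | t | o)
      · exact hs
      · exact hw t
      · exact hx o) α β
  refine ⟨n, g, fun a => ?_, fun z => ?_, fun o => ?_⟩
  · exact (hg _).trans (ev_ex _ _ _ (Sum.inl a))
  · exact (hg _).trans (ev_ex _ _ _ (Sum.inr (Sum.inl z)))
  · exact (hg _).trans (ev_ex _ _ _ (Sum.inr (Sum.inr o)))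

/-- (5) the quotients embed in truncated polynomial rings, the coordinates are those of `cM` -/
theorem exists_min [DecidableEq S] (t0 : S) (ω : S → J) (n : ℕ) (hn : 0 < n) :
    ∃ (A : Type u) (_ : CommRing A) (_ : Algebra k A) (_ : IsLocalRing A) (l : J → A) (s : A)
      (w : S → A) (x : O → A)
      (g : (RW k O ω ⧸ IsLocalRing.maximalIdeal (RW k O ω) ^ n) →ₐ[k] A),
      IsTest k A ∧ IsUnit (1 + s) ∧
        (∀ v, cM t0 ω l s w x v ∈ IsLocalRing.maximalIdeal A) ∧
        (∀ v, g (Ideal.Quotient.mk _ (XM k O ω v)) = cM t0 ω l s w x v) ∧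
        Function.Injective g := by
  classical
  obtain ⟨A, hA1, hA2, hA3, l, y, g, hT, hl, hy, hny, hg, hinj⟩ :=
    exists_embed_R0 (k := k) (W := WX O ω) n hn
  obtain ⟨u, hu⟩ := (hny (Sum.inl ())).isUnit_one_add
  have hui : (1 + y (Sum.inl ())) * ((u⁻¹ : Aˣ) : A) = 1 := by
    rw [← hu]
    exact u.mul_inv
  have key : ∀ v, g (Ideal.Quotient.mk _ (XM k O ω v)) = cM t0 ω l (y (Sum.inl ()))
      (fun t => if t = t0 then ((u⁻¹ : Aˣ) : A) * y (Sum.inr (Sum.inl t)) else
        y (Sum.inr (Sum.inl t))) (fun o => y (Sum.inr (Sum.inr o))) v := by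
    intro v
    have h1 : g (Ideal.Quotient.mk _ (XM k O ω v)) =
        (∏ i, y i ^ (ex O ω v).1.1 i) * ∏ r, l r ^ (ex O ω v).1.2 r *
          (1 : A) ^ (2 * ∑ i ∈ WX O ω r, (ex O ω v).1.1 i - (ex O ω v).1.2 r) := by
      refine (hg (ex O ω v)).trans ?_
      rw [mul_comm]
      congr 1
      refine prod_congr rfl fun r _ => ?_
      rw [one_pow, mul_one]
    rw [h1]
    refine (ev_ex y l (fun _ => 1) v).trans ?_
    rcases v with v | z | o
    · rfl
    · show y (Sum.inr (Sum.inl z.1)) * (l (ω z.1) ^ (z.2 : ℕ) * 1 ^ (2 - (z.2 : ℕ))) =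
        (if z.1 = t0 then 1 + y (Sum.inl ()) else 1) *
          (if z.1 = t0 then ((u⁻¹ : Aˣ) : A) * y (Sum.inr (Sum.inl z.1)) else
            y (Sum.inr (Sum.inl z.1))) * l (ω z.1) ^ (z.2 : ℕ)
      rw [one_pow, mul_one]
      by_cases h : z.1 = t0
      · rw [if_pos h, if_pos h, ← mul_assoc, hui, one_mul]
      · rw [if_neg h, if_neg h, one_mul]
    · rfl
  refine ⟨A, hA1, hA2, hA3, l, y (Sum.inl ()), _, _, g, hT, (hny _).isUnit_one_add, ?_, key, hinj⟩
  rintro (v | z | o)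
  · exact hy _
  · refine Ideal.mul_mem_right _ _ (Ideal.mul_mem_left _ _ ?_)
    show (if z.1 = t0 then ((u⁻¹ : Aˣ) : A) * y (Sum.inr (Sum.inl z.1)) else
            y (Sum.inr (Sum.inl z.1))) ∈ _
    by_cases h : z.1 = t0
    · rw [if_pos h]
      exact Ideal.mul_mem_left _ _ (hy _)
    · rw [if_neg h]
      exact hy _
  · exact hy _

/-- (4) the Hilbert function -/
theorem finrank_RW (ω : S → J) (n : ℕ) :
    Module.finrank k (RW k O ω ⧸ IsLocalRing.maximalIdeal (RW k O ω) ^ n) =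
      ∑ T : Finset J, (∏ j ∈ T, 2 * Fintype.card {t : S // ω t = j}) *
        (n + Fintype.card S + Fintype.card O).choose
          (1 + Fintype.card S + Fintype.card O + T.card) := by
  have hι : Fintype.card (Unit ⊕ (S ⊕ O)) = 1 + Fintype.card S + Fintype.card O := by
    rw [Fintype.card_sum, Fintype.card_sum, Fintype.card_unit, add_assoc]
  have h1 := finrank_R0 (k := k) (W := WX O ω) (by omega) WX_disj n
  simp only [card_WX] at h1
  have e1 : n + Fintype.card (Unit ⊕ (S ⊕ O)) - 1 = n + Fintype.card S + Fintype.card O := by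
    omega
  rw [e1, hι] at h1
  exact h1

end

end Pool.Agent.Lib.MP_74d0c9_nt
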