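import Pool.Agent.Lib.MP_74d0c9_nt.XR0d
import Pool.Agent.Lib.MP_74d0c9_nt.CountM

/-!
The multiplicity of the local ring of several words.
-/

set_option autoImplicit false
set_option linter.unusedSectionVars false

namespace Pool.Agent.Lib.MP_74d0c9_nt

open Finset Filter Topology

universe u

/-- the growth of the binomial coefficient -/
theorem fact_choose_le (N g n : ℕ) :
    (N + g).factorial * (n + N - 1).choose (N + g) ≤ (n + N) ^ (N + g) := by
  rw [← Nat.descFactorial_eq_factorial_mul_choose]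
  refine (Nat.descFactorial_le_pow _ _).trans ?_
  exact Nat.pow_le_pow_left (by omega) _

theorem tendsto_choose (N g : ℕ) (hN : 1 ≤ N) :
    Tendsto (fun n : ℕ => ((N + g).factorial : ℝ) * ((n + N - 1).choose (N + g) : ℕ) /
      (n : ℝ) ^ (N + g)) atTop (𝓝 1) := by
  have h0 : Tendsto (fun n : ℕ => (g : ℝ) / (n : ℝ)) atTop (𝓝 0) :=
    tendsto_const_div_atTop_nhds_zero_nat _
  have h0' : Tendsto (fun n : ℕ => (N : ℝ) / (n : ℝ)) atTop (𝓝 0) :=
    tendsto_const_div_atTop_nhds_zero_nat _
  have h1 : Tendsto (fun n : ℕ => (1 - (g : ℝ) / (n : ℝ)) ^ (N + g)) atTop (𝓝 1) := by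
    have := (tendsto_const_nhds (x := (1 : ℝ))).sub h0 |>.pow (N + g)
    rwa [sub_zero, one_pow] at this
  have h2 : Tendsto (fun n : ℕ => (1 + (N : ℝ) / (n : ℝ)) ^ (N + g)) atTop (𝓝 1) := by
    have := (tendsto_const_nhds (x := (1 : ℝ))).add h0' |>.pow (N + g)
    rwa [add_zero, one_pow] at this
  refine tendsto_of_tendsto_of_tendsto_of_le_of_le' h1 h2 ?_ ?_
  · filter_upwards [eventually_ge_atTop (g + 1)] with n hn
    have hn0 : (0 : ℝ) < n := by
      have : 0 < n := by omega
      exact_mod_cast this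
    have h3 := pow_le_fact_chooseM N g n hN
    have h5 : (((n - g) ^ (N + g) : ℕ) : ℝ) ≤
        (((N + g).factorial * (n + N - 1).choose (N + g) : ℕ) : ℝ) := by
      exact_mod_cast h3
    rw [Nat.cast_pow, Nat.cast_sub (by omega), Nat.cast_mul] at h5
    have e1 : (1 - (g : ℝ) / (n : ℝ)) ^ (N + g) = ((n : ℝ) - g) ^ (N + g) / (n : ℝ) ^ (N + g) := by
      rw [← div_pow]
      congr 1
      field_simp
    rw [e1]
    exact div_le_div_of_nonneg_right h5 (by positivity)
  · filter_upwards [eventually_ge_atTop 1] with n hn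
    have hn0 : (0 : ℝ) < n := by exact_mod_cast hn
    have h3 := fact_choose_le N g n
    have h5 : (((N + g).factorial * (n + N - 1).choose (N + g) : ℕ) : ℝ) ≤
        (((n + N) ^ (N + g) : ℕ) : ℝ) := by
      exact_mod_cast h3
    rw [Nat.cast_pow, Nat.cast_add, Nat.cast_mul] at h5
    have e1 : (1 + (N : ℝ) / (n : ℝ)) ^ (N + g) = ((n : ℝ) + N) ^ (N + g) / (n : ℝ) ^ (N + g) := by
      rw [← div_pow]
      congr 1
      field_simp
    rw [e1]
    exact div_le_div_of_nonneg_right h5 (by positivity)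

/-- the leading term of the Hilbert function -/
theorem tendsto_hilb {J : Type} [Fintype J] (N : ℕ) (hN : 1 ≤ N) (c : J → ℕ) :
    Tendsto (fun n : ℕ => ((N + Fintype.card J).factorial : ℝ) *
      ((∑ T : Finset J, (∏ j ∈ T, c j) * (n + N - 1).choose (N + T.card) : ℕ) : ℝ) /
        (n : ℝ) ^ (N + Fintype.card J)) atTop (𝓝 ((∏ j, c j : ℕ) : ℝ)) := by
  classical
  have h1 : ∀ T : Finset J, Tendsto (fun n : ℕ => ((N + Fintype.card J).factorial : ℝ) *
      (((∏ j ∈ T, c j : ℕ) : ℝ) * ((n + N - 1).choose (N + T.card) : ℕ)) /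
        (n : ℝ) ^ (N + Fintype.card J)) atTop
      (𝓝 (if T = univ then ((∏ j, c j : ℕ) : ℝ) else 0)) := by
    intro T
    by_cases hT : T = univ
    · rw [if_pos hT, hT, card_univ]
      have h2 := (tendsto_choose N (Fintype.card J) hN).const_mul ((∏ j, c j : ℕ) : ℝ)
      rw [mul_one] at h2
      refine h2.congr fun n => ?_
      ring
    · rw [if_neg hT]
      have hlt : T.card < Fintype.card J := by
        rw [← card_univ]
        exact card_lt_card (Finset.ssubset_univ_iff.2 hT)
      obtain ⟨d, hd⟩ : ∃ d, Fintype.card J = T.card + (d + 1) :=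
        ⟨Fintype.card J - T.card - 1, by omega⟩
      have h2 := (tendsto_choose N T.card hN).const_mul
        (((N + Fintype.card J).factorial : ℝ) * ((∏ j ∈ T, c j : ℕ) : ℝ) / (N + T.card).factorial)
      have h3 : Tendsto (fun n : ℕ => (1 / (n : ℝ)) ^ (d + 1)) atTop (𝓝 0) := by
        have := (tendsto_one_div_atTop_nhds_zero_nat (𝕜 := ℝ)).pow (d + 1)
        rwa [zero_pow (by omega)] at this
      have h4 := h2.mul h3
      rw [mul_zero] at h4
      refine h4.congr' ?_
      filter_upwards [eventually_ge_atTop 1] with n hn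
      have hn0 : (n : ℝ) ≠ 0 := by
        have : 0 < n := hn
        exact_mod_cast this.ne'
      have hf : ((N + T.card).factorial : ℝ) ≠ 0 := by
        exact_mod_cast (Nat.factorial_pos _).ne'
      have e1 : (n : ℝ) ^ (N + Fintype.card J) = (n : ℝ) ^ (N + T.card) * (n : ℝ) ^ (d + 1) := by
        rw [← pow_add]
        congr 1
        omega
      rw [e1, one_div, inv_pow]
      field_simp
  have h2 := tendsto_finsetSum (univ : Finset (Finset J)) fun T _ => h1 T
  rw [sum_ite_eq' univ univ] at h2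
  simp only [mem_univ, if_true] at h2
  refine h2.congr fun n => ?_
  rw [← sum_div, ← mul_sum]
  push_cast
  rfl

section
variable {J S O : Type} [Fintype J] [Fintype S] [Fintype O] [DecidableEq J] {k : Type u} [Field k]

/-- (6) the multiplicity -/
theorem tendsto_RW (ω : S → J) :
    Tendsto (fun n : ℕ =>
      ((1 + Fintype.card S + Fintype.card O + Fintype.card J).factorial : ℝ) *
        Module.finrank k (RW k O ω ⧸ IsLocalRing.maximalIdeal (RW k O ω) ^ n) /
        (n : ℝ) ^ (1 + Fintype.card S + Fintype.card O + Fintype.card J)) atTop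
      (𝓝 ((∏ j : J, 2 * Fintype.card {t : S // ω t = j} : ℕ) : ℝ)) := by
  have h1 := tendsto_hilb (1 + Fintype.card S + Fintype.card O) (by omega)
    fun j : J => 2 * Fintype.card {t : S // ω t = j}
  refine h1.congr fun n => ?_
  rw [finrank_RW]
  have e1 : n + (1 + Fintype.card S + Fintype.card O) - 1 =
      n + Fintype.card S + Fintype.card O := by omega
  rw [e1]

end

end Pool.Agent.Lib.MP_74d0c9_nt
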