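import Pool.Agent.Lib.MP_74d0c9_nt.XMin

set_option autoImplicit false
set_option linter.unusedSectionVars false

namespace Pool.Agent.Lib.MP_74d0c9_nt

open HahnSeries IsLocalRing

universe u

section
variable {J S O : Type} [Fintype J] [Fintype S] [Fintype O] [DecidableEq J] {k : Type u} [Field k]
variable {f p : ℕ} [Fact p.Prime] {B : ZMod f → Mat k}

/-- every formal family which contains the deformations with the coordinates `cM` contains the
family over the local ring of the words -/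
theorem smallest [DecidableEq S] (t0 : S) (ω : S → J) {R : Type u} [CommRing R] [Algebra k R]
    [IsLocalRing R] (hres : Function.Surjective (algebraMap k (ResidueField R)))
    (H0 : ∀ C : ZMod f → Mat k, dk p B C = 0 →
      ∃ c : k, ∀ j, C j = (HahnSeries.C c : LaurentSeries k) • (1 : Mat k))
    (D : Unit ⊕ ((S × Fin 3) ⊕ O) → ZMod f → Mat k)
    (hD : ∀ (r : Unit ⊕ ((S × Fin 3) ⊕ O) → k) (C : ZMod f → Mat k),
      ∑ s, r s • D s = dk p B C → r = 0)
    (𝓕 : Family B R) (hmono : 𝓕.IsMono p)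
    (hkis : ∀ (A : Type u) [CommRing A] [Algebra k A] [IsLocalRing A], IsTest k A →
      ∀ (l : J → A) (s : A) (w : S → A) (x : O → A), IsUnit (1 + s) →
        (∀ v, cM t0 ω l s w x v ∈ maximalIdeal A) →
        ∃ (N : ℕ) (ψ : (R ⧸ maximalIdeal R ^ N) →ₐ[k] A),
          Eqv p (maximalIdeal A) (𝓕.push ψ) (famA B D (cM t0 ω l s w x))) (n : ℕ) (hn : 0 < n) :
    ∃ (N : ℕ) (g : (R ⧸ maximalIdeal R ^ N) →ₐ[k] (RW k O ω ⧸ maximalIdeal (RW k O ω) ^ n)),
      Function.Surjective g ∧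
      Eqv p ((maximalIdeal (RW k O ω)).map (Ideal.Quotient.mk (maximalIdeal (RW k O ω) ^ n)))
        (𝓕.push g) (famA B D fun v => Ideal.Quotient.mk _ (XM k O ω v)) := by
  obtain ⟨A, _, _, _, l, s, w, x, g0, hA, hs, hc, hg0, hinj⟩ :=
    exists_min (k := k) (O := O) t0 ω n hn
  obtain ⟨N, ψ, hψ⟩ := hkis A hA l s w x hs hc
  obtain ⟨X, hX⟩ : ∃ X : Unit ⊕ ((S × Fin 3) ⊕ O) → RW k O ω ⧸ maximalIdeal (RW k O ω) ^ n,
      X = fun v => Ideal.Quotient.mk _ (XM k O ω v) := ⟨_, rfl⟩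
  have hX' : ∀ v, X v = Ideal.Quotient.mk _ (XM k O ω v) := fun v => by rw [hX]
  have e1 : (cM t0 ω l s w x) = fun v => g0 (X v) := funext fun v => by rw [hX', hg0]
  rw [e1] at hψ
  have hgen : Algebra.adjoin k (Set.range X) = ⊤ := by
    rw [hX]
    exact adjoin_XM (k := k) (O := O) ω n
  have hc' : ∀ v, g0 (X v) ∈ maximalIdeal A := fun v => by
    rw [hX', hg0]
    exact hc v
  rw [← hX]
  obtain ⟨g, hg, hE⟩ := exists_surj hres H0 D hD 𝓕 hmono X hA g0 hinj hc' hgen ψ hψ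
  refine ⟨N, g, hg, hE.mono ?_⟩
  intro y hy
  obtain ⟨z, rfl⟩ := Ideal.Quotient.mk_surjective y
  refine Ideal.mem_map_of_mem _ ?_
  by_contra hz
  have h1 : IsUnit z := by
    rw [mem_maximalIdeal, mem_nonunits_iff, not_not] at hz
    exact hz
  have h2 : IsUnit (g0 (Ideal.Quotient.mk _ z)) := (h1.map (Ideal.Quotient.mk _)).map g0
  have h3 : g0 (Ideal.Quotient.mk _ z) ∈ maximalIdeal A := hy
  exact (mem_maximalIdeal _).1 h3 h2

end

end Pool.Agent.Lib.MP_74d0c9_nt
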