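import Pool.Agent.Lib.MP_74d0c9_nt.YDefs
import Pool.Agent.Lib.MP_74d0c9_nt.Basis

/-! The Kisin modules of a cyclic pattern, near any point of the residual Kisin variety. -/

set_option autoImplicit false

namespace Pool.Agent.Lib.MP_74d0c9_nt

open HahnSeries

universe u

section
variable {A : Type u} [CommRing A] {f : ℕ}

/-- the Kisin module at the point `Q` -/
noncomputable def MBY (p : ℕ) (a : ZMod f → ℕ) (P : ZMod f → Bool) (M : KisinModule f A)
    (Q : ZMod f → GL (Fin 2) A) (j : ZMod f) : Mat A :=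
  if P j = true then
    (if P (j - 1) = true then !![1, 0; 0, un (p - 1)] else !![un 1, 0; 0, 1] * gz (Q j)⁻¹)
  else if P (j - 1) = true then gz (Q (j - 1)) * !![1, 0; 0, un p]
  else M.frob a j

/-- the deformations of the Kisin module: `1 + w_j e₁₂` on the left at the positions of the
pattern, `1 + y_j` on the right outside -/
noncomputable def MXY (p : ℕ) (a : ZMod f → ℕ) (P : ZMod f → Bool) (M : KisinModule f A)
    (Q : ZMod f → GL (Fin 2) A) (w : ZMod f → A) (y : ZMod f → Matrix (Fin 2) (Fin 2) A)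
    (j : ZMod f) : Mat A :=
  if P j = true then !![1, HahnSeries.C (w j); 0, 1] * MBY p a P M Q j
  else if P (j - 1) = true then MBY p a P M Q j
  else MBY p a P M Q j * (1 + (y j).map HahnSeries.C)

/-- the tangent directions of the deformations `Q_j * [[1, 0], [l_j, 1]], w, y` -/
noncomputable def DKY (p : ℕ) (a : ZMod f → ℕ) (P : ZMod f → Bool) (M : KisinModule f A)
    (Q : ZMod f → GL (Fin 2) A) (l w : ZMod f → A) (y : ZMod f → Matrix (Fin 2) (Fin 2) A)
    (j : ZMod f) : Mat A :=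
  if P j = true then
    (HahnSeries.C (w j) : LaurentSeries A) • (!![0, 1; 0, 0] * MBY p a P M Q j) -
      (if P (j - 1) = true then 0
        else (HahnSeries.C (l j) : LaurentSeries A) • (!![0, 0; 1, 0] * gz (Q j)⁻¹))
  else if P (j - 1) = true then
    (HahnSeries.C (l (j - 1)) : LaurentSeries A) • (gz (Q (j - 1)) * !![0, 0; 1, 0])
  else MBY p a P M Q j * (y j).map HahnSeries.C

/-- the combination of the constant matrices `zv v` at the positions `τ v` -/
noncomputable def zY {V : Type} [Fintype V] (τ : V → ZMod f) (zv : V → Matrix (Fin 2) (Fin 2) A)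
    (x : V → A) (j : ZMod f) : Matrix (Fin 2) (Fin 2) A :=
  ∑ v, if τ v = j then x v • zv v else 0

/-- the directions: `M3 e * B_t` at the positions `t` of the pattern, `B_j * zv v` at `j = τ v` -/
noncomputable def DY {O : Type} (p : ℕ) (a : ZMod f → ℕ) (P : ZMod f → Bool)
    (M : KisinModule f A) (τ : Unit ⊕ O → ZMod f) (zv : Unit ⊕ O → Matrix (Fin 2) (Fin 2) A) :
    Unit ⊕ (({t : ZMod f // P t = true} × Fin 3) ⊕ O) → ZMod f → Mat A
  | Sum.inl v, j => if τ (Sum.inl v) = j then
      BY p a P M j * (zv (Sum.inl v)).map HahnSeries.C else 0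
  | Sum.inr (Sum.inl z), j => if z.1.1 = j then M3 z.2 * BY p a P M j else 0
  | Sum.inr (Sum.inr o), j => if τ (Sum.inr o) = j then
      BY p a P M j * (zv (Sum.inr o)).map HahnSeries.C else 0

/-- the coordinates: `w_t det(Q_t)⁻¹ (Q_t)₀₀ ^ (2 - e) (Q_t)₁₀ ^ e` at the positions of the
pattern -/
noncomputable def cY {O : Type} (P : ZMod f → Bool) (Q : ZMod f → GL (Fin 2) A) (w : ZMod f → A)
    (x : Unit ⊕ O → A) : Unit ⊕ (({t : ZMod f // P t = true} × Fin 3) ⊕ O) → A
  | Sum.inl v => x (Sum.inl v)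
  | Sum.inr (Sum.inl z) => w z.1.1 * (Q z.1.1)⁻¹.1.det *
      ((Q z.1.1).1 1 0 ^ (z.2 : ℕ) * (Q z.1.1).1 0 0 ^ (2 - (z.2 : ℕ)))
  | Sum.inr (Sum.inr o) => x (Sum.inr o)

end

end Pool.Agent.Lib.MP_74d0c9_nt
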