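import Pool.Agent.Lib.MP_74d0c9_nt.Basic

/-! The endomorphisms of an irreducible étale `φ`-module over an algebraically closed field. -/

set_option autoImplicit false

namespace Pool.Agent.Lib.MP_74d0c9_nt

open HahnSeries

universe u

section
variable {k : Type u} [Field k] {p f : ℕ} [Fact p.Prime] [NeZero f]

/-- series which are permuted cyclically by the Frobenius are constant -/
theorem fixed_const (x : ZMod f → LaurentSeries k) (h : ∀ j, x j = phi k p (x (j - 1))) :
    ∃ c : k, ∀ j, x j = HahnSeries.C c := by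
  have hp2 : 2 ≤ p := (Fact.out : p.Prime).two_le
  have h1 : ∀ (n : ℕ) (j : ZMod f) (v : ℤ), v.natAbs = n → v ≠ 0 → (x j).coeff v = 0 := by
    intro n
    induction n using Nat.strong_induction_on with
    | _ n ih =>
      intro j v hv hv0
      rw [h j]
      by_cases hd : (p : ℤ) ∣ v
      · obtain ⟨w, rfl⟩ := hd
        rw [phi_coeff]
        have hw0 : w ≠ 0 := fun hw => hv0 (by rw [hw, mul_zero])
        refine ih w.natAbs ?_ (j - 1) w rfl hw0
        rw [← hv, Int.natAbs_mul, Int.natAbs_natCast]
        have hw1 : 0 < w.natAbs := Int.natAbs_pos.2 hw0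
        nlinarith
      · exact phi_coeff_zero p _ hd
  have h0 : ∀ j, (x j).coeff 0 = (x (j - 1)).coeff 0 := by
    intro j
    have e : (x j).coeff 0 = (phi k p (x (j - 1))).coeff (p * 0) := by
      rw [mul_zero, ← h j]
    rw [e, phi_coeff]
  have h2 : ∀ n : ℕ, (x (n : ZMod f)).coeff 0 = (x 0).coeff 0 := by
    intro n
    induction n with
    | zero => rw [Nat.cast_zero]
    | succ n ih =>
      rw [h0, Nat.cast_succ, add_sub_cancel_right, ih]
  refine ⟨(x 0).coeff 0, fun j => ?_⟩
  ext v
  rw [HahnSeries.C_apply]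
  by_cases hv : v = 0
  · rw [hv, coeff_single_same]
    have h3 := h2 j.val
    rw [ZMod.natCast_val, ZMod.cast_id', id_eq] at h3
    exact h3
  · rw [coeff_single_of_ne hv]
    exact h1 _ j v rfl hv

/-- the kernel of a nonzero singular matrix of size two is a line -/
theorem exists_ker {L : Type*} [Field L] (N : Matrix (Fin 2) (Fin 2) L) (hN : N ≠ 0)
    (hd : N.det = 0) : ∃ v : Fin 2 → L, v ≠ 0 ∧ N.mulVec v = 0 ∧
      ∀ w : Fin 2 → L, N.mulVec w = 0 → ∃ ν : L, w = ν • v := by
  have hd' : N 0 0 * N 1 1 - N 0 1 * N 1 0 = 0 := by rw [← Matrix.det_fin_two]; exact hd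
  have key : ∀ r s : L, (r ≠ 0 ∨ s ≠ 0) →
      (∀ w : Fin 2 → L, N.mulVec w = 0 → r * w 0 + s * w 1 = 0) →
      N.mulVec ![-s, r] = 0 → ∃ v : Fin 2 → L, v ≠ 0 ∧ N.mulVec v = 0 ∧
      ∀ w : Fin 2 → L, N.mulVec w = 0 → ∃ ν : L, w = ν • v := by
    intro r s hrs hw hv
    refine ⟨![-s, r], ?_, hv, ?_⟩
    · intro h
      have e0 := congrFun h 0
      have e1 := congrFun h 1
      simp only [Matrix.cons_val_zero, Matrix.cons_val_one, Pi.zero_apply, neg_eq_zero] at e0 e1
      rcases hrs with h | h
      · exact h e1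
      · exact h e0
    · intro w hNw
      have e := hw w hNw
      by_cases hr : r = 0
      · have hs : s ≠ 0 := hrs.resolve_left (not_not.2 hr)
        have hw1 : w 1 = 0 := by
          rw [hr, zero_mul, zero_add] at e
          exact (mul_eq_zero.1 e).resolve_left hs
        refine ⟨-(w 0 / s), ?_⟩
        ext i
        fin_cases i
        · show w 0 = -(w 0 / s) * -s
          field_simp
        · show w 1 = -(w 0 / s) * r
          rw [hw1, hr, mul_zero]
      · refine ⟨w 1 / r, ?_⟩
        ext i
        fin_cases i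
        · show w 0 = w 1 / r * -s
          field_simp
          linear_combination e
        · show w 1 = w 1 / r * r
          field_simp
  have hmv : ∀ (w : Fin 2 → L) (i : Fin 2), N.mulVec w i = N i 0 * w 0 + N i 1 * w 1 := by
    intro w i
    rw [Matrix.mulVec, dotProduct, Fin.sum_univ_two]
  by_cases h0 : N 0 0 ≠ 0 ∨ N 0 1 ≠ 0
  · refine key (N 0 0) (N 0 1) h0 (fun w hw => ?_) ?_
    · rw [← hmv, hw]
      rfl
    · ext i
      rw [hmv]
      fin_cases i
      · show N 0 0 * -N 0 1 + N 0 1 * N 0 0 = 0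
        ring
      · show N 1 0 * -N 0 1 + N 1 1 * N 0 0 = 0
        linear_combination hd'
  · push Not at h0
    have h1 : N 1 0 ≠ 0 ∨ N 1 1 ≠ 0 := by
      by_contra hc
      push Not at hc
      apply hN
      ext i j
      fin_cases i <;> fin_cases j
      · exact h0.1
      · exact h0.2
      · exact hc.1
      · exact hc.2
    refine key (N 1 0) (N 1 1) h1 (fun w hw => ?_) ?_
    · rw [← hmv, hw]
      rfl
    · ext i
      rw [hmv]
      fin_cases i
      · show N 0 0 * -N 1 1 + N 0 1 * N 1 0 = 0
        rw [h0.1, h0.2]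
        ring
      · show N 1 0 * -N 1 1 + N 1 1 * N 1 0 = 0
        ring

/-- Schur's lemma: over an algebraically closed field the endomorphisms of an irreducible étale
`φ`-module are scalars. -/
theorem schur [IsAlgClosed k] (B : ZMod f → Mat k) (hB : ∀ j, IsUnit (B j).det)
    (hirr : Irred p B) (C : ZMod f → Mat k)
    (hC : ∀ j, C j * B j = B j * (C (j - 1)).map (phi k p)) :
    ∃ c : k, ∀ j, C j = (HahnSeries.C c : LaurentSeries k) • (1 : Mat k) := by
  have hBne : ∀ j, (B j).det ≠ 0 := fun j => (hB j).ne_zero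
  have hconj : ∀ j, C j = B j * (C (j - 1)).map (phi k p) * (B j)⁻¹ := by
    intro j
    rw [← hC j, Matrix.mul_assoc, Matrix.mul_nonsing_inv _ (hB j), Matrix.mul_one]
  have htr : ∀ j, (C j).trace = phi k p (C (j - 1)).trace := by
    intro j
    have e1 : (C j).trace = ((C (j - 1)).map (phi k p)).trace := by
      rw [hconj j, Matrix.trace_mul_comm, ← Matrix.mul_assoc,
        Matrix.nonsing_inv_mul _ (hB j), Matrix.one_mul]
    rw [e1]
    simp only [Matrix.trace, Matrix.diag, Matrix.map_apply, Fin.sum_univ_two, map_add]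
  have hdt : ∀ j, (C j).det = phi k p (C (j - 1)).det := by
    intro j
    have e1 : (C j).det * (B j).det = (B j).det * ((C (j - 1)).map (phi k p)).det := by
      rw [← Matrix.det_mul, hC j, Matrix.det_mul]
    have e2 : (C j).det = ((C (j - 1)).map (phi k p)).det :=
      mul_right_cancel₀ (hBne j) (e1.trans (mul_comm _ _))
    rw [e2, Matrix.det_fin_two, Matrix.det_fin_two]
    simp only [Matrix.map_apply, map_sub, map_mul]
  obtain ⟨τ, hτ⟩ := fixed_const (p := p) (fun j => (C j).trace) htr
  obtain ⟨δ, hδ⟩ := fixed_const (p := p) (fun j => (C j).det) hdt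
  obtain ⟨l, hl⟩ : ∃ l : k, l ^ 2 - τ * l + δ = 0 := by
    have hdeg : (Polynomial.X ^ 2 - Polynomial.C τ * Polynomial.X + Polynomial.C δ :
        Polynomial k).degree = 2 := by
      compute_degree!
    obtain ⟨l, hl⟩ := IsAlgClosed.exists_root
      (Polynomial.X ^ 2 - Polynomial.C τ * Polynomial.X + Polynomial.C δ : Polynomial k)
      (by rw [hdeg]; decide)
    refine ⟨l, ?_⟩
    simpa [Polynomial.IsRoot] using hl
  obtain ⟨N, hNdef⟩ : ∃ N : ZMod f → Mat k,
      N = fun j => C j - (HahnSeries.C l : LaurentSeries k) • (1 : Mat k) := ⟨_, rfl⟩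
  have hNj : ∀ j, N j = C j - (HahnSeries.C l : LaurentSeries k) • (1 : Mat k) := fun j => by
    rw [hNdef]
  have hNentry : ∀ j r s, N j r s = C j r s - (if r = s then HahnSeries.C l else 0) := by
    intro j r s
    rw [hNj, Matrix.sub_apply, Matrix.smul_apply, Matrix.one_apply, smul_eq_mul]
    split_ifs
    · rw [mul_one]
    · rw [mul_zero]
  have hNdet : ∀ j, (N j).det = 0 := by
    intro j
    have e1 : (C j 0 0 + C j 1 1 : LaurentSeries k) = HahnSeries.C τ := by
      rw [← hτ j, Matrix.trace, Fin.sum_univ_two]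
      rfl
    have e2 : (C j 0 0 * C j 1 1 - C j 0 1 * C j 1 0 : LaurentSeries k) = HahnSeries.C δ := by
      rw [← hδ j, Matrix.det_fin_two]
    have e3 : (HahnSeries.C l : LaurentSeries k) ^ 2 - HahnSeries.C τ * HahnSeries.C l +
        HahnSeries.C δ = 0 := by
      rw [← map_pow, ← map_mul, ← map_sub, ← map_add, hl, map_zero]
    rw [Matrix.det_fin_two, hNentry, hNentry, hNentry, hNentry]
    simp only [if_true, zero_ne_one, one_ne_zero, if_false, sub_zero]
    linear_combination e2 - (HahnSeries.C l : LaurentSeries k) * e1 + e3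
  have hNB : ∀ j, N j * B j = B j * (N (j - 1)).map (phi k p) := by
    intro j
    have e1 : (N (j - 1)).map (phi k p) = (C (j - 1)).map (phi k p) -
        (HahnSeries.C l : LaurentSeries k) • (1 : Mat k) := by
      refine Matrix.ext fun r s => ?_
      rw [Matrix.map_apply, hNentry, map_sub, Matrix.sub_apply, Matrix.map_apply,
        Matrix.smul_apply, Matrix.one_apply, smul_eq_mul]
      split_ifs
      · rw [phi_C, mul_one]
      · rw [map_zero, mul_zero]
    rw [e1, hNj, Matrix.sub_mul, Matrix.mul_sub, hC j, Matrix.smul_mul, Matrix.mul_smul,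
      Matrix.one_mul, Matrix.mul_one]
  refine ⟨l, fun j => ?_⟩
  by_contra hne
  have hNne : N j ≠ 0 := by
    intro h
    rw [hNj] at h
    exact hne (sub_eq_zero.1 h)
  have hback : ∀ i, N i = 0 → N (i - 1) = 0 := by
    intro i hi
    have e1 : B i * (N (i - 1)).map (phi k p) = 0 := by
      rw [← hNB i, hi, Matrix.zero_mul]
    have e2 : (N (i - 1)).map (phi k p) = 0 := by
      have e3 := congrArg (fun X => (B i)⁻¹ * X) e1
      simp only [← Matrix.mul_assoc, Matrix.nonsing_inv_mul _ (hB i), Matrix.one_mul,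
        Matrix.mul_zero] at e3
      exact e3
    ext r s
    have e4 := congrFun (congrFun e2 r) s
    rw [Matrix.map_apply, Matrix.zero_apply] at e4
    rw [(map_eq_zero_iff (phi k p) (phi k p).injective).1 e4]
    rfl
  have hall : ∀ i, N i ≠ 0 := by
    intro i hi
    have h1 : ∀ n : ℕ, N (i - n) = 0 := by
      intro n
      induction n with
      | zero => rw [Nat.cast_zero, sub_zero]; exact hi
      | succ n ih =>
        rw [Nat.cast_succ, ← sub_sub]
        exact hback _ ih
    apply hNne
    have h2 := h1 (i - j).val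
    rw [ZMod.natCast_val, ZMod.cast_id', id_eq, sub_sub_cancel] at h2
    exact h2
  choose v hv hNv hker using fun i => exists_ker (N i) (hall i) (hNdet i)
  have hBv : ∀ i, ∃ ν : LaurentSeries k,
      (B i).mulVec (fun r => phi k p (v (i - 1) r)) = ν • v i := by
    intro i
    apply hker i
    rw [Matrix.mulVec_mulVec, hNB i, ← Matrix.mulVec_mulVec]
    have e1 : ((N (i - 1)).map (phi k p)).mulVec (fun r => phi k p (v (i - 1) r)) = 0 := by
      funext r
      have e3 : ∀ (M : Mat k) (w : Fin 2 → LaurentSeries k) (r : Fin 2),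
          (M.mulVec w) r = M r 0 * w 0 + M r 1 * w 1 := by
        intro M w r
        rw [Matrix.mulVec, dotProduct, Fin.sum_univ_two]
      have e2 := congrArg (phi k p) (congrFun (hNv (i - 1)) r)
      rw [e3, Pi.zero_apply, map_zero, map_add, map_mul, map_mul] at e2
      rw [e3]
      exact e2
    rw [e1, Matrix.mulVec_zero]
  choose ν hν using hBv
  exact hirr ⟨v, ν, hv, hν⟩

end

end Pool.Agent.Lib.MP_74d0c9_nt
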