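import Pool.Agent.Lib.MP_74d0c9_nt.YInd
import Pool.Agent.Lib.MP_74d0c9_nt.YSchur
import Pool.Agent.Lib.MP_74d0c9_nt.YKDefs
import Pool.Agent.Lib.MP_74d0c9_nt.XFun
import Pool.Agent.Lib.MP_74d0c9_nt.UNF

/-! Endomorphisms and independence of the directions over an arbitrary field, for an absolutely
irreducible étale `φ`-module. -/

set_option autoImplicit false

namespace Pool.Agent.Lib.MP_74d0c9_nt

open HahnSeries

universe u

section
variable {k : Type u} [Field k] {p f : ℕ} [Fact p.Prime] [NeZero f] {a : ZMod f → ℕ}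
  {P : ZMod f → Bool}

/-- base change of the Frobenius -/
theorem yabs_BY {K : Type u} [Field K] (ι : k →+* K) (M : KisinModule f k) (j : ZMod f) :
    BY p a P (M.baseChange ι) j = (BY p a P M j).map (lmap ι) := by
  unfold BY
  split_ifs
  · rw [mat2_map, map_zero, lmap_un]
  · exact (map_one_mat ι).symm
  · rw [mat2_map, map_zero, lmap_un]
  · exact frob_baseChange ι a M j

theorem yabs_noWord {K : Type u} [Field K] (ι : k →+* K) {M : KisinModule f k}
    (h : NoWordY p a P M) : NoWordY p a P (M.baseChange ι) := by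
  intro i m hw ho h11 h10
  refine h i m hw ho ?_ fun s h0 hs => ?_
  · rw [Y_baseChange] at h11
    exact (map_eq_zero ι).1 h11
  · have := h10 s h0 hs
    rw [Y_baseChange] at this
    exact (map_eq_zero ι).1 this

theorem yabs_un (q : ℤ) : (un q : LaurentSeries k) ≠ 0 := by
  intro h
  have := congrArg (fun x : LaurentSeries k => x.coeff q) h
  simp only [coeff_single_same, coeff_zero] at this
  exact one_ne_zero this

theorem yabs_det (M : KisinModule f k) (j : ZMod f) : IsUnit (BY p a P M j).det := by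
  rw [isUnit_iff_ne_zero]
  by_cases ho : OutY P j
  · have e : (BY p a P M j : Mat k) = gx (M.X j) * du (a j) * gz (M.Z j) := yind_out ho
    have h1 : (gx (M.X j)).det ≠ 0 := by
      intro h
      have e2 := congrArg Matrix.det (gx_mul_inv (M.X j))
      rw [Matrix.det_mul, h, zero_mul, Matrix.det_one] at e2
      exact zero_ne_one e2
    have h2 : (gz (M.Z j)).det ≠ 0 := by
      intro h
      have e2 := congrArg Matrix.det (gz_mul_inv (M.Z j))
      rw [Matrix.det_mul, h, zero_mul, Matrix.det_one] at e2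
      exact zero_ne_one e2
    have h3 : (du (a j : ℤ) : Mat k).det ≠ 0 := by
      rw [du_two, Matrix.det_fin_two_of, mul_one, mul_zero, sub_zero]
      exact yabs_un _
    rw [e, Matrix.det_mul, Matrix.det_mul]
    exact mul_ne_zero (mul_ne_zero h1 h3) h2
  · obtain ⟨q, hq⟩ := yind_scalar (p := p) (a := a) (M := M) ho
    rw [hq, Matrix.det_smul, Matrix.det_one, mul_one]
    exact pow_ne_zero _ (yabs_un q)

theorem yabs_map_phi {K : Type u} [Field K] (ι : k →+* K) (X : Mat k) :
    (X.map (lmap ι)).map (phi K p) = (X.map (phi k p)).map (lmap ι) :=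
  Matrix.ext fun r s => (lmap_phi p ι (X r s)).symm

theorem yabs_sub {K : Type u} [Field K] (ι : k →+* K) (X Y : Mat k) :
    (X - Y).map (lmap ι) = X.map (lmap ι) - Y.map (lmap ι) :=
  Matrix.ext fun r s => map_sub (lmap ι) (X r s) (Y r s)

/-- the coboundary after base change -/
theorem yabs_dk {K : Type u} [Field K] (ι : k →+* K) (M : KisinModule f k) (C : ZMod f → Mat k)
    (j : ZMod f) :
    (C j).map (lmap ι) * BY p a P (M.baseChange ι) j -
      BY p a P (M.baseChange ι) j * ((C (j - 1)).map (lmap ι)).map (phi K p) =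
      (C j * BY p a P M j - BY p a P M j * (C (j - 1)).map (phi k p)).map (lmap ι) := by
  rw [yabs_sub, Matrix.map_mul, Matrix.map_mul, yabs_BY, yabs_map_phi]

/-- **Schur's lemma**: the endomorphisms are the scalars of `k`. -/
theorem H0Y (P : ZMod f → Bool) (M : KisinModule f k)
    (hB : ∀ (K : Type u) [Field K] (ι : k →+* K), Irred p fun j => (BY p a P M j).map (lmap ι))
    (C : ZMod f → Mat k) (hC : dk p (BY p a P M) C = 0) :
    ∃ c : k, ∀ j, C j = (HahnSeries.C c : LaurentSeries k) • (1 : Mat k) := by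
  obtain ⟨ι, -⟩ : ∃ ι : k →+* AlgebraicClosure k, ι = algebraMap k (AlgebraicClosure k) :=
    ⟨_, rfl⟩
  have hirr : Irred p (BY p a P (M.baseChange ι)) := by
    have : (BY p a P (M.baseChange ι) : ZMod f → Mat (AlgebraicClosure k)) =
        fun j => (BY p a P M j).map (lmap ι) := funext fun j => yabs_BY ι M j
    rw [this]
    exact hB _ ι
  obtain ⟨c, hc⟩ := schur (BY p a P (M.baseChange ι)) (fun j => yabs_det _ j) hirr
    (fun j => (C j).map (lmap ι)) (fun j => by
      have h1 := yabs_dk (p := p) (a := a) (P := P) ι M C j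
      have h2 : C j * BY p a P M j - BY p a P M j * (C (j - 1)).map (phi k p) = 0 :=
        congrFun hC j
      rw [h2] at h1
      have e : (0 : Mat k).map (lmap ι) = 0 := Matrix.map_zero _ (map_zero _)
      rw [e] at h1
      exact sub_eq_zero.1 h1)
  have hco : ∀ j r s v, ι ((C j r s).coeff v) =
      (((HahnSeries.C c : LaurentSeries (AlgebraicClosure k)) •
        (1 : Mat (AlgebraicClosure k)) : Mat (AlgebraicClosure k)) r s).coeff v := by
    intro j r s v
    rw [← hc j]
    rfl
  have hone : ∀ r s (v : ℤ), (((HahnSeries.C c : LaurentSeries (AlgebraicClosure k)) •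
        (1 : Mat (AlgebraicClosure k)) : Mat (AlgebraicClosure k)) r s).coeff v =
      if r = s ∧ v = 0 then c else 0 := by
    intro r s v
    rw [Matrix.smul_apply, Matrix.one_apply, smul_eq_mul, HahnSeries.C_apply]
    by_cases hrs : r = s
    · rw [if_pos hrs, mul_one]
      by_cases hv : v = 0
      · rw [if_pos ⟨hrs, hv⟩, hv, coeff_single_same]
      · rw [if_neg fun h => hv h.2, coeff_single_of_ne hv]
    · rw [if_neg hrs, mul_zero, if_neg fun h => hrs h.1]
      rfl
  refine ⟨(C 0 0 0).coeff 0, fun j => ?_⟩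
  refine Matrix.ext fun r s => HahnSeries.ext (funext fun v => ι.injective ?_)
  have h0 : ι ((C 0 0 0).coeff 0) = c := by
    rw [hco, hone, if_pos ⟨rfl, rfl⟩]
  rw [hco, hone]
  show _ = ι ((((HahnSeries.C ((C 0 0 0).coeff 0) : LaurentSeries k) • (1 : Mat k) : Mat k)
    r s).coeff v)
  rw [Matrix.smul_apply, Matrix.one_apply, smul_eq_mul, HahnSeries.C_apply]
  by_cases hrs : r = s
  · rw [if_pos hrs, mul_one]
    by_cases hv : v = 0
    · rw [if_pos ⟨hrs, hv⟩, hv, coeff_single_same, h0]
    · rw [if_neg fun h => hv h.2, coeff_single_of_ne hv, map_zero]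
  · rw [if_neg hrs, mul_zero, if_neg fun h => hrs h.1]
    exact (map_zero ι).symm

/-- **Independence of the directions** over an arbitrary field: see `indepY`. -/
theorem yabs_indep (hp : 5 ≤ p) (ha : ∀ j, 1 ≤ a j ∧ a j ≤ p) (P : ZMod f → Bool)
    (M : KisinModule f k)
    (hB : ∀ (K : Type u) [Field K] (ι : k →+* K), Irred p fun j => (BY p a P M j).map (lmap ι))
    (hno : NoWordY p a P M) (r : ZMod f → Fin 3 → k) (C : ZMod f → Mat k)
    (z : ZMod f → Matrix (Fin 2) (Fin 2) k) (hr : ∀ j, P j = false → r j = 0)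
    (hz : ∀ j, ¬ OutY P j → z j = 0)
    (h : ∀ j, C j * BY p a P M j - BY p a P M j * (C (j - 1)).map (phi k p) =
      (∑ e, (HahnSeries.C (r j e) : LaurentSeries k) • M3 e) * BY p a P M j +
        BY p a P M j * (z j).map HahnSeries.C) :
    r = 0 ∧ ∀ j, MGE (C j) 0 := by
  obtain ⟨ι, -⟩ : ∃ ι : k →+* AlgebraicClosure k, ι = algebraMap k (AlgebraicClosure k) :=
    ⟨_, rfl⟩
  have hirr : Irred p (BY p a P (M.baseChange ι)) := by
    have : (BY p a P (M.baseChange ι) : ZMod f → Mat (AlgebraicClosure k)) =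
        fun j => (BY p a P M j).map (lmap ι) := funext fun j => yabs_BY ι M j
    rw [this]
    exact hB _ ι
  have hM3 : ∀ e : Fin 3, (M3 e : Mat k).map (lmap ι) = M3 e := by
    intro e
    unfold M3
    fin_cases e
    · show (!![(0 : LaurentSeries k), un (-1); 0, 0] : Mat k).map (lmap ι) =
        !![0, un (-1); 0, 0]
      rw [mat2_map, map_zero, lmap_un]
    · show (!![-un (-1), 0; 0, un (-1)] : Mat k).map (lmap ι) = !![-un (-1), 0; 0, un (-1)]
      rw [mat2_map, map_zero, map_neg, lmap_un]
    · show (!![0, 0; -un (-1), 0] : Mat k).map (lmap ι) = !![0, 0; -un (-1), 0]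
      rw [mat2_map, map_zero, map_neg, lmap_un]
  obtain ⟨h1, h2⟩ := indepY (k := AlgebraicClosure k) hp ha hirr (yabs_noWord ι hno)
    (fun j e => ι (r j e)) (fun _ => 0) (fun j => (C j).map (lmap ι))
    (fun j => (z j).map ι) (fun j hj => by
      funext e
      show ι (r j e) = 0
      rw [hr j hj]
      exact map_zero ι) (fun j r s => GE.zero 0) (fun j hj => by
      show (z j).map ι = 0
      rw [hz j hj]
      exact Matrix.map_zero _ (map_zero _)) (fun j => by
      rw [yabs_dk, h j]
      have e1 : ((∑ e, (HahnSeries.C (r j e) : LaurentSeries k) • M3 e) * BY p a P M j +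
          BY p a P M j * (z j).map HahnSeries.C : Mat k).map (lmap ι) =
          ((∑ e, (HahnSeries.C (r j e) : LaurentSeries k) • (M3 e : Mat k)).map (lmap ι)) *
            (BY p a P M j).map (lmap ι) +
          (BY p a P M j).map (lmap ι) * ((z j).map HahnSeries.C).map (lmap ι) := by
        rw [← Matrix.map_mul, ← Matrix.map_mul]
        exact Matrix.ext fun r s => map_add (lmap ι) _ _
      have e2 : ((z j).map HahnSeries.C : Mat k).map (lmap ι) =
          ((z j).map ι).map HahnSeries.C := Matrix.ext fun r s => lmap_C ι (z j r s)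
      have e3 : (∑ e, (HahnSeries.C (r j e) : LaurentSeries k) • (M3 e : Mat k)).map (lmap ι) =
          ∑ e, (HahnSeries.C (ι (r j e)) : LaurentSeries (AlgebraicClosure k)) •
            (M3 e : Mat (AlgebraicClosure k)) := by
        refine Matrix.ext fun s t => ?_
        rw [Matrix.map_apply, Matrix.sum_apply, Matrix.sum_apply, map_sum]
        refine Finset.sum_congr rfl fun e _ => ?_
        rw [Matrix.smul_apply, Matrix.smul_apply, smul_eq_mul, smul_eq_mul, map_mul, lmap_C,
          ← hM3 e]
        rfl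
      rw [e1, e2, e3, yabs_BY, Matrix.zero_mul, add_zero])
  refine ⟨funext fun j => funext fun e => ι.injective ?_, fun j s t v hv => ι.injective ?_⟩
  · rw [congrFun (congrFun h1 j) e]
    exact (map_zero ι).symm
  · rw [map_zero]
    exact h2 j s t v hv

/-- **Independence of all directions.** -/
theorem hDY {O : Type} [Fintype O] (hp : 5 ≤ p) (ha : ∀ j, 1 ≤ a j ∧ a j ≤ p)
    (P : ZMod f → Bool) [Fintype {t : ZMod f // P t = true}] (M : KisinModule f k)
    (hB : ∀ (K : Type u) [Field K] (ι : k →+* K), Irred p fun j => (BY p a P M j).map (lmap ι))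
    (hno : NoWordY p a P M) (τ : Unit ⊕ O → ZMod f) (zv : Unit ⊕ O → Matrix (Fin 2) (Fin 2) k)
    (hτ : ∀ v, OutY P (τ v))
    (hind : ∀ (c : ZMod f → Mat k) (x : Unit ⊕ O → k), (∀ j, MGE (c j) 0) →
        (∀ j, c j * BY p a P M j - BY p a P M j * (c (j - 1)).map (phi k p) =
          BY p a P M j * (zY τ zv x j).map HahnSeries.C) → x = 0)
    (r : Unit ⊕ (({t : ZMod f // P t = true} × Fin 3) ⊕ O) → k) (C : ZMod f → Mat k)
    (h : ∑ s, r s • DY p a P M τ zv s = dk p (BY p a P M) C) : r = 0 := by
  classical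
  obtain ⟨x, hx⟩ : ∃ x : Unit ⊕ O → k,
      x = Sum.elim (fun v => r (Sum.inl v)) fun o => r (Sum.inr (Sum.inr o)) := ⟨_, rfl⟩
  obtain ⟨w, hw⟩ : ∃ w : ZMod f → Fin 3 → k, w = fun j e =>
      if hj : P j = true then r (Sum.inr (Sum.inl (⟨j, hj⟩, e))) else 0 := ⟨_, rfl⟩
  -- the sum of the directions outside the words
  have hz : ∀ j, BY p a P M j * (zY τ zv x j).map HahnSeries.C =
      r (Sum.inl ()) • DY p a P M τ zv (Sum.inl ()) j +
        ∑ o, r (Sum.inr (Sum.inr o)) • DY p a P M τ zv (Sum.inr (Sum.inr o)) j := by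
    intro j
    have e1 : ∀ v : Unit ⊕ O, BY p a P M j *
        ((if τ v = j then x v • zv v else 0 : Matrix (Fin 2) (Fin 2) k).map HahnSeries.C : Mat k) =
        x v • (if τ v = j then BY p a P M j * (zv v).map HahnSeries.C else 0 : Mat k) := by
      intro v
      split_ifs
      · have e2 : ((x v • zv v).map HahnSeries.C : Mat k) =
            (HahnSeries.C (x v) : LaurentSeries k) • (zv v).map HahnSeries.C :=
          Matrix.ext fun r s => map_mul HahnSeries.C (x v) (zv v r s)
        rw [e2, mul_smul', smul_eq_C]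
      · have e2 : ((0 : Matrix (Fin 2) (Fin 2) k).map HahnSeries.C : Mat k) = 0 :=
          Matrix.map_zero _ (map_zero _)
        rw [e2, Matrix.mul_zero, smul_zero]
    have e3 : ((zY τ zv x j).map HahnSeries.C : Mat k) =
        ∑ v, ((if τ v = j then x v • zv v else 0 :
          Matrix (Fin 2) (Fin 2) k).map HahnSeries.C : Mat k) := by
      unfold zY
      refine Matrix.ext fun r s => ?_
      rw [Matrix.map_apply, Matrix.sum_apply, Matrix.sum_apply, map_sum]
      rfl
    rw [e3, Matrix.mul_sum, Finset.sum_congr rfl fun v _ => e1 v, Fintype.sum_sum_type, hx,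
      Fintype.sum_unique]
    rfl
  -- the sum of the directions of the words
  have hN : ∀ j, (∑ e, (HahnSeries.C (w j e) : LaurentSeries k) • (M3 e : Mat k)) *
      BY p a P M j = ∑ z : {t : ZMod f // P t = true} × Fin 3,
        r (Sum.inr (Sum.inl z)) • DY p a P M τ zv (Sum.inr (Sum.inl z)) j := by
    intro j
    rw [Fintype.sum_prod_type]
    by_cases hj : P j = true
    · rw [Finset.sum_eq_single (⟨j, hj⟩ : {t : ZMod f // P t = true}) ?_
        (fun h => absurd (Finset.mem_univ _) h), Matrix.sum_mul]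
      · refine Finset.sum_congr rfl fun e _ => ?_
        have e1 : w j e = r (Sum.inr (Sum.inl (⟨j, hj⟩, e))) := by
          rw [hw]
          exact dif_pos hj
        have e2 : DY p a P M τ zv (Sum.inr (Sum.inl (⟨j, hj⟩, e))) j =
            M3 e * BY p a P M j := if_pos rfl
        rw [e1, e2, smul_eq_C, smul_mul']
      · intro t _ ht
        refine Finset.sum_eq_zero fun e _ => ?_
        have e2 : DY p a P M τ zv (Sum.inr (Sum.inl (t, e))) j = 0 :=
          if_neg fun h => ht (Subtype.ext h)
        rw [e2, smul_zero]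
    · have e0 : ∀ e, w j e = 0 := fun e => by rw [hw]; exact dif_neg hj
      have e1 : (∑ e, (HahnSeries.C (w j e) : LaurentSeries k) • (M3 e : Mat k)) = 0 := by
        refine Finset.sum_eq_zero fun e _ => ?_
        rw [e0 e, map_zero, zero_smul]
      rw [e1, Matrix.zero_mul]
      symm
      refine Finset.sum_eq_zero fun t _ => Finset.sum_eq_zero fun e _ => ?_
      have e2 : DY p a P M τ zv (Sum.inr (Sum.inl (t, e))) j = 0 :=
        if_neg fun h => hj (by rw [← h]; exact t.2)
      rw [e2, smul_zero]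
  have heq : ∀ j, C j * BY p a P M j - BY p a P M j * (C (j - 1)).map (phi k p) =
      (∑ e, (HahnSeries.C (w j e) : LaurentSeries k) • M3 e) * BY p a P M j +
        BY p a P M j * (zY τ zv x j).map HahnSeries.C := by
    intro j
    have h1 := congrFun h j
    rw [Finset.sum_apply, dk_apply] at h1
    rw [← h1, hN j, hz j, Fintype.sum_sum_type, Fintype.sum_sum_type]
    have e0 : (∑ v : Unit, (r (Sum.inl v) • DY p a P M τ zv (Sum.inl v)) j) =
        r (Sum.inl ()) • DY p a P M τ zv (Sum.inl ()) j := by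
      rw [Fintype.sum_unique]
      rfl
    rw [e0]
    show r (Sum.inl ()) • DY p a P M τ zv (Sum.inl ()) j +
      ((∑ z, r (Sum.inr (Sum.inl z)) • DY p a P M τ zv (Sum.inr (Sum.inl z)) j) +
        ∑ o, r (Sum.inr (Sum.inr o)) • DY p a P M τ zv (Sum.inr (Sum.inr o)) j) = _
    abel
  have hz0 : ∀ j, ¬ OutY P j → zY τ zv x j = 0 := by
    intro j hj
    unfold zY
    refine Finset.sum_eq_zero fun v _ => if_neg fun hv => hj ?_
    rw [← hv]
    exact hτ v
  have hw0 : ∀ j, P j = false → w j = 0 := by
    intro j hj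
    rw [hw]
    funext e
    exact dif_neg (by rw [hj]; decide)
  obtain ⟨h1, h2⟩ := yabs_indep hp ha P M hB hno w C (zY τ zv x) hw0 hz0 heq
  have h3 : x = 0 := by
    refine hind C x h2 fun j => ?_
    rw [heq j, h1]
    have e1 : (∑ e, (HahnSeries.C ((0 : ZMod f → Fin 3 → k) j e) : LaurentSeries k) •
        (M3 e : Mat k)) = 0 := by
      refine Finset.sum_eq_zero fun e _ => ?_
      show (HahnSeries.C (0 : k) : LaurentSeries k) • (M3 e : Mat k) = 0
      rw [map_zero, zero_smul]
    rw [e1, Matrix.zero_mul, zero_add]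
  funext s
  rcases s with v | z | o
  · have := congrFun h3 (Sum.inl v)
    rw [hx] at this
    exact this
  · have := congrFun (congrFun h1 z.1.1) z.2
    rw [hw] at this
    have e1 : (if hj : P z.1.1 = true then r (Sum.inr (Sum.inl (⟨z.1.1, hj⟩, z.2))) else 0) = 0 :=
      this
    rw [dif_pos z.1.2] at e1
    exact e1
  · have := congrFun h3 (Sum.inr o)
    rw [hx] at this
    exact this

end

end Pool.Agent.Lib.MP_74d0c9_nt
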