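import Pool.Agent.Lib.MP_74d0c9_nt.XK1
import Pool.Agent.Lib.MP_74d0c9_nt.Main

/-! Kisin modules with irreducible `φ`-module: the data of the normal form. -/

set_option autoImplicit false

namespace Pool.Agent.Lib.MP_74d0c9_nt

open HahnSeries

universe u

section
variable {f : ℕ}

/-- the position `j` is outside the words of the pattern `P` -/
def OutY (P : ZMod f → Bool) (j : ZMod f) : Prop := P j = false ∧ P (j - 1) = false

/-- the entries of the shape at the positions of the pattern and directly after them -/
structure IsPatY (p : ℕ) (a : ZMod f → ℕ) (P : ZMod f → Bool) : Prop where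
  start : ∀ j, P j = true → P (j - 1) = false → a j = 1
  mid : ∀ j, P j = true → P (j - 1) = true → a j = p - 1
  stop : ∀ j, P j = false → P (j - 1) = true → a j = p

variable {A : Type u} [CommRing A]

/-- the étale `φ`-module: scalars `1, u ^ (p - 1), …, u ^ p` at the words of the pattern, the
Frobenius of the Kisin module `M` outside -/
noncomputable def BY (p : ℕ) (a : ZMod f → ℕ) (P : ZMod f → Bool) (M : KisinModule f A)
    (j : ZMod f) : Mat A :=
  if P j = true then (if P (j - 1) = true then !![un (p - 1), 0; 0, un (p - 1)] else 1)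
  else if P (j - 1) = true then !![un p, 0; 0, un p] else M.frob a j

/-- there is no active word outside the words of the pattern -/
def NoWordY (p : ℕ) (a : ZMod f → ℕ) (P : ZMod f → Bool) (M : KisinModule f A) : Prop :=
  ∀ (i : ZMod f) (m : ℕ), IsWord p f a i m → (∀ s : ℕ, s < m → OutY P (i + s)) →
    M.Y i 1 1 = 0 → (∀ s : ℕ, 0 < s → s < m - 1 → M.Y (i + s) 1 0 = 0) → False

/-- the lattices at the point `Q` of the residual Kisin variety -/
noncomputable def TY (P : ZMod f → Bool) (Q : ZMod f → GL (Fin 2) A) (j : ZMod f) :
    GL (Fin 2) (LaurentSeries A) :=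
  if P j = true then gc (Q j) * tl 0 else 1

/-- `Q` is constant along the words of the pattern -/
def IsPt (P : ZMod f → Bool) (Q : ZMod f → GL (Fin 2) A) : Prop :=
  ∀ j, P j = true → P (j - 1) = true → Q j = Q (j - 1)

end

end Pool.Agent.Lib.MP_74d0c9_nt
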