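import Pool.Agent.Lib.MP_74d0c9_nt.Active
import Pool.Agent.Lib.MP_74d0c9_nt.YDefs
import Pool.Agent.Lib.MP_74d0c9_nt.MWords
import Pool.Agent.Lib.MP_74d0c9_nt.XFun

/-! Active words: the positions of the poles of the homomorphisms between Kisin modules. -/

set_option autoImplicit false

namespace Pool.Agent.Lib.MP_74d0c9_nt

open HahnSeries IsLocalRing

universe u

/-- the run of ones which contains a given position -/
theorem run_at {f : ℕ} [NeZero f] {n : ZMod f → ℕ} (hn : ∀ i, n i ≤ 1) {j0 j : ZMod f}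
    (h0 : n (j0 - 1) = 0) (h0' : n j0 = 0) (hj : n j = 1) :
    ∃ (i : ZMod f) (m s : ℕ), 2 ≤ m ∧ m < f ∧ n (i - 1) = 0 ∧
      (∀ t : ℕ, t < m - 1 → n (i + t) = 1) ∧ n (i + (m - 1 : ℕ)) = 0 ∧ s + 1 < m ∧ j = i + s := by
  classical
  have hf : 0 < f := Nat.pos_of_ne_zero (NeZero.ne f)
  obtain ⟨d, hd⟩ : ∃ d, d = (j - j0).val := ⟨_, rfl⟩
  have hdlt : d < f := hd ▸ ZMod.val_lt _
  have hjd : j - (d : ZMod f) = j0 := by
    rw [hd, ZMod.natCast_val, ZMod.cast_id', id_eq, sub_sub_cancel]
  have hd0 : d ≠ 0 := by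
    intro h
    rw [h, Nat.cast_zero, sub_zero] at hjd
    rw [hjd] at hj
    omega
  have hdown : n (j - ((d - 1 + 1 : ℕ) : ZMod f)) = 0 := by
    rw [Nat.sub_add_cancel (by omega), hjd]
    exact h0'
  have hex1 : ∃ s : ℕ, n (j - ((s + 1 : ℕ) : ZMod f)) = 0 := ⟨d - 1, hdown⟩
  obtain ⟨s, hs⟩ : ∃ s, s = Nat.find hex1 := ⟨_, rfl⟩
  have hs0 : n (j - ((s + 1 : ℕ) : ZMod f)) = 0 := hs ▸ Nat.find_spec hex1
  have hsm : ∀ t < s, n (j - ((t + 1 : ℕ) : ZMod f)) = 1 := by
    intro t ht
    have h1 := Nat.find_min hex1 (hs ▸ ht)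
    have := hn (j - ((t + 1 : ℕ) : ZMod f))
    omega
  have hsd : s ≤ d - 1 := by
    rw [hs]
    exact Nat.find_min' hex1 hdown
  have hup : j + ((f - 1 - d : ℕ) : ZMod f) = j0 - 1 := by
    rw [Nat.cast_sub (by omega), castsub_one]
    linear_combination hjd
  have hne : f - 1 - d ≠ 0 := by
    intro h
    rw [h, Nat.cast_zero, add_zero] at hup
    rw [hup] at hj
    omega
  have hup' : n (j + ((f - 1 - d - 1 + 1 : ℕ) : ZMod f)) = 0 := by
    rw [Nat.sub_add_cancel (by omega), hup]
    exact h0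
  have hex2 : ∃ t : ℕ, n (j + ((t + 1 : ℕ) : ZMod f)) = 0 := ⟨f - 1 - d - 1, hup'⟩
  obtain ⟨t, ht⟩ : ∃ t, t = Nat.find hex2 := ⟨_, rfl⟩
  have ht0 : n (j + ((t + 1 : ℕ) : ZMod f)) = 0 := ht ▸ Nat.find_spec hex2
  have htm : ∀ r < t, n (j + ((r + 1 : ℕ) : ZMod f)) = 1 := by
    intro r hr
    have h1 := Nat.find_min hex2 (ht ▸ hr)
    have := hn (j + ((r + 1 : ℕ) : ZMod f))
    omega
  have htd : t ≤ f - 1 - d - 1 := by
    rw [ht]
    exact Nat.find_min' hex2 hup'
  refine ⟨j - (s : ZMod f), s + t + 2, s, by omega, by omega, ?_, ?_, ?_, by omega, by ring⟩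
  · have e : j - (s : ZMod f) - 1 = j - ((s + 1 : ℕ) : ZMod f) := by
      push_cast
      ring
    rw [e]
    exact hs0
  · intro r hr
    rcases lt_trichotomy r s with h1 | h1 | h1
    · have e : j - (s : ZMod f) + r = j - ((s - r - 1 + 1 : ℕ) : ZMod f) := by
        rw [Nat.sub_add_cancel (by omega), Nat.cast_sub (by omega)]
        ring
      rw [e]
      exact hsm _ (by omega)
    · rw [h1, sub_add_cancel]
      exact hj
    · have e : j - (s : ZMod f) + r = j + ((r - s - 1 + 1 : ℕ) : ZMod f) := by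
        rw [Nat.sub_add_cancel (by omega), Nat.cast_sub (by omega)]
        ring
      rw [e]
      exact htm _ (by omega)
  · have e : j - (s : ZMod f) + ((s + t + 2 - 1 : ℕ) : ZMod f) = j + ((t + 1 : ℕ) : ZMod f) := by
      rw [show s + t + 2 - 1 = s + (t + 1) by omega]
      push_cast
      ring
    rw [e]
    exact ht0

/-- The poles of a homomorphism between Kisin modules, the first of which is residually irreducible,
are at the positions of the active words of the first one. -/
theorem pole_active {A K : Type u} [CommRing A] [IsLocalRing A] [Field K] [IsAlgClosed K]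
    {p f : ℕ} [Fact p.Prime] [NeZero f] {a : ZMod f → ℕ}
    (π : A →+* K) [IsLocalHom π] (hp : 5 ≤ p) (ha : ∀ j, 1 ≤ a j ∧ a j ≤ p)
    (M N : KisinModule f A) (hM : Irred p ((M.baseChange π).frob a)) (G : ZMod f → Mat A)
    (hG : IsHom p (M.frob a) (N.frob a) G) (j : ZMod f) (hj : ¬ Integral (G j)) :
    ∃ (i' : ZMod f) (m s : ℕ), Active p f a (M.baseChange π) i' m ∧ s + 1 < m ∧ j = i' + s := by
  have hle := pole_le_one hG hp ha
  have hj1 : pole (G j) = 1 := by
    have h0 : pole (G j) ≠ 0 := fun h => hj (pole_eq_zero_iff.1 h)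
    have := hle j
    omega
  have hy : ∀ y : A, (∃ b : A, b ≠ 0 ∧ b * y = 0) → π y = 0 := by
    rintro y ⟨b, hb, hby⟩
    by_contra hne
    have h1 : IsUnit (π y) := isUnit_iff_ne_zero.2 hne
    have h2 : IsUnit y := (isUnit_map_iff π y).1 h1
    exact hb ((h2.mul_left_eq_zero).1 hby)
  have h01 : ∀ i, pole (G (i - 1)) = 0 → pole (G i) = 1 →
      a i = 1 ∧ (M.baseChange π).Y i 1 1 = 0 := by
    intro i h0 h1
    refine ⟨step_zero_one hG ha h0 h1, ?_⟩
    rw [Y_baseChange]
    exact hy _ (Y_of_zero_one hG hp ha h0 h1)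
  have h11 : ∀ i, pole (G (i - 1)) = 1 → pole (G i) = 1 →
      a i = p - 1 ∧ (M.baseChange π).Y i 1 0 = 0 := by
    intro i h0 h1
    refine ⟨step_one_one hG hp ha h0 h1, ?_⟩
    rw [Y_baseChange]
    exact hy _ (Y_of_one_one hG hp ha h0 h1)
  have h10 : ∀ i, pole (G (i - 1)) = 1 → pole (G i) = 0 → a i = p :=
    fun i h0 h1 => step_one_zero hG hp ha h0 h1
  by_cases h00 : ∀ i, pole (G (i - 1)) = 0 → pole (G i) = 1
  · exact absurd hM (reducible (M := M.baseChange π) (n := fun i => pole (G i)) hp hle h00 h01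
      h11 h10)
  · push Not at h00
    obtain ⟨j0, hj0, hj0'⟩ := h00
    have hj00 : pole (G j0) = 0 := by
      have := hle j0
      omega
    obtain ⟨i, m, s, hm, hmf, h1, h2, h3, h4, h5⟩ :=
      run_at (n := fun i => pole (G i)) hle hj0 hj00 hj1
    have hprev : ∀ t : ℕ, 0 < t → i + (t : ZMod f) - 1 = i + ((t - 1 : ℕ) : ZMod f) := by
      intro t ht
      rw [Nat.cast_sub ht]
      push_cast
      ring
    have hi : pole (G i) = 1 := by
      have := h2 0 (by omega)
      rwa [Nat.cast_zero, add_zero] at this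
    refine ⟨i, m, s, ⟨⟨hm, hmf, (h01 i h1 hi).1, ?_, ?_⟩, (h01 i h1 hi).2, ?_⟩, h4, h5⟩
    · intro t ht ht'
      refine (h11 _ ?_ (h2 t ht')).1
      rw [hprev t ht]
      exact h2 _ (by omega)
    · refine h10 _ ?_ h3
      rw [hprev _ (by omega)]
      exact h2 _ (by omega)
    · intro t ht ht'
      refine (h11 _ ?_ (h2 t ht')).2
      rw [hprev t ht]
      exact h2 _ (by omega)

section
variable {p f : ℕ} {a : ZMod f → ℕ}

/-- the entries of the shape at a word -/
theorem IsWord.entry {i : ZMod f} {m : ℕ} (h : IsWord p f a i m) {s : ℕ} (hs : s < m) :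
    (s = 0 ∧ a (i + s) = 1) ∨ (0 < s ∧ s < m - 1 ∧ a (i + s) = p - 1) ∨
      (0 < s ∧ s = m - 1 ∧ a (i + s) = p) := by
  obtain ⟨h1, h2, h3, h4, h5⟩ := h
  rcases Nat.eq_zero_or_pos s with h6 | h6
  · left
    rw [h6, Nat.cast_zero, add_zero]
    exact ⟨rfl, h3⟩
  · right
    rcases lt_or_ge s (m - 1) with h7 | h7
    · exact Or.inl ⟨h6, h7, h4 s h6 h7⟩
    · right
      have h8 : s = m - 1 := by omega
      refine ⟨h6, h8, ?_⟩
      rw [h8]
      exact h5

/-- two words which meet are equal -/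
theorem IsWord.eq_of_meet (hp : 5 ≤ p) {i i' : ZMod f} {m m' : ℕ} (h : IsWord p f a i m)
    (h' : IsWord p f a i' m') {s s' : ℕ} (hs : s < m) (hs' : s' < m')
    (e : i + (s : ZMod f) = i' + s') : i = i' ∧ m = m' := by
  have hi : i = i' := by
    induction s generalizing s' with
    | zero =>
      rw [Nat.cast_zero, add_zero] at e
      have h1 := h'.entry hs'
      rw [← e, h.2.2.1] at h1
      have h2 : s' = 0 := by omega
      rw [h2, Nat.cast_zero, add_zero] at e
      exact e
    | succ s ih =>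
      have h1 := h.entry hs
      have h2 := h'.entry hs'
      rw [e] at h1
      have h3 : s' ≠ 0 := by omega
      obtain ⟨r, rfl⟩ : ∃ r, s' = r + 1 := ⟨s' - 1, by omega⟩
      refine ih (s' := r) (by omega) (by omega) ?_
      push_cast at e
      linear_combination e
  subst hi
  refine ⟨rfl, ?_⟩
  have hm := h.1
  have hm' := h'.1
  have h1 := h.2.2.2.2
  have h2 := h'.2.2.2.2
  rcases lt_trichotomy m m' with h3 | h3 | h3
  · have h4 := h'.2.2.2.1 (m - 1) (by omega) (by omega)
    omega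
  · exact h3
  · have h4 := h.2.2.2.1 (m' - 1) (by omega) (by omega)
    omega

end

section
variable {p f : ℕ} [Fact p.Prime] [NeZero f] {a : ZMod f → ℕ}

omit [NeZero f] [Fact p.Prime] in
theorem active_baseChange {k K : Type u} [Field k] [Field K] (ι : k →+* K)
    (M : KisinModule f k) (i : ZMod f) (m : ℕ) :
    Active p f a (M.baseChange ι) i m ↔ Active p f a M i m := by
  unfold Active
  simp only [Y_baseChange, map_eq_zero]

/-- disjoint active words, which are all the active words -/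
theorem exists_words {k : Type u} [Field k] (hp : 5 ≤ p) (M : KisinModule f k)
    (hM : ∀ (K : Type u) [Field K] (ι : k →+* K), Irred p fun j => (M.frob a j).map (lmap ι)) :
    ∃ (r : ℕ) (i : Fin r → ZMod f) (m : Fin r → ℕ), IsWords p f a i m ∧
      ∀ (i' : ZMod f) (m' : ℕ), Active p f a M i' m' ↔ ∃ j, i' = i j ∧ m' = m j := by
  classical
  obtain ⟨S, hS⟩ : ∃ S : Finset (ZMod f), ∀ x, x ∈ S ↔ ∃ m, Active p f a M x m :=
    ⟨Finset.univ.filter fun x => ∃ m, Active p f a M x m, fun x => by simp⟩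
  obtain ⟨e⟩ : Nonempty (Fin S.card ≃ S) := ⟨S.equivFin.symm⟩
  have hex : ∀ j : Fin S.card, ∃ m, Active p f a M (e j : ZMod f) m := fun j =>
    (hS _).1 (e j).2
  choose m hm using hex
  have hdisj : ∀ (j j' : Fin S.card) (s s' : ℕ), s < m j → s' < m j' →
      (e j : ZMod f) + s = (e j' : ZMod f) + s' → j = j' := by
    intro j j' s s' hs hs' h
    have h1 := ((hm j).1.eq_of_meet hp (hm j').1 hs hs' h).1
    exact e.injective (Subtype.ext h1)
  have hinj : ∀ (j j' : Fin S.card) (s s' : ℕ), s < m j → s' < m j' →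
      (e j : ZMod f) + s = (e j' : ZMod f) + s' → j = j' ∧ s = s' := by
    intro j j' s s' hs hs' h
    have h1 := hdisj j j' s s' hs hs' h
    subst h1
    refine ⟨rfl, ?_⟩
    have h2 := (hm j).1.2.1
    have h3 : (s : ZMod f) = s' := add_left_cancel h
    have h4 := congrArg ZMod.val h3
    rwa [ZMod.val_natCast_of_lt (by omega), ZMod.val_natCast_of_lt (by omega)] at h4
  refine ⟨S.card, fun j => (e j : ZMod f), m, ⟨fun j => (hm j).1, hdisj, ?_⟩, ?_⟩
  · -- the words do not cover the cycle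
    by_contra hc
    push Not at hc
    let F : (Σ j : Fin S.card, Fin (m j)) → ZMod f := fun x => (e x.1 : ZMod f) + ((x.2 : ℕ) : ZMod f)
    have hF : Function.Injective F := by
      rintro ⟨j, s⟩ ⟨j', s'⟩ h
      obtain ⟨h1, h2⟩ := hinj j j' s s' s.2 s'.2 h
      subst h1
      have h3 : s = s' := Fin.ext h2
      rw [h3]
    have hcard : Fintype.card (Σ j : Fin S.card, Fin (m j)) = ∑ j, m j := by
      rw [Fintype.card_sigma]
      simp
    have hF' : Function.Surjective F := by
      have h1 : Function.Bijective F := by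
        rw [Fintype.bijective_iff_injective_and_card]
        refine ⟨hF, ?_⟩
        have h2 := Fintype.card_le_of_injective F hF
        rw [ZMod.card] at h2 ⊢
        omega
      exact h1.2
    have hcov : ∀ x : ZMod f, ∃ (j : Fin S.card) (s : ℕ), s < m j ∧ x = (e j : ZMod f) + s := by
      intro x
      obtain ⟨⟨j, s⟩, h⟩ := hF' x
      exact ⟨j, s, s.2, h.symm⟩
    let n : ZMod f → ℕ := fun x =>
      if ∃ (j : Fin S.card) (s : ℕ), s + 1 < m j ∧ x = (e j : ZMod f) + s then 1 else 0
    have hn1 : ∀ x, n x = 1 ↔ ∃ (j : Fin S.card) (s : ℕ), s + 1 < m j ∧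
        x = (e j : ZMod f) + s := by
      intro x
      simp only [n]
      split_ifs with h
      · exact ⟨fun _ => h, fun _ => rfl⟩
      · exact ⟨fun h' => absurd h' (by norm_num), fun h' => absurd h' h⟩
    have hn0 : ∀ x, n x = 0 ↔ ¬ ∃ (j : Fin S.card) (s : ℕ), s + 1 < m j ∧
        x = (e j : ZMod f) + s := by
      intro x
      simp only [n]
      split_ifs with h
      · exact ⟨fun h' => absurd h' (by norm_num), fun h' => absurd h h'⟩
      · exact ⟨fun _ => h, fun _ => rfl⟩
    have hn : ∀ x, n x ≤ 1 := by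
      intro x
      simp only [n]
      split_ifs <;> omega
    have hstart : ∀ x, n (x - 1) = 0 → ∀ (j : Fin S.card) (s : ℕ), s < m j →
        x = (e j : ZMod f) + s → s = 0 := by
      intro x h0 j s hs hx
      by_contra hs0
      refine (hn0 _).1 h0 ⟨j, s - 1, by omega, ?_⟩
      rw [hx, Nat.cast_sub (by omega)]
      push_cast
      ring
    have hYK := fun (x : ZMod f) (r s : Fin 2) =>
      Y_baseChange M (algebraMap k (AlgebraicClosure k)) x r s
    refine reducible (M := M.baseChange (algebraMap k (AlgebraicClosure k))) (n := n) (a := a)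
      hp hn ?_ ?_ ?_ ?_ ?_
    · intro x h0
      obtain ⟨j, s, hs, hx⟩ := hcov x
      have h1 := hstart x h0 j s hs hx
      exact (hn1 x).2 ⟨j, s, by have := (hm j).1.1; omega, hx⟩
    · intro x h0 h1
      obtain ⟨j, s, hs, hx⟩ := (hn1 x).1 h1
      have h2 := hstart x h0 j s (by omega) hx
      rw [h2, Nat.cast_zero, add_zero] at hx
      rw [hYK, hx]
      refine ⟨(hm j).1.2.2.1, ?_⟩
      rw [(hm j).2.1, map_zero]
    · intro x h0 h1
      obtain ⟨j, s, hs, hx⟩ := (hn1 x).1 h1
      obtain ⟨j', s', hs', hx'⟩ := (hn1 _).1 h0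
      have h2 : s ≠ 0 := by
        intro hs0
        have h3 : (e j : ZMod f) + (s : ZMod f) = (e j' : ZMod f) + ((s' + 1 : ℕ) : ZMod f) := by
          push_cast
          linear_combination hx' - hx
        have h4 := (hinj j j' s (s' + 1) (by omega) (by omega) h3).2
        omega
      rw [hYK, hx]
      refine ⟨(hm j).1.2.2.2.1 s (by omega) (by omega), ?_⟩
      rw [(hm j).2.2 s (by omega) (by omega), map_zero]
    · intro x h0 h1
      obtain ⟨j, s, hs, hx⟩ := (hn1 _).1 h0
      have h2 : x = (e j : ZMod f) + ((s + 1 : ℕ) : ZMod f) := by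
        push_cast
        linear_combination hx
      have h3 : s + 1 = m j - 1 := by
        by_contra h4
        exact (hn0 x).1 h1 ⟨j, s + 1, by omega, h2⟩
      rw [h2, h3]
      exact (hm j).1.2.2.2.2
    · have h1 := hM (AlgebraicClosure k) (algebraMap k (AlgebraicClosure k))
      have h2 : (M.baseChange (algebraMap k (AlgebraicClosure k))).frob a =
          fun j => (M.frob a j).map (lmap (algebraMap k (AlgebraicClosure k))) :=
        funext fun j => frob_baseChange _ a M j
      rw [h2]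
      exact h1
  · intro i' m'
    constructor
    · intro h
      have h1 : i' ∈ S := (hS _).2 ⟨m', h⟩
      refine ⟨e.symm ⟨i', h1⟩, ?_⟩
      have h2 : ((e (e.symm ⟨i', h1⟩) : S) : ZMod f) = i' := by rw [Equiv.apply_symm_apply]
      refine ⟨h2.symm, ?_⟩
      have h3 := (hm (e.symm ⟨i', h1⟩)).1
      refine (h.1.eq_of_meet hp h3 (s := 0) (s' := 0) (by have := h.1.1; omega)
        (by have := h3.1; omega) ?_).2
      rw [h2]
    · rintro ⟨j, rfl, rfl⟩
      exact hm j

end

end Pool.Agent.Lib.MP_74d0c9_nt
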