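import Pool.Agent.Lib.MP_74d0c9_nt.YKDefs
import Pool.Agent.Lib.MP_74d0c9_nt.Words

/-! The cyclic pattern of disjoint words. -/

set_option autoImplicit false

namespace Pool.Agent.Lib.MP_74d0c9_nt

universe u

section
variable {f r : ℕ}

/-- the positions of the words, without their last letters -/
noncomputable def PYW (i : Fin r → ZMod f) (m : Fin r → ℕ) (t : ZMod f) : Bool :=
  @decide (∃ (j : Fin r) (s : ℕ), s + 1 < m j ∧ t = i j + s) (Classical.propDecidable _)

theorem PYW_iff {i : Fin r → ZMod f} {m : Fin r → ℕ} {t : ZMod f} :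
    PYW i m t = true ↔ ∃ (j : Fin r) (s : ℕ), s + 1 < m j ∧ t = i j + s := by
  unfold PYW
  exact @decide_eq_true_iff _ (Classical.propDecidable _)

theorem PYW_false {i : Fin r → ZMod f} {m : Fin r → ℕ} {t : ZMod f} :
    PYW i m t = false ↔ ¬ ∃ (j : Fin r) (s : ℕ), s + 1 < m j ∧ t = i j + s := by
  rw [← PYW_iff, Bool.not_eq_true]

variable {p : ℕ} {a : ZMod f → ℕ} {i : Fin r → ZMod f} {m : Fin r → ℕ}

/-- a position is in one word only -/
theorem IsWords.injY (hW : IsWords p f a i m) {j j' : Fin r} {s s' : ℕ} (hs : s < m j)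
    (hs' : s' < m j') (h : i j + (s : ZMod f) = i j' + s') : j = j' ∧ s = s' := by
  have h1 := hW.disj j j' s s' hs hs' h
  subst h1
  refine ⟨rfl, ?_⟩
  have h2 := (hW.word j).2.1
  have h3 : (s : ZMod f) = s' := add_left_cancel h
  have h4 := congrArg ZMod.val h3
  rwa [ZMod.val_natCast_of_lt (by omega), ZMod.val_natCast_of_lt (by omega)] at h4

theorem posY_succ (j : Fin r) (s : ℕ) (t : ZMod f) (h : t - 1 = i j + (s : ZMod f)) :
    t = i j + ((s + 1 : ℕ) : ZMod f) := by
  push_cast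
  linear_combination h

theorem posY_pred (j : Fin r) (s : ℕ) (hs : 0 < s) (t : ZMod f) (h : t = i j + (s : ZMod f)) :
    t - 1 = i j + ((s - 1 : ℕ) : ZMod f) := by
  rw [Nat.cast_sub hs]
  push_cast
  linear_combination h

/-- the shape at the positions of the words -/
theorem isPatY_PYW (hW : IsWords p f a i m) : IsPatY p a (PYW i m) where
  start t h h' := by
    obtain ⟨j, s, hs, ht⟩ := PYW_iff.1 h
    have hs0 : s = 0 := by
      by_contra hc
      exact PYW_false.1 h' ⟨j, s - 1, by omega, posY_pred j s (by omega) t ht⟩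
    rw [ht, hs0, Nat.cast_zero, add_zero]
    exact (hW.word j).2.2.1
  mid t h h' := by
    obtain ⟨j, s, hs, ht⟩ := PYW_iff.1 h
    obtain ⟨j', s', hs', ht'⟩ := PYW_iff.1 h'
    have h1 := posY_succ j' s' t ht'
    rw [ht] at h1
    obtain ⟨h2, h3⟩ := hW.injY (by omega) (by omega) h1
    rw [ht]
    exact (hW.word j).2.2.2.1 s (by omega) (by omega)
  stop t h h' := by
    obtain ⟨j, s, hs, ht⟩ := PYW_iff.1 h'
    have h1 := posY_succ j s t ht
    have h2 : s + 1 = m j - 1 := by
      by_contra hc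
      exact PYW_false.1 h ⟨j, s + 1, by omega, h1⟩
    rw [h1, h2]
    exact (hW.word j).2.2.2.2

/-- the positions outside the words -/
theorem outY_iff (hW : IsWords p f a i m) (t : ZMod f) :
    OutY (PYW i m) t ↔ ¬ ∃ (j : Fin r) (s : ℕ), s < m j ∧ t = i j + s := by
  unfold OutY
  rw [PYW_false, PYW_false]
  constructor
  · rintro ⟨h1, h2⟩ ⟨j, s, hs, ht⟩
    by_cases hs' : s + 1 < m j
    · exact h1 ⟨j, s, hs', ht⟩
    · have := (hW.word j).1
      exact h2 ⟨j, s - 1, by omega, posY_pred j s (by omega) t ht⟩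
  · intro h
    refine ⟨fun ⟨j, s, hs, ht⟩ => h ⟨j, s, by omega, ht⟩, fun ⟨j, s, hs, ht⟩ =>
      h ⟨j, s + 1, hs, posY_succ j s t ht⟩⟩

/-- the number of the positions outside the words -/
theorem card_outY [NeZero f] (hW : IsWords p f a i m) :
    Nat.card {t // OutY (PYW i m) t} + ∑ j, m j = f := by
  classical
  let F : (Σ j : Fin r, Fin (m j)) → {t : ZMod f // ¬ OutY (PYW i m) t} := fun x =>
    ⟨i x.1 + ((x.2 : ℕ) : ZMod f), fun h => (outY_iff hW _).1 h ⟨x.1, x.2, x.2.2, rfl⟩⟩
  have hF : Function.Bijective F := by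
    constructor
    · rintro ⟨j, s⟩ ⟨j', s'⟩ h
      obtain ⟨h1, h2⟩ := hW.injY s.2 s'.2 (congrArg Subtype.val h)
      subst h1
      have h3 : s = s' := Fin.ext h2
      rw [h3]
    · rintro ⟨t, ht⟩
      have h1 : ∃ (j : Fin r) (s : ℕ), s < m j ∧ t = i j + s := by
        by_contra hc
        exact ht ((outY_iff hW t).2 hc)
      obtain ⟨j, s, hs, hts⟩ := h1
      exact ⟨⟨j, ⟨s, hs⟩⟩, Subtype.ext hts.symm⟩
  have h1 : Fintype.card (Σ j : Fin r, Fin (m j)) = ∑ j, m j := by
    rw [Fintype.card_sigma]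
    simp
  have h2 := Fintype.card_of_bijective hF
  have h3 := Fintype.card_subtype_compl (fun t : ZMod f => OutY (PYW i m) t)
  have h4 : Fintype.card {t // OutY (PYW i m) t} ≤ Fintype.card (ZMod f) :=
    Fintype.card_subtype_le _
  rw [ZMod.card] at h3 h4
  rw [Nat.card_eq_fintype_card]
  omega

theorem exists_outY [NeZero f] (hW : IsWords p f a i m) : ∃ t, OutY (PYW i m) t := by
  by_contra hc
  push Not at hc
  have h1 := card_outY hW
  have h2 := hW.sum_lt
  have : IsEmpty {t // OutY (PYW i m) t} := ⟨fun t => hc t.1 t.2⟩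
  rw [Nat.card_of_isEmpty] at h1
  omega

/-- the word of a position -/
theorem exists_omegaY (hW : IsWords p f a i m) :
    ∃ ω : {t : ZMod f // PYW i m t = true} → Fin r,
      (∀ t, ∃ s : ℕ, s + 1 < m (ω t) ∧ t.1 = i (ω t) + s) ∧
      (∀ (t : ZMod f) (h : PYW i m t = true) (h' : PYW i m (t - 1) = true),
        ω ⟨t, h⟩ = ω ⟨t - 1, h'⟩) ∧
      (∀ (A : Type u) [CommRing A] (Q : ZMod f → GL (Fin 2) A), IsPt (PYW i m) Q →
        ∀ t : {t : ZMod f // PYW i m t = true}, Q t.1 = Q (i (ω t))) := by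
  choose ω hω using fun t : {t : ZMod f // PYW i m t = true} => PYW_iff.1 t.2
  refine ⟨ω, hω, fun t h h' => ?_, fun A _ Q hQ t => ?_⟩
  · obtain ⟨s, hs, ht⟩ := hω ⟨t, h⟩
    obtain ⟨s', hs', ht'⟩ := hω ⟨t - 1, h'⟩
    have h1 := posY_succ (ω ⟨t - 1, h'⟩) s' t ht'
    have h2 : t = i (ω ⟨t, h⟩) + (s : ZMod f) := ht
    exact (hW.injY (by omega) (by omega) (h2.symm.trans h1)).1
  · obtain ⟨s, hs, ht⟩ := hω t
    rw [ht]
    have key : ∀ n : ℕ, n ≤ s → Q (i (ω t) + (n : ZMod f)) = Q (i (ω t)) := by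
      intro n
      induction n with
      | zero =>
        intro _
        rw [Nat.cast_zero, add_zero]
      | succ n ih =>
        intro hn
        have e : i (ω t) + ((n + 1 : ℕ) : ZMod f) - 1 = i (ω t) + (n : ZMod f) := by
          push_cast
          ring
        rw [hQ _ (PYW_iff.2 ⟨ω t, n + 1, by omega, rfl⟩)
          (by rw [e]; exact PYW_iff.2 ⟨ω t, n, by omega, rfl⟩), e]
        exact ih (by omega)
    exact key s le_rfl

/-- the number of the positions of a word -/
theorem card_fibreY (hW : IsWords p f a i m)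
    (ω : {t : ZMod f // PYW i m t = true} → Fin r)
    (hω : ∀ t, ∃ s : ℕ, s + 1 < m (ω t) ∧ t.1 = i (ω t) + s) (j : Fin r)
    [Fintype {t : {t : ZMod f // PYW i m t = true} // ω t = j}] :
    Fintype.card {t : {t : ZMod f // PYW i m t = true} // ω t = j} = m j - 1 := by
  have hF1 : ∀ s : Fin (m j - 1), PYW i m (i j + ((s : ℕ) : ZMod f)) = true := fun s =>
    PYW_iff.2 ⟨j, s, by have := s.2; omega, rfl⟩
  have hF2 : ∀ s : Fin (m j - 1), ω ⟨i j + ((s : ℕ) : ZMod f), hF1 s⟩ = j := by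
    intro s
    obtain ⟨s', hs', ht⟩ := hω ⟨i j + ((s : ℕ) : ZMod f), hF1 s⟩
    have := s.2
    exact (hW.injY (by omega) (by omega) ht).1.symm
  let F : Fin (m j - 1) → {t : {t : ZMod f // PYW i m t = true} // ω t = j} := fun s =>
    ⟨⟨i j + ((s : ℕ) : ZMod f), hF1 s⟩, hF2 s⟩
  have hF : Function.Bijective F := by
    constructor
    · intro s s' h
      have h1 : i j + ((s : ℕ) : ZMod f) = i j + ((s' : ℕ) : ZMod f) :=
        congrArg (fun x => x.1.1) h
      have := s.2
      have := s'.2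
      exact Fin.ext (hW.injY (by omega) (by omega) h1).2
    · rintro ⟨t, ht⟩
      obtain ⟨s, hs, hts⟩ := hω t
      rw [ht] at hs hts
      exact ⟨⟨s, by omega⟩, Subtype.ext (Subtype.ext hts.symm)⟩
  rw [← Fintype.card_of_bijective hF, Fintype.card_fin]

/-- the number of the positions of all the words -/
theorem card_PYW (hW : IsWords p f a i m)
    (ω : {t : ZMod f // PYW i m t = true} → Fin r)
    (hω : ∀ t, ∃ s : ℕ, s + 1 < m (ω t) ∧ t.1 = i (ω t) + s)
    [Fintype {t : ZMod f // PYW i m t = true}] :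
    Fintype.card {t : ZMod f // PYW i m t = true} + r = ∑ j, m j := by
  classical
  have h1 := Fintype.card_congr (Equiv.sigmaFiberEquiv ω)
  rw [Fintype.card_sigma] at h1
  rw [← h1]
  have h2 : ∀ j, Fintype.card {t : {t : ZMod f // PYW i m t = true} // ω t = j} + 1 = m j := by
    intro j
    rw [card_fibreY hW ω hω j]
    have := (hW.word j).1
    omega
  calc (∑ j, Fintype.card {t : {t : ZMod f // PYW i m t = true} // ω t = j}) + r =
      ∑ j : Fin r, (Fintype.card {t : {t : ZMod f // PYW i m t = true} // ω t = j} + 1) := by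
        rw [Finset.sum_add_distrib]
        simp
    _ = ∑ j, m j := Finset.sum_congr rfl fun j _ => h2 j

end

end Pool.Agent.Lib.MP_74d0c9_nt
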