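import Pool.Agent.Lib.MP_74d0c9_nt.YDirs
import Pool.Agent.Lib.MP_74d0c9_nt.XK3

/-! The tangent space of the Kisin modules at an arbitrary residual point, cyclic version. -/

set_option autoImplicit false

namespace Pool.Agent.Lib.MP_74d0c9_nt

open HahnSeries

universe u

section
variable {A : Type u} [CommRing A] {p f : ℕ} [Fact p.Prime] {P : ZMod f → Bool}
  {a : ZMod f → ℕ} {M : KisinModule f A}

theorem phi_un (n : ℤ) : phi A p (un n) = un (p * n) := by
  show phi A p (single n 1) = single (p * n) 1
  rw [phi_single]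

/-- the lattices intertwine `MBY` and `BY` -/
theorem TY_MBY (Q : ZMod f → GL (Fin 2) A) (hQ : IsPt P Q) (j : ZMod f) :
    (TY P Q j).1 * MBY p a P M Q j = BY p a P M j * (TY P Q (j - 1)).1.map (phi A p) := by
  have hval : ∀ Q : GL (Fin 2) A, (gc Q * tl 0).1 = gz Q * (tl (0 : A)).1 := fun Q => rfl
  have hmap : ∀ Q : GL (Fin 2) A, (gc Q * tl 0).1.map (phi A p) =
      gz Q * !![un (-p), 0; 0, 1] := by
    intro Q
    rw [hval, Matrix.map_mul, phi_gz, tl0_eq, mat2_map, map_zero, map_one, phi_un, mul_neg,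
      mul_one]
  have hsc : ∀ (q : ℤ) (X : Mat A), (!![un q, 0; 0, un q] : Mat A) * X =
      (un q : LaurentSeries A) • X := by
    intro q X
    have e : (!![un q, 0; 0, un q] : Mat A) = (un q : LaurentSeries A) • 1 := by
      rw [Matrix.one_fin_two]
      refine Matrix.ext fun r s => ?_
      rw [Matrix.smul_apply, smul_eq_mul]
      fin_cases r <;> fin_cases s
      · exact (mul_one _).symm
      · exact (mul_zero _).symm
      · exact (mul_zero _).symm
      · exact (mul_one _).symm
    rw [e, Matrix.smul_mul, Matrix.one_mul]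
  unfold MBY BY TY
  by_cases h1 : P j = true
  · rw [if_pos h1, if_pos h1, if_pos h1]
    by_cases h2 : P (j - 1) = true
    · rw [if_pos h2, if_pos h2, if_pos h2, hmap, hval, hQ j h1 h2, hsc, ← Matrix.mul_smul,
        Matrix.mul_assoc, tl0_eq, Matrix.mul_fin_two]
      congr 1
      refine Matrix.ext fun r s => ?_
      rw [Matrix.smul_apply, smul_eq_mul]
      have e : (un ((p : ℤ) - 1) : LaurentSeries A) * un (-p) = un (-1) := by
        rw [un_mul]; congr 1; ring
      fin_cases r <;> fin_cases s
      · show un (-1) * 1 + 0 * 0 = (un ((p : ℤ) - 1) : LaurentSeries A) * un (-p)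
        rw [e]; ring
      · show un (-1) * 0 + 0 * un (p - 1) = (un ((p : ℤ) - 1) : LaurentSeries A) * 0
        ring
      · show 0 * 1 + 1 * 0 = (un ((p : ℤ) - 1) : LaurentSeries A) * 0
        ring
      · show 0 * 0 + 1 * un (p - 1) = (un ((p : ℤ) - 1) : LaurentSeries A) * 1
        ring
    · rw [if_neg h2, if_neg h2, if_neg h2, Units.val_one, Matrix.one_mul, map_one_phi, hval]
      have e : (tl (0 : A)).1 * !![un 1, 0; 0, 1] = 1 := by
        rw [tl0_eq, Matrix.mul_fin_two, Matrix.one_fin_two]
        have := un_neg_mul (k := A) 1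
        apply mat2_congr
        · linear_combination this
        · ring
        · ring
        · ring
      calc gz (Q j) * (tl (0 : A)).1 * (!![un 1, 0; 0, 1] * gz (Q j)⁻¹) =
          gz (Q j) * ((tl (0 : A)).1 * !![un 1, 0; 0, 1]) * gz (Q j)⁻¹ := by
            simp only [Matrix.mul_assoc]
        _ = 1 := by rw [e, Matrix.mul_one, gz_mul_inv]
  · rw [if_neg h1, if_neg h1, if_neg h1, Units.val_one, Matrix.one_mul]
    by_cases h2 : P (j - 1) = true
    · rw [if_pos h2, if_pos h2, if_pos h2, hmap, hsc, ← Matrix.mul_smul]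
      congr 1
      refine Matrix.ext fun r s => ?_
      rw [Matrix.smul_apply, smul_eq_mul]
      fin_cases r <;> fin_cases s
      · show (1 : LaurentSeries A) = un (p : ℤ) * un (-p)
        rw [un_mul_neg]
      · show (0 : LaurentSeries A) = un (p : ℤ) * 0
        ring
      · show (0 : LaurentSeries A) = un (p : ℤ) * 0
        ring
      · show (un (p : ℤ) : LaurentSeries A) = un (p : ℤ) * 1
        ring
    · rw [if_neg h2, if_neg h2, if_neg h2, Units.val_one, map_one_phi, Matrix.mul_one]

end

section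
variable {k : Type u} [Field k] {p f : ℕ} [Fact p.Prime] [NeZero f] {P : ZMod f → Bool}
  {a : ZMod f → ℕ} {M : KisinModule f k}

/-- the tangent equation, with `z = 0` -/
theorem tangentY0 {V : Type} [Fintype V] (τ : V → ZMod f) (zv : V → Matrix (Fin 2) (Fin 2) k)
    (hτ : ∀ v, OutY P (τ v))
    (hspan : ∀ y : ZMod f → Mat k, (∀ j, MGE (y j) 0) →
        ∃ (c : ZMod f → Mat k) (x : V → k), (∀ j, MGE (c j) 0) ∧
          ∀ j, y j * BY p a P M j =
            c j * BY p a P M j - BY p a P M j * (c (j - 1)).map (phi k p) +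
              BY p a P M j * (zY τ zv x j).map HahnSeries.C)
    (Q : ZMod f → GL (Fin 2) k) (hQ : IsPt P Q)
    (y : ZMod f → Mat k) (hy : ∀ j, MGE (y j) 0) :
    ∃ (c : ZMod f → Mat k) (l w : ZMod f → k) (x : V → k), (∀ j, MGE (c j) 0) ∧
      (∀ j, P j = true → P (j - 1) = true → l j = l (j - 1)) ∧
      ∀ j, y j * MBY p a P M Q j =
        c j * MBY p a P M Q j - MBY p a P M Q j * (c (j - 1)).map (phi k p) +
          DKY p a P M Q l w (zY τ zv x) j := by
  have hnt : ∀ x : Bool, x = false → ¬ x = true := by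
    intro x hx
    rw [hx]
    exact fun h => Bool.noConfusion h
  have hPf : ∀ j, P j = true ∨ P j = false := fun j => by cases P j <;> simp
  have hgnc : ∀ x : LaurentSeries k, GE x 0 → GE (x - HahnSeries.C (x.coeff 0)) 1 := by
    intro x hx v hv
    rw [coeff_sub, HahnSeries.C_apply]
    rcases lt_or_ge v 0 with h | h
    · rw [hx v h, coeff_single_of_ne (by omega), sub_zero]
    · rw [show v = 0 by omega, coeff_single_same, sub_self]
  -- the element of `w`
  obtain ⟨wj, hwj⟩ : ∃ wj : ZMod f → k, wj = fun j => (y j 0 1).coeff 0 := ⟨_, rfl⟩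
  -- the integral family
  obtain ⟨E, hE⟩ : ∃ E : ZMod f → Mat k, E = fun j =>
      !![y j 0 0, un (-1) * (y j 0 1 - HahnSeries.C (wj j)); un 1 * y j 1 0, y j 1 1] := ⟨_, rfl⟩
  obtain ⟨H, hH⟩ : ∃ H : ZMod f → Mat k, H = fun j => if P j = true then
      gz (Q j) * E j * gz (Q j)⁻¹ else y j := ⟨_, rfl⟩
  have hEint : ∀ j, MGE (E j) 0 := by
    intro j
    rw [hE]
    refine MGE_mk (hy j 0 0) ?_ (((hy j 1 0).un_mul 1).mono (by omega)) (hy j 1 1)
    rw [hwj]
    exact ((hgnc _ (hy j 0 1)).un_mul (-1)).mono (by omega)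
  have hHint : ∀ j, MGE (H j) 0 := by
    intro j
    rw [hH]
    dsimp only
    split_ifs
    · have h1 := (((gz_MGE (Q j)).mul (hEint j)).1.mul (gz_MGE (Q j)⁻¹)).1
      exact h1.mono (by omega)
    · exact hy j
  obtain ⟨C, x, hC, hCeq⟩ := hspan H hHint
  -- the lattice
  obtain ⟨K, hK⟩ : ∃ K : ZMod f → Mat k, K = fun j =>
      gz (Q j)⁻¹ * C j * gz (Q j) := ⟨_, rfl⟩
  obtain ⟨γ, hγ⟩ : ∃ γ : ZMod f → k, γ = fun j => (K j 1 0).coeff 0 := ⟨_, rfl⟩
  obtain ⟨c, hc⟩ : ∃ c : ZMod f → Mat k, c = fun j => if P j = true then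
      !![K j 0 0, un 1 * K j 0 1; un (-1) * (K j 1 0 - HahnSeries.C (γ j)), K j 1 1] else C j :=
    ⟨_, rfl⟩
  have hKint : ∀ j, MGE (K j) 0 := by
    intro j
    rw [hK]
    have h1 := (((gz_MGE (Q j)⁻¹).mul (hC j)).1.mul (gz_MGE (Q j))).1
    exact h1.mono (by omega)
  have hcint : ∀ j, MGE (c j) 0 := by
    intro j
    rw [hc]
    dsimp only
    split_ifs
    · refine MGE_mk (hKint j 0 0) (((hKint j 0 1).un_mul 1).mono (by omega)) ?_ (hKint j 1 1)
      rw [hγ]
      exact ((hgnc _ (hKint j 1 0)).un_mul (-1)).mono (by omega)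
    · exact hC j
  -- the constants vanish at the words
  have hz0 : ∀ j, ¬ OutY P j → (zY τ zv x j).map (HahnSeries.C : k → LaurentSeries k) = 0 := by
    intro j hj
    have e : zY τ zv x j = 0 := by
      unfold zY
      refine Finset.sum_eq_zero fun v _ => ?_
      rw [if_neg]
      rintro rfl
      exact hj (hτ v)
    rw [e]
    exact const_zero
  -- the element of `l` is constant along the words
  have hmid : ∀ j, P j = true → P (j - 1) = true → γ j = γ (j - 1) := by
    intro j h3 h4
    have hno : ¬ OutY P j := fun h => hnt _ h.1 h3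
    have e1 := hCeq j
    rw [hz0 j hno, Matrix.mul_zero, add_zero, ← LY_spec (a := a) (P := P) (M := M) j
      ((C (j - 1)).map (phi k p)), ← Matrix.sub_mul, ← sub_eq_zero, ← Matrix.sub_mul] at e1
    have e2 := sub_eq_zero.1 (BY_cancel e1)
    rw [LY_in hno] at e2
    have e3 : H j = gz (Q j) * E j * gz (Q j)⁻¹ := by
      rw [hH]
      exact if_pos h3
    have e4 : Q j = Q (j - 1) := hQ j h3 h4
    rw [e3] at e2
    have e5 : E j = K j - (K (j - 1)).map (phi k p) := by
      have h5 := congrArg (fun M => gz (Q j)⁻¹ * M * gz (Q j)) e2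
      have h6 : gz (Q j)⁻¹ * (gz (Q j) * E j * gz (Q j)⁻¹) * gz (Q j) = E j := by
        calc _ = (gz (Q j)⁻¹ * gz (Q j)) * E j * (gz (Q j)⁻¹ * gz (Q j)) := by
              simp only [Matrix.mul_assoc]
          _ = _ := by rw [gz_inv_mul, Matrix.one_mul, Matrix.mul_one]
      rw [h6, Matrix.mul_sub, Matrix.sub_mul] at h5
      rw [h5, hK]
      dsimp only
      rw [Matrix.map_mul, Matrix.map_mul, phi_gz, phi_gz, ← e4]
    have e6 := congrArg (fun M : Mat k => (M 1 0).coeff 0) e5
    have e7 : (E j 1 0).coeff 0 = 0 := by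
      rw [hE]
      show (un 1 * y j 1 0).coeff 0 = 0
      exact ((hy j 1 0).un_mul 1) 0 (by omega)
    have e8 : ((K j - (K (j - 1)).map (phi k p)) 1 0).coeff 0 =
        (K j 1 0).coeff 0 - (K (j - 1) 1 0).coeff 0 := by
      show (K j 1 0 - phi k p (K (j - 1) 1 0)).coeff 0 = _
      rw [coeff_sub, phi_coeff_zero']
    rw [e7, e8] at e6
    rw [hγ]
    exact (sub_eq_zero.1 e6.symm)
  -- the relations
  have hCT : ∀ j, C j * (TY P Q j).1 = (TY P Q j).1 * (c j +
      if P j = true then (HahnSeries.C (γ j) : LaurentSeries k) • !![0, 0; un (-1), 0] else 0) := by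
    intro j
    by_cases h3 : P j = true
    · have e1 : TY P Q j = gc (Q j) * tl 0 := if_pos h3
      have e2 : c j + (if P j = true then (HahnSeries.C (γ j) : LaurentSeries k) •
          !![0, 0; un (-1), 0] else 0) = !![K j 0 0, un 1 * K j 0 1; un (-1) * K j 1 0,
            K j 1 1] := by
        rw [if_pos h3, hc]
        dsimp only
        rw [if_pos h3]
        refine Matrix.ext fun r s => ?_
        rw [Matrix.add_apply, Matrix.smul_apply, smul_eq_mul]
        fin_cases r <;> fin_cases s
        · show K j 0 0 + HahnSeries.C (γ j) * 0 = K j 0 0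
          ring
        · show un 1 * K j 0 1 + HahnSeries.C (γ j) * 0 = un 1 * K j 0 1
          ring
        · show un (-1) * (K j 1 0 - HahnSeries.C (γ j)) + HahnSeries.C (γ j) * un (-1) =
            un (-1) * K j 1 0
          ring
        · show K j 1 1 + HahnSeries.C (γ j) * 0 = K j 1 1
          ring
      rw [e2, e1, ← conj_lattice]
      have e3 : C j = gz (Q j) * K j * gz (Q j)⁻¹ := by
        rw [hK]
        dsimp only
        calc C j = (gz (Q j) * gz (Q j)⁻¹) * C j * (gz (Q j) * gz (Q j)⁻¹) := by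
              rw [gz_mul_inv, Matrix.one_mul, Matrix.mul_one]
          _ = _ := by simp only [Matrix.mul_assoc]
      have e4 : K j = !![K j 0 0, un (-1) * (un 1 * K j 0 1); un 1 * (un (-1) * K j 1 0),
          K j 1 1] := by
        rw [← mul_assoc, ← mul_assoc, un_neg_mul, un_mul_neg, one_mul, one_mul]
        exact mat_eta _
      rw [← e4, ← e3]
    · have e1 : TY P Q j = 1 := if_neg h3
      rw [if_neg h3, add_zero, e1, Units.val_one, Matrix.mul_one, Matrix.one_mul, hc]
      dsimp only
      rw [if_neg h3]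
  have hHT : ∀ j, H j * (TY P Q j).1 = (TY P Q j).1 * (y j -
      if P j = true then (HahnSeries.C (wj j) : LaurentSeries k) • !![0, 1; 0, 0] else 0) := by
    intro j
    by_cases h3 : P j = true
    · have e1 : TY P Q j = gc (Q j) * tl 0 := if_pos h3
      have e2 : y j - (if P j = true then (HahnSeries.C (wj j) : LaurentSeries k) •
          !![0, 1; 0, 0] else 0) = !![y j 0 0, y j 0 1 - HahnSeries.C (wj j); y j 1 0,
            y j 1 1] := by
        rw [if_pos h3]
        refine Matrix.ext fun r s => ?_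
        rw [Matrix.sub_apply, Matrix.smul_apply, smul_eq_mul]
        fin_cases r <;> fin_cases s
        · show y j 0 0 - HahnSeries.C (wj j) * 0 = y j 0 0
          ring
        · show y j 0 1 - HahnSeries.C (wj j) * 1 = y j 0 1 - HahnSeries.C (wj j)
          ring
        · show y j 1 0 - HahnSeries.C (wj j) * 0 = y j 1 0
          ring
        · show y j 1 1 - HahnSeries.C (wj j) * 0 = y j 1 1
          ring
      rw [e2, e1, ← conj_lattice, hH, hE]
      dsimp only
      rw [if_pos h3]
    · have e1 : TY P Q j = 1 := if_neg h3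
      rw [if_neg h3, sub_zero, e1, Units.val_one, Matrix.mul_one, Matrix.one_mul, hH]
      exact if_neg h3
  -- the equation
  have hTM := TY_MBY (p := p) (a := a) (P := P) (M := M) Q hQ
  have key : ∀ j, (y j - if P j = true then (HahnSeries.C (wj j) : LaurentSeries k) •
        !![0, 1; 0, 0] else 0) * MBY p a P M Q j =
      (c j + if P j = true then (HahnSeries.C (γ j) : LaurentSeries k) •
        !![0, 0; un (-1), 0] else 0) * MBY p a P M Q j -
      MBY p a P M Q j * ((c (j - 1)).map (phi k p) +
        if P (j - 1) = true then (HahnSeries.C (γ (j - 1)) : LaurentSeries k) •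
        !![0, 0; un (-p), 0] else 0) +
      MBY p a P M Q j * (zY τ zv x j).map HahnSeries.C := by
    intro j
    refine (Units.mul_right_inj (TY P Q j)).1 ?_
    have e2 : H j * BY p a P M j * (TY P Q (j - 1)).1.map (phi k p) =
        (C j * BY p a P M j - BY p a P M j * (C (j - 1)).map (phi k p) +
          BY p a P M j * (zY τ zv x j).map HahnSeries.C) *
            (TY P Q (j - 1)).1.map (phi k p) := by rw [hCeq j]
    rw [Matrix.add_mul, Matrix.sub_mul, Matrix.mul_assoc, Matrix.mul_assoc (C j), ← hTM,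
      ← Matrix.mul_assoc (H j), hHT, ← Matrix.mul_assoc (C j), hCT,
      Matrix.mul_assoc (BY p a P M j) ((C (j - 1)).map (phi k p)), ← Matrix.map_mul,
      hCT (j - 1), Matrix.map_mul, ← Matrix.mul_assoc (BY p a P M j), ← hTM] at e2
    have e4 : (c (j - 1) + if P (j - 1) = true then
        (HahnSeries.C (γ (j - 1)) : LaurentSeries k) • !![0, 0; un (-1), 0] else 0).map
          (phi k p) = (c (j - 1)).map (phi k p) +
        if P (j - 1) = true then (HahnSeries.C (γ (j - 1)) : LaurentSeries k) •
        !![0, 0; un (-p), 0] else 0 := by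
      rw [map_add_phi]
      congr 1
      split_ifs
      · refine Matrix.ext fun r s => ?_
        rw [Matrix.map_apply, Matrix.smul_apply, Matrix.smul_apply, smul_eq_mul, smul_eq_mul,
          map_mul, phi_C]
        congr 1
        fin_cases r <;> fin_cases s
        · exact map_zero _
        · exact map_zero _
        · show phi k p (un (-1)) = un (-p)
          rw [phi_un, mul_neg, mul_one]
        · exact map_zero _
      · exact Matrix.map_zero _ (map_zero _)
    have e5 : BY p a P M j * (zY τ zv x j).map HahnSeries.C *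
        (TY P Q (j - 1)).1.map (phi k p) = (TY P Q j).1 * MBY p a P M Q j *
          (zY τ zv x j).map HahnSeries.C := by
      by_cases h : OutY P j
      · have h1 : TY P Q (j - 1) = 1 := if_neg (hnt _ h.2)
        rw [hTM, h1, Units.val_one, map_one_phi, Matrix.mul_one, Matrix.mul_one]
      · rw [hz0 j h, Matrix.mul_zero, Matrix.zero_mul, Matrix.mul_zero]
    rw [e4, e5] at e2
    rw [Matrix.mul_add, Matrix.mul_sub]
    simp only [← Matrix.mul_assoc] at e2 ⊢
    exact e2
  -- the parameters
  refine ⟨c, fun j => -γ j, wj, x, hcint,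
    fun j h3 h4 => congrArg Neg.neg (hmid j h3 h4), fun j => ?_⟩
  have e1 := key j
  unfold DKY
  dsimp only
  rcases hPf j with h3 | h3
  · have hno : ¬ OutY P j := fun h => hnt _ h.1 h3
    rw [hz0 j hno, Matrix.mul_zero, add_zero, if_pos h3, if_pos h3, Matrix.sub_mul,
      Matrix.add_mul, Matrix.mul_add, smul_mul', smul_mul'] at e1
    rw [if_pos h3]
    rcases hPf (j - 1) with h4 | h4
    · have eM : (MBY p a P M Q j : Mat k) = !![1, 0; 0, un (p - 1)] := by
        unfold MBY
        rw [if_pos h3, if_pos h4]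
      have e2 : (HahnSeries.C (γ j) : LaurentSeries k) • (!![0, 0; un (-1), 0] *
          MBY p a P M Q j) = MBY p a P M Q j *
          ((HahnSeries.C (γ (j - 1)) : LaurentSeries k) • !![0, 0; un (-p), 0]) := by
        rw [mul_smul', hmid j h3 h4, eM]
        congr 1
        rw [Matrix.mul_fin_two, Matrix.mul_fin_two]
        have e3 : (un ((p : ℤ) - 1) : LaurentSeries k) * un (-p) = un (-1) := by
          rw [un_mul]; congr 1; ring
        apply mat2_congr
        · ring
        · ring
        · linear_combination -e3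
        · ring
      rw [if_pos h4, e2] at e1
      rw [if_pos h4, sub_zero]
      rw [sub_eq_iff_eq_add] at e1
      rw [e1]
      abel
    · have eM : (MBY p a P M Q j : Mat k) = !![un 1, 0; 0, 1] * gz (Q j)⁻¹ := by
        unfold MBY
        rw [if_pos h3, if_neg (hnt _ h4)]
      have e2 : (HahnSeries.C (γ j) : LaurentSeries k) • (!![0, 0; un (-1), 0] *
          MBY p a P M Q j) = (HahnSeries.C (γ j) : LaurentSeries k) •
          (!![0, 0; 1, 0] * gz (Q j)⁻¹) := by
        rw [eM, ← Matrix.mul_assoc, Matrix.mul_fin_two]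
        congr 2
        apply mat2_congr
        · ring
        · ring
        · linear_combination un_neg_mul (k := k) 1
        · ring
      rw [if_neg (hnt _ h4), e2, Matrix.mul_zero, add_zero] at e1
      rw [if_neg (hnt _ h4), map_neg, neg_smul, sub_neg_eq_add]
      rw [sub_eq_iff_eq_add] at e1
      rw [e1]
      abel
  · rw [if_neg (hnt _ h3), if_neg (hnt _ h3), sub_zero, add_zero, Matrix.mul_add] at e1
    rw [if_neg (hnt _ h3)]
    rcases hPf (j - 1) with h4 | h4
    · have hno : ¬ OutY P j := fun h => hnt _ h.2 h4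
      have eM : (MBY p a P M Q j : Mat k) = gz (Q (j - 1)) * !![1, 0; 0, un p] := by
        unfold MBY
        rw [if_neg (hnt _ h3), if_pos h4]
      have e2 : MBY p a P M Q j *
          ((HahnSeries.C (γ (j - 1)) : LaurentSeries k) • !![0, 0; un (-p), 0]) =
          (HahnSeries.C (γ (j - 1)) : LaurentSeries k) • (gz (Q (j - 1)) * !![0, 0; 1, 0]) := by
        rw [mul_smul', eM, Matrix.mul_assoc, Matrix.mul_fin_two]
        congr 2
        apply mat2_congr
        · ring
        · ring
        · linear_combination un_mul_neg (k := k) (p : ℤ)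
        · ring
      rw [if_pos h4, e2, hz0 j hno, Matrix.mul_zero, add_zero] at e1
      rw [if_pos h4, map_neg, neg_smul, e1]
      abel
    · rw [if_neg (hnt _ h4), Matrix.mul_zero, add_zero] at e1
      rw [if_neg (hnt _ h4), e1]

/-- every first order deformation, as a Kisin module, is a sum of an integral coboundary and of
the directions -/
theorem tangentY {V : Type} [Fintype V] (τ : V → ZMod f) (zv : V → Matrix (Fin 2) (Fin 2) k)
    (hτ : ∀ v, OutY P (τ v))
    (hspan : ∀ y : ZMod f → Mat k, (∀ j, MGE (y j) 0) →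
        ∃ (c : ZMod f → Mat k) (x : V → k), (∀ j, MGE (c j) 0) ∧
          ∀ j, y j * BY p a P M j =
            c j * BY p a P M j - BY p a P M j * (c (j - 1)).map (phi k p) +
              BY p a P M j * (zY τ zv x j).map HahnSeries.C)
    (Q : ZMod f → GL (Fin 2) k) (hQ : IsPt P Q)
    (y : ZMod f → Mat k) (hy : ∀ j, MGE (y j) 0) (z : ZMod f → Matrix (Fin 2) (Fin 2) k) :
    ∃ (c : ZMod f → Mat k) (l w : ZMod f → k) (x : V → k), (∀ j, MGE (c j) 0) ∧
      (∀ j, P j = true → P (j - 1) = true → l j = l (j - 1)) ∧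
      ∀ j, y j * MBY p a P M Q j + MBY p a P M Q j * (z j).map HahnSeries.C =
        c j * MBY p a P M Q j - MBY p a P M Q j * (c (j - 1)).map (phi k p) +
          DKY p a P M Q l w (zY τ zv x) j := by
  obtain ⟨c, l, w, x, hc, hl, h⟩ := tangentY0 τ zv hτ hspan Q hQ
    (fun j => y j + (z (j + 1)).map HahnSeries.C) (fun j => (hy j).add' (const_MGE _))
  refine ⟨fun j => c j - (z (j + 1)).map HahnSeries.C, l, w, x,
    fun j => MGE_sub2 (hc j) (const_MGE _), hl, fun j => ?_⟩
  have h1 := h j
  have e1 : (c (j - 1) - (z (j - 1 + 1)).map (HahnSeries.C : k → LaurentSeries k)).map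
      (phi k p) = (c (j - 1)).map (phi k p) - (z j).map HahnSeries.C := by
    rw [sub_add_cancel, map_sub_phi, const_phi]
  rw [Matrix.add_mul] at h1
  have h2 := eq_sub_of_add_eq h1
  show _ = (c j - (z (j + 1)).map HahnSeries.C) * _ - _ * (c (j - 1) -
    (z (j - 1 + 1)).map HahnSeries.C).map (phi k p) + _
  rw [e1, Matrix.sub_mul, Matrix.mul_sub, h2]
  abel

end

end Pool.Agent.Lib.MP_74d0c9_nt
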