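import Pool.Agent.Lib.MP_74d0c9_nt.YIso
import Pool.Agent.Lib.MP_74d0c9_nt.YPat
import Pool.Agent.Lib.MP_74d0c9_nt.YTan

/-! The active words depend only on the étale `φ`-module. -/

set_option autoImplicit false

namespace Pool.Agent.Lib.MP_74d0c9_nt

open HahnSeries

universe u

section
variable {k : Type u} [Field k] {p f : ℕ} [Fact p.Prime] {a : ZMod f → ℕ} {P : ZMod f → Bool}

/-- the left factors of the Kisin module at the point `Q` -/
noncomputable def ptX (P : ZMod f → Bool) (M : KisinModule f k) (Q : ZMod f → GL (Fin 2) k)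
    (j : ZMod f) : GL (Fin 2) (PowerSeries k) :=
  if P j = true then (if P (j - 1) = true then cps sw else 1)
    else if P (j - 1) = true then cps (Q (j - 1) * sw) else M.X j

/-- the right factors of the Kisin module at the point `Q` -/
noncomputable def ptZ (P : ZMod f → Bool) (M : KisinModule f k) (Q : ZMod f → GL (Fin 2) k)
    (j : ZMod f) : GL (Fin 2) k :=
  if P j = true then (if P (j - 1) = true then sw else (Q j)⁻¹)
    else if P (j - 1) = true then sw else M.Z j

/-- the Kisin module at the point `Q` -/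
noncomputable def ptY (P : ZMod f → Bool) (M : KisinModule f k) (Q : ZMod f → GL (Fin 2) k) :
    KisinModule f k where
  X := ptX P M Q
  Z := ptZ P M Q

omit [Fact p.Prime] in
theorem ptY_frob (hp : 1 ≤ p) (hpat : IsPatY p a P) (M : KisinModule f k)
    (Q : ZMod f → GL (Fin 2) k) (j : ZMod f) : (ptY P M Q).frob a j = MBY p a P M Q j := by
  have hPf : ∀ j, P j = true ∨ P j = false := fun j => by cases P j <;> simp
  have hnt : ∀ x : Bool, x = false → ¬ x = true := by
    intro x hx
    rw [hx]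
    exact fun h => Bool.noConfusion h
  have hpz : ((p - 1 : ℕ) : ℤ) = (p : ℤ) - 1 := by
    push_cast [Nat.cast_sub hp]
    ring
  have hfrob : (ptY P M Q).frob a j = gx (ptX P M Q j) * du (a j) * gz (ptZ P M Q j) := rfl
  rw [hfrob]
  unfold ptX ptZ MBY
  rcases hPf j with h1 | h1
  · rcases hPf (j - 1) with h2 | h2
    · simp only [if_pos h1, if_pos h2]
      rw [gx_cps, sw_du_sw, hpat.mid j h1 h2, hpz]
    · simp only [if_pos h1, if_neg (hnt _ h2)]
      rw [gx_one, Matrix.one_mul, hpat.start j h1 h2, du_two]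
      rfl
  · rcases hPf (j - 1) with h2 | h2
    · simp only [if_neg (hnt _ h1), if_pos h2]
      rw [gx_cps, gz_mul, Matrix.mul_assoc, Matrix.mul_assoc, ← Matrix.mul_assoc (gz sw),
        sw_du_sw, hpat.stop j h1 h2]
    · simp only [if_neg (hnt _ h1), if_neg (hnt _ h2)]
      rfl

theorem ptY_hom (hp : 1 ≤ p) (hpat : IsPatY p a P) (M : KisinModule f k)
    (Q : ZMod f → GL (Fin 2) k) (hQ : IsPt P Q) :
    IsHom p ((ptY P M Q).frob a) (BY p a P M) fun j => (TY P Q j).1 := by
  intro j
  dsimp only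
  rw [ptY_frob hp hpat]
  exact TY_MBY (p := p) (a := a) Q hQ j

/-- the matrices `Y` at the pattern -/
theorem ptY_Y (M : KisinModule f k) (Q : ZMod f → GL (Fin 2) k) {j : ZMod f} (h : P j = true) :
    (P (j - 1) = false → (ptY P M Q).Y j 1 1 = 0) ∧
      (P (j - 1) = true → (ptY P M Q).Y j 1 0 = 0) := by
  have hnt : ∀ x : Bool, x = false → ¬ x = true := by
    intro x hx
    rw [hx]
    exact fun h => Bool.noConfusion h
  have hZ : ptZ P M Q (j + 1) = sw := by
    unfold ptZ
    rw [add_sub_cancel_right]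
    by_cases h1 : P (j + 1) = true
    · rw [if_pos h1, if_pos h]
    · rw [if_neg h1, if_pos h]
  have hYG : (ptY P M Q).Y j = (sw * cg (ptX P M Q j) : GL (Fin 2) k).1 := by
    have e : (ptY P M Q).Y j = (ptZ P M Q (j + 1) * cg (ptX P M Q j)).1 := rfl
    rw [e, hZ]
  constructor
  · intro h2
    have e : ptX P M Q j = 1 := by
      unfold ptX
      rw [if_pos h, if_neg (hnt _ h2)]
    have e2 : cg (1 : GL (Fin 2) (PowerSeries k)) = 1 := map_one _
    rw [hYG, e, e2, mul_one]
    rfl
  · intro h2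
    have e : ptX P M Q j = cps sw := by
      unfold ptX
      rw [if_pos h, if_pos h2]
    have e2 : (sw * sw : GL (Fin 2) k) = 1 := by
      apply Units.ext
      show (!![0, 1; 1, 0] : Matrix (Fin 2) (Fin 2) k) * !![0, 1; 1, 0] = 1
      rw [Matrix.mul_fin_two, Matrix.one_fin_two]
      apply mat2_congr <;> ring
    rw [hYG, e, cg_cps, e2]
    rfl

variable [NeZero f]

/-- an active word of `M` is active for all Kisin modules over the same étale `φ`-module -/
theorem active_iso' (hp : 5 ≤ p) (ha : ∀ j, 1 ≤ a j ∧ a j ≤ p) (M M' : KisinModule f k)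
    (hM : ∀ (K : Type u) [Field K] (ι : k →+* K), Irred p fun j => (M.frob a j).map (lmap ι))
    (S : ZMod f → GL (Fin 2) (LaurentSeries k))
    (hS : IsHom p (M.frob a) (M'.frob a) fun j => (S j).1) {i' : ZMod f} {m' : ℕ}
    (hact' : Active p f a M i' m') : Active p f a M' i' m' := by
  obtain ⟨r, i, m, hW, hact⟩ := exists_words hp M hM
  obtain ⟨t0, ht0⟩ := exists_outY hW
  have hpat : IsPatY p a (PYW i m) := isPatY_PYW hW
  obtain ⟨N, T, Q0, g0, h0, hT, hQ0, hg0, hh⟩ := normal_formY (by omega) (fun j => (ha j).2) M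
    hpat
    (by
      intro j hj hj'
      obtain ⟨j', s, hs, ht⟩ := PYW_iff.1 hj
      have hs0 : s = 0 := by
        by_contra hc
        exact PYW_false.1 hj' ⟨j', s - 1, by omega, posY_pred j' s (by omega) j ht⟩
      rw [ht, hs0, Nat.cast_zero, add_zero]
      exact ((hact _ _).2 ⟨j', rfl, rfl⟩).2.1)
    (by
      intro j hj hj'
      obtain ⟨j', s, hs, ht⟩ := PYW_iff.1 hj
      obtain ⟨j1, s1, hs1, ht1⟩ := PYW_iff.1 hj'
      have h1 := posY_succ j1 s1 j ht1
      rw [ht] at h1
      obtain ⟨h2, h3⟩ := hW.injY (by omega) (by omega) h1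
      rw [ht]
      exact ((hact _ _).2 ⟨j', rfl, rfl⟩).2.2 s (by omega) (by omega)) ht0
  have hact0 : ∀ (i' : ZMod f) (m' : ℕ), Active p f a N i' m' ↔ ∃ j, i' = i j ∧ m' = m j :=
    fun i' m' => (active_of_iso hp ha M N h0 hh i' m').symm.trans (hact i' m')
  have hno : NoWordY p a (PYW i m) N := by
    intro i' m' hw hout h1 h2
    obtain ⟨j, hj, hm⟩ := (hact0 i' m').1 ⟨hw, h1, h2⟩
    have h3 := hout 0 (by have := hw.1; omega)
    rw [Nat.cast_zero, add_zero] at h3
    refine (outY_iff hW i').1 h3 ⟨j, 0, by have := (hW.word j).1; omega, ?_⟩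
    rw [hj, Nat.cast_zero, add_zero]
  have hB : ∀ (K : Type u) [Field K] (ι : k →+* K),
      Irred p fun j => (BY p a (PYW i m) N j).map (lmap ι) := by
    intro K _ ι
    have h1 := hT.inv.lmap ι
    exact irred_of_isoY (fun j => Matrix.GeneralLinearGroup.map (lmap ι) (T j)⁻¹) h1 (hM K ι)
  have hT' : IsHom p (M'.frob a) (BY p a (PYW i m) N) fun j => (T j * (S j)⁻¹).1 :=
    hS.inv.comp hT
  obtain ⟨g, Q, hQ, hg⟩ := residual_pointY hp ha hpat N hno ht0.1 hB M' _ hT'
  have hpt := ptY_hom (k := k) (p := p) (a := a) (by omega) hpat N Q hQ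
  have hG : IsHom p ((ptY (PYW i m) N Q).frob a) (M'.frob a) fun j => gx (g j) := by
    have h1 : IsHom p ((ptY (PYW i m) N Q).frob a) (M'.frob a)
        fun j => ((T j * (S j)⁻¹)⁻¹ * TY (PYW i m) Q j).1 := hpt.comp hT'.inv
    have h2 : (fun j => ((T j * (S j)⁻¹)⁻¹ * TY (PYW i m) Q j).1) = fun j => gx (g j) := by
      funext j
      rw [Units.val_mul, ← hg j, ← Matrix.mul_assoc, ← Units.val_mul, inv_mul_cancel,
        Units.val_one, Matrix.one_mul]
    rw [h2] at h1
    exact h1
  rw [← active_of_iso hp ha _ M' g hG]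
  obtain ⟨j, rfl, rfl⟩ := (hact i' m').1 hact'
  have hw := hW.word j
  have hin : ∀ s : ℕ, s + 1 < m j → PYW i m (i j + s) = true := fun s hs =>
    PYW_iff.2 ⟨j, s, hs, rfl⟩
  have hin0 : PYW i m (i j) = true := by
    have := hin 0 (by have := hw.1; omega)
    rwa [Nat.cast_zero, add_zero] at this
  refine ⟨hw, (ptY_Y N Q hin0).1 ?_, fun s hs hs' => (ptY_Y N Q (hin s (by omega))).2 ?_⟩
  · rw [PYW_false]
    rintro ⟨j', s, hs, ht⟩
    have h1 := posY_succ j' s (i j) ht
    have h2 : i j + ((0 : ℕ) : ZMod f) = i j' + ((s + 1 : ℕ) : ZMod f) := by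
      rw [Nat.cast_zero, add_zero]
      exact h1
    have h3 := (hW.injY (by have := hw.1; omega) (by omega) h2).2
    omega
  · have e : i j + (s : ZMod f) - 1 = i j + ((s - 1 : ℕ) : ZMod f) := by
      rw [Nat.cast_sub hs]
      push_cast
      ring
    rw [e]
    exact hin (s - 1) (by omega)

/-- The active words of a Kisin module depend only on its étale `φ`-module. -/
theorem active_iso (hp : 5 ≤ p) (ha : ∀ j, 1 ≤ a j ∧ a j ≤ p) (M M' : KisinModule f k)
    (hM : ∀ (K : Type u) [Field K] (ι : k →+* K), Irred p fun j => (M.frob a j).map (lmap ι))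
    (S : ZMod f → GL (Fin 2) (LaurentSeries k))
    (hS : IsHom p (M.frob a) (M'.frob a) fun j => (S j).1) (i : ZMod f) (m : ℕ) :
    Active p f a M i m ↔ Active p f a M' i m := by
  have hM' : ∀ (K : Type u) [Field K] (ι : k →+* K),
      Irred p fun j => (M'.frob a j).map (lmap ι) := by
    intro K _ ι
    have h1 := hS.inv.lmap ι
    exact irred_of_isoY (fun j => Matrix.GeneralLinearGroup.map (lmap ι) (S j)⁻¹) h1 (hM K ι)
  exact ⟨active_iso' hp ha M M' hM S hS, active_iso' hp ha M' M hM' (fun j => (S j)⁻¹) hS.inv⟩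

end

end Pool.Agent.Lib.MP_74d0c9_nt
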