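import Pool.Agent.Lib.MP_74d0c9_nt.YSpan
import Pool.Agent.Lib.MP_74d0c9_nt.UNF

/-! The tangent space modulo the coboundaries: a basis of constants outside the words. -/

set_option autoImplicit false

namespace Pool.Agent.Lib.MP_74d0c9_nt

open HahnSeries

universe u

section
variable {k : Type u} [Field k] {p : ℕ} [Fact p.Prime] {f : ℕ} [NeZero f] {a : ZMod f → ℕ}
  {P : ZMod f → Bool} {M : KisinModule f k}

theorem MGE_sub2 {X Y : Mat k} {n : ℤ} (hX : MGE X n) (hY : MGE Y n) : MGE (X - Y) n := by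
  intro r s v hv
  rw [Matrix.sub_apply, coeff_sub, hX r s v hv, hY r s v hv, sub_zero]

/-- the operator -/
noncomputable def dY (p : ℕ) [Fact p.Prime] (a : ZMod f → ℕ) (P : ZMod f → Bool)
    (M : KisinModule f k) :
    ((ZMod f → Mat k) × (ZMod f → Matrix (Fin 2) (Fin 2) k)) →ₗ[k] (ZMod f → Mat k) where
  toFun X j := X.1 j - LY a P M j ((X.1 (j - 1)).map (phi k p) - (X.2 j).map HahnSeries.C)
  map_add' X Y := by
    funext j
    show (X.1 j + Y.1 j) - LY a P M j ((X.1 (j - 1) + Y.1 (j - 1)).map (phi k p) -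
      (X.2 j + Y.2 j).map HahnSeries.C) = (X.1 j - LY a P M j ((X.1 (j - 1)).map (phi k p) -
        (X.2 j).map HahnSeries.C)) + (Y.1 j - LY a P M j ((Y.1 (j - 1)).map (phi k p) -
        (Y.2 j).map HahnSeries.C))
    rw [map_add_phi, const_add, add_sub_add_comm, LY_add]
    abel
  map_smul' c X := by
    funext j
    show (c • X.1 j) - LY a P M j ((c • X.1 (j - 1)).map (phi k p) -
      (c • X.2 j).map HahnSeries.C) = c • (X.1 j - LY a P M j ((X.1 (j - 1)).map (phi k p) -
        (X.2 j).map HahnSeries.C))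
    have e : (c • X.1 (j - 1)).map (phi k p) =
        (HahnSeries.C c : LaurentSeries k) • (X.1 (j - 1)).map (phi k p) := by
      rw [smul_eq_C]
      refine Matrix.ext fun r s => ?_
      show phi k p (HahnSeries.C c * X.1 (j - 1) r s) = HahnSeries.C c * phi k p (X.1 (j - 1) r s)
      rw [map_mul, phi_C]
    rw [e, const_smul, ← smul_sub, LY_smul, smul_eq_C, smul_eq_C, smul_sub]

theorem dY_apply (c : ZMod f → Mat k) (ζ : ZMod f → Matrix (Fin 2) (Fin 2) k) (j : ZMod f) :
    dY p a P M (c, ζ) j = c j - LY a P M j ((c (j - 1)).map (phi k p) -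
      (ζ j).map HahnSeries.C) := rfl

/-- the coefficients -/
noncomputable def leadY (k : Type u) [Field k] (f : ℕ) (n : ℤ) :
    (ZMod f → Mat k) →ₗ[k] (ZMod f → Matrix (Fin 2) (Fin 2) k) where
  toFun X j := lead (X j) n
  map_add' _ _ := rfl
  map_smul' _ _ := rfl

/-- the polynomial of degree one -/
noncomputable def polyY (k : Type u) [Field k] (f : ℕ) :
    ((ZMod f → Matrix (Fin 2) (Fin 2) k) × (ZMod f → Matrix (Fin 2) (Fin 2) k)) →ₗ[k]
      (ZMod f → Mat k) where
  toFun X j := (X.1 j).map HahnSeries.C + (un 1 : LaurentSeries k) • (X.2 j).map HahnSeries.C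
  map_add' X Y := by
    funext j
    show (X.1 j + Y.1 j).map HahnSeries.C + (un 1 : LaurentSeries k) •
      (X.2 j + Y.2 j).map HahnSeries.C = ((X.1 j).map HahnSeries.C + (un 1 : LaurentSeries k) •
        (X.2 j).map HahnSeries.C) + ((Y.1 j).map HahnSeries.C + (un 1 : LaurentSeries k) •
        (Y.2 j).map HahnSeries.C)
    rw [const_add, const_add, smul_add]
    abel
  map_smul' c X := by
    funext j
    show (c • X.1 j).map HahnSeries.C + (un 1 : LaurentSeries k) •
      (c • X.2 j).map HahnSeries.C = c • ((X.1 j).map HahnSeries.C + (un 1 : LaurentSeries k) •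
        (X.2 j).map HahnSeries.C)
    rw [const_smul, const_smul, smul_eq_C, smul_add, smul_smul, smul_smul, mul_comm]

theorem polyY_apply (c0 c1 : ZMod f → Matrix (Fin 2) (Fin 2) k) (j : ZMod f) :
    polyY k f (c0, c1) j = (c0 j).map HahnSeries.C +
      (un 1 : LaurentSeries k) • (c1 j).map HahnSeries.C := rfl

theorem polyY_MGE (X : (ZMod f → Matrix (Fin 2) (Fin 2) k) × (ZMod f → Matrix (Fin 2) (Fin 2) k))
    (j : ZMod f) : MGE (polyY k f X j) 0 :=
  (const_MGE _).add' ((MGE_smul (GE_un 1) (const_MGE _)).mono (by omega))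

theorem lead_polyY (c0 c1 : ZMod f → Matrix (Fin 2) (Fin 2) k) (j : ZMod f) :
    lead (polyY k f (c0, c1) j) 0 = c0 j ∧ lead (polyY k f (c0, c1) j) 1 = c1 j := by
  constructor
  · refine Matrix.ext fun r s => ?_
    show (HahnSeries.C (c0 j r s) + un 1 * HahnSeries.C (c1 j r s) : LaurentSeries k).coeff 0 = _
    rw [HahnSeries.C_apply, HahnSeries.C_apply, un_mul_single, coeff_add, coeff_single_same,
      coeff_single_of_ne (by omega), add_zero]
  · refine Matrix.ext fun r s => ?_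
    show (HahnSeries.C (c0 j r s) + un 1 * HahnSeries.C (c1 j r s) : LaurentSeries k).coeff 1 = _
    rw [HahnSeries.C_apply, HahnSeries.C_apply, un_mul_single, coeff_add,
      coeff_single_of_ne (by omega), add_zero, coeff_single_same, zero_add]

/-- the positions outside the words -/
abbrev OY (P : ZMod f → Bool) : Type := {j : ZMod f // OutY P j}

open Classical in
/-- extension by zero -/
noncomputable def extY (k : Type u) [Field k] (P : ZMod f → Bool) :
    (OY P → Matrix (Fin 2) (Fin 2) k) →ₗ[k] (ZMod f → Matrix (Fin 2) (Fin 2) k) where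
  toFun ζ j := if h : OutY P j then ζ ⟨j, h⟩ else 0
  map_add' X Y := by
    funext j
    show (if h : OutY P j then X ⟨j, h⟩ + Y ⟨j, h⟩ else 0) =
      (if h : OutY P j then X ⟨j, h⟩ else 0) + (if h : OutY P j then Y ⟨j, h⟩ else 0)
    split_ifs
    · rfl
    · rw [add_zero]
  map_smul' c X := by
    funext j
    show (if h : OutY P j then c • X ⟨j, h⟩ else 0) = c • (if h : OutY P j then X ⟨j, h⟩ else 0)
    split_ifs
    · rfl
    · rw [smul_zero]

theorem extY_out (ζ : OY P → Matrix (Fin 2) (Fin 2) k) {j : ZMod f} (h : OutY P j) :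
    extY k P ζ j = ζ ⟨j, h⟩ := dif_pos h

theorem extY_in (ζ : OY P → Matrix (Fin 2) (Fin 2) k) {j : ZMod f} (h : ¬ OutY P j) :
    extY k P ζ j = 0 := dif_neg h

theorem exists_extY (ζ : ZMod f → Matrix (Fin 2) (Fin 2) k) (h : ∀ j, ¬ OutY P j → ζ j = 0) :
    extY k P (fun o => ζ o.1) = ζ := by
  funext j
  by_cases hj : OutY P j
  · rw [extY_out _ hj]
  · rw [extY_in _ hj, h j hj]

theorem lY_add (j : ZMod f) (x y : Matrix (Fin 2) (Fin 2) k) :
    lY M j (x + y) = lY M j x + lY M j y := by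
  unfold lY
  rw [Matrix.mul_add, Matrix.add_mul]
  rfl

theorem lY_smul (j : ZMod f) (c : k) (x : Matrix (Fin 2) (Fin 2) k) :
    lY M j (c • x) = c * lY M j x := by
  unfold lY
  rw [Matrix.mul_smul, Matrix.smul_mul]
  rfl

/-- the obstructions to integrality -/
noncomputable def obY (P : ZMod f → Bool) (M : KisinModule f k) :
    ((ZMod f → Matrix (Fin 2) (Fin 2) k) × (ZMod f → Matrix (Fin 2) (Fin 2) k)) →ₗ[k]
      (OY P → k) where
  toFun X o := lY M o.1 (X.1 (o.1 - 1) - X.2 o.1)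
  map_add' X Y := by
    funext o
    show lY M o.1 (X.1 (o.1 - 1) + Y.1 (o.1 - 1) - (X.2 o.1 + Y.2 o.1)) = _ + _
    rw [add_sub_add_comm, lY_add]
  map_smul' c X := by
    funext o
    show lY M o.1 (c • X.1 (o.1 - 1) - c • X.2 o.1) = c * _
    rw [← smul_sub, lY_smul]

theorem obY_apply (c0 ζ : ZMod f → Matrix (Fin 2) (Fin 2) k) (o : OY P) :
    obY P M (c0, ζ) o = lY M o.1 (c0 (o.1 - 1) - ζ o.1) := rfl

/-- the coefficient of an entry of `Z N Z⁻¹` -/
theorem conj_coeff (j : ZMod f) (N : Mat k) (n : ℤ) :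
    ((gz (M.Z j) * N * gz (M.Z j)⁻¹) 1 0).coeff n = lY M j (lead N n) := by
  have h1 : ∀ (c : k) (x : LaurentSeries k), (HahnSeries.C c * x).coeff n = c * x.coeff n := by
    intro c x
    rw [HahnSeries.C_mul_eq_smul]
    rfl
  have h2 : ∀ (c : k) (x : LaurentSeries k), (x * HahnSeries.C c).coeff n = x.coeff n * c := by
    intro c x
    rw [mul_comm, h1, mul_comm]
  have h3 : ∀ (Z : GL (Fin 2) k) (r s : Fin 2), gz Z r s = HahnSeries.C (Z.1 r s) :=
    fun Z r s => rfl
  unfold lY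
  simp only [Matrix.mul_apply, Fin.sum_univ_two, h3, coeff_add, h2, h1]
  rfl

theorem conj_gx_MGE (X : GL (Fin 2) (PowerSeries k)) (N : Mat k) :
    MGE (gx X * N * gx X⁻¹) 0 ↔ MGE N 0 := by
  constructor
  · intro h
    have h1 := (((gx_MGE X⁻¹).mul h).1.mul (gx_MGE X)).1
    have e : gx X⁻¹ * (gx X * N * gx X⁻¹) * gx X = N := by
      calc gx X⁻¹ * (gx X * N * gx X⁻¹) * gx X = (gx X⁻¹ * gx X) * N * (gx X⁻¹ * gx X) := by
            simp only [Matrix.mul_assoc]
        _ = N := by rw [gx_inv_mul, Matrix.one_mul, Matrix.mul_one]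
    rw [e] at h1
    exact h1.mono (by omega)
  · intro h
    exact (((gx_MGE X).mul h).1.mul (gx_MGE X⁻¹)).1.mono (by omega)

/-- integrality of `B N B⁻¹` -/
theorem LY_integral (hap : ∀ j, 1 ≤ a j ∧ a j ≤ p) {j : ZMod f} (h : OutY P j) {N : Mat k}
    (hN : MGE N 0) (hN1 : ∀ n : ℤ, 0 < n → n < p → lead N n = 0) :
    MGE (LY a P M j N) 0 ↔ lY M j (lead N 0) = 0 := by
  rw [LY_out h, conj_gx_MGE]
  have h1 := (((gz_MGE (M.Z j)).mul hN).1.mul (gz_MGE (M.Z j)⁻¹)).1
  rw [add_zero, add_zero] at h1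
  constructor
  · intro h2
    have h3 : GE (un (-(a j : ℤ)) * (gz (M.Z j) * N * gz (M.Z j)⁻¹) 1 0) 0 := h2 1 0
    have h4 := h3.of_un_mul
    rw [← conj_coeff]
    exact h4 0 (by have := (hap j).1; omega)
  · intro h2
    have h3 : GE ((gz (M.Z j) * N * gz (M.Z j)⁻¹) 1 0) p := by
      intro v hv
      rw [conj_coeff]
      rcases lt_trichotomy v 0 with h | h | h
      · have e : lead N v = 0 := Matrix.ext fun r s => hN r s v h
        rw [e]
        unfold lY
        rw [Matrix.mul_zero, Matrix.zero_mul]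
        rfl
      · rw [h]
        exact h2
      · rw [hN1 v h hv]
        unfold lY
        rw [Matrix.mul_zero, Matrix.zero_mul]
        rfl
    refine MGE_mk (h1 0 0) ((h1 0 1).un_mul _ |>.mono (by positivity)) ?_ (h1 1 1)
    refine (h3.un_mul _).mono ?_
    have := (hap j).2
    omega

theorem lead_phi (N : Mat k) : lead (N.map (phi k p)) 0 = lead N 0 :=
  Matrix.ext fun r s => phi_coeff_zero' (N r s)

theorem lead_phi_mid (N : Mat k) {n : ℤ} (h0 : 0 < n) (h1 : n < p) :
    lead (N.map (phi k p)) n = 0 := by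
  refine Matrix.ext fun r s => ?_
  refine phi_coeff_zero p _ fun h => ?_
  have := Int.le_of_dvd h0 h
  omega

theorem lead_C (ζ : Matrix (Fin 2) (Fin 2) k) {n : ℤ} (hn : n ≠ 0) :
    lead (ζ.map (HahnSeries.C : k → LaurentSeries k)) n = 0 := by
  refine Matrix.ext fun r s => ?_
  show (HahnSeries.C (ζ r s) : LaurentSeries k).coeff n = 0
  rw [HahnSeries.C_apply, coeff_single_of_ne hn]

theorem lead_C0 (ζ : Matrix (Fin 2) (Fin 2) k) :
    lead (ζ.map (HahnSeries.C : k → LaurentSeries k)) 0 = ζ := by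
  refine Matrix.ext fun r s => ?_
  show (HahnSeries.C (ζ r s) : LaurentSeries k).coeff 0 = ζ r s
  rw [HahnSeries.C_apply, coeff_single_same]

theorem lead_sub (X Y : Mat k) (n : ℤ) : lead (X - Y) n = lead X n - lead Y n := rfl

/-- integrality of the operator -/
theorem dY_integral (ha : ∀ j, 1 ≤ a j ∧ a j ≤ p) (c : ZMod f → Mat k) (hc : ∀ j, MGE (c j) 0)
    (ζ : ZMod f → Matrix (Fin 2) (Fin 2) k) {j : ZMod f} (h : OutY P j) :
    MGE (dY p a P M (c, ζ) j) 0 ↔ lY M j (lead (c (j - 1)) 0 - ζ j) = 0 := by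
  have h1 : MGE ((c (j - 1)).map (phi k p) - (ζ j).map HahnSeries.C) 0 :=
    MGE_sub2 ((phi_MGE (p := p) (hc (j - 1))).mono (by omega)) (const_MGE _)
  have h2 : ∀ n : ℤ, 0 < n → n < p →
      lead ((c (j - 1)).map (phi k p) - (ζ j).map HahnSeries.C) n = 0 := by
    intro n hn hn'
    rw [lead_sub, lead_phi_mid _ hn hn', lead_C _ (by omega), sub_zero]
  have h3 := LY_integral (M := M) ha h h1 h2
  rw [lead_sub, lead_phi, lead_C0] at h3
  rw [← h3, dY_apply]
  constructor
  · intro h4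
    have h5 : LY a P M j ((c (j - 1)).map (phi k p) - (ζ j).map HahnSeries.C) =
        c j - (c j - LY a P M j ((c (j - 1)).map (phi k p) - (ζ j).map HahnSeries.C)) := by abel
    rw [h5]
    intro r s v hv
    show (c j r s - _).coeff v = 0
    rw [coeff_sub, hc j r s v hv, zero_sub, neg_eq_zero]
    exact h4 r s v hv
  · intro h4 r s v hv
    show (c j r s - _).coeff v = 0
    rw [coeff_sub, hc j r s v hv, zero_sub, neg_eq_zero]
    exact h4 r s v hv

theorem dY_in (c : ZMod f → Mat k) (hc : ∀ j, MGE (c j) 0)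
    (ζ : ZMod f → Matrix (Fin 2) (Fin 2) k) {j : ZMod f} (h : ¬ OutY P j) :
    MGE (dY p a P M (c, ζ) j) 0 := by
  rw [dY_apply, LY_in h]
  exact MGE_sub2 (hc j) (MGE_sub2 ((phi_MGE (p := p) (hc (j - 1))).mono (by omega)) (const_MGE _))

theorem dY_two (hp : 3 ≤ p) (ha : ∀ j, a j ≤ p) (c : ZMod f → Mat k) (hc : ∀ j, MGE (c j) 2)
    (j : ZMod f) : MGE (dY p a P M (c, 0) j) 2 := by
  rw [dY_apply]
  have e : ((0 : ZMod f → Matrix (Fin 2) (Fin 2) k) j).map
      (HahnSeries.C : k → LaurentSeries k) = 0 := const_zero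
  rw [e, sub_zero]
  have h1 := LY_MGE (P := P) (M := M) ha j (phi_MGE (p := p) (hc (j - 1)))
  have hp' : (3 : ℤ) ≤ p := by exact_mod_cast hp
  intro r s v hv
  show (c j r s - _).coeff v = 0
  rw [coeff_sub, hc j r s v hv, zero_sub, neg_eq_zero]
  exact h1 r s v (by omega)

/-- the truncation -/
theorem poly_split (c : ZMod f → Mat k) (hc : ∀ j, MGE (c j) 0) :
    ∃ c' : ZMod f → Mat k, (∀ j, MGE (c' j) 2) ∧
      c = polyY k f (leadY k f 0 c, leadY k f 1 c) + c' := by
  refine ⟨c - polyY k f (leadY k f 0 c, leadY k f 1 c), fun j => ?_, (add_sub_cancel _ _).symm⟩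
  show MGE (c j - ((lead (c j) 0).map HahnSeries.C +
    (un 1 : LaurentSeries k) • (lead (c j) 1).map HahnSeries.C)) 2
  rw [← sub_sub]
  exact const_sub_lead' (hc j)

/-- the truncated operator -/
noncomputable def psiY (p : ℕ) [Fact p.Prime] (a : ZMod f → ℕ) (P : ZMod f → Bool)
    (M : KisinModule f k) :
    (((ZMod f → Matrix (Fin 2) (Fin 2) k) × (ZMod f → Matrix (Fin 2) (Fin 2) k)) ×
      (OY P → Matrix (Fin 2) (Fin 2) k)) →ₗ[k]
    (((ZMod f → Matrix (Fin 2) (Fin 2) k) × (ZMod f → Matrix (Fin 2) (Fin 2) k)) × (OY P → k)) :=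
  (((leadY k f 0).prod (leadY k f 1)).comp ((dY p a P M).comp
    ((polyY k f).prodMap (extY k P)))).prod
    ((obY P M).comp ((LinearMap.fst k _ _).prodMap (extY k P)))

theorem psiY_apply (c0 c1 : ZMod f → Matrix (Fin 2) (Fin 2) k)
    (ζ : OY P → Matrix (Fin 2) (Fin 2) k) : psiY p a P M ((c0, c1), ζ) =
      ((leadY k f 0 (dY p a P M (polyY k f (c0, c1), extY k P ζ)),
        leadY k f 1 (dY p a P M (polyY k f (c0, c1), extY k P ζ))),
        obY P M (c0, extY k P ζ)) := rfl

/-- the truncation of a solution -/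
theorem psiY_of (hp : 3 ≤ p) (ha : ∀ j, 1 ≤ a j ∧ a j ≤ p) (c : ZMod f → Mat k)
    (hc : ∀ j, MGE (c j) 0) (ζ : OY P → Matrix (Fin 2) (Fin 2) k) (y : ZMod f → Mat k)
    (hy : ∀ j, MGE (y j) 0) (h : dY p a P M (c, extY k P ζ) = y) :
    psiY p a P M ((leadY k f 0 c, leadY k f 1 c), ζ) = ((leadY k f 0 y, leadY k f 1 y), 0) := by
  obtain ⟨c', hc', e⟩ := poly_split c hc
  have h1 : dY p a P M (c, extY k P ζ) =
      dY p a P M (polyY k f (leadY k f 0 c, leadY k f 1 c), extY k P ζ) +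
        dY p a P M (c', 0) := by
    rw [← map_add]
    congr 1
    rw [Prod.mk_add_mk, add_zero, ← e]
  have h2 := dY_two (P := P) (M := M) hp (fun j => (ha j).2) c' hc'
  have h3 : ∀ n : ℤ, n < 2 → leadY k f n (dY p a P M (c', 0)) = 0 := by
    intro n hn
    funext j
    exact Matrix.ext fun r s => h2 j r s n hn
  have h4 : ∀ n : ℤ, n < 2 → leadY k f n (dY p a P M (polyY k f (leadY k f 0 c, leadY k f 1 c),
      extY k P ζ)) = leadY k f n y := by
    intro n hn
    rw [← h, h1, map_add, h3 n hn, add_zero]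
  rw [psiY_apply, h4 0 (by omega), h4 1 (by omega)]
  congr 1
  funext o
  rw [obY_apply]
  have h5 := (dY_integral (M := M) (P := P) ha c hc (extY k P ζ) o.2).1 (by
    rw [h]
    exact hy _)
  exact h5

theorem psiY_surj (hp : 3 ≤ p) (ha : ∀ j, 1 ≤ a j ∧ a j ≤ p) (hout : ∃ j, OutY P j)
    (hstop : ∃ j, ¬ OutY P j ∨ M.Y j 1 1 = 0) : Function.Surjective (psiY p a P M) := by
  rintro ⟨⟨t0, t1⟩, μ⟩
  -- the obstructions
  obtain ⟨ζ', hζ'⟩ : ∃ ζ' : OY P → Matrix (Fin 2) (Fin 2) k, ζ' = fun o =>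
      -(((M.Z o.1)⁻¹).1 * !![0, 0; μ o, 0] * (M.Z o.1).1) := ⟨_, rfl⟩
  have hob : obY P M (0, extY k P ζ') = μ := by
    funext o
    rw [obY_apply, extY_out _ o.2, hζ']
    have e1 : (0 : ZMod f → Matrix (Fin 2) (Fin 2) k) (o.1 - 1) = 0 := rfl
    rw [e1, zero_sub]
    dsimp only
    rw [neg_neg]
    unfold lY
    have e2 : (M.Z o.1).1 * ((M.Z o.1)⁻¹).1 = 1 := by
      rw [← Units.val_mul, mul_inv_cancel, Units.val_one]
    have e3 : (M.Z o.1).1 * (((M.Z o.1)⁻¹).1 * !![0, 0; μ o, 0] * (M.Z o.1).1) *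
        ((M.Z o.1)⁻¹).1 = !![0, 0; μ o, 0] := by
      calc _ = ((M.Z o.1).1 * ((M.Z o.1)⁻¹).1) * !![0, 0; μ o, 0] *
            ((M.Z o.1).1 * ((M.Z o.1)⁻¹).1) := by simp only [Matrix.mul_assoc]
        _ = _ := by rw [e2, Matrix.one_mul, Matrix.mul_one]
    rw [e3]
    rfl
  obtain ⟨⟨⟨s0, s1⟩, ν⟩, hs⟩ : ∃ x, x = psiY p a P M ((0, 0), ζ') := ⟨_, rfl⟩
  have hν : ν = μ := by
    have h1 := congrArg Prod.snd hs
    rw [psiY_apply] at h1
    exact h1.trans hob
  -- the rest
  obtain ⟨y, hy⟩ : ∃ y, y = polyY k f (t0 - s0, t1 - s1) := ⟨_, rfl⟩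
  have hyM : ∀ j, MGE (y j) 0 := fun j => by rw [hy]; exact polyY_MGE _ j
  obtain ⟨c, ζ, hc, hζ, h⟩ := solY_all (M := M) (P := P) hp ha hout hstop y hyM
  have h1 : dY p a P M (c, extY k P (fun o => ζ o.1)) = y := by
    rw [exists_extY ζ hζ]
    funext j
    rw [dY_apply, h j]
  have h2 := psiY_of hp ha c hc _ y hyM h1
  have h3 : leadY k f 0 y = t0 - s0 ∧ leadY k f 1 y = t1 - s1 := by
    rw [hy]
    exact ⟨funext fun j => (lead_polyY _ _ j).1, funext fun j => (lead_polyY _ _ j).2⟩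
  refine ⟨((leadY k f 0 c, leadY k f 1 c), fun o => ζ o.1) + ((0, 0), ζ'), ?_⟩
  rw [map_add, h2, ← hs, h3.1, h3.2, hν, Prod.mk_add_mk, Prod.mk_add_mk, sub_add_cancel,
    sub_add_cancel, zero_add]

/-- The conditions on the endomorphisms. -/
def SchurY (p : ℕ) [Fact p.Prime] (a : ZMod f → ℕ) (P : ZMod f → Bool) (M : KisinModule f k) :
    Prop :=
  ∀ C : ZMod f → Mat k, (∀ j, C j * BY p a P M j = BY p a P M j * (C (j - 1)).map (phi k p)) →
    ∃ c : k, ∀ j, C j = (HahnSeries.C c : LaurentSeries k) • (1 : Mat k)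

/-- the kernel of the truncated operator consists of the truncations of solutions -/
theorem psiY_ker (hp : 3 ≤ p) (ha : ∀ j, 1 ≤ a j ∧ a j ≤ p)
    (c0 c1 : ZMod f → Matrix (Fin 2) (Fin 2) k) (ζ : OY P → Matrix (Fin 2) (Fin 2) k)
    (h : psiY p a P M ((c0, c1), ζ) = 0) :
    ∃ c : ZMod f → Mat k, (∀ j, MGE (c j) 0) ∧ dY p a P M (c, extY k P ζ) = 0 ∧
      leadY k f 0 c = c0 ∧ leadY k f 1 c = c1 := by
  rw [psiY_apply] at h
  obtain ⟨y, hy⟩ : ∃ y, y = dY p a P M (polyY k f (c0, c1), extY k P ζ) := ⟨_, rfl⟩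
  rw [← hy] at h
  have h0 : leadY k f 0 y = 0 := congrArg (fun x => x.1.1) h
  have h1 : leadY k f 1 y = 0 := congrArg (fun x => x.1.2) h
  have h2 : obY P M (c0, extY k P ζ) = 0 := congrArg (fun x => x.2) h
  have hyI : ∀ j, MGE (y j) 0 := by
    intro j
    by_cases hj : OutY P j
    · rw [hy, dY_integral ha _ (fun j => polyY_MGE _ j) _ hj, (lead_polyY _ _ _).1]
      exact congrFun h2 ⟨j, hj⟩
    · rw [hy]
      exact dY_in _ (fun j => polyY_MGE _ j) _ hj
  have hy2 : ∀ j, MGE (y j) 2 := by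
    intro j r s v hv
    rcases lt_trichotomy v 0 with hv' | hv' | hv'
    · exact hyI j r s v hv'
    · rw [hv']
      exact congrFun (congrFun (congrFun h0 j) r) s
    · rw [show v = 1 by omega]
      exact congrFun (congrFun (congrFun h1 j) r) s
  obtain ⟨d, hd, hd1⟩ := contract_Y (P := P) (M := M) hp (fun j => (ha j).2) y hy2
  have hdy : dY p a P M (d, 0) = y := by
    funext j
    rw [dY_apply, hd1 j]
    have e : ((0 : ZMod f → Matrix (Fin 2) (Fin 2) k) j).map
        (HahnSeries.C : k → LaurentSeries k) = 0 := const_zero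
    rw [e, sub_zero]
  refine ⟨polyY k f (c0, c1) - d, fun j => MGE_sub2 (polyY_MGE _ j) ((hd j).mono (by omega)),
    ?_, ?_, ?_⟩
  · have e : ((polyY k f (c0, c1) - d, extY k P ζ) :
        (ZMod f → Mat k) × (ZMod f → Matrix (Fin 2) (Fin 2) k)) =
        (polyY k f (c0, c1), extY k P ζ) - (d, 0) := by
      rw [Prod.mk_sub_mk, sub_zero]
    rw [e, map_sub, hdy, hy, sub_self]
  · rw [map_sub]
    have e1 : leadY k f 0 d = 0 := by
      funext j
      exact Matrix.ext fun r s => hd j r s 0 (by omega)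
    rw [e1, sub_zero]
    exact funext fun j => (lead_polyY _ _ j).1
  · rw [map_sub]
    have e1 : leadY k f 1 d = 0 := by
      funext j
      exact Matrix.ext fun r s => hd j r s 1 (by omega)
    rw [e1, sub_zero]
    exact funext fun j => (lead_polyY _ _ j).2

/-- the trivial directions -/
noncomputable def NY (p : ℕ) [Fact p.Prime] (a : ZMod f → ℕ) (P : ZMod f → Bool)
    (M : KisinModule f k) : Submodule k (OY P → Matrix (Fin 2) (Fin 2) k) :=
  (LinearMap.ker (psiY p a P M)).map (LinearMap.snd k _ _)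

theorem mem_NY (hp : 3 ≤ p) (ha : ∀ j, 1 ≤ a j ∧ a j ≤ p)
    (ζ : OY P → Matrix (Fin 2) (Fin 2) k) : ζ ∈ NY p a P M ↔
      ∃ c : ZMod f → Mat k, (∀ j, MGE (c j) 0) ∧ dY p a P M (c, extY k P ζ) = 0 := by
  constructor
  · rintro ⟨⟨⟨c0, c1⟩, ζ'⟩, h, rfl⟩
    obtain ⟨c, hc, h1, -, -⟩ := psiY_ker hp ha c0 c1 ζ' h
    exact ⟨c, hc, h1⟩
  · rintro ⟨c, hc, h⟩
    refine ⟨((leadY k f 0 c, leadY k f 1 c), ζ), ?_, rfl⟩
    have h1 := psiY_of hp ha c hc ζ 0 (fun _ => MGE.zero' 0) h
    rw [map_zero, map_zero] at h1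
    exact h1

open Classical in
theorem finrank_NY (hp : 3 ≤ p) (ha : ∀ j, 1 ≤ a j ∧ a j ≤ p) (hout : ∃ j, OutY P j)
    (hstop : ∃ j, ¬ OutY P j ∨ M.Y j 1 1 = 0) (hS : SchurY p a P M) :
    Module.finrank k ((OY P → Matrix (Fin 2) (Fin 2) k) ⧸ NY p a P M) =
      Fintype.card (OY P) + 1 := by
  have hm : Module.finrank k (Matrix (Fin 2) (Fin 2) k) = 4 := by
    rw [Module.finrank_matrix]
    simp
  -- the kernel
  have h1 := LinearMap.finrank_range_add_finrank_ker (psiY p a P M)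
  rw [LinearMap.range_eq_top.2 (psiY_surj hp ha hout hstop), finrank_top] at h1
  simp only [Module.finrank_prod, Module.finrank_pi_fintype, Module.finrank_self, hm,
    Finset.sum_const, Finset.card_univ, smul_eq_mul] at h1
  -- the projection
  obtain ⟨q, hq⟩ : ∃ q : LinearMap.ker (psiY p a P M) →ₗ[k] (OY P → Matrix (Fin 2) (Fin 2) k),
      q = (LinearMap.snd k _ _).domRestrict (LinearMap.ker (psiY p a P M)) := ⟨_, rfl⟩
  have hqr : LinearMap.range q = NY p a P M := by
    rw [hq]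
    unfold NY
    ext ζ
    constructor
    · rintro ⟨x, rfl⟩
      exact ⟨x.1, x.2, rfl⟩
    · rintro ⟨x, hx, rfl⟩
      exact ⟨⟨x, hx⟩, rfl⟩
  have h2 := LinearMap.finrank_range_add_finrank_ker q
  rw [hqr] at h2
  -- the scalars
  have hone : dY p a P M ((1 : ZMod f → Mat k), 0) = 0 := by
    funext j
    rw [dY_apply]
    have e1 : ((0 : ZMod f → Matrix (Fin 2) (Fin 2) k) j).map
        (HahnSeries.C : k → LaurentSeries k) = 0 := const_zero
    have e2 : ((1 : ZMod f → Mat k) (j - 1)).map (phi k p) = 1 := map_one_phi p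
    rw [e1, e2, sub_zero]
    have e3 : LY a P M j 1 = 1 := by
      unfold LY
      split_ifs
      · rfl
      · rw [Matrix.mul_one, gz_mul_inv]
        have e4 : cdu (a j) (1 : Mat k) = 1 := by
          unfold cdu
          rw [Matrix.one_fin_two]
          refine mat2_congr ?_ ?_ ?_ ?_
          · rfl
          · exact mul_zero _
          · exact mul_zero _
          · rfl
        rw [e4, Matrix.mul_one, gx_mul_inv]
    rw [e3]
    exact sub_self _
  have hker : Module.finrank k (LinearMap.ker q) = 1 := by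
    have hx0 : psiY p a P M ((1, 0), 0) = 0 := by
      have e1 := psiY_of (M := M) (P := P) hp ha (1 : ZMod f → Mat k) (fun j => by
        show MGE (1 : Mat k) 0
        have := gx_MGE (1 : GL (Fin 2) (PowerSeries k))
        rwa [gx_one] at this) 0 0 (fun _ => MGE.zero' 0) (by rw [map_zero]; exact hone)
      rw [map_zero, map_zero] at e1
      have e2 : leadY k f 0 (1 : ZMod f → Mat k) = 1 := by
        funext j
        refine Matrix.ext fun r s => ?_
        show ((1 : Mat k) r s).coeff 0 = (1 : Matrix (Fin 2) (Fin 2) k) r s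
        rw [Matrix.one_apply, Matrix.one_apply]
        split_ifs
        · rw [coeff_one, if_pos rfl]
        · rfl
      have e3 : leadY k f 1 (1 : ZMod f → Mat k) = 0 := by
        funext j
        refine Matrix.ext fun r s => ?_
        show ((1 : Mat k) r s).coeff 1 = 0
        rw [Matrix.one_apply]
        split_ifs
        · rw [coeff_one, if_neg (by omega)]
        · rfl
      rw [e2, e3] at e1
      exact e1
    obtain ⟨x0, hx0'⟩ : ∃ x0 : LinearMap.ker q, x0.1.1 = ((1, 0), 0) := by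
      refine ⟨⟨⟨((1, 0), 0), hx0⟩, ?_⟩, rfl⟩
      rw [LinearMap.mem_ker, hq]
      rfl
    refine finrank_eq_one x0 ?_ ?_
    · intro h
      have h3 : x0.1.1 = 0 := by rw [h]; rfl
      rw [hx0'] at h3
      have h4 : (1 : ZMod f → Matrix (Fin 2) (Fin 2) k) = 0 := congrArg (fun x => x.1.1) h3
      have h5 := congrFun (congrFun (congrFun h4 0) 0) 0
      exact one_ne_zero (α := k) h5
    · rintro ⟨⟨⟨⟨c0, c1⟩, ζ⟩, h3⟩, h4⟩
      have h5 : ζ = 0 := by
        rw [LinearMap.mem_ker, hq] at h4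
        exact h4
      subst h5
      obtain ⟨c, hc, h6, h7, h8⟩ := psiY_ker hp ha c0 c1 0 h3
      rw [map_zero] at h6
      obtain ⟨b, hb⟩ := hS c fun j => by
        have h9 := congrFun h6 j
        rw [dY_apply] at h9
        have e : ((0 : ZMod f → Matrix (Fin 2) (Fin 2) k) j).map
            (HahnSeries.C : k → LaurentSeries k) = 0 := const_zero
        rw [e, sub_zero] at h9
        rw [sub_eq_zero.1 h9, LY_spec]
      refine ⟨b, ?_⟩
      apply Subtype.ext
      apply Subtype.ext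
      show b • x0.1.1 = ((c0, c1), 0)
      rw [hx0', ← h7, ← h8]
      refine Prod.ext (Prod.ext ?_ ?_) ?_
      · funext j
        refine Matrix.ext fun r s => ?_
        show b * (1 : Matrix (Fin 2) (Fin 2) k) r s = (c j r s).coeff 0
        rw [hb j, Matrix.smul_apply, smul_eq_mul, HahnSeries.C_mul_eq_smul, Matrix.one_apply,
          Matrix.one_apply]
        show _ = b * (if r = s then (1 : LaurentSeries k) else 0).coeff 0
        split_ifs
        · rw [coeff_one, if_pos rfl]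
        · rfl
      · funext j
        refine Matrix.ext fun r s => ?_
        show b * 0 = (c j r s).coeff 1
        rw [hb j, Matrix.smul_apply, smul_eq_mul, HahnSeries.C_mul_eq_smul, Matrix.one_apply]
        show _ = b * (if r = s then (1 : LaurentSeries k) else 0).coeff 1
        split_ifs
        · rw [coeff_one, if_neg (by omega)]
        · rfl
      · show b • (0 : OY P → Matrix (Fin 2) (Fin 2) k) = 0
        rw [smul_zero]
  rw [hker] at h2
  have h3 := Submodule.finrank_quotient_add_finrank (NY p a P M)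
  rw [Module.finrank_pi_fintype] at h3
  simp only [hm, Finset.sum_const, Finset.card_univ, smul_eq_mul] at h3
  omega

end

end Pool.Agent.Lib.MP_74d0c9_nt
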