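import Pool.Agent.Lib.MP_74d0c9_nt.YCoh
import Pool.Agent.Lib.MP_74d0c9_nt.YKDefs

/-! A basis of the tangent space modulo the coboundaries. -/

set_option autoImplicit false

namespace Pool.Agent.Lib.MP_74d0c9_nt

open HahnSeries

universe u

section
variable {k : Type u} [Field k] {p : ℕ} [Fact p.Prime] {f : ℕ} [NeZero f] {a : ZMod f → ℕ}
  {P : ZMod f → Bool} {M : KisinModule f k}

theorem BY_inv (j : ZMod f) : ∃ W : Mat k, BY p a P M j * W = 1 := by
  by_cases h : OutY P j
  · refine ⟨gz (M.Z j)⁻¹ * (!![un (-(a j : ℤ)), 0; 0, 1] * gx (M.X j)⁻¹), ?_⟩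
    have hF : M.frob a j = gx (M.X j) * du (a j) * gz (M.Z j) := rfl
    have hd : (du (a j) : Mat k) * !![un (-(a j : ℤ)), 0; 0, 1] = 1 := by
      rw [du_two, Matrix.mul_fin_two, Matrix.one_fin_two]
      apply mat2_congr
      · linear_combination un_mul_neg (k := k) (a j : ℤ)
      · ring
      · ring
      · ring
    rw [BY_out h, hF]
    calc gx (M.X j) * du (a j) * gz (M.Z j) * (gz (M.Z j)⁻¹ * (!![un (-(a j : ℤ)), 0; 0, 1] *
          gx (M.X j)⁻¹)) = gx (M.X j) * (du (a j) * (gz (M.Z j) * gz (M.Z j)⁻¹) *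
            !![un (-(a j : ℤ)), 0; 0, 1]) * gx (M.X j)⁻¹ := by simp only [Matrix.mul_assoc]
      _ = 1 := by rw [gz_mul_inv, Matrix.mul_one, hd, Matrix.mul_one, gx_mul_inv]
  · obtain ⟨q, hq⟩ := BY_in (p := p) (a := a) (M := M) h
    refine ⟨!![un (-q), 0; 0, un (-q)], ?_⟩
    rw [hq, Matrix.mul_fin_two, Matrix.one_fin_two]
    have := un_mul_neg (k := k) q
    apply mat2_congr
    · linear_combination this
    · ring
    · ring
    · linear_combination this

theorem BY_cancel {j : ZMod f} {X : Mat k} (h : X * BY p a P M j = 0) : X = 0 := by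
  obtain ⟨W, hW⟩ := BY_inv (p := p) (a := a) (P := P) (M := M) j
  have h1 := congrArg (fun Y => Y * W) h
  simp only [Matrix.mul_assoc, hW, Matrix.mul_one, Matrix.zero_mul] at h1
  exact h1

open Classical in
/-- the unit constants -/
noncomputable def EY (k : Type u) [Field k] (P : ZMod f → Bool) (x : OY P × Fin 2 × Fin 2) :
    OY P → Matrix (Fin 2) (Fin 2) k :=
  Pi.single x.1 (Matrix.single x.2.1 x.2.2 1)

theorem extY_EY (x : OY P × Fin 2 × Fin 2) (j : ZMod f) :
    extY k P (EY k P x) j = if x.1.1 = j then Matrix.single x.2.1 x.2.2 1 else 0 := by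
  classical
  by_cases h : OutY P j
  · rw [extY_out _ h]
    unfold EY
    rw [Pi.single_apply]
    by_cases h1 : x.1.1 = j
    · rw [if_pos h1, if_pos (Subtype.ext h1.symm)]
    · rw [if_neg h1, if_neg fun h2 => h1 (congrArg Subtype.val h2).symm]
  · rw [extY_in _ h, if_neg]
    rintro rfl
    exact h x.1.2

theorem span_EY : Submodule.span k (Set.range (EY k P)) = ⊤ := by
  classical
  rw [eq_top_iff]
  intro ζ _
  rw [← Finset.univ_sum_single ζ]
  refine Submodule.sum_mem _ fun o _ => ?_
  have e : Pi.single o (ζ o) = ∑ r, ∑ s, ζ o r s • EY k P (o, r, s) := by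
    have h1 : ζ o = ∑ r, ∑ s, ζ o r s • Matrix.single r s (1 : k) := by
      conv_lhs => rw [Matrix.matrix_eq_sum_single (ζ o)]
      refine Finset.sum_congr rfl fun r _ => Finset.sum_congr rfl fun s _ => ?_
      rw [Matrix.smul_single, smul_eq_mul, mul_one]
    have h2 : ∀ m : Matrix (Fin 2) (Fin 2) k, (Pi.single o m : OY P → Matrix (Fin 2) (Fin 2) k) =
        LinearMap.single k (fun _ : OY P => Matrix (Fin 2) (Fin 2) k) o m := fun m => rfl
    rw [h2]
    conv_lhs => rw [h1]
    rw [map_sum]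
    refine Finset.sum_congr rfl fun r _ => ?_
    rw [map_sum]
    refine Finset.sum_congr rfl fun s _ => ?_
    rw [map_smul]
    congr 1
  rw [e]
  exact Submodule.sum_mem _ fun r _ => Submodule.sum_mem _
    fun s _ => Submodule.smul_mem _ _ (Submodule.subset_span ⟨_, rfl⟩)

theorem exists_dirs (hp : 3 ≤ p) (ha : ∀ j, 1 ≤ a j ∧ a j ≤ p) (hout : ∃ j, OutY P j)
    (hstop : ∃ j, ¬ OutY P j ∨ M.Y j 1 1 = 0) (hS : SchurY p a P M) {V : Type} [Fintype V]
    (hV : Fintype.card V = Nat.card (OY P) + 1) :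
    ∃ (τ : V → ZMod f) (zv : V → Matrix (Fin 2) (Fin 2) k), (∀ v, OutY P (τ v)) ∧
      (∀ y : ZMod f → Mat k, (∀ j, MGE (y j) 0) →
        ∃ (c : ZMod f → Mat k) (x : V → k), (∀ j, MGE (c j) 0) ∧
          ∀ j, y j * BY p a P M j =
            c j * BY p a P M j - BY p a P M j * (c (j - 1)).map (phi k p) +
              BY p a P M j * (zY τ zv x j).map HahnSeries.C) ∧
      ∀ (c : ZMod f → Mat k) (x : V → k), (∀ j, MGE (c j) 0) →
        (∀ j, c j * BY p a P M j - BY p a P M j * (c (j - 1)).map (phi k p) =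
          BY p a P M j * (zY τ zv x j).map HahnSeries.C) → x = 0 := by
  classical
  obtain ⟨s, hs⟩ : ∃ s : Set ((OY P → Matrix (Fin 2) (Fin 2) k) ⧸ NY p a P M),
      s = Set.range fun x => (NY p a P M).mkQ (EY k P x) := ⟨_, rfl⟩
  have hspan : Submodule.span k s = ⊤ := by
    have h1 : s = (NY p a P M).mkQ '' Set.range (EY k P) := by
      rw [hs, ← Set.range_comp]
      rfl
    rw [h1, Submodule.span_image, span_EY, Submodule.map_top, Submodule.range_mkQ]
  obtain ⟨g, hg, hgs, hgl⟩ := Submodule.exists_fun_fin_finrank_span_eq k s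
  replace hgs := hgs.trans hspan
  have hcard : Fintype.card V = Fintype.card (Fin (Module.finrank k (Submodule.span k s))) := by
    rw [Fintype.card_fin, hspan, finrank_top, finrank_NY hp ha hout hstop hS, hV,
      Nat.card_eq_fintype_card]
  obtain ⟨e⟩ := Fintype.card_eq.1 hcard
  have hidx : ∀ v, ∃ x : OY P × Fin 2 × Fin 2, (NY p a P M).mkQ (EY k P x) = g (e v) := by
    intro v
    have h1 : ∀ y, y ∈ s → ∃ x : OY P × Fin 2 × Fin 2, (NY p a P M).mkQ (EY k P x) = y := by
      rw [hs]
      exact fun y hy => hy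
    exact h1 _ (hg (e v))
  choose idx hidx using hidx
  have hext : ∀ (x : V → k) (j : ZMod f), extY k P (∑ v, x v • EY k P (idx v)) j =
      zY (fun v => (idx v).1.1) (fun v => Matrix.single (idx v).2.1 (idx v).2.2 1) x j := by
    intro x j
    rw [map_sum, Finset.sum_apply]
    unfold zY
    refine Finset.sum_congr rfl fun v _ => ?_
    rw [map_smul, Pi.smul_apply, extY_EY]
    split_ifs
    · rfl
    · rw [smul_zero]
  have hlin : LinearIndependent k fun v => (NY p a P M).mkQ (EY k P (idx v)) := by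
    have h1 : (fun v => (NY p a P M).mkQ (EY k P (idx v))) = g ∘ e := funext hidx
    rw [h1]
    exact hgl.comp _ e.injective
  have hsp : Submodule.span k (Set.range fun v => (NY p a P M).mkQ (EY k P (idx v))) = ⊤ := by
    have h1 : (fun v => (NY p a P M).mkQ (EY k P (idx v))) = g ∘ e := funext hidx
    rw [h1, EquivLike.range_comp, hgs]
  refine ⟨fun v => (idx v).1.1, fun v => Matrix.single (idx v).2.1 (idx v).2.2 1,
    fun v => (idx v).1.2, ?_, ?_⟩
  · intro y hy
    obtain ⟨c, ζ, hc, hζ, h⟩ := solY_all (M := M) (P := P) hp ha hout hstop y hy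
    obtain ⟨x, hx⟩ := (Submodule.mem_span_range_iff_exists_fun k).1
      (hsp.symm ▸ Submodule.mem_top :
        (NY p a P M).mkQ (fun o => ζ o.1) ∈ Submodule.span k
          (Set.range fun v => (NY p a P M).mkQ (EY k P (idx v))))
    have h1 : (fun o : OY P => ζ o.1) - ∑ v, x v • EY k P (idx v) ∈ NY p a P M := by
      rw [← Submodule.ker_mkQ (NY p a P M), LinearMap.mem_ker, map_sub, map_sum, ← hx]
      simp only [map_smul, sub_self]
    obtain ⟨c', hc', h2⟩ := (mem_NY hp ha _).1 h1
    refine ⟨c - c', x, fun j => MGE_sub2 (hc j) (hc' j), fun j => ?_⟩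
    have h3 : dY p a P M (c - c', extY k P (∑ v, x v • EY k P (idx v))) = y := by
      have e1 : ((c - c', extY k P (∑ v, x v • EY k P (idx v))) :
          (ZMod f → Mat k) × (ZMod f → Matrix (Fin 2) (Fin 2) k)) =
          (c, extY k P (fun o => ζ o.1)) -
            (c', extY k P ((fun o : OY P => ζ o.1) - ∑ v, x v • EY k P (idx v))) := by
        rw [Prod.mk_sub_mk, ← map_sub, sub_sub_cancel]
      rw [e1, map_sub, h2, sub_zero, exists_extY ζ hζ]
      funext j
      rw [dY_apply, h j]
    have h4 := congrFun h3 j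
    rw [dY_apply, hext] at h4
    rw [← h4, Matrix.sub_mul, LY_spec, Matrix.mul_sub]
    abel
  · intro c x hc h
    have h1 : dY p a P M (c, extY k P (-∑ v, x v • EY k P (idx v))) = 0 := by
      funext j
      rw [dY_apply, map_neg]
      have e1 : (-extY k P (∑ v, x v • EY k P (idx v))) j =
          -extY k P (∑ v, x v • EY k P (idx v)) j := rfl
      rw [e1, hext]
      refine BY_cancel (p := p) (a := a) (P := P) (M := M) (j := j) ?_
      rw [Matrix.sub_mul, LY_spec, Matrix.mul_sub]
      have e2 : ∀ X : Matrix (Fin 2) (Fin 2) k,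
          (-X).map (HahnSeries.C : k → LaurentSeries k) = -X.map HahnSeries.C :=
        fun X => Matrix.ext fun r s => map_neg HahnSeries.C (X r s)
      rw [e2, Matrix.mul_neg, sub_neg_eq_add, ← h j]
      abel
    have h2 := (mem_NY hp ha _).2 ⟨c, hc, h1⟩
    rw [← Submodule.ker_mkQ (NY p a P M), LinearMap.mem_ker, map_neg, neg_eq_zero, map_sum] at h2
    simp only [map_smul] at h2
    exact funext (Fintype.linearIndependent_iff.1 hlin x h2)

end

end Pool.Agent.Lib.MP_74d0c9_nt
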