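import Pool.Agent.Lib.MP_74d0c9_nt.YAct

/-! Points of the residual Kisin variety: choices which are constant along the words. -/

set_option autoImplicit false

namespace Pool.Agent.Lib.MP_74d0c9_nt

universe u

/-- choices at the starts of the words, which are constant along the words -/
theorem glue {k : Type u} [Field k] {f : ℕ} [NeZero f] (P : ZMod f → Bool) {j0 : ZMod f}
    (hj0 : P j0 = false) (R : ZMod f → GL (Fin 2) k → Prop)
    (hs : ∀ j, P j = true → P (j - 1) = false → ∃ q, R j q)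
    (hm : ∀ j q, P j = true → P (j - 1) = true → R (j - 1) q → R j q) :
    ∃ Q : ZMod f → GL (Fin 2) k, IsPt P Q ∧ ∀ j, P j = true → R j (Q j) := by
  classical
  have hPf : ∀ j, P j = true ∨ P j = false := fun j => by cases P j <;> simp
  have hnt : ∀ x : Bool, x = false → ¬ x = true := by
    intro x hx
    rw [hx]
    exact fun h => Bool.noConfusion h
  have hq' : ∀ t : ℕ, ∃ q : GL (Fin 2) k, P (j0 + (t : ℕ)) = true →
      P (j0 + (t : ℕ) - 1) = false → R (j0 + (t : ℕ)) q := by
    intro t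
    by_cases h : P (j0 + (t : ℕ)) = true ∧ P (j0 + (t : ℕ) - 1) = false
    · obtain ⟨q, hq⟩ := hs _ h.1 h.2
      exact ⟨q, fun _ _ => hq⟩
    · exact ⟨1, fun h1 h2 => absurd ⟨h1, h2⟩ h⟩
  choose q hq using hq'
  obtain ⟨Q', hQ0, hQs⟩ : ∃ Q' : ℕ → GL (Fin 2) k, Q' 0 = 1 ∧
      ∀ t, Q' (t + 1) = if P (j0 + (t : ℕ)) = true then Q' t else q (t + 1) :=
    ⟨fun t => Nat.rec 1 (fun t r => if P (j0 + (t : ℕ)) = true then r else q (t + 1)) t,
      rfl, fun t => rfl⟩
  have hval : ∀ j, j ≠ j0 → ∃ t : ℕ, (j - j0).val = t + 1 ∧ (j - 1 - j0).val = t ∧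
      j0 + ((t + 1 : ℕ) : ZMod f) = j ∧ j0 + (t : ZMod f) = j - 1 := by
    intro j hj
    have h1 : (j - j0).val ≠ 0 := fun h => hj (sub_eq_zero.1 ((ZMod.val_eq_zero _).1 h))
    have h2 : (((j - j0).val : ℕ) : ZMod f) = j - j0 := by
      rw [ZMod.natCast_val, ZMod.cast_id', id_eq]
    have h3 : (j - j0).val < f := ZMod.val_lt _
    have h4 : (((j - j0).val - 1 : ℕ) : ZMod f) = j - 1 - j0 := by
      rw [Nat.cast_sub (by omega), h2]
      push_cast
      ring
    refine ⟨(j - j0).val - 1, by omega, ?_, ?_, ?_⟩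
    · rw [← h4, ZMod.val_natCast_of_lt (by omega)]
    · rw [Nat.sub_add_cancel (by omega), h2, add_sub_cancel]
    · rw [h4]
      ring
  have hne : ∀ j, P j = true → j ≠ j0 := by
    rintro j h rfl
    exact hnt _ hj0 h
  have key : ∀ t : ℕ, t < f → P (j0 + (t : ℕ)) = true → R (j0 + (t : ℕ)) (Q' t) := by
    intro t
    induction t with
    | zero =>
      intro _ h
      rw [Nat.cast_zero, add_zero] at h
      exact absurd h (hnt _ hj0)
    | succ t ih =>
      intro ht h
      have e : j0 + ((t + 1 : ℕ) : ZMod f) - 1 = j0 + (t : ZMod f) := by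
        push_cast
        ring
      rw [hQs]
      by_cases h1 : P (j0 + (t : ℕ)) = true
      · rw [if_pos h1]
        refine hm _ _ h (by rw [e]; exact h1) ?_
        rw [e]
        exact ih (by omega) h1
      · rw [if_neg h1]
        refine hq (t + 1) h ?_
        rw [e]
        exact (hPf _).resolve_left h1
  refine ⟨fun j => Q' (j - j0).val, ?_, ?_⟩
  · intro j h1 h2
    obtain ⟨t, ht1, ht2, ht3, ht4⟩ := hval j (hne j h1)
    show Q' (j - j0).val = Q' (j - 1 - j0).val
    rw [ht1, ht2, hQs, if_pos (by rw [ht4]; exact h2)]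
  · intro j h1
    obtain ⟨t, ht1, ht2, ht3, ht4⟩ := hval j (hne j h1)
    have h2 := key (t + 1) (by rw [← ht1]; exact ZMod.val_lt _) (by rw [ht3]; exact h1)
    rw [ht3] at h2
    show R j (Q' (j - j0).val)
    rw [ht1]
    exact h2

end Pool.Agent.Lib.MP_74d0c9_nt
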