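import Pool.Agent.Lib.MP_74d0c9_nt.XMin
import Pool.Agent.Lib.MP_74d0c9_nt.XFam
import Pool.Agent.Lib.MP_74d0c9_nt.Image

/-! The smallest formal family, with or without words. -/

set_option autoImplicit false
set_option linter.unusedSectionVars false

namespace Pool.Agent.Lib.MP_74d0c9_nt

open HahnSeries IsLocalRing

universe u

section
variable {J S O : Type} [Fintype J] [Fintype S] [Fintype O] [DecidableEq J] {k : Type u} [Field k]

/-- the quotients embed in truncated polynomial rings -/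
theorem exists_min0 (ω : S → J) (n : ℕ) (hn : 0 < n) :
    ∃ (A : Type u) (_ : CommRing A) (_ : Algebra k A) (_ : IsLocalRing A) (l : J → A)
      (w : S → A) (c : Unit ⊕ ((S × Fin 3) ⊕ O) → A)
      (g : (RW k O ω ⧸ maximalIdeal (RW k O ω) ^ n) →ₐ[k] A),
      IsTest k A ∧ (∀ v, c v ∈ maximalIdeal A) ∧
        (∀ z : S × Fin 3, c (Sum.inr (Sum.inl z)) = w z.1 * l (ω z.1) ^ (z.2 : ℕ)) ∧
        (∀ v, g (Ideal.Quotient.mk _ (XM k O ω v)) = c v) ∧ Function.Injective g := by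
  classical
  obtain ⟨A, hA1, hA2, hA3, l, y, g, hT, hl, hy, hny, hg, hinj⟩ :=
    exists_embed_R0 (k := k) (W := WX O ω) n hn
  have key : ∀ v, g (Ideal.Quotient.mk _ (XM k O ω v)) =
      match v with
      | Sum.inl _ => y (Sum.inl ())
      | Sum.inr (Sum.inl z) => y (Sum.inr (Sum.inl z.1)) *
          (l (ω z.1) ^ (z.2 : ℕ) * (1 : A) ^ (2 - (z.2 : ℕ)))
      | Sum.inr (Sum.inr o) => y (Sum.inr (Sum.inr o)) := by
    intro v
    have h1 : g (Ideal.Quotient.mk _ (XM k O ω v)) =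
        (∏ i, y i ^ (ex O ω v).1.1 i) * ∏ r, l r ^ (ex O ω v).1.2 r *
          (1 : A) ^ (2 * ∑ i ∈ WX O ω r, (ex O ω v).1.1 i - (ex O ω v).1.2 r) := by
      refine (hg (ex O ω v)).trans ?_
      rw [mul_comm]
      congr 1
      refine Finset.prod_congr rfl fun r _ => ?_
      rw [one_pow, mul_one]
    rw [h1]
    exact ev_ex y l (fun _ => 1) v
  refine ⟨A, hA1, hA2, hA3, l, fun t => y (Sum.inr (Sum.inl t)), _, g, hT, ?_, ?_,
    fun v => rfl, hinj⟩
  · intro v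
    show g (Ideal.Quotient.mk _ (XM k O ω v)) ∈ _
    rw [key]
    rcases v with v | z | o
    · exact hy _
    · exact Ideal.mul_mem_right _ _ (hy _)
    · exact hy _
  · intro z
    show g (Ideal.Quotient.mk _ (XM k O ω (Sum.inr (Sum.inl z)))) = _
    rw [key]
    show y (Sum.inr (Sum.inl z.1)) * (l (ω z.1) ^ (z.2 : ℕ) * (1 : A) ^ (2 - (z.2 : ℕ))) = _
    rw [one_pow, mul_one]

variable {f p : ℕ} [Fact p.Prime] {B : ZMod f → Mat k}

/-- every formal family which contains the deformations with the coordinates `w_t l_j ^ e` contains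
the family over the local ring of the words -/
theorem smallest0 (ω : S → J) {R : Type u} [CommRing R] [Algebra k R]
    [IsLocalRing R] (hres : Function.Surjective (algebraMap k (ResidueField R)))
    (H0 : ∀ C : ZMod f → Mat k, dk p B C = 0 →
      ∃ c : k, ∀ j, C j = (HahnSeries.C c : LaurentSeries k) • (1 : Mat k))
    (D : Unit ⊕ ((S × Fin 3) ⊕ O) → ZMod f → Mat k)
    (hD : ∀ (r : Unit ⊕ ((S × Fin 3) ⊕ O) → k) (C : ZMod f → Mat k),
      ∑ s, r s • D s = dk p B C → r = 0)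
    (𝓕 : Family B R) (hmono : 𝓕.IsMono p)
    (hkis : ∀ (A : Type u) [CommRing A] [Algebra k A] [IsLocalRing A], IsTest k A →
      ∀ (l : J → A) (w : S → A) (c : Unit ⊕ ((S × Fin 3) ⊕ O) → A),
        (∀ v, c v ∈ maximalIdeal A) →
        (∀ z : S × Fin 3, c (Sum.inr (Sum.inl z)) = w z.1 * l (ω z.1) ^ (z.2 : ℕ)) →
        ∃ (N : ℕ) (ψ : (R ⧸ maximalIdeal R ^ N) →ₐ[k] A),
          Eqv p (maximalIdeal A) (𝓕.push ψ) (famA B D c)) : (famRW B ω D).IsBelow p 𝓕 := by
  intro n hn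
  obtain ⟨A, _, _, _, l, w, c, g0, hA, hc, hcw, hg0, hinj⟩ :=
    exists_min0 (k := k) (O := O) ω n hn
  obtain ⟨N, ψ, hψ⟩ := hkis A hA l w c hc hcw
  obtain ⟨X, hX⟩ : ∃ X : Unit ⊕ ((S × Fin 3) ⊕ O) → RW k O ω ⧸ maximalIdeal (RW k O ω) ^ n,
      X = fun v => Ideal.Quotient.mk _ (XM k O ω v) := ⟨_, rfl⟩
  have hX' : ∀ v, X v = Ideal.Quotient.mk _ (XM k O ω v) := fun v => by rw [hX]
  have e1 : c = fun v => g0 (X v) := funext fun v => by rw [hX', hg0]
  rw [e1] at hψ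
  have hgen : Algebra.adjoin k (Set.range X) = ⊤ := by
    rw [hX]
    exact adjoin_XM (k := k) (O := O) ω n
  have hc' : ∀ v, g0 (X v) ∈ maximalIdeal A := fun v => by
    rw [hX', hg0]
    exact hc v
  rw [famRW_F, ← hX]
  obtain ⟨g, hg, hE⟩ := exists_surj hres H0 D hD 𝓕 hmono X hA g0 hinj hc' hgen ψ hψ
  refine ⟨N, g, hg, hE.mono ?_⟩
  intro y hy
  obtain ⟨z, rfl⟩ := Ideal.Quotient.mk_surjective y
  refine Ideal.mem_map_of_mem _ ?_
  by_contra hz
  have h1 : IsUnit z := by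
    rw [mem_maximalIdeal, mem_nonunits_iff, not_not] at hz
    exact hz
  have h2 : IsUnit (g0 (Ideal.Quotient.mk _ z)) := (h1.map (Ideal.Quotient.mk _)).map g0
  have h3 : g0 (Ideal.Quotient.mk _ z) ∈ maximalIdeal A := hy
  exact (mem_maximalIdeal _).1 h3 h2

end

end Pool.Agent.Lib.MP_74d0c9_nt
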