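import Pool.Agent.Lib.MP_74d0c9_nt.YK3
import Pool.Agent.Lib.MP_74d0c9_nt.YSmall

/-! The image of the Kisin modules, for the étale `φ`-modules `BY`. -/

set_option autoImplicit false

namespace Pool.Agent.Lib.MP_74d0c9_nt

open HahnSeries IsLocalRing

universe u

section
variable {p f : ℕ} [Fact p.Prime] [NeZero f] {a : ZMod f → ℕ} {P : ZMod f → Bool} {O J : Type}
  [Fintype O] [Fintype J] [DecidableEq J] [Fintype {t : ZMod f // P t = true}] {k : Type u}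
  [Field k]

/-- the formal family over the local ring of the words is the image of the Kisin modules -/
theorem isImageY (ha : ∀ i, 1 ≤ a i ∧ a i ≤ p) (hpat : IsPatY p a P) (hP : ∃ t, P t = false)
    (M0 : KisinModule f k) (τ : Unit ⊕ O → ZMod f) (hτ : ∀ v, OutY P (τ v))
    (zv : Unit ⊕ O → Matrix (Fin 2) (Fin 2) k)
    (tan : ∀ Q : ZMod f → GL (Fin 2) k, IsPt P Q → TanY p a P M0 τ zv Q)
    (hres : ∀ (M : KisinModule f k) (T : ZMod f → GL (Fin 2) (LaurentSeries k)),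
      IsHom p (M.frob a) (BY p a P M0) (fun j => (T j).1) →
      ∃ (Q : ZMod f → GL (Fin 2) k) (g : ZMod f → GL (Fin 2) (PowerSeries k)), IsPt P Q ∧
        ∀ j, (T j).1 * gx (g j) = (TY P Q j).1)
    (H0 : ∀ C : ZMod f → Mat k, dk p (BY p a P M0) C = 0 →
      ∃ c : k, ∀ j, C j = (HahnSeries.C c : LaurentSeries k) • (1 : Mat k))
    (hD : ∀ (r : Unit ⊕ (({t : ZMod f // P t = true} × Fin 3) ⊕ O) → k) (C : ZMod f → Mat k),
      ∑ s, r s • DY p a P M0 τ zv s = dk p (BY p a P M0) C → r = 0)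
    (ω : {t : ZMod f // P t = true} → J)
    (hω : ∀ (t : ZMod f) (h : P t = true) (h' : P (t - 1) = true),
      ω ⟨t, h⟩ = ω ⟨t - 1, h'⟩)
    (rep : J → ZMod f)
    (hrep : ∀ (A : Type u) [CommRing A] (Q : ZMod f → GL (Fin 2) A), IsPt P Q →
      ∀ t : {t : ZMod f // P t = true}, Q t.1 = Q (rep (ω t))) :
    (famRW (BY p a P M0) ω (DY p a P M0 τ zv)).IsImage p a := by
  refine ⟨famRW_mono H0 hD, famRW_hasKisin a ?_, ?_⟩
  · intro A _ _ _ hA F hF hF'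
    obtain ⟨Q, w, x, hQ, hw, hx, hE⟩ :=
      kisin_formY ha hpat hP M0 τ hτ zv tan hres hA F hF hF'
    refine ⟨cY P Q w x, fun t => w t.1 * (Q t.1)⁻¹.1.det, fun j => (Q (rep j)).1 1 0,
      fun j => (Q (rep j)).1 0 0, hx _, fun t => Ideal.mul_mem_right _ _ (hw _), fun o => hx _,
      fun z => ?_, hE⟩
    show w z.1.1 * (Q z.1.1)⁻¹.1.det *
      ((Q z.1.1).1 1 0 ^ (z.2 : ℕ) * (Q z.1.1).1 0 0 ^ (2 - (z.2 : ℕ))) =
      w z.1.1 * (Q z.1.1)⁻¹.1.det *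
        ((Q (rep (ω z.1))).1 1 0 ^ (z.2 : ℕ) * (Q (rep (ω z.1))).1 0 0 ^ (2 - (z.2 : ℕ)))
    rw [← hrep A Q hQ z.1]
  · intro R _ _ _ hR 𝓕 hmono hkis
    exact smallest0 ω hR H0 _ hD 𝓕 hmono fun A _ _ _ hA l w c hc hcw =>
      hkis A hA _ (isDef_famA _ _ _ _ hc)
        (fromKisin_famA hA hpat M0 τ hτ zv ω hω l w c hc hcw)

end

end Pool.Agent.Lib.MP_74d0c9_nt
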