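import Pool.Agent.Lib.MP_74d0c9_nt.YDefs
import Pool.Agent.Lib.MP_74d0c9_nt.Basis

/-! Independence of the directions: the poles of an infinitesimal isomorphism. -/

set_option autoImplicit false

namespace Pool.Agent.Lib.MP_74d0c9_nt

open HahnSeries

universe u

/-- a sequence of `0`s and `1`s on the cycle with two consecutive `0`s and a `1` -/
theorem yind_run {f : ℕ} [NeZero f] {n : ZMod f → ℕ} (hn : ∀ i, n i ≤ 1)
    {j i1 : ZMod f} (hj : n (j - 1) = 0) (hj' : n j = 0) (hi1 : n i1 = 1) :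
    ∃ (i : ZMod f) (m : ℕ), 2 ≤ m ∧ m < f ∧ n (i - 1) = 0 ∧
      (∀ s : ℕ, s < m - 1 → n (i + s) = 1) ∧ n (i + (m - 1 : ℕ)) = 0 := by
  classical
  have hf : 0 < f := Nat.pos_of_ne_zero (NeZero.ne f)
  have ht1 : ∃ t : ℕ, n (j + t) = 1 := ⟨(i1 - j).val, by
    rw [ZMod.natCast_val, ZMod.cast_id', id_eq, add_sub_cancel]; exact hi1⟩
  obtain ⟨t0, ht0⟩ : ∃ t0, t0 = Nat.find ht1 := ⟨_, rfl⟩
  have hts : n (j + t0) = 1 := ht0 ▸ Nat.find_spec ht1
  have htm : ∀ t < t0, n (j + t) = 0 := by
    intro t ht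
    have h1 := Nat.find_min ht1 (ht0 ▸ ht)
    have := hn (j + t)
    omega
  have hpos : t0 ≠ 0 := by
    rintro h
    rw [h, Nat.cast_zero, add_zero] at hts
    omega
  have htlt : t0 < f := by
    have h1 : t0 ≤ (i1 - j).val := by
      rw [ht0]
      apply Nat.find_min'
      rw [ZMod.natCast_val, ZMod.cast_id', id_eq, add_sub_cancel]; exact hi1
    exact lt_of_le_of_lt h1 (ZMod.val_lt _)
  have hf1 : ((f - 1 : ℕ) : ZMod f) = -1 := by
    have : ((f - 1 + 1 : ℕ) : ZMod f) = 0 := by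
      rw [Nat.sub_add_cancel hf, ZMod.natCast_self]
    push_cast at this
    exact eq_neg_of_add_eq_zero_left this
  have htne : t0 ≠ f - 1 := by
    rintro h
    rw [h, hf1, ← sub_eq_add_neg] at hts
    omega
  obtain ⟨i, hi⟩ : ∃ i : ZMod f, i = j + t0 := ⟨_, rfl⟩
  have hi1' : n (i - 1) = 0 := by
    have e : i - 1 = j + ((t0 - 1 : ℕ) : ZMod f) := by
      rw [hi, Nat.cast_sub (by omega)]
      push_cast
      ring
    rw [e]
    exact htm _ (by omega)
  have hi0 : n i = 1 := by rw [hi]; exact hts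
  have hs1 : n (i + ((f - 1 - t0 : ℕ) : ZMod f)) = 0 := by
    have e : i + ((f - 1 - t0 : ℕ) : ZMod f) = j - 1 := by
      rw [Nat.cast_sub (by omega), hf1, hi]
      ring
    rw [e]
    exact hj
  have hs : ∃ s : ℕ, n (i + s) = 0 := ⟨_, hs1⟩
  obtain ⟨s0, hs0⟩ : ∃ s0, s0 = Nat.find hs := ⟨_, rfl⟩
  have hss : n (i + s0) = 0 := hs0 ▸ Nat.find_spec hs
  have hsm : ∀ s < s0, n (i + s) = 1 := by
    intro s h
    have h1 := Nat.find_min hs (hs0 ▸ h)
    have := hn (i + s)
    omega
  have hsle : s0 ≤ f - 1 - t0 := by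
    rw [hs0]
    exact Nat.find_min' hs hs1
  have hspos : s0 ≠ 0 := by
    rintro h
    rw [h, Nat.cast_zero, add_zero] at hss
    omega
  refine ⟨i, s0 + 1, by omega, by omega, hi1', fun s h => hsm s (by omega), ?_⟩
  rw [Nat.add_sub_cancel]
  exact hss

section
variable {A : Type u} [CommRing A]

theorem yind_pole_add {C y : Mat A} (hy : MGE y 0) : pole (C + y) = pole C := by
  unfold pole
  congr 1
  ext n
  constructor
  · intro h r s j hj
    have h1 := h r s j hj
    have h2 := hy r s j (by omega)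
    rw [Matrix.add_apply, coeff_add, h2, add_zero] at h1
    exact h1
  · intro h r s j hj
    rw [Matrix.add_apply, coeff_add, h r s j hj, hy r s j (by omega), add_zero]

theorem yind_lead_add {C y : Mat A} (hy : MGE y 0) : lead (C + y) (-1) = lead C (-1) := by
  refine Matrix.ext fun r s => ?_
  show ((C + y) r s).coeff (-1) = (C r s).coeff (-1)
  rw [Matrix.add_apply, coeff_add, hy r s (-1) (by omega), add_zero]

theorem yind_const_MGE (z : Matrix (Fin 2) (Fin 2) A) : MGE (z.map HahnSeries.C) 0 := by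
  intro r s j hj
  show (HahnSeries.C (z r s) : LaurentSeries A).coeff j = 0
  rw [HahnSeries.C_apply, coeff_single_of_ne (by omega)]

theorem yind_neg_MGE {y : Mat A} {m : ℤ} (hy : MGE y m) : MGE (-y) m := by
  intro r s j hj
  rw [Matrix.neg_apply, coeff_neg, hy r s j hj, neg_zero]

theorem yind_add_MGE {x y : Mat A} {m : ℤ} (hx : MGE x m) (hy : MGE y m) : MGE (x + y) m :=
  fun r s => (hx r s).add (hy r s)

theorem yind_phi_MGE (p : ℕ) [Fact p.Prime] {x : Mat A} (hx : MGE x 0) :
    MGE (x.map (phi A p)) 0 := by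
  intro r s
  have := phi_GE p (hx r s)
  rw [mul_zero] at this
  exact this

/-- the pole order at a position where the Frobenius is a scalar -/
theorem yind_grow (p : ℕ) [Fact p.Prime] {C' x : Mat A} (hx : MGE x (-1)) (h : 1 ≤ pole C') :
    p * pole C' ≤ pole (C'.map (phi A p) + x) := by
  have hp2 : 2 ≤ p := (Fact.out : p.Prime).two_le
  obtain ⟨r, s, hrs⟩ := pole_ne h
  have h1 : ((C'.map (phi A p) + x) r s).coeff (-((p * pole C' : ℕ) : ℤ)) ≠ 0 := by
    have e : (-((p * pole C' : ℕ) : ℤ)) = (p : ℤ) * (-(pole C' : ℤ)) := by push_cast; ring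
    rw [Matrix.add_apply, coeff_add, Matrix.map_apply, e, phi_coeff, hx r s _ (by nlinarith),
      add_zero]
    exact hrs
  exact pole_ge h1

end

section
variable {k : Type u} [Field k] {p f : ℕ} [Fact p.Prime] {a : ZMod f → ℕ}
  {P : ZMod f → Bool} {M : KisinModule f k}

/-- the relation of one step with an inhomogeneous term -/
theorem yind_rel (j : ZMod f) {C C' y : Mat k} {z : Matrix (Fin 2) (Fin 2) k}
    (h : C * M.frob a j - M.frob a j * C'.map (phi k p) =
      y * M.frob a j + M.frob a j * z.map HahnSeries.C) :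
    Rel p (a j) (gx (M.X j)⁻¹ * (C + -y) * gx (M.X j))
      (gz (M.Z j) * (C' + z.map HahnSeries.C) * gz (M.Z j)⁻¹) := by
  apply Rel.of_eq
  have hF : M.frob a j = gx (M.X j) * du (a j) * gz (M.Z j) := rfl
  have e1 : gz (M.Z j) * gz (M.Z j)⁻¹ = 1 := by rw [← gz_mul, mul_inv_cancel, gz_one]
  have e2 : gx (M.X j)⁻¹ * gx (M.X j) = 1 := by rw [← gx_mul, inv_mul_cancel, gx_one]
  have hz : (z.map HahnSeries.C : Mat k).map (phi k p) = z.map HahnSeries.C :=
    Matrix.ext fun r s => phi_C p (z r s)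
  have h2 : (gz (M.Z j) * (C' + z.map HahnSeries.C) * gz (M.Z j)⁻¹).map (phi k p) =
      gz (M.Z j) * (C'.map (phi k p) + z.map HahnSeries.C) * gz (M.Z j)⁻¹ := by
    rw [Matrix.map_mul, Matrix.map_mul, phi_gz, phi_gz, map_add_phi, hz]
  have h1 : (C + -y) * M.frob a j = M.frob a j * (C'.map (phi k p) + z.map HahnSeries.C) := by
    rw [Matrix.add_mul, Matrix.neg_mul, Matrix.mul_add]
    have h3 : C * M.frob a j = M.frob a j * C'.map (phi k p) +
        (y * M.frob a j + M.frob a j * z.map HahnSeries.C) := by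
      rw [← h]
      abel
    rw [h3]
    abel
  rw [h2]
  rw [hF] at h1
  calc gx (M.X j)⁻¹ * (C + -y) * gx (M.X j) * du (a j)
      = gx (M.X j)⁻¹ * ((C + -y) * (gx (M.X j) * du (a j) * gz (M.Z j))) * gz (M.Z j)⁻¹ := by
        simp only [Matrix.mul_assoc]
        rw [e1, Matrix.mul_one]
    _ = gx (M.X j)⁻¹ * (gx (M.X j) * du (a j) * gz (M.Z j) *
          (C'.map (phi k p) + z.map HahnSeries.C)) * gz (M.Z j)⁻¹ := by rw [h1]
    _ = (gx (M.X j)⁻¹ * gx (M.X j)) *
          (du (a j) * (gz (M.Z j) * (C'.map (phi k p) + z.map HahnSeries.C) *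
            gz (M.Z j)⁻¹)) := by
        simp only [Matrix.mul_assoc]
    _ = _ := by rw [e2, Matrix.one_mul]

theorem yind_pole_H (j : ZMod f) {C y : Mat k} (hy : MGE y 0) :
    pole (gx (M.X j)⁻¹ * (C + -y) * gx (M.X j)) = pole C := by
  rw [← yind_pole_add (C := C) (yind_neg_MGE hy)]
  apply pole_congr
  intro m
  exact MGE_conj (gx_MGE _) (gx_MGE (M.X j)) (gx_MGE _) (gx_MGE (M.X j)⁻¹)
    (by rw [← gx_mul, mul_inv_cancel, gx_one]) (by rw [← gx_mul, mul_inv_cancel, gx_one]) m

theorem yind_pole_K (j : ZMod f) {C' : Mat k} (z : Matrix (Fin 2) (Fin 2) k) :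
    pole (gz (M.Z j) * (C' + z.map HahnSeries.C) * gz (M.Z j)⁻¹) = pole C' := by
  rw [← yind_pole_add (C := C') (yind_const_MGE z)]
  apply pole_congr
  intro m
  exact MGE_conj (gz_MGE _) (gz_MGE (M.Z j)⁻¹) (gz_MGE _) (gz_MGE (M.Z j))
    (by rw [← gz_mul, inv_mul_cancel, gz_one]) (by rw [← gz_mul, inv_mul_cancel, gz_one]) m

/-- the relation between the leading coefficients -/
theorem yind_lead (i : ZMod f) {C y : Mat k} {z : Matrix (Fin 2) (Fin 2) k} (hC : MGE C (-1))
    (hy : MGE y 0) :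
    lead (gz (M.Z (i + 1)) * (C + z.map HahnSeries.C) * gz (M.Z (i + 1))⁻¹) (-1) * M.Y i =
      M.Y i * lead (gx (M.X i)⁻¹ * (C + -y) * gx (M.X i)) (-1) := by
  have hy' := yind_neg_MGE hy
  have hz' := yind_const_MGE (A := k) z
  have h1 : lead (gz (M.Z (i + 1)) * (C + z.map HahnSeries.C) * gz (M.Z (i + 1))⁻¹) (-1) =
      (M.Z (i + 1)).1 * lead C (-1) * ((M.Z (i + 1))⁻¹).1 := by
    have a1 := (gz_MGE (M.Z (i + 1))).mul (yind_add_MGE hC (hz'.mono (by omega)))
    rw [zero_add] at a1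
    have a2 := a1.1.mul (gz_MGE (M.Z (i + 1))⁻¹)
    rw [add_zero] at a2
    rw [a2.2, a1.2, lead_gz, lead_gz, yind_lead_add hz']
  have h2 : lead (gx (M.X i)⁻¹ * (C + -y) * gx (M.X i)) (-1) =
      ((M.X i)⁻¹).1.map PowerSeries.constantCoeff * lead C (-1) *
        (M.X i).1.map PowerSeries.constantCoeff := by
    have a1 := (gx_MGE (M.X i)⁻¹).mul (yind_add_MGE hC (hy'.mono (by omega)))
    rw [zero_add] at a1
    have a2 := a1.1.mul (gx_MGE (M.X i))
    rw [add_zero] at a2
    rw [a2.2, a1.2, lead_gx, lead_gx, yind_lead_add hy']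
  have e1 : ((M.Z (i + 1))⁻¹).1 * (M.Z (i + 1)).1 = 1 := by
    rw [← Units.val_mul, inv_mul_cancel, Units.val_one]
  have e2 : (M.X i).1.map PowerSeries.constantCoeff *
      ((M.X i)⁻¹).1.map PowerSeries.constantCoeff = (1 : Matrix (Fin 2) (Fin 2) k) := by
    rw [← Matrix.map_mul, ← Units.val_mul, mul_inv_cancel, Units.val_one,
      Matrix.map_one _ (map_zero _) (map_one _)]
  rw [h1, h2]
  unfold KisinModule.Y
  calc (M.Z (i + 1)).1 * lead C (-1) * ((M.Z (i + 1))⁻¹).1 *
        ((M.Z (i + 1)).1 * (M.X i).1.map PowerSeries.constantCoeff)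
      = (M.Z (i + 1)).1 * lead C (-1) * (((M.Z (i + 1))⁻¹).1 * (M.Z (i + 1)).1) *
        (M.X i).1.map PowerSeries.constantCoeff := by simp only [Matrix.mul_assoc]
    _ = (M.Z (i + 1)).1 * ((M.X i).1.map PowerSeries.constantCoeff *
        ((M.X i)⁻¹).1.map PowerSeries.constantCoeff) * lead C (-1) *
        (M.X i).1.map PowerSeries.constantCoeff := by
        rw [e1, e2, Matrix.mul_one, Matrix.mul_one]
    _ = _ := by simp only [Matrix.mul_assoc]

end

section
variable {k : Type u} [Field k] {p f : ℕ} [Fact p.Prime] [NeZero f] {a : ZMod f → ℕ}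
  {P : ZMod f → Bool} {M : KisinModule f k}

omit [Fact p.Prime] [NeZero f] in
/-- a scalar matrix of the pattern -/
theorem yind_scalar {j : ZMod f} (h : ¬ OutY P j) :
    ∃ q : ℤ, (BY p a P M j : Mat k) = (un q : LaurentSeries k) • (1 : Mat k) := by
  have e : ∀ q : ℤ, (!![un q, 0; 0, un q] : Mat k) =
      (un q : LaurentSeries k) • (1 : Mat k) := by
    intro q
    refine Matrix.ext fun r s => ?_
    rw [Matrix.smul_apply, Matrix.one_apply, smul_eq_mul]
    fin_cases r <;> fin_cases s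
    · exact (mul_one _).symm
    · exact (mul_zero _).symm
    · exact (mul_zero _).symm
    · exact (mul_one _).symm
  unfold BY
  by_cases h1 : P j = true
  · rw [if_pos h1]
    by_cases h2 : P (j - 1) = true
    · rw [if_pos h2]
      exact ⟨_, e _⟩
    · rw [if_neg h2]
      exact ⟨0, by rw [un_zero, one_smul]⟩
  · rw [if_neg h1]
    by_cases h2 : P (j - 1) = true
    · rw [if_pos h2]
      exact ⟨_, e _⟩
    · exact absurd ⟨by simpa using h1, by simpa using h2⟩ h

omit [Fact p.Prime] [NeZero f] in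
theorem yind_out {j : ZMod f} (h : OutY P j) : (BY p a P M j : Mat k) = M.frob a j := by
  unfold BY
  rw [if_neg (by rw [h.1]; decide), if_neg (by rw [h.2]; decide)]

/-- An infinitesimal isomorphism `C` between deformations in the directions `N_j B_j` (poles of
order one at the pattern) and `y_j B_j + B_j z_j` is integral, and so is `N`. -/
theorem integralY [IsAlgClosed k] (hp : 5 ≤ p) (ha : ∀ i, 1 ≤ a i ∧ a i ≤ p)
    (hirr : Irred p (BY p a P M)) (hno : NoWordY p a P M) (N y C : ZMod f → Mat k)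
    (z : ZMod f → Matrix (Fin 2) (Fin 2) k) (hN : ∀ j, MGE (N j) (-1))
    (hN0 : ∀ j, P j = false → N j = 0) (hy : ∀ j, MGE (y j) 0)
    (hz : ∀ j, ¬ OutY P j → z j = 0)
    (h : ∀ j, C j * BY p a P M j - BY p a P M j * (C (j - 1)).map (phi k p) =
      N j * BY p a P M j + y j * BY p a P M j + BY p a P M j * (z j).map HahnSeries.C) :
    (∀ j, MGE (C j) 0) ∧ ∀ j, MGE (N j) 0 := by
  have hp0 : 0 < p := by omega
  -- the equation at a scalar position
  have hsc : ∀ j, ¬ OutY P j → C j = (C (j - 1)).map (phi k p) + (N j + y j) := by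
    intro j hj
    obtain ⟨q, hq⟩ := yind_scalar (p := p) (a := a) (M := M) hj
    have h1 := h j
    have h0 : ((z j).map HahnSeries.C : Mat k) = 0 := by
      rw [hz j hj]
      exact Matrix.map_zero _ (map_zero _)
    rw [hq, h0, Matrix.mul_zero, add_zero, Matrix.mul_smul, Matrix.smul_mul, Matrix.mul_smul,
      Matrix.mul_smul, Matrix.mul_one, Matrix.one_mul, Matrix.mul_one, Matrix.mul_one, ← smul_sub,
      ← smul_add] at h1
    have h2 := congrArg (fun X : Mat k => (un (-q) : LaurentSeries k) • X) h1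
    simp only [smul_smul, un_neg_mul, one_smul] at h2
    rw [← h2]
    abel
  have hrel : ∀ j, OutY P j → Rel p (a j) (gx (M.X j)⁻¹ * (C j + -y j) * gx (M.X j))
      (gz (M.Z j) * (C (j - 1) + (z j).map HahnSeries.C) * gz (M.Z j)⁻¹) := by
    intro j hj
    apply yind_rel
    have h1 := h j
    rw [hN0 j hj.1, Matrix.zero_mul, zero_add, yind_out hj] at h1
    exact h1
  have hNy : ∀ j, MGE (N j + y j) (-1) := fun j =>
    yind_add_MGE (hN j) ((hy j).mono (by omega))
  have hgrow : ∀ j, 2 ≤ pole (C (j - 1)) → pole (C (j - 1)) + 1 ≤ pole (C j) := by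
    intro j hj
    by_cases ho : OutY P j
    · have h1 := (hrel j ho).grow hp (ha j).1 (ha j).2 (by rw [yind_pole_K]; exact hj)
      rw [yind_pole_K, yind_pole_H j (hy j)] at h1
      exact h1
    · have h1 := yind_grow p (hNy j) (show 1 ≤ pole (C (j - 1)) by omega)
      rw [← hsc j ho] at h1
      nlinarith
  have hle : ∀ j, pole (C j) ≤ 1 := by
    intro i
    by_contra hc
    have key : ∀ n : ℕ, pole (C i) + n ≤ pole (C (i + n)) := by
      intro n
      induction n with
      | zero => simp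
      | succ n ih =>
        have e : i + ((n + 1 : ℕ) : ZMod f) - 1 = i + n := by push_cast; ring
        have h1 := hgrow (i + ((n + 1 : ℕ) : ZMod f))
        rw [e] at h1
        have h2 := h1 (by omega)
        omega
    have h3 := key f
    rw [ZMod.natCast_self, add_zero] at h3
    have hf : f ≠ 0 := NeZero.ne f
    omega
  have hno1 : ∀ j, ¬ OutY P j → pole (C (j - 1)) = 0 := by
    intro j hj
    by_contra hc
    have h1 := yind_grow p (hNy j) (show 1 ≤ pole (C (j - 1)) by omega)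
    rw [← hsc j hj] at h1
    have h2 := hle j
    have h3 : 1 ≤ pole (C (j - 1)) := by omega
    nlinarith
  have hP0 : ∀ j, P j = true → pole (C j) = 0 := by
    intro j hj
    have h1 := hno1 (j + 1) (by
      rintro ⟨-, h2⟩
      rw [add_sub_cancel_right, hj] at h2
      exact Bool.noConfusion h2)
    rw [add_sub_cancel_right] at h1
    exact h1
  have hno2 : ∀ j, ¬ OutY P j → pole (C j) = 0 := by
    intro j hj
    by_cases h1 : P j = true
    · exact hP0 j h1
    · rw [pole_eq_zero_iff]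
      have h2 := pole_eq_zero_iff.1 (hno1 j hj)
      rw [hsc j hj, hN0 j (by simpa using h1), zero_add]
      exact yind_add_MGE (yind_phi_MGE p h2) (hy j)
  have hNint : ∀ j, MGE (N j) 0 := by
    intro j
    by_cases h1 : P j = true
    · have hj : ¬ OutY P j := fun h2 => by
        have h3 := h2.1
        rw [h1] at h3
        exact Bool.noConfusion h3
      have e : N j = C j + -((C (j - 1)).map (phi k p)) + -(y j) := by
        have e1 := hsc j hj
        have e2 : N j = C j - (C (j - 1)).map (phi k p) - y j := by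
          rw [e1]
          abel
        rw [e2]
        abel
      rw [e]
      exact yind_add_MGE (yind_add_MGE (pole_eq_zero_iff.1 (hP0 j h1))
        (yind_neg_MGE (yind_phi_MGE p (pole_eq_zero_iff.1 (hno1 j hj))))) (yind_neg_MGE (hy j))
    · rw [hN0 j (by simpa using h1)]
      exact fun r s => GE.zero 0
  refine ⟨fun i1 => ?_, hNint⟩
  by_contra hi
  have hi1 : pole (C i1) = 1 := by
    have h0 : pole (C i1) ≠ 0 := fun h => hi (pole_eq_zero_iff.1 h)
    have := hle i1
    omega
  have hout : ∀ i, pole (C i) = 1 → OutY P i ∧ OutY P (i + 1) := by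
    intro i h1
    constructor
    · by_contra hc
      have := hno2 i hc
      omega
    · by_contra hc
      have := hno1 (i + 1) hc
      rw [add_sub_cancel_right] at this
      omega
  -- the next position after a pole
  have hnext : ∀ i, pole (C i) = 1 →
      lead (gz (M.Z (i + 1)) * (C i + (z (i + 1)).map HahnSeries.C) * gz (M.Z (i + 1))⁻¹)
        (-1) 0 1 ≠ 0 ∧
      lead (gz (M.Z (i + 1)) * (C i + (z (i + 1)).map HahnSeries.C) * gz (M.Z (i + 1))⁻¹)
        (-1) 0 0 = 0 := by
    intro i h1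
    have hr := hrel (i + 1) (hout i h1).2
    rw [add_sub_cancel_right] at hr
    have h2 := hr.one hp (ha (i + 1)).2 (by rw [yind_pole_K]; exact h1)
      (by rw [yind_pole_H _ (hy _)]; exact hle _)
    exact ⟨h2.1, h2.2.1⟩
  have hlead : ∀ i, pole (C i) = 1 →
      lead (gz (M.Z (i + 1)) * (C i + (z (i + 1)).map HahnSeries.C) * gz (M.Z (i + 1))⁻¹) (-1) *
        M.Y i = M.Y i * lead (gx (M.X i)⁻¹ * (C i + -y i) * gx (M.X i)) (-1) := by
    intro i h1
    refine yind_lead i ?_ (hy i)
    have h2 := pole_spec (C i)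
    rw [h1] at h2
    simpa using h2
  have h01 : ∀ i, pole (C (i - 1)) = 0 → pole (C i) = 1 → a i = 1 ∧ M.Y i 1 1 = 0 := by
    intro i h0 h1
    have h2 := (hrel i (hout i h1).1).new (ha i).1 (ha i).2 (by rw [yind_pole_K]; exact h0)
      (by rw [yind_pole_H _ (hy _)]; exact h1)
    refine ⟨h2.1, ?_⟩
    obtain ⟨hb, hb0⟩ := hnext i h1
    have e := congrFun (congrFun (hlead i h1) 0) 1
    rw [Matrix.mul_apply, Matrix.mul_apply, Fin.sum_univ_two, Fin.sum_univ_two, hb0, zero_mul,
      zero_add] at e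
    have z0 : lead (gx (M.X i)⁻¹ * (C i + -y i) * gx (M.X i)) (-1) 0 1 = 0 := h2.2.2.1
    have z1 : lead (gx (M.X i)⁻¹ * (C i + -y i) * gx (M.X i)) (-1) 1 1 = 0 := h2.2.2.2
    rw [z0, z1, mul_zero, mul_zero, add_zero] at e
    exact (mul_eq_zero.1 e).resolve_left hb
  have h1x : ∀ i, pole (C (i - 1)) = 1 →
      ((pole (C i) = 1 ∧ a i = p - 1 ∧
        lead (gx (M.X i)⁻¹ * (C i + -y i) * gx (M.X i)) (-1) 0 0 = 0 ∧
        lead (gx (M.X i)⁻¹ * (C i + -y i) * gx (M.X i)) (-1) 1 0 = 0) ∨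
        (pole (C i) = 0 ∧ a i = p)) := by
    intro i h0
    have ho : OutY P i := by
      have h2 := (hout (i - 1) h0).2
      rw [sub_add_cancel] at h2
      exact h2
    have h2 := (hrel i ho).one hp (ha i).2 (by rw [yind_pole_K]; exact h0)
      (by rw [yind_pole_H _ (hy _)]; exact hle i)
    rw [yind_pole_H _ (hy _)] at h2
    rcases h2.2.2.2.2 with h3 | h3
    · exact Or.inl ⟨h3.1, h3.2.1, h3.2.2.1, h3.2.2.2.1⟩
    · exact Or.inr h3
  have h11 : ∀ i, pole (C (i - 1)) = 1 → pole (C i) = 1 → a i = p - 1 ∧ M.Y i 1 0 = 0 := by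
    intro i h0 h1
    rcases h1x i h0 with h3 | h3
    · refine ⟨h3.2.1, ?_⟩
      obtain ⟨hb, hb0⟩ := hnext i h1
      have e := congrFun (congrFun (hlead i h1) 0) 0
      rw [Matrix.mul_apply, Matrix.mul_apply, Fin.sum_univ_two, Fin.sum_univ_two, hb0, zero_mul,
        zero_add, h3.2.2.1, h3.2.2.2, mul_zero, mul_zero, add_zero] at e
      exact (mul_eq_zero.1 e).resolve_left hb
    · omega
  have h10 : ∀ i, pole (C (i - 1)) = 1 → pole (C i) = 0 → a i = p := by
    intro i h0 h1
    rcases h1x i h0 with h3 | h3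
    · omega
    · exact h3.2
  by_cases h00 : ∀ i, pole (C (i - 1)) = 0 → pole (C i) = 1
  · have hPf : ∀ j, OutY P j := by
      intro j
      by_contra hc
      have h1 := h00 j (hno1 j hc)
      have h2 := hno2 j hc
      omega
    have hB : BY p a P M = M.frob a := funext fun j => yind_out (hPf j)
    rw [hB] at hirr
    exact reducible (M := M) (n := fun i => pole (C i)) hp hle h00 h01 h11 h10 hirr
  · push Not at h00
    obtain ⟨j, hj, hj'⟩ := h00
    have hj0 : pole (C j) = 0 := by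
      have := hle j
      omega
    obtain ⟨i, m, hm2, hmf, hi0, hs1, hs0⟩ :=
      yind_run (n := fun i => pole (C i)) hle hj hj0 hi1
    have hpi : pole (C i) = 1 := by
      have h1 := hs1 0 (by omega)
      rw [Nat.cast_zero, add_zero] at h1
      exact h1
    have hprev : ∀ s : ℕ, 0 < s → s < m → pole (C (i + (s : ZMod f) - 1)) = 1 := by
      intro s h1 h2
      have e : i + (s : ZMod f) - 1 = i + ((s - 1 : ℕ) : ZMod f) := by
        rw [Nat.cast_sub (by omega)]
        push_cast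
        ring
      rw [e]
      exact hs1 _ (by omega)
    refine hno i m ⟨hm2, hmf, (h01 i hi0 hpi).1, fun s h1 h2 => ?_, ?_⟩ (fun s hs => ?_)
      (h01 i hi0 hpi).2 (fun s h1 h2 => ?_)
    · exact (h11 _ (hprev s h1 (by omega)) (hs1 s h2)).1
    · exact h10 _ (hprev _ (by omega) (by omega)) hs0
    · rcases Nat.eq_zero_or_pos s with h1 | h1
      · rw [h1, Nat.cast_zero, add_zero]
        exact (hout i hpi).1
      · have h2 := (hout _ (hprev s h1 hs)).2
        rw [sub_add_cancel] at h2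
        exact h2
    · exact (h11 _ (hprev s h1 (by omega)) (hs1 s h2)).2

/-- the coordinates of a combination of the directions of the pattern -/
theorem yind_M3 (r : Fin 3 → k)
    (h : MGE (∑ e, (HahnSeries.C (r e) : LaurentSeries k) • (M3 e : Mat k)) 0) : r = 0 := by
  have e : ∀ a b : Fin 2, (∑ e, (HahnSeries.C (r e) : LaurentSeries k) • (M3 e : Mat k)) a b =
      HahnSeries.C (r 0) * M3 0 a b + HahnSeries.C (r 1) * M3 1 a b +
        HahnSeries.C (r 2) * M3 2 a b := by
    intro a b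
    rw [Fin.sum_univ_three, Matrix.add_apply, Matrix.add_apply, Matrix.smul_apply,
      Matrix.smul_apply, Matrix.smul_apply, smul_eq_mul, smul_eq_mul, smul_eq_mul]
  have h0 := h 0 1 (-1) (by omega)
  have h1 := h 1 1 (-1) (by omega)
  have h2 := h 1 0 (-1) (by omega)
  rw [e] at h0 h1 h2
  have c : ∀ x : k, (HahnSeries.C x * un (-1) : LaurentSeries k).coeff (-1) = x := by
    intro x
    rw [C_un, coeff_single_same]
  have f0 : (HahnSeries.C (r 0) * M3 0 0 1 + HahnSeries.C (r 1) * M3 1 0 1 +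
      HahnSeries.C (r 2) * M3 2 0 1 : LaurentSeries k) = HahnSeries.C (r 0) * un (-1) := by
    show HahnSeries.C (r 0) * un (-1) + HahnSeries.C (r 1) * 0 + HahnSeries.C (r 2) * 0 = _
    ring
  have f1 : (HahnSeries.C (r 0) * M3 0 1 1 + HahnSeries.C (r 1) * M3 1 1 1 +
      HahnSeries.C (r 2) * M3 2 1 1 : LaurentSeries k) = HahnSeries.C (r 1) * un (-1) := by
    show HahnSeries.C (r 0) * 0 + HahnSeries.C (r 1) * un (-1) + HahnSeries.C (r 2) * 0 = _
    ring
  have f2 : (HahnSeries.C (r 0) * M3 0 1 0 + HahnSeries.C (r 1) * M3 1 1 0 +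
      HahnSeries.C (r 2) * M3 2 1 0 : LaurentSeries k) = -(HahnSeries.C (r 2) * un (-1)) := by
    show HahnSeries.C (r 0) * 0 + HahnSeries.C (r 1) * 0 + HahnSeries.C (r 2) * -un (-1) = _
    ring
  rw [f0, c] at h0
  rw [f1, c] at h1
  rw [f2, coeff_neg, c, neg_eq_zero] at h2
  funext i
  fin_cases i
  · exact h0
  · exact h1
  · exact h2

/-- Independence of the directions: see `integralY`. -/
theorem indepY [IsAlgClosed k] (hp : 5 ≤ p) (ha : ∀ i, 1 ≤ a i ∧ a i ≤ p)
    (hirr : Irred p (BY p a P M)) (hno : NoWordY p a P M) (r : ZMod f → Fin 3 → k)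
    (y C : ZMod f → Mat k) (z : ZMod f → Matrix (Fin 2) (Fin 2) k)
    (hr : ∀ j, P j = false → r j = 0) (hy : ∀ j, MGE (y j) 0)
    (hz : ∀ j, ¬ OutY P j → z j = 0)
    (h : ∀ j, C j * BY p a P M j - BY p a P M j * (C (j - 1)).map (phi k p) =
      (∑ e, (HahnSeries.C (r j e) : LaurentSeries k) • M3 e) * BY p a P M j +
        y j * BY p a P M j + BY p a P M j * (z j).map HahnSeries.C) :
    r = 0 ∧ ∀ j, MGE (C j) 0 := by
  have hN : ∀ j, MGE (∑ e, (HahnSeries.C (r j e) : LaurentSeries k) • (M3 e : Mat k)) (-1) := by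
    intro j a b v hv
    rw [Matrix.sum_apply, coeff_sum']
    refine Finset.sum_eq_zero fun e _ => ?_
    rw [Matrix.smul_apply, smul_eq_mul, HahnSeries.C_mul_eq_smul]
    have hM : (M3 e a b : LaurentSeries k).coeff v = 0 := by
      unfold M3
      fin_cases e <;> fin_cases a <;> fin_cases b <;>
        simp [coeff_single_of_ne (show v ≠ -1 by omega)]
    show r j e • (M3 e a b : LaurentSeries k).coeff v = 0
    rw [hM, smul_zero]
  have hN0 : ∀ j, P j = false →
      ∑ e, (HahnSeries.C (r j e) : LaurentSeries k) • (M3 e : Mat k) = 0 := by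
    intro j hj
    rw [hr j hj]
    refine Finset.sum_eq_zero fun e _ => ?_
    show (HahnSeries.C ((0 : Fin 3 → k) e) : LaurentSeries k) • (M3 e : Mat k) = 0
    rw [Pi.zero_apply, map_zero, zero_smul]
  obtain ⟨h1, h2⟩ := integralY hp ha hirr hno
    (fun j => ∑ e, (HahnSeries.C (r j e) : LaurentSeries k) • (M3 e : Mat k)) y C z hN hN0 hy hz h
  exact ⟨funext fun j => yind_M3 (r j) (h2 j), h1⟩

end

end Pool.Agent.Lib.MP_74d0c9_nt
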