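import Pool.Agent.Lib.MP_74d0c9_nt.YGlue
import Pool.Agent.Lib.MP_74d0c9_nt.XK0

/-! The points of the residual Kisin variety. -/

set_option autoImplicit false

namespace Pool.Agent.Lib.MP_74d0c9_nt

open HahnSeries

universe u

section
variable {k : Type u} [Field k] {p f : ℕ} [Fact p.Prime]

/-- irreducibility does not depend on the basis -/
theorem irred_of_isoY {F F' : ZMod f → Mat k} (T : ZMod f → GL (Fin 2) (LaurentSeries k))
    (hT : IsHom p F F' fun j => (T j).1) (h : Irred p F') : Irred p F := by
  rintro ⟨v, ν, hv, hvν⟩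
  refine h ⟨fun j => (T j).1.mulVec (v j), ν, fun j hj => hv j ?_, fun j => ?_⟩
  · have h1 : ((T j)⁻¹).1.mulVec ((T j).1.mulVec (v j)) = v j := by
      rw [Matrix.mulVec_mulVec, ← Units.val_mul, inv_mul_cancel, Units.val_one,
        Matrix.one_mulVec]
    dsimp only at hj
    rw [← h1, hj, Matrix.mulVec_zero]
  · have h1 : (fun r => phi k p ((T (j - 1)).1.mulVec (v (j - 1)) r)) =
        ((T (j - 1)).1.map (phi k p)).mulVec (fun r => phi k p (v (j - 1) r)) := by
      funext r
      rw [Matrix.mulVec, Matrix.mulVec, dotProduct, dotProduct, map_sum]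
      exact Finset.sum_congr rfl fun s _ => map_mul _ _ _
    have h2 := hT j
    dsimp only at h2 ⊢
    rw [h1, Matrix.mulVec_mulVec, ← h2, ← Matrix.mulVec_mulVec, hvν, Matrix.mulVec_smul]

variable [NeZero f] {a : ZMod f → ℕ} {P : ZMod f → Bool}

omit [NeZero f] in
/-- a constant invertible matrix -/
noncomputable def cps (q : GL (Fin 2) k) : GL (Fin 2) (PowerSeries k) :=
  Matrix.GeneralLinearGroup.map (PowerSeries.C (R := k)) q

omit [NeZero f] in
theorem gx_cps (q : GL (Fin 2) k) : gx (cps q) = gz q := by
  refine Matrix.ext fun r s => ?_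
  have h1 : gx (cps q) r s = ps (PowerSeries.C (q.1 r s)) := rfl
  have h2 : gz q r s = HahnSeries.C (q.1 r s) := rfl
  rw [h1, h2]
  exact ofPowerSeries_C _

/-- the left factors of the Kisin module at the point `1` -/
noncomputable def stdX (P : ZMod f → Bool) (M : KisinModule f k) (j : ZMod f) :
    GL (Fin 2) (PowerSeries k) :=
  if P j = true then (if P (j - 1) = true then cps sw else 1)
    else if P (j - 1) = true then cps sw else M.X j

/-- the right factors of the Kisin module at the point `1` -/
noncomputable def stdZ (P : ZMod f → Bool) (M : KisinModule f k) (j : ZMod f) : GL (Fin 2) k :=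
  if P j = true then (if P (j - 1) = true then sw else 1)
    else if P (j - 1) = true then sw else M.Z j

/-- the Kisin module at the point `1` -/
noncomputable def stdY (P : ZMod f → Bool) (M : KisinModule f k) : KisinModule f k where
  X := stdX P M
  Z := stdZ P M

omit [NeZero f] in
theorem sw_du_sw (b : ℤ) : gz sw * du b * gz sw = (!![1, 0; 0, un b] : Mat k) := by
  rw [gz_sw, du_two, Matrix.mul_fin_two, Matrix.mul_fin_two]
  apply mat2_congr <;> ring

omit [NeZero f] in
theorem stdY_hom (hp : 1 ≤ p) (hpat : IsPatY p a P) (M : KisinModule f k) :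
    IsHom p ((stdY P M).frob a) (BY p a P M) fun j => (TY P (fun _ => 1) j).1 := by
  have hPf : ∀ j, P j = true ∨ P j = false := fun j => by cases P j <;> simp
  have hnt : ∀ x : Bool, x = false → ¬ x = true := by
    intro x hx
    rw [hx]
    exact fun h => Bool.noConfusion h
  have hpz : ((p - 1 : ℕ) : ℤ) = (p : ℤ) - 1 := by
    push_cast [Nat.cast_sub hp]
    ring
  have hTin : ∀ j, P j = true → (TY P (fun _ => (1 : GL (Fin 2) k)) j).1 =
      !![un (-1), 0; 0, 1] := by
    intro j h
    unfold TY
    rw [if_pos h]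
    have e1 : (gc (1 : GL (Fin 2) k) * tl 0).1 = gz 1 * (tl (0 : k)).1 := rfl
    rw [e1, gz_one, Matrix.one_mul, tl0_eq]
  have hTout : ∀ j, P j = false → (TY P (fun _ => (1 : GL (Fin 2) k)) j).1 = 1 := by
    intro j h
    unfold TY
    rw [if_neg (hnt _ h), Units.val_one]
  have hfrob : ∀ j, (stdY P M).frob a j =
      gx (stdX P M j) * du (a j) * gz (stdZ P M j) := fun _ => rfl
  have hphi : (!![un (-1), 0; 0, 1] : Mat k).map (phi k p) = !![un (-p), 0; 0, 1] := by
    rw [← tl0_eq, tl0_phi]
  intro j
  dsimp only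
  rcases hPf j with h1 | h1
  · rcases hPf (j - 1) with h2 | h2
    · have e1 : (stdY P M).frob a j = !![1, 0; 0, un (p - 1)] := by
        have e2 : stdX P M j = cps sw := by
          unfold stdX
          rw [if_pos h1, if_pos h2]
        have e3 : stdZ P M j = sw := by
          unfold stdZ
          rw [if_pos h1, if_pos h2]
        rw [hfrob, e2, e3, gx_cps, sw_du_sw, hpat.mid j h1 h2, hpz]
      have e2 : BY p a P M j = !![un (p - 1), 0; 0, un (p - 1)] := by
        unfold BY
        rw [if_pos h1, if_pos h2]
      rw [e1, e2, hTin j h1, hTin (j - 1) h2, hphi, Matrix.mul_fin_two, Matrix.mul_fin_two]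
      have e8 : (un ((p : ℤ) - 1) : LaurentSeries k) * un (-p) = un (-1) := by
        rw [un_mul]; congr 1; ring
      apply mat2_congr
      · linear_combination -e8
      · ring
      · ring
      · ring
    · have e1 : (stdY P M).frob a j = !![un 1, 0; 0, 1] := by
        have e2 : stdX P M j = 1 := by
          unfold stdX
          rw [if_pos h1, if_neg (hnt _ h2)]
        have e3 : stdZ P M j = 1 := by
          unfold stdZ
          rw [if_pos h1, if_neg (hnt _ h2)]
        rw [hfrob, e2, e3, gx_one, gz_one, Matrix.one_mul, Matrix.mul_one, hpat.start j h1 h2,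
          du_two]
        rfl
      have e2 : BY p a P M j = 1 := by
        unfold BY
        rw [if_pos h1, if_neg (hnt _ h2)]
      rw [e1, e2, hTin j h1, hTout (j - 1) h2, map_one_phi, Matrix.mul_one, Matrix.mul_fin_two,
        Matrix.one_fin_two]
      apply mat2_congr
      · linear_combination un_neg_mul (k := k) 1
      · ring
      · ring
      · ring
  · rcases hPf (j - 1) with h2 | h2
    · have e1 : (stdY P M).frob a j = !![1, 0; 0, un p] := by
        have e2 : stdX P M j = cps sw := by
          unfold stdX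
          rw [if_neg (hnt _ h1), if_pos h2]
        have e3 : stdZ P M j = sw := by
          unfold stdZ
          rw [if_neg (hnt _ h1), if_pos h2]
        rw [hfrob, e2, e3, gx_cps, sw_du_sw, hpat.stop j h1 h2]
      have e2 : BY p a P M j = !![un p, 0; 0, un p] := by
        unfold BY
        rw [if_neg (hnt _ h1), if_pos h2]
      rw [e1, e2, hTout j h1, hTin (j - 1) h2, hphi, Matrix.one_mul, Matrix.mul_fin_two]
      apply mat2_congr
      · linear_combination -un_mul_neg (k := k) (p : ℤ)
      · ring
      · ring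
      · ring
    · have e1 : (stdY P M).frob a j = M.frob a j := by
        have e2 : stdX P M j = M.X j := by
          unfold stdX
          rw [if_neg (hnt _ h1), if_neg (hnt _ h2)]
        have e3 : stdZ P M j = M.Z j := by
          unfold stdZ
          rw [if_neg (hnt _ h1), if_neg (hnt _ h2)]
        rw [hfrob, e2, e3]
        rfl
      have e2 : BY p a P M j = M.frob a j := by
        unfold BY
        rw [if_neg (hnt _ h1), if_neg (hnt _ h2)]
      rw [e1, e2, hTout j h1, hTout (j - 1) h2, map_one_phi, Matrix.one_mul, Matrix.mul_one]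

omit [NeZero f] in
theorem stdY_Y (M : KisinModule f k) {j : ZMod f} (h : OutY P j) (h' : OutY P (j + 1)) :
    (stdY P M).Y j = M.Y j := by
  have hnt : ∀ x : Bool, x = false → ¬ x = true := by
    intro x hx
    rw [hx]
    exact fun h => Bool.noConfusion h
  have e2 : stdX P M j = M.X j := by
    unfold stdX
    rw [if_neg (hnt _ h.1), if_neg (hnt _ h.2)]
  have e3 : stdZ P M (j + 1) = M.Z (j + 1) := by
    unfold stdZ
    rw [if_neg (hnt _ h'.1), if_neg (hnt _ h'.2)]
  show (stdZ P M (j + 1)).1 * (stdX P M j).1.map PowerSeries.constantCoeff =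
    (M.Z (j + 1)).1 * (M.X j).1.map PowerSeries.constantCoeff
  rw [e2, e3]

omit [Fact p.Prime] [NeZero f] in
/-- a word one of whose first positions is not in the pattern is outside the pattern -/
theorem word_out (hp : 5 ≤ p) (hpat : IsPatY p a P) {i : ZMod f} {m s : ℕ}
    (h : IsWord p f a i m) (hs : s + 1 < m) (hP : P (i + s) = false) :
    ∀ r : ℕ, r < m → OutY P (i + r) := by
  have hPf : ∀ j, P j = true ∨ P j = false := fun j => by cases P j <;> simp
  have hdown : ∀ d : ℕ, d ≤ s → P (i + ((s - d : ℕ) : ZMod f)) = false := by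
    intro d
    induction d with
    | zero => intro _; exact hP
    | succ d ih =>
      intro hd
      have h1 := ih (by omega)
      rcases hPf (i + ((s - (d + 1) : ℕ) : ZMod f)) with h2 | h2
      · exfalso
        have e : i + ((s - d : ℕ) : ZMod f) - 1 = i + ((s - (d + 1) : ℕ) : ZMod f) := by
          rw [show s - d = s - (d + 1) + 1 by omega]
          push_cast
          ring
        have h3 := hpat.stop _ h1 (by rw [e]; exact h2)
        have h4 := h.2.2.2.1 (s - d) (by omega) (by omega)
        omega
      · exact h2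
  have h0 : P i = false := by
    have := hdown s le_rfl
    rwa [Nat.sub_self, Nat.cast_zero, add_zero] at this
  have hup : ∀ r : ℕ, r < m → P (i + r) = false := by
    intro r
    induction r with
    | zero =>
      intro _
      rw [Nat.cast_zero, add_zero]
      exact h0
    | succ r ih =>
      intro hr
      rcases hPf (i + ((r + 1 : ℕ) : ZMod f)) with h2 | h2
      · exfalso
        have e : i + ((r + 1 : ℕ) : ZMod f) - 1 = i + (r : ZMod f) := by
          push_cast
          ring
        have h3 := hpat.start _ h2 (by rw [e]; exact ih (by omega))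
        have h4 := h.entry hr
        omega
      · exact h2
  intro r hr
  refine ⟨hup r hr, ?_⟩
  rcases Nat.eq_zero_or_pos r with h1 | h1
  · rw [h1, Nat.cast_zero, add_zero]
    rcases hPf (i - 1) with h2 | h2
    · exfalso
      have h3 := hpat.stop _ h0 h2
      have h4 := h.2.2.1
      omega
    · exact h2
  · have e : i + (r : ZMod f) - 1 = i + ((r - 1 : ℕ) : ZMod f) := by
      rw [Nat.cast_sub h1]
      push_cast
      ring
    rw [e]
    exact hup _ (by omega)

/-- The points of the residual Kisin variety: all the Kisin modules of shape `a` over `BY`. -/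
theorem residual_pointY (hp : 5 ≤ p) (ha : ∀ i, 1 ≤ a i ∧ a i ≤ p) (hpat : IsPatY p a P)
    (M : KisinModule f k) (hno : NoWordY p a P M) {j0 : ZMod f} (hj0 : P j0 = false)
    (hirr : ∀ (K : Type u) [Field K] (ι : k →+* K),
      Irred p fun j => (BY p a P M j).map (lmap ι))
    (M' : KisinModule f k) (T : ZMod f → GL (Fin 2) (LaurentSeries k))
    (hT : IsHom p (M'.frob a) (BY p a P M) fun j => (T j).1) :
    ∃ (g : ZMod f → GL (Fin 2) (PowerSeries k)) (Q : ZMod f → GL (Fin 2) k),
      IsPt P Q ∧ ∀ j, (T j).1 * gx (g j) = (TY P Q j).1 := by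
  have hp' : (5 : ℤ) ≤ p := by exact_mod_cast hp
  have hnt : ∀ x : Bool, x = false → ¬ x = true := by
    intro x hx
    rw [hx]
    exact fun h => Bool.noConfusion h
  have hPf : ∀ j, P j = true ∨ P j = false := fun j => by cases P j <;> simp
  -- the morphism from the standard Kisin module
  have hM0 := stdY_hom (k := k) (p := p) (a := a) (by omega) hpat M
  obtain ⟨G, hG⟩ : ∃ G : ZMod f → GL (Fin 2) (LaurentSeries k),
      G = fun j => (T j)⁻¹ * TY P (fun _ => 1) j := ⟨_, rfl⟩
  have hG1 : IsHom p ((stdY P M).frob a) (M'.frob a) fun j => (G j).1 := by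
    have h1 := hM0.comp hT.inv
    rw [hG]
    exact h1
  have hG2 : IsHom p (M'.frob a) ((stdY P M).frob a) fun j => ((G j)⁻¹).1 := hG1.inv
  have hTG : ∀ j, (T j).1 = (TY P (fun _ => 1) j).1 * ((G j)⁻¹).1 := by
    intro j
    rw [← Units.val_mul, hG]
    congr 1
    dsimp only
    rw [mul_inv_rev, inv_inv, mul_inv_cancel_left]
  have hle2 := pole_le_one hG2 hp ha
  -- all the poles are small
  have hTpole : ∀ j, MGE (T j).1 (1 - p) := by
    intro j
    rw [hTG j]
    have h1 : MGE ((G j)⁻¹).1 (-1) := by
      have h2 := pole_spec ((G j)⁻¹).1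
      have h3 := hle2 j
      exact h2.mono (by omega)
    have h2 : MGE (TY P (fun _ => (1 : GL (Fin 2) k)) j).1 (-1) := by
      unfold TY
      split_ifs
      · have e1 : (gc (1 : GL (Fin 2) k) * tl 0).1 = gz 1 * (tl (0 : k)).1 := rfl
        rw [e1, gz_one, Matrix.one_mul, tl0_eq]
        refine MGE_mk (GE_single le_rfl _) (GE.zero _) (GE.zero _) (GE_one'.mono (by omega))
      · rw [Units.val_one, Matrix.one_fin_two]
        exact MGE_mk (GE_one'.mono (by omega)) (GE.zero _) (GE.zero _) (GE_one'.mono (by omega))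
    exact (h2.mul h1).1.mono (by omega)
  -- irreducibility
  have hirrK : Irred p (((stdY P M).baseChange (algebraMap k (AlgebraicClosure k))).frob a) := by
    have h1 : IsHom p (((stdY P M).baseChange (algebraMap k (AlgebraicClosure k))).frob a)
        (fun j => (BY p a P M j).map (lmap (algebraMap k (AlgebraicClosure k))))
        fun j => (Matrix.GeneralLinearGroup.map (lmap (algebraMap k (AlgebraicClosure k)))
          (TY P (fun _ => (1 : GL (Fin 2) k)) j)).1 := by
      intro j
      have h2 := hM0 j
      dsimp only at h2 ⊢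
      rw [frob_baseChange]
      have e1 : ∀ X : GL (Fin 2) (LaurentSeries k), (Matrix.GeneralLinearGroup.map
          (lmap (algebraMap k (AlgebraicClosure k))) X).1 =
          X.1.map (lmap (algebraMap k (AlgebraicClosure k))) := fun _ => rfl
      rw [e1, e1, ← Matrix.map_mul, h2, Matrix.map_mul]
      congr 1
      refine Matrix.ext fun r s => ?_
      exact lmap_phi p (algebraMap k (AlgebraicClosure k)) _
    exact irred_of_isoY _ h1 (hirr _ _)
  -- no poles outside the words
  have hint : ∀ j, P j = false → Integral (G j).1 := by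
    intro j hj
    by_contra hc
    obtain ⟨i', m, s, hact, hs, rfl⟩ := pole_active (algebraMap k (AlgebraicClosure k)) hp ha
      (stdY P M) M' hirrK (fun j => (G j).1) hG1 j hc
    rw [active_baseChange] at hact
    have hout := word_out hp hpat hact.1 hs hj
    have hY : ∀ r : ℕ, r + 1 < m → (stdY P M).Y (i' + r) = M.Y (i' + r) := by
      intro r hr
      have h1 := hout (r + 1) hr
      have e : i' + ((r + 1 : ℕ) : ZMod f) = i' + (r : ZMod f) + 1 := by
        push_cast
        ring
      rw [e] at h1
      exact stdY_Y M (hout r (by omega)) h1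
    refine hno i' m hact.1 hout ?_ ?_
    · have h1 := hY 0 (by omega)
      rw [Nat.cast_zero, add_zero] at h1
      rw [← h1]
      exact hact.2.1
    · intro r h0 h1
      rw [← hY r (by omega)]
      exact hact.2.2 r h0 h1
  have hout : ∀ j, P j = false → ∃ h : GL (Fin 2) (PowerSeries k), (T j).1 = gx h := by
    intro j h
    have h1 := hint j h
    have h2 := order_det_iso (p := p) (a := a) _ _ G hG1 j
    have h3 : IsUnit ((G j).1.det.coeff 0) := by
      have h4 := coeff_order_eq_zero.not.2 h2.2
      rw [h2.1] at h4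
      exact isUnit_iff_ne_zero.2 h4
    obtain ⟨g, hg⟩ := gx_of_integral h1 h3
    refine ⟨g⁻¹, ?_⟩
    have e1 : TY P (fun _ => (1 : GL (Fin 2) k)) j = 1 := if_neg (hnt _ h)
    have e2 : ((G j)⁻¹).1 = gx g⁻¹ := by
      have e3 : (G j).1 * gx g⁻¹ = 1 := by
        rw [hg, ← gx_mul, mul_inv_cancel, gx_one]
      have e4 : ((G j)⁻¹).1 * (G j).1 = 1 := by
        rw [← Units.val_mul, inv_mul_cancel, Units.val_one]
      calc ((G j)⁻¹).1 = ((G j)⁻¹).1 * ((G j).1 * gx g⁻¹) := by rw [e3, Matrix.mul_one]
        _ = gx g⁻¹ := by rw [← Matrix.mul_assoc, e4, Matrix.one_mul]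
    rw [hTG, e1, Units.val_one, Matrix.one_mul, e2]
  -- the words
  have hfrob : ∀ j, M'.frob a j = gx (M'.X j) * du (a j) * gz (M'.Z j) := fun _ => rfl
  have hpz : ((p - 1 : ℕ) : ℤ) = (p : ℤ) - 1 := by
    push_cast [Nat.cast_sub (show 1 ≤ p by omega)]
    ring
  obtain ⟨Q, hQ, hQR⟩ := glue (k := k) P hj0
    (fun (j : ZMod f) (q : GL (Fin 2) k) => ∃ g : GL (Fin 2) (PowerSeries k), (T j).1 * gx g = (gc q * tl 0).1)
    (by
      intro j h1 h2
      obtain ⟨U, hU⟩ := hout (j - 1) h2
      have h3 := hT j
      have e1 : BY p a P M j = 1 := by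
        unfold BY
        rw [if_pos h1, if_neg (hnt _ h2)]
      dsimp only at h3
      rw [e1, Matrix.one_mul, hfrob, hpat.start j h1 h2, hU] at h3
      obtain ⟨g, q, hq⟩ := start_step (p := p) (by omega) _ U _ _ h3
      exact ⟨q, g, hq⟩)
    (by
      rintro j q h1 h2 ⟨g, hg⟩
      have h3 := hT j
      have e1 : BY p a P M j = !![un (p - 1), 0; 0, un (p - 1)] := by
        unfold BY
        rw [if_pos h1, if_pos h2]
      have e2 : (T (j - 1)).1 = (gc q * tl 0).1 * gx g⁻¹ := by
        rw [← hg, Matrix.mul_assoc, ← gx_mul, mul_inv_cancel, gx_one, Matrix.mul_one]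
      dsimp only at h3
      rw [e1, e2, hfrob, hpat.mid j h1 h2, hpz] at h3
      exact mid_step (p := p) (by omega) _ g⁻¹ _ _ _ (hTpole _) h3)
  have hfin : ∀ j, ∃ g : GL (Fin 2) (PowerSeries k), (T j).1 * gx g = (TY P Q j).1 := by
    intro j
    unfold TY
    rcases hPf j with h | h
    · rw [if_pos h]
      exact hQR j h
    · obtain ⟨g, hg⟩ := hout j h
      refine ⟨g⁻¹, ?_⟩
      rw [if_neg (hnt _ h), hg, ← gx_mul, mul_inv_cancel, gx_one, Units.val_one]
  choose g hg using hfin
  exact ⟨g, Q, hQ, hg⟩

end

end Pool.Agent.Lib.MP_74d0c9_nt
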