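import Pool.Agent.Lib.MP_74d0c9_nt.YNorm
import Pool.Agent.Lib.MP_74d0c9_nt.YRes

/-! The active words do not depend on the bases. -/

set_option autoImplicit false

namespace Pool.Agent.Lib.MP_74d0c9_nt

open HahnSeries

universe u

section
variable {k : Type u} [Field k] {p f : ℕ} [Fact p.Prime] [NeZero f] {a : ZMod f → ℕ}

theorem cg_cps (q : GL (Fin 2) k) : cg (cps q) = q := by
  apply Units.ext
  refine Matrix.ext fun r s => ?_
  rw [cg_coeff, gx_cps]
  have h1 : gz q r s = HahnSeries.C (q.1 r s) := rfl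
  rw [h1, HahnSeries.C_apply, coeff_single_same]

/-- the entries of `Y_j` under an isomorphism of Kisin modules -/
theorem iso_Y (ha : ∀ j, 1 ≤ a j ∧ a j ≤ p) (M M' : KisinModule f k)
    (h : ZMod f → GL (Fin 2) (PowerSeries k))
    (hh : IsHom p (M.frob a) (M'.frob a) fun j => gx (h j)) (j : ZMod f) :
    (M'.Y j 1 1 = 0 → M.Y j 1 1 = 0) ∧ (a j < p → M'.Y j 1 0 = 0 → M.Y j 1 0 = 0) := by
  have hp2 : (2 : ℤ) ≤ p := two_le_p
  obtain ⟨κ, hκ⟩ : ∃ κ : GL (Fin 2) k, κ = M'.Z (j + 1) * cg (h j) * (M.Z (j + 1))⁻¹ := ⟨_, rfl⟩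
  obtain ⟨η, hη⟩ : ∃ η : GL (Fin 2) k, η = (cg (M'.X j))⁻¹ * cg (h j) * cg (M.X j) := ⟨_, rfl⟩
  have hHm : ∀ j, Hm M M' (fun j => gx (h j)) j = gx ((M'.X j)⁻¹ * h j * M.X j) := by
    intro j
    unfold Hm
    rw [gx_mul, gx_mul]
  have hKm : ∀ j, Km M M' (fun j => gx (h j)) j =
      gx (cps (M'.Z j) * h (j - 1) * cps (M.Z j)⁻¹) := by
    intro j
    unfold Km
    rw [gx_mul, gx_mul, gx_cps, gx_cps]
  have hKi : ∀ j, MGE (Km M M' (fun j => gx (h j)) j) 0 := fun j => by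
    rw [hKm]
    exact gx_MGE _
  have hHi : ∀ j, MGE (Hm M M' (fun j => gx (h j)) j) 0 := fun j => by
    rw [hHm]
    exact gx_MGE _
  have hκc : ∀ r s, κ.1 r s = (Km M M' (fun j => gx (h j)) (j + 1) r s).coeff 0 := by
    intro r s
    rw [hKm, ← cg_coeff, cg_mul, cg_mul, cg_cps, cg_cps, add_sub_cancel_right, hκ]
  have hηc : ∀ r s, η.1 r s = (Hm M M' (fun j => gx (h j)) j r s).coeff 0 := by
    intro r s
    rw [hHm, ← cg_coeff, cg_mul, cg_mul, cg_inv, hη]
  have r1 := rel hh (j + 1)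
  have r0 := rel hh j
  have hκ10 : κ.1 1 0 = 0 := by
    rw [hκc]
    have h1 := r1.h10 (-(a (j + 1) : ℤ))
    rw [neg_add_cancel, phi_coeff_zero'] at h1
    rw [← h1]
    exact hHi (j + 1) 1 0 _ (by have := (ha (j + 1)).1; omega)
  have hη01 : η.1 0 1 = 0 := by
    rw [hηc, r0.h01 0]
    have h1 := phi_GE p (hKi j 0 1)
    rw [mul_zero] at h1
    exact h1 _ (by have := (ha j).1; omega)
  have hη10 : a j < p → η.1 1 0 = 0 := by
    intro hap
    rw [hηc, r0.h10 0, zero_add]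
    apply phi_coeff_zero
    intro hd
    have := Int.le_of_dvd (by have := (ha j).1; omega) hd
    omega
  have hY : κ * YG M j = YG M' j * η := by
    rw [hκ, hη]
    unfold YG
    group
  have hent : ∀ s, κ.1 1 0 * M.Y j 0 s + κ.1 1 1 * M.Y j 1 s =
      M'.Y j 1 0 * η.1 0 s + M'.Y j 1 1 * η.1 1 s := by
    intro s
    have h1 : (κ * YG M j).1 1 s = (YG M' j * η).1 1 s := by rw [hY]
    rw [Units.val_mul, Units.val_mul, Matrix.mul_apply, Matrix.mul_apply, Fin.sum_univ_two,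
      Fin.sum_univ_two] at h1
    exact h1
  have hκ11 : κ.1 1 1 ≠ 0 := by
    intro h0
    have := det_ne_zero' κ
    rw [h0, hκ10, mul_zero, mul_zero, sub_zero] at this
    exact this rfl
  constructor
  · intro h0
    have h1 := hent 1
    rw [hκ10, hη01, h0, zero_mul, mul_zero, zero_mul, add_zero, zero_add] at h1
    exact (mul_eq_zero.1 h1).resolve_left hκ11
  · intro hap h0
    have h1 := hent 0
    rw [hκ10, hη10 hap, h0, zero_mul, mul_zero, zero_mul, add_zero, zero_add] at h1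
    exact (mul_eq_zero.1 h1).resolve_left hκ11

theorem active_of_iso' (hp : 5 ≤ p) (ha : ∀ j, 1 ≤ a j ∧ a j ≤ p) (M M' : KisinModule f k)
    (h : ZMod f → GL (Fin 2) (PowerSeries k))
    (hh : IsHom p (M.frob a) (M'.frob a) fun j => gx (h j)) {i : ZMod f} {m : ℕ}
    (hact : Active p f a M' i m) : Active p f a M i m := by
  obtain ⟨h1, h2, h3⟩ := hact
  refine ⟨h1, (iso_Y ha M M' h hh i).1 h2, fun s hs hs' => ?_⟩
  refine (iso_Y ha M M' h hh _).2 ?_ (h3 s hs hs')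
  have := h1.2.2.2.1 s hs hs'
  omega

/-- The active words do not depend on the bases. -/
theorem active_of_iso (hp : 5 ≤ p) (ha : ∀ j, 1 ≤ a j ∧ a j ≤ p) (M M' : KisinModule f k)
    (h : ZMod f → GL (Fin 2) (PowerSeries k))
    (hh : IsHom p (M.frob a) (M'.frob a) fun j => gx (h j)) (i : ZMod f) (m : ℕ) :
    Active p f a M i m ↔ Active p f a M' i m := by
  refine ⟨fun hact => active_of_iso' hp ha M' M (fun j => (h j)⁻¹) ?_ hact,
    active_of_iso' hp ha M M' h hh⟩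
  have h1 : IsHom p (M.frob a) (M'.frob a)
      fun j => (Matrix.GeneralLinearGroup.map ps (h j) : GL (Fin 2) (LaurentSeries k)).1 := hh
  have h2 := h1.inv
  intro j
  have h3 := h2 j
  have h4 : ∀ j, ((Matrix.GeneralLinearGroup.map ps (h j) : GL (Fin 2) (LaurentSeries k))⁻¹).1 =
      gx (h j)⁻¹ := by
    intro j
    rw [← map_inv]
    rfl
  dsimp only at h3 ⊢
  rw [h4, h4] at h3
  exact h3

end

end Pool.Agent.Lib.MP_74d0c9_nt
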