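import Pool.Agent.Lib.MP_74d0c9_nt.YKDefs
import Pool.Agent.Lib.MP_74d0c9_nt.XFun
import Pool.Agent.Lib.MP_74d0c9_nt.KisFam

/-! The Kisin modules of a cyclic pattern near a residual point: the family. -/

set_option autoImplicit false

namespace Pool.Agent.Lib.MP_74d0c9_nt

open HahnSeries

universe u

section
variable {A : Type u} [CommRing A]

theorem gx_C (G : GL (Fin 2) A) :
    gx (Matrix.GeneralLinearGroup.map PowerSeries.C G) = gz G :=
  Matrix.ext fun r s => ofPowerSeries_C (G.1 r s)

variable {p f : ℕ} [Fact p.Prime] {a : ZMod f → ℕ} {P : ZMod f → Bool}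

/-- the matrices of the family have the shape of a Kisin module -/
theorem MXY_factor (hpat : IsPatY p a P) (M : KisinModule f A) (Q : ZMod f → GL (Fin 2) A)
    (w : ZMod f → A) (y : ZMod f → Matrix (Fin 2) (Fin 2) A) (hy : ∀ j, IsUnit (1 + y j).det)
    (j : ZMod f) : ∃ (X : GL (Fin 2) (PowerSeries A)) (Z : GL (Fin 2) A),
      gx X * du (a j) * gz Z = MXY p a P M Q w y j := by
  have hp : 1 ≤ p := (Fact.out : p.Prime).one_lt.le
  have hcases : ∀ t, P t = true ∨ P t = false := fun t => by cases P t <;> simp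
  have hnt : ∀ x : Bool, x = false → ¬ x = true := by
    intro x hx
    rw [hx]
    exact fun h => Bool.noConfusion h
  unfold MXY MBY
  rcases hcases j with hPj | hPj <;> rcases hcases (j - 1) with hc | hc
  · -- mid
    have e6 : (a j : ℤ) = (p : ℤ) - 1 := by
      rw [hpat.mid j hPj hc]; push_cast [Nat.cast_sub hp]; ring
    refine ⟨Matrix.GeneralLinearGroup.map PowerSeries.C (eU (w j) * sw), sw, ?_⟩
    rw [if_pos hPj, if_pos hPj, if_pos hc, gx_C, gz_mul, gz_eU, gz_sw, du_two, Matrix.mul_assoc,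
      Matrix.mul_assoc, Matrix.mul_fin_two, Matrix.mul_fin_two, e6]
    congr 1
    apply mat2_congr <;> ring
  · -- start
    refine ⟨Matrix.GeneralLinearGroup.map PowerSeries.C (eU (w j)), (Q j)⁻¹, ?_⟩
    rw [if_pos hPj, if_pos hPj, if_neg (hnt _ hc), gx_C, gz_eU, du_two, hpat.start j hPj hc,
      Matrix.mul_assoc]
    rfl
  · -- stop
    refine ⟨Matrix.GeneralLinearGroup.map PowerSeries.C (Q (j - 1) * sw), sw, ?_⟩
    rw [if_neg (hnt _ hPj), if_pos hc, if_neg (hnt _ hPj), if_pos hc, gx_C, gz_mul, gz_sw, du_two,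
      Matrix.mul_assoc, Matrix.mul_assoc, Matrix.mul_fin_two, Matrix.mul_fin_two,
      hpat.stop j hPj hc]
    congr 1
    apply mat2_congr <;> ring
  · -- outside
    obtain ⟨G, hG⟩ : IsUnit (1 + y j) := (Matrix.isUnit_iff_isUnit_det _).2 (hy j)
    refine ⟨M.X j, M.Z j * G, ?_⟩
    rw [if_neg (hnt _ hPj), if_neg (hnt _ hc), if_neg (hnt _ hPj), if_neg (hnt _ hc), gz_mul,
      ← Matrix.mul_assoc]
    have e1 : gz G = 1 + (y j).map HahnSeries.C := by
      show G.1.map HahnSeries.C = _
      rw [hG]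
      refine Matrix.ext fun r s => ?_
      show HahnSeries.C ((1 : Matrix (Fin 2) (Fin 2) A) r s + y j r s) =
        (1 : Mat A) r s + HahnSeries.C (y j r s)
      rw [map_add]
      congr 1
      fin_cases r <;> fin_cases s
      · exact map_one _
      · exact map_zero _
      · exact map_zero _
      · exact map_one _
    rw [e1]
    rfl

/-- the Kisin modules of the family -/
theorem exists_MXY (hpat : IsPatY p a P) (M : KisinModule f A) (Q : ZMod f → GL (Fin 2) A)
    (w : ZMod f → A) (y : ZMod f → Matrix (Fin 2) (Fin 2) A)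
    (hy : ∀ j, IsUnit (1 + y j).det) :
    ∃ M' : KisinModule f A, ∀ j, M'.frob a j = MXY p a P M Q w y j := by
  choose X Z h using MXY_factor hpat M Q w y hy
  exact ⟨⟨X, Z⟩, h⟩

/-- the family in terms of the étale `φ`-module `BY` -/
noncomputable def FY (p : ℕ) (a : ZMod f → ℕ) (P : ZMod f → Bool) (M : KisinModule f A)
    (Q : ZMod f → GL (Fin 2) A) (w : ZMod f → A) (y : ZMod f → Matrix (Fin 2) (Fin 2) A)
    (j : ZMod f) : Mat A :=
  if P j = true then oneQ ((Q j).1 0 0) ((Q j).1 1 0) (w j * (Q j)⁻¹.1.det) * BY p a P M j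
  else if P (j - 1) = true then BY p a P M j
  else BY p a P M j * (1 + (y j).map HahnSeries.C)

theorem isHom_MXY (M : KisinModule f A) (Q : ZMod f → GL (Fin 2) A)
    (hQ : IsPt P Q) (w : ZMod f → A) (y : ZMod f → Matrix (Fin 2) (Fin 2) A) :
    IsHom p (MXY p a P M Q w y) (FY p a P M Q w y) fun j => (TY P Q j).1 := by
  have hp : 1 ≤ p := (Fact.out : p.Prime).one_lt.le
  have hneg := un_neg_mul (k := A) 1
  have hnegp := un_neg_mul (k := A) (p : ℤ)
  have hcases : ∀ t, P t = true ∨ P t = false := fun t => by cases P t <;> simp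
  have hnt : ∀ x : Bool, x = false → ¬ x = true := by
    intro x hx
    rw [hx]
    exact fun h => Bool.noConfusion h
  have hsc : ∀ (x : LaurentSeries A) (M N : Mat A), !![x, 0; 0, x] * (M * N) =
      M * (!![x, 0; 0, x] * N) := by
    intro x M N
    have e : !![x, 0; 0, x] = x • (1 : Mat A) := by
      rw [Matrix.one_fin_two]
      refine Matrix.ext fun r s => ?_
      rw [Matrix.smul_apply, smul_eq_mul]
      fin_cases r <;> fin_cases s
      · exact (mul_one _).symm
      · exact (mul_zero _).symm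
      · exact (mul_zero _).symm
      · exact (mul_one _).symm
    rw [e, smul_mul', smul_mul', Matrix.one_mul, Matrix.one_mul, mul_smul']
  have hval : ∀ Q : GL (Fin 2) A, (gc Q * tl 0).1 = gz Q * (tl (0 : A)).1 := fun _ => rfl
  intro j
  show (TY P Q j).1 * MXY p a P M Q w y j =
    FY p a P M Q w y j * (TY P Q (j - 1)).1.map (phi A p)
  unfold FY MXY MBY BY
  rcases hcases j with hPj | hPj <;> rcases hcases (j - 1) with hc | hc
  · -- mid
    have e1 : TY P Q j = gc (Q j) * tl 0 := if_pos hPj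
    have e2 : TY P Q (j - 1) = gc (Q j) * tl 0 := by
      unfold TY
      rw [if_pos hc, ← hQ j hPj hc]
    have e7 : (un ((p : ℤ) - 1) : LaurentSeries A) * un (-p) = un (-1) := by
      rw [un_mul]; congr 1; ring
    rw [if_pos hPj, if_pos hPj, if_pos hc, if_pos hPj, if_pos hPj, if_pos hc, e1, e2,
      ← Matrix.mul_assoc, ← gz_eU, ← oneQ_T, Matrix.mul_assoc, Matrix.mul_assoc]
    congr 1
    rw [hval, gz_phi, hsc, Matrix.mul_assoc]
    congr 1
    rw [tl0_phi, tl0_eq, Matrix.mul_fin_two, Matrix.mul_fin_two]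
    apply mat2_congr
    · linear_combination -e7
    · ring
    · ring
    · ring
  · -- start
    have e1 : TY P Q j = gc (Q j) * tl 0 := if_pos hPj
    have e2 : TY P Q (j - 1) = 1 := by
      unfold TY
      rw [if_neg (hnt _ hc)]
    rw [if_pos hPj, if_pos hPj, if_neg (hnt _ hc), if_pos hPj, if_pos hPj, if_neg (hnt _ hc), e1,
      e2, ← Matrix.mul_assoc, ← gz_eU, ← oneQ_T, Matrix.mul_assoc, Units.val_one, map_one_phi,
      Matrix.mul_one, Matrix.mul_one]
    have e3 : (gc (Q j) * tl 0).1 * (!![un 1, 0; 0, 1] * gz (Q j)⁻¹) = 1 := by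
      have e6 : (tl (0 : A)).1 * !![un 1, 0; 0, 1] = 1 := by
        rw [tl0_eq, Matrix.mul_fin_two, Matrix.one_fin_two]
        apply mat2_congr
        · linear_combination un_neg_mul (k := A) 1
        · ring
        · ring
        · ring
      rw [hval, Matrix.mul_assoc, ← Matrix.mul_assoc (tl (0 : A)).1, e6, Matrix.one_mul,
        gz_mul_inv]
    rw [e3, Matrix.mul_one]
  · -- stop
    have e1 : TY P Q j = 1 := by unfold TY; rw [if_neg (hnt _ hPj)]
    have e2 : TY P Q (j - 1) = gc (Q (j - 1)) * tl 0 := by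
      unfold TY
      rw [if_pos hc]
    rw [if_neg (hnt _ hPj), if_pos hc, if_neg (hnt _ hPj), if_pos hc, if_neg (hnt _ hPj),
      if_pos hc, if_neg (hnt _ hPj), if_pos hc, e1, e2, Units.val_one, Matrix.one_mul, hval,
      gz_phi, hsc]
    congr 1
    rw [tl0_phi, Matrix.mul_fin_two]
    apply mat2_congr
    · linear_combination -hnegp
    · ring
    · ring
    · ring
  · -- outside
    have e1 : TY P Q j = 1 := by unfold TY; rw [if_neg (hnt _ hPj)]
    have e2 : TY P Q (j - 1) = 1 := by unfold TY; rw [if_neg (hnt _ hc)]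
    rw [if_neg (hnt _ hPj), if_neg (hnt _ hc), if_neg (hnt _ hPj), if_neg (hnt _ hc),
      if_neg (hnt _ hPj), if_neg (hnt _ hc), if_neg (hnt _ hPj), if_neg (hnt _ hc), e1, e2,
      Units.val_one, map_one_phi, Matrix.one_mul, Matrix.mul_one]

/-! ### coordinates -/

variable {O : Type} [Fintype O]

omit [Fact p.Prime] in
/-- the value of a combination of the directions -/
theorem sum_DY (M : KisinModule f A) (τ : Unit ⊕ O → ZMod f)
    (zv : Unit ⊕ O → Matrix (Fin 2) (Fin 2) A) (x : Unit ⊕ O → A)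
    (c : Unit ⊕ (({t : ZMod f // P t = true} × Fin 3) ⊕ O) → A)
    [Fintype {t : ZMod f // P t = true}]
    (h1 : c (Sum.inl ()) = x (Sum.inl ())) (h2 : ∀ o, c (Sum.inr (Sum.inr o)) = x (Sum.inr o))
    (j : ZMod f) :
    ∑ v, (HahnSeries.C (c v) : LaurentSeries A) • DY p a P M τ zv v j =
      (if h : P j = true then
        (∑ e : Fin 3, (HahnSeries.C (c (Sum.inr (Sum.inl (⟨j, h⟩, e)))) : LaurentSeries A) •
          M3 e) * BY p a P M j else 0) +
      BY p a P M j * (zY τ zv x j).map HahnSeries.C := by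
  classical
  have hz : (zY τ zv x j).map HahnSeries.C = ∑ v, if τ v = j then
      (HahnSeries.C (x v) : LaurentSeries A) • (zv v).map HahnSeries.C else (0 : Mat A) := by
    refine Matrix.ext fun r s => ?_
    show HahnSeries.C (zY τ zv x j r s) = _
    unfold zY
    rw [Matrix.sum_apply, Matrix.sum_apply, map_sum]
    refine Finset.sum_congr rfl fun v _ => ?_
    by_cases h : τ v = j
    · rw [if_pos h, if_pos h]
      exact map_mul _ _ _
    · rw [if_neg h, if_neg h]
      exact map_zero _
  have hV : BY p a P M j * (zY τ zv x j).map HahnSeries.C = ∑ v : Unit ⊕ O,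
      (HahnSeries.C (x v) : LaurentSeries A) • (if τ v = j then
        BY p a P M j * (zv v).map HahnSeries.C else 0) := by
    rw [hz, Finset.mul_sum]
    refine Finset.sum_congr rfl fun v _ => ?_
    by_cases h : τ v = j
    · rw [if_pos h, if_pos h, mul_smul']
    · rw [if_neg h, if_neg h, Matrix.mul_zero, smul_zero]
  have hS : ∑ z : {t : ZMod f // P t = true} × Fin 3,
      (HahnSeries.C (c (Sum.inr (Sum.inl z))) : LaurentSeries A) •
        (if z.1.1 = j then M3 z.2 * BY p a P M j else 0) =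
      (if h : P j = true then
        (∑ e : Fin 3, (HahnSeries.C (c (Sum.inr (Sum.inl (⟨j, h⟩, e)))) : LaurentSeries A) •
          M3 e) * BY p a P M j else 0) := by
    rw [Fintype.sum_prod_type]
    by_cases h : P j = true
    · rw [dif_pos h, Finset.sum_eq_single (⟨j, h⟩ : {t : ZMod f // P t = true}),
        Finset.sum_mul]
      · refine Finset.sum_congr rfl fun e _ => ?_
        rw [if_pos rfl, smul_mul']
      · intro t _ ht
        refine Finset.sum_eq_zero fun e _ => ?_
        rw [if_neg (fun h' => ht (Subtype.ext h')), smul_zero]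
      · intro h'
        exact absurd (Finset.mem_univ _) h'
    · rw [dif_neg h]
      refine Finset.sum_eq_zero fun t _ => Finset.sum_eq_zero fun e _ => ?_
      rw [if_neg, smul_zero]
      intro h'
      apply h
      rw [← h']
      exact t.2
  have hL : ∑ v, (HahnSeries.C (c v) : LaurentSeries A) • DY p a P M τ zv v j =
      (HahnSeries.C (c (Sum.inl ())) : LaurentSeries A) • DY p a P M τ zv (Sum.inl ()) j +
      (∑ z, (HahnSeries.C (c (Sum.inr (Sum.inl z))) : LaurentSeries A) •
          DY p a P M τ zv (Sum.inr (Sum.inl z)) j +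
        ∑ o, (HahnSeries.C (c (Sum.inr (Sum.inr o))) : LaurentSeries A) •
          DY p a P M τ zv (Sum.inr (Sum.inr o)) j) := by
    rw [Fintype.sum_sum_type, Fintype.sum_sum_type, Fintype.sum_unique]
  have hR : ∑ v : Unit ⊕ O, (HahnSeries.C (x v) : LaurentSeries A) • (if τ v = j then
        BY p a P M j * (zv v).map HahnSeries.C else 0) =
      (HahnSeries.C (x (Sum.inl ())) : LaurentSeries A) • (if τ (Sum.inl ()) = j then
        BY p a P M j * (zv (Sum.inl ())).map HahnSeries.C else 0) +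
      ∑ o, (HahnSeries.C (x (Sum.inr o)) : LaurentSeries A) • (if τ (Sum.inr o) = j then
        BY p a P M j * (zv (Sum.inr o)).map HahnSeries.C else 0) := by
    rw [Fintype.sum_sum_type, Fintype.sum_unique]
  rw [hL, hV, hR, ← hS, h1, add_left_comm]
  simp only [h2]
  rfl

/-- the family in coordinates -/
theorem FY_eq (M : KisinModule f A) (Q : ZMod f → GL (Fin 2) A) (w : ZMod f → A)
    (τ : Unit ⊕ O → ZMod f) (hτ : ∀ v, OutY P (τ v)) (zv : Unit ⊕ O → Matrix (Fin 2) (Fin 2) A)
    (x : Unit ⊕ O → A) [Fintype {t : ZMod f // P t = true}] (j : ZMod f) :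
    FY p a P M Q w (zY τ zv x) j = BY p a P M j +
      ∑ v, (HahnSeries.C (cY P Q w x v) : LaurentSeries A) • DY p a P M τ zv v j := by
  have hcases : ∀ t, P t = true ∨ P t = false := fun t => by cases P t <;> simp
  have hnt : ∀ x : Bool, x = false → ¬ x = true := by
    intro x hx
    rw [hx]
    exact fun h => Bool.noConfusion h
  have hz : ¬ OutY P j → (zY τ zv x j).map HahnSeries.C = (0 : Mat A) := by
    intro h
    have h1 : zY τ zv x j = 0 := by
      unfold zY
      refine Finset.sum_eq_zero fun v _ => if_neg ?_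
      rintro rfl
      exact h (hτ v)
    rw [h1]
    exact Matrix.map_zero _ (map_zero _)
  rw [sum_DY M τ zv x (cY P Q w x) rfl (fun _ => rfl) j]
  unfold FY
  rcases hcases j with hPj | hPj
  · have e : ∀ e : Fin 3, cY P Q w x (Sum.inr (Sum.inl (⟨j, hPj⟩, e))) =
        w j * (Q j)⁻¹.1.det * (Q j).1 0 0 ^ (2 - (e : ℕ)) * (Q j).1 1 0 ^ (e : ℕ) := by
      intro e
      show w j * (Q j)⁻¹.1.det * ((Q j).1 1 0 ^ (e : ℕ) * (Q j).1 0 0 ^ (2 - (e : ℕ))) = _
      ring
    have e' : ∑ e : Fin 3, (HahnSeries.C (cY P Q w x (Sum.inr (Sum.inl (⟨j, hPj⟩, e)))) :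
        LaurentSeries A) • (M3 e : Mat A) =
        ((HahnSeries.C (w j * (Q j)⁻¹.1.det * (Q j).1 0 0 ^ 2 * (Q j).1 1 0 ^ 0) :
          LaurentSeries A) • M3 0 +
        (HahnSeries.C (w j * (Q j)⁻¹.1.det * (Q j).1 0 0 ^ 1 * (Q j).1 1 0 ^ 1) :
          LaurentSeries A) • M3 1 +
        (HahnSeries.C (w j * (Q j)⁻¹.1.det * (Q j).1 0 0 ^ 0 * (Q j).1 1 0 ^ 2) :
          LaurentSeries A) • M3 2) := by
      rw [Fin.sum_univ_three, e, e, e]
      rfl
    rw [if_pos hPj, dif_pos hPj, hz (fun h => hnt _ h.1 hPj), Matrix.mul_zero, add_zero, oneQ_eq,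
      Matrix.add_mul, Matrix.one_mul, e']
  · rw [if_neg (hnt _ hPj), dif_neg (hnt _ hPj), zero_add]
    rcases hcases (j - 1) with hc | hc
    · rw [if_pos hc, hz (fun h => hnt _ h.2 hc), Matrix.mul_zero, add_zero]
    · rw [if_neg (hnt _ hc), Matrix.mul_add, Matrix.mul_one]

/-! ### functoriality -/

variable {A' : Type u} [CommRing A'] (π : A →+* A')

omit [Fact p.Prime] in
theorem BY_lmap (M : KisinModule f A) (j : ZMod f) :
    (BY p a P M j).map (lmap π) = BY p a P (M.baseChange π) j := by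
  unfold BY
  split_ifs
  · rw [mat2_map, lmap_un, map_zero]
  · exact map_one_mat π
  · rw [mat2_map, lmap_un, map_zero]
  · rw [frob_baseChange]

theorem C_lmap (z : Matrix (Fin 2) (Fin 2) A) :
    (z.map HahnSeries.C : Mat A).map (lmap π) = (z.map π).map HahnSeries.C :=
  Matrix.ext fun r s => lmap_C π (z r s)

omit [Fintype O] [Fact p.Prime] in
theorem DY_lmap (M : KisinModule f A) (τ : Unit ⊕ O → ZMod f)
    (zv : Unit ⊕ O → Matrix (Fin 2) (Fin 2) A)
    (v : Unit ⊕ (({t : ZMod f // P t = true} × Fin 3) ⊕ O)) (j : ZMod f) :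
    (DY p a P M τ zv v j).map (lmap π) =
      DY p a P (M.baseChange π) τ (fun v => (zv v).map π) v j := by
  rcases v with v | z | o
  · show (if τ (Sum.inl v) = j then BY p a P M j * (zv (Sum.inl v)).map HahnSeries.C
      else 0).map (lmap π) = if τ (Sum.inl v) = j then
        BY p a P (M.baseChange π) j * ((zv (Sum.inl v)).map π).map HahnSeries.C else 0
    split_ifs
    · rw [Matrix.map_mul, BY_lmap, C_lmap]
    · exact Matrix.map_zero _ (map_zero _)
  · show (if z.1.1 = j then M3 z.2 * BY p a P M j else 0).map (lmap π) =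
      if z.1.1 = j then M3 z.2 * BY p a P (M.baseChange π) j else 0
    split_ifs
    · rw [Matrix.map_mul, BY_lmap, lmap_M3]
    · exact Matrix.map_zero _ (map_zero _)
  · show (if τ (Sum.inr o) = j then BY p a P M j * (zv (Sum.inr o)).map HahnSeries.C
      else 0).map (lmap π) = if τ (Sum.inr o) = j then
        BY p a P (M.baseChange π) j * ((zv (Sum.inr o)).map π).map HahnSeries.C else 0
    split_ifs
    · rw [Matrix.map_mul, BY_lmap, C_lmap]
    · exact Matrix.map_zero _ (map_zero _)

omit [Fact p.Prime] in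
theorem MBY_lmap (M : KisinModule f A) (Q : ZMod f → GL (Fin 2) A) (j : ZMod f) :
    (MBY p a P M Q j).map (lmap π) =
      MBY p a P (M.baseChange π) (fun j => Matrix.GeneralLinearGroup.map π (Q j)) j := by
  unfold MBY
  split_ifs
  · rw [mat2_map, map_zero, map_one, lmap_un]
  · rw [Matrix.map_mul, gz_lmap_inv, mat2_map, map_zero, map_one, lmap_un]
  · rw [Matrix.map_mul, gz_lmap, mat2_map, map_zero, map_one, lmap_un]
  · rw [frob_baseChange]

theorem TY_lmap (P : ZMod f → Bool) (Q : ZMod f → GL (Fin 2) A) (j : ZMod f) :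
    (TY P Q j).1.map (lmap π) =
      (TY P (fun j => Matrix.GeneralLinearGroup.map π (Q j)) j).1 := by
  unfold TY
  split_ifs
  · show (gz (Q j) * (tl (0 : A)).1).map (lmap π) =
      gz (Matrix.GeneralLinearGroup.map π (Q j)) * (tl (0 : A')).1
    rw [Matrix.map_mul, gz_lmap, tl0_lmap]
  · exact map_one_mat π

end

section
variable {k A : Type u} [Field k] [CommRing A] [Algebra k A] {p f : ℕ} [Fact p.Prime]
  {a : ZMod f → ℕ} {P : ZMod f → Bool} {O : Type} [Fintype O]
  [Fintype {t : ZMod f // P t = true}]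

/-- the members of the family are combinations of the directions -/
theorem isHom_famA (M : KisinModule f k) (Q : ZMod f → GL (Fin 2) A) (hQ : IsPt P Q)
    (w : ZMod f → A) (τ : Unit ⊕ O → ZMod f) (hτ : ∀ v, OutY P (τ v))
    (zv : Unit ⊕ O → Matrix (Fin 2) (Fin 2) k) (x : Unit ⊕ O → A) :
    IsHom p (MXY p a P (M.baseChange (algebraMap k A)) Q w
        (zY τ (fun v => (zv v).map (algebraMap k A)) x))
      (famA (BY p a P M) (DY p a P M τ zv) (cY P Q w x)) fun j => (TY P Q j).1 := by
  have h1 := isHom_MXY (p := p) (a := a) (M.baseChange (algebraMap k A)) Q hQ w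
    (zY τ (fun v => (zv v).map (algebraMap k A)) x)
  have h2 : FY p a P (M.baseChange (algebraMap k A)) Q w
      (zY τ (fun v => (zv v).map (algebraMap k A)) x) =
      famA (BY p a P M) (DY p a P M τ zv) (cY P Q w x) := by
    funext j
    rw [FY_eq _ Q w τ hτ]
    show _ = (BY p a P M j).map (lmap (algebraMap k A)) +
      ∑ v, (HahnSeries.C (cY P Q w x v) : LaurentSeries A) •
        (DY p a P M τ zv v j).map (lmap (algebraMap k A))
    simp only [BY_lmap, DY_lmap]
  rw [← h2]
  exact h1

end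

end Pool.Agent.Lib.MP_74d0c9_nt
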