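import Pool.Agent.Lib.MP_74d0c9_nt.YK1

/-! The Kisin modules of a cyclic pattern near a residual point: the first order expansion. -/

set_option autoImplicit false

namespace Pool.Agent.Lib.MP_74d0c9_nt

open HahnSeries

universe u

section
variable {A : Type u} [CommRing A] {p f : ℕ} {a : ZMod f → ℕ} {P : ZMod f → Bool}

/-- the first order expansion of the family -/
theorem MXY_expand {N : Ideal A} {r : ℕ} (hr : 1 ≤ r) (M : KisinModule f A)
    (Q : ZMod f → GL (Fin 2) A) (l w l' w' : ZMod f → A)
    (y y' : ZMod f → Matrix (Fin 2) (Fin 2) A)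
    (hl : ∀ t, l t ∈ N) (hw : ∀ t, w t ∈ N) (hl' : ∀ t, l' t ∈ N ^ r) (hw' : ∀ t, w' t ∈ N ^ r)
    (j : ZMod f) :
    MSmall (N ^ (r + 1))
      (MXY p a P M (fun t => Q t * eL (l t + l' t)) (fun t => w t + w' t)
          (fun t => y t + y' t) j -
        MXY p a P M (fun t => Q t * eL (l t)) w y j - DKY p a P M Q l' w' y' j) := by
  have hnt : ∀ x : Bool, x = false → ¬ x = true := by
    intro x hx
    rw [hx]
    exact fun h => Bool.noConfusion h
  have hcases : ∀ t, P t = true ∨ P t = false := fun t => by cases P t <;> simp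
  have hz : (0 : Mat A) = !![0, 0; 0, 0] := by
    refine Matrix.ext fun i j => ?_
    fin_cases i <;> fin_cases j <;> rfl
  have h1 : ∀ {y z : A}, y ∈ N → z ∈ N ^ r → y * z ∈ N ^ (r + 1) := by
    intro y z hy hz
    rw [pow_succ']
    exact Ideal.mul_mem_mul hy hz
  have hNr : N ^ r ≤ N := Ideal.pow_le_self (by omega)
  have hWm : ∀ (y : A) (M : Mat A), (HahnSeries.C y : LaurentSeries A) • (!![0, 1; 0, 0] * M) =
      !![0, HahnSeries.C y; 0, 0] * M := by
    intro y M
    rw [← smul_mul']
    congr 1
    refine Matrix.ext fun r s => ?_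
    rw [Matrix.smul_apply, smul_eq_mul]
    fin_cases r <;> fin_cases s
    · exact mul_zero _
    · exact mul_one _
    · exact mul_zero _
    · exact mul_zero _
  have hll : ∀ (y : A) (M : Mat A), (HahnSeries.C y : LaurentSeries A) • (!![0, 0; 1, 0] * M) =
      !![0, 0; HahnSeries.C y, 0] * M := by
    intro y M
    rw [← smul_mul']
    congr 1
    refine Matrix.ext fun r s => ?_
    rw [Matrix.smul_apply, smul_eq_mul]
    fin_cases r <;> fin_cases s
    · exact mul_zero _
    · exact mul_zero _
    · exact mul_one _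
    · exact mul_zero _
  unfold MXY DKY MBY
  rcases hcases j with hPj | hPj <;> rcases hcases (j - 1) with hc | hc
  · -- mid
    simp only [if_pos hPj, if_pos hc]
    rw [sub_zero, hWm, ← Matrix.sub_mul, ← Matrix.sub_mul]
    have e2 : (!![1, HahnSeries.C (w j + w' j); 0, 1] - !![1, HahnSeries.C (w j); 0, 1] -
        !![0, HahnSeries.C (w' j); 0, 0] : Mat A) = 0 := by
      rw [hz]
      refine Matrix.ext fun r s => ?_
      rw [Matrix.sub_apply, Matrix.sub_apply]
      fin_cases r <;> fin_cases s
      · show (1 : LaurentSeries A) - 1 - 0 = 0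
        ring
      · show HahnSeries.C (w j + w' j) - HahnSeries.C (w j) - HahnSeries.C (w' j) =
          (0 : LaurentSeries A)
        rw [map_add]; ring
      · show (0 : LaurentSeries A) - 0 - 0 = 0
        ring
      · show (1 : LaurentSeries A) - 1 - 0 = 0
        ring
    rw [e2, Matrix.zero_mul]
    exact MSmall.zero
  · -- start
    have eM' : ∀ (l : A), (!![un 1, 0; 0, 1] * gz (Q j * eL l)⁻¹ : Mat A) =
        !![un 1, 0; -HahnSeries.C l, 1] * gz (Q j)⁻¹ := by
      intro l
      rw [mul_inv_rev, gz_mul, gz_eL_inv, ← Matrix.mul_assoc, Matrix.mul_fin_two]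
      congr 1
      apply mat2_congr <;> ring
    simp only [if_pos hPj, if_neg (hnt _ hc)]
    rw [eM', eM', hWm, hll]
    simp only [← Matrix.mul_assoc]
    rw [← Matrix.sub_mul, ← Matrix.sub_mul, ← Matrix.sub_mul]
    refine MSmall.mul_right ?_ _
    have hc00 : -((w j + w' j) * (l j + l' j) - w j * l j) ∈ N ^ (r + 1) := by
      have e1 : -((w j + w' j) * (l j + l' j) - w j * l j) =
          -((w j + w' j) * l' j + l j * w' j) := by ring
      rw [e1]
      exact (N ^ (r + 1)).neg_mem (Ideal.add_mem _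
        (h1 (N.add_mem (hw j) (hNr (hw' j))) (hl' j)) (h1 (hl j) (hw' j)))
    have e2 : (!![1, HahnSeries.C (w j + w' j); 0, 1] *
          !![un 1, 0; -HahnSeries.C (l j + l' j), 1] -
        !![1, HahnSeries.C (w j); 0, 1] * !![un 1, 0; -HahnSeries.C (l j), 1] -
        (!![0, HahnSeries.C (w' j); 0, 0] * !![un 1, 0; 0, 1] -
          !![0, 0; HahnSeries.C (l' j), 0]) : Mat A) =
        !![HahnSeries.C (-((w j + w' j) * (l j + l' j) - w j * l j)) * 1, 0; 0, 0] := by
      rw [Matrix.mul_fin_two, Matrix.mul_fin_two, Matrix.mul_fin_two]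
      refine Matrix.ext fun r s => ?_
      rw [Matrix.sub_apply, Matrix.sub_apply, Matrix.sub_apply]
      fin_cases r <;> fin_cases s
      · show 1 * un 1 + HahnSeries.C (w j + w' j) * -HahnSeries.C (l j + l' j) -
            (1 * un 1 + HahnSeries.C (w j) * -HahnSeries.C (l j)) -
            ((0 * un 1 + HahnSeries.C (w' j) * 0) - 0) =
          HahnSeries.C (-((w j + w' j) * (l j + l' j) - w j * l j)) * (1 : LaurentSeries A)
        simp only [map_add, map_sub, map_neg, map_mul]; ring
      · show (1 : LaurentSeries A) * 0 + HahnSeries.C (w j + w' j) * 1 -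
            (1 * 0 + HahnSeries.C (w j) * 1) - ((0 * 0 + HahnSeries.C (w' j) * 1) - 0) = 0
        simp only [map_add]; ring
      · show 0 * un 1 + 1 * -HahnSeries.C (l j + l' j) - (0 * un 1 + 1 * -HahnSeries.C (l j)) -
            ((0 * un 1 + 0 * 0) - HahnSeries.C (l' j)) = (0 : LaurentSeries A)
        simp only [map_add]; ring
      · show (0 : LaurentSeries A) * 0 + 1 * 1 - (0 * 0 + 1 * 1) - ((0 * 0 + 0 * 1) - 0) = 0
        ring
    rw [e2]
    exact MSmall_mk (small_C_mul hc00 _) (fun _ => (N ^ (r + 1)).zero_mem)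
      (fun _ => (N ^ (r + 1)).zero_mem) (fun _ => (N ^ (r + 1)).zero_mem)
  · -- stop
    simp only [if_neg (hnt _ hPj), if_pos hc]
    rw [gz_mul, gz_mul, gz_eL, gz_eL, ← mul_smul', Matrix.mul_assoc, Matrix.mul_assoc,
      ← Matrix.mul_sub, ← Matrix.mul_sub]
    have e2 : (!![1, 0; HahnSeries.C (l (j - 1) + l' (j - 1)), 1] * !![1, 0; 0, un p] -
        !![1, 0; HahnSeries.C (l (j - 1)), 1] * !![1, 0; 0, un p] -
        (HahnSeries.C (l' (j - 1)) : LaurentSeries A) • !![0, 0; 1, 0] : Mat A) = 0 := by
      rw [Matrix.mul_fin_two, Matrix.mul_fin_two, hz]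
      refine Matrix.ext fun r s => ?_
      rw [Matrix.sub_apply, Matrix.sub_apply, Matrix.smul_apply, smul_eq_mul]
      fin_cases r <;> fin_cases s
      · show (1 : LaurentSeries A) * 1 + 0 * 0 - (1 * 1 + 0 * 0) -
          HahnSeries.C (l' (j - 1)) * 0 = 0
        ring
      · show (1 : LaurentSeries A) * 0 + 0 * un p - (1 * 0 + 0 * un p) -
          HahnSeries.C (l' (j - 1)) * 0 = 0
        ring
      · show HahnSeries.C (l (j - 1) + l' (j - 1)) * 1 + 1 * 0 -
          (HahnSeries.C (l (j - 1)) * 1 + 1 * 0) - HahnSeries.C (l' (j - 1)) * 1 =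
            (0 : LaurentSeries A)
        rw [map_add]; ring
      · show HahnSeries.C (l (j - 1) + l' (j - 1)) * 0 + 1 * un p -
          (HahnSeries.C (l (j - 1)) * 0 + 1 * un p) - HahnSeries.C (l' (j - 1)) * 0 =
            (0 : LaurentSeries A)
        ring
    rw [e2, Matrix.mul_zero]
    exact MSmall.zero
  · -- outside
    simp only [if_neg (hnt _ hPj), if_neg (hnt _ hc)]
    rw [← Matrix.mul_sub, ← Matrix.mul_sub]
    have e2 : (1 + (y j + y' j).map HahnSeries.C - (1 + (y j).map HahnSeries.C) -
        (y' j).map HahnSeries.C : Mat A) = 0 := by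
      refine Matrix.ext fun r s => ?_
      show (1 : Mat A) r s + HahnSeries.C (y j r s + y' j r s) -
        ((1 : Mat A) r s + HahnSeries.C (y j r s)) - HahnSeries.C (y' j r s) =
        (0 : LaurentSeries A)
      rw [map_add]
      ring
    rw [e2, Matrix.mul_zero]
    exact MSmall.zero

/-! ### the directions -/

/-- the coefficient matrices of the first order expansion -/
noncomputable def E1Y (P : ZMod f → Bool) (Q : ZMod f → GL (Fin 2) A) (j : ZMod f) : Mat A :=
  if P j = true then (if P (j - 1) = true then 0 else -(!![0, 0; 1, 0] * gz (Q j)⁻¹)) else 0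

/-- the coefficient matrices of the first order expansion -/
noncomputable def E2Y (P : ZMod f → Bool) (Q : ZMod f → GL (Fin 2) A) (j : ZMod f) : Mat A :=
  if P j = true then 0 else if P (j - 1) = true then gz (Q (j - 1)) * !![0, 0; 1, 0] else 0

/-- the coefficient matrices of the first order expansion -/
noncomputable def E3Y (p : ℕ) (a : ZMod f → ℕ) (P : ZMod f → Bool) (M : KisinModule f A)
    (Q : ZMod f → GL (Fin 2) A) (j : ZMod f) : Mat A :=
  if P j = true then !![0, 1; 0, 0] * MBY p a P M Q j else 0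

/-- the coefficient matrices of the first order expansion -/
noncomputable def E4Y (p : ℕ) (a : ZMod f → ℕ) (P : ZMod f → Bool) (M : KisinModule f A)
    (Q : ZMod f → GL (Fin 2) A) (j : ZMod f) : Mat A :=
  if P j = true then 0 else if P (j - 1) = true then 0 else MBY p a P M Q j

theorem DKY_eq (M : KisinModule f A) (Q : ZMod f → GL (Fin 2) A) (l w : ZMod f → A)
    (y : ZMod f → Matrix (Fin 2) (Fin 2) A) (j : ZMod f) :
    DKY p a P M Q l w y j = (HahnSeries.C (l j) : LaurentSeries A) • E1Y P Q j +
      (HahnSeries.C (l (j - 1)) : LaurentSeries A) • E2Y P Q j +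
      (HahnSeries.C (w j) : LaurentSeries A) • E3Y p a P M Q j +
      E4Y p a P M Q j * (y j).map HahnSeries.C := by
  unfold DKY E1Y E2Y E3Y E4Y
  split_ifs
  · rw [smul_zero, smul_zero, Matrix.zero_mul]
    abel
  · rw [smul_zero, smul_neg, Matrix.zero_mul]
    abel
  · rw [smul_zero, smul_zero, Matrix.zero_mul]
    abel
  · rw [smul_zero, smul_zero, smul_zero]
    abel

/-- the directions at the point `Q` -/
noncomputable def DQY {V : Type} (p : ℕ) (a : ZMod f → ℕ) (P : ZMod f → Bool)
    (M : KisinModule f A) (Q : ZMod f → GL (Fin 2) A) (ρ : ZMod f → ZMod f) (τ : V → ZMod f)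
    (zv : V → Matrix (Fin 2) (Fin 2) A) : ZMod f ⊕ (ZMod f ⊕ V) → ZMod f → Mat A
  | Sum.inl i, j => (if ρ j = i then E1Y P Q j else 0) +
      (if ρ (j - 1) = i then E2Y P Q j else 0)
  | Sum.inr (Sum.inl i), j => if j = i then E3Y p a P M Q j else 0
  | Sum.inr (Sum.inr v), j => if τ v = j then
      E4Y p a P M Q j * (zv v).map HahnSeries.C else 0

theorem sum_DQY [NeZero f] {V : Type} [Fintype V] (M : KisinModule f A)
    (Q : ZMod f → GL (Fin 2) A) (ρ : ZMod f → ZMod f) (τ : V → ZMod f)
    (zv : V → Matrix (Fin 2) (Fin 2) A) (c : ZMod f ⊕ (ZMod f ⊕ V) → A) (j : ZMod f) :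
    ∑ v, (HahnSeries.C (c v) : LaurentSeries A) • DQY p a P M Q ρ τ zv v j =
      DKY p a P M Q (fun t => c (Sum.inl (ρ t))) (fun t => c (Sum.inr (Sum.inl t)))
        (zY τ zv fun v => c (Sum.inr (Sum.inr v))) j := by
  have hV : E4Y p a P M Q j * (zY τ zv (fun v => c (Sum.inr (Sum.inr v))) j).map HahnSeries.C =
      ∑ v : V, (HahnSeries.C (c (Sum.inr (Sum.inr v))) : LaurentSeries A) • (if τ v = j then
        E4Y p a P M Q j * (zv v).map HahnSeries.C else 0) := by
    have hz : (zY τ zv (fun v => c (Sum.inr (Sum.inr v))) j).map HahnSeries.C =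
        ∑ v, if τ v = j then (HahnSeries.C (c (Sum.inr (Sum.inr v))) : LaurentSeries A) •
          (zv v).map HahnSeries.C else (0 : Mat A) := by
      refine Matrix.ext fun r s => ?_
      show HahnSeries.C (zY τ zv (fun v => c (Sum.inr (Sum.inr v))) j r s) = _
      unfold zY
      rw [Matrix.sum_apply, Matrix.sum_apply, map_sum]
      refine Finset.sum_congr rfl fun v _ => ?_
      by_cases h : τ v = j
      · rw [if_pos h, if_pos h]
        exact map_mul _ _ _
      · rw [if_neg h, if_neg h]
        exact map_zero _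
    rw [hz, Finset.mul_sum]
    refine Finset.sum_congr rfl fun v _ => ?_
    by_cases h : τ v = j
    · rw [if_pos h, if_pos h, mul_smul']
    · rw [if_neg h, if_neg h, Matrix.mul_zero, smul_zero]
  have h1 : ∑ i : ZMod f, (HahnSeries.C (c (Sum.inl i)) : LaurentSeries A) •
      DQY p a P M Q ρ τ zv (Sum.inl i) j =
      (HahnSeries.C (c (Sum.inl (ρ j))) : LaurentSeries A) • E1Y P Q j +
        (HahnSeries.C (c (Sum.inl (ρ (j - 1)))) : LaurentSeries A) • E2Y P Q j := by
    have h2 : ∀ i, (HahnSeries.C (c (Sum.inl i)) : LaurentSeries A) •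
        DQY p a P M Q ρ τ zv (Sum.inl i) j =
        (if ρ j = i then (HahnSeries.C (c (Sum.inl i)) : LaurentSeries A) • E1Y P Q j else 0) +
        (if ρ (j - 1) = i then
          (HahnSeries.C (c (Sum.inl i)) : LaurentSeries A) • E2Y P Q j else 0) := by
      intro i
      show (HahnSeries.C (c (Sum.inl i)) : LaurentSeries A) •
        ((if ρ j = i then E1Y P Q j else 0) + (if ρ (j - 1) = i then E2Y P Q j else 0)) = _
      rw [smul_add]
      split_ifs <;> simp only [smul_zero]
    simp only [h2]
    rw [Finset.sum_add_distrib, Finset.sum_ite_eq, Finset.sum_ite_eq, if_pos (Finset.mem_univ _),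
      if_pos (Finset.mem_univ _)]
  have h3 : ∑ i : ZMod f, (HahnSeries.C (c (Sum.inr (Sum.inl i))) : LaurentSeries A) •
      DQY p a P M Q ρ τ zv (Sum.inr (Sum.inl i)) j =
      (HahnSeries.C (c (Sum.inr (Sum.inl j))) : LaurentSeries A) • E3Y p a P M Q j := by
    have h2 : ∀ i, (HahnSeries.C (c (Sum.inr (Sum.inl i))) : LaurentSeries A) •
        DQY p a P M Q ρ τ zv (Sum.inr (Sum.inl i)) j =
        (if j = i then
          (HahnSeries.C (c (Sum.inr (Sum.inl i))) : LaurentSeries A) • E3Y p a P M Q j
          else 0) := by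
      intro i
      show (HahnSeries.C (c (Sum.inr (Sum.inl i))) : LaurentSeries A) •
        (if j = i then E3Y p a P M Q j else 0) = _
      split_ifs <;> simp only [smul_zero]
    simp only [h2]
    rw [Finset.sum_ite_eq, if_pos (Finset.mem_univ _)]
  rw [DKY_eq, hV, Fintype.sum_sum_type, Fintype.sum_sum_type, h1, h3, add_assoc, add_assoc,
    add_assoc]
  rfl

/-! ### functoriality -/

variable {A' : Type u} [CommRing A'] (π : A →+* A')

theorem DQY_lmap {V : Type} (M : KisinModule f A) (Q : ZMod f → GL (Fin 2) A)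
    (ρ : ZMod f → ZMod f) (τ : V → ZMod f) (zv : V → Matrix (Fin 2) (Fin 2) A)
    (v : ZMod f ⊕ (ZMod f ⊕ V)) (j : ZMod f) :
    (DQY p a P M Q ρ τ zv v j).map (lmap π) =
      DQY p a P (M.baseChange π) (fun j => Matrix.GeneralLinearGroup.map π (Q j)) ρ τ
        (fun v => (zv v).map π) v j := by
  have hadd : ∀ X Y : Mat A, (X + Y).map (lmap π) = X.map (lmap π) + Y.map (lmap π) :=
    fun X Y => Matrix.ext fun r s => map_add (lmap π) (X r s) (Y r s)
  have hneg : ∀ X : Mat A, (-X).map (lmap π) = -X.map (lmap π) :=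
    fun X => Matrix.ext fun r s => map_neg (lmap π) (X r s)
  have h0 : (0 : Mat A).map (lmap π) = 0 := Matrix.map_zero _ (map_zero _)
  have h1 : (E1Y P Q j).map (lmap π) =
      E1Y P (fun j => Matrix.GeneralLinearGroup.map π (Q j)) j := by
    unfold E1Y
    split_ifs
    · exact h0
    · rw [hneg, Matrix.map_mul, gz_lmap_inv, mat2_map, map_zero, map_one]
    · exact h0
  have h2 : (E2Y P Q j).map (lmap π) =
      E2Y P (fun j => Matrix.GeneralLinearGroup.map π (Q j)) j := by
    unfold E2Y
    split_ifs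
    · exact h0
    · rw [Matrix.map_mul, gz_lmap, mat2_map, map_zero, map_one]
    · exact h0
  have h3 : (E3Y p a P M Q j).map (lmap π) = E3Y p a P (M.baseChange π)
      (fun j => Matrix.GeneralLinearGroup.map π (Q j)) j := by
    unfold E3Y
    split_ifs
    · rw [Matrix.map_mul, MBY_lmap, mat2_map, map_zero, map_one]
    · exact h0
  have h4 : (E4Y p a P M Q j).map (lmap π) = E4Y p a P (M.baseChange π)
      (fun j => Matrix.GeneralLinearGroup.map π (Q j)) j := by
    unfold E4Y
    split_ifs
    · exact h0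
    · exact h0
    · exact MBY_lmap π M Q j
  rcases v with i | i | v
  · show ((if ρ j = i then E1Y P Q j else 0) +
      (if ρ (j - 1) = i then E2Y P Q j else 0)).map (lmap π) =
      (if ρ j = i then E1Y P (fun j => Matrix.GeneralLinearGroup.map π (Q j)) j else 0) +
      (if ρ (j - 1) = i then E2Y P (fun j => Matrix.GeneralLinearGroup.map π (Q j)) j else 0)
    rw [hadd]
    congr 1
    · split_ifs
      · exact h1
      · exact h0
    · split_ifs
      · exact h2
      · exact h0
  · show (if j = i then E3Y p a P M Q j else 0).map (lmap π) = if j = i then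
      E3Y p a P (M.baseChange π) (fun j => Matrix.GeneralLinearGroup.map π (Q j)) j else 0
    split_ifs
    · exact h3
    · exact h0
  · show (if τ v = j then E4Y p a P M Q j * (zv v).map HahnSeries.C else 0).map (lmap π) =
      if τ v = j then E4Y p a P (M.baseChange π)
        (fun j => Matrix.GeneralLinearGroup.map π (Q j)) j * ((zv v).map π).map HahnSeries.C
      else 0
    split_ifs
    · rw [Matrix.map_mul, h4, C_lmap]
    · exact h0

end

/-! ### the runs of the pattern -/

/-- the number of positions of the pattern directly before a position -/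
theorem exists_nu {f : ℕ} [NeZero f] {P : ZMod f → Bool} (hP : ∃ t, P t = false) :
    ∃ ν : ZMod f → ℕ, (∀ t, P (t - 1) = true → ν t = ν (t - 1) + 1) ∧
      ∀ t i, i < ν t → P (t - (i + 1 : ℕ)) = true := by
  classical
  have hex : ∀ t, ∃ n : ℕ, P (t - (n + 1 : ℕ)) = false := by
    intro t
    obtain ⟨t0, ht0⟩ := hP
    refine ⟨(t - 1 - t0).val, ?_⟩
    have e : t - (((t - 1 - t0).val + 1 : ℕ) : ZMod f) = t0 := by
      push_cast
      rw [ZMod.natCast_val, ZMod.cast_id', id_eq]
      ring
    rw [e]
    exact ht0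
  refine ⟨fun t => Nat.find (hex t), fun t ht => ?_, fun t i hi => ?_⟩
  · have h1 := Nat.find_spec (hex (t - 1))
    have h2 : ∀ m < Nat.find (hex (t - 1)), ¬ P (t - 1 - (m + 1 : ℕ)) = false :=
      fun m hm => Nat.find_min (hex (t - 1)) hm
    refine (Nat.find_eq_iff (hex t)).2 ⟨?_, ?_⟩
    · have e : t - (((Nat.find (hex (t - 1)) + 1 : ℕ) + 1 : ℕ) : ZMod f) =
          t - 1 - ((Nat.find (hex (t - 1)) + 1 : ℕ) : ZMod f) := by
        push_cast
        ring
      rw [e]
      exact h1
    · intro m hm'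
      have hm : m < Nat.find (hex (t - 1)) + 1 := hm'
      rcases m with _ | m
      · intro h
        have e : t - ((0 + 1 : ℕ) : ZMod f) = t - 1 := by push_cast; ring
        rw [e, ht] at h
        exact Bool.noConfusion h
      · have e : t - ((m + 1 + 1 : ℕ) : ZMod f) = t - 1 - ((m + 1 : ℕ) : ZMod f) := by
          push_cast
          ring
        rw [e]
        exact h2 m (by omega)
  · have h := Nat.find_min (hex t) hi
    cases hx : P (t - (i + 1 : ℕ)) with
    | true => rfl
    | false => exact absurd hx h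

/-- a function which is constant along the runs -/
theorem const_run {f : ℕ} {P : ZMod f → Bool} {ν : ZMod f → ℕ}
    (h2 : ∀ t i, i < ν t → P (t - (i + 1 : ℕ)) = true) {R : Type*} (l : ZMod f → R)
    (hl : ∀ t, P t = true → P (t - 1) = true → l t = l (t - 1)) (t : ZMod f)
    (ht : P t = true) : l (t - (ν t : ℕ)) = l t := by
  have h3 : ∀ i : ℕ, i ≤ ν t → P (t - (i : ℕ)) = true ∧ l (t - (i : ℕ)) = l t := by
    intro i
    induction i with
    | zero =>
      intro _
      rw [Nat.cast_zero, sub_zero]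
      exact ⟨ht, rfl⟩
    | succ i ih =>
      intro hi
      obtain ⟨h4, h5⟩ := ih (by omega)
      have h6 := h2 t i (by omega)
      have e : t - ((i + 1 : ℕ) : ZMod f) = t - (i : ℕ) - 1 := by
        push_cast
        ring
      refine ⟨h6, ?_⟩
      rw [e] at h6 ⊢
      rw [← hl _ h4 h6, h5]
  exact (h3 _ le_rfl).2

end Pool.Agent.Lib.MP_74d0c9_nt
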