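import Pool.Agent.Lib.MP_74d0c9_nt.YNewton
import Pool.Agent.Lib.MP_74d0c9_nt.XFun

/-! All the deformations which are isomorphic to Kisin modules, from the residual points. -/

set_option autoImplicit false

namespace Pool.Agent.Lib.MP_74d0c9_nt

open HahnSeries IsLocalRing

universe u

section
variable {p f : ℕ} [Fact p.Prime] {a : ZMod f → ℕ}

/-- Every deformation which is isomorphic to a Kisin module is equivalent to a good one, if this
holds for the Kisin modules near each residual point. -/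
theorem kisin_form_abs {k A : Type u} [Field k] [CommRing A] [Algebra k A] [IsLocalRing A]
    (ha : ∀ i, a i ≤ p) (hA : IsTest k A) (B : ZMod f → Mat k)
    {Pt : Type*} (TQ : Pt → ZMod f → GL (Fin 2) (LaurentSeries k)) (MQ : Pt → ZMod f → Mat k)
    (hMQ : ∀ q, IsHom p (MQ q) B fun j => (TQ q j).1)
    (hres : ∀ (M : KisinModule f k) (T : ZMod f → GL (Fin 2) (LaurentSeries k)),
      IsHom p (M.frob a) B (fun j => (T j).1) →
      ∃ (q : Pt) (g : ZMod f → GL (Fin 2) (PowerSeries k)),
        ∀ j, (T j).1 * gx (g j) = (TQ q j).1)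
    (good : (ZMod f → Mat A) → Prop)
    (hnew : ∀ (q : Pt) (M : KisinModule f A),
      (∀ j, MSmall (maximalIdeal A) (M.frob a j - toA A (MQ q j))) →
      ∃ (F' : ZMod f → Mat A) (S : ZMod f → GL (Fin 2) (LaurentSeries A)), good F' ∧
        (∀ j, MSmall (maximalIdeal A) ((S j).1 - toA A (TQ q j).1)) ∧
        IsHom p (M.frob a) F' fun j => (S j).1)
    (F : ZMod f → Mat A) (hF : IsDef B (maximalIdeal A) F) (hF' : FromKisin p a F) :
    ∃ F' : ZMod f → Mat A, good F' ∧ Eqv p (maximalIdeal A) F' F := by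
  obtain ⟨M, T, hT⟩ := hF'
  obtain ⟨π, hπ, hπm⟩ := exists_resmap hA
  have hfin := hA.finite
  have hsmall : ∀ X : Mat A, X.map (lmap π) = 0 → MSmall (maximalIdeal A) X := by
    intro X hX r s v
    rw [← hπm]
    have h1 : (lmap π (X r s)).coeff v = 0 := by
      have h2 : lmap π (X r s) = 0 := congrFun (congrFun hX r) s
      rw [h2]
      rfl
    exact h1
  have hsmall' : ∀ X : Mat A, MSmall (maximalIdeal A) X → X.map (lmap π) = 0 := by
    intro X hX
    refine Matrix.ext fun r s => ?_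
    ext v
    exact (hπm _).2 (hX r s v)
  have hsub : ∀ X Y : Mat A, (X - Y).map (lmap π) = X.map (lmap π) - Y.map (lmap π) :=
    fun X Y => Matrix.ext fun r s => map_sub (lmap π) (X r s) (Y r s)
  have htoA : ∀ X : Mat k, (toA A X).map (lmap π) = X := by
    intro X
    refine Matrix.ext fun r s => ?_
    ext v
    exact hπ _
  -- the residual isomorphism
  have hFb : ∀ j, (F j).map (lmap π) = B j := by
    intro j
    have h1 := hsmall' _ (hF j)
    rw [hsub, htoA] at h1
    exact sub_eq_zero.1 h1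
  obtain ⟨Tb, hTb⟩ : ∃ Tb : ZMod f → GL (Fin 2) (LaurentSeries k),
      Tb = fun j => Matrix.GeneralLinearGroup.map (lmap π) (T j) := ⟨_, rfl⟩
  have hTbv : ∀ j, (Tb j).1 = (T j).1.map (lmap π) := by
    intro j
    rw [hTb]
    rfl
  have hTb1 : IsHom p ((M.baseChange π).frob a) B fun j => (Tb j).1 := by
    have h1 := hT.lmap π
    intro j
    have h2 := h1 j
    dsimp only at h2 ⊢
    rw [hFb] at h2
    rw [frob_baseChange, hTbv, hTbv]
    exact h2
  obtain ⟨q, g, hg⟩ := hres (M.baseChange π) Tb hTb1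
  -- the lift of the change of bases
  obtain ⟨gA, hgA⟩ : ∃ gA : ZMod f → GL (Fin 2) (PowerSeries A),
      gA = fun j => Matrix.GeneralLinearGroup.map (PowerSeries.map (algebraMap k A)) (g j) :=
    ⟨_, rfl⟩
  have hgAv : ∀ j, gx (gA j) = (gx (g j)).map (lmap (algebraMap k A)) := by
    intro j
    rw [hgA, gx_lmap]
  have hgAπ : ∀ j, (gx (gA j)).map (lmap π) = gx (g j) := by
    intro j
    rw [hgAv]
    refine Matrix.ext fun r s => ?_
    ext v
    exact hπ _
  obtain ⟨M', hM'⟩ := exists_transport (p := p) ha M (fun j => (gA j)⁻¹)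
  -- `M'` and its isomorphism to `F`
  obtain ⟨gl, hgl⟩ : ∃ gl : ZMod f → GL (Fin 2) (LaurentSeries A),
      gl = fun j => Matrix.GeneralLinearGroup.map (ps : PowerSeries A →+* LaurentSeries A) (gA j) :=
    ⟨_, rfl⟩
  have hglv : ∀ j, (gl j).1 = gx (gA j) := by
    intro j
    rw [hgl]
    rfl
  have hglv' : ∀ j, ((gl j)⁻¹).1 = gx (gA j)⁻¹ := by
    intro j
    rw [hgl]
    dsimp only
    rw [← map_inv]
    rfl
  have hM1 : IsHom p (M'.frob a) (M.frob a) fun j => (gl j).1 := by
    have h1 : IsHom p (M.frob a) (M'.frob a) fun j => ((gl j)⁻¹).1 := by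
      intro j
      have h2 := hM' j
      dsimp only at h2 ⊢
      rw [hglv', hglv']
      exact h2
    have h3 := IsHom.inv (G := fun j => (gl j)⁻¹) h1
    intro j
    have h4 := h3 j
    simp only [inv_inv] at h4
    exact h4
  have hM2 : IsHom p (M'.frob a) F fun j => (T j * gl j).1 := hM1.comp hT
  have hred : ∀ j, (T j * gl j).1.map (lmap π) = (TQ q j).1 := by
    intro j
    rw [← hg j, hTbv]
    show ((T j).1 * (gl j).1).map (lmap π) = _
    rw [Matrix.map_mul, hglv, hgAπ]
  -- the reduction of `M'`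
  have hM3 : ∀ j, (M'.frob a j).map (lmap π) = MQ q j := by
    intro j
    have h1 := (hM2.lmap π) j
    dsimp only at h1
    rw [hred, hred, hFb] at h1
    have h2 : (TQ q j).1 * MQ q j = B j * (TQ q (j - 1)).1.map (phi k p) := hMQ q j
    rw [← h2] at h1
    exact (Units.mul_right_inj (TQ q j)).1 h1
  have hM4 : ∀ j, MSmall (maximalIdeal A) (M'.frob a j - toA A (MQ q j)) := by
    intro j
    refine hsmall _ ?_
    rw [hsub, htoA, hM3, sub_self]
  obtain ⟨F', S, hgood, hS, hS1⟩ := hnew q M' hM4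
  refine ⟨F', hgood, fun j => T j * gl j * (S j)⁻¹, fun j => ?_, ?_⟩
  · refine hsmall _ ?_
    have e2 : (S j).1.map (lmap π) = (TQ q j).1 := by
      have h1 := hsmall' _ (hS j)
      rw [hsub, htoA] at h1
      exact sub_eq_zero.1 h1
    have e3 : ((S j)⁻¹).1.map (lmap π) = ((TQ q j)⁻¹).1 := by
      have h1 : Matrix.GeneralLinearGroup.map (lmap π) (S j) = TQ q j := Units.ext e2
      rw [← h1, ← map_inv]
      rfl
    show ((T j * gl j).1 * ((S j)⁻¹).1 - 1).map (lmap π) = 0
    rw [hsub, Matrix.map_mul, e3, hred, map_one_mat, ← Units.val_mul, mul_inv_cancel,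
      Units.val_one, sub_self]
  · have h1 : IsHom p F' (M'.frob a) fun j => ((S j)⁻¹).1 := hS1.inv
    exact h1.comp hM2

end

end Pool.Agent.Lib.MP_74d0c9_nt
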