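import Pool.Agent.Lib.MP_74d0c9_nt.YK2
import Pool.Agent.Lib.MP_74d0c9_nt.YKis

/-! All the deformations which are isomorphic to Kisin modules, for a cyclic pattern. -/

set_option autoImplicit false

namespace Pool.Agent.Lib.MP_74d0c9_nt

open HahnSeries IsLocalRing

universe u

section
variable {A : Type u} [CommRing A] {f : ℕ} {V : Type} [Fintype V]

theorem zY_zero (τ : V → ZMod f) (zv : V → Matrix (Fin 2) (Fin 2) A) :
    zY τ zv (0 : V → A) = 0 := by
  funext j
  unfold zY
  refine Finset.sum_eq_zero fun v _ => ?_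
  split_ifs
  · exact zero_smul _ _
  · rfl

theorem zY_add (τ : V → ZMod f) (zv : V → Matrix (Fin 2) (Fin 2) A) (x x' : V → A) :
    zY τ zv (fun v => x v + x' v) = fun j => zY τ zv x j + zY τ zv x' j := by
  funext j
  unfold zY
  rw [← Finset.sum_add_distrib]
  refine Finset.sum_congr rfl fun v _ => ?_
  split_ifs
  · exact add_smul _ _ _
  · rw [add_zero]

theorem zY_mem (τ : V → ZMod f) (zv : V → Matrix (Fin 2) (Fin 2) A) {x : V → A} {N : Ideal A}
    (hx : ∀ v, x v ∈ N) (j : ZMod f) (r s : Fin 2) : zY τ zv x j r s ∈ N := by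
  unfold zY
  rw [Matrix.sum_apply]
  refine Ideal.sum_mem _ fun v _ => ?_
  split_ifs
  · exact Ideal.mul_mem_right _ _ (hx v)
  · exact N.zero_mem

theorem isUnit_det_zY (τ : V → ZMod f) (zv : V → Matrix (Fin 2) (Fin 2) A) {x : V → A}
    {N : Ideal A} (hN : IsNilpotent N) (hx : ∀ v, x v ∈ N) (j : ZMod f) :
    IsUnit (1 + zY τ zv x j).det := by
  have h1 := zY_mem τ zv hx j
  obtain ⟨n, hn⟩ := hN
  have e : (1 + zY τ zv x j).det = 1 + (zY τ zv x j 0 0 + zY τ zv x j 1 1 +
      zY τ zv x j 0 0 * zY τ zv x j 1 1 - zY τ zv x j 0 1 * zY τ zv x j 1 0) := by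
    rw [Matrix.det_fin_two]
    show (1 + zY τ zv x j 0 0) * (1 + zY τ zv x j 1 1) -
      (0 + zY τ zv x j 0 1) * (0 + zY τ zv x j 1 0) = _
    ring
  rw [e]
  refine IsNilpotent.isUnit_one_add ⟨n, ?_⟩
  have h2 : (zY τ zv x j 0 0 + zY τ zv x j 1 1 + zY τ zv x j 0 0 * zY τ zv x j 1 1 -
      zY τ zv x j 0 1 * zY τ zv x j 1 0) ^ n ∈ N ^ n := by
    refine Ideal.pow_mem_pow ?_ n
    exact N.sub_mem (N.add_mem (N.add_mem (h1 0 0) (h1 1 1)) (N.mul_mem_right _ (h1 0 0)))
      (N.mul_mem_right _ (h1 0 1))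
  rw [hn] at h2
  exact h2

end

section
variable {p f : ℕ} [Fact p.Prime] [NeZero f] {a : ZMod f → ℕ} {P : ZMod f → Bool} {V : Type}
  [Fintype V] {k : Type u} [Field k]

/-- the tangent space of the Kisin modules at the point `Q` -/
def TanY (p : ℕ) [Fact p.Prime] (a : ZMod f → ℕ) (P : ZMod f → Bool) (M : KisinModule f k)
    (τ : V → ZMod f) (zv : V → Matrix (Fin 2) (Fin 2) k) (Q : ZMod f → GL (Fin 2) k) : Prop :=
  ∀ y : ZMod f → Mat k, (∀ j, MGE (y j) 0) → ∀ z : ZMod f → Matrix (Fin 2) (Fin 2) k,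
    ∃ (c : ZMod f → Mat k) (l w : ZMod f → k) (x : V → k), (∀ j, MGE (c j) 0) ∧
      (∀ t, P t = true → P (t - 1) = true → l t = l (t - 1)) ∧
      ∀ j, y j * MBY p a P M Q j + MBY p a P M Q j * (z j).map HahnSeries.C =
        c j * MBY p a P M Q j - MBY p a P M Q j * (c (j - 1)).map (phi k p) +
          DKY p a P M Q l w (zY τ zv x) j

/-- the Kisin modules near a residual point -/
theorem newtonY {A : Type u} [CommRing A] [Algebra k A] [Module.Finite k A]
    (ha : ∀ i, 1 ≤ a i ∧ a i ≤ p) (hpat : IsPatY p a P) (hP : ∃ t, P t = false)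
    (M0 : KisinModule f k) (τ : V → ZMod f) (zv : V → Matrix (Fin 2) (Fin 2) k)
    (N : Ideal A) (hN : IsNilpotent N) (Q : ZMod f → GL (Fin 2) k)
    (tan : TanY p a P M0 τ zv Q) (M : KisinModule f A)
    (hM : ∀ j, MSmall N (M.frob a j - toA A (MBY p a P M0 Q j))) :
    ∃ (l w : ZMod f → A) (x : V → A) (G : ZMod f → GL (Fin 2) (LaurentSeries A)),
      (∀ t, l t ∈ N) ∧ (∀ t, w t ∈ N) ∧ (∀ v, x v ∈ N) ∧
      (∀ t, P t = true → P (t - 1) = true → l t = l (t - 1)) ∧
      (∀ j, MSmall N ((G j).1 - 1)) ∧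
      IsHom p (M.frob a) (MXY p a P (M0.baseChange (algebraMap k A))
        (fun t => Matrix.GeneralLinearGroup.map (algebraMap k A) (Q t) * eL (l t)) w
        (zY τ (fun v => (zv v).map (algebraMap k A)) x)) fun j => (G j).1 := by
  obtain ⟨ν, hν1, hν2⟩ := exists_nu hP
  obtain ⟨ρ, hρ⟩ : ∃ ρ : ZMod f → ZMod f, ∀ t, ρ t = t - (ν t : ℕ) := ⟨_, fun _ => rfl⟩
  have hρ1 : ∀ t, P t = true → P (t - 1) = true → ρ t = ρ (t - 1) := by
    intro t _ ht
    rw [hρ, hρ, hν1 t ht]
    push_cast
    ring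
  obtain ⟨ι, hι⟩ : ∃ ι : k →+* A, ι = algebraMap k A := ⟨_, rfl⟩
  obtain ⟨MX, hMX⟩ : ∃ MX : (ZMod f ⊕ (ZMod f ⊕ V) → A) → ZMod f → Mat A, MX = fun c =>
      MXY p a P (M0.baseChange (algebraMap k A))
        (fun t => Matrix.GeneralLinearGroup.map (algebraMap k A) (Q t) * eL (c (Sum.inl (ρ t))))
        (fun t => c (Sum.inr (Sum.inl t)))
        (zY τ (fun v => (zv v).map (algebraMap k A)) fun v => c (Sum.inr (Sum.inr v))) :=
    ⟨_, rfl⟩
  have key := newton_abs (a := a) (p := p) ha N hN (MBY p a P M0 Q) (DQY p a P M0 Q ρ τ zv)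
    (by
      intro y hy z
      obtain ⟨c, l, w, x, hc, hl, h⟩ := tan y hy z
      refine ⟨c, Sum.elim l (Sum.elim w x), hc, fun j => ?_⟩
      rw [h j, sum_DQY]
      congr 1
      have hl' : ∀ t, P t = true → l (ρ t) = l t := by
        intro t ht
        rw [hρ]
        exact const_run hν2 l hl t ht
      show DKY p a P M0 Q l w (zY τ zv x) j = DKY p a P M0 Q (fun t => l (ρ t)) w (zY τ zv x) j
      unfold DKY
      split_ifs with h1 h2 h3
      · rfl
      · rw [show (fun t => l (ρ t)) j = l j from hl' _ h1]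
      · rw [show (fun t => l (ρ t)) (j - 1) = l (j - 1) from hl' _ h3]
      · rfl)
    MX
    (by
      intro c hc
      rw [hMX]
      exact exists_MXY hpat _ _ _ _ fun j => isUnit_det_zY τ _ hN (fun v => hc _) j)
    (by
      intro j
      rw [hMX]
      show MXY p a P (M0.baseChange (algebraMap k A))
        (fun t => Matrix.GeneralLinearGroup.map (algebraMap k A) (Q t) * eL (0 : A)) 0
        (zY τ (fun v => (zv v).map (algebraMap k A)) (0 : V → A)) j = _
      have e1 : (fun t => Matrix.GeneralLinearGroup.map (algebraMap k A) (Q t) * eL (0 : A)) =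
          fun t => Matrix.GeneralLinearGroup.map (algebraMap k A) (Q t) := by
        funext t
        have e2 : eL (0 : A) = 1 := by
          apply Units.ext
          show !![1, 0; 0, 1] = (1 : Matrix (Fin 2) (Fin 2) A)
          rw [Matrix.one_fin_two]
        rw [e2, mul_one]
      have e3 : (!![1, HahnSeries.C ((0 : ZMod f → A) j); 0, 1] : Mat A) = 1 := by
        rw [Pi.zero_apply, map_zero, Matrix.one_fin_two]
      have e4 : (((0 : ZMod f → Matrix (Fin 2) (Fin 2) A) j).map HahnSeries.C : Mat A) = 0 :=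
        Matrix.map_zero _ (map_zero _)
      rw [e1, zY_zero]
      have e5 : toA A (MBY p a P M0 Q j) = MBY p a P (M0.baseChange (algebraMap k A))
          (fun t => Matrix.GeneralLinearGroup.map (algebraMap k A) (Q t)) j :=
        MBY_lmap (algebraMap k A) M0 Q j
      rw [e5]
      unfold MXY
      rw [e3, e4, add_zero, Matrix.one_mul, Matrix.mul_one]
      split_ifs <;> rfl)
    (by
      intro r hr c c' hc hc' j
      have e1 : ∑ v, (HahnSeries.C (c' v) : LaurentSeries A) •
          toA A (DQY p a P M0 Q ρ τ zv v j) =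
          DKY p a P (M0.baseChange (algebraMap k A))
            (fun t => Matrix.GeneralLinearGroup.map (algebraMap k A) (Q t))
            (fun t => c' (Sum.inl (ρ t))) (fun t => c' (Sum.inr (Sum.inl t)))
            (zY τ (fun v => (zv v).map (algebraMap k A)) fun v => c' (Sum.inr (Sum.inr v))) j := by
        rw [← sum_DQY]
        refine Finset.sum_congr rfl fun v _ => ?_
        congr 1
        exact DQY_lmap (algebraMap k A) M0 Q ρ τ zv v j
      rw [e1, hMX]
      have h2 := MXY_expand (p := p) (a := a) (P := P) hr (M0.baseChange (algebraMap k A))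
        (fun t => Matrix.GeneralLinearGroup.map (algebraMap k A) (Q t))
        (fun t => c (Sum.inl (ρ t))) (fun t => c (Sum.inr (Sum.inl t)))
        (fun t => c' (Sum.inl (ρ t))) (fun t => c' (Sum.inr (Sum.inl t)))
        (zY τ (fun v => (zv v).map (algebraMap k A)) fun v => c (Sum.inr (Sum.inr v)))
        (zY τ (fun v => (zv v).map (algebraMap k A)) fun v => c' (Sum.inr (Sum.inr v)))
        (fun t => hc _) (fun t => hc _) (fun t => hc' _) (fun t => hc' _) j
      rw [← zY_add] at h2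
      exact h2)
    M hM
  obtain ⟨c, G, hc, hG, h⟩ := key
  rw [hMX] at h
  refine ⟨fun t => c (Sum.inl (ρ t)), fun t => c (Sum.inr (Sum.inl t)),
    fun v => c (Sum.inr (Sum.inr v)), G, fun _ => hc _, fun _ => hc _, fun _ => hc _,
    fun t h1 h2 => ?_, hG, h⟩
  show c (Sum.inl (ρ t)) = c (Sum.inl (ρ (t - 1)))
  rw [hρ1 t h1 h2]

/-- all the deformations which are isomorphic to Kisin modules -/
theorem kisin_formY {O : Type} [Fintype O] {A : Type u} [CommRing A] [Algebra k A]
    [IsLocalRing A] (ha : ∀ i, 1 ≤ a i ∧ a i ≤ p) (hpat : IsPatY p a P)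
    (hP : ∃ t, P t = false) (M0 : KisinModule f k) (τ : Unit ⊕ O → ZMod f)
    (hτ : ∀ v, OutY P (τ v)) (zv : Unit ⊕ O → Matrix (Fin 2) (Fin 2) k)
    (tan : ∀ Q : ZMod f → GL (Fin 2) k, IsPt P Q → TanY p a P M0 τ zv Q)
    (hres : ∀ (M : KisinModule f k) (T : ZMod f → GL (Fin 2) (LaurentSeries k)),
      IsHom p (M.frob a) (BY p a P M0) (fun j => (T j).1) →
      ∃ (Q : ZMod f → GL (Fin 2) k) (g : ZMod f → GL (Fin 2) (PowerSeries k)), IsPt P Q ∧
        ∀ j, (T j).1 * gx (g j) = (TY P Q j).1)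
    [Fintype {t : ZMod f // P t = true}] (hA : IsTest k A) (F : ZMod f → Mat A)
    (hF : IsDef (BY p a P M0) (maximalIdeal A) F) (hF' : FromKisin p a F) :
    ∃ (Q : ZMod f → GL (Fin 2) A) (w : ZMod f → A) (x : Unit ⊕ O → A), IsPt P Q ∧
      (∀ t, w t ∈ maximalIdeal A) ∧ (∀ v, x v ∈ maximalIdeal A) ∧
      Eqv p (maximalIdeal A) (famA (BY p a P M0) (DY p a P M0 τ zv) (cY P Q w x)) F := by
  have hfin := hA.finite
  have hz0 : ∀ j, zY τ zv (0 : Unit ⊕ O → k) j = 0 := fun j => congrFun (zY_zero τ zv) j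
  obtain ⟨F', ⟨Q, w, x, hQ, hw, hx, rfl⟩, hE⟩ := kisin_form_abs (p := p) (fun i => (ha i).2) hA
    (BY p a P M0) (Pt := {Q : ZMod f → GL (Fin 2) k // IsPt P Q}) (fun Q => TY P Q.1)
    (fun Q => MBY p a P M0 Q.1)
    (by
      rintro ⟨Q, hQ⟩
      have h1 := isHom_MXY (p := p) (a := a) M0 Q hQ 0 0
      have h2 : MXY p a P M0 Q 0 0 = MBY p a P M0 Q := by
        funext j
        have e3 : (!![1, HahnSeries.C ((0 : ZMod f → k) j); 0, 1] : Mat k) = 1 := by
          rw [Pi.zero_apply, map_zero, Matrix.one_fin_two]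
        have e4 : (((0 : ZMod f → Matrix (Fin 2) (Fin 2) k) j).map HahnSeries.C : Mat k) = 0 :=
          Matrix.map_zero _ (map_zero _)
        unfold MXY
        rw [e3, e4, add_zero, Matrix.one_mul, Matrix.mul_one]
        split_ifs <;> rfl
      have h3 : FY p a P M0 Q 0 0 = BY p a P M0 := by
        have h4 := FY_eq (p := p) (a := a) M0 Q 0 τ hτ zv (0 : Unit ⊕ O → k)
        funext j
        have h5 := h4 j
        rw [zY_zero] at h5
        rw [h5, add_eq_left]
        refine Finset.sum_eq_zero fun v _ => ?_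
        have e : cY P Q 0 (0 : Unit ⊕ O → k) v = 0 := by
          rcases v with v | z | o
          · rfl
          · show (0 : k) * _ * _ = 0
            rw [zero_mul, zero_mul]
          · rfl
        rw [e, map_zero, zero_smul]
      rw [h2, h3] at h1
      exact h1)
    (by
      intro M T hT
      obtain ⟨Q, g, hQ, hg⟩ := hres M T hT
      exact ⟨⟨Q, hQ⟩, g, hg⟩)
    (fun F' => ∃ (Q : ZMod f → GL (Fin 2) A) (w : ZMod f → A) (x : Unit ⊕ O → A), IsPt P Q ∧
      (∀ t, w t ∈ maximalIdeal A) ∧ (∀ v, x v ∈ maximalIdeal A) ∧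
      F' = famA (BY p a P M0) (DY p a P M0 τ zv) (cY P Q w x))
    (by
      rintro ⟨Q, hQ⟩ M hM
      obtain ⟨l, w, x, G, hl, hw, hx, hlr, hG, hG1⟩ := newtonY ha hpat hP M0 τ zv
        (maximalIdeal A) hA.isNilpotent Q (tan Q hQ) M hM
      obtain ⟨Q', hQ'⟩ : ∃ Q' : ZMod f → GL (Fin 2) A, Q' = fun t =>
          Matrix.GeneralLinearGroup.map (algebraMap k A) (Q t) * eL (l t) := ⟨_, rfl⟩
      rw [← hQ'] at hG1
      have hQ'r : IsPt P Q' := by
        intro t h1 h2
        rw [hQ']
        dsimp only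
        rw [hQ t h1 h2, hlr t h1 h2]
      have h1 := isHom_famA (p := p) (a := a) M0 Q' hQ'r w τ hτ zv x
      refine ⟨_, fun j => TY P Q' j * G j, ⟨Q', w, x, hQ'r, hw, hx, rfl⟩, fun j => ?_, ?_⟩
      · obtain ⟨π, hπ, hπm⟩ := exists_resmap hA
        have hsmall : ∀ X : Mat A, X.map (lmap π) = 0 → MSmall (maximalIdeal A) X := by
          intro X hX r s v
          rw [← hπm]
          have h1 : (lmap π (X r s)).coeff v = 0 := by
            have h2 : lmap π (X r s) = 0 := congrFun (congrFun hX r) s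
            rw [h2]
            rfl
          exact h1
        have hsmall' : ∀ X : Mat A, MSmall (maximalIdeal A) X → X.map (lmap π) = 0 := by
          intro X hX
          refine Matrix.ext fun r s => ?_
          ext v
          exact (hπm _).2 (hX r s v)
        have hsub : ∀ X Y : Mat A, (X - Y).map (lmap π) = X.map (lmap π) - Y.map (lmap π) :=
          fun X Y => Matrix.ext fun r s => map_sub (lmap π) (X r s) (Y r s)
        have htoA : ∀ X : Mat k, (toA A X).map (lmap π) = X := by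
          intro X
          refine Matrix.ext fun r s => ?_
          ext v
          exact hπ _
        refine hsmall _ ?_
        have e1 : (G j).1.map (lmap π) = 1 := by
          have h2 := hsmall' _ (hG j)
          rw [hsub, map_one_mat] at h2
          exact sub_eq_zero.1 h2
        have e2 : (TY P Q' j).1.map (lmap π) = (TY P Q j).1 := by
          rw [TY_lmap]
          have h1 : ∀ t, Matrix.GeneralLinearGroup.map π (Q' t) = Q t := by
            intro t
            rw [hQ']
            apply Units.ext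
            refine Matrix.ext fun r s => ?_
            show π (((Matrix.GeneralLinearGroup.map (algebraMap k A) (Q t)).1 *
              (eL (l t)).1) r s) = (Q t).1 r s
            rw [Matrix.mul_apply, Fin.sum_univ_two, map_add, map_mul, map_mul]
            have h2 : ∀ r s, π ((Matrix.GeneralLinearGroup.map (algebraMap k A) (Q t)).1 r s) =
                (Q t).1 r s := fun r s => hπ _
            have h3 : π (l t) = 0 := (hπm _).2 (hl t)
            rw [h2, h2]
            fin_cases s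
            · show (Q t).1 r 0 * π 1 + (Q t).1 r 1 * π (l t) = (Q t).1 r 0
              rw [h3, map_one, mul_one, mul_zero, add_zero]
            · show (Q t).1 r 0 * π 0 + (Q t).1 r 1 * π 1 = (Q t).1 r 1
              rw [map_zero, map_one, mul_one, mul_zero, zero_add]
          simp only [h1]
        show ((TY P Q' j).1 * (G j).1 - toA A (TY P Q j).1).map (lmap π) = 0
        rw [hsub, Matrix.map_mul, e1, e2, htoA, Matrix.mul_one, sub_self]
      · exact hG1.comp h1)
    F hF hF'
  exact ⟨Q, w, x, hQ, hw, hx, hE⟩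

end

section
variable {p f : ℕ} [Fact p.Prime] [NeZero f] {a : ZMod f → ℕ} {P : ZMod f → Bool} {O J : Type}
  [Fintype O] [Fintype J] [DecidableEq J] [Fintype {t : ZMod f // P t = true}] {k : Type u}
  [Field k]

/-- the combinations with the coordinates `w_t l_j ^ e` come from Kisin modules -/
theorem fromKisin_famA {A : Type u} [CommRing A] [Algebra k A] [IsLocalRing A]
    (hA : IsTest k A) (hpat : IsPatY p a P) (M0 : KisinModule f k) (τ : Unit ⊕ O → ZMod f)
    (hτ : ∀ v, OutY P (τ v)) (zv : Unit ⊕ O → Matrix (Fin 2) (Fin 2) k)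
    (ω : {t : ZMod f // P t = true} → J)
    (hω : ∀ (t : ZMod f) (h : P t = true) (h' : P (t - 1) = true),
      ω ⟨t, h⟩ = ω ⟨t - 1, h'⟩)
    (l : J → A) (w : {t : ZMod f // P t = true} → A)
    (c : Unit ⊕ (({t : ZMod f // P t = true} × Fin 3) ⊕ O) → A)
    (hc : ∀ v, c v ∈ maximalIdeal A)
    (hcw : ∀ z, c (Sum.inr (Sum.inl z)) = w z.1 * l (ω z.1) ^ (z.2 : ℕ)) :
    FromKisin p a (famA (BY p a P M0) (DY p a P M0 τ zv) c) := by
  have hfin := hA.finite
  obtain ⟨Q, hQ⟩ : ∃ Q : ZMod f → GL (Fin 2) A, Q = fun t =>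
      if h : P t = true then eL (l (ω ⟨t, h⟩)) else 1 := ⟨_, rfl⟩
  obtain ⟨w', hw'⟩ : ∃ w' : ZMod f → A, w' = fun t =>
      if h : P t = true then w ⟨t, h⟩ else 0 := ⟨_, rfl⟩
  obtain ⟨x, hx⟩ : ∃ x : Unit ⊕ O → A, x = Sum.elim (fun u => c (Sum.inl u))
      (fun o => c (Sum.inr (Sum.inr o))) := ⟨_, rfl⟩
  have hQ1 : IsPt P Q := by
    intro t h h'
    rw [hQ]
    dsimp only
    rw [dif_pos h, dif_pos h', hω t h h']
  have hcY : cY P Q w' x = c := by
    funext v
    rcases v with v | z | o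
    · rw [hx]
      rfl
    · have e1 : Q z.1.1 = eL (l (ω z.1)) := by
        rw [hQ]
        dsimp only
        rw [dif_pos z.1.2]
      have e2 : w' z.1.1 = w z.1 := by
        rw [hw']
        dsimp only
        rw [dif_pos z.1.2]
      have e3 : (eL (l (ω z.1)))⁻¹.1.det = 1 := by
        show (!![1, 0; -l (ω z.1), 1] : Matrix (Fin 2) (Fin 2) A).det = 1
        rw [Matrix.det_fin_two_of]
        ring
      show w' z.1.1 * (Q z.1.1)⁻¹.1.det *
        ((Q z.1.1).1 1 0 ^ (z.2 : ℕ) * (Q z.1.1).1 0 0 ^ (2 - (z.2 : ℕ))) = _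
      rw [e1, e2, e3, hcw z]
      show w z.1 * 1 * (l (ω z.1) ^ (z.2 : ℕ) * (1 : A) ^ (2 - (z.2 : ℕ))) = _
      rw [one_pow, mul_one, mul_one]
    · rw [hx]
      rfl
  have hx' : ∀ v, x v ∈ maximalIdeal A := by
    rintro (u | o)
    · rw [hx]
      exact hc _
    · rw [hx]
      exact hc _
  have h1 := isHom_famA (p := p) (a := a) M0 Q hQ1 w' τ hτ zv x
  rw [hcY] at h1
  obtain ⟨M', hM'⟩ := exists_MXY hpat (M0.baseChange (algebraMap k A)) Q w'
    (zY τ (fun v => (zv v).map (algebraMap k A)) x)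
    fun j => isUnit_det_zY τ _ hA.isNilpotent hx' j
  refine ⟨M', fun j => TY P Q j, ?_⟩
  have h2 : M'.frob a = MXY p a P (M0.baseChange (algebraMap k A)) Q w'
    (zY τ (fun v => (zv v).map (algebraMap k A)) x) := funext hM'
  rw [h2]
  exact h1

end

end Pool.Agent.Lib.MP_74d0c9_nt
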