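import Pool.Agent.Lib.MP_74d0c9_nt.Stable
import Pool.Agent.Lib.MP_74d0c9_nt.Example

/-! A Kisin module over a field all of whose constant matrices `Y` have a nonzero last entry is
reducible. -/

set_option autoImplicit false

namespace Pool.Agent.Lib.MP_74d0c9_nt

open HahnSeries

universe u

section
variable {k : Type u} [Field k]

theorem GE.sub' {x y : LaurentSeries k} {m : ℤ} (hx : GE x m) (hy : GE y m) : GE (x - y) m := by
  intro j hj
  rw [coeff_sub, hx j hj, hy j hj, sub_zero]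

/-- a fixed point of a contraction of `∏ u k[[u]]` -/
theorem exists_fix {J : Type} (Θ : (J → LaurentSeries k) → J → LaurentSeries k)
    (h1 : ∀ s, (∀ j, GE (s j) 1) → ∀ j, GE (Θ s j) 1)
    (h2 : ∀ s s', (∀ j, GE (s j) 1) → (∀ j, GE (s' j) 1) → ∀ n : ℕ,
      (∀ j, GE (s j - s' j) (n + 1 : ℕ)) → ∀ j, GE (Θ s j - Θ s' j) (n + 2 : ℕ)) :
    ∃ s, (∀ j, GE (s j) 1) ∧ Θ s = s := by
  obtain ⟨t, ht⟩ : ∃ t : ℕ → J → LaurentSeries k, t = fun n => Θ^[n] 0 := ⟨_, rfl⟩
  have t0 : t 0 = 0 := by rw [ht]; rfl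
  have ts : ∀ n, t (n + 1) = Θ (t n) := by
    intro n
    rw [ht]
    exact Function.iterate_succ_apply' Θ n 0
  have t1 : ∀ n j, GE (t n j) 1 := by
    intro n
    induction n with
    | zero =>
      intro j
      rw [t0]
      exact GE.zero 1
    | succ n ih =>
      intro j
      rw [ts]
      exact h1 _ ih j
  have tc : ∀ n j, GE (t (n + 1) j - t n j) (n + 1 : ℕ) := by
    intro n
    induction n with
    | zero =>
      intro j
      exact (t1 1 j).sub' (t1 0 j)
    | succ n ih =>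
      intro j
      rw [ts (n + 1), ts n]
      exact h2 _ _ (by rw [← ts]; exact t1 (n + 1)) (t1 n) n (fun j => by
        rw [← ts]
        exact ih j) j
  have tcc : ∀ n m j, GE (t (n + m) j - t n j) (n + 1 : ℕ) := by
    intro n m
    induction m with
    | zero =>
      intro j
      rw [add_zero, sub_self]
      exact GE.zero _
    | succ m ih =>
      intro j
      have e : t (n + (m + 1)) j - t n j =
          (t (n + m + 1) j - t (n + m) j) + (t (n + m) j - t n j) := by
        rw [← add_assoc]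
        ring
      rw [e]
      refine GE.add ((tc (n + m) j).mono ?_) (ih j)
      push_cast
      omega
  obtain ⟨s, hs⟩ : ∃ s : J → LaurentSeries k, s = fun j =>
      ps (PowerSeries.mk fun v => (t v j).coeff v) := ⟨_, rfl⟩
  have sc : ∀ n j, GE (s j - t n j) (n + 1 : ℕ) := by
    intro n j v hv
    rw [coeff_sub, hs]
    rcases lt_or_ge v 0 with hv0 | hv0
    · rw [coeff_ps_neg _ hv0, t1 n j v (by omega), sub_zero]
    · obtain ⟨w, rfl⟩ := Int.eq_ofNat_of_zero_le hv0
      rw [coeff_ps, PowerSeries.coeff_mk]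
      have hw : w ≤ n := by
        push_cast at hv
        omega
      obtain ⟨m, rfl⟩ : ∃ m, n = w + m := ⟨n - w, by omega⟩
      have h3 := tcc w m j w (by push_cast; omega)
      rw [coeff_sub, sub_eq_zero] at h3
      rw [h3, sub_self]
  have s1 : ∀ j, GE (s j) 1 := by
    intro j
    have h3 := sc 0 j
    rw [t0] at h3
    simpa using h3
  refine ⟨s, s1, ?_⟩
  funext j
  rw [← sub_eq_zero]
  ext v
  obtain ⟨n, hn⟩ : ∃ n : ℕ, v < (n + 1 : ℕ) := ⟨v.toNat, by push_cast; omega⟩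
  have h3 := h2 s (t n) s1 (t1 n) n (sc n) j
  have h4 : GE (Θ s j - s j) (n + 1 : ℕ) := by
    have e : Θ s j - s j = (Θ s j - Θ (t n) j) - (s j - t (n + 1) j) := by
      rw [ts]
      ring
    rw [e]
    refine GE.sub' (h3.mono (by push_cast; omega)) ((sc (n + 1) j).mono (by push_cast; omega))
  exact h4 v hn

/-- the inverse of a unit power series -/
theorem GE_inv {x : LaurentSeries k} (hx : GE x 0) (h0 : x.coeff 0 ≠ 0) : GE x⁻¹ 0 := by
  obtain ⟨g, hg, hg0⟩ := hx.exists_ps
  have e1 : (single (0 : ℤ) (1 : k) : LaurentSeries k) = 1 := rfl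
  rw [e1, one_mul] at hg
  have h1 : g * g⁻¹ = 1 := PowerSeries.mul_inv_cancel g (by rw [hg0]; exact h0)
  have h2 : x * ps g⁻¹ = 1 := by rw [hg, ← map_mul, h1, map_one]
  have h3 : x⁻¹ = ps g⁻¹ := inv_eq_of_mul_eq_one_right h2
  rw [h3]
  exact GE_ps _

end

section
variable {k : Type u} [Field k] {p f : ℕ} [Fact p.Prime] [NeZero f] {a : ZMod f → ℕ}

/-- If the Kisin module is irreducible then some matrix `Y j` has the last entry zero. -/
theorem exists_Y_zero (ha : ∀ j, 1 ≤ a j) (M : KisinModule f k) (hM : Irred p (M.frob a)) :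
    ∃ j, M.Y j 1 1 = 0 := by
  by_contra hc
  push Not at hc
  apply hM
  have hp2 : (2 : ℤ) ≤ p := by exact_mod_cast (Fact.out : p.Prime).two_le
  obtain ⟨W, hW⟩ : ∃ W : ZMod f → Mat k, W = fun j => (Vm M j).map (phi k p) := ⟨_, rfl⟩
  have hW0 : ∀ j, MGE (W j) 0 := by
    intro j
    rw [hW]
    exact Wm_MGE j
  have hW11 : ∀ j, (W j 1 1).coeff 0 ≠ 0 := by
    intro j
    have h1 := congrFun (congrFun (lead_Wm (M := M) (p := p) j) 1) 1
    rw [lead_Vm'] at h1
    rw [hW]
    show (((Vm M j).map (phi k p)) 1 1).coeff 0 ≠ 0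
    have h2 : (((Vm M j).map (phi k p)) 1 1).coeff 0 = M.Y (j - 1) 1 1 := h1
    rw [h2]
    exact hc _
  obtain ⟨N, hN⟩ : ∃ N : (ZMod f → LaurentSeries k) → ZMod f → LaurentSeries k,
      N = fun s j => W j 1 0 * phi k p (s (j - 1)) + W j 1 1 := ⟨_, rfl⟩
  have hphi : ∀ (x : LaurentSeries k) (n : ℤ), GE x n → 0 ≤ n → GE (phi k p x) (2 * n) := by
    intro x n hx hn
    refine (phi_GE p hx).mono ?_
    exact mul_le_mul_of_nonneg_right hp2 hn
  have hN0 : ∀ s, (∀ j, GE (s j) 1) → ∀ j, GE (N s j) 0 ∧ (N s j).coeff 0 ≠ 0 := by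
    intro s hs j
    have h1 : GE (W j 1 0 * phi k p (s (j - 1))) (0 + 2 * 1) :=
      ((hW0 j 1 0).mul (hphi _ 1 (hs _) (by norm_num))).1
    rw [hN]
    refine ⟨GE.add (h1.mono (by norm_num)) (hW0 j 1 1), ?_⟩
    show (W j 1 0 * phi k p (s (j - 1)) + W j 1 1).coeff 0 ≠ 0
    rw [coeff_add, h1 0 (by norm_num), zero_add]
    exact hW11 j
  have hNne : ∀ s, (∀ j, GE (s j) 1) → ∀ j, N s j ≠ 0 := by
    intro s hs j h
    apply (hN0 s hs j).2
    rw [h, coeff_zero]
  obtain ⟨Θ, hΘ⟩ : ∃ Θ : (ZMod f → LaurentSeries k) → ZMod f → LaurentSeries k,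
      Θ = fun s j => un (a j) * ((W j 0 0 * phi k p (s (j - 1)) + W j 0 1) * (N s j)⁻¹) :=
    ⟨_, rfl⟩
  have hun : ∀ (j : ZMod f) (x : LaurentSeries k) (n : ℤ), GE x n → GE (un (a j) * x) (n + 1) := by
    intro j x n hx v hv
    have h1 : (1 : ℤ) ≤ a j := by exact_mod_cast ha j
    unfold un
    rw [coeff_single_mul, one_mul]
    exact hx _ (by omega)
  obtain ⟨s, hs1, hs2⟩ := exists_fix Θ
    (by
      intro s hs j
      rw [hΘ]
      have h1 : GE (W j 0 0 * phi k p (s (j - 1)) + W j 0 1) 0 := by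
        refine GE.add ?_ (hW0 j 0 1)
        have h2 : GE (W j 0 0 * phi k p (s (j - 1))) (0 + 2 * 1) :=
          ((hW0 j 0 0).mul (hphi _ 1 (hs _) (by norm_num))).1
        exact h2.mono (by norm_num)
      have h3 := (h1.mul (GE_inv (hN0 s hs j).1 (hN0 s hs j).2)).1
      rw [add_zero] at h3
      exact hun j _ 0 h3)
    (by
      intro s s' hs hs' n hn j
      have h1 : Θ s j - Θ s' j = un (a j) * (((W j 0 0 * W j 1 1 - W j 0 1 * W j 1 0) *
          phi k p (s (j - 1) - s' (j - 1))) * ((N s j)⁻¹ * (N s' j)⁻¹)) := by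
        have n1 := hNne s hs j
        have n2 := hNne s' hs' j
        have e1 : N s j = W j 1 0 * phi k p (s (j - 1)) + W j 1 1 := by rw [hN]
        have e2 : N s' j = W j 1 0 * phi k p (s' (j - 1)) + W j 1 1 := by rw [hN]
        rw [hΘ]
        show un (a j) * ((W j 0 0 * phi k p (s (j - 1)) + W j 0 1) * (N s j)⁻¹) -
          un (a j) * ((W j 0 0 * phi k p (s' (j - 1)) + W j 0 1) * (N s' j)⁻¹) = _
        rw [map_sub]
        field_simp
        rw [e1, e2]
        ring
      rw [h1]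
      have h2 : GE (W j 0 0 * W j 1 1 - W j 0 1 * W j 1 0) 0 := by
        have h3 := ((hW0 j 0 0).mul (hW0 j 1 1)).1
        have h4 := ((hW0 j 0 1).mul (hW0 j 1 0)).1
        rw [add_zero] at h3 h4
        exact h3.sub' h4
      have h5 := hphi _ _ (hn (j - 1)) (by positivity)
      have h6 := (GE_inv (hN0 s hs j).1 (hN0 s hs j).2).mul (GE_inv (hN0 s' hs' j).1 (hN0 s' hs' j).2)
      have h7 := ((h2.mul h5).1.mul h6.1).1
      refine (hun j _ _ h7).mono ?_
      push_cast
      omega)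
  -- the stable line
  refine ⟨fun j => (gx (M.X j)).mulVec ![s j, 1], fun j => N s j, fun j h => ?_, fun j => ?_⟩
  · have h1 : (gx (M.X j)⁻¹).mulVec ((gx (M.X j)).mulVec ![s j, 1]) = ![s j, 1] := by
      rw [Matrix.mulVec_mulVec, ← gx_mul, inv_mul_cancel, gx_one, Matrix.one_mulVec]
    have h' : (gx (M.X j)).mulVec ![s j, 1] = 0 := h
    rw [h', Matrix.mulVec_zero] at h1
    have h2 := congrFun h1 1
    exact zero_ne_one h2
  · have h1 : (fun r => phi k p ((gx (M.X (j - 1))).mulVec ![s (j - 1), 1] r)) =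
        ((gx (M.X (j - 1))).map (phi k p)).mulVec ![phi k p (s (j - 1)), 1] := by
      funext r
      show phi k p ((gx (M.X (j - 1))).mulVec ![s (j - 1), 1] r) = _
      rw [Matrix.mulVec, Matrix.mulVec, dotProduct, dotProduct, Fin.sum_univ_two,
        Fin.sum_univ_two, map_add, map_mul, map_mul]
      show _ * phi k p (s (j - 1)) + _ * phi k p 1 = _ * phi k p (s (j - 1)) + _ * 1
      rw [map_one]
      rfl
    have h2 : M.frob a j = gx (M.X j) * du (a j) * gz (M.Z j) := rfl
    have h3 : gz (M.Z j) * (gx (M.X (j - 1))).map (phi k p) = W j := by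
      rw [hW]
      show _ = (gz (M.Z j) * gx (M.X (j - 1))).map (phi k p)
      rw [Matrix.map_mul, phi_gz]
    show (M.frob a j).mulVec (fun r => phi k p ((gx (M.X (j - 1))).mulVec ![s (j - 1), 1] r)) =
      N s j • (gx (M.X j)).mulVec ![s j, 1]
    rw [h1, h2, Matrix.mulVec_mulVec]
    have h4 : gx (M.X j) * du (a j) * gz (M.Z j) * (gx (M.X (j - 1))).map (phi k p) =
        gx (M.X j) * (du (a j) * W j) := by
      rw [← h3]
      simp only [Matrix.mul_assoc]
    rw [h4, ← Matrix.mulVec_mulVec, ← Matrix.mulVec_smul]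
    congr 1
    have h5 : s j = Θ s j := by rw [hs2]
    have h6 : Θ s j = un (a j) * ((W j 0 0 * phi k p (s (j - 1)) + W j 0 1) * (N s j)⁻¹) := by
      rw [hΘ]
    have h7 : N s j = W j 1 0 * phi k p (s (j - 1)) + W j 1 1 := by rw [hN]
    have n1 := hNne s hs1 j
    rw [← Matrix.mulVec_mulVec]
    have h8 : (du (a j) : Mat k) = Matrix.diagonal ![single (a j : ℤ) 1, 1] := rfl
    rw [h8]
    funext r
    rw [Matrix.mulVec_diagonal, Matrix.mulVec, dotProduct, Fin.sum_univ_two]
    fin_cases r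
    · show single (a j : ℤ) 1 * (W j 0 0 * phi k p (s (j - 1)) + W j 0 1 * 1) = N s j * s j
      rw [h5, h6, mul_one]
      have e : (single (a j : ℤ) (1 : k) : LaurentSeries k) = un (a j) := rfl
      rw [e]
      field_simp
    · show (1 : LaurentSeries k) * (W j 1 0 * phi k p (s (j - 1)) + W j 1 1 * 1) = N s j * 1
      rw [h7]
      ring

end

end Pool.Agent.Lib.MP_74d0c9_nt
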