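import Pool.Agent.Lib.MP_74d0c9_nt.YModel

/-! Existence of irreducible Kisin modules with given active words, for every shape. -/

set_option autoImplicit false

namespace Pool.Agent.Lib.MP_74d0c9_nt

open HahnSeries

universe u

section
variable {k : Type u} [Field k] {p f : ℕ} [Fact p.Prime] [NeZero f] {a : ZMod f → ℕ}

theorem irred_FE_of_ne (hp : 5 ≤ p) (ha : ∀ i, 1 ≤ a i ∧ a i ≤ p)
    (i : ZMod f) (hi : a (i - 1) ≠ 1) : Irred p (FE a i : ZMod f → Mat k) := by
  have hf0 : 0 < f := Nat.pos_of_ne_zero (NeZero.ne f)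
  rintro ⟨v, ν, hv, h⟩
  have hp5 : (5 : ℤ) ≤ p := by exact_mod_cast hp
  obtain ⟨J, hJ⟩ : ∃ J : ℕ → ZMod f, J = fun t : ℕ => i + (t : ZMod f) - 1 := ⟨_, rfl⟩
  have hJ0 : J 0 = i - 1 := by
    rw [hJ]
    simp
  have hJs : ∀ t, J (t + 1) - 1 = J t := by
    intro t
    rw [hJ]
    push_cast
    ring
  have hJv : ∀ t, t < f → (J (t + 1) - i).val = t := by
    intro t ht
    have : J (t + 1) - i = t := by rw [hJ]; push_cast; ring
    rw [this, ZMod.val_natCast_of_lt ht]
  have hJf : J f = J 0 := by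
    rw [hJ]
    simp
  -- the components
  have hstep : ∀ t, t < f - 1 → ∃ c d : ℤ,
      un c * phi k p (v (J t) 0) = ν (J (t + 1)) * v (J (t + 1)) 0 ∧
      un d * phi k p (v (J t) 1) = ν (J (t + 1)) * v (J (t + 1)) 1 ∧
      d = c - a (J (t + 1)) := by
    intro t ht
    have h1 : (FE a i (J (t + 1))).mulVec
        (fun r => phi k p (v (J (t + 1) - 1) r)) = ν (J (t + 1)) • v (J (t + 1)) := h (J (t + 1))
    have hB : FE a i (J (t + 1)) = (!![un (a (J (t + 1))), 0; 0, un 0] : Mat k) := by
      unfold FE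
      rw [hJv t (by omega), if_pos ht, un_zero]
    rw [hJs, hB] at h1
    refine ⟨a (J (t + 1)), 0, ?_, ?_, by ring⟩
    · have := congrFun h1 0
      rw [Matrix.mulVec, dotProduct, Fin.sum_univ_two] at this
      have e : un (a (J (t + 1)) : ℤ) * phi k p (v (J t) 0) + 0 * phi k p (v (J t) 1) =
        ν (J (t + 1)) * v (J (t + 1)) 0 := this
      rw [← e]
      ring
    · have := congrFun h1 1
      rw [Matrix.mulVec, dotProduct, Fin.sum_univ_two] at this
      have e : 0 * phi k p (v (J t) 0) + un 0 * phi k p (v (J t) 1) =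
        ν (J (t + 1)) * v (J (t + 1)) 1 := this
      rw [← e]
      ring
  have hlast : un 0 * phi k p (v (J (f - 1)) 1) = ν (J 0) * v (J 0) 0 ∧
      un (a (J 0)) * phi k p (v (J (f - 1)) 0) = ν (J 0) * v (J 0) 1 := by
    have hf1 : f - 1 + 1 = f := by omega
    have h1 : (FE a i (J (f - 1 + 1))).mulVec
        (fun r => phi k p (v (J (f - 1 + 1) - 1) r)) =
        ν (J (f - 1 + 1)) • v (J (f - 1 + 1)) := h (J (f - 1 + 1))
    have hB : FE a i (J (f - 1 + 1)) = (!![0, 1; un (a (J 0)), 0] : Mat k) := by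
      unfold FE
      rw [hJv (f - 1) (by omega), if_neg (lt_irrefl _), hf1, hJf]
    rw [hB, hJs, hf1, hJf] at h1
    constructor
    · have := congrFun h1 0
      rw [Matrix.mulVec, dotProduct, Fin.sum_univ_two] at this
      have e : 0 * phi k p (v (J (f - 1)) 0) + 1 * phi k p (v (J (f - 1)) 1) =
        ν (J 0) * v (J 0) 0 := this
      rw [← e, un_zero]
      ring
    · have := congrFun h1 1
      rw [Matrix.mulVec, dotProduct, Fin.sum_univ_two] at this
      have e : un (a (J 0) : ℤ) * phi k p (v (J (f - 1)) 0) + 0 * phi k p (v (J (f - 1)) 1) =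
        ν (J 0) * v (J 0) 1 := this
      rw [← e]
      ring
  -- nonzero
  have hν : ν (J 0) ≠ 0 := by
    intro h0
    rw [h0, zero_mul, zero_mul] at hlast
    have h1 : (un 0 : LaurentSeries k) ≠ 0 := single_ne_zero one_ne_zero
    have h2 : (un (a (J 0)) : LaurentSeries k) ≠ 0 := single_ne_zero one_ne_zero
    apply hv (J (f - 1))
    funext r
    fin_cases r
    · by_contra h3
      exact mul_ne_zero h2 (phi_ne_zero p h3) hlast.2
    · by_contra h3
      exact mul_ne_zero h1 (phi_ne_zero p h3) hlast.1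
  have hν' : ∀ t, t < f - 1 → ν (J (t + 1)) ≠ 0 := by
    intro t ht h0
    obtain ⟨c, d, h1, h2, -⟩ := hstep t ht
    rw [h0, zero_mul] at h1 h2
    have h3 : (un c : LaurentSeries k) ≠ 0 := single_ne_zero one_ne_zero
    have h4 : (un d : LaurentSeries k) ≠ 0 := single_ne_zero one_ne_zero
    apply hv (J t)
    funext r
    fin_cases r
    · by_contra h5
      exact mul_ne_zero h3 (phi_ne_zero p h5) h1
    · by_contra h5
      exact mul_ne_zero h4 (phi_ne_zero p h5) h2
  have hx0 : v (J 0) 0 ≠ 0 := by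
    intro h0
    have h1 : ∀ t, t ≤ f - 1 → v (J t) 0 = 0 := by
      intro t
      induction t with
      | zero => intro _; exact h0
      | succ t ih =>
        intro ht
        obtain ⟨c, d, h1, -, -⟩ := hstep t (by omega)
        rw [ih (by omega), map_zero, mul_zero] at h1
        exact (mul_eq_zero.1 h1.symm).resolve_left (hν' t (by omega))
    have h2 := hlast.2
    rw [h1 _ le_rfl, map_zero, mul_zero] at h2
    have h3 := (mul_eq_zero.1 h2.symm).resolve_left hν
    apply hv (J 0)
    funext r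
    fin_cases r
    · exact h0
    · exact h3
  have hy0 : v (J 0) 1 ≠ 0 := by
    intro h0
    have h1 : ∀ t, t ≤ f - 1 → v (J t) 1 = 0 := by
      intro t
      induction t with
      | zero => intro _; exact h0
      | succ t ih =>
        intro ht
        obtain ⟨c, d, -, h1, -⟩ := hstep t (by omega)
        rw [ih (by omega), map_zero, mul_zero] at h1
        exact (mul_eq_zero.1 h1.symm).resolve_left (hν' t (by omega))
    have h2 := hlast.1
    rw [h1 _ le_rfl, map_zero, mul_zero] at h2
    have h3 := (mul_eq_zero.1 h2.symm).resolve_left hν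
    apply hv (J 0)
    funext r
    fin_cases r
    · exact h3
    · exact h0
  have hne : ∀ t, t ≤ f - 1 → v (J t) 0 ≠ 0 ∧ v (J t) 1 ≠ 0 := by
    intro t
    induction t with
    | zero => intro _; exact ⟨hx0, hy0⟩
    | succ t ih =>
      intro ht
      obtain ⟨c, d, h1, h2, -⟩ := hstep t (by omega)
      obtain ⟨h3, h4⟩ := ih (by omega)
      exact ⟨(order_step p h3 h1).1, (order_step p h4 h2).1⟩
  -- the difference of the orders
  obtain ⟨R, hR⟩ : ∃ R : ℕ → ℤ, R = fun t => (v (J t) 1).order - (v (J t) 0).order := ⟨_, rfl⟩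
  have hRs : ∀ t, t < f - 1 → R (t + 1) = p * R t - a (J (t + 1)) := by
    intro t ht
    obtain ⟨c, d, h1, h2, h3⟩ := hstep t ht
    obtain ⟨h4, h5⟩ := hne t (by omega)
    have h6 := (order_step p h4 h1).2.2
    have h7 := (order_step p h5 h2).2.2
    rw [hR]
    dsimp only
    rw [h3] at h7
    linear_combination h7 - h6
  have hRf : R 0 = a (J 0) - p * R (f - 1) := by
    obtain ⟨h4, h5⟩ := hne (f - 1) le_rfl
    have h6 := (order_step p h5 hlast.1).2.2
    have h7 := (order_step p h4 hlast.2).2.2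
    rw [hR]
    dsimp only
    linear_combination h7 - h6
  have hab : ∀ j, (1 : ℤ) ≤ a j ∧ (a j : ℤ) ≤ p := fun j =>
    ⟨by exact_mod_cast (ha j).1, by exact_mod_cast (ha j).2⟩
  have ha0 : (2 : ℤ) ≤ a (J 0) := by
    have h1 := (ha (J 0)).1
    have h2 : a (J 0) ≠ 1 := by
      rw [hJ0]
      exact hi
    have h3 : 2 ≤ a (J 0) := by omega
    exact_mod_cast h3
  rcases lt_trichotomy (R 0) 1 with hlt | heq | hgt
  · have h1 : ∀ t, t ≤ f - 1 → R t ≤ 0 := by
      intro t
      induction t with
      | zero => intro _; omega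
      | succ t ih =>
        intro ht
        have h2 := ih (by omega)
        rw [hRs t (by omega)]
        nlinarith [(hab (J (t + 1))).1]
    have h2 := h1 _ le_rfl
    nlinarith [(hab (J 0)).1]
  · rw [heq] at hRf
    have h3 := (hab (J 0)).2
    rcases lt_trichotomy (R (f - 1)) 0 with h | h | h
    · nlinarith
    · rw [h] at hRf
      omega
    · nlinarith
  · have h1 : ∀ t, t ≤ f - 1 → 2 ≤ R t := by
      intro t
      induction t with
      | zero => intro _; omega
      | succ t ih =>
        intro ht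
        have h2 := ih (by omega)
        rw [hRs t (by omega)]
        nlinarith [(hab (J (t + 1))).2]
    have h2 := h1 _ le_rfl
    nlinarith [(hab (J 0)).2]

end

section
variable {p f : ℕ} [Fact p.Prime] [NeZero f] {a : ZMod f → ℕ}

omit [Fact p.Prime] in
/-- the module `ME` has no active word -/
theorem not_active_ME {k : Type u} [Field k] (hp : 5 ≤ p) (i : ZMod f)
    (hi : a (i - 1) ≠ 1 ∨ ∀ j, a j = 1) (i' : ZMod f) (m' : ℕ) :
    ¬ Active p f a (ME k i) i' m' := by
  rintro ⟨hw, h11, -⟩
  have hf0 : 0 < f := Nat.pos_of_ne_zero (NeZero.ne f)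
  have hY : (ME k i).Y i' = (if (i' - i).val < f - 1 then (1 : GL (Fin 2) k) else sw).1 := by
    have e5 : ∀ X : GL (Fin 2) k, (Matrix.GeneralLinearGroup.map PowerSeries.C X).1.map
        PowerSeries.constantCoeff = X.1 := by
      intro X
      refine Matrix.ext fun r s => ?_
      exact PowerSeries.constantCoeff_C _
    unfold KisinModule.Y ME
    dsimp only
    rw [e5, Units.val_one, Matrix.one_mul]
  rw [hY] at h11
  by_cases h1 : (i' - i).val < f - 1
  · rw [if_pos h1, Units.val_one, Matrix.one_apply_eq] at h11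
    exact one_ne_zero h11
  · have h2 : (i' - i).val = f - 1 := by
      have := ZMod.val_lt (i' - i)
      omega
    have h3 : i' = i - 1 := by
      have h4 : i + (((i' - i).val : ℕ) : ZMod f) = i' := by
        rw [ZMod.natCast_val, ZMod.cast_id', id_eq, add_sub_cancel]
      rw [h2, Nat.cast_sub hf0, ZMod.natCast_self] at h4
      rw [← h4]
      push_cast
      ring
    rcases hi with hi | hi
    · exact hi (h3 ▸ hw.2.2.1)
    · have h4 := hw.2.2.2.2
      rw [hi] at h4
      omega

/-- Over every field, for every shape and every family of disjoint words which do not cover the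
cycle, there is an absolutely irreducible Kisin module for which these are the active words. -/
theorem exists_modelA (hp : 5 ≤ p) (ha : ∀ t, 1 ≤ a t ∧ a t ≤ p) (r : ℕ) (i : Fin r → ZMod f)
    (m : Fin r → ℕ) (hW : IsWords p f a i m) (k : Type u) [Field k] : ∃ M : KisinModule f k,
      (∀ (K : Type u) [Field K] (ι : k →+* K), Irred p fun j => (M.frob a j).map (lmap ι)) ∧
      ∀ (i' : ZMod f) (m' : ℕ), Active p f a M i' m' ↔ ∃ j, i' = i j ∧ m' = m j := by
  rcases Nat.eq_zero_or_pos r with hr | hr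
  · subst hr
    obtain ⟨i0, hi0⟩ : ∃ i0 : ZMod f, a (i0 - 1) ≠ 1 ∨ ∀ j, a j = 1 := by
      by_cases h : ∀ j, a j = 1
      · exact ⟨0, Or.inr h⟩
      · push Not at h
        obtain ⟨j, hj⟩ := h
        exact ⟨j + 1, Or.inl (by rwa [add_sub_cancel_right])⟩
    refine ⟨ME k i0, fun K _ ι => ?_, fun i' m' => ?_⟩
    · have e : (fun j => ((ME k i0).frob a j).map (lmap ι)) = (FE a i0 : ZMod f → Mat K) := by
        funext j
        rw [ME_frob, FE_map]
      rw [e]
      rcases hi0 with hi0 | hi0
      · exact irred_FE_of_ne hp ha i0 hi0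
      · exact irred_FE hp (fun j => ⟨(ha j).1, by rw [hi0]; omega⟩) i0
    · constructor
      · intro h
        exact absurd h (not_active_ME hp i0 hi0 i' m')
      · rintro ⟨j, -⟩
        exact j.elim0
  · have hne : Nonempty (Fin r) := ⟨⟨0, hr⟩⟩
    obtain ⟨j0, hj0⟩ := exists_gap hW
    refine ⟨stdK k (PW i m (i j0)) (i j0), fun K _ ι => ?_,
      fun i' m' => active_stdK hp hW hj0 i' m'⟩
    exact absIrr_stdK hp ha (goodP_PW hW hj0) _ (isPat_PW hW) K ι

/-- all the families of lengths occur -/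
theorem exists_shape0 (hp : 5 ≤ p) (r : ℕ) (m : Fin r → ℕ) (hm : ∀ j, 2 ≤ m j)
    (hs : ∑ j, m j < f) : ∃ (a : ZMod f → ℕ) (i : Fin r → ZMod f), (∀ t, 1 ≤ a t ∧ a t ≤ p) ∧
      IsWords p f a i m := by
  rcases Nat.eq_zero_or_pos r with hr | hr
  · subst hr
    exact ⟨fun _ => 1, fun j => j.elim0, fun _ => ⟨le_rfl, by show 1 ≤ p; omega⟩,
      ⟨fun j => j.elim0, fun j => j.elim0, hs⟩⟩
  · obtain ⟨a, i, ha, hW⟩ := exists_shape hp m hm hs
    exact ⟨a, i, ha, hW⟩

end

end Pool.Agent.Lib.MP_74d0c9_nt
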