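import Pool.Agent.Lib.MP_74d0c9_nt.YStep
import Pool.Agent.Lib.MP_74d0c9_nt.YGlue

/-! The normal form of a Kisin module at its active words. -/

set_option autoImplicit false

namespace Pool.Agent.Lib.MP_74d0c9_nt

open HahnSeries

universe u

section
variable {k : Type u} [Field k] {f : ℕ}

/-- `diag(u ^ b, 1)` -/
noncomputable def duG (b : ℤ) : GL (Fin 2) (LaurentSeries k) :=
  ⟨!![un b, 0; 0, 1], !![un (-b), 0; 0, 1],
  by
    rw [Matrix.mul_fin_two, Matrix.one_fin_two]
    apply mat2_congr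
    · linear_combination un_mul_neg (k := k) b
    · ring
    · ring
    · ring,
  by
    rw [Matrix.mul_fin_two, Matrix.one_fin_two]
    apply mat2_congr
    · linear_combination un_mul_neg (k := k) b
    · ring
    · ring
    · ring⟩

/-- `diag(u ^ b, u ^ b)` -/
noncomputable def scG (b : ℤ) : GL (Fin 2) (LaurentSeries k) :=
  ⟨!![un b, 0; 0, un b], !![un (-b), 0; 0, un (-b)],
  by
    rw [Matrix.mul_fin_two, Matrix.one_fin_two]
    apply mat2_congr
    · linear_combination un_mul_neg (k := k) b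
    · ring
    · ring
    · linear_combination un_mul_neg (k := k) b,
  by
    rw [Matrix.mul_fin_two, Matrix.one_fin_two]
    apply mat2_congr
    · linear_combination un_mul_neg (k := k) b
    · ring
    · ring
    · linear_combination un_mul_neg (k := k) b⟩

theorem scG_val (b : ℤ) : (scG b : GL (Fin 2) (LaurentSeries k)).1 = !![un b, 0; 0, un b] := rfl

/-- the matrix of Frobenius as an invertible matrix -/
noncomputable def frobG (a : ZMod f → ℕ) (M : KisinModule f k) (j : ZMod f) :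
    GL (Fin 2) (LaurentSeries k) :=
  Matrix.GeneralLinearGroup.map ps (M.X j) * duG (a j) * gc (M.Z j)

theorem frobG_val (a : ZMod f → ℕ) (M : KisinModule f k) (j : ZMod f) :
    (frobG a M j).1 = M.frob a j := by
  have h1 : (frobG a M j).1 = gx (M.X j) * !![un (a j), 0; 0, 1] * gz (M.Z j) := rfl
  rw [h1, ← du_two]
  rfl

/-- `Y_j` as an invertible matrix -/
noncomputable def YG (M : KisinModule f k) (j : ZMod f) : GL (Fin 2) k := M.Z (j + 1) * cg (M.X j)

theorem YG_val (M : KisinModule f k) (j : ZMod f) : (YG M j).1 = M.Y j := rfl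

variable {p : ℕ} [Fact p.Prime] [NeZero f] {a : ZMod f → ℕ} {P : ZMod f → Bool}

/-- the lattice at a position of a word -/
def RY (M : KisinModule f k) (T : ZMod f → GL (Fin 2) (LaurentSeries k)) (j : ZMod f)
    (q : GL (Fin 2) k) : Prop :=
  ∃ n : GL (Fin 2) (PowerSeries k), (T j).1 * gx (M.X j) = gz q * (tl (0 : k)).1 * gx n ∧
    (cg n * (YG M j)⁻¹).1 0 0 = 0

omit [NeZero f] in
theorem RY.prev {M : KisinModule f k} {T : ZMod f → GL (Fin 2) (LaurentSeries k)} {j : ZMod f}
    {q : GL (Fin 2) k} (h : RY M T (j - 1) q) :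
    ∃ U : GL (Fin 2) (PowerSeries k), (T (j - 1)).1 = gz q * (tl (0 : k)).1 * gx U ∧
      (cg U * (M.Z j)⁻¹).1 0 0 = 0 := by
  obtain ⟨n, h1, h2⟩ := h
  refine ⟨n * (M.X (j - 1))⁻¹, ?_, ?_⟩
  · have e : gx (M.X (j - 1)) * gx (M.X (j - 1))⁻¹ = 1 := by
      rw [← gx_mul, mul_inv_cancel, gx_one]
    rw [gx_mul, ← Matrix.mul_assoc, ← h1, Matrix.mul_assoc, e, Matrix.mul_one]
  · have e : cg (n * (M.X (j - 1))⁻¹) * (M.Z j)⁻¹ = cg n * (YG M (j - 1))⁻¹ := by
      unfold YG
      rw [cg_mul, cg_inv, sub_add_cancel, mul_inv_rev, mul_assoc]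
    rw [e]
    exact h2

omit [NeZero f] in
theorem RY.point {M : KisinModule f k} {T : ZMod f → GL (Fin 2) (LaurentSeries k)} {j : ZMod f}
    {q : GL (Fin 2) k} (h : RY M T j q) :
    ∃ g : GL (Fin 2) (PowerSeries k), (T j).1 * gx g = (gc q * tl 0).1 := by
  obtain ⟨n, h1, -⟩ := h
  refine ⟨M.X j * n⁻¹, ?_⟩
  have e : gx n * gx n⁻¹ = 1 := by rw [← gx_mul, mul_inv_cancel, gx_one]
  rw [gx_mul, ← Matrix.mul_assoc, h1, Matrix.mul_assoc, e, Matrix.mul_one]
  rfl

/-- The normal form: over the étale `φ`-module of a Kisin module `M` whose words at the pattern `P`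
are active, there are lattices such that the Frobenius is scalar at the words of the pattern. -/
theorem normal_formY (hp : 2 ≤ p) (ha : ∀ j, a j ≤ p) (M : KisinModule f k)
    (hpat : IsPatY p a P) (h11 : ∀ j, P j = true → P (j - 1) = false → M.Y j 1 1 = 0)
    (h10 : ∀ j, P j = true → P (j - 1) = true → M.Y j 1 0 = 0) {j0 : ZMod f} (hj0 : OutY P j0) :
    ∃ (N : KisinModule f k) (T : ZMod f → GL (Fin 2) (LaurentSeries k))
      (Q : ZMod f → GL (Fin 2) k) (g h : ZMod f → GL (Fin 2) (PowerSeries k)),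
      IsHom p (M.frob a) (BY p a P N) (fun j => (T j).1) ∧ IsPt P Q ∧
      (∀ j, (T j).1 * gx (g j) = (TY P Q j).1) ∧
      IsHom p (M.frob a) (N.frob a) fun j => gx (h j) := by
  classical
  have hPf : ∀ j, P j = true ∨ P j = false := fun j => by cases P j <;> simp
  have hnt : ∀ x : Bool, x = false → ¬ x = true := by
    intro x hx
    rw [hx]
    exact fun h => Bool.noConfusion h
  obtain ⟨S, hS⟩ : ∃ S : ZMod f → GL (Fin 2) (LaurentSeries k), S = fun j =>
      if P j = true then (if P (j - 1) = true then scG (p - 1) else 1) else scG p := ⟨_, rfl⟩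
  obtain ⟨T', hT0, hTs⟩ : ∃ T' : ℕ → GL (Fin 2) (LaurentSeries k), T' 0 = 1 ∧
      ∀ t, T' (t + 1) = if OutY P (j0 + ((t + 1 : ℕ) : ZMod f)) then 1 else
        S (j0 + ((t + 1 : ℕ) : ZMod f)) * Matrix.GeneralLinearGroup.map (phi k p) (T' t) *
          (frobG a M (j0 + ((t + 1 : ℕ) : ZMod f)))⁻¹ :=
    ⟨fun t => Nat.rec 1 (fun t r => if OutY P (j0 + ((t + 1 : ℕ) : ZMod f)) then 1 else
        S (j0 + ((t + 1 : ℕ) : ZMod f)) * Matrix.GeneralLinearGroup.map (phi k p) r *
          (frobG a M (j0 + ((t + 1 : ℕ) : ZMod f)))⁻¹) t, rfl, fun t => rfl⟩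
  obtain ⟨T, hT⟩ : ∃ T : ZMod f → GL (Fin 2) (LaurentSeries k), T = fun j => T' (j - j0).val :=
    ⟨_, rfl⟩
  have hval : ∀ j, j ≠ j0 → ∃ t : ℕ, (j - j0).val = t + 1 ∧ (j - 1 - j0).val = t ∧
      j0 + ((t + 1 : ℕ) : ZMod f) = j := by
    intro j hj
    have h1 : (j - j0).val ≠ 0 := fun h => hj (sub_eq_zero.1 ((ZMod.val_eq_zero _).1 h))
    have h2 : (((j - j0).val : ℕ) : ZMod f) = j - j0 := by
      rw [ZMod.natCast_val, ZMod.cast_id', id_eq]
    have h3 : (j - j0).val < f := ZMod.val_lt _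
    have h4 : (((j - j0).val - 1 : ℕ) : ZMod f) = j - 1 - j0 := by
      rw [Nat.cast_sub (by omega), h2]
      push_cast
      ring
    refine ⟨(j - j0).val - 1, by omega, ?_, ?_⟩
    · rw [← h4, ZMod.val_natCast_of_lt (by omega)]
    · rw [Nat.sub_add_cancel (by omega), h2, add_sub_cancel]
  have hTout : ∀ j, OutY P j → T j = 1 := by
    intro j hj
    by_cases h : j = j0
    · rw [hT, h]
      dsimp only
      rw [sub_self, ZMod.val_zero, hT0]
    · obtain ⟨t, h1, h2, h3⟩ := hval j h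
      rw [hT]
      dsimp only
      rw [h1, hTs, h3, if_pos hj]
  have hTin : ∀ j, ¬ OutY P j →
      (T j).1 * M.frob a j = (S j).1 * (T (j - 1)).1.map (phi k p) := by
    intro j hj
    have hne : j ≠ j0 := by
      rintro rfl
      exact hj hj0
    obtain ⟨t, h1, h2, h3⟩ := hval j hne
    have e1 : T j = S j * Matrix.GeneralLinearGroup.map (phi k p) (T (j - 1)) *
        (frobG a M j)⁻¹ := by
      rw [hT]
      dsimp only
      rw [h1, h2, hTs, h3, if_neg hj]
    have e2 : T j * frobG a M j = S j * Matrix.GeneralLinearGroup.map (phi k p) (T (j - 1)) := by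
      rw [e1, inv_mul_cancel_right]
    have e3 : (T j * frobG a M j).1 =
        (S j * Matrix.GeneralLinearGroup.map (phi k p) (T (j - 1))).1 := by rw [e2]
    rw [Units.val_mul, frobG_val] at e3
    exact e3
  have hfrob : ∀ j, M.frob a j = gx (M.X j) * du (a j) * gz (M.Z j) := fun _ => rfl
  have hpz : ((p - 1 : ℕ) : ℤ) = (p : ℤ) - 1 := by
    push_cast [Nat.cast_sub (show 1 ≤ p by omega)]
    ring
  -- the steps
  have hstart : ∀ j, P j = true → P (j - 1) = false →
      (∃ U : GL (Fin 2) (PowerSeries k), (T (j - 1)).1 = gx U) → ∃ q, RY M T j q := by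
    rintro j h1 h2 ⟨U, hU⟩
    have h3 := hTin j fun h => hnt _ h.1 h1
    have e1 : (S j).1 = 1 := by
      rw [hS]
      dsimp only
      rw [if_pos h1, if_neg (hnt _ h2)]
      rfl
    have e2 : ((a j : ℕ) : ℤ) = 1 := by rw [hpat.start j h1 h2]; rfl
    rw [e1, Matrix.one_mul, hU, hfrob, e2] at h3
    obtain ⟨Q, n, h4, h5⟩ := start_stepY hp _ U _ _ h3
    refine ⟨Q, n, h4, ?_⟩
    rw [h5]
    exact inv00 (Y := YG M j) (h11 j h1 h2)
  have hmid : ∀ j q, P j = true → P (j - 1) = true → RY M T (j - 1) q → RY M T j q := by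
    intro j q h1 h2 h
    obtain ⟨U, hU, h00⟩ := h.prev
    have h3 := hTin j fun h => hnt _ h.1 h1
    have e1 : (S j).1 = !![un (p - 1), 0; 0, un (p - 1)] := by
      rw [hS]
      dsimp only
      rw [if_pos h1, if_pos h2]
      rfl
    have e2 : ((a j : ℕ) : ℤ) = p - 1 := by rw [hpat.mid j h1 h2, hpz]
    rw [e1, hU, hfrob, e2] at h3
    obtain ⟨n, h4, h5⟩ := mid_stepY hp _ U _ _ _ h3 h00
    exact ⟨n, h4, mul_inv00 (Y := YG M j) h5 (h10 j h1 h2)⟩
  have hstop : ∀ j q, P j = false → P (j - 1) = true → RY M T (j - 1) q →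
      ∃ U : GL (Fin 2) (PowerSeries k), (T j).1 = gx U := by
    intro j q h1 h2 h
    obtain ⟨U, hU, h00⟩ := h.prev
    have h3 := hTin j fun h => hnt _ h.2 h2
    have e1 : (S j).1 = !![un p, 0; 0, un p] := by
      rw [hS]
      dsimp only
      rw [if_neg (hnt _ h1)]
      rfl
    have e2 : ((a j : ℕ) : ℤ) = p := by rw [hpat.stop j h1 h2]
    rw [e1, hU, hfrob, e2] at h3
    exact stop_stepY hp _ U _ _ _ h3 h00
  have hall : ∀ t : ℕ, t < f →
      (P (j0 + (t : ℕ)) = true → ∃ q, RY M T (j0 + (t : ℕ)) q) ∧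
      (P (j0 + (t : ℕ)) = false →
        ∃ U : GL (Fin 2) (PowerSeries k), (T (j0 + (t : ℕ))).1 = gx U) := by
    intro t
    induction t with
    | zero =>
      intro _
      rw [Nat.cast_zero, add_zero]
      refine ⟨fun h => absurd h (hnt _ hj0.1), fun _ => ⟨1, ?_⟩⟩
      rw [hTout j0 hj0, gx_one, Units.val_one]
    | succ t ih =>
      intro ht
      obtain ⟨ih1, ih2⟩ := ih (by omega)
      have e : j0 + ((t + 1 : ℕ) : ZMod f) - 1 = j0 + (t : ZMod f) := by
        push_cast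
        ring
      rw [← e] at ih1 ih2
      constructor
      · intro h
        rcases hPf (j0 + ((t + 1 : ℕ) : ZMod f) - 1) with h1 | h1
        · obtain ⟨q, hq⟩ := ih1 h1
          exact ⟨q, hmid _ q h h1 hq⟩
        · exact hstart _ h h1 (ih2 h1)
      · intro h
        rcases hPf (j0 + ((t + 1 : ℕ) : ZMod f) - 1) with h1 | h1
        · obtain ⟨q, hq⟩ := ih1 h1
          exact hstop _ q h h1 hq
        · refine ⟨1, ?_⟩
          rw [hTout _ ⟨h, h1⟩, gx_one, Units.val_one]
  have hall' : ∀ j, (P j = true → ∃ q, RY M T j q) ∧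
      (P j = false → ∃ U : GL (Fin 2) (PowerSeries k), (T j).1 = gx U) := by
    intro j
    have h1 := hall (j - j0).val (ZMod.val_lt _)
    have h2 : j0 + (((j - j0).val : ℕ) : ZMod f) = j := by
      rw [ZMod.natCast_val, ZMod.cast_id', id_eq, add_sub_cancel]
    rw [h2] at h1
    exact h1
  obtain ⟨Q, hQ, hQR⟩ := glue P hj0.1 (RY M T) (fun j h _ => (hall' j).1 h) hmid
  have hh : ∀ j, ∃ h : GL (Fin 2) (PowerSeries k), P j = false → (T j).1 = gx h := by
    intro j
    rcases hPf j with h | h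
    · exact ⟨1, fun h' => absurd h (hnt _ h')⟩
    · obtain ⟨U, hU⟩ := (hall' j).2 h
      exact ⟨U, fun _ => hU⟩
  choose h hh using hh
  have hg : ∀ j, ∃ g : GL (Fin 2) (PowerSeries k), (T j).1 * gx g = (TY P Q j).1 := by
    intro j
    unfold TY
    rcases hPf j with h1 | h1
    · rw [if_pos h1]
      exact (hQR j h1).point
    · rw [if_neg (hnt _ h1)]
      refine ⟨(h j)⁻¹, ?_⟩
      rw [hh j h1, ← gx_mul, mul_inv_cancel, gx_one, Units.val_one]
  choose g hg using hg
  obtain ⟨N, hN⟩ := exists_transport (p := p) ha M h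
  refine ⟨N, T, Q, g, h, fun j => ?_, hQ, hg, hN⟩
  dsimp only
  unfold BY
  rcases hPf j with h1 | h1
  · have h3 := hTin j fun h => hnt _ h.1 h1
    rw [if_pos h1]
    rcases hPf (j - 1) with h2 | h2
    · rw [if_pos h2, h3, hS]
      dsimp only
      rw [if_pos h1, if_pos h2]
      rfl
    · rw [if_neg (hnt _ h2), h3, hS]
      dsimp only
      rw [if_pos h1, if_neg (hnt _ h2)]
      rfl
  · rw [if_neg (hnt _ h1)]
    rcases hPf (j - 1) with h2 | h2
    · have h3 := hTin j fun h => hnt _ h.2 h2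
      rw [if_pos h2, h3, hS]
      dsimp only
      rw [if_neg (hnt _ h1)]
      rfl
    · rw [if_neg (hnt _ h2), hh j h1, hh (j - 1) h2]
      exact hN j

end

end Pool.Agent.Lib.MP_74d0c9_nt
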