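import Pool.Agent.Lib.MP_74d0c9_nt.Image
import Pool.Agent.Lib.MP_74d0c9_nt.XFun

/-! The image does not depend on the basis of the étale `φ`-module. -/

set_option autoImplicit false

namespace Pool.Agent.Lib.MP_74d0c9_nt

open HahnSeries IsLocalRing

universe u

section
variable {k : Type u} [Field k] {A : Type u} [CommRing A] [Algebra k A] {p f : ℕ} [Fact p.Prime]

/-- an invertible matrix over `k((u))`, seen over `A((u))` -/
noncomputable def TA (A : Type u) [CommRing A] [Algebra k A] (T : GL (Fin 2) (LaurentSeries k)) :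
    GL (Fin 2) (LaurentSeries A) :=
  Matrix.GeneralLinearGroup.map (lmap (algebraMap k A)) T

theorem TA_val (T : GL (Fin 2) (LaurentSeries k)) : (TA A T).1 = toA A T.1 := rfl

theorem TA_inv (T : GL (Fin 2) (LaurentSeries k)) : TA A T⁻¹ = (TA A T)⁻¹ := map_inv _ T

theorem TA_map {A' : Type u} [CommRing A'] [Algebra k A'] (g : A →ₐ[k] A')
    (T : GL (Fin 2) (LaurentSeries k)) : (TA A T).1.map (lmap g.toRingHom) = (TA A' T).1 := by
  refine Matrix.ext fun r s => ?_
  ext v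
  exact g.commutes _

/-- the change of basis -/
noncomputable def conjF (p : ℕ) [Fact p.Prime] {f : ℕ} (A : Type u) [CommRing A] [Algebra k A]
    (T : ZMod f → GL (Fin 2) (LaurentSeries k)) (F : ZMod f → Mat A) (j : ZMod f) : Mat A :=
  (TA A (T j)⁻¹).1 * F j * (TA A (T (j - 1))).1.map (phi A p)

theorem TA_inv_mul (T : GL (Fin 2) (LaurentSeries k)) : (TA A T⁻¹).1 * (TA A T).1 = 1 := by
  rw [TA_inv, ← Units.val_mul, inv_mul_cancel, Units.val_one]

theorem TA_mul_inv (T : GL (Fin 2) (LaurentSeries k)) : (TA A T).1 * (TA A T⁻¹).1 = 1 := by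
  rw [TA_inv, ← Units.val_mul, mul_inv_cancel, Units.val_one]

theorem conjF_conjF (T : ZMod f → GL (Fin 2) (LaurentSeries k)) (F : ZMod f → Mat A) :
    conjF p A (fun j => (T j)⁻¹) (conjF p A T F) = F := by
  funext j
  unfold conjF
  rw [inv_inv]
  have h1 : (TA A (T (j - 1))).1.map (phi A p) * (TA A (T (j - 1))⁻¹).1.map (phi A p) = 1 := by
    rw [← map_mul_phi, TA_mul_inv, map_one_phi]
  calc (TA A (T j)).1 * ((TA A (T j)⁻¹).1 * F j * (TA A (T (j - 1))).1.map (phi A p)) *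
        (TA A (T (j - 1))⁻¹).1.map (phi A p) =
      ((TA A (T j)).1 * (TA A (T j)⁻¹).1) * F j * ((TA A (T (j - 1))).1.map (phi A p) *
        (TA A (T (j - 1))⁻¹).1.map (phi A p)) := by simp only [Matrix.mul_assoc]
    _ = F j := by rw [TA_mul_inv, h1, Matrix.one_mul, Matrix.mul_one]

theorem conjF_conjF' (T : ZMod f → GL (Fin 2) (LaurentSeries k)) (F : ZMod f → Mat A) :
    conjF p A T (conjF p A (fun j => (T j)⁻¹) F) = F := by
  have h := conjF_conjF (p := p) (A := A) (fun j => (T j)⁻¹) F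
  simp only [inv_inv] at h
  exact h

theorem conjF_map {A' : Type u} [CommRing A'] [Algebra k A'] (g : A →ₐ[k] A')
    (T : ZMod f → GL (Fin 2) (LaurentSeries k)) (F : ZMod f → Mat A) (j : ZMod f) :
    (conjF p A T F j).map (lmap g.toRingHom) =
      conjF p A' T (fun j => (F j).map (lmap g.toRingHom)) j := by
  unfold conjF
  have e1 : ((TA A (T (j - 1))).1.map (phi A p)).map (lmap g.toRingHom) =
      ((TA A (T (j - 1))).1.map (lmap g.toRingHom)).map (phi A' p) :=
    Matrix.ext fun r s => lmap_phi p g.toRingHom _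
  rw [Matrix.map_mul, Matrix.map_mul, e1, TA_map, TA_map]

theorem conjF_toA {B B' : ZMod f → Mat k} (T : ZMod f → GL (Fin 2) (LaurentSeries k))
    (hT : IsHom p B B' fun j => (T j).1) (j : ZMod f) :
    conjF p A T (fun j => toA A (B' j)) j = toA A (B j) := by
  have h1 : (T j)⁻¹.1 * B' j * (T (j - 1)).1.map (phi k p) = B j := by
    rw [Matrix.mul_assoc, ← hT j, ← Matrix.mul_assoc, ← Units.val_mul, inv_mul_cancel,
      Units.val_one, Matrix.one_mul]
  have e1 : (TA A (T (j - 1))).1.map (phi A p) = toA A ((T (j - 1)).1.map (phi k p)) :=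
    Matrix.ext fun r s => (lmap_phi p (algebraMap k A) _).symm
  unfold conjF
  rw [e1, TA_val, ← h1]
  unfold toA
  rw [Matrix.map_mul, Matrix.map_mul]

theorem isDef_conjF {B B' : ZMod f → Mat k} (T : ZMod f → GL (Fin 2) (LaurentSeries k))
    (hT : IsHom p B B' fun j => (T j).1) {I : Ideal A} {F : ZMod f → Mat A}
    (hF : IsDef B' I F) : IsDef B I (conjF p A T F) := by
  intro j
  have e : conjF p A T F j - toA A (B j) =
      (TA A (T j)⁻¹).1 * (F j - toA A (B' j)) * (TA A (T (j - 1))).1.map (phi A p) := by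
    rw [← conjF_toA T hT j, Matrix.mul_sub, Matrix.sub_mul]
    rfl
  have h1 : MSmall I (F j - toA A (B' j)) := hF j
  have h2 : MSmall I (conjF p A T F j - toA A (B j)) := by
    rw [e]
    exact (h1.mul_left _).mul_right _
  exact h2

theorem eqv_conjF (T : ZMod f → GL (Fin 2) (LaurentSeries k)) {I : Ideal A}
    {F F' : ZMod f → Mat A} (h : Eqv p I F F') : Eqv p I (conjF p A T F) (conjF p A T F') := by
  obtain ⟨G, hG, hG1⟩ := h
  refine ⟨fun j => TA A (T j)⁻¹ * G j * TA A (T j), fun j => ?_, fun j => ?_⟩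
  · have e : ((TA A (T j)⁻¹ * G j * TA A (T j)).1 - 1 : Mat A) =
        (TA A (T j)⁻¹).1 * ((G j).1 - 1) * (TA A (T j)).1 := by
      rw [Units.val_mul, Units.val_mul, Matrix.mul_sub, Matrix.sub_mul, Matrix.mul_one,
        TA_inv_mul]
    have h1 : MSmall I ((G j).1 - 1) := hG j
    have h2 : MSmall I ((TA A (T j)⁻¹ * G j * TA A (T j)).1 - 1) := by
      rw [e]
      exact (h1.mul_left _).mul_right _
    exact h2
  · have h1 : (G j).1 * F j = F' j * (G (j - 1)).1.map (phi A p) := hG1 j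
    have h2 : (TA A (T (j - 1))).1.map (phi A p) * (TA A (T (j - 1))⁻¹).1.map (phi A p) = 1 := by
      rw [← map_mul_phi, TA_mul_inv, map_one_phi]
    show (TA A (T j)⁻¹).1 * (G j).1 * (TA A (T j)).1 * ((TA A (T j)⁻¹).1 * F j *
      (TA A (T (j - 1))).1.map (phi A p)) = (TA A (T j)⁻¹).1 * F' j *
      (TA A (T (j - 1))).1.map (phi A p) * ((TA A (T (j - 1))⁻¹).1 * (G (j - 1)).1 *
        (TA A (T (j - 1))).1).map (phi A p)
    rw [map_mul_phi, map_mul_phi]
    calc (TA A (T j)⁻¹).1 * (G j).1 * (TA A (T j)).1 * ((TA A (T j)⁻¹).1 * F j *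
          (TA A (T (j - 1))).1.map (phi A p)) =
        (TA A (T j)⁻¹).1 * (G j).1 * ((TA A (T j)).1 * (TA A (T j)⁻¹).1) * F j *
          (TA A (T (j - 1))).1.map (phi A p) := by simp only [Matrix.mul_assoc]
      _ = (TA A (T j)⁻¹).1 * ((G j).1 * F j) * (TA A (T (j - 1))).1.map (phi A p) := by
        rw [TA_mul_inv, Matrix.mul_one]
        simp only [Matrix.mul_assoc]
      _ = (TA A (T j)⁻¹).1 * F' j * ((TA A (T (j - 1))).1.map (phi A p) *
            (TA A (T (j - 1))⁻¹).1.map (phi A p)) * (G (j - 1)).1.map (phi A p) *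
            (TA A (T (j - 1))).1.map (phi A p) := by
        rw [h2, Matrix.mul_one, h1]
        simp only [Matrix.mul_assoc]
      _ = _ := by simp only [Matrix.mul_assoc]

theorem fromKisin_conjF {a : ZMod f → ℕ} (T : ZMod f → GL (Fin 2) (LaurentSeries k))
    {F : ZMod f → Mat A} (h : FromKisin p a F) : FromKisin p a (conjF p A T F) := by
  obtain ⟨M, S, hS⟩ := h
  refine ⟨M, fun j => TA A (T j)⁻¹ * S j, fun j => ?_⟩
  have h1 : (S j).1 * M.frob a j = F j * (S (j - 1)).1.map (phi A p) := hS j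
  have h2 : (TA A (T (j - 1))).1.map (phi A p) * (TA A (T (j - 1))⁻¹).1.map (phi A p) = 1 := by
    rw [← map_mul_phi, TA_mul_inv, map_one_phi]
  show (TA A (T j)⁻¹).1 * (S j).1 * M.frob a j = (TA A (T j)⁻¹).1 * F j *
    (TA A (T (j - 1))).1.map (phi A p) * ((TA A (T (j - 1))⁻¹).1 *
      (S (j - 1)).1).map (phi A p)
  rw [map_mul_phi]
  calc (TA A (T j)⁻¹).1 * (S j).1 * M.frob a j =
      (TA A (T j)⁻¹).1 * F j * 1 * (S (j - 1)).1.map (phi A p) := by
        rw [Matrix.mul_assoc, h1, Matrix.mul_one, Matrix.mul_assoc]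
    _ = _ := by
      rw [← h2]
      simp only [Matrix.mul_assoc]

end

section
variable {k : Type u} [Field k] {p f : ℕ} [Fact p.Prime] {a : ZMod f → ℕ}
  {B B' : ZMod f → Mat k} {R : Type u} [CommRing R] [Algebra k R] [IsLocalRing R]

/-- the change of basis of a formal family -/
noncomputable def Family.tr (T : ZMod f → GL (Fin 2) (LaurentSeries k))
    (hT : IsHom p B B' fun j => (T j).1) (𝓕 : Family B' R) : Family B R where
  F n := conjF p _ T (𝓕.F n)
  isDef n := isDef_conjF T hT (𝓕.isDef n)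
  compat n j := by
    have h1 := conjF_map (p := p)
      ({ Ideal.Quotient.factorPow (maximalIdeal R) n.le_succ with commutes' := fun _ => rfl } :
        (R ⧸ maximalIdeal R ^ (n + 1)) →ₐ[k] (R ⧸ maximalIdeal R ^ n)) T (𝓕.F (n + 1)) j
    refine h1.trans ?_
    congr 1
    funext j
    exact 𝓕.compat n j

theorem Family.tr_push (T : ZMod f → GL (Fin 2) (LaurentSeries k))
    (hT : IsHom p B B' fun j => (T j).1) (𝓕 : Family B' R) {A : Type u} [CommRing A]
    [Algebra k A] {n : ℕ} (g : (R ⧸ maximalIdeal R ^ n) →ₐ[k] A) :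
    (𝓕.tr T hT).push g = conjF p A T (𝓕.push g) :=
  funext fun j => conjF_map g T (𝓕.F n) j

theorem Family.tr_mono (T : ZMod f → GL (Fin 2) (LaurentSeries k))
    (hT : IsHom p B B' fun j => (T j).1) (𝓕 : Family B' R) (h : 𝓕.IsMono p) :
    (𝓕.tr T hT).IsMono p := by
  intro A _ _ _ hA n g g' hE
  refine h A hA n g g' ?_
  have h1 := eqv_conjF (fun j => (T j)⁻¹) hE
  rwa [Family.tr_push, Family.tr_push, conjF_conjF, conjF_conjF] at h1

theorem Family.tr_kisin (T : ZMod f → GL (Fin 2) (LaurentSeries k))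
    (hT : IsHom p B B' fun j => (T j).1) (𝓕 : Family B' R) (h : 𝓕.HasKisin p a) :
    (𝓕.tr T hT).HasKisin p a := by
  intro A _ _ _ hA F hF hK
  obtain ⟨n, g, hE⟩ := h A hA (conjF p A (fun j => (T j)⁻¹) F)
    (isDef_conjF (fun j => (T j)⁻¹) hT.inv hF) (fromKisin_conjF _ hK)
  refine ⟨n, g, ?_⟩
  have h1 := eqv_conjF T hE
  rwa [conjF_conjF', ← Family.tr_push T hT] at h1

/-- the image does not depend on the basis -/
theorem Family.tr_isImage (T : ZMod f → GL (Fin 2) (LaurentSeries k))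
    (hT : IsHom p B B' fun j => (T j).1) (𝓕 : Family B' R) (h : 𝓕.IsImage p a) :
    (𝓕.tr T hT).IsImage p a := by
  refine ⟨𝓕.tr_mono T hT h.mono, 𝓕.tr_kisin T hT h.kisin, ?_⟩
  intro R' _ _ _ hres 𝓖 hmono hkis n hn
  obtain ⟨N, g, hg, hE⟩ := h.least R' hres (𝓖.tr (fun j => (T j)⁻¹) hT.inv)
    (𝓖.tr_mono _ hT.inv hmono) (𝓖.tr_kisin _ hT.inv hkis) n hn
  refine ⟨N, g, hg, ?_⟩
  have h1 := eqv_conjF T hE
  rw [Family.tr_push, conjF_conjF'] at h1
  exact h1

theorem exists_transfer (T : ZMod f → GL (Fin 2) (LaurentSeries k))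
    (hT : IsHom p B B' fun j => (T j).1) (𝓕 : Family B' R) (h : 𝓕.IsImage p a) :
    ∃ 𝓕' : Family B R, 𝓕'.IsImage p a :=
  ⟨𝓕.tr T hT, 𝓕.tr_isImage T hT h⟩

end

end Pool.Agent.Lib.MP_74d0c9_nt
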