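import Pool.Agent.Lib.MP_74d0c9_nt.YImg
import Pool.Agent.Lib.MP_74d0c9_nt.YPat
import Pool.Agent.Lib.MP_74d0c9_nt.YTan
import Pool.Agent.Lib.MP_74d0c9_nt.YDirs
import Pool.Agent.Lib.MP_74d0c9_nt.YLine
import Pool.Agent.Lib.MP_74d0c9_nt.YAct
import Pool.Agent.Lib.MP_74d0c9_nt.YTransfer
import Pool.Agent.Lib.MP_74d0c9_nt.YNorm
import Pool.Agent.Lib.MP_74d0c9_nt.YRes
import Pool.Agent.Lib.MP_74d0c9_nt.YIso
import Pool.Agent.Lib.MP_74d0c9_nt.YModelA
import Pool.Agent.Lib.MP_74d0c9_nt.YAbs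

/-! The image of the Kisin modules at an irreducible point. -/

set_option autoImplicit false

namespace Pool.Agent.Lib.MP_74d0c9_nt

open HahnSeries IsLocalRing Filter Topology

universe u

section
variable {p f : ℕ} [Fact p.Prime] [NeZero f] {a : ZMod f → ℕ} {k : Type u} [Field k]

omit [Fact p.Prime] [NeZero f] in
/-- there is no other active word -/
theorem noWordY_PYW {r : ℕ} {i : Fin r → ZMod f} {m : Fin r → ℕ} (hW : IsWords p f a i m)
    (M : KisinModule f k)
    (hact : ∀ (i' : ZMod f) (m' : ℕ), Active p f a M i' m' ↔ ∃ j, i' = i j ∧ m' = m j) :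
    NoWordY p a (PYW i m) M := by
  intro i' m' hw hout h1 h2
  obtain ⟨j, hj, hm⟩ := (hact i' m').1 ⟨hw, h1, h2⟩
  have h3 := hout 0 (by have := hw.1; omega)
  rw [Nat.cast_zero, add_zero] at h3
  refine (outY_iff hW i').1 h3 ⟨j, 0, by have := (hW.word j).1; omega, ?_⟩
  rw [hj, Nat.cast_zero, add_zero]

/-- irreducibility along an isomorphism, after base change -/
theorem absIrred_of_hom {F F' : ZMod f → Mat k} (T : ZMod f → GL (Fin 2) (LaurentSeries k))
    (hT : IsHom p F F' fun j => (T j).1)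
    (h : ∀ (K : Type u) [Field K] (ι : k →+* K), Irred p fun j => (F' j).map (lmap ι))
    (K : Type u) [Field K] (ι : k →+* K) : Irred p fun j => (F j).map (lmap ι) := by
  have h1 := hT.lmap ι
  exact irred_of_hom (fun j => Matrix.GeneralLinearGroup.map (lmap ι) (T j)) h1 (h K ι)

omit [NeZero f] in
theorem irred_of_abs {F : ZMod f → Mat k}
    (h : ∀ (K : Type u) [Field K] (ι : k →+* K), Irred p fun j => (F j).map (lmap ι)) :
    Irred p F := by
  have h1 := h k (RingHom.id k)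
  have h2 : (fun j => (F j).map (lmap (RingHom.id k))) = F := by
    funext j
    refine Matrix.ext fun r s => ?_
    ext v
    rfl
  rwa [h2] at h1

/-- the image at an irreducible point -/
theorem exists_imageY (hp : 5 ≤ p) (ha : ∀ j, 1 ≤ a j ∧ a j ≤ p) (M : KisinModule f k)
    (hM : ∀ (K : Type u) [Field K] (ι : k →+* K), Irred p fun j => (M.frob a j).map (lmap ι))
    {r : ℕ} (i : Fin r → ZMod f) (m : Fin r → ℕ) (hW : IsWords p f a i m)
    (hact : ∀ (i' : ZMod f) (m' : ℕ), Active p f a M i' m' ↔ ∃ j, i' = i j ∧ m' = m j) :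
    ∃ (R₀ : Type u) (_ : CommRing R₀) (_ : Algebra k R₀) (_ : IsLocalRing R₀)
      (𝓕₀ : Family (M.frob a) R₀), IsNoetherianRing R₀ ∧ IsDomain R₀ ∧
      Function.Surjective (algebraMap k (ResidueField R₀)) ∧ 𝓕₀.IsImage p a ∧
      (∀ n : ℕ, Module.finrank k (R₀ ⧸ maximalIdeal R₀ ^ n) =
        ∑ T : Finset (Fin r), (∏ j ∈ T, 2 * (m j - 1)) *
          (n + f - r).choose (f + 1 - r + T.card)) ∧
      Tendsto (fun n : ℕ => ((f + 1).factorial : ℝ) *
        Module.finrank k (R₀ ⧸ maximalIdeal R₀ ^ n) / (n : ℝ) ^ (f + 1)) atTop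
        (𝓝 ((∏ j, 2 * (m j - 1) : ℕ) : ℝ)) := by
  classical
  obtain ⟨t0, ht0⟩ := exists_outY hW
  have hpat : IsPatY p a (PYW i m) := isPatY_PYW hW
  obtain ⟨M0, T, Q0, g0, h0, hT, hQ0, hg0, hh⟩ := normal_formY (by omega) (fun j => (ha j).2) M
    hpat
    (by
      intro j hj hj'
      obtain ⟨j', s, hs, ht⟩ := PYW_iff.1 hj
      have hs0 : s = 0 := by
        by_contra hc
        exact PYW_false.1 hj' ⟨j', s - 1, by omega, posY_pred j' s (by omega) j ht⟩
      rw [ht, hs0, Nat.cast_zero, add_zero]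
      exact ((hact _ _).2 ⟨j', rfl, rfl⟩).2.1)
    (by
      intro j hj hj'
      obtain ⟨j', s, hs, ht⟩ := PYW_iff.1 hj
      obtain ⟨j1, s1, hs1, ht1⟩ := PYW_iff.1 hj'
      have h1 := posY_succ j1 s1 j ht1
      rw [ht] at h1
      obtain ⟨h2, h3⟩ := hW.injY (by omega) (by omega) h1
      rw [ht]
      exact ((hact _ _).2 ⟨j', rfl, rfl⟩).2.2 s (by omega) (by omega)) ht0
  have hact0 : ∀ (i' : ZMod f) (m' : ℕ), Active p f a M0 i' m' ↔ ∃ j, i' = i j ∧ m' = m j :=
    fun i' m' => (active_of_iso hp ha M M0 h0 hh i' m').symm.trans (hact i' m')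
  obtain ⟨ω, hω, hω1, hω2⟩ := exists_omegaY.{u} hW
  have hS := card_PYW hW ω hω
  have hfib := card_fibreY hW ω hω
  have hO := card_outY hW
  have hno := noWordY_PYW hW M0 hact0
  have hB := absIrred_of_hom (fun j => (T j)⁻¹) hT.inv hM
  have hM0 : Irred p (M0.frob a) := by
    have h1 : IsHom p (M.frob a) (M0.frob a) fun j => (Matrix.GeneralLinearGroup.map
      (ps : PowerSeries k →+* LaurentSeries k) (h0 j)).1 := hh
    exact irred_of_hom _ h1.inv (irred_of_abs hM)
  obtain ⟨jy, hjy⟩ := exists_Y_zero (fun j => (ha j).1) M0 hM0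
  have H0 := H0Y (p := p) (a := a) (PYW i m) M0 hB
  have hSchur : SchurY p a (PYW i m) M0 := fun C hC => H0 C (by
    funext j
    show C j * BY p a (PYW i m) M0 j - BY p a (PYW i m) M0 j * (C (j - 1)).map (phi k p) = 0
    rw [hC j, sub_self])
  obtain ⟨τ, zv, hτ, hspan, hind⟩ := exists_dirs (by omega) ha ⟨t0, ht0⟩ ⟨jy, Or.inr hjy⟩ hSchur
    (V := Unit ⊕ Fin (Nat.card {t // OutY (PYW i m) t})) (by
      rw [Fintype.card_sum, Fintype.card_fin, Fintype.card_unit, add_comm])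
  have tan : ∀ Q : ZMod f → GL (Fin 2) k, IsPt (PYW i m) Q → TanY p a (PYW i m) M0 τ zv Q :=
    fun Q hQ y hy z => tangentY τ zv hτ hspan Q hQ y hy z
  have hD := hDY hp ha (PYW i m) M0 hB hno τ zv hτ hind
  have hI := isImageY ha hpat ⟨t0, ht0.1⟩ M0 τ hτ zv tan
    (fun M' T' hT' => by
      obtain ⟨g, Q, hQ, hg⟩ := residual_pointY hp ha hpat M0 hno ht0.1 hB M' T' hT'
      exact ⟨Q, g, hQ, hg⟩) H0 hD ω hω1 i hω2
  obtain ⟨𝓕, h𝓕⟩ := exists_transfer T hT _ hI
  have hS' : Fintype.card {t : ZMod f // PYW i m t = true} + r = ∑ j, m j := by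
    rw [← hS]
  have hsum := hW.sum_lt
  have hdim : ∀ T : Finset (Fin r),
      1 + Fintype.card {t : ZMod f // PYW i m t = true} +
        Fintype.card (Fin (Nat.card {t // OutY (PYW i m) t})) + T.card = f + 1 - r + T.card := by
    intro T
    rw [Fintype.card_fin]
    omega
  refine ⟨RW k (Fin (Nat.card {t // OutY (PYW i m) t})) ω, inferInstance, inferInstance,
    inferInstance, 𝓕, inferInstance, inferInstance, res_R0, h𝓕, ?_, ?_⟩
  · intro n
    rw [finrank_RW]
    refine Finset.sum_congr rfl fun T _ => ?_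
    rw [hdim, Finset.prod_congr rfl fun j _ => by rw [hfib j]]
    congr 2
    rw [Fintype.card_fin]
    omega
  · have h1 := tendsto_RW (k := k) (O := Fin (Nat.card {t // OutY (PYW i m) t})) ω
    have e1 : 1 + Fintype.card {t : ZMod f // PYW i m t = true} +
        Fintype.card (Fin (Nat.card {t // OutY (PYW i m) t})) + Fintype.card (Fin r) =
        f + 1 := by
      rw [Fintype.card_fin, Fintype.card_fin]
      omega
    rw [e1, Finset.prod_congr rfl fun j _ => by rw [hfib j]] at h1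
    exact h1

end

end Pool.Agent.Lib.MP_74d0c9_nt
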