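import Pool.Agent.Lib.MP_74d0c9_nt.YAct
import Pool.Agent.Lib.MP_74d0c9_nt.MShape
import Pool.Agent.Lib.MP_74d0c9_nt.XK0

/-! Existence of irreducible Kisin modules with given active words. -/

set_option autoImplicit false

namespace Pool.Agent.Lib.MP_74d0c9_nt

open HahnSeries

universe u

section
variable {k : Type u} [Field k] {p f : ℕ} [Fact p.Prime] [NeZero f] {a : ZMod f → ℕ}

/-- irreducibility is invariant under isomorphisms -/
theorem irred_of_hom {F F' : ZMod f → Mat k} (T : ZMod f → GL (Fin 2) (LaurentSeries k))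
    (hT : IsHom p F F' fun j => (T j).1) (h : Irred p F') : Irred p F := by
  rintro ⟨v, ν, hv, h1⟩
  refine h ⟨fun j => (T j).1.mulVec (v j), ν, fun j hj => ?_, fun j => ?_⟩
  · have hj' : (T j).1.mulVec (v j) = 0 := hj
    apply hv j
    have h2 : ((T j)⁻¹).1.mulVec ((T j).1.mulVec (v j)) = v j := by
      rw [Matrix.mulVec_mulVec, ← Units.val_mul, inv_mul_cancel, Units.val_one, Matrix.one_mulVec]
    rw [← h2, hj', Matrix.mulVec_zero]
  · have h2 : (fun r => phi k p ((T (j - 1)).1.mulVec (v (j - 1)) r)) =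
        ((T (j - 1)).1.map (phi k p)).mulVec (fun r => phi k p (v (j - 1) r)) := by
      funext r
      rw [Matrix.mulVec, Matrix.mulVec, dotProduct, dotProduct, map_sum]
      refine Finset.sum_congr rfl fun s _ => ?_
      rw [map_mul]
      rfl
    have h3 : (T j).1 * F j = F' j * (T (j - 1)).1.map (phi k p) := hT j
    show (F' j).mulVec (fun r => phi k p ((T (j - 1)).1.mulVec (v (j - 1)) r)) =
      ν j • (T j).1.mulVec (v j)
    rw [h2, Matrix.mulVec_mulVec, ← h3, ← Matrix.mulVec_mulVec, h1 j, Matrix.mulVec_smul]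

/-- the standard Frobenius matrices without words -/
noncomputable def FE (a : ZMod f → ℕ) (i : ZMod f) (j : ZMod f) : Mat k :=
  if (j - i).val < f - 1 then !![un (a j), 0; 0, 1] else !![0, 1; un (a j), 0]

theorem irred_FE (hp : 5 ≤ p) (ha : ∀ i, 1 ≤ a i ∧ a i + 1 ≤ p)
    (i : ZMod f) : Irred p (FE a i : ZMod f → Mat k) := by
  have hf0 : 0 < f := Nat.pos_of_ne_zero (NeZero.ne f)
  rintro ⟨v, ν, hv, h⟩
  have hp5 : (5 : ℤ) ≤ p := by exact_mod_cast hp
  obtain ⟨J, hJ⟩ : ∃ J : ℕ → ZMod f, J = fun t : ℕ => i + (t : ZMod f) - 1 := ⟨_, rfl⟩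
  have hJs : ∀ t, J (t + 1) - 1 = J t := by
    intro t
    rw [hJ]
    push_cast
    ring
  have hJv : ∀ t, t < f → (J (t + 1) - i).val = t := by
    intro t ht
    have : J (t + 1) - i = t := by rw [hJ]; push_cast; ring
    rw [this, ZMod.val_natCast_of_lt ht]
  have hJf : J f = J 0 := by
    rw [hJ]
    simp
  -- the components
  have hstep : ∀ t, t < f - 1 → ∃ c d : ℤ,
      un c * phi k p (v (J t) 0) = ν (J (t + 1)) * v (J (t + 1)) 0 ∧
      un d * phi k p (v (J t) 1) = ν (J (t + 1)) * v (J (t + 1)) 1 ∧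
      d = c - a (J (t + 1)) := by
    intro t ht
    have h1 : (FE a i (J (t + 1))).mulVec
        (fun r => phi k p (v (J (t + 1) - 1) r)) = ν (J (t + 1)) • v (J (t + 1)) := h (J (t + 1))
    have hB : FE a i (J (t + 1)) = (!![un (a (J (t + 1))), 0; 0, un 0] : Mat k) := by
      unfold FE
      rw [hJv t (by omega), if_pos ht, un_zero]
    rw [hJs, hB] at h1
    refine ⟨a (J (t + 1)), 0, ?_, ?_, by ring⟩
    · have := congrFun h1 0
      rw [Matrix.mulVec, dotProduct, Fin.sum_univ_two] at this
      have e : un (a (J (t + 1)) : ℤ) * phi k p (v (J t) 0) + 0 * phi k p (v (J t) 1) =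
        ν (J (t + 1)) * v (J (t + 1)) 0 := this
      rw [← e]
      ring
    · have := congrFun h1 1
      rw [Matrix.mulVec, dotProduct, Fin.sum_univ_two] at this
      have e : 0 * phi k p (v (J t) 0) + un 0 * phi k p (v (J t) 1) =
        ν (J (t + 1)) * v (J (t + 1)) 1 := this
      rw [← e]
      ring
  have hlast : un 0 * phi k p (v (J (f - 1)) 1) = ν (J 0) * v (J 0) 0 ∧
      un (a (J 0)) * phi k p (v (J (f - 1)) 0) = ν (J 0) * v (J 0) 1 := by
    have hf1 : f - 1 + 1 = f := by omega
    have h1 : (FE a i (J (f - 1 + 1))).mulVec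
        (fun r => phi k p (v (J (f - 1 + 1) - 1) r)) =
        ν (J (f - 1 + 1)) • v (J (f - 1 + 1)) := h (J (f - 1 + 1))
    have hB : FE a i (J (f - 1 + 1)) = (!![0, 1; un (a (J 0)), 0] : Mat k) := by
      unfold FE
      rw [hJv (f - 1) (by omega), if_neg (lt_irrefl _), hf1, hJf]
    rw [hB, hJs, hf1, hJf] at h1
    constructor
    · have := congrFun h1 0
      rw [Matrix.mulVec, dotProduct, Fin.sum_univ_two] at this
      have e : 0 * phi k p (v (J (f - 1)) 0) + 1 * phi k p (v (J (f - 1)) 1) =
        ν (J 0) * v (J 0) 0 := this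
      rw [← e, un_zero]
      ring
    · have := congrFun h1 1
      rw [Matrix.mulVec, dotProduct, Fin.sum_univ_two] at this
      have e : un (a (J 0) : ℤ) * phi k p (v (J (f - 1)) 0) + 0 * phi k p (v (J (f - 1)) 1) =
        ν (J 0) * v (J 0) 1 := this
      rw [← e]
      ring
  -- nonzero
  have hν : ν (J 0) ≠ 0 := by
    intro h0
    rw [h0, zero_mul, zero_mul] at hlast
    have h1 : (un 0 : LaurentSeries k) ≠ 0 := single_ne_zero one_ne_zero
    have h2 : (un (a (J 0)) : LaurentSeries k) ≠ 0 := single_ne_zero one_ne_zero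
    apply hv (J (f - 1))
    funext r
    fin_cases r
    · by_contra h3
      exact mul_ne_zero h2 (phi_ne_zero p h3) hlast.2
    · by_contra h3
      exact mul_ne_zero h1 (phi_ne_zero p h3) hlast.1
  have hν' : ∀ t, t < f - 1 → ν (J (t + 1)) ≠ 0 := by
    intro t ht h0
    obtain ⟨c, d, h1, h2, -⟩ := hstep t ht
    rw [h0, zero_mul] at h1 h2
    have h3 : (un c : LaurentSeries k) ≠ 0 := single_ne_zero one_ne_zero
    have h4 : (un d : LaurentSeries k) ≠ 0 := single_ne_zero one_ne_zero
    apply hv (J t)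
    funext r
    fin_cases r
    · by_contra h5
      exact mul_ne_zero h3 (phi_ne_zero p h5) h1
    · by_contra h5
      exact mul_ne_zero h4 (phi_ne_zero p h5) h2
  have hx0 : v (J 0) 0 ≠ 0 := by
    intro h0
    have h1 : ∀ t, t ≤ f - 1 → v (J t) 0 = 0 := by
      intro t
      induction t with
      | zero => intro _; exact h0
      | succ t ih =>
        intro ht
        obtain ⟨c, d, h1, -, -⟩ := hstep t (by omega)
        rw [ih (by omega), map_zero, mul_zero] at h1
        exact (mul_eq_zero.1 h1.symm).resolve_left (hν' t (by omega))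
    have h2 := hlast.2
    rw [h1 _ le_rfl, map_zero, mul_zero] at h2
    have h3 := (mul_eq_zero.1 h2.symm).resolve_left hν
    apply hv (J 0)
    funext r
    fin_cases r
    · exact h0
    · exact h3
  have hy0 : v (J 0) 1 ≠ 0 := by
    intro h0
    have h1 : ∀ t, t ≤ f - 1 → v (J t) 1 = 0 := by
      intro t
      induction t with
      | zero => intro _; exact h0
      | succ t ih =>
        intro ht
        obtain ⟨c, d, -, h1, -⟩ := hstep t (by omega)
        rw [ih (by omega), map_zero, mul_zero] at h1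
        exact (mul_eq_zero.1 h1.symm).resolve_left (hν' t (by omega))
    have h2 := hlast.1
    rw [h1 _ le_rfl, map_zero, mul_zero] at h2
    have h3 := (mul_eq_zero.1 h2.symm).resolve_left hν
    apply hv (J 0)
    funext r
    fin_cases r
    · exact h3
    · exact h0
  have hne : ∀ t, t ≤ f - 1 → v (J t) 0 ≠ 0 ∧ v (J t) 1 ≠ 0 := by
    intro t
    induction t with
    | zero => intro _; exact ⟨hx0, hy0⟩
    | succ t ih =>
      intro ht
      obtain ⟨c, d, h1, h2, -⟩ := hstep t (by omega)
      obtain ⟨h3, h4⟩ := ih (by omega)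
      exact ⟨(order_step p h3 h1).1, (order_step p h4 h2).1⟩
  -- the difference of the orders
  obtain ⟨R, hR⟩ : ∃ R : ℕ → ℤ, R = fun t => (v (J t) 1).order - (v (J t) 0).order := ⟨_, rfl⟩
  have hRs : ∀ t, t < f - 1 → R (t + 1) = p * R t - a (J (t + 1)) := by
    intro t ht
    obtain ⟨c, d, h1, h2, h3⟩ := hstep t ht
    obtain ⟨h4, h5⟩ := hne t (by omega)
    have h6 := (order_step p h4 h1).2.2
    have h7 := (order_step p h5 h2).2.2
    rw [hR]
    dsimp only
    rw [h3] at h7
    linear_combination h7 - h6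
  have hRf : R 0 = a (J 0) - p * R (f - 1) := by
    obtain ⟨h4, h5⟩ := hne (f - 1) le_rfl
    have h6 := (order_step p h5 hlast.1).2.2
    have h7 := (order_step p h4 hlast.2).2.2
    rw [hR]
    dsimp only
    linear_combination h7 - h6
  have hab : ∀ j, (1 : ℤ) ≤ a j ∧ (a j : ℤ) ≤ p - 1 := fun j =>
    ⟨by exact_mod_cast (ha j).1, by have := (ha j).2; omega⟩
  rcases lt_or_ge (R 0) 1 with hlt | hge
  · have h1 : ∀ t, t ≤ f - 1 → R t ≤ 0 := by
      intro t
      induction t with
      | zero => intro _; omega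
      | succ t ih =>
        intro ht
        have h2 := ih (by omega)
        rw [hRs t (by omega)]
        nlinarith [(hab (J (t + 1))).1]
    have h2 := h1 _ le_rfl
    nlinarith [(hab (J 0)).1]
  · have h1 : ∀ t, t ≤ f - 1 → 1 ≤ R t := by
      intro t
      induction t with
      | zero => intro _; exact hge
      | succ t ih =>
        intro ht
        have h2 := ih (by omega)
        rw [hRs t (by omega)]
        nlinarith [(hab (J (t + 1))).2]
    have h2 := h1 _ le_rfl
    nlinarith [(hab (J 0)).2]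


end

section
variable {p f : ℕ} [Fact p.Prime] [NeZero f] {a : ZMod f → ℕ}

/-- the Kisin module without words -/
noncomputable def ME (k : Type u) [Field k] {f : ℕ} (i : ZMod f) : KisinModule f k where
  X j := Matrix.GeneralLinearGroup.map PowerSeries.C (if (j - i).val < f - 1 then 1 else sw)
  Z _ := 1

theorem ME_frob (k : Type u) [Field k] (i j : ZMod f) : (ME k i).frob a j = FE a i j := by
  have h3 : (ME k i).frob a j = ((if (j - i).val < f - 1 then (1 : GL (Fin 2) k) else sw).1.map
      PowerSeries.C).map ps * du (a j) * gz 1 := rfl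
  have h4 : ∀ X : GL (Fin 2) k, (X.1.map PowerSeries.C).map ps = gz X := fun X =>
    Matrix.ext fun r s => ofPowerSeries_C _
  rw [h3, h4, gz_one, Matrix.mul_one]
  unfold FE
  split_ifs
  · rw [gz_one, Matrix.one_mul, du_two]
  · rw [gz_sw, du_two, Matrix.mul_fin_two]
    apply mat2_congr <;> ring

theorem FE_map {k K : Type u} [Field k] [Field K] (ι : k →+* K) (i j : ZMod f) :
    (FE a i j : Mat k).map (lmap ι) = FE a i j := by
  unfold FE
  split_ifs
  · rw [mat2_map, lmap_un, map_zero, map_one]
  · rw [mat2_map, lmap_un, map_zero, map_one]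

theorem stdK_Y' {k : Type u} [Field k] {P : ℕ → Bool} (i : ZMod f) (t : ℕ) (ht : t + 1 < f)
    (h1 : P t = true) :
    (stdK k P i).Y (i + (t : ZMod f)) = if Pm P t = true then 1 else !![0, 1; 1, 0] := by
  have hnt : ∀ x : Bool, x = false → ¬ x = true := by
    intro x hx
    rw [hx]
    exact fun h => Bool.noConfusion h
  have e1 : (i + (t : ZMod f) - i).val = t := posv i (by omega)
  have e2 : (i + (t : ZMod f) + 1 - i).val = t + 1 := by
    have := posv i ht
    have e : i + (t : ZMod f) + 1 = i + ((t + 1 : ℕ) : ZMod f) := by push_cast; ring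
    rw [e]
    exact this
  have e4 : (znQ P (fun _ => (1 : GL (Fin 2) k)) (t + 1)) = sw := by
    unfold znQ
    have h3 : Pm P (t + 1) = true := h1
    rw [if_pos h3, if_pos h3, ite_self]
  have e5 : ∀ X : GL (Fin 2) k, (Matrix.GeneralLinearGroup.map PowerSeries.C X).1.map
      PowerSeries.constantCoeff = X.1 := by
    intro X
    refine Matrix.ext fun r s => ?_
    exact PowerSeries.constantCoeff_C _
  have e6 : (sw : GL (Fin 2) k).1 = !![0, 1; 1, 0] := rfl
  unfold KisinModule.Y stdK
  dsimp only
  rw [e1, e2, e4, e5]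
  unfold xnQ
  rw [if_pos h1]
  split_ifs
  · rw [e6, Matrix.mul_fin_two, Matrix.one_fin_two]
    congr 1
    simp
  · rw [Units.val_one, Matrix.mul_one, e6]

theorem absIrr_stdK {k : Type u} [Field k] {P : ℕ → Bool} (hp : 5 ≤ p)
    (ha : ∀ i, 1 ≤ a i ∧ a i ≤ p) (hP : GoodP P f) (i : ZMod f) (hpat : IsPat p f a i P)
    (K : Type u) [Field K] (ι : k →+* K) :
    Irred p fun j => ((stdK k P i).frob a j).map (lmap ι) := by
  have h1 := (stdK_hom (k := k) (a := a) hP i hpat).lmap ι
  have h2 : IsHom p (fun j => ((stdK k P i).frob a j).map (lmap ι))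
      (fun j => (Bp p P f (a j) (j - i).val : Mat K))
      fun j => (Matrix.GeneralLinearGroup.map (lmap ι) (TK P (fun _ => 1) (j - i).val)).1 := by
    intro j
    have h3 := h1 j
    simp only [Bp_map] at h3
    exact h3
  exact irred_of_hom _ h2 (irred_Bp hp ha hP i)

/-- the active words of the standard Kisin module -/
theorem active_stdK {k : Type u} [Field k] (hp : 5 ≤ p) {r : ℕ} {i : Fin r → ZMod f}
    {m : Fin r → ℕ} (hW : IsWords p f a i m) {j0 : Fin r} (hj0 : ¬ Cov i m (i j0 - 1))
    (i' : ZMod f) (m' : ℕ) :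
    Active p f a (stdK k (PW i m (i j0)) (i j0)) i' m' ↔ ∃ j, i' = i j ∧ m' = m j := by
  have hP := goodP_PW hW hj0
  have hpat := isPat_PW hW (j0 := j0)
  have hf3 := hP.three_le
  obtain ⟨P, hPdef⟩ : ∃ P, P = PW i m (i j0) := ⟨_, rfl⟩
  rw [← hPdef] at hP hpat ⊢
  have hpos : ∀ x : ZMod f, i j0 + (((x - i j0).val : ℕ) : ZMod f) = x := by
    intro x
    rw [ZMod.natCast_val, ZMod.cast_id', id_eq, add_sub_cancel]
  have hPx : ∀ x : ZMod f, P (x - i j0).val = true ↔ ∃ j, ∃ s : ℕ, s + 1 < m j ∧ x = i j + s := by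
    intro x
    rw [hPdef, PW_iff, hpos]
  have hlt : ∀ x : ZMod f, P (x - i j0).val = true → (x - i j0).val + 1 < f := by
    intro x hx
    have := hP.lt (ZMod.val_lt _) hx
    omega
  have hPmx : ∀ x : ZMod f, Pm P (x - i j0).val = P (x - 1 - i j0).val := fun x => Pm_val hP _ _
  constructor
  · rintro ⟨hw, h11, -⟩
    by_cases h1 : P (i' - i j0).val = true
    · obtain ⟨j, s, hs, e⟩ := (hPx i').1 h1
      have h2 := hw.eq_of_meet hp (hW.word j) (s := 0) (s' := s) (by have := hw.1; omega)
        (by omega) (by rw [Nat.cast_zero, add_zero]; exact e)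
      exact ⟨j, h2.1, h2.2⟩
    · exfalso
      have h1' : P (i' - i j0).val = false := by simpa using h1
      have ha1 := hw.2.2.1
      by_cases h2 : Pm P (i' - i j0).val = true
      · have h3 := hpat.stop _ (ZMod.val_lt _) h1' h2
        rw [hpos] at h3
        omega
      · have h2' : Pm P (i' - i j0).val = false := by simpa using h2
        by_cases h3 : (i' - i j0).val + 1 < f
        · have h4 := stdK_Y (k := k) (i j0) _ h3 h1' h2'
          rw [hpos, h11] at h4
          exact zero_ne_one h4
        · -- the position before the word `j0`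
          have h5 : (i' - i j0).val = f - 1 := by
            have := ZMod.val_lt (i' - i j0)
            omega
          have h6 : i' + 1 = i j0 := by
            have h7 := hpos i'
            rw [h5] at h7
            have h8 : ((f - 1 + 1 : ℕ) : ZMod f) = 0 := by
              rw [Nat.sub_add_cancel (by omega), ZMod.natCast_self]
            push_cast at h8
            linear_combination -h7 + h8
          have h7 := (hW.word j0).2.2.1
          have hm' := hw.1
          rcases hw.entry (s := 1) (by omega) with ⟨h8, -⟩ | ⟨-, -, h8⟩ | ⟨-, -, h8⟩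
          · omega
          · rw [Nat.cast_one, h6] at h8
            omega
          · rw [Nat.cast_one, h6] at h8
            omega
  · rintro ⟨j, rfl, rfl⟩
    have hw := hW.word j
    have hm := hw.1
    have hmf := hw.2.1
    have hin : ∀ s : ℕ, s + 1 < m j → P (i j + (s : ZMod f) - i j0).val = true :=
      fun s hs => (hPx _).2 ⟨j, s, hs, rfl⟩
    refine ⟨hw, ?_, ?_⟩
    · have h1 := hin 0 (by omega)
      rw [Nat.cast_zero, add_zero] at h1
      have h2 := stdK_Y' (k := k) (i j0) _ (hlt _ h1) h1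
      have h3 : ¬ Pm P (i j - i j0).val = true := by
        intro h3
        have h4 := hpat.mid _ (ZMod.val_lt _) h1 h3
        rw [hpos] at h4
        have h5 := hw.2.2.1
        omega
      rw [hpos, if_neg h3] at h2
      rw [h2]
      rfl
    · intro s hs hs'
      have h1 := hin s (by omega)
      have h2 := stdK_Y' (k := k) (i j0) _ (hlt _ h1) h1
      have h3 : Pm P (i j + (s : ZMod f) - i j0).val = true := by
        rw [hPmx]
        have e : i j + (s : ZMod f) - 1 = i j + ((s - 1 : ℕ) : ZMod f) := by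
          rw [Nat.cast_sub hs]
          push_cast
          ring
        rw [e]
        exact hin _ (by omega)
      rw [hpos, if_pos h3] at h2
      rw [h2]
      rfl

/-- all the families of lengths occur, over all fields -/
theorem exists_model (hp : 5 ≤ p) (r : ℕ) (m : Fin r → ℕ) (hm : ∀ j, 2 ≤ m j)
    (hs : ∑ j, m j < f) : ∃ (a : ZMod f → ℕ) (i : Fin r → ZMod f), (∀ t, 1 ≤ a t ∧ a t ≤ p) ∧
      IsWords p f a i m ∧ ∀ (k : Type u) [Field k], ∃ M : KisinModule f k,
        (∀ (K : Type u) [Field K] (ι : k →+* K), Irred p fun j => (M.frob a j).map (lmap ι)) ∧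
        ∀ (i' : ZMod f) (m' : ℕ), Active p f a M i' m' ↔ ∃ j, i' = i j ∧ m' = m j := by
  rcases Nat.eq_zero_or_pos r with hr | hr
  · subst hr
    refine ⟨fun _ => p - 1, fun j => j.elim0, fun _ => ⟨by show 1 ≤ p - 1; omega,
      by show p - 1 ≤ p; omega⟩, ⟨fun j => j.elim0,
      fun j => j.elim0, hs⟩, fun k _ => ⟨ME k 0, fun K _ ι => ?_, fun i' m' => ?_⟩⟩
    · have e : (fun j => ((ME k (0 : ZMod f)).frob (fun _ => p - 1) j).map (lmap ι)) =
          (FE (fun _ => p - 1) 0 : ZMod f → Mat K) := by
        funext j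
        rw [ME_frob, FE_map]
      rw [e]
      exact irred_FE hp (fun _ => ⟨by show 1 ≤ p - 1; omega, by show p - 1 + 1 ≤ p; omega⟩) 0
    · constructor
      · rintro ⟨hw, -, -⟩
        have h1 : p - 1 = 1 := hw.2.2.1
        omega
      · rintro ⟨j, -⟩
        exact j.elim0
  · obtain ⟨a, i, ha, hW⟩ := exists_shape hp m hm hs
    have hne : Nonempty (Fin r) := ⟨⟨0, hr⟩⟩
    obtain ⟨j0, hj0⟩ := exists_gap hW
    refine ⟨a, i, ha, hW, fun k _ => ⟨stdK k (PW i m (i j0)) (i j0), fun K _ ι => ?_,
      fun i' m' => active_stdK hp hW hj0 i' m'⟩⟩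
    exact absIrr_stdK hp ha (goodP_PW hW hj0) _ (isPat_PW hW) K ι

end

end Pool.Agent.Lib.MP_74d0c9_nt
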