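import Pool.Agent.Lib.MP_74d0c9_nt.XNewton

/-! Newton iteration, for arbitrary base points and directions. -/

set_option autoImplicit false

namespace Pool.Agent.Lib.MP_74d0c9_nt

open HahnSeries

universe u

section
variable {k A : Type u} [Field k] [CommRing A] [Algebra k A]
  {p f : ℕ} [Fact p.Prime] {a : ZMod f → ℕ} {ι : Type} [Fintype ι]

/-- combinations of directions, over `A` -/
theorem sum_toA_dir {d : ℕ} (b : Fin d → A) (D : ι → Mat k) (r : Fin d → ι → k) :
    ∑ e, (HahnSeries.C (b e) : LaurentSeries A) •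
        toA A (∑ v, (HahnSeries.C (r e v) : LaurentSeries k) • D v) =
      ∑ v, (HahnSeries.C (∑ e, b e * algebraMap k A (r e v)) : LaurentSeries A) •
        toA A (D v) := by
  have h1 : ∀ e, toA A (∑ v, (HahnSeries.C (r e v) : LaurentSeries k) • D v) =
      ∑ v, (HahnSeries.C (algebraMap k A (r e v)) : LaurentSeries A) • toA A (D v) := by
    intro e
    have h2 : ∀ t : Finset ι, toA A (∑ v ∈ t, (HahnSeries.C (r e v) : LaurentSeries k) • D v) =
        ∑ v ∈ t, (HahnSeries.C (algebraMap k A (r e v)) : LaurentSeries A) • toA A (D v) := by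
      classical
      intro t
      induction t using Finset.induction_on with
      | empty => exact toA_zero
      | insert v t hv ih =>
        rw [Finset.sum_insert hv, Finset.sum_insert hv, toA_add, toA_C_smul, ih]
    exact h2 Finset.univ
  simp only [h1, Finset.smul_sum, C_smul_smul]
  rw [Finset.sum_comm]
  refine Finset.sum_congr rfl fun v _ => ?_
  rw [sum_C_smul]

/-- the tangent equations, with coefficients in an ideal -/
theorem tangent_ideal' [Module.Finite k A] (MB : ZMod f → Mat k) (D : ι → ZMod f → Mat k)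
    (tan : ∀ y : ZMod f → Mat k, (∀ j, MGE (y j) 0) → ∀ z : ZMod f → Matrix (Fin 2) (Fin 2) k,
      ∃ (c : ZMod f → Mat k) (r : ι → k), (∀ j, MGE (c j) 0) ∧
        ∀ j, y j * MB j + MB j * (z j).map HahnSeries.C =
          c j * MB j - MB j * (c (j - 1)).map (phi k p) +
            ∑ v, (HahnSeries.C (r v) : LaurentSeries k) • D v j)
    (I : Ideal A) (y : ZMod f → Mat A) (hy0 : ∀ j, MGE (y j) 0) (hyN : ∀ j, MSmall I (y j))
    (z : ZMod f → Matrix (Fin 2) (Fin 2) A) (hzN : ∀ j r s, z j r s ∈ I) :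
    ∃ (C : ZMod f → Mat A) (c : ι → A), (∀ j, MGE (C j) 0) ∧ (∀ j, MSmall I (C j)) ∧
      (∀ v, c v ∈ I) ∧
      ∀ j, y j * toA A (MB j) + toA A (MB j) * (z j).map HahnSeries.C =
          (C j * toA A (MB j) - toA A (MB j) * (C (j - 1)).map (phi A p)) +
          ∑ v, (HahnSeries.C (c v) : LaurentSeries A) • toA A (D v j) := by
  obtain ⟨d, b, lam, hb, hbx⟩ := exists_dual (k := k) I
  have hyl : ∀ (e : Fin d) (j : ZMod f), MGE (LL (lam e) y j) 0 := by
    intro e j r' s' v hv
    rw [LL_coeff, hy0 j r' s' v hv, map_zero]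
  choose c r hc hT using fun e : Fin d =>
    tan (LL (lam e) y) (hyl e) (fun j => (z j).map (lam e))
  have hmem : ∀ c' : Fin d → k, ∑ e, b e * algebraMap k A (c' e) ∈ I := fun c' =>
    Ideal.sum_mem _ fun e _ => Ideal.mul_mem_right _ _ (hb e)
  refine ⟨fun j => ∑ e, (HahnSeries.C (b e) : LaurentSeries A) • toA A (c e j),
    fun v => ∑ e, b e * algebraMap k A (r e v), ?_, ?_, fun v => hmem fun e => r e v,
    fun j => ?_⟩
  · intro j r' s' v hv
    show ((∑ e, (HahnSeries.C (b e) : LaurentSeries A) • toA A (c e j)) r' s').coeff v = 0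
    rw [Matrix.sum_apply, coeff_sum']
    refine Finset.sum_eq_zero fun e _ => ?_
    rw [Matrix.smul_apply, smul_eq_mul, coeff_C_mul']
    have e1 : (toA A (c e j) r' s').coeff v = 0 := by
      show algebraMap k A ((c e j r' s').coeff v) = 0
      rw [hc e j r' s' v hv, map_zero]
    rw [e1, mul_zero]
  · intro j r' s' v
    show ((∑ e, (HahnSeries.C (b e) : LaurentSeries A) • toA A (c e j)) r' s').coeff v ∈ I
    rw [Matrix.sum_apply, coeff_sum']
    refine Ideal.sum_mem _ fun e _ => ?_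
    rw [Matrix.smul_apply, smul_eq_mul, coeff_C_mul']
    exact Ideal.mul_mem_right _ _ (hb e)
  · have hCphi : (∑ e, (HahnSeries.C (b e) : LaurentSeries A) • toA A (c e (j - 1))).map
        (phi A p) =
        ∑ e, (HahnSeries.C (b e) : LaurentSeries A) • toA A ((c e (j - 1)).map (phi k p)) := by
      rw [sum_phi]
      refine Finset.sum_congr rfl fun e _ => ?_
      rw [smul_phi, toA_phi]
    have h1 := expand_mat (k := k) hbx (hyN j)
    have h2 : (z j).map HahnSeries.C = ∑ e, (HahnSeries.C (b e) : LaurentSeries A) •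
        toA A (((z j).map (lam e)).map HahnSeries.C) := by
      have h4 := expand_mat (k := k) hbx (msmall_C (hzN j))
      rw [h4]
      refine Finset.sum_congr rfl fun e _ => ?_
      congr 2
      refine Matrix.ext fun r' s' => ?_
      ext v
      show lam e ((HahnSeries.C (z j r' s') : LaurentSeries A).coeff v) =
        (HahnSeries.C (lam e (z j r' s')) : LaurentSeries k).coeff v
      rw [HahnSeries.C_apply, HahnSeries.C_apply]
      by_cases hv : v = 0
      · rw [hv, coeff_single_same, coeff_single_same]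
      · rw [coeff_single_of_ne hv, coeff_single_of_ne hv, map_zero]
    have h5 : ∀ e, (y j).map (cm (lam e)) = LL (lam e) y j := fun e => rfl
    rw [hCphi, h2]
    conv_lhs => rw [h1]
    rw [← sum_toA_dir, Finset.sum_mul, Finset.mul_sum, Finset.sum_mul, Finset.mul_sum,
      ← Finset.sum_add_distrib, ← Finset.sum_sub_distrib, ← Finset.sum_add_distrib]
    refine Finset.sum_congr rfl fun e _ => ?_
    rw [h5, smul_mul', mul_smul', smul_mul', mul_smul', ← smul_add, ← smul_sub, ← smul_add,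
      ← toA_mul, ← toA_mul, ← toA_mul, ← toA_mul, ← toA_add, ← toA_sub, ← toA_add, hT e j]

/-- one step of the Newton iteration -/
theorem newton_step' [Module.Finite k A] (ha : ∀ i, 1 ≤ a i ∧ a i ≤ p)
    (N : Ideal A) (hN : IsNilpotent N) (MB : ZMod f → Mat k) (D : ι → ZMod f → Mat k)
    (tan : ∀ y : ZMod f → Mat k, (∀ j, MGE (y j) 0) → ∀ z : ZMod f → Matrix (Fin 2) (Fin 2) k,
      ∃ (c : ZMod f → Mat k) (r : ι → k), (∀ j, MGE (c j) 0) ∧
        ∀ j, y j * MB j + MB j * (z j).map HahnSeries.C =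
          c j * MB j - MB j * (c (j - 1)).map (phi k p) +
            ∑ v, (HahnSeries.C (r v) : LaurentSeries k) • D v j)
    (MX : (ι → A) → ZMod f → Mat A)
    (hK : ∀ c : ι → A, (∀ v, c v ∈ N) → ∃ M : KisinModule f A, ∀ j, M.frob a j = MX c j)
    (hexp : ∀ r : ℕ, 1 ≤ r → ∀ c c' : ι → A, (∀ v, c v ∈ N) → (∀ v, c' v ∈ N ^ r) →
      ∀ j, MSmall (N ^ (r + 1)) (MX (c + c') j - MX c j -
        ∑ v, (HahnSeries.C (c' v) : LaurentSeries A) • toA A (D v j)))
    {r : ℕ} (hr : 1 ≤ r) (c : ι → A) (hc : ∀ v, c v ∈ N) (M' : KisinModule f A)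
    (hMN : ∀ j, MSmall N (M'.frob a j - toA A (MB j)))
    (hMr : ∀ j, MSmall (N ^ r) (M'.frob a j - MX c j)) :
    ∃ (c' : ι → A) (M3 : KisinModule f A) (g : ZMod f → GL (Fin 2) (PowerSeries A)),
      (∀ v, c' v ∈ N ^ r) ∧
      (∀ j, MSmall (N ^ r) (gx (g j) - 1)) ∧
      IsHom p (M'.frob a) (M3.frob a) (fun j => gx (g j)) ∧
      (∀ j, MSmall N (M3.frob a j - toA A (MB j))) ∧
      ∀ j, MSmall (N ^ (r + 1)) (M3.frob a j - MX (c + c') j) := by
  have hle : N ^ r ≤ N := Ideal.pow_le_self (by omega)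
  obtain ⟨M'', hM''⟩ := hK c hc
  have hD : ∀ j, MSmall (N ^ r) (M'.frob a j - M''.frob a j) := by
    intro j
    rw [hM'']
    exact hMr j
  obtain ⟨y, z, hy0, hyN, hzN, hyz⟩ := exists_stab (fun j => (ha j).1) M'' M' hD
  have hM''N : ∀ j, MSmall N (M''.frob a j - toA A (MB j)) := by
    intro j
    have e1 : M''.frob a j - toA A (MB j) =
        (M'.frob a j - toA A (MB j)) - (M'.frob a j - M''.frob a j) := by abel
    rw [e1]
    exact (hMN j).sub ((hD j).mono hle)
  obtain ⟨C, c', hC0, hCr, hc', hsum⟩ := tangent_ideal' (p := p) MB D tan (N ^ r) y hy0 hyN z hzN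
  choose g hg using fun j => exists_gx_one_sub hN (hC0 j) ((hCr j).mono hle)
  obtain ⟨M3, hM3⟩ := exists_transport (p := p) (fun j => (ha j).2) M' g
  have hstep : ∀ j, (1 - C j) * M'.frob a j =
      M3.frob a j * (1 - (C (j - 1)).map (phi A p)) := by
    intro j
    have h1 : gx (g j) * M'.frob a j = M3.frob a j * (gx (g (j - 1))).map (phi A p) := hM3 j
    rw [hg, hg, map_sub_phi, map_one_phi] at h1
    exact h1
  obtain ⟨hM3N, hM3r⟩ := step_calc (p := p) hr hCr hMN hstep
  refine ⟨c', M3, g, hc', fun j => ?_, hM3, hM3N, fun j => ?_⟩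
  · rw [hg, sub_sub_cancel_left]
    exact (hCr j).neg
  · have hYD : MSmall (N ^ (r + 1)) ((M'.frob a j - M''.frob a j) -
        (y j * toA A (MB j) + toA A (MB j) * (z j).map HahnSeries.C)) := by
      rw [hyz j]
      have e1 : y j * M''.frob a j + M'.frob a j * (z j).map HahnSeries.C -
          (y j * toA A (MB j) + toA A (MB j) * (z j).map HahnSeries.C) =
          y j * (M''.frob a j - toA A (MB j)) +
          (M'.frob a j - toA A (MB j)) * (z j).map HahnSeries.C := by
        rw [Matrix.mul_sub, Matrix.sub_mul]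
        abel
      rw [e1, pow_succ]
      refine MSmall.add ((hyN j).mul (hM''N j)) ?_
      rw [mul_comm]
      exact (hMN j).mul (msmall_C (hzN j))
    rw [hsum j] at hYD
    rw [arrange (M3.frob a j) (M'.frob a j) (M''.frob a j)
      (C j * toA A (MB j) - toA A (MB j) * (C (j - 1)).map (phi A p)) _ _ _ (hM'' j)]
    exact ((hM3r j).add hYD).sub (hexp r hr c c' hc hc' j)

/-- Newton iteration. -/
theorem newton_abs [Module.Finite k A] (ha : ∀ i, 1 ≤ a i ∧ a i ≤ p)
    (N : Ideal A) (hN : IsNilpotent N) (MB : ZMod f → Mat k) (D : ι → ZMod f → Mat k)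
    (tan : ∀ y : ZMod f → Mat k, (∀ j, MGE (y j) 0) → ∀ z : ZMod f → Matrix (Fin 2) (Fin 2) k,
      ∃ (c : ZMod f → Mat k) (r : ι → k), (∀ j, MGE (c j) 0) ∧
        ∀ j, y j * MB j + MB j * (z j).map HahnSeries.C =
          c j * MB j - MB j * (c (j - 1)).map (phi k p) +
            ∑ v, (HahnSeries.C (r v) : LaurentSeries k) • D v j)
    (MX : (ι → A) → ZMod f → Mat A)
    (hK : ∀ c : ι → A, (∀ v, c v ∈ N) → ∃ M : KisinModule f A, ∀ j, M.frob a j = MX c j)
    (h0 : ∀ j, MX 0 j = toA A (MB j))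
    (hexp : ∀ r : ℕ, 1 ≤ r → ∀ c c' : ι → A, (∀ v, c v ∈ N) → (∀ v, c' v ∈ N ^ r) →
      ∀ j, MSmall (N ^ (r + 1)) (MX (c + c') j - MX c j -
        ∑ v, (HahnSeries.C (c' v) : LaurentSeries A) • toA A (D v j)))
    (M : KisinModule f A) (hM : ∀ j, MSmall N (M.frob a j - toA A (MB j))) :
    ∃ (c : ι → A) (G : ZMod f → GL (Fin 2) (LaurentSeries A)), (∀ v, c v ∈ N) ∧
      (∀ j, MSmall N ((G j).1 - 1)) ∧ IsHom p (M.frob a) (MX c) fun j => (G j).1 := by
  have key : ∀ r : ℕ, 1 ≤ r → ∃ (c : ι → A) (M' : KisinModule f A)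
      (G : ZMod f → GL (Fin 2) (LaurentSeries A)), (∀ v, c v ∈ N) ∧
      (∀ j, MSmall N ((G j).1 - 1)) ∧
      IsHom p (M.frob a) (M'.frob a) (fun j => (G j).1) ∧
      (∀ j, MSmall N (M'.frob a j - toA A (MB j))) ∧
      ∀ j, MSmall (N ^ r) (M'.frob a j - MX c j) := by
    intro r hr
    induction r, hr using Nat.le_induction with
    | base =>
      refine ⟨0, M, fun _ => 1, fun _ => N.zero_mem, fun j => ?_, fun j => ?_, hM, fun j => ?_⟩
      · rw [Units.val_one, sub_self]
        exact MSmall.zero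
      · show (1 : Mat A) * _ = _ * (1 : Mat A).map (phi A p)
        rw [map_one_phi, Matrix.one_mul, Matrix.mul_one]
      · rw [h0, pow_one]
        exact hM j
    | succ r hr ih =>
      obtain ⟨c, M', G, hc, hG, hGM, hMN, hMr⟩ := ih
      have hle : N ^ r ≤ N := Ideal.pow_le_self (by omega)
      obtain ⟨c', M3, g, hc', hg, hM3, hM3N, hM3r⟩ :=
        newton_step' ha N hN MB D tan MX hK hexp hr c hc M' hMN hMr
      refine ⟨c + c', M3, fun j => glps (g j) * G j,
        fun v => N.add_mem (hc v) (hle (hc' v)), fun j => ?_, fun j => ?_, hM3N, hM3r⟩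
      · show MSmall N ((glps (g j) * G j).1 - 1)
        have h1 : MSmall N ((glps (g j)).1 - 1) := by
          rw [glps_val]
          exact (hg j).mono hle
        exact msmall_mul h1 (hG j)
      · have e3 : (G j).1 * M.frob a j = M'.frob a j * (G (j - 1)).1.map (phi A p) := hGM j
        have e4 : gx (g j) * M'.frob a j = M3.frob a j * (gx (g (j - 1))).map (phi A p) := hM3 j
        show (glps (g j) * G j).1 * M.frob a j = M3.frob a j *
          (glps (g (j - 1)) * G (j - 1)).1.map (phi A p)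
        rw [glps_mul_val, glps_mul_val, map_mul_phi, Matrix.mul_assoc, e3, ← Matrix.mul_assoc, e4,
          Matrix.mul_assoc]
  obtain ⟨n, hn⟩ := hN
  obtain ⟨c, M', G, hc, hG, hGM, -, hMr⟩ := key (n + 1) (by omega)
  have hn1 : N ^ (n + 1) = ⊥ := by
    rw [pow_succ, hn, Ideal.zero_eq_bot, Ideal.bot_mul]
  refine ⟨c, G, hc, hG, fun j => ?_⟩
  have h1 := hMr j
  rw [hn1] at h1
  have h2 := sub_eq_zero.1 (MSmall.bot h1)
  show (G j).1 * M.frob a j = MX c j * (G (j - 1)).1.map (phi A p)
  rw [← h2]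
  exact hGM j

end

end Pool.Agent.Lib.MP_74d0c9_nt
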