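import Pool.Agent.Lib.MP_74d0c9_nt.TOne
import Pool.Agent.Lib.MP_74d0c9_nt.XK2
import Pool.Agent.Lib.MP_74d0c9_nt.YDefs

/-! Every integral family is a coboundary of an integral family, up to constants. -/

set_option autoImplicit false

namespace Pool.Agent.Lib.MP_74d0c9_nt

open HahnSeries

universe u

section
variable {k : Type u} [CommRing k]

/-- conjugation by `diag(u ^ a, 1)` -/
noncomputable def cdu (a : ℕ) (N : Mat k) : Mat k :=
  !![N 0 0, un a * N 0 1; un (-a) * N 1 0, N 1 1]

theorem cdu_du (a : ℕ) (N : Mat k) : cdu a N * du a = du a * N := by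
  unfold cdu
  rw [du_two, mat_eta N, Matrix.mul_fin_two, Matrix.mul_fin_two]
  have h := un_neg_mul (k := k) a
  apply mat2_congr
  · show N 0 0 * un a + un a * N 0 1 * 0 = un a * N 0 0 + 0 * N 1 0
    ring
  · show N 0 0 * 0 + un a * N 0 1 * 1 = un a * N 0 1 + 0 * N 1 1
    ring
  · show un (-a) * N 1 0 * un a + N 1 1 * 0 = 0 * N 0 0 + 1 * N 1 0
    linear_combination N 1 0 * h
  · show un (-a) * N 1 0 * 0 + N 1 1 * 1 = 0 * N 0 1 + 1 * N 1 1
    ring

theorem cdu_add (a : ℕ) (N N' : Mat k) : cdu a (N + N') = cdu a N + cdu a N' := by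
  unfold cdu
  refine Matrix.ext fun r s => ?_
  rw [Matrix.add_apply]
  fin_cases r <;> fin_cases s
  · rfl
  · show un a * (N 0 1 + N' 0 1) = un a * N 0 1 + un a * N' 0 1
    ring
  · show un (-a) * (N 1 0 + N' 1 0) = un (-a) * N 1 0 + un (-a) * N' 1 0
    ring
  · rfl

theorem cdu_smul (a : ℕ) (c : LaurentSeries k) (N : Mat k) : cdu a (c • N) = c • cdu a N := by
  unfold cdu
  refine Matrix.ext fun r s => ?_
  rw [Matrix.smul_apply, smul_eq_mul]
  fin_cases r <;> fin_cases s
  · rfl
  · show un a * (c * N 0 1) = c * (un a * N 0 1)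
    ring
  · show un (-a) * (c * N 1 0) = c * (un (-a) * N 1 0)
    ring
  · rfl

theorem cdu_MGE {p a : ℕ} (ha : a ≤ p) {N : Mat k} {n : ℤ} (hN : MGE N n) :
    MGE (cdu a N) (n - p) := by
  have ha' : (a : ℤ) ≤ p := by exact_mod_cast ha
  have ha0 : (0 : ℤ) ≤ a := by positivity
  exact MGE_mk ((hN 0 0).mono (by omega)) (((hN 0 1).un_mul a).mono (by omega))
    (((hN 1 0).un_mul (-a)).mono (by omega)) ((hN 1 1).mono (by omega))

variable {p : ℕ} [Fact p.Prime] {f : ℕ} {a : ZMod f → ℕ} {P : ZMod f → Bool}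
  {M : KisinModule f k}

/-- the map `N ↦ B N B⁻¹` at the position `j` -/
noncomputable def LY (a : ZMod f → ℕ) (P : ZMod f → Bool) (M : KisinModule f k) (j : ZMod f)
    (N : Mat k) : Mat k :=
  if P j = true ∨ P (j - 1) = true then N
  else gx (M.X j) * cdu (a j) (gz (M.Z j) * N * gz (M.Z j)⁻¹) * gx (M.X j)⁻¹

theorem LY_in {j : ZMod f} (h : ¬ OutY P j) (N : Mat k) : LY a P M j N = N := by
  unfold LY
  rw [if_pos]
  by_contra hc
  push Not at hc
  exact h ⟨by simpa using hc.1, by simpa using hc.2⟩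

theorem LY_out {j : ZMod f} (h : OutY P j) (N : Mat k) : LY a P M j N =
    gx (M.X j) * cdu (a j) (gz (M.Z j) * N * gz (M.Z j)⁻¹) * gx (M.X j)⁻¹ := by
  unfold LY
  rw [if_neg]
  rw [h.1, h.2]
  simp

theorem BY_in {j : ZMod f} (h : ¬ OutY P j) :
    ∃ q : ℤ, (BY p a P M j : Mat k) = !![un q, 0; 0, un q] := by
  unfold BY
  by_cases c1 : P j = true
  · rw [if_pos c1]
    by_cases c2 : P (j - 1) = true
    · exact ⟨p - 1, by rw [if_pos c2]⟩
    · refine ⟨0, ?_⟩
      rw [if_neg c2, Matrix.one_fin_two]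
      rfl
  · have c2 : P (j - 1) = true := by
      by_contra hc
      exact h ⟨by simpa using c1, by simpa using hc⟩
    rw [if_neg c1, if_pos c2]
    exact ⟨p, rfl⟩

theorem BY_out {j : ZMod f} (h : OutY P j) : BY p a P M j = M.frob a j := by
  unfold BY
  rw [h.1, h.2]
  simp

theorem LY_spec (j : ZMod f) (N : Mat k) :
    LY a P M j N * BY p a P M j = BY p a P M j * N := by
  by_cases h : OutY P j
  · rw [LY_out h, BY_out h]
    have hF : M.frob a j = gx (M.X j) * du (a j) * gz (M.Z j) := rfl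
    rw [hF]
    calc gx (M.X j) * cdu (a j) (gz (M.Z j) * N * gz (M.Z j)⁻¹) * gx (M.X j)⁻¹ *
          (gx (M.X j) * du (a j) * gz (M.Z j)) =
        gx (M.X j) * cdu (a j) (gz (M.Z j) * N * gz (M.Z j)⁻¹) * (gx (M.X j)⁻¹ *
          gx (M.X j)) * du (a j) * gz (M.Z j) := by simp only [Matrix.mul_assoc]
      _ = gx (M.X j) * (cdu (a j) (gz (M.Z j) * N * gz (M.Z j)⁻¹) * du (a j)) *
          gz (M.Z j) := by
        rw [gx_inv_mul, Matrix.mul_one]
        simp only [Matrix.mul_assoc]
      _ = gx (M.X j) * du (a j) * gz (M.Z j) * N * (gz (M.Z j)⁻¹ * gz (M.Z j)) := by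
        rw [cdu_du]
        simp only [Matrix.mul_assoc]
      _ = _ := by rw [gz_inv_mul, Matrix.mul_one]
  · obtain ⟨q, hq⟩ := BY_in (p := p) (a := a) (M := M) h
    rw [LY_in h, hq, mat_eta N, Matrix.mul_fin_two, Matrix.mul_fin_two]
    apply mat2_congr
    · show N 0 0 * un q + N 0 1 * 0 = un q * N 0 0 + 0 * N 1 0
      ring
    · show N 0 0 * 0 + N 0 1 * un q = un q * N 0 1 + 0 * N 1 1
      ring
    · show N 1 0 * un q + N 1 1 * 0 = 0 * N 0 0 + un q * N 1 0
      ring
    · show N 1 0 * 0 + N 1 1 * un q = 0 * N 0 1 + un q * N 1 1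
      ring

theorem LY_add (j : ZMod f) (N N' : Mat k) :
    LY a P M j (N + N') = LY a P M j N + LY a P M j N' := by
  unfold LY
  split_ifs
  · rfl
  · rw [Matrix.mul_add, Matrix.add_mul, cdu_add, Matrix.mul_add, Matrix.add_mul]

theorem LY_smul (j : ZMod f) (c : LaurentSeries k) (N : Mat k) :
    LY a P M j (c • N) = c • LY a P M j N := by
  unfold LY
  split_ifs
  · rfl
  · rw [Matrix.mul_smul, Matrix.smul_mul, cdu_smul, Matrix.mul_smul, Matrix.smul_mul]

theorem LY_zero (j : ZMod f) : LY a P M j 0 = 0 := by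
  have h := LY_add (a := a) (P := P) (M := M) j 0 0
  rw [add_zero] at h
  exact left_eq_add.1 h

theorem LY_neg (j : ZMod f) (N : Mat k) : LY a P M j (-N) = -LY a P M j N := by
  have h := LY_add (a := a) (P := P) (M := M) j N (-N)
  rw [add_neg_cancel, LY_zero] at h
  exact eq_neg_of_add_eq_zero_right h.symm

theorem LY_sub (j : ZMod f) (N N' : Mat k) :
    LY a P M j (N - N') = LY a P M j N - LY a P M j N' := by
  rw [sub_eq_add_neg, LY_add, LY_neg, sub_eq_add_neg]

theorem LY_MGE (ha : ∀ j, a j ≤ p) (j : ZMod f) {N : Mat k} {n : ℤ} (hN : MGE N n) :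
    MGE (LY a P M j N) (n - p) := by
  unfold LY
  have hp : (0 : ℤ) ≤ p := by positivity
  split_ifs
  · exact hN.mono (by omega)
  · have h1 := (((gz_MGE (M.Z j)).mul hN).1.mul (gz_MGE (M.Z j)⁻¹)).1
    have h2 := cdu_MGE (ha j) h1
    exact (((gx_MGE (M.X j)).mul h2).1.mul (gx_MGE (M.X j)⁻¹)).1.mono (by omega)

theorem phi_MGE {N : Mat k} {n : ℤ} (hN : MGE N n) : MGE (N.map (phi k p)) (p * n) :=
  fun r s => phi_GE p (hN r s)

theorem map_zero_phi' : (0 : Mat k).map (phi k p) = 0 := Matrix.map_zero _ (map_zero _)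

theorem map_neg_phi' (X : Mat k) : (-X).map (phi k p) = -X.map (phi k p) :=
  Matrix.ext fun r s => map_neg (phi k p) (X r s)

theorem const_phi (ζ : Matrix (Fin 2) (Fin 2) k) :
    (ζ.map (HahnSeries.C : k → LaurentSeries k)).map (phi k p) = ζ.map HahnSeries.C :=
  Matrix.ext fun r s => phi_C p (ζ r s)

theorem const_MGE (ζ : Matrix (Fin 2) (Fin 2) k) :
    MGE (ζ.map (HahnSeries.C : k → LaurentSeries k)) 0 := by
  intro r s v hv
  show (HahnSeries.C (ζ r s) : LaurentSeries k).coeff v = 0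
  rw [HahnSeries.C_apply, coeff_single_of_ne (by omega)]

theorem const_add (ζ ζ' : Matrix (Fin 2) (Fin 2) k) :
    (ζ + ζ').map (HahnSeries.C : k → LaurentSeries k) = ζ.map HahnSeries.C + ζ'.map HahnSeries.C :=
  Matrix.ext fun r s => map_add HahnSeries.C (ζ r s) (ζ' r s)

theorem const_sub (ζ ζ' : Matrix (Fin 2) (Fin 2) k) :
    (ζ - ζ').map (HahnSeries.C : k → LaurentSeries k) = ζ.map HahnSeries.C - ζ'.map HahnSeries.C :=
  Matrix.ext fun r s => map_sub HahnSeries.C (ζ r s) (ζ' r s)

theorem const_smul (c : k) (ζ : Matrix (Fin 2) (Fin 2) k) :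
    (c • ζ).map (HahnSeries.C : k → LaurentSeries k) =
      (HahnSeries.C c : LaurentSeries k) • ζ.map HahnSeries.C :=
  Matrix.ext fun r s => map_mul HahnSeries.C c (ζ r s)

theorem const_zero : (0 : Matrix (Fin 2) (Fin 2) k).map (HahnSeries.C : k → LaurentSeries k) = 0 :=
  Matrix.map_zero _ (map_zero _)

/-- `y` is the coboundary of an integral family, up to constants on the right -/
def SolY (p : ℕ) [Fact p.Prime] (a : ZMod f → ℕ) (P : ZMod f → Bool) (M : KisinModule f k)
    (y : ZMod f → Mat k) : Prop :=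
  ∃ (c : ZMod f → Mat k) (ζ : ZMod f → Matrix (Fin 2) (Fin 2) k), (∀ j, MGE (c j) 0) ∧
    (∀ j, ¬ OutY P j → ζ j = 0) ∧
    ∀ j, y j = c j - LY a P M j ((c (j - 1)).map (phi k p) - (ζ j).map HahnSeries.C)

theorem SolY.add {y y' : ZMod f → Mat k} (h : SolY p a P M y) (h' : SolY p a P M y') :
    SolY p a P M (y + y') := by
  obtain ⟨c, ζ, hc, hζ, h1⟩ := h
  obtain ⟨c', ζ', hc', hζ', h1'⟩ := h'
  refine ⟨c + c', ζ + ζ', fun j => (hc j).add' (hc' j), fun j hj => ?_, fun j => ?_⟩
  · show ζ j + ζ' j = 0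
    rw [hζ j hj, hζ' j hj, add_zero]
  · show y j + y' j = c j + c' j - LY a P M j ((c (j - 1) + c' (j - 1)).map (phi k p) -
      (ζ j + ζ' j).map HahnSeries.C)
    rw [h1, h1', map_add_phi, const_add, add_sub_add_comm, LY_add]
    abel

theorem SolY.smul {y : ZMod f → Mat k} (h : SolY p a P M y) (b : k) :
    SolY p a P M (fun j => (HahnSeries.C b : LaurentSeries k) • y j) := by
  obtain ⟨c, ζ, hc, hζ, h1⟩ := h
  refine ⟨fun j => (HahnSeries.C b : LaurentSeries k) • c j, fun j => b • ζ j, fun j r s v hv => ?_,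
    fun j hj => ?_, fun j => ?_⟩
  · show (HahnSeries.C b * c j r s).coeff v = 0
    rw [HahnSeries.C_mul_eq_smul]
    show b * (c j r s).coeff v = 0
    rw [hc j r s v hv, mul_zero]
  · show b • ζ j = 0
    rw [hζ j hj, smul_zero]
  · have e : ((HahnSeries.C b : LaurentSeries k) • c (j - 1)).map (phi k p) =
        (HahnSeries.C b : LaurentSeries k) • (c (j - 1)).map (phi k p) := by
      refine Matrix.ext fun r s => ?_
      show phi k p (HahnSeries.C b * c (j - 1) r s) = HahnSeries.C b * phi k p (c (j - 1) r s)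
      rw [map_mul, phi_C]
    show (HahnSeries.C b : LaurentSeries k) • y j = _ - LY a P M j
      (((HahnSeries.C b : LaurentSeries k) • c (j - 1)).map (phi k p) -
        (b • ζ j).map HahnSeries.C)
    rw [h1, e, const_smul, ← smul_sub, LY_smul, smul_sub]

theorem SolY.neg {y : ZMod f → Mat k} (h : SolY p a P M y) : SolY p a P M (-y) := by
  have h1 := h.smul (-1)
  have e : (fun j => (HahnSeries.C (-1 : k) : LaurentSeries k) • y j) = -y := by
    funext j
    rw [map_neg, map_one, neg_smul, one_smul]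
    rfl
  rwa [e] at h1

theorem SolY.zero : SolY p a P M (0 : ZMod f → Mat k) := by
  refine ⟨0, 0, fun _ => MGE.zero' 0, fun _ _ => rfl, fun j => ?_⟩
  show (0 : Mat k) = 0 - LY a P M j ((0 : Mat k).map (phi k p) -
    (0 : Matrix (Fin 2) (Fin 2) k).map HahnSeries.C)
  rw [map_zero_phi', const_zero, sub_zero, LY_zero, sub_zero]

theorem SolY.sum {ι : Type} (s : Finset ι) {y : ι → ZMod f → Mat k}
    (h : ∀ i ∈ s, SolY p a P M (y i)) : SolY p a P M (∑ i ∈ s, y i) := by
  classical
  induction s using Finset.induction_on with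
  | empty => exact SolY.zero
  | insert i s hi ih =>
    rw [Finset.sum_insert hi]
    exact (h i (Finset.mem_insert_self _ _)).add (ih fun z hz => h z (Finset.mem_insert_of_mem hz))

theorem sg_smul (j0 : ZMod f) (b : k) (N : Mat k) :
    sg j0 ((HahnSeries.C b : LaurentSeries k) • N) =
      fun j => (HahnSeries.C b : LaurentSeries k) • sg j0 N j := by
  funext j
  show (if j = j0 then _ else 0) = (HahnSeries.C b : LaurentSeries k) • (if j = j0 then N else 0)
  split_ifs
  · rfl
  · rw [smul_zero]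

/-- moving along the cycle -/
theorem SolY.step {j0 : ZMod f} {N : Mat k} (hN : MGE N 0) :
    SolY p a P M (sg j0 N - sg (j0 + 1) (LY a P M (j0 + 1) (N.map (phi k p)))) := by
  refine ⟨sg j0 N, 0, fun j => ?_, fun _ _ => rfl, fun j => ?_⟩
  · show MGE (if j = j0 then N else 0) 0
    split_ifs
    · exact hN
    · exact MGE.zero' 0
  · show sg j0 N j - (if j = j0 + 1 then LY a P M (j0 + 1) (N.map (phi k p)) else 0) =
      sg j0 N j - LY a P M j ((if j - 1 = j0 then N else 0 : Mat k).map (phi k p) -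
        (0 : Matrix (Fin 2) (Fin 2) k).map HahnSeries.C)
    rw [const_zero, sub_zero]
    by_cases h : j = j0 + 1
    · rw [if_pos h, if_pos (by rw [h]; ring), h]
    · rw [if_neg h, if_neg (fun h' => h (by rw [← h']; ring)), map_zero_phi', LY_zero]

theorem SolY.back {j0 : ZMod f} {N : Mat k} (hN : MGE N 0)
    (h : SolY p a P M (sg (j0 + 1) (LY a P M (j0 + 1) (N.map (phi k p))))) :
    SolY p a P M (sg j0 N) := by
  have h1 := (SolY.step (p := p) (a := a) (P := P) (M := M) (j0 := j0) hN).add h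
  rwa [sub_add_cancel] at h1

/-- the constants on the right -/
theorem SolY.dir {j0 : ZMod f} (h : OutY P j0) (ζ : Matrix (Fin 2) (Fin 2) k) :
    SolY p a P M (sg j0 (LY a P M j0 (ζ.map HahnSeries.C))) := by
  refine ⟨0, fun j => if j = j0 then ζ else 0, fun _ => MGE.zero' 0, fun j hj => ?_, fun j => ?_⟩
  · show (if j = j0 then ζ else 0) = 0
    rw [if_neg]
    rintro rfl
    exact hj h
  · show (if j = j0 then _ else 0) = (0 : Mat k) - LY a P M j ((0 : Mat k).map (phi k p) -
      (if j = j0 then ζ else 0).map HahnSeries.C)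
    rw [map_zero_phi', zero_sub, zero_sub, LY_neg, neg_neg]
    by_cases h1 : j = j0
    · rw [if_pos h1, if_pos h1, h1]
    · rw [if_neg h1, if_neg h1, const_zero, LY_zero]

/-- contraction: level two -/
theorem contract_Y (hp : 3 ≤ p) (ha : ∀ j, a j ≤ p) (y : ZMod f → Mat k) (hy : ∀ j, MGE (y j) 2) :
    ∃ c : ZMod f → Mat k, (∀ j, MGE (c j) 2) ∧
      ∀ j, y j = c j - LY a P M j ((c (j - 1)).map (phi k p)) := by
  let W : Type := ZMod f × (Fin 2 × Fin 2)
  let up : (W → LaurentSeries k) → ZMod f → Mat k := fun X j r s => X (j, (r, s))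
  have hup : ∀ X Y j, up (X + Y) j = up X j + up Y j := fun X Y j => rfl
  let Θ : (W → LaurentSeries k) →+ (W → LaurentSeries k) :=
    { toFun := fun X w => LY a P M w.1 ((up X (w.1 - 1)).map (phi k p)) w.2.1 w.2.2
      map_zero' := by
        funext w
        have e : up 0 (w.1 - 1) = 0 := rfl
        show LY a P M w.1 ((up 0 (w.1 - 1)).map (phi k p)) w.2.1 w.2.2 = 0
        rw [e, map_zero_phi', LY_zero]
        rfl
      map_add' := by
        intro X Y
        funext w
        show LY a P M w.1 ((up (X + Y) (w.1 - 1)).map (phi k p)) w.2.1 w.2.2 = _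
        rw [hup, map_add_phi, LY_add]
        rfl }
  have hΘ : ∀ (X : W → LaurentSeries k) (n : ℤ), 2 ≤ n → (∀ w, GE (X w) n) →
      ∀ w, GE (Θ X w) (n + 1) := by
    intro X n hn hX w
    have h1 : MGE (up X (w.1 - 1)) n := fun r s => hX (w.1 - 1, (r, s))
    have h2 := LY_MGE (P := P) (M := M) ha w.1 (phi_MGE (p := p) h1) w.2.1 w.2.2
    have hp' : (3 : ℤ) ≤ p := by exact_mod_cast hp
    refine h2.mono ?_
    nlinarith
  obtain ⟨C, hC, hC1⟩ := exists_fixed Θ 2 hΘ (fun w => y w.1 w.2.1 w.2.2)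
    (fun w => hy w.1 w.2.1 w.2.2)
  refine ⟨up C, fun j r s => hC (j, (r, s)), fun j => ?_⟩
  refine Matrix.ext fun r s => ?_
  have h1 := congrFun hC1 (j, (r, s))
  exact h1.symm

theorem SolY.two (hp : 3 ≤ p) (ha : ∀ j, a j ≤ p) {y : ZMod f → Mat k}
    (hy : ∀ j, MGE (y j) 2) : SolY p a P M y := by
  obtain ⟨c, hc, h⟩ := contract_Y (P := P) (M := M) hp ha y hy
  refine ⟨c, 0, fun j => (hc j).mono (by omega), fun _ _ => rfl, fun j => ?_⟩
  show y j = c j - LY a P M j ((c (j - 1)).map (phi k p) -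
    (0 : Matrix (Fin 2) (Fin 2) k).map HahnSeries.C)
  rw [const_zero, sub_zero]
  exact h j

theorem SolY.two_sg (hp : 3 ≤ p) (ha : ∀ j, a j ≤ p) (j0 : ZMod f) {N : Mat k}
    (hN : MGE N 2) : SolY p a P M (sg j0 N) := by
  refine SolY.two hp ha fun j => ?_
  show MGE (if j = j0 then N else 0) 2
  split_ifs
  · exact hN
  · exact MGE.zero' 2

/-- constants -/
theorem SolY.const [NeZero f] (hout : ∃ j, OutY P j) (j0 : ZMod f)
    (ζ : Matrix (Fin 2) (Fin 2) k) : SolY p a P M (sg j0 (ζ.map HahnSeries.C)) := by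
  obtain ⟨jo, hjo⟩ := hout
  have key : ∀ (n : ℕ) (j0 : ZMod f), j0 + 1 + n = jo →
      SolY p a P M (sg j0 (ζ.map HahnSeries.C)) := by
    intro n
    induction n with
    | zero =>
      intro j0 h
      rw [Nat.cast_zero, add_zero] at h
      refine SolY.back (const_MGE ζ) ?_
      rw [const_phi]
      exact SolY.dir (by rw [h]; exact hjo) ζ
    | succ n ih =>
      intro j0 h
      refine SolY.back (const_MGE ζ) ?_
      rw [const_phi]
      by_cases h1 : OutY P (j0 + 1)
      · exact SolY.dir h1 ζ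
      · rw [LY_in h1]
        refine ih (j0 + 1) ?_
        rw [← h]
        push_cast
        ring
  refine key (jo - (j0 + 1)).val j0 ?_
  rw [ZMod.natCast_val, ZMod.cast_id', id_eq, add_sub_cancel]

/-! ### level one -/

/-- the matrix `X e₂₁ X⁻¹` -/
noncomputable def GY (M : KisinModule f k) (j : ZMod f) : Mat k :=
  gx (M.X j) * !![0, 0; 1, 0] * gx (M.X j)⁻¹

/-- the entry of `Z y Z⁻¹` -/
def lY (M : KisinModule f k) (j : ZMod f) (y : Matrix (Fin 2) (Fin 2) k) : k :=
  ((M.Z j).1 * y * ((M.Z j)⁻¹).1) 1 0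

theorem MGE.add3 {X Y : Mat k} {n : ℤ} (hX : MGE X n) (hY : MGE Y n) : MGE (X + Y) n :=
  hX.add' hY

theorem MGE_smul {x : LaurentSeries k} {X : Mat k} {m n : ℤ} (hx : GE x m) (hX : MGE X n) :
    MGE (x • X) (m + n) := fun r s => (hx.mul (hX r s)).1

theorem GE_un (n : ℤ) : GE (un n : LaurentSeries k) n := by
  intro v hv
  rw [coeff_single_of_ne (by omega)]

theorem GE_C (c : k) : GE (HahnSeries.C c : LaurentSeries k) 0 := by
  intro v hv
  rw [HahnSeries.C_apply, coeff_single_of_ne (by omega)]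

theorem MGE_GY (j : ZMod f) : MGE (GY M j) 0 := by
  unfold GY
  have h1 : MGE (!![0, 0; 1, 0] : Mat k) 0 :=
    MGE_mk (GE.zero _) (GE.zero _) (fun v hv => by
      rw [← HahnSeries.single_zero_one, coeff_single_of_ne (by omega)]) (GE.zero _)
  exact (((gx_MGE (M.X j)).mul h1).1.mul (gx_MGE (M.X j)⁻¹)).1.mono (by omega)

theorem const_sub_lead {G : Mat k} (hG : MGE G 0) :
    MGE (G - (lead G 0).map HahnSeries.C) 1 := by
  intro r s v hv
  show (G r s - HahnSeries.C ((G r s).coeff 0)).coeff v = 0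
  rw [coeff_sub, HahnSeries.C_apply]
  rcases lt_or_ge v 0 with h | h
  · rw [hG r s v h, coeff_single_of_ne (by omega), sub_zero]
  · rw [show v = 0 by omega, coeff_single_same, sub_self]

theorem const_sub_lead' {G : Mat k} (hG : MGE G 0) :
    MGE (G - (lead G 0).map HahnSeries.C -
      (un 1 : LaurentSeries k) • (lead G 1).map HahnSeries.C) 2 := by
  intro r s v hv
  show (G r s - HahnSeries.C ((G r s).coeff 0) - un 1 * HahnSeries.C ((G r s).coeff 1)).coeff v = 0
  rw [coeff_sub, coeff_sub, HahnSeries.C_apply, HahnSeries.C_apply, un_mul_single, add_zero]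
  rcases lt_trichotomy v 0 with h | h | h
  · rw [hG r s v h, coeff_single_of_ne (by omega), coeff_single_of_ne (by omega), sub_zero,
      sub_zero]
  · rw [h, coeff_single_same, coeff_single_of_ne (by omega), sub_self, sub_zero]
  · rw [show v = 1 by omega, coeff_single_same, coeff_single_of_ne (by omega), sub_zero, sub_self]

theorem gz_conj (Z : GL (Fin 2) k) (y : Matrix (Fin 2) (Fin 2) k) :
    gz Z * y.map HahnSeries.C * gz Z⁻¹ = (Z.1 * y * (Z⁻¹).1).map HahnSeries.C := by
  unfold gz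
  rw [Matrix.map_mul, Matrix.map_mul]

theorem LY_level {j : ZMod f} (h : OutY P j) (y : Matrix (Fin 2) (Fin 2) k) :
    MGE (LY a P M j ((un p : LaurentSeries k) • y.map HahnSeries.C) -
      (HahnSeries.C (lY M j y) : LaurentSeries k) • ((un (p - a j) : LaurentSeries k) •
        GY M j)) p := by
  have hp0 : (0 : ℤ) ≤ p := by positivity
  obtain ⟨y', hy'⟩ : ∃ y', y' = (M.Z j).1 * y * ((M.Z j)⁻¹).1 := ⟨_, rfl⟩
  have hl : lY M j y = y' 1 0 := by rw [hy']; rfl
  have e1 : gz (M.Z j) * ((un p : LaurentSeries k) • y.map HahnSeries.C) * gz (M.Z j)⁻¹ =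
      (un p : LaurentSeries k) • y'.map HahnSeries.C := by
    rw [Matrix.mul_smul, Matrix.smul_mul, gz_conj, hy']
  have e2 : cdu (a j) ((un p : LaurentSeries k) • y'.map HahnSeries.C) =
      (HahnSeries.C (y' 1 0) : LaurentSeries k) • ((un (p - a j) : LaurentSeries k) •
        !![0, 0; 1, 0]) + !![un p * HahnSeries.C (y' 0 0), un (a j) * (un p *
          HahnSeries.C (y' 0 1)); 0, un p * HahnSeries.C (y' 1 1)] := by
    have e3 : (un (-(a j : ℤ)) : LaurentSeries k) * un p = un (p - a j) := by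
      rw [un_mul]; congr 1; ring
    unfold cdu
    refine Matrix.ext fun r s => ?_
    rw [Matrix.add_apply, Matrix.smul_apply, Matrix.smul_apply, smul_eq_mul, smul_eq_mul]
    fin_cases r <;> fin_cases s
    · show un p * HahnSeries.C (y' 0 0) = HahnSeries.C (y' 1 0) * (un (p - a j) * 0) +
        un p * HahnSeries.C (y' 0 0)
      ring
    · show un (a j) * (un p * HahnSeries.C (y' 0 1)) = HahnSeries.C (y' 1 0) * (un (p - a j) * 0) +
        un (a j) * (un p * HahnSeries.C (y' 0 1))
      ring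
    · show un (-(a j : ℤ)) * (un p * HahnSeries.C (y' 1 0)) = HahnSeries.C (y' 1 0) *
        (un (p - a j) * 1) + 0
      rw [← e3]
      ring
    · show un p * HahnSeries.C (y' 1 1) = HahnSeries.C (y' 1 0) * (un (p - a j) * 0) +
        un p * HahnSeries.C (y' 1 1)
      ring
  have e3 : LY a P M j ((un p : LaurentSeries k) • y.map HahnSeries.C) -
      (HahnSeries.C (lY M j y) : LaurentSeries k) • ((un (p - a j) : LaurentSeries k) •
        GY M j) = gx (M.X j) * !![un p * HahnSeries.C (y' 0 0), un (a j) * (un p *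
          HahnSeries.C (y' 0 1)); 0, un p * HahnSeries.C (y' 1 1)] * gx (M.X j)⁻¹ := by
    rw [LY_out h, e1, e2, Matrix.mul_add, Matrix.add_mul, hl]
    unfold GY
    rw [Matrix.mul_smul, Matrix.mul_smul, Matrix.smul_mul, Matrix.smul_mul, add_sub_cancel_left]
  rw [e3]
  have h1 : MGE (!![un p * HahnSeries.C (y' 0 0), un (a j) * (un p *
          HahnSeries.C (y' 0 1)); 0, un p * HahnSeries.C (y' 1 1)] : Mat k) p := by
    refine MGE_mk ((GE_C _).un_mul p |>.mono (by omega))
      (((GE_C _).un_mul p).un_mul (a j) |>.mono (by omega)) (GE.zero _)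
      ((GE_C _).un_mul p |>.mono (by omega))
  exact (((gx_MGE (M.X j)).mul h1).1.mul (gx_MGE (M.X j)⁻¹)).1.mono (by omega)

end

section
variable {k : Type u} [Field k] {p : ℕ} [Fact p.Prime] {f : ℕ} [NeZero f] {a : ZMod f → ℕ}
  {P : ZMod f → Bool} {M : KisinModule f k}

/-- the coefficients of `X e₂₁ X⁻¹` at a position with `Y₁₁ = 0` -/
theorem lY_lead (j : ZMod f) (hY : M.Y j 1 1 = 0) (n : ℤ) (hn : n < 2) :
    lY M (j + 1) (lead (GY M j) n) = 0 := by
  obtain ⟨V, hV⟩ : ∃ V : Mat k, V = gz (M.Z (j + 1)) * gx (M.X j) := ⟨_, rfl⟩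
  obtain ⟨W, hW⟩ : ∃ W : Mat k, W = gx (M.X j)⁻¹ * gz (M.Z (j + 1))⁻¹ := ⟨_, rfl⟩
  have hVm := (gz_MGE (M.Z (j + 1))).mul (gx_MGE (M.X j))
  have hWm := (gx_MGE (M.X j)⁻¹).mul (gz_MGE (M.Z (j + 1))⁻¹)
  rw [← hV, add_zero, lead_gz, lead_gx] at hVm
  rw [← hW, add_zero] at hWm
  have hVY : lead V 0 = M.Y j := hVm.2
  have hVW : V * W = 1 := by
    rw [hV, hW]
    calc gz (M.Z (j + 1)) * gx (M.X j) * (gx (M.X j)⁻¹ * gz (M.Z (j + 1))⁻¹) =
        gz (M.Z (j + 1)) * (gx (M.X j) * gx (M.X j)⁻¹) * gz (M.Z (j + 1))⁻¹ := by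
          simp only [Matrix.mul_assoc]
      _ = 1 := by rw [gx_mul_inv, Matrix.mul_one, gz_mul_inv]
  have hlead : lead V 0 * lead W 0 = 1 := by
    have h1 := (hVm.1.mul hWm.1).2
    rw [add_zero, hVW] at h1
    rw [← h1]
    refine Matrix.ext fun r s => ?_
    show ((1 : Mat k) r s).coeff 0 = _
    rw [Matrix.one_apply, Matrix.one_apply]
    split_ifs
    · rw [coeff_one, if_pos rfl]
    · rfl
  have hlead' : lead W 0 * lead V 0 = 1 := mul_eq_one_comm.1 hlead
  have h11 : lead V 0 1 1 = 0 := by rw [hVY]; exact hY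
  have hdet : (lead V 0).det ≠ 0 := by
    have h1 := congrArg Matrix.det hlead
    rw [Matrix.det_mul, Matrix.det_one] at h1
    exact left_ne_zero_of_mul_eq_one h1
  rw [Matrix.det_fin_two, h11, mul_zero, zero_sub, neg_ne_zero] at hdet
  have h01 : lead V 0 0 1 ≠ 0 := left_ne_zero_of_mul hdet
  have hW00 : lead W 0 0 0 = 0 := by
    have h1 := congrFun (congrFun hlead' 0) 1
    rw [Matrix.mul_apply, Fin.sum_univ_two, h11, mul_zero, add_zero,
      Matrix.one_apply_ne (by decide)] at h1
    exact (mul_eq_zero.1 h1).resolve_right h01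
  have g1 : ∀ x : LaurentSeries k, GE x 0 → x.coeff 0 = 0 → GE x 1 := by
    intro x hx h0 v hv
    rcases lt_or_ge v 0 with h | h
    · exact hx v h
    · rw [show v = 0 by omega]
      exact h0
  have hprod : GE (V 1 1 * W 0 0) (1 + 1) :=
    ((g1 _ (hVm.1 1 1) h11).mul (g1 _ (hWm.1 0 0) hW00)).1
  have hentry : (gz (M.Z (j + 1)) * GY M j * gz (M.Z (j + 1))⁻¹) 1 0 = V 1 1 * W 0 0 := by
    have e1 : gz (M.Z (j + 1)) * GY M j * gz (M.Z (j + 1))⁻¹ = V * !![0, 0; 1, 0] * W := by
      rw [hV, hW]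
      unfold GY
      simp only [Matrix.mul_assoc]
    rw [e1, Matrix.mul_apply, Fin.sum_univ_two, Matrix.mul_apply, Matrix.mul_apply,
      Fin.sum_univ_two, Fin.sum_univ_two]
    show (V 1 0 * 0 + V 1 1 * 1) * W 0 0 + (V 1 0 * 0 + V 1 1 * 0) * W 1 0 = _
    ring
  have hcoef : ((gz (M.Z (j + 1)) * GY M j * gz (M.Z (j + 1))⁻¹) 1 0).coeff n =
      lY M (j + 1) (lead (GY M j) n) := by
    have h1 : ∀ (c : k) (x : LaurentSeries k), (HahnSeries.C c * x).coeff n = c * x.coeff n := by
      intro c x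
      rw [HahnSeries.C_mul_eq_smul]
      rfl
    have h2 : ∀ (c : k) (x : LaurentSeries k), (x * HahnSeries.C c).coeff n = x.coeff n * c := by
      intro c x
      rw [mul_comm, h1, mul_comm]
    have h3 : ∀ (Z : GL (Fin 2) k) (r s : Fin 2), gz Z r s = HahnSeries.C (Z.1 r s) :=
      fun Z r s => rfl
    unfold lY
    simp only [Matrix.mul_apply, Fin.sum_univ_two, h3, coeff_add, h2, h1]
    rfl
  rw [← hcoef, hentry]
  exact hprod n (by omega)

theorem exists_FY (hp : 3 ≤ p) (ha : ∀ j, 1 ≤ a j ∧ a j ≤ p) (hout : ∃ j, OutY P j)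
    (j : ZMod f) : ∃ F : Matrix (Fin 2) (Fin 2) k,
      (∀ y : Matrix (Fin 2) (Fin 2) k, SolY p a P M (sg j
        (LY a P M j ((un p : LaurentSeries k) • y.map HahnSeries.C) -
          (HahnSeries.C (lY M j y) : LaurentSeries k) •
            ((un 1 : LaurentSeries k) • F.map HahnSeries.C)))) ∧
      ((¬ OutY P j ∨ M.Y j 1 1 = 0) → lY M (j + 1) F = 0) := by
  have ha2 : ∀ j, a j ≤ p := fun j => (ha j).2
  have hp' : (3 : ℤ) ≤ p := by exact_mod_cast hp
  have hl0 : lY M (j + 1) 0 = 0 := by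
    unfold lY
    rw [Matrix.mul_zero, Matrix.zero_mul]
    rfl
  by_cases h : OutY P j
  · have hlev := fun y => LY_level (p := p) (a := a) (M := M) h y
    by_cases h1 : a j + 2 ≤ p
    · refine ⟨0, fun y => ?_, fun _ => hl0⟩
      refine SolY.two_sg hp ha2 j ?_
      rw [const_zero, smul_zero, smul_zero, sub_zero]
      have h2 := ((hlev y).mono (show (2 : ℤ) ≤ p by omega)).add' (((MGE_smul (GE_C (lY M j y))
        (MGE_smul (GE_un (p - a j)) (MGE_GY (M := M) j))).mono (show (2 : ℤ) ≤ 0 + (p - a j + 0) by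
          omega)))
      rwa [sub_add_cancel] at h2
    · by_cases h2 : a j = p
      · refine ⟨lead (GY M j) 1, fun y => ?_, fun h3 => ?_⟩
        · have e1 : LY a P M j ((un p : LaurentSeries k) • y.map HahnSeries.C) -
              (HahnSeries.C (lY M j y) : LaurentSeries k) •
              ((un 1 : LaurentSeries k) • (lead (GY M j) 1).map HahnSeries.C) =
              ((LY a P M j ((un p : LaurentSeries k) • y.map HahnSeries.C) -
                (HahnSeries.C (lY M j y) : LaurentSeries k) • ((un (p - a j) : LaurentSeries k) •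
                  GY M j)) + (HahnSeries.C (lY M j y) : LaurentSeries k) • (GY M j -
                    (lead (GY M j) 0).map HahnSeries.C -
                      (un 1 : LaurentSeries k) • (lead (GY M j) 1).map HahnSeries.C)) +
              ((lY M j y) • lead (GY M j) 0).map HahnSeries.C := by
            rw [h2, sub_self, un_zero, one_smul, const_smul, smul_sub, smul_sub]
            abel
          rw [e1, sg_add]
          refine SolY.add (SolY.two_sg hp ha2 j ?_) (SolY.const hout j _)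
          exact ((hlev y).mono (by omega)).add' ((MGE_smul (GE_C (lY M j y))
            (const_sub_lead' (MGE_GY (M := M) j))).mono (by omega))
        · rcases h3 with h3 | h3
          · exact absurd h h3
          · exact lY_lead j h3 1 (by omega)
      · have h4 : a j + 1 = p := by
          have := ha2 j
          omega
        have h5 : (p : ℤ) - a j = 1 := by omega
        refine ⟨lead (GY M j) 0, fun y => ?_, fun h3 => ?_⟩
        · have e1 : LY a P M j ((un p : LaurentSeries k) • y.map HahnSeries.C) -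
              (HahnSeries.C (lY M j y) : LaurentSeries k) •
              ((un 1 : LaurentSeries k) • (lead (GY M j) 0).map HahnSeries.C) =
              (LY a P M j ((un p : LaurentSeries k) • y.map HahnSeries.C) -
                (HahnSeries.C (lY M j y) : LaurentSeries k) • ((un (p - a j) : LaurentSeries k) •
                  GY M j)) + (HahnSeries.C (lY M j y) : LaurentSeries k) •
                    ((un 1 : LaurentSeries k) • (GY M j -
                    (lead (GY M j) 0).map HahnSeries.C)) := by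
            rw [h5, smul_sub, smul_sub]
            abel
          rw [e1]
          refine SolY.two_sg hp ha2 j ?_
          exact ((hlev y).mono (by omega)).add' ((MGE_smul (GE_C (lY M j y))
            (MGE_smul (GE_un 1) (const_sub_lead (MGE_GY (M := M) j)))).mono (by omega))
        · rcases h3 with h3 | h3
          · exact absurd h h3
          · exact lY_lead j h3 0 (by omega)
  · refine ⟨0, fun y => ?_, fun _ => hl0⟩
    refine SolY.two_sg hp ha2 j ?_
    rw [const_zero, smul_zero, smul_zero, sub_zero, LY_in h]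
    exact (MGE_smul (GE_un p) (const_MGE y)).mono (by omega)

theorem SolY.one_sg (hp : 3 ≤ p) (ha : ∀ j, 1 ≤ a j ∧ a j ≤ p) (hout : ∃ j, OutY P j)
    (hstop : ∃ j, ¬ OutY P j ∨ M.Y j 1 1 = 0) (j0 : ZMod f) (y : Matrix (Fin 2) (Fin 2) k) :
    SolY p a P M (sg j0 ((un 1 : LaurentSeries k) • y.map HahnSeries.C)) := by
  choose F hF hF0 using fun j => exists_FY (M := M) hp ha hout j
  have hstep : ∀ (j : ZMod f) (y : Matrix (Fin 2) (Fin 2) k),
      SolY p a P M (sg (j + 1) ((HahnSeries.C (lY M (j + 1) y) : LaurentSeries k) •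
        ((un 1 : LaurentSeries k) • (F (j + 1)).map HahnSeries.C))) →
      SolY p a P M (sg j ((un 1 : LaurentSeries k) • y.map HahnSeries.C)) := by
    intro j y h
    refine SolY.back ((MGE_smul (GE_un 1) (const_MGE y)).mono (by omega)) ?_
    have e1 : ((un 1 : LaurentSeries k) • y.map HahnSeries.C).map (phi k p) =
        (un p : LaurentSeries k) • y.map HahnSeries.C := by
      refine Matrix.ext fun r s => ?_
      show phi k p (un 1 * HahnSeries.C (y r s)) = un p * HahnSeries.C (y r s)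
      have e2 : phi k p (un 1 : LaurentSeries k) = un p := by
        show phi k p (single 1 1) = single (p : ℤ) 1
        rw [phi_single, mul_one]
      rw [map_mul, phi_C, e2]
    rw [e1]
    have h1 := (hF (j + 1) y).add h
    rwa [← sg_add, sub_add_cancel] at h1
  obtain ⟨js, hjs⟩ := hstop
  have hall : ∀ (n : ℕ) (j : ZMod f), j + n = js →
      SolY p a P M (sg j ((un 1 : LaurentSeries k) • (F j).map HahnSeries.C)) := by
    intro n
    induction n with
    | zero =>
      intro j h
      rw [Nat.cast_zero, add_zero] at h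
      refine hstep j (F j) ?_
      rw [hF0 j (by rw [h]; exact hjs), map_zero, zero_smul]
      refine SolY.two_sg hp (fun j => (ha j).2) _ (MGE.zero' 2)
    | succ n ih =>
      intro j h
      refine hstep j (F j) ?_
      rw [sg_smul]
      refine (ih (j + 1) ?_).smul _
      rw [← h]
      push_cast
      ring
  refine hstep j0 y ?_
  rw [sg_smul]
  refine (hall (js - (j0 + 1)).val (j0 + 1) ?_).smul _
  rw [ZMod.natCast_val, ZMod.cast_id', id_eq, add_sub_cancel]

/-- every integral family is a coboundary of an integral family, up to constants on the right -/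
theorem solY_all (hp : 3 ≤ p) (ha : ∀ j, 1 ≤ a j ∧ a j ≤ p) (hout : ∃ j, OutY P j)
    (hstop : ∃ j, ¬ OutY P j ∨ M.Y j 1 1 = 0) (y : ZMod f → Mat k) (hy : ∀ j, MGE (y j) 0) :
    SolY p a P M y := by
  have e : y = ∑ j, sg j (y j) := by
    funext j
    rw [Finset.sum_apply, Finset.sum_eq_single j]
    · show y j = if j = j then y j else 0
      rw [if_pos rfl]
    · intro j' _ hj
      show (if j = j' then y j' else 0) = 0
      rw [if_neg hj.symm]
    · intro h
      exact absurd (Finset.mem_univ j) h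
  rw [e]
  refine SolY.sum _ fun j _ => ?_
  have e1 : y j = (y j - (lead (y j) 0).map HahnSeries.C -
      (un 1 : LaurentSeries k) • (lead (y j) 1).map HahnSeries.C) +
      ((lead (y j) 0).map HahnSeries.C +
        (un 1 : LaurentSeries k) • (lead (y j) 1).map HahnSeries.C) := by abel
  rw [e1, sg_add, sg_add]
  exact (SolY.two_sg hp (fun j => (ha j).2) j (const_sub_lead' (hy j))).add
    ((SolY.const hout j _).add (SolY.one_sg hp ha hout hstop j _))

end

end Pool.Agent.Lib.MP_74d0c9_nt
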