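import Pool.Agent.Lib.MP_74d0c9_nt.YAct
import Pool.Agent.Lib.MP_74d0c9_nt.XK0
import Pool.Agent.Lib.MP_74d0c9_nt.XK2

/-! The lattices at the positions of a word, step by step. -/

set_option autoImplicit false

namespace Pool.Agent.Lib.MP_74d0c9_nt

open HahnSeries

universe u

section
variable {k : Type u} [Field k]

/-- the constant terms -/
noncomputable def cg (U : GL (Fin 2) (PowerSeries k)) : GL (Fin 2) k :=
  Matrix.GeneralLinearGroup.map (PowerSeries.constantCoeff (R := k)) U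

theorem cg_coeff (U : GL (Fin 2) (PowerSeries k)) (r s : Fin 2) :
    (cg U).1 r s = (gx U r s).coeff 0 := (coeff_ps_zero (U.1 r s)).symm

theorem cg_mul (U V : GL (Fin 2) (PowerSeries k)) : cg (U * V) = cg U * cg V := map_mul _ _ _

theorem cg_inv (U : GL (Fin 2) (PowerSeries k)) : cg U⁻¹ = (cg U)⁻¹ := map_inv _ _

variable {p : ℕ} [Fact p.Prime]

theorem phi_cg_coeff (U : GL (Fin 2) (PowerSeries k)) (r s : Fin 2) {v : ℤ} (hv : v < p) :
    ((gx U).map (phi k p) r s).coeff v = (HahnSeries.C ((cg U).1 r s) : LaurentSeries k).coeff v := by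
  rw [Matrix.map_apply, HahnSeries.C_apply]
  have hp : (0 : ℤ) < p := by exact_mod_cast (Fact.out : p.Prime).pos
  by_cases hd : (p : ℤ) ∣ v
  · obtain ⟨n, rfl⟩ := hd
    rw [phi_coeff]
    rcases lt_trichotomy n 0 with h | h | h
    · rw [coeff_single_of_ne (by nlinarith), gx_MGE U r s n h]
    · rw [h, mul_zero, coeff_single_same, cg_coeff]
    · have : (p : ℤ) * 1 ≤ p * n := mul_le_mul_of_nonneg_left (by omega) hp.le
      omega
  · rw [phi_coeff_zero p _ hd, coeff_single_of_ne]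
    rintro rfl
    exact hd (dvd_zero _)

/-- `φ(U) Z` is constant modulo `u ^ p` -/
theorem phi_cg (U : GL (Fin 2) (PowerSeries k)) (Z : GL (Fin 2) k) (r s : Fin 2) {v : ℤ}
    (hv : v < p) :
    (((gx U).map (phi k p) * gz Z) r s).coeff v =
      (HahnSeries.C ((cg U * Z).1 r s) : LaurentSeries k).coeff v := by
  have e : (HahnSeries.C ((cg U * Z).1 r s) : LaurentSeries k) =
      ∑ t, HahnSeries.C ((cg U).1 r t) * HahnSeries.C (Z.1 t s) := by
    rw [Units.val_mul, Matrix.mul_apply, map_sum]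
    exact Finset.sum_congr rfl fun t _ => map_mul _ _ _
  rw [e, Matrix.mul_apply, coeff_sum', coeff_sum']
  refine Finset.sum_congr rfl fun t _ => ?_
  have h1 : gz Z t s = HahnSeries.C (Z.1 t s) := rfl
  have h2 : ∀ x : LaurentSeries k, (x * HahnSeries.C (Z.1 t s)).coeff v =
      x.coeff v * Z.1 t s := by
    intro x
    rw [mul_comm, HahnSeries.C_mul_eq_smul, coeff_smul, smul_eq_mul, mul_comm]
  rw [h1, h2, h2, phi_cg_coeff U r t hv]

theorem phi_cg_MGE (U : GL (Fin 2) (PowerSeries k)) (Z : GL (Fin 2) k) :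
    MGE ((gx U).map (phi k p) * gz Z) 0 := by
  intro r s v hv
  have hp : (0 : ℤ) < p := by exact_mod_cast (Fact.out : p.Prime).pos
  rw [phi_cg U Z r s (by omega), HahnSeries.C_apply, coeff_single_of_ne (by omega)]

theorem phi_cg_zero (U : GL (Fin 2) (PowerSeries k)) (Z : GL (Fin 2) k) (r s : Fin 2) :
    (((gx U).map (phi k p) * gz Z) r s).coeff 0 = (cg U * Z).1 r s := by
  have hp : (0 : ℤ) < p := by exact_mod_cast (Fact.out : p.Prime).pos
  rw [phi_cg U Z r s hp, HahnSeries.C_apply, coeff_single_same]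

theorem phi_cg_GE {U : GL (Fin 2) (PowerSeries k)} {Z : GL (Fin 2) k} {r s : Fin 2}
    (h : (cg U * Z).1 r s = 0) : GE (((gx U).map (phi k p) * gz Z) r s) p := by
  intro v hv
  rw [phi_cg U Z r s hv, h, map_zero]
  rfl

theorem det_ne_zero' (Y : GL (Fin 2) k) : Y.1 0 0 * Y.1 1 1 - Y.1 0 1 * Y.1 1 0 ≠ 0 := by
  have h := ((Matrix.isUnit_iff_isUnit_det _).1 Y.isUnit).ne_zero
  rwa [Matrix.det_fin_two] at h

theorem mul00 {N Y : GL (Fin 2) k} (r s : Fin 2) :
    (N * Y⁻¹).1 r 0 * Y.1 0 s + (N * Y⁻¹).1 r 1 * Y.1 1 s = N.1 r s := by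
  have h : (N * Y⁻¹) * Y = N := inv_mul_cancel_right N Y
  have h1 : (N * Y⁻¹ * Y).1 r s = N.1 r s := by rw [h]
  rw [Units.val_mul, Matrix.mul_apply, Fin.sum_univ_two] at h1
  exact h1

theorem inv00 {Y : GL (Fin 2) k} (h : Y.1 1 1 = 0) : ((1 : GL (Fin 2) k) * Y⁻¹).1 0 0 = 0 := by
  have h1 := mul00 (N := 1) (Y := Y) 0 1
  have h2 := det_ne_zero' Y
  rw [h, mul_zero, add_zero] at h1
  rw [h, mul_zero, zero_sub] at h2
  have h3 : Y.1 0 1 ≠ 0 := fun h4 => h2 (by rw [h4, zero_mul, neg_zero])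
  have h4 : ((1 : GL (Fin 2) k).1 0 1) = 0 := rfl
  rw [h4] at h1
  exact (mul_eq_zero.1 h1).resolve_right h3

theorem mul_inv00 {N Y : GL (Fin 2) k} (hN : N.1 0 0 = 0) (h : Y.1 1 0 = 0) :
    (N * Y⁻¹).1 0 0 = 0 := by
  have h1 := mul00 (N := N) (Y := Y) 0 0
  have h2 := det_ne_zero' Y
  rw [h, mul_zero, add_zero, hN] at h1
  rw [h, mul_zero, sub_zero] at h2
  exact (mul_eq_zero.1 h1).resolve_right (left_ne_zero_of_mul h2)

/-- the start of a word -/
theorem start_stepY (hp : 2 ≤ p) (T : Mat k) (U X : GL (Fin 2) (PowerSeries k))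
    (Z : GL (Fin 2) k) (h : T * (gx X * du 1 * gz Z) = (gx U).map (phi k p)) :
    ∃ (Q : GL (Fin 2) k) (n : GL (Fin 2) (PowerSeries k)),
      T * gx X = gz Q * (tl (0 : k)).1 * gx n ∧ cg n = 1 := by
  obtain ⟨Q, hQ⟩ : ∃ Q : GL (Fin 2) k, Q = cg U * Z⁻¹ := ⟨_, rfl⟩
  have hQp : MGE ((gx U).map (phi k p) * gz Z⁻¹ - gz Q) p := by
    intro r s v hv
    rw [Matrix.sub_apply, coeff_sub, phi_cg U Z⁻¹ r s hv, hQ]
    exact sub_self _
  obtain ⟨V, hV⟩ : ∃ V : Mat k, V = gz Q⁻¹ * ((gx U).map (phi k p) * gz Z⁻¹ - gz Q) := ⟨_, rfl⟩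
  have hVp : MGE V 2 := by
    rw [hV]
    have h3 := ((gz_MGE Q⁻¹).mul hQp).1
    exact h3.mono (by omega)
  have hK : (gx U).map (phi k p) * gz Z⁻¹ = gz Q * (1 + V) := by
    rw [hV, Matrix.mul_add, Matrix.mul_one, ← Matrix.mul_assoc, gz_mul_inv, Matrix.one_mul]
    abel
  obtain ⟨G, hG⟩ : ∃ G : Mat k, G = !![1 + V 0 0, un 1 * V 0 1; un (-1) * V 1 0, 1 + V 1 1] :=
    ⟨_, rfl⟩
  have h1V : (1 + V : Mat k) = !![1 + V 0 0, V 0 1; V 1 0, 1 + V 1 1] := by
    rw [Matrix.one_fin_two]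
    refine Matrix.ext fun r s => ?_
    rw [Matrix.add_apply]
    fin_cases r <;> fin_cases s
    · rfl
    · exact zero_add _
    · exact zero_add _
    · rfl
  have hGd : (1 + V) * !![un (-1), 0; 0, 1] = (tl (0 : k)).1 * G := by
    rw [h1V, hG, tl0_eq, Matrix.mul_fin_two, Matrix.mul_fin_two]
    apply mat2_congr
    · ring
    · linear_combination -(V 0 1) * un_neg_mul (k := k) 1
    · ring
    · ring
  have hGi : Integral G := by
    rw [hG]
    exact MGE_mk (GE_one'.add ((hVp 0 0).mono (by omega))) (((hVp 0 1).un_mul 1).mono (by omega))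
      (((hVp 1 0).un_mul (-1)).mono (by omega)) (GE_one'.add ((hVp 1 1).mono (by omega)))
  have hdet : IsUnit (G.det.coeff 0) := by
    have e2 : G.det = 1 + (V 0 0 + V 1 1 + (V 0 0 * V 1 1 - V 0 1 * V 1 0)) := by
      rw [hG, Matrix.det_fin_two_of]
      linear_combination -(V 0 1) * (V 1 0) * un_mul_neg (k := k) 1
    have e3 : GE (V 0 0 + V 1 1 + (V 0 0 * V 1 1 - V 0 1 * V 1 0)) 1 := by
      have e4 := ((hVp 0 0).mul (hVp 1 1)).1
      have e5 := ((hVp 0 1).mul (hVp 1 0)).1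
      intro v hv
      rw [coeff_add, coeff_add, coeff_sub, hVp 0 0 v (by omega), hVp 1 1 v (by omega),
        e4 v (by omega), e5 v (by omega)]
      simp
    rw [e2, coeff_add, e3 0 (by omega), add_zero, ← HahnSeries.single_zero_one,
      coeff_single_same]
    exact isUnit_one
  obtain ⟨n, hn⟩ := gx_of_integral hGi hdet
  have hdu : (du 1 : Mat k) * !![un (-1), 0; 0, 1] = 1 := by
    rw [du_two, Matrix.mul_fin_two, Matrix.one_fin_two]
    apply mat2_congr
    · linear_combination un_mul_neg (k := k) 1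
    · ring
    · ring
    · ring
  have e1 : T * gx X = (gx U).map (phi k p) * gz Z⁻¹ * !![un (-1), 0; 0, 1] := by
    rw [← h]
    calc T * gx X = T * gx X * (du 1 * (gz Z * gz Z⁻¹) * !![un (-1), 0; 0, 1]) := by
          rw [gz_mul_inv, Matrix.mul_one, hdu, Matrix.mul_one]
      _ = _ := by simp only [Matrix.mul_assoc]
  refine ⟨Q, n, ?_, ?_⟩
  · rw [e1, hK, Matrix.mul_assoc (gz Q), hGd, hn, Matrix.mul_assoc]
  · apply Units.ext
    refine Matrix.ext fun r s => ?_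
    rw [cg_coeff, ← hn, hG]
    have one0 : (1 : LaurentSeries k).coeff 0 = 1 := by
      rw [← HahnSeries.single_zero_one, coeff_single_same]
    fin_cases r <;> fin_cases s
    · show (1 + V 0 0).coeff 0 = 1
      rw [coeff_add, one0, hVp 0 0 0 (by omega), add_zero]
    · show (un 1 * V 0 1).coeff 0 = 0
      exact (hVp 0 1).un_mul 1 0 (by omega)
    · show (un (-1) * V 1 0).coeff 0 = 0
      exact (hVp 1 0).un_mul (-1) 0 (by omega)
    · show (1 + V 1 1).coeff 0 = 1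
      rw [coeff_add, one0, hVp 1 1 0 (by omega), add_zero]

/-- inside a word -/
theorem in_step (b : ℤ) (T : Mat k) (U X : GL (Fin 2) (PowerSeries k)) (Z Q : GL (Fin 2) k)
    (h : T * (gx X * du b * gz Z) = !![un b, 0; 0, un b] *
      (gz Q * (tl (0 : k)).1 * gx U).map (phi k p)) {K : Mat k}
    (hK : K = (gx U).map (phi k p) * gz Z⁻¹) :
    T * gx X = gz Q * !![un (-p) * K 0 0, un (b - p) * K 0 1; K 1 0, un b * K 1 1] := by
  have hdu : (du b : Mat k) * !![un (-b), 0; 0, 1] = 1 := by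
    rw [du_two, Matrix.mul_fin_two, Matrix.one_fin_two]
    apply mat2_congr
    · linear_combination un_mul_neg (k := k) b
    · ring
    · ring
    · ring
  have e2 : T * gx X = T * (gx X * du b * gz Z) * gz Z⁻¹ * !![un (-b), 0; 0, 1] := by
    calc T * gx X = T * gx X * (du b * (gz Z * gz Z⁻¹) * !![un (-b), 0; 0, 1]) := by
          rw [gz_mul_inv, Matrix.mul_one, hdu, Matrix.mul_one]
      _ = _ := by simp only [Matrix.mul_assoc]
  have e3 : (gz Q * (tl (0 : k)).1 * gx U).map (phi k p) =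
      gz Q * (!![un (-p), 0; 0, 1] * (gx U).map (phi k p)) := by
    rw [Matrix.map_mul, Matrix.map_mul, phi_gz, tl0_phi, Matrix.mul_assoc]
  have e4 : (!![un b, 0; 0, un b] : Mat k) * (gz Q * (!![un (-p), 0; 0, 1] *
      (gx U).map (phi k p))) = gz Q * (!![un b, 0; 0, un b] *
        (!![un (-p), 0; 0, 1] * (gx U).map (phi k p))) := by
    have e5 : (!![un b, 0; 0, un b] : Mat k) = (un b : LaurentSeries k) • (1 : Mat k) := by
      rw [Matrix.one_fin_two]
      refine Matrix.ext fun r s => ?_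
      rw [Matrix.smul_apply, smul_eq_mul]
      fin_cases r <;> fin_cases s
      · exact (mul_one _).symm
      · exact (mul_zero _).symm
      · exact (mul_zero _).symm
      · exact (mul_one _).symm
    rw [e5, smul_mul', smul_mul', Matrix.one_mul, Matrix.one_mul, mul_smul']
  rw [e2, h, e3, e4]
  have e6 : gz Q * (!![un b, 0; 0, un b] * (!![un (-p), 0; 0, 1] *
      (gx U).map (phi k p))) * gz Z⁻¹ * !![un (-b), 0; 0, 1] =
      gz Q * (!![un b, 0; 0, un b] * (!![un (-p), 0; 0, 1] * (K * !![un (-b), 0; 0, 1]))) := by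
    rw [hK]
    simp only [Matrix.mul_assoc]
  have e9 : K * !![un (-b), 0; 0, 1] = !![K 0 0 * un (-b), K 0 1; K 1 0 * un (-b), K 1 1] := by
    conv_lhs => rw [mat_eta K]
    rw [Matrix.mul_fin_two]
    apply mat2_congr <;> ring
  rw [e6, e9]
  congr 1
  rw [Matrix.mul_fin_two, Matrix.mul_fin_two]
  have e7 := un_mul_neg (k := k) b
  have e8 : (un b : LaurentSeries k) * un (-p) = un (b - p) := by
    rw [un_mul]
    congr 1
  apply mat2_congr
  · linear_combination (un (-p) * K 0 0) * e7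
  · linear_combination (K 0 1) * e8
  · linear_combination (K 1 0) * e7
  · ring

/-- the determinant of a matrix with the entries of `K`, multiplied by powers of `u` -/
theorem det_twist {K : Mat k} {K0 : GL (Fin 2) k} (hKi : MGE K 0)
    (hKc : ∀ r s, (K r s).coeff 0 = K0.1 r s) (hK00 : GE (K 0 0) 1) {N : Mat k} {c d : ℤ}
    (hcd : c + d = 0) (hN : N = !![un c * K 0 0, K 0 1; K 1 0, un d * K 1 1]) :
    IsUnit (N.det.coeff 0) := by
  have h00 : K0.1 0 0 = 0 := by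
    rw [← hKc]
    exact hK00 0 (by omega)
  have e2 : N.det = un 0 * (K 0 0 * K 1 1) - K 0 1 * K 1 0 := by
    rw [hN, Matrix.det_fin_two_of]
    have e7 : (un c : LaurentSeries k) * un d = un 0 := by rw [un_mul, hcd]
    linear_combination (K 0 0 * K 1 1) * e7
  have e3 : (K 0 0 * K 1 1).coeff 0 = 0 := by
    have := (hK00.mul (hKi 1 1)).1
    exact this 0 (by omega)
  have e4 : (K 0 1 * K 1 0).coeff 0 = K0.1 0 1 * K0.1 1 0 := by
    have := ((hKi 0 1).mul (hKi 1 0)).2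
    rw [add_zero] at this
    rw [this, hKc, hKc]
  rw [e2, un_zero, one_mul, coeff_sub, e3, e4, zero_sub]
  have e5 : IsUnit K0.1.det := (Matrix.isUnit_iff_isUnit_det _).1 K0.isUnit
  rw [Matrix.det_fin_two, h00, zero_mul, zero_sub] at e5
  exact e5

/-- the middle of a word -/
theorem mid_stepY (hp : 2 ≤ p) (T : Mat k) (U X : GL (Fin 2) (PowerSeries k))
    (Z Q : GL (Fin 2) k)
    (h : T * (gx X * du (p - 1) * gz Z) = !![un (p - 1), 0; 0, un (p - 1)] *
      (gz Q * (tl (0 : k)).1 * gx U).map (phi k p))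
    (h00 : (cg U * Z⁻¹).1 0 0 = 0) :
    ∃ n : GL (Fin 2) (PowerSeries k),
      T * gx X = gz Q * (tl (0 : k)).1 * gx n ∧ (cg n).1 0 0 = 0 := by
  obtain ⟨K, hK⟩ : ∃ K : Mat k, K = (gx U).map (phi k p) * gz Z⁻¹ := ⟨_, rfl⟩
  have h1 := in_step (p - 1) T U X Z Q h hK
  have hKi : MGE K 0 := hK ▸ phi_cg_MGE U Z⁻¹
  have hKc : ∀ r s, (K r s).coeff 0 = (cg U * Z⁻¹).1 r s := fun r s =>
    hK ▸ phi_cg_zero U Z⁻¹ r s
  have hK00 : GE (K 0 0) p := hK ▸ phi_cg_GE h00
  obtain ⟨N, hN⟩ : ∃ N : Mat k, N = !![un (1 - p) * K 0 0, K 0 1; K 1 0, un (p - 1) * K 1 1] :=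
    ⟨_, rfl⟩
  have hNi : Integral N := by
    rw [hN]
    exact MGE_mk ((hK00.un_mul _).mono (by omega)) (hKi 0 1) (hKi 1 0)
      (((hKi 1 1).un_mul _).mono (by omega))
  have hdet : IsUnit (N.det.coeff 0) :=
    det_twist hKi hKc (hK00.mono (by omega)) (by ring) hN
  obtain ⟨n, hn⟩ := gx_of_integral hNi hdet
  refine ⟨n, ?_, ?_⟩
  · rw [h1, Matrix.mul_assoc, ← hn, hN, tl0_eq, Matrix.mul_fin_two]
    congr 1
    have e8 : (un (-1) : LaurentSeries k) * un (1 - p) = un (-p) := by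
      rw [un_mul]; congr 1; ring
    have e9 : ((p : ℤ) - 1 - p) = -1 := by ring
    rw [e9]
    apply mat2_congr
    · linear_combination -(K 0 0) * e8
    · ring
    · ring
    · ring
  · rw [cg_coeff, ← hn, hN]
    exact (hK00.un_mul (1 - p)) 0 (by omega)

/-- the end of a word -/
theorem stop_stepY (hp : 2 ≤ p) (T : Mat k) (U X : GL (Fin 2) (PowerSeries k))
    (Z Q : GL (Fin 2) k)
    (h : T * (gx X * du p * gz Z) = !![un p, 0; 0, un p] *
      (gz Q * (tl (0 : k)).1 * gx U).map (phi k p))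
    (h00 : (cg U * Z⁻¹).1 0 0 = 0) :
    ∃ n : GL (Fin 2) (PowerSeries k), T = gx n := by
  obtain ⟨K, hK⟩ : ∃ K : Mat k, K = (gx U).map (phi k p) * gz Z⁻¹ := ⟨_, rfl⟩
  have h1 := in_step (p : ℤ) T U X Z Q h hK
  have hKi : MGE K 0 := hK ▸ phi_cg_MGE U Z⁻¹
  have hKc : ∀ r s, (K r s).coeff 0 = (cg U * Z⁻¹).1 r s := fun r s =>
    hK ▸ phi_cg_zero U Z⁻¹ r s
  have hK00 : GE (K 0 0) p := hK ▸ phi_cg_GE h00
  obtain ⟨N, hN⟩ : ∃ N : Mat k, N = !![un (-p) * K 0 0, K 0 1; K 1 0, un p * K 1 1] :=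
    ⟨_, rfl⟩
  have hNi : Integral N := by
    rw [hN]
    exact MGE_mk ((hK00.un_mul _).mono (by omega)) (hKi 0 1) (hKi 1 0)
      (((hKi 1 1).un_mul _).mono (by omega))
  have hdet : IsUnit (N.det.coeff 0) :=
    det_twist hKi hKc (hK00.mono (by omega)) (by ring) hN
  obtain ⟨n, hn⟩ := gx_of_integral hNi hdet
  obtain ⟨q, hq⟩ : ∃ q : GL (Fin 2) (PowerSeries k),
      q = Matrix.GeneralLinearGroup.map PowerSeries.C Q := ⟨_, rfl⟩
  have hqz : gx q = gz Q := by
    rw [hq]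
    refine Matrix.ext fun r s => ?_
    exact ofPowerSeries_C _
  refine ⟨q * n * X⁻¹, ?_⟩
  have e3 : gx X * gx X⁻¹ = 1 := by rw [← gx_mul, mul_inv_cancel, gx_one]
  rw [gx_mul, gx_mul, hqz, ← hn, hN]
  rw [sub_self, un_zero, one_mul] at h1
  rw [← h1, Matrix.mul_assoc, e3, Matrix.mul_one]

end

end Pool.Agent.Lib.MP_74d0c9_nt
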